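import Pool.Agent.SeedPA.Canon

/-!
# Canonical states and vertices of degree at least two (CAN5, CAN6)
-/

open Finset Relation

namespace SeedPA

variable {I : Type*}

/-- vertices of degree at least two -/
def J2 (m : ℕ) (E : ESet) : Finset ℕ := (range m).filter (fun x => 2 ≤ deg E x)

theorem mem_J2 {m : ℕ} {E : ESet} {x : ℕ} : x ∈ J2 m E ↔ x < m ∧ 2 ≤ deg E x := by
  simp [J2]

section can5
variable {Z : SimpleGraph I} {m : ℕ} {s : St (Option I)}

/-- **CAN5** -/
theorem hub_of_deg (hs : TreeOn m s.E) (hc : Clean m s) (hcons : Cons Z m s) {x : ℕ} (hx : x < m)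
    (hd : 2 ≤ deg s.E x) : hubP s x := by
  intro hn
  have := (nonhub_deg hs hc hcons.conn hx hn).1
  omega

theorem exists_colmap (hs : TreeOn m s.E) (hc : Clean m s) (hcons : Cons Z m s) :
    ∃ f : {x // x ∈ J2 m s.E} → I, Function.Injective f ∧ ∀ x, s.col x.1 = some (f x) := by
  have h1 : ∀ x : {x // x ∈ J2 m s.E}, ∃ i, s.col x.1 = some i := fun x => by
    have := mem_J2.1 x.2
    exact hubP_iff.1 (hub_of_deg hs hc hcons this.1 this.2)
  choose f hf using h1
  refine ⟨f, ?_, hf⟩
  intro x y hxy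
  apply Subtype.ext
  exact hcons.uniq (f x) x.1 y.1 (mem_J2.1 x.2).1 (mem_J2.1 y.2).1 (hf x) (by rw [hxy]; exact hf y)

theorem card_J2_le [Fintype I] (hs : TreeOn m s.E) (hc : Clean m s) (hcons : Cons Z m s) :
    (J2 m s.E).card ≤ Fintype.card I := by
  obtain ⟨f, hf, -⟩ := exists_colmap hs hc hcons
  have := Fintype.card_le_of_injective f hf
  rwa [Fintype.card_coe] at this

theorem all_of_card_J2 [Fintype I] (hs : TreeOn m s.E) (hc : Clean m s) (hcons : Cons Z m s)
    (h : Fintype.card I ≤ (J2 m s.E).card) : ∀ i, ∃ x < m, s.col x = some i := by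
  obtain ⟨f, hf, hcol⟩ := exists_colmap hs hc hcons
  have hbij : Function.Bijective f := by
    rw [Fintype.bijective_iff_injective_and_card]
    refine ⟨hf, ?_⟩
    rw [Fintype.card_coe]
    exact le_antisymm (card_J2_le hs hc hcons) h
  intro i
  obtain ⟨x, hx⟩ := hbij.2 i
  exact ⟨x.1, (mem_J2.1 x.2).1, by rw [hcol x, hx]⟩

theorem deg_of_card_J2 [Fintype I] (hs : TreeOn m s.E) (hc : Clean m s) (hcons : Cons Z m s)
    (h : Fintype.card I ≤ (J2 m s.E).card) {x : ℕ} (hx : x < m) (hh : hubP s x) :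
    2 ≤ deg s.E x := by
  obtain ⟨f, hf, hcol⟩ := exists_colmap hs hc hcons
  have hbij : Function.Bijective f := by
    rw [Fintype.bijective_iff_injective_and_card]
    refine ⟨hf, ?_⟩
    rw [Fintype.card_coe]
    exact le_antisymm (card_J2_le hs hc hcons) h
  obtain ⟨i, hi⟩ := hubP_iff.1 hh
  obtain ⟨y, hy⟩ := hbij.2 i
  have := hcons.uniq i x y.1 hx (mem_J2.1 y.2).1 hi (by rw [hcol y, hy])
  rw [this]
  exact (mem_J2.1 y.2).2

end can5

section can6

theorem deg_mono {E E' : ESet} (h : E ⊆ E') (x : ℕ) : deg E x ≤ deg E' x := by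
  unfold deg
  exact card_le_card (filter_subset_filter _ h)

/-- two adjacent vertices of degree one are the whole tree -/
theorem TreeOn.neighbour_deg {m : ℕ} {E : ESet} (h : TreeOn m E) (hm : 3 ≤ m) {v w : ℕ}
    (he : s(v, w) ∈ E) (hd : deg E v = 1) : 2 ≤ deg E w := by
  by_contra hc
  have hvm := h.valid.lt _ he v (by simp)
  have hwm := h.valid.lt _ he w (by simp)
  have hdw : deg E w = 1 := by
    have := h.valid.pos w hwm
    omega
  have uniq : ∀ a b c, deg E a = 1 → s(a, b) ∈ E → s(a, c) ∈ E → b = c := by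
    intro a b c ha hb hc
    unfold deg at ha
    obtain ⟨e, hE⟩ := card_eq_one.1 ha
    have h1 : s(a, b) ∈ ({e} : Finset (Sym2 ℕ)) := by
      rw [← hE, mem_filter]; exact ⟨hb, by simp⟩
    have h2 : s(a, c) ∈ ({e} : Finset (Sym2 ℕ)) := by
      rw [← hE, mem_filter]; exact ⟨hc, by simp⟩
    rw [mem_singleton] at h1 h2
    have h3 := h1.trans h2.symm
    rw [Sym2.eq_iff] at h3
    rcases h3 with ⟨_, h3⟩ | ⟨h3, h4⟩
    · exact h3
    · rw [h4, h3]
  obtain ⟨z, hz, hzv, hzw⟩ : ∃ z < m, z ≠ v ∧ z ≠ w := by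
    by_cases h0 : 0 ≠ v ∧ 0 ≠ w
    · exact ⟨0, by omega, h0⟩
    · by_cases h1 : 1 ≠ v ∧ 1 ≠ w
      · exact ⟨1, by omega, h1⟩
      · exact ⟨2, by omega, by omega, by omega⟩
  have key : ∀ z, Conn E (fun _ => True) v z → z = v ∨ z = w := by
    intro z hz
    unfold Conn at hz
    induction hz with
    | refl => exact Or.inl rfl
    | @tail b c _ hbc ih =>
      rcases ih with rfl | rfl
      · exact Or.inr (uniq b c w hd hbc.1 he)
      · exact Or.inl (uniq b c v hdw hbc.1 (by rw [Sym2.eq_swap]; exact he))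
  rcases key z (h.conn v hvm z hz) with h1 | h1
  · exact hzv h1
  · exact hzw h1

/-- the vertices of degree at least two of a tree are connected through each other -/
theorem TreeOn.conn_J2 {m : ℕ} {E : ESet} (h : TreeOn m E) :
    ∀ x < m, ∀ y < m, 2 ≤ deg E x → 2 ≤ deg E y → Conn E (fun z => 2 ≤ deg E z) x y := by
  refine TreeOn.rec' (Pr := fun m E => ∀ x < m, ∀ y < m, 2 ≤ deg E x → 2 ≤ deg E y →
    Conn E (fun z => 2 ≤ deg E z) x y) ?_ ?_ ?_ m h.two_le E h
  · intro x hx y hy h1 h2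
    have : deg {s(0, 1)} x ≤ 1 := by
      unfold deg
      exact (card_filter_le _ _).trans (by simp)
    omega
  · intro m E v hm hE hv ih x hx y hy h1 h2
    have hsub : E ⊆ insert s(v, m) E := subset_insert _ _
    have hdm : deg (insert s(v, m) E) m = 1 := by
      rw [deg_insert (hE.valid.not_mem v), hE.valid.deg_zero le_rfl]; simp
    have hxm : x < m := by
      by_contra hc
      have : x = m := by omega
      rw [this] at h1
      omega
    have hym : y < m := by
      by_contra hc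
      have : y = m := by omega
      rw [this] at h2
      omega
    have hold : ∀ z < m, z ≠ v → 2 ≤ deg (insert s(v, m) E) z → 2 ≤ deg E z := by
      intro z hz hzv h3
      rw [deg_insert (hE.valid.not_mem v), if_neg (by omega)] at h3
      exact h3
    have hmono : ∀ z, 2 ≤ deg E z → 2 ≤ deg (insert s(v, m) E) z := fun z hz =>
      hz.trans (deg_mono hsub z)
    have hfrom : ∀ y < m, y ≠ v → 2 ≤ deg (insert s(v, m) E) v → 2 ≤ deg (insert s(v, m) E) y →
        Conn (insert s(v, m) E) (fun z => 2 ≤ deg (insert s(v, m) E) z) v y := by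
      intro y hy hyv h3 h4
      have h5 := hold y hy hyv h4
      by_cases h6 : 2 ≤ deg E v
      · exact (ih v hv y hy h6 h5).mono' hsub hmono
      · have hdv : deg E v = 1 := by
          have := hE.valid.pos v hv
          omega
        have hm3 : 3 ≤ m := by
          by_contra hc
          have hm2 : m = 2 := by omega
          subst hm2
          rw [valid_two hE.valid] at h5
          have : deg {s(0, 1)} y ≤ 1 := by
            unfold deg
            exact (card_filter_le _ _).trans (by simp)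
          omega
        obtain ⟨w, hw⟩ := deg_pos_iff.1 hdv.ge
        have hwm := hE.valid.lt _ hw w (by simp)
        have hw2 := hE.neighbour_deg hm3 hw hdv
        refine ReflTransGen.head ⟨mem_insert_of_mem hw, h3, hmono w hw2⟩ ?_
        exact (ih w hwm y hy hw2 h5).mono' hsub hmono
    by_cases hxv : x = v
    · by_cases hyv : y = v
      · rw [hxv, hyv]; exact Conn.refl _
      · rw [hxv] at h1 ⊢
        exact hfrom y hym hyv h1 h2
    · by_cases hyv : y = v
      · rw [hyv] at h2 ⊢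
        exact (hfrom x hxm hxv h2 h1).symm
      · exact (ih x hxm y hym (hold x hxm hxv h1) (hold y hym hyv h2)).mono' hsub hmono
  · intro m E σ hσ hE ih x hx y hy h1 h2
    have h3 := ih (σ.symm x) ((hσ.symm.lt_iff x).2 hx) (σ.symm y) ((hσ.symm.lt_iff y).2 hy)
      (by rw [← deg_permE']; exact h1) (by rw [← deg_permE']; exact h2)
    have h4 := (conn_perm (E := E) (nh := fun z => 2 ≤ deg E z) σ).2 h3
    have e : (fun z => 2 ≤ deg (permE σ E) z) = (fun z => 2 ≤ deg E (σ.symm z)) := by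
      funext z; rw [deg_permE']
    rw [e]
    simpa using h4

theorem TreeOn.J2_nonempty {m : ℕ} {E : ESet} (h : TreeOn m E) (hm : 3 ≤ m) : (J2 m E).Nonempty := by
  by_contra hc
  rw [not_nonempty_iff_eq_empty] at hc
  have h1 : ∀ x ∈ range m, deg E x ≤ 1 := by
    intro x hx
    by_contra hd
    have : x ∈ J2 m E := mem_J2.2 ⟨mem_range.1 hx, by omega⟩
    rw [hc] at this
    simp at this
  have h2 := sum_le_sum h1
  rw [h.valid.sum_deg] at h2
  simp at h2
  have := h.valid.card
  omega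

/-- the graph induced on the vertices of degree at least two, transported to `Fin r` -/
def ZJ {m : ℕ} {E : ESet} (hE : Valid m E) {r : ℕ} (e : Fin r ≃ {x // x ∈ J2 m E}) :
    SimpleGraph (Fin r) where
  Adj a b := s((e a).1, (e b).1) ∈ E
  symm := ⟨fun a b h => by rw [Sym2.eq_swap]; exact h⟩
  loopless := ⟨fun a h => hE.irrefl _ h⟩

open Classical in
/-- the canonical colouring -/
noncomputable def colJ {m : ℕ} {E : ESet} {r : ℕ} (e : Fin r ≃ {x // x ∈ J2 m E}) (x : ℕ) :
    Option (Fin r) := if h : x ∈ J2 m E then some (e.symm ⟨x, h⟩) else none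

section
variable {m : ℕ} {E : ESet} {r : ℕ} (e : Fin r ≃ {x // x ∈ J2 m E})

theorem colJ_some {x : ℕ} {a : Fin r} : colJ e x = some a ↔ (e a).1 = x := by
  unfold colJ
  constructor
  · intro h
    split_ifs at h with hx
    have h1 := Option.some.inj h
    rw [← h1, Equiv.apply_symm_apply]
  · intro h
    subst h
    rw [dif_pos (e a).2]
    congr 1
    exact e.symm_apply_apply a

theorem colJ_ne_none {x : ℕ} : colJ e x ≠ none ↔ x ∈ J2 m E := by
  unfold colJ
  split_ifs with h <;> simp [h]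

theorem conn_ZJ (h : TreeOn m E) (a b : Fin r) : (ZJ h.valid e).Reachable a b := by
  have h1 := h.conn_J2 (e a).1 (mem_J2.1 (e a).2).1 (e b).1 (mem_J2.1 (e b).2).1
    (mem_J2.1 (e a).2).2 (mem_J2.1 (e b).2).2
  have key : ∀ y, Conn E (fun z => 2 ≤ deg E z) (e a).1 y → ∀ b, (e b).1 = y →
      (ZJ h.valid e).Reachable a b := by
    intro y hy
    unfold Conn at hy
    induction hy with
    | refl =>
      intro b hb
      have : a = b := e.injective (Subtype.ext hb.symm)
      rw [this]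
    | @tail x z hxy hxz ih =>
      intro b hb
      have hxm := h.valid.lt _ hxz.1 x (by simp)
      have hxJ : x ∈ J2 m E := mem_J2.2 ⟨hxm, hxz.2.1⟩
      have h2 := ih (e.symm ⟨x, hxJ⟩) (by rw [Equiv.apply_symm_apply])
      refine h2.trans (SimpleGraph.Adj.reachable ?_)
      show s((e (e.symm ⟨x, hxJ⟩)).1, (e b).1) ∈ E
      rw [Equiv.apply_symm_apply, hb]
      exact hxz.1
  exact key _ h1 b rfl

/-- **CAN6**, tree part -/
theorem ZJ_isTree (h : TreeOn m E) (hm : 3 ≤ m) : (ZJ h.valid e).IsTree := by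
  classical
  have hne := h.J2_nonempty hm
  have : Nonempty (Fin r) := by
    obtain ⟨x, hx⟩ := hne
    exact ⟨e.symm ⟨x, hx⟩⟩
  rw [SimpleGraph.isTree_iff_connected_and_card]
  refine ⟨⟨fun a b => conn_ZJ e h a b⟩, ?_⟩
  have hv : (vIn m (fun z => z ∈ J2 m E)).card = r := by
    have : vIn m (fun z => z ∈ J2 m E) = J2 m E := by
      ext x
      rw [mem_vIn]
      exact ⟨fun h => h.2, fun h => ⟨(mem_J2.1 h).1, h⟩⟩
    rw [this, ← Fintype.card_coe, ← Fintype.card_congr e, Fintype.card_fin]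
  have h1 := h.card_eIn_lt h.two_le (fun z => z ∈ J2 m E) (by
    obtain ⟨x, hx⟩ := hne
    exact ⟨x, (mem_J2.1 hx).1, hx⟩)
  have h2 := h.card_vIn_le h.two_le (fun z => z ∈ J2 m E) (by
    intro x hx y hy h3 h4
    refine (Conn.congr h.valid.lt (fun z hz => ?_)).1
      (h.conn_J2 x hx y hy (mem_J2.1 h3).2 (mem_J2.1 h4).2)
    rw [mem_J2]
    exact ⟨fun h => ⟨hz, h⟩, fun h => h.2⟩)
  have h3 : (ZJ h.valid e).edgeFinset.card = (eIn (fun z => z ∈ J2 m E) E).card := by
    apply card_bij (fun ed _ => Sym2.map (fun a => (e a).1) ed)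
    · intro ed hed
      induction ed using Sym2.ind with
      | _ a b =>
        rw [SimpleGraph.mem_edgeFinset, SimpleGraph.mem_edgeSet] at hed
        rw [Sym2.map_mk, mem_eIn]
        exact ⟨hed, (e a).2, (e b).2⟩
    · intro a _ b _ hab
      exact Sym2.map.injective (Subtype.val_injective.comp e.injective) hab
    · intro ed hed
      induction ed using Sym2.ind with
      | _ a b =>
        rw [mem_eIn] at hed
        refine ⟨s(e.symm ⟨a, hed.2.1⟩, e.symm ⟨b, hed.2.2⟩), ?_, ?_⟩
        · rw [SimpleGraph.mem_edgeFinset, SimpleGraph.mem_edgeSet]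
          show s((e (e.symm ⟨a, hed.2.1⟩)).1, (e (e.symm ⟨b, hed.2.2⟩)).1) ∈ E
          rw [Equiv.apply_symm_apply, Equiv.apply_symm_apply]
          exact hed.1
        · rw [Sym2.map_mk]
          simp
  rw [Nat.card_eq_fintype_card, Nat.card_eq_fintype_card, Fintype.card_fin,
    ← SimpleGraph.edgeFinset_card, h3]
  omega

/-- **CAN6** -/
theorem canon_colJ (h : TreeOn m E) (hm : 3 ≤ m) :
    Canon (ZJ h.valid e) m ⟨E, colJ e⟩ (leafs m ⟨E, colJ e⟩) := by
  refine ⟨h, ⟨?_, ?_⟩, ⟨?_, ?_, ?_⟩, ?_, fun _ => rfl⟩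
  · obtain ⟨x, hx⟩ := h.J2_nonempty hm
    exact ⟨x, (mem_J2.1 hx).1, (colJ_ne_none e).2 hx⟩
  · intro x hx y hy he
    show colJ e x ≠ none ∨ colJ e y ≠ none
    rw [colJ_ne_none, colJ_ne_none, mem_J2, mem_J2]
    by_cases hd : 2 ≤ deg E x
    · exact Or.inl ⟨hx, hd⟩
    · right
      refine ⟨hy, h.neighbour_deg hm he ?_⟩
      have := h.valid.pos x hx
      omega
  · intro i x y _ _ h1 h2
    rw [← (colJ_some e).1 h1, ← (colJ_some e).1 h2]
  · intro i j x y _ _ h1 h2
    rw [← (colJ_some e).1 h1, ← (colJ_some e).1 h2]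
    exact Iff.rfl
  · intro x hx y hy h1 h2
    refine (Conn.congr h.valid.lt (fun z hz => ?_)).1
      (h.conn_J2 x hx y hy (mem_J2.1 ((colJ_ne_none e).1 h1)).2 (mem_J2.1 ((colJ_ne_none e).1 h2)).2)
    have := colJ_ne_none e (x := z)
    rw [mem_J2] at this
    unfold hubP
    rw [this]
    exact ⟨fun h => ⟨hz, h⟩, fun h => h.2⟩
  · intro i
    exact ⟨(e i).1, (mem_J2.1 (e i).2).1, (colJ_some e).2 rfl⟩

/-- the canonical colouring vanishes from level `m` on -/
theorem colJ_of_le {x : ℕ} (hx : m ≤ x) : colJ e x = none := by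
  by_contra hc
  have := mem_J2.1 ((colJ_ne_none e).1 hc)
  omega

end

end can6

end SeedPA
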