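import Pool.Agent.SeedPA.Exist

/-!
# Existence: numerical estimates and the final lower bound
-/

open Finset Relation Filter

namespace SeedPA

theorem num1 {c : ℝ} (hc : 0 < c) (A : ℝ) (K : ℕ) :
    ∀ᶠ b : ℕ in atTop, A * (b:ℝ) ^ K * Real.exp (-(c * b)) ≤ 1 / 16 := by
  have h1 := Real.tendsto_pow_mul_exp_neg_atTop_nhds_zero K
  have h2 : Tendsto (fun b : ℕ => c * (b:ℝ)) atTop atTop :=
    tendsto_natCast_atTop_atTop.const_mul_atTop hc
  have h3 := (h1.comp h2).const_mul (A / c ^ K)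
  rw [mul_zero] at h3
  have h4 := h3.eventually_le_const (show (0:ℝ) < 1 / 16 by norm_num)
  filter_upwards [h4] with b hb
  refine le_trans (le_of_eq ?_) hb
  simp only [Function.comp]
  rw [mul_pow]
  field_simp

theorem num_log {α : ℝ} (h0 : 0 < α) (h1 : α < 1) (K : ℝ) (hK : 0 ≤ K) :
    ∀ᶠ X : ℝ in atTop, K * (1 + 4 * X ^ α) * Real.log X ≤ X / 10 := by
  have t1 := (isLittleO_log_rpow_atTop (r := (1 - α) / 2) (by linarith)).bound
    (show (0:ℝ) < 1 by norm_num)
  have t2 : Filter.Tendsto (fun X : ℝ => X ^ ((1 - α) / 2)) Filter.atTop Filter.atTop :=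
    tendsto_rpow_atTop (by linarith)
  have t3 := t2.eventually_ge_atTop (50 * K)
  filter_upwards [t1, t3, Filter.eventually_ge_atTop (1:ℝ)] with X e1 e2 e3
  have hX0 : 0 < X := by linarith
  have hlog : 0 ≤ Real.log X := Real.log_nonneg e3
  rw [Real.norm_of_nonneg hlog, Real.norm_of_nonneg (by positivity), one_mul] at e1
  have hXa : 1 ≤ X ^ α := Real.one_le_rpow e3 h0.le
  have e4 : X ^ α * X ^ ((1 - α) / 2) * X ^ ((1 - α) / 2) = X := by
    rw [← Real.rpow_add hX0, ← Real.rpow_add hX0]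
    have : α + (1 - α) / 2 + (1 - α) / 2 = 1 := by ring
    rw [this, Real.rpow_one]
  set Y := X ^ ((1 - α) / 2) with hY
  have hY0 : 0 ≤ Y := by positivity
  calc K * (1 + 4 * X ^ α) * Real.log X
      ≤ K * (5 * X ^ α) * Y := by
        apply mul_le_mul _ e1 hlog (by positivity)
        apply mul_le_mul_of_nonneg_left _ hK
        linarith
    _ = (50 * K) * (X ^ α * Y) / 10 := by ring
    _ ≤ Y * (X ^ α * Y) / 10 := by
        apply div_le_div_of_nonneg_right _ (by norm_num)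
        exact mul_le_mul_of_nonneg_right e2 (by positivity)
    _ = X / 10 := by
        have : Y * (X ^ α * Y) = X := by
          calc Y * (X ^ α * Y) = X ^ α * Y * Y := by ring
            _ = X := e4
        rw [this]

theorem num4 {α : ℝ} (h0 : 0 < α) (h1 : α < 1) (Q K : ℕ) :
    ∀ᶠ b : ℕ in atTop, ∀ r, 1 ≤ r → (K:ℝ) * ((1 / 2) ^ (b ^ r + 1 - K) *
      ((b ^ (7 * Q + 1) : ℕ) : ℝ) ^ (2 * ((3 * b ^ r + 1 : ℕ):ℝ) ^ α)) ≤ 1 / 16 := by
  have hlim := num_log h0 h1 ((7 * Q + 1 : ℕ) : ℝ) (by positivity)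
  rw [Filter.eventually_atTop] at hlim
  obtain ⟨X0, hX0⟩ := hlim
  have t1 := num1 (show (0:ℝ) < 1 / 4 by norm_num) (K * Real.exp K) 0
  filter_upwards [t1, Filter.eventually_ge_atTop (⌈X0⌉₊ + 10 + K)] with b e1 hb r hr
  have hb10 : 10 ≤ b := by omega
  have hbR : (10:ℝ) ≤ b := by exact_mod_cast hb10
  have hb0 : (0:ℝ) < b := by linarith
  have hbX : X0 ≤ b := (Nat.le_ceil _).trans (by exact_mod_cast (by omega))
  set X : ℝ := (b:ℝ) ^ r with hX
  have hbleX : (b:ℝ) ≤ X := le_self_pow₀ (by linarith) (by omega)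
  have hmain := hX0 X (hbX.trans hbleX)
  have hX1 : 1 ≤ X := by linarith
  have hXpos : 0 < X := by linarith
  have hlogb : 0 ≤ Real.log b := Real.log_nonneg (by linarith)
  have hlog : Real.log b ≤ Real.log X := Real.log_le_log hb0 hbleX
  have hXa : (((3 * b ^ r + 1 : ℕ):ℝ)) ^ α ≤ 4 * X ^ α := by
    have : (((3 * b ^ r + 1 : ℕ):ℝ)) ≤ 4 * X := by push_cast; linarith
    calc (((3 * b ^ r + 1 : ℕ):ℝ)) ^ α ≤ (4 * X) ^ α := Real.rpow_le_rpow (by positivity) this h0.le
      _ = 4 ^ α * X ^ α := Real.mul_rpow (by norm_num) hXpos.le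
      _ ≤ 4 * X ^ α := by
          apply mul_le_mul_of_nonneg_right _ (by positivity)
          calc (4:ℝ) ^ α ≤ 4 ^ (1:ℝ) := Real.rpow_le_rpow_of_exponent_le (by norm_num) h1.le
            _ = 4 := by norm_num
  have hn1 : ((b ^ (7 * Q + 1) : ℕ) : ℝ) = Real.exp (((7 * Q + 1 : ℕ) : ℝ) * Real.log b) := by
    have e : ((7 * Q + 1 : ℕ) : ℝ) * Real.log b = Real.log b * ((7 * Q + 1 : ℕ) : ℝ) := mul_comm _ _
    rw [e, Real.exp_mul, Real.exp_log hb0, Real.rpow_natCast]
    push_cast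
    rfl
  have hbr : b ≤ b ^ r := Nat.le_self_pow (by omega) b
  have hhalf : ((1:ℝ) / 2) ^ (b ^ r + 1 - K) ≤ Real.exp (K - X / 2) := by
    have e1 : ((1:ℝ) / 2) = Real.exp (-Real.log 2) := by
      rw [Real.exp_neg, Real.exp_log (by norm_num)]; norm_num
    rw [e1, ← Real.exp_nat_mul]
    apply Real.exp_le_exp.2
    rw [Nat.cast_sub (by omega)]
    push_cast
    rw [← hX]
    have hl2 : (0.69:ℝ) ≤ Real.log 2 := by
      have := Real.log_two_gt_d9; linarith
    have hl3 : Real.log 2 ≤ 1 := by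
      have := Real.log_two_lt_d9; linarith
    have hKX : (K:ℝ) ≤ X := le_trans (by exact_mod_cast (by omega)) hbleX
    have hK0 : (0:ℝ) ≤ K := by positivity
    have h5 : 0 ≤ X + 1 - (K:ℝ) := by linarith
    have h6 := mul_le_mul_of_nonneg_left hl2 h5
    nlinarith
  rw [hn1, ← Real.exp_mul]
  calc (K:ℝ) * ((1 / 2) ^ (b ^ r + 1 - K) *
      Real.exp (((7 * Q + 1 : ℕ) : ℝ) * Real.log b * (2 * ((3 * b ^ r + 1 : ℕ):ℝ) ^ α)))
      ≤ K * (Real.exp (K - X / 2) *
      Real.exp (((7 * Q + 1 : ℕ) : ℝ) * Real.log X * (2 * (4 * X ^ α)))) := by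
        apply mul_le_mul_of_nonneg_left _ (by positivity)
        apply mul_le_mul hhalf _ (by positivity) (by positivity)
        apply Real.exp_le_exp.2
        apply mul_le_mul _ _ (by positivity) (mul_nonneg (by positivity) (hlogb.trans hlog))
        · exact mul_le_mul_of_nonneg_left hlog (by positivity)
        · linarith
    _ = K * Real.exp (K - X / 2 + ((7 * Q + 1 : ℕ) : ℝ) * (8 * X ^ α) * Real.log X) := by
        rw [← Real.exp_add]; congr 2; ring
    _ ≤ K * Real.exp (K + (-(1 / 4 * b))) := by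
        apply mul_le_mul_of_nonneg_left _ (by positivity)
        apply Real.exp_le_exp.2
        have hl0 : 0 ≤ Real.log X := hlogb.trans hlog
        have h5 : ((7 * Q + 1 : ℕ) : ℝ) * (8 * X ^ α) * Real.log X ≤ X / 5 := by
          have h6 : 0 ≤ ((7 * Q + 1 : ℕ) : ℝ) * 2 * Real.log X := by positivity
          nlinarith
        linarith
    _ = K * Real.exp K * (b:ℝ) ^ 0 * Real.exp (-(1 / 4 * b)) := by
        rw [Real.exp_add]; ring
    _ ≤ 1 / 16 := e1

theorem numW (K Q : ℕ) (hQ : 1 ≤ Q) : ∀ᶠ b : ℕ in atTop, ∀ l : ℕ, 1 ≤ l →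
    (l:ℝ) ≤ K * (b:ℝ) ^ (Q - 1) → ∀ d ≤ l,
      Real.exp (-(b:ℝ) ^ Q) ≤ 1 / 2 * (1 / (2 * (l:ℝ))) ^ d := by
  have t1 := (Real.isLittleO_log_id_atTop.bound
    (show (0:ℝ) < 1 / (2 * (K * Q + 1)) by positivity))
  have t2 := tendsto_natCast_atTop_atTop (R := ℝ) |>.eventually t1
  filter_upwards [t2, Filter.eventually_ge_atTop (2 * (2 * K ^ 2 + 1) + 1)] with b e1 hb l hl1 hlK d hd
  have hb1 : 1 ≤ b := by omega
  have hbR : (1:ℝ) ≤ b := by exact_mod_cast hb1
  have hlR : (1:ℝ) ≤ l := by exact_mod_cast hl1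
  have hlogb : 0 ≤ Real.log b := Real.log_nonneg hbR
  rw [Real.norm_of_nonneg hlogb, id, Real.norm_of_nonneg (by linarith)] at e1
  have hKpos : (0:ℝ) < K := by
    rcases Nat.eq_zero_or_pos K with h | h
    · subst h; simp at hlK; omega
    · exact_mod_cast h
  have hK1 : (1:ℝ) ≤ K := by
    have : 0 < K := by exact_mod_cast hKpos
    exact_mod_cast this
  have hmain : (l:ℝ) * Real.log (2 * l) + Real.log 2 ≤ (b:ℝ) ^ Q := by
    have h1 : Real.log (2 * l) ≤ 2 * K + Q * Real.log b := by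
      have h2 : Real.log (2 * l) ≤ Real.log ((2 * K) * (b:ℝ) ^ (Q - 1)) :=
        Real.log_le_log (by positivity) (by linarith)
      have e2 : Real.log ((2 * K) * (b:ℝ) ^ (Q - 1)) =
          Real.log (2 * K) + ((Q - 1 : ℕ) : ℝ) * Real.log b := by
        rw [Real.log_mul (by positivity) (by positivity), Real.log_pow]
      rw [e2] at h2
      have h3 : Real.log (2 * K) ≤ 2 * K := (Real.log_le_sub_one_of_pos (by positivity)).trans
        (by linarith)
      have h4 : ((Q - 1 : ℕ) : ℝ) ≤ Q := by exact_mod_cast (by omega)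
      nlinarith
    have h5 : Real.log (2 * l) ≥ 0 := Real.log_nonneg (by linarith)
    have hb2 : (1:ℝ) ≤ (b:ℝ) ^ (Q - 1) := one_le_pow₀ hbR
    have hl2 : Real.log 2 ≤ 1 := by
      have := Real.log_two_lt_d9; linarith
    have e3 : (b:ℝ) ^ Q = (b:ℝ) ^ (Q - 1) * b := by
      rw [← pow_succ]; congr 1; omega
    have hKQ : K * (Q * Real.log b) ≤ b / 2 := by
      have h6 : Real.log b * (2 * (K * Q + 1)) ≤ b := by
        calc Real.log b * (2 * (K * Q + 1)) ≤ (1 / (2 * (K * Q + 1)) * b) * (2 * (K * Q + 1)) :=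
              mul_le_mul_of_nonneg_right e1 (by positivity)
          _ = b := by field_simp
      nlinarith
    have hbK : 2 * (2 * (K:ℝ) ^ 2 + 1) ≤ b := by
      have : 2 * (2 * K ^ 2 + 1) ≤ b := by omega
      exact_mod_cast this
    calc (l:ℝ) * Real.log (2 * l) + Real.log 2
        ≤ (K * (b:ℝ) ^ (Q - 1)) * (2 * K + Q * Real.log b) + 1 * (b:ℝ) ^ (Q - 1) := by
          apply add_le_add
          · exact mul_le_mul hlK h1 h5 (by positivity)
          · linarith
      _ = (b:ℝ) ^ (Q - 1) * (2 * (K:ℝ) ^ 2 + 1 + K * (Q * Real.log b)) := by ring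
      _ ≤ (b:ℝ) ^ (Q - 1) * b := by
          apply mul_le_mul_of_nonneg_left _ (by positivity)
          linarith
      _ = (b:ℝ) ^ Q := e3.symm
  have h7 : (1 / (2 * (l:ℝ))) ^ l ≤ (1 / (2 * (l:ℝ))) ^ d := by
    apply pow_le_pow_of_le_one (by positivity) _ hd
    rw [div_le_one (by positivity)]
    linarith
  have h8 : 1 / 2 * (1 / (2 * (l:ℝ))) ^ l = Real.exp (-(l * Real.log (2 * l) + Real.log 2)) := by
    rw [neg_add, Real.exp_add, Real.exp_neg (Real.log 2), Real.exp_log (by norm_num),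
      ← mul_neg, Real.exp_nat_mul, Real.exp_neg, Real.exp_log (by positivity)]
    rw [one_div, one_div, mul_comm]
  calc Real.exp (-(b:ℝ) ^ Q) ≤ Real.exp (-(l * Real.log (2 * l) + Real.log 2)) :=
        Real.exp_le_exp.2 (by linarith)
    _ = 1 / 2 * (1 / (2 * (l:ℝ))) ^ l := h8.symm
    _ ≤ _ := mul_le_mul_of_nonneg_left h7 (by norm_num)

theorem one_le_cfac {α : ℝ} (h0 : 0 < α) (n : ℕ) (E : ESet) : 1 ≤ cfac α n E := by
  unfold cfac
  rw [← prod_const_one (s := range n)]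
  apply prod_le_prod (fun _ _ => zero_le_one)
  intro v _
  apply Real.one_le_rpow _ h0.le
  exact_mod_cast Nat.factorial_pos _

section
variable {I : Type*} [Fintype I] {α : ℝ}

/-- **X1**: existence lower bound -/
theorem exist_lower (h0 : 0 < α) (h1 : α < 1) {Z : SimpleGraph I} (hZ : Z.IsTree) {k : ℕ}
    (hk : 2 ≤ k) {Q d : ℕ} {q : I → ℕ} (hq : ∀ i, 2 ≤ q i ∧ q i + 1 ≤ d) (hd : d + 2 ≤ Q) :
    ∃ b0 : ℕ, ∀ b ≥ b0, ∃ n' : ℕ, ∀ n ≥ n', ∀ s : St (Option I), TreeOn k s.E →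
      (∀ i, ∃ x < k, s.col x = some i) →
      (∀ i x y, x < k → y < k → s.col x = some i → s.col y = some i → x = y) →
      (∀ x < k, ∀ y < k, ∀ i i', s.col x = some i → s.col y = some i' → Z.Adj i i' →
        s(x, y) ∈ s.E) →
      Real.exp (-(b:ℝ) ^ Q) ≤ Rv α (par b Q d q n) Z k s := by
  classical
  obtain ⟨c, C, m0, hc0, hC0, hconc⟩ := conc h0 h1
  have hc : ConcP α c C m0 := hconc
  obtain ⟨i0⟩ := hZ.connected.nonempty
  set K : ℕ := Fintype.card I with hK
  have hK1 : 1 ≤ K := Fintype.card_pos_iff.2 ⟨i0⟩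
  obtain ⟨bT, hT⟩ := T1 (I := I) h0 h1 Q d q (by omega)
  have ev1 := num1 hc0 (3 * K) Q
  have ev2 := num1 hc0 (Real.exp C * (1 + 1 / c)) Q
  have ev4 := num4 h0 h1 Q K
  have evW := numW (3 * K) Q (by omega)
  obtain ⟨b1, hb1⟩ := Filter.eventually_atTop.1 (ev1.and (ev2.and (ev4.and evW)))
  refine ⟨bT + b1 + m0 + k + 3 * K + ⌈1 / c⌉₊ + ⌈(C + c) / (2 * c)⌉₊ + 4, ?_⟩
  intro b hb
  obtain ⟨nT, hnT⟩ := hT b (by omega)
  obtain ⟨hn1, hn2, hn4, hnW⟩ := hb1 b (by omega)
  refine ⟨nT + b ^ (7 * Q + 1) + 1, ?_⟩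
  intro n hn s hs hex huniq hadj
  set P := par b Q d q n with hPdef
  have hPn : P.n = n := rfl
  have hPn1 : P.n1 = b ^ (7 * Q + 1) := rfl
  have hPt : P.t = b ^ (6 * Q) := rfl
  have hPu : P.u = b ^ (Q - d) := rfl
  have hPH : ∀ i, P.H i = b ^ (Q - q i) := fun _ => rfl
  have hb4 : 4 ≤ b := by omega
  have hbR : (4:ℝ) ≤ b := by exact_mod_cast hb4
  have hb0 : (0:ℝ) < b := by linarith
  have hP : P.n1 ≤ P.n := by rw [hPn1, hPn]; omega
  have hcb : 1 ≤ c * b := by
    have : 1 / c ≤ b := (Nat.le_ceil _).trans (by exact_mod_cast (by omega))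
    rw [div_le_iff₀ hc0] at this
    linarith
  have hCb : C + c ≤ 2 * c * b := by
    have : (C + c) / (2 * c) ≤ b := (Nat.le_ceil _).trans (by exact_mod_cast (by omega))
    rw [div_le_iff₀ (by positivity)] at this
    linarith
  -- the labelling
  obtain ⟨L, hLk, hLi, hLc⟩ := exists_colL (le_refl k) hex huniq
  have hkb : k ≤ b ^ (7 * Q + 1) := by
    calc k ≤ b := by omega
      _ ≤ _ := Nat.le_self_pow (by omega) b
  have hLset : L ∈ Lset P k s := mem_Lset.2
    ⟨fun i => by rw [hPn1]; have := hLk i; omega, hLi, hLc⟩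
  rw [Rv_eq_sum_pr hP hZ (by omega) (by rw [hPn]; omega) hs]
  set Φ : ESet → ℝ := ind (fun E => Good P Z ⟨E, colL L⟩) with hΦ
  have hΦ0 : ∀ E, 0 ≤ Φ E := fun E => ind_nonneg _ _
  have hsum : pr α k (P.n - k) Φ s.E ≤
      ∑ L ∈ Lset P k s, pr α k (P.n - k) (ind (fun E => Good P Z ⟨E, colL L⟩)) s.E :=
    single_le_sum (f := fun L => pr α k (P.n - k) (ind (fun E => Good P Z ⟨E, colL L⟩)) s.E)
      (fun L _ => pr_nonneg (fun E => ind_nonneg _ _) _ _ _) hLset
  have hpr0 : 0 ≤ pr α k (P.n - k) Φ s.E := pr_nonneg hΦ0 _ _ _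
  have hcf := one_le_cfac h0 k s.E
  refine le_trans ?_ (mul_le_mul_of_nonneg_left hsum (by linarith))
  refine le_trans ?_ (le_mul_of_one_le_left hpr0 hcf)
  -- the target level
  set l : ℕ := lvl (fun i => P.H i) b with hl
  have hl_eq : l = K + ∑ i, 2 * b ^ (Q - q i) * b := rfl
  have hterm : ∀ i, 2 * b ^ (Q - q i) * b = 2 * b ^ (Q - q i + 1) := fun i => by
    rw [pow_succ]; ring
  have hl_le : l ≤ 3 * K * b ^ (Q - 1) := by
    rw [hl_eq]
    have h2 : ∑ i, 2 * b ^ (Q - q i) * b ≤ ∑ i : I, 2 * b ^ (Q - 1) := by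
      apply sum_le_sum
      intro i _
      rw [hterm]
      apply Nat.mul_le_mul_left
      apply Nat.pow_le_pow_right (by omega)
      have := hq i
      omega
    rw [sum_const, card_univ, smul_eq_mul, ← hK] at h2
    have h3 : 1 ≤ b ^ (Q - 1) := Nat.one_le_pow _ _ (by omega)
    nlinarith
  have hl_ge : 2 * b ^ (Q - d + 2) ≤ l := by
    rw [hl_eq]
    have h2 : 2 * b ^ (Q - q i0) * b ≤ ∑ i, 2 * b ^ (Q - q i) * b :=
      single_le_sum (f := fun i => 2 * b ^ (Q - q i) * b) (fun _ _ => Nat.zero_le _) (mem_univ i0)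
    rw [hterm] at h2
    have h3 : 2 * b ^ (Q - d + 2) ≤ 2 * b ^ (Q - q i0 + 1) := by
      apply Nat.mul_le_mul_left
      apply Nat.pow_le_pow_right (by omega)
      have := hq i0
      omega
    omega
  have hlb : b ≤ l := by
    have : b ≤ b ^ (Q - d + 2) := Nat.le_self_pow (by omega) b
    omega
  have hlQ : l ≤ b ^ Q := by
    calc l ≤ 3 * K * b ^ (Q - 1) := hl_le
      _ ≤ b * b ^ (Q - 1) := Nat.mul_le_mul_right _ (by omega)
      _ = b ^ Q := by rw [← pow_succ']; congr 1; omega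
  have hl2Q : l ≤ b ^ (2 * Q) := hlQ.trans (Nat.pow_le_pow_right (by omega) (by omega))
  have hln1 : l ≤ P.n1 := by
    rw [hPn1]
    exact hlQ.trans (Nat.pow_le_pow_right (by omega) (by omega))
  have hH1 : ∀ i, b ≤ P.H i := fun i => by
    rw [hPH]
    have := hq i
    exact Nat.le_self_pow (by omega) b
  -- the invariant at level k
  have hcszle : ∀ (m : ℕ) (E : ESet) (nh : ℕ → Prop) (x : ℕ), csz m E nh x ≤ m := by
    intro m E nh x
    unfold csz
    refine (card_filter_le _ _).trans ?_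
    rw [card_range]
  have hJ : JInv Z (fun i => P.H i) b L k s.E := by
    refine ⟨hs, hLk, ?_, ?_, ?_⟩
    · intro i j hij
      have e1 := hLc (L i) (hLk i)
      have e2 := hLc (L j) (hLk j)
      rw [colL_self hLi] at e1 e2
      exact hadj _ (hLk i) _ (hLk j) i j e1.symm e2.symm hij
    · intro i
      have h2 : (nbI k s.E L i).card ≤ k := by
        unfold nbI
        refine (card_filter_le _ _).trans ?_
        rw [card_range]
      have := hH1 i
      show (nbI k s.E L i).card ≤ 2 * P.H i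
      omega
    · intro z _ _
      exact (hcszle _ _ _ _).trans (by omega)
  -- the probability from level l on
  have hfin : ∀ E, JInv Z (fun i => P.H i) b L l E → 1 / 2 ≤ pr α l (P.n - l) Φ E := by
    intro E hE
    obtain ⟨hnb, hcomp⟩ := hE.final hZ.connected hLi (by omega) (by omega)
    have hlt : (l:ℝ) ≤ c * b * P.t := by
      have h2 : (l:ℝ) ≤ (b:ℝ) ^ (6 * Q) := by
        have : l ≤ b ^ (6 * Q) := hlQ.trans (Nat.pow_le_pow_right (by omega) (by omega))
        exact_mod_cast this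
      rw [hPt]
      push_cast
      have h3 : 0 < (b:ℝ) ^ (6 * Q) := by positivity
      nlinarith
    have hu1 : 1 ≤ P.u := by rw [hPu]; exact Nat.one_le_pow _ _ (by omega)
    have ht1 : 1 ≤ P.t := by rw [hPt]; exact Nat.one_le_pow _ _ (by omega)
    have hmain := good_prob h0 h1 hc0 hc hLi hP (l := l) (b := b) (by omega) (by omega) hln1 hE.tree
      hE.lt hE.adj hnb (fun i => by have := hH1 i; omega) (fun i => by have := hH1 i; omega)
      hcomp (by omega) hu1 ht1 hlt (Z := Z)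
    have hdeg : ∀ y < l, deg E y ≤ b ^ Q := by
      intro y _
      rw [← card_nbr_eq_deg hE.tree.valid]
      refine le_trans ?_ hlQ
      unfold nbr
      refine (card_filter_le _ _).trans ?_
      rw [card_range]
    have t5 : pr α l (P.n - l) (ind (fun E' => ¬ Reg P E')) E ≤ Real.exp (-(2 * (b:ℝ) ^ Q)) :=
      hnT n (by omega) l (by omega) hl2Q E hE.tree hdeg
    have huR : (0:ℝ) < P.u := by exact_mod_cast hu1
    have hlu : 2 * (b:ℝ) ^ 2 ≤ (1 / P.u) * l := by
      have h2 : 2 * (b:ℝ) ^ (Q - d + 2) ≤ l := by exact_mod_cast hl_ge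
      have e2 : (P.u:ℝ) = (b:ℝ) ^ (Q - d) := by rw [hPu]; push_cast; rfl
      rw [one_div, inv_mul_eq_div, le_div_iff₀ huR, e2]
      calc 2 * (b:ℝ) ^ 2 * (b:ℝ) ^ (Q - d) = 2 * (b:ℝ) ^ (Q - d + 2) := by rw [pow_add]; ring
        _ ≤ l := h2
    have hlR : (l:ℝ) ≤ 3 * K * (b:ℝ) ^ Q := by
      have h2 : l ≤ 3 * K * b ^ Q := hlQ.trans (by nlinarith [Nat.one_le_pow Q b (by omega)])
      exact_mod_cast h2
    have s1 : (l:ℝ) * Real.exp (-c * (1 / P.u) * l + C * b) ≤ 1 / 16 := by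
      refine le_trans ?_ hn1
      apply mul_le_mul hlR _ (Real.exp_pos _).le (by positivity)
      apply Real.exp_le_exp.2
      have h3 : -c * (1 / (P.u:ℝ)) * l = -(c * ((1 / P.u) * l)) := by ring
      rw [h3]
      have h4 := mul_le_mul_of_nonneg_left hlu hc0.le
      have h5 := mul_le_mul_of_nonneg_right hCb hb0.le
      nlinarith
    have s2 : Real.exp (-(c * (1 / P.u) * l)) * (1 + 1 / (c * (1 / P.u))) * Real.exp C ≤ 1 / 16 := by
      have e2 : (P.u:ℝ) = (b:ℝ) ^ (Q - d) := by rw [hPu]; push_cast; rfl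
      have h3 : Real.exp (-(c * (1 / P.u) * l)) ≤ Real.exp (-(c * b)) := by
        apply Real.exp_le_exp.2
        have h4 := mul_le_mul_of_nonneg_left hlu hc0.le
        have h5 : (b:ℝ) ≤ 2 * (b:ℝ) ^ 2 := by nlinarith
        have h6 := mul_le_mul_of_nonneg_left h5 hc0.le
        have h7 : c * (1 / (P.u:ℝ)) * l = c * ((1 / P.u) * l) := by ring
        rw [h7]
        linarith
      have h4 : 1 + 1 / (c * (1 / (P.u:ℝ))) ≤ (1 + 1 / c) * (b:ℝ) ^ Q := by
        have e3 : 1 / (c * (1 / (P.u:ℝ))) = (1 / c) * (b:ℝ) ^ (Q - d) := by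
          rw [← e2]; field_simp
        rw [e3, add_mul, one_mul]
        have h5 : (1:ℝ) ≤ (b:ℝ) ^ Q := one_le_pow₀ (by linarith)
        have h6 : (b:ℝ) ^ (Q - d) ≤ (b:ℝ) ^ Q := pow_le_pow_right₀ (by linarith) (by omega)
        have h7 := mul_le_mul_of_nonneg_left h6 (show 0 ≤ 1 / c by positivity)
        linarith
      refine le_trans ?_ hn2
      calc Real.exp (-(c * (1 / P.u) * l)) * (1 + 1 / (c * (1 / P.u))) * Real.exp C
          ≤ Real.exp (-(c * b)) * ((1 + 1 / c) * (b:ℝ) ^ Q) * Real.exp C := by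
            apply mul_le_mul_of_nonneg_right _ (Real.exp_pos _).le
            exact mul_le_mul h3 h4 (by positivity) (by positivity)
        _ = _ := by ring
    have s3 : (l:ℝ) * Real.exp (-c * b) ≤ 1 / 16 := by
      refine le_trans ?_ hn1
      rw [neg_mul]
      exact mul_le_mul_of_nonneg_right hlR (Real.exp_pos _).le
    have s4 : ∑ i, ((1:ℝ) / 2) ^ (P.H i + 1 - Fintype.card I) *
        (P.n1 : ℝ) ^ (2 * ((3 * P.H i + 1 : ℕ):ℝ) ^ α) ≤ 1 / 16 := by
      have hKR : (0:ℝ) < K := by exact_mod_cast hK1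
      have h3 : ∀ i ∈ (univ : Finset I), ((1:ℝ) / 2) ^ (P.H i + 1 - Fintype.card I) *
          (P.n1 : ℝ) ^ (2 * ((3 * P.H i + 1 : ℕ):ℝ) ^ α) ≤ 1 / 16 / K := by
        intro i _
        rw [le_div_iff₀ hKR, mul_comm]
        have := hq i
        exact hn4 (Q - q i) (by omega)
      refine (sum_le_card_nsmul _ _ _ h3).trans ?_
      rw [card_univ, ← hK, nsmul_eq_mul]
      have : (K:ℝ) * (1 / 16 / K) = 1 / 16 := by field_simp
      linarith
    have s5 : Real.exp (-(2 * (b:ℝ) ^ Q)) ≤ 1 / 16 := by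
      have h3 : (4:ℝ) ≤ (b:ℝ) ^ Q := hbR.trans (le_self_pow₀ (by linarith) (by omega))
      have h4 : Real.exp (-(2 * (b:ℝ) ^ Q)) ≤ Real.exp (-8) := Real.exp_le_exp.2 (by linarith)
      have h5 : Real.exp (-8) ≤ 1 / 16 := by
        rw [Real.exp_neg, ← one_div]
        apply one_div_le_one_div_of_le (by norm_num)
        have h6 : (2:ℝ) ≤ Real.exp 1 := by
          have := Real.add_one_le_exp (1:ℝ)
          linarith
        have h7 : Real.exp 8 = Real.exp 1 ^ 8 := by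
          rw [← Real.exp_nat_mul]; norm_num
        rw [h7]
        calc (16:ℝ) ≤ 2 ^ 8 := by norm_num
          _ ≤ Real.exp 1 ^ 8 := pow_le_pow_left₀ (by norm_num) h6 8
      exact h4.trans h5
    rw [hΦ]
    linarith
  -- conclusion
  have hcomp' : pr α k (P.n - k) Φ s.E = pr α k (l - k) (pr α l (P.n - l) Φ) s.E := by
    rw [show P.n - k = (l - k) + (P.n - l) by omega, pr_comp, show k + (l - k) = l by omega]
  rw [hcomp']
  have hforced := pr_forced (α := α) (Z := Z) (Hh := fun i => P.H i) (b := b) (L := L) h0 h1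
    hZ.connected hLi (by omega) (Ψ := pr α l (P.n - l) Φ) (fun E => pr_nonneg hΦ0 _ _ _)
    (c0 := 1 / 2) (by norm_num) hfin (l - k) k s.E (by omega) hk hJ
  refine le_trans ?_ hforced
  exact hnW l (by omega) (by push_cast; exact_mod_cast hl_le) (l - k) (by omega)

end

end SeedPA
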