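import Pool.Agent.SeedPA.MainK

/-!
# Interface of the comparison lemmas J and D
-/

open Finset

namespace SeedPA

/-- admissible parameters -/
structure ParOK {I : Type*} (α : ℝ) (Q d : ℕ) (q : I → ℕ) : Prop where
  q2 : ∀ i, 2 ≤ q i
  qd : ∀ i, q i + 1 ≤ d
  dQ : d + 2 ≤ Q
  c1 : ∀ i, (4 * q i + d + 4 : ℝ) ≤ ((2:ℝ) ^ (1 - α) - 1) * Q
  c2 : ∀ i, 4 * q i + 8 ≤ Q

/-- **J** for a new leaf at a present hub -/
def JLeafProp {I : Type*} [Fintype I] (α : ℝ) (Z : SimpleGraph I) (Q d : ℕ) (q : I → ℕ) : Prop :=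
  ∀ K : ℕ, ∃ b0 : ℕ, ∀ b ≥ b0, ∃ n' : ℕ, ∀ n ≥ n', ∀ m, 2 ≤ m → m ≤ K → ∀ s : St (Option I),
    TreeOn m s.E → Clean m s → ∀ y < m, ∀ i, s.col y = some i →
    Rv α (par b Q d q n) Z m s ≤
      (b:ℝ) ^ (4 * q i + 1) * Rv α (par b Q d q n) Z (m + 1) (s.step m y none) +
      2 * (cfac α m s.E * Real.exp (-(2 * (b:ℝ) ^ Q)))

/-- **J** for a missing hub adjacent to a present hub -/
def JHubProp {I : Type*} [Fintype I] (α : ℝ) (Z : SimpleGraph I) (Q d : ℕ) (q : I → ℕ) : Prop :=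
  ∀ K : ℕ, ∃ b0 : ℕ, ∀ b ≥ b0, ∃ n' : ℕ, ∀ n ≥ n', ∀ m, 2 ≤ m → m ≤ K → ∀ s : St (Option I),
    TreeOn m s.E → Clean m s → ∀ y < m, ∀ i i', s.col y = some i' → Z.Adj i' i →
    (∀ x < m, s.col x ≠ some i) →
    Rv α (par b Q d q n) Z m s ≤
      (b:ℝ) ^ (4 * q i + 1) * Rv α (par b Q d q n) Z (m + 1) (s.step m y (some i)) +
      2 * (cfac α m s.E * Real.exp (-(2 * (b:ℝ) ^ Q)))

/-- **D**: a new leaf at a hub `i` of low final degree is unlikely -/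
def DProp {I : Type*} [Fintype I] (α : ℝ) (Z : SimpleGraph I) (Q d : ℕ) (q : I → ℕ) : Prop :=
  ∀ i i2 : I, 2 * (q i2 + 2) ≤ q i → ∀ K : ℕ, ∃ C : ℝ, 0 < C ∧ ∃ b0 : ℕ, ∀ b ≥ b0, ∃ n' : ℕ,
    ∀ n ≥ n', ∀ m, 2 ≤ m → m ≤ K → ∀ s : St (Option I),
    TreeOn m s.E → Clean m s → ∀ z1 < m, ∀ z2 < m, s.col z1 = some i → s.col z2 = some i2 →
    Rv α (par b Q d q n) Z (m + 1) (s.step m z1 none) ≤
      C * (b:ℝ) ^ (-(((2:ℝ) ^ (1 - α) - 1) * (q i / 2 : ℕ))) * Rv α (par b Q d q n) Z m s +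
      2 * (cfac α (m + 1) (s.step m z1 none).E * Real.exp (-(2 * (b:ℝ) ^ Q)))

end SeedPA
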