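import Pool.Agent.SeedPA.Local

/-!
# Clean states: stepping out of the clean states is unlikely
-/

open Finset

namespace SeedPA

variable {I : Type*}

/-- `A` is decided at level `M`: it does not change under steps at levels `≥ M` -/
def Dec (M : ℕ) (A : St (Option I) → Prop) : Prop :=
  ∀ x, M ≤ x → ∀ (s : St (Option I)) (v : ℕ) (c : Option I), Valid x s.E → v < x →
    (A (s.step x v c) ↔ A s)

theorem Dec.and {M : ℕ} {A B : St (Option I) → Prop} (hA : Dec M A) (hB : Dec M B) :
    Dec M (fun s => A s ∧ B s) := fun x hx s v c hs hv =>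
  and_congr (hA x hx s v c hs hv) (hB x hx s v c hs hv)

theorem Dec.not {M : ℕ} {A : St (Option I) → Prop} (hA : Dec M A) :
    Dec M (fun s => ¬ A s) := fun x hx s v c hs hv => not_congr (hA x hx s v c hs hv)

theorem Dec.mono {M M' : ℕ} {A : St (Option I) → Prop} (hA : Dec M A) (h : M ≤ M') : Dec M' A :=
  fun x hx s v c hs hv => hA x (h.trans hx) s v c hs hv

theorem dec_col {M x : ℕ} (hx : x < M) (p : Option I → Prop) : Dec M (fun s => p (s.col x)) := by
  intro y hy s v c _ _
  show p _ ↔ p _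
  rw [St.step_col_of_ne _ _ _ _ (by omega)]

theorem dec_edge {M a b : ℕ} (ha : a < M) (hb : b < M) : Dec (I := I) M (fun s => s(a, b) ∈ s.E) := by
  intro y hy s v c _ _
  show _ ∈ _ ↔ _ ∈ _
  rw [St.step_E, mem_insert]
  constructor
  · rintro (h | h)
    · rw [Sym2.eq_iff] at h; omega
    · exact h
  · exact Or.inr

theorem dec_hasHub (M : ℕ) : Dec (I := I) M (HasHub M) := by
  intro y hy s v c _ _
  unfold HasHub
  constructor
  · rintro ⟨z, hz, h⟩
    exact ⟨z, hz, by rwa [St.step_col_of_ne _ _ _ _ (by omega)] at h⟩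
  · rintro ⟨z, hz, h⟩
    exact ⟨z, hz, by rwa [St.step_col_of_ne _ _ _ _ (by omega)]⟩

theorem dec_clean (M : ℕ) : Dec (I := I) M (Clean M) := by
  intro y hy s v c hs hv
  have h1 := dec_hasHub M y hy s v c hs hv
  unfold Clean
  rw [h1]
  constructor
  · rintro ⟨a, h⟩
    refine ⟨a, fun x hx z hz he => ?_⟩
    have := h x hx z hz (by rw [St.step_E]; exact mem_insert_of_mem he)
    rwa [St.step_col_of_ne _ _ _ _ (by omega), St.step_col_of_ne _ _ _ _ (by omega)] at this
  · rintro ⟨a, h⟩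
    refine ⟨a, fun x hx z hz he => ?_⟩
    rw [St.step_col_of_ne _ _ _ _ (by omega), St.step_col_of_ne _ _ _ _ (by omega)]
    apply h x hx z hz
    exact (dec_edge hx hz y hy s v c hs hv).1 he

/-- the component sizes are small at level `n0` -/
def good0 (P : Par I) (s : St (Option I)) : Prop :=
  HasHub P.n0 s ∧ ∀ x < P.n0, s.col x = none → cs P.n0 s x ≤ P.β0

theorem dec_good0 (P : Par I) : Dec P.n0 (good0 P) := by
  intro y hy s v c hs hv
  unfold good0
  rw [dec_hasHub P.n0 y hy s v c hs hv]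
  have h1 : ∀ x < P.n0, ((s.step y v c).col x = none → cs P.n0 (s.step y v c) x ≤ P.β0) ↔
      (s.col x = none → cs P.n0 s x ≤ P.β0) := by
    intro x hx
    rw [St.step_col_of_ne _ _ _ _ (by omega), cs_step_old hs hv (by omega) hy]
  constructor
  · rintro ⟨a, h⟩
    exact ⟨a, fun x hx => (h1 x hx).1 (h x hx)⟩
  · rintro ⟨a, h⟩
    exact ⟨a, fun x hx => (h1 x hx).2 (h x hx)⟩

theorem hasHub_perm {m : ℕ} {s : St (Option I)} {σ : Equiv.Perm ℕ} (hσ : FixGE m σ) :
    HasHub m (s.perm σ) ↔ HasHub m s := by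
  unfold HasHub
  constructor
  · rintro ⟨z, hz, h⟩
    exact ⟨σ.symm z, (hσ.symm.lt_iff z).2 hz, h⟩
  · rintro ⟨z, hz, h⟩
    exact ⟨σ z, (hσ.lt_iff z).2 hz, by simpa using h⟩

theorem good0_perm {P : Par I} {s : St (Option I)} {σ : Equiv.Perm ℕ} (hσ : FixGE P.n0 σ) :
    good0 P (s.perm σ) ↔ good0 P s := by
  unfold good0
  rw [hasHub_perm hσ]
  constructor
  · rintro ⟨a, h⟩
    refine ⟨a, fun x hx hc => ?_⟩
    have := h (σ x) ((hσ.lt_iff x).2 hx) (by simpa using hc)
    rwa [cs_perm hσ] at this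
  · rintro ⟨a, h⟩
    refine ⟨a, fun x hx hc => ?_⟩
    rw [cs_perm' hσ]
    exact h _ ((hσ.symm.lt_iff x).2 hx) hc

/-- if the component size is positive then the vertex is a non-hub below the level -/
theorem nhS_of_cs_pos {m : ℕ} {s : St (Option I)} (hs : Valid m s.E) {x : ℕ} (h : 0 < cs m s x) :
    x < m ∧ nhS s x := by
  classical
  unfold cs csz at h
  rw [card_pos] at h
  obtain ⟨y, hy⟩ := h
  rw [mem_filter, mem_range] at hy
  obtain ⟨hy, hn, hc⟩ := hy
  exact ⟨hc.symm.lt hs.lt hy, hc.symm.nh hn⟩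

section value

variable [Fintype I] {α : ℝ} {P : Par I} {Z : SimpleGraph I}

open Classical in
/-- a decided property can be evaluated now -/
theorem ev_decided {M : ℕ} {A : St (Option I) → Prop} (hA : Dec M A)
    (f : St (Option I) → ℝ) : ∀ (d x : ℕ), M ≤ x → x + d = P.n → ∀ s : St (Option I),
    Valid x s.E → itr (gP α (okStep Z)) x d (fun s' => if A s' then f s' else 0) s =
      if A s then itr (gP α (okStep Z)) x d f s else 0 := by
  intro d
  induction d with
  | zero => intro x _ _ s _; simp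
  | succ d ih =>
    intro x hx hxn s hs
    rw [itr_succ, itr_succ]
    have h1 : ∀ v ∈ range x, ∑ c, gP α (okStep Z) x s v c *
        itr (gP α (okStep Z)) (x + 1) d (fun s' => if A s' then f s' else 0) (s.step x v c) =
        ∑ c, (if A s then gP α (okStep Z) x s v c *
          itr (gP α (okStep Z)) (x + 1) d f (s.step x v c) else 0) := by
      intro v hv
      apply sum_congr rfl; intro c _
      have hv' := mem_range.1 hv
      rw [ih (x + 1) (by omega) (by omega) _ (hs.step hv')]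
      by_cases hAs : A s
      · rw [if_pos hAs, if_pos ((hA x hx s v c hs hv').2 hAs)]
      · rw [if_neg hAs, if_neg (fun h => hAs ((hA x hx s v c hs hv').1 h)), mul_zero]
    rw [sum_congr rfl h1]
    split_ifs with hAs
    · rfl
    · simp

open Classical in
theorem RvA_decided {M : ℕ} {A : St (Option I) → Prop} (hA : Dec M A) (hM : M ≤ P.n)
    {s : St (Option I)} (hs : Valid M s.E) :
    RvA α P Z M A s = if A s then Rv α P Z M s else 0 :=
  ev_decided (P := P) hA _ (P.n - M) M le_rfl (by omega) s hs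

open Classical in
/-- a functional decided at level `M`, seen from level `m` -/
theorem RvA_prefix {M : ℕ} {A : St (Option I) → Prop} (hA : Dec M A) (hM : M ≤ P.n) {m : ℕ}
    (hm : m ≤ M) {s : St (Option I)} (hs : Valid m s.E) :
    RvA α P Z m A s =
      itr (gP α (okStep Z)) m (M - m) (fun s' => if A s' then Rv α P Z M s' else 0) s := by
  unfold RvA
  rw [ev_comp hm hM]
  apply itr_congr_inv (fun x s => Valid x s.E) M _ (fun _ _ _ _ _ _ _ => rfl) _ _ _ _ (by omega) hs
  · intro x s v c _ hv hi _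
    exact hi.step hv
  · intro s hi
    exact RvA_decided hA hM hi

omit [Fintype I] in
theorem Clean.step {m : ℕ} {s : St (Option I)} (h : Clean m s) (hs : Valid m s.E)
    {v : ℕ} (hv : v < m) {c : Option I} (hvh : s.col v ≠ none) : Clean (m + 1) (s.step m v c) := by
  refine ⟨h.1.step v c, ?_⟩
  intro x hx y hy he
  rw [St.step_E, mem_insert] at he
  rcases he with he | he
  · rw [Sym2.eq_iff] at he
    rcases he with ⟨rfl, rfl⟩ | ⟨rfl, rfl⟩
    · left; rwa [St.step_col_of_ne _ _ _ _ (by omega)]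
    · right; rwa [St.step_col_of_ne _ _ _ _ (by omega)]
  · have hx' := hs.lt _ he x (by simp)
    have hy' := hs.lt _ he y (by simp)
    rw [St.step_col_of_ne _ _ _ _ (by omega), St.step_col_of_ne _ _ _ _ (by omega)]
    exact h.2 x hx' y hy' he

/-- a non-hub step from a non-hub is bounded by the delay lemma -/
theorem nonhub_step_le (h0 : 0 < α) (h1 : α < 1) (hn01 : P.n0 ≤ P.n1) (hn1 : P.n1 ≤ P.n)
    {m : ℕ} (hm1 : 1 ≤ m) (hm : m < P.n0) {s : St (Option I)} (hs : Valid m s.E)
    (hub : HasHub m s) {v : ℕ} (hv : v < m) (hvn : s.col v = none) (hcs : cs m s v ≤ P.β0) :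
    RvA α P Z (m + 1) (good0 P) (s.step m v none) ≤
      P.β0 / xi ((2:ℝ)^α) P.n0 m * RvA α P Z m (good0 P) s := by
  classical
  set Θ0 : St (Option I) → ℝ := fun s' => if good0 P s' then Rv α P Z P.n0 s' else 0 with hΘ0
  have hpos : ∀ s, 0 ≤ Θ0 s := by
    intro s
    simp only [hΘ0]
    split_ifs
    · exact Rv_nonneg _ _
    · exact le_rfl
  have hinv : TInv P.n0 Θ0 := by
    intro σ hσ s
    simp only [hΘ0]
    rw [Rv_TInv hn1 hn01 σ hσ s]
    simp only [good0_perm hσ]
  have hz : ∀ s, Valid P.n0 s.E → P.β0 < cs P.n0 s v → Θ0 s = 0 := by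
    intro s hs hc
    simp only [hΘ0]
    rw [if_neg]
    intro hg
    obtain ⟨a, b⟩ := nhS_of_cs_pos hs (by omega : 0 < cs P.n0 s v)
    have := hg.2 v a b
    omega
  have key := delay_born (Z := Z) h0 h1 (h := P.n0) (β := P.β0) (x0 := v) hpos hinv hz hm1 hm hs hub
    hv hvn hcs
  have e1 : RvA α P Z (m + 1) (good0 P) (s.step m v none) =
      itr (gP α (okStep Z)) (m + 1) (P.n0 - (m + 1)) Θ0 (s.step m v none) :=
    RvA_prefix (dec_good0 P) (by omega) (by omega) (hs.step hv)
  have e2 : RvA α P Z m (good0 P) s = itr (gP α (okStep Z)) m (P.n0 - m) Θ0 s :=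
    RvA_prefix (dec_good0 P) (by omega) (by omega) hs
  rw [e1, e2]
  have h2 : itr (gP α (okStep Z)) (m + 1) (P.n0 - (m + 1)) Θ0 (s.step m v none) ≤
      ∑ w ∈ range m, (if nhS s w ∧ Cn s v w then
        itr (gP α (okStep Z)) (m + 1) (P.n0 - (m + 1)) Θ0 (s.step m w none) else 0) := by
    have h3 : ∀ w ∈ range m, 0 ≤ (if nhS s w ∧ Cn s v w then
        itr (gP α (okStep Z)) (m + 1) (P.n0 - (m + 1)) Θ0 (s.step m w none) else 0) := by
      intro w _
      split_ifs
      · exact itr_nonneg (fun m s v c => gP_nonneg m s v c) hpos _ _ _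
      · exact le_rfl
    refine le_trans (le_of_eq ?_) (single_le_sum h3 (mem_range.2 hv))
    rw [if_pos ⟨hvn, Conn.refl v⟩]
  refine h2.trans (key.trans ?_)
  apply mul_le_mul_of_nonneg_right _ (itr_nonneg (fun m s v c => gP_nonneg m s v c) hpos _ _ _)
  apply div_le_div_of_nonneg_right _ (xi_nonneg (by positivity) _ _)
  have : (0:ℝ) ≤ cs m s v := by positivity
  linarith

theorem xi_anti {κ : ℝ} (hκ : 0 < κ) {h m m' : ℕ} (hm : m ≤ m') : xi κ h m' ≤ xi κ h m := by
  unfold xi
  have : ∏ l ∈ Ico m' h, (1 + 1 / (κ * l)) ≤ ∏ l ∈ Ico m h, (1 + 1 / (κ * l)) := by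
    apply prod_le_prod_of_subset_of_one_le
    · exact Ico_subset_Ico_left hm
    · intro l _; positivity
    · intro l _ _
      have : 0 ≤ 1 / (κ * (l:ℝ)) := by positivity
      linarith
  linarith

omit [Fintype I] in
theorem clean_cs {m : ℕ} {s : St (Option I)} (h : Clean m s) (hs : Valid m s.E) {v : ℕ} :
    cs m s v ≤ 1 := by
  classical
  unfold cs csz
  rw [card_le_one]
  intro a ha b hb
  rw [mem_filter, mem_range] at ha hb
  have key : ∀ a, a < m → Conn s.E (nhS s) v a → a = v := by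
    intro a ham hc
    unfold Conn at hc
    rcases Relation.ReflTransGen.cases_head hc with h1 | ⟨c, hc, _⟩
    · exact h1.symm
    · exfalso
      have hv' := hs.lt _ hc.1 v (by simp)
      have hc' := hs.lt _ hc.1 c (by simp)
      rcases h.2 v hv' c hc' hc.1 with h2 | h2
      · exact h2 hc.2.1
      · exact h2 hc.2.2
  rw [key a ha.1 ha.2.2, key b hb.1 hb.2.2]

open Classical in
/-- **clean paths dominate** -/
theorem clean_induct (h0 : 0 < α) (h1 : α < 1) (hn01 : P.n0 ≤ P.n1) (hn1 : P.n1 ≤ P.n)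
    (hβ : 1 ≤ P.β0) {M : ℕ} (hM : M < P.n0) {ρ : ℝ} (hρ1 : ρ ≤ 1)
    (hρ : P.β0 / xi ((2:ℝ)^α) P.n0 M ≤ ρ) :
    ∀ (d m : ℕ), m + d = M → 1 ≤ m → ∀ s : St (Option I), Valid m s.E → Clean m s →
      (1 - ρ) ^ d * RvA α P Z m (good0 P) s ≤ RvA α P Z m (fun s' => good0 P s' ∧ Clean M s') s := by
  have hκ : (0:ℝ) < (2:ℝ)^α := by positivity
  intro d
  induction d with
  | zero =>
    intro m hm hm1 s hs hc
    have : m = M := by omega
    subst this
    rw [pow_zero, one_mul]
    rw [RvA_prefix (dec_good0 P) (by omega) (by omega) hs,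
      RvA_prefix ((dec_good0 P).and ((dec_clean m).mono (by omega))) (by omega)
        (by omega) hs]
    apply itr_mono_inv (fun m s v c => gP_nonneg m s v c)
      (fun x s => Valid x s.E ∧ m ≤ x ∧ Clean m s) P.n0
    · rintro x s v c hx hv ⟨hi, hmx, hcl⟩ _
      exact ⟨hi.step hv, by omega, (dec_clean m x hmx s v c hi hv).2 hcl⟩
    · rintro s ⟨_, _, hcl⟩
      by_cases hg : good0 P s
      · simp [hg, hcl]
      · simp [hg]
    · omega
    · exact ⟨hs, le_rfl, hc⟩
  | succ d ih =>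
    intro m hm hm1 s hs hc
    have hmM : m < M := by omega
    have hmn : m < P.n := by omega
    have hW := hs.W_pos h0 hm1
    have hρ0 : 0 ≤ ρ := le_trans (div_nonneg (by positivity) (xi_nonneg hκ _ _)) hρ
    have hρm : P.β0 / xi ((2:ℝ)^α) P.n0 m ≤ ρ := by
      refine le_trans ?_ hρ
      exact div_le_div_of_nonneg_left (by positivity) (xi_pos hκ (by omega) hM)
        (xi_anti hκ hmM.le)
    set A0 : St (Option I) → ℝ := thA α P Z (good0 P) with hA0
    set A1 : St (Option I) → ℝ := thA α P Z (fun s' => good0 P s' ∧ Clean M s')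
      with hA1
    have hA0p : ∀ s, 0 ≤ A0 s := thA_nonneg _
    have hA1p : ∀ s, 0 ≤ A1 s := thA_nonneg _
    have r0 : W α m s.E * RvA α P Z m (good0 P) s = _ := ev_rec (Z := Z) h0 hm1 hmn (f := A0) hs
    have r1 : W α m s.E * RvA α P Z m (fun s' => good0 P s' ∧ Clean M s') s = _ :=
      ev_rec (Z := Z) h0 hm1 hmn (f := A1) hs
    set R0 := RvA α P Z m (good0 P) s with hR0
    have hR0n : 0 ≤ R0 := RvA_nonneg _ _ _
    -- hub part
    set Hsum := ∑ v ∈ range m, ∑ c, (if okStep Z m s v c ∧ s.col v ≠ none then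
      ev α P Z (m + 1) A0 (s.step m v c) else 0) with hH
    have hsplit : W α m s.E * R0 ≤ Hsum + m * (ρ * R0) := by
      rw [r0, hH]
      have : (m : ℝ) * (ρ * R0) = ∑ v ∈ range m, ρ * R0 := by simp
      rw [this, ← sum_add_distrib]
      apply sum_le_sum; intro v hv
      have hv' := mem_range.1 hv
      by_cases hvh : s.col v = none
      · have e1 : ∑ c, (if okStep Z m s v c ∧ s.col v ≠ none then
            ev α P Z (m + 1) A0 (s.step m v c) else 0) = 0 := by
          apply sum_eq_zero; intro c _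
          rw [if_neg]; rintro ⟨_, h⟩; exact h hvh
        rw [e1, zero_add, Fintype.sum_option]
        have e2 : ∑ i : I, (if okStep Z m s v (some i) then
            ev α P Z (m + 1) A0 (s.step m v (some i)) else 0) = 0 := by
          apply sum_eq_zero; intro i _
          rw [if_neg]; intro hok; exact okStep_hub hc.1 hok hvh
        rw [e2, add_zero, if_pos (show okStep Z m s v none from trivial)]
        have := nonhub_step_le (Z := Z) h0 h1 hn01 hn1 hm1 (by omega : m < P.n0) hs hc.1 hv' hvh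
          ((clean_cs hc hs).trans hβ)
        refine le_trans this ?_
        exact mul_le_mul_of_nonneg_right hρm hR0n
      · have e1 : ∑ c, (if okStep Z m s v c then
            ev α P Z (m + 1) A0 (s.step m v c) else 0) =
            ∑ c, (if okStep Z m s v c ∧ s.col v ≠ none then
            ev α P Z (m + 1) A0 (s.step m v c) else 0) := by
          apply sum_congr rfl; intro c _
          simp [hvh]
        rw [e1]
        have : 0 ≤ ρ * R0 := mul_nonneg hρ0 hR0n
        linarith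
    have hmW : (m : ℝ) ≤ W α m s.E := hs.le_W h0
    have h2 : W α m s.E * ((1 - ρ) * R0) ≤ Hsum := by
      have : (m : ℝ) * (ρ * R0) ≤ W α m s.E * (ρ * R0) :=
        mul_le_mul_of_nonneg_right hmW (mul_nonneg hρ0 hR0n)
      nlinarith
    have hpow : 0 ≤ (1 - ρ) ^ d := pow_nonneg (by linarith) d
    have h3 : (1 - ρ) ^ d * Hsum ≤
        W α m s.E * RvA α P Z m (fun s' => good0 P s' ∧ Clean M s') s := by
      rw [r1, hH, mul_sum]
      apply sum_le_sum; intro v hv
      have hv' := mem_range.1 hv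
      rw [mul_sum]
      apply sum_le_sum; intro c _
      by_cases hok : okStep Z m s v c
      · by_cases hvh : s.col v ≠ none
        · rw [if_pos ⟨hok, hvh⟩, if_pos hok]
          exact ih (m + 1) (by omega) (by omega) _ (hs.step hv') (hc.step hs hv' hvh)
        · rw [if_neg (fun h => hvh h.2), mul_zero, if_pos hok]
          exact ev_nonneg hA1p _ _
      · rw [if_neg (fun h => hok h.1), if_neg hok, mul_zero]
    have h4 : W α m s.E * ((1 - ρ) ^ (d + 1) * R0) ≤
        W α m s.E * RvA α P Z m (fun s' => good0 P s' ∧ Clean M s') s := by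
      refine le_trans ?_ h3
      calc W α m s.E * ((1 - ρ) ^ (d + 1) * R0) = (1 - ρ) ^ d * (W α m s.E * ((1 - ρ) * R0)) := by
            ring
        _ ≤ (1 - ρ) ^ d * Hsum := mul_le_mul_of_nonneg_left h2 hpow
    exact le_of_mul_le_mul_left h4 hW

open Classical in
/-- the contribution of the paths which are not clean at level `M` -/
theorem clean_bound (h0 : 0 < α) (h1 : α < 1) (hn01 : P.n0 ≤ P.n1) (hn1 : P.n1 ≤ P.n)
    (hβ : 1 ≤ P.β0) {M : ℕ} (hM : M < P.n0) {ρ : ℝ} (hρ1 : ρ ≤ 1)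
    (hρ : P.β0 / xi ((2:ℝ)^α) P.n0 M ≤ ρ) {m : ℕ} (hm1 : 1 ≤ m) (hmM : m ≤ M)
    {s : St (Option I)} (hs : Valid m s.E) (hc : Clean m s) :
    RvA α P Z m (fun s' => ¬ Clean M s') s ≤
      M * ρ * Rv α P Z m s + RvA α P Z m (fun s' => ¬ good0 P s') s := by
  have hκ : (0:ℝ) < (2:ℝ)^α := by positivity
  have hρ0 : 0 ≤ ρ := le_trans (div_nonneg (by positivity) (xi_nonneg hκ _ _)) hρ
  have key := clean_induct (Z := Z) h0 h1 hn01 hn1 hβ hM hρ1 hρ (M - m) m (by omega) hm1 s hs hc
  have hR : 0 ≤ Rv α P Z m s := Rv_nonneg _ _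
  have e1 := RvA_split (α := α) (P := P) (Z := Z) (good0 P) m s
  have e2 := RvA_split (α := α) (P := P) (Z := Z) (Clean M) m s
  have e3 : RvA α P Z m (fun s' => good0 P s' ∧ Clean M s') s ≤ RvA α P Z m (Clean M) s :=
    RvA_mono (fun s _ h => h.2) m s
  have hbern : 1 - (M - m : ℕ) * ρ ≤ (1 - ρ) ^ (M - m) := by
    have := one_add_mul_le_pow (a := -ρ) (by linarith) (M - m)
    calc 1 - ((M - m : ℕ) : ℝ) * ρ = 1 + ((M - m : ℕ) : ℝ) * (-ρ) := by ring
      _ ≤ (1 + -ρ) ^ (M - m) := this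
      _ = _ := by ring_nf
  have hR0 : 0 ≤ RvA α P Z m (good0 P) s := RvA_nonneg _ _ _
  have hR0' : RvA α P Z m (good0 P) s ≤ Rv α P Z m s := RvA_le_Rv _ _ _
  have h2 : (1 - (M - m : ℕ) * ρ) * RvA α P Z m (good0 P) s ≤ RvA α P Z m (Clean M) s :=
    le_trans (mul_le_mul_of_nonneg_right hbern hR0) (key.trans e3)
  have hMm : ((M - m : ℕ) : ℝ) ≤ M := by exact_mod_cast Nat.sub_le M m
  have h3 : ((M - m : ℕ) : ℝ) * ρ * RvA α P Z m (good0 P) s ≤ M * ρ * Rv α P Z m s := by
    apply mul_le_mul (mul_le_mul_of_nonneg_right hMm hρ0) hR0' hR0 (by positivity)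
  nlinarith

end value

end SeedPA
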