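import Pool.Agent.SeedPA.MainK

/-!
# Tree toolkit
-/

open Finset Relation

namespace SeedPA

theorem TreeOn.step {m : ℕ} {E : ESet} (h : TreeOn m E) {v : ℕ} (hv : v < m) :
    TreeOn (m + 1) (insert s(v, m) E) := by
  refine ⟨h.valid.step hv, ?_⟩
  have old : ∀ x < m, ∀ y < m, Conn (insert s(v, m) E) (fun _ => True) x y := fun x hx y hy =>
    (conn_insert_old h.valid.lt (fun _ _ => Iff.rfl) hv hx hy).2 (h.conn x hx y hy)
  have new : ∀ x < m, Conn (insert s(v, m) E) (fun _ => True) x m := fun x hx =>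
    (conn_insert_new h.valid.lt (fun _ _ => Iff.rfl) hv hx).2 ⟨trivial, trivial, h.conn x hx v hv⟩
  intro x hx y hy
  by_cases hxm : x = m
  · by_cases hym : y = m
    · rw [hxm, hym]; exact Conn.refl _
    · rw [hxm]; exact (new y (by omega)).symm
  · by_cases hym : y = m
    · rw [hym]; exact new x (by omega)
    · exact old x (by omega) y (by omega)

theorem TreeOn.perm {m : ℕ} {E : ESet} (h : TreeOn m E) {σ : Equiv.Perm ℕ} (hσ : FixGE m σ) :
    TreeOn m (permE σ E) := by
  refine ⟨h.valid.perm hσ, ?_⟩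
  intro x hx y hy
  have := (conn_perm (E := E) (nh := fun _ => True) σ (x := σ.symm x) (y := σ.symm y)).2
    (h.conn _ ((hσ.symm.lt_iff x).2 hx) _ ((hσ.symm.lt_iff y).2 hy))
  simpa using this

theorem permE_symm_permE (σ : Equiv.Perm ℕ) (E : ESet) : permE σ.symm (permE σ E) = E := by
  ext e
  induction e using Sym2.ind with
  | _ a b => simp [mem_permE']

theorem permE_permE_symm (σ : Equiv.Perm ℕ) (E : ESet) : permE σ (permE σ.symm E) = E := by
  have := permE_symm_permE σ.symm E
  simpa using this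

theorem IsoOn.refl (k : ℕ) (E : ESet) : IsoOn k E E :=
  ⟨Equiv.refl _, fun _ _ => rfl, by
    ext e
    induction e using Sym2.ind with
    | _ a b => simp [mem_permE']⟩

theorem IsoOn.symm {k : ℕ} {E E' : ESet} (h : IsoOn k E E') : IsoOn k E' E := by
  obtain ⟨σ, hσ, rfl⟩ := h
  exact ⟨σ.symm, hσ.symm, permE_symm_permE σ E⟩

theorem IsoOn.trans {k : ℕ} {E E' E'' : ESet} (h : IsoOn k E E') (h' : IsoOn k E' E'') :
    IsoOn k E E'' := by
  obtain ⟨σ, hσ, rfl⟩ := h
  obtain ⟨τ, hτ, rfl⟩ := h'
  refine ⟨σ.trans τ, fun x hx => by simp [hσ x hx, hτ x hx], ?_⟩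
  ext e
  induction e using Sym2.ind with
  | _ a b => simp [mem_permE']

/-- there is a neighbour iff the degree is positive -/
theorem deg_pos_iff {E : ESet} {v : ℕ} : 1 ≤ deg E v ↔ ∃ w, s(v, w) ∈ E := by
  unfold deg
  rw [Nat.one_le_iff_ne_zero, Ne, card_eq_zero, ← Ne, ← nonempty_iff_ne_empty]
  constructor
  · rintro ⟨e, he⟩
    rw [mem_filter] at he
    obtain ⟨he, hv⟩ := he
    obtain ⟨w, rfl⟩ := hv
    exact ⟨w, he⟩
  · rintro ⟨w, hw⟩
    exact ⟨s(v, w), by simp [hw]⟩

/-- removal of a leaf with the last label -/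
theorem TreeOn.remove_last {m : ℕ} {E : ESet} (hm : 2 ≤ m) (h : TreeOn (m + 1) E)
    (hd : deg E m = 1) : ∃ v < m, ∃ E', TreeOn m E' ∧ E = insert s(v, m) E' ∧ s(v, m) ∉ E' := by
  obtain ⟨v, hv⟩ := deg_pos_iff.1 hd.ge
  rw [Sym2.eq_swap] at hv
  have hvm' : v < m + 1 := h.valid.lt _ hv v (by simp)
  have hne : v ≠ m := by
    rintro rfl
    exact h.valid.irrefl _ hv
  have hvm : v < m := by omega
  set E' := E.erase s(v, m) with hE'
  have hins : E = insert s(v, m) E' := by rw [hE', insert_erase hv]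
  have hnot : s(v, m) ∉ E' := by simp [hE']
  have hlt : ∀ e ∈ E', ∀ x ∈ e, x < m := by
    intro e he x hx
    have he' := mem_erase.1 he
    have h1 := h.valid.lt e he'.2 x hx
    by_contra hc
    have hxm : x = m := by omega
    subst hxm
    unfold deg at hd
    rw [card_eq_one] at hd
    obtain ⟨a, ha⟩ := hd
    have h2 : e ∈ ({a} : Finset (Sym2 ℕ)) := by
      rw [← ha, mem_filter]; exact ⟨he'.2, hx⟩
    have h3 : s(v, x) ∈ ({a} : Finset (Sym2 ℕ)) := by
      rw [← ha, mem_filter]; exact ⟨hv, by simp⟩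
    rw [mem_singleton] at h2 h3
    exact he'.1 (h2.trans h3.symm)
  have hconn : ∀ x < m, ∀ y < m, Conn E' (fun _ => True) x y := by
    intro x hx y hy
    rw [← conn_insert_old (E := E') (nh' := fun _ => True) (nh := fun _ => True) hlt
      (fun _ _ => Iff.rfl) hvm hx hy, ← hins]
    exact h.conn x (by omega) y (by omega)
  refine ⟨v, hvm, E', ⟨⟨hlt, ?_, ?_, ?_⟩, hconn⟩, hins, hnot⟩
  · intro x hx
    exact h.valid.irrefl x (mem_of_mem_erase hx)
  · have := h.valid.card
    rw [hins, card_insert_of_notMem hnot] at this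
    omega
  · intro x hx
    rw [deg_pos_iff]
    obtain ⟨y, hy, hxy⟩ : ∃ y < m, y ≠ x := by
      by_cases h0 : x = 0
      · exact ⟨1, by omega, by omega⟩
      · exact ⟨0, by omega, fun h => h0 h.symm⟩
    have hc := hconn x hx y hy
    unfold Conn at hc
    rcases ReflTransGen.cases_head hc with h1 | ⟨z, hz, _⟩
    · exact absurd h1.symm hxy
    · exact ⟨z, hz.1⟩

theorem exists_deg_one {m : ℕ} {E : ESet} (h : Valid m E) :
    ∃ u < m, deg E u = 1 := by
  by_contra hc
  push Not at hc
  have h2 : ∀ u ∈ range m, 2 ≤ deg E u := by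
    intro u hu
    have := h.pos u (mem_range.1 hu)
    have := hc u (mem_range.1 hu)
    omega
  have h3 := sum_le_sum h2
  rw [h.sum_deg] at h3
  simp only [sum_const, card_range, smul_eq_mul] at h3
  have := h.card
  omega

theorem valid_two {E : ESet} (h : Valid 2 E) : E = {s(0, 1)} := by
  have hc : E.card = 1 := by have := h.card; omega
  obtain ⟨e, rfl⟩ := card_eq_one.1 hc
  congr 1
  induction e using Sym2.ind with
  | _ a b =>
    have ha := h.lt s(a, b) (by simp) a (by simp)
    have hb := h.lt s(a, b) (by simp) b (by simp)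
    have hab : a ≠ b := by
      rintro rfl
      exact h.irrefl a (by simp)
    rw [Sym2.eq_iff]
    omega

/-- induction over trees -/
theorem TreeOn.rec' {Pr : ℕ → ESet → Prop} (base : Pr 2 {s(0, 1)})
    (step : ∀ m E v, 2 ≤ m → TreeOn m E → v < m → Pr m E → Pr (m + 1) (insert s(v, m) E))
    (perm : ∀ m E σ, FixGE m σ → TreeOn m E → Pr m E → Pr m (permE σ E)) :
    ∀ m, 2 ≤ m → ∀ E, TreeOn m E → Pr m E := by
  intro m hm
  induction m, hm using Nat.le_induction with
  | base =>
    intro E hE
    rw [valid_two hE.valid]; exact base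
  | succ m hm ih =>
    intro E hE
    obtain ⟨u, hu, hdu⟩ := exists_deg_one hE.valid
    set σ := Equiv.swap u m with hσ
    have hfix : FixGE (m + 1) σ := by
      intro x hx
      exact Equiv.swap_apply_of_ne_of_ne (by omega) (by omega)
    have h1 : TreeOn (m + 1) (permE σ E) := hE.perm hfix
    have hd : deg (permE σ E) m = 1 := by
      rw [deg_permE']
      have : σ.symm m = u := by simp [hσ]
      rw [this, hdu]
    obtain ⟨v, hv, E', hE', he, _⟩ := h1.remove_last hm hd
    have h2 : Pr (m + 1) (permE σ E) := by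
      rw [he]; exact step m E' v hm hE' hv (ih E' hE')
    have h3 := perm (m + 1) (permE σ E) σ.symm hfix.symm h1 h2
    rwa [permE_symm_permE] at h3

open Classical in
/-- edges inside a vertex class -/
noncomputable def eIn (p : ℕ → Prop) (E : ESet) : Finset (Sym2 ℕ) := E.filter (fun e => ∀ x ∈ e, p x)

open Classical in
/-- vertices of a class -/
noncomputable def vIn (m : ℕ) (p : ℕ → Prop) : Finset ℕ := (range m).filter p

theorem mem_vIn {m : ℕ} {p : ℕ → Prop} {x : ℕ} : x ∈ vIn m p ↔ x < m ∧ p x := by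
  simp [vIn]

theorem mem_eIn {p : ℕ → Prop} {E : ESet} {a b : ℕ} : s(a, b) ∈ eIn p E ↔ s(a, b) ∈ E ∧ p a ∧ p b := by
  simp [eIn, Sym2.mem_iff]

open Classical in
theorem card_eIn_insert {p : ℕ → Prop} {m : ℕ} {E : ESet} (h : Valid m E) (v : ℕ) :
    (eIn p (insert s(v, m) E)).card = (eIn p E).card + if p v ∧ p m then 1 else 0 := by
  unfold eIn
  rw [filter_insert]
  by_cases hp : p v ∧ p m
  · rw [if_pos (by simpa [Sym2.mem_iff] using hp), if_pos hp, card_insert_of_notMem]
    simp [h.not_mem v]
  · rw [if_neg (by simpa [Sym2.mem_iff] using hp), if_neg hp, add_zero]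

open Classical in
theorem card_vIn_succ {p : ℕ → Prop} {m : ℕ} :
    (vIn (m + 1) p).card = (vIn m p).card + if p m then 1 else 0 := by
  unfold vIn
  rw [range_add_one, filter_insert]
  split_ifs with h
  · rw [card_insert_of_notMem (by simp)]
  · simp

theorem card_eIn_perm {p : ℕ → Prop} (σ : Equiv.Perm ℕ) (E : ESet) :
    (eIn p (permE σ E)).card = (eIn (fun x => p (σ x)) E).card := by
  symm
  apply card_bij (fun e _ => Sym2.map σ e)
  · intro e he
    induction e using Sym2.ind with
    | _ a b =>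
      rw [mem_eIn] at he
      rw [Sym2.map_mk, mem_eIn, mem_permE]
      exact he
  · intro a _ b _ h
    exact Sym2.map.injective σ.injective h
  · intro e he
    refine ⟨Sym2.map σ.symm e, ?_, ?_⟩
    · induction e using Sym2.ind with
      | _ a b =>
        rw [mem_eIn, mem_permE'] at he
        rw [Sym2.map_mk, mem_eIn]
        simpa using he
    · induction e using Sym2.ind with
      | _ a b => simp

theorem card_vIn_perm {p : ℕ → Prop} {m : ℕ} {σ : Equiv.Perm ℕ} (h : FixGE m σ) :
    (vIn m (fun x => p (σ x))).card = (vIn m p).card := by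
  apply card_bij (fun x _ => σ x)
  · intro x hx
    rw [mem_vIn] at hx ⊢
    exact ⟨(h.lt_iff x).2 hx.1, hx.2⟩
  · intro a _ b _ hab
    exact σ.injective hab
  · intro x hx
    rw [mem_vIn] at hx
    refine ⟨σ.symm x, ?_, by simp⟩
    rw [mem_vIn]
    exact ⟨(h.symm.lt_iff x).2 hx.1, by simpa using hx.2⟩

/-- a class of vertices of a tree spans a forest -/
theorem TreeOn.card_eIn_lt {m : ℕ} (hm : 2 ≤ m) {E : ESet} (h : TreeOn m E) (p : ℕ → Prop)
    (hp : ∃ x < m, p x) : (eIn p E).card + 1 ≤ (vIn m p).card := by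
  classical
  refine TreeOn.rec' (Pr := fun m E => ∀ p : ℕ → Prop, (∃ x < m, p x) →
    (eIn p E).card + 1 ≤ (vIn m p).card) ?_ ?_ ?_ m hm E h p hp
  · intro p hp
    have h1 : (vIn 2 p).card = (if p 0 then 1 else 0) + (if p 1 then 1 else 0) := by
      rw [card_vIn_succ, card_vIn_succ]
      simp [vIn]
    have h2 : (eIn p {s(0, 1)}).card = if p 0 ∧ p 1 then 1 else 0 := by
      unfold eIn
      by_cases hh : p 0 ∧ p 1
      · rw [if_pos hh, filter_true_of_mem]
        · simp
        · intro e he x hx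
          rw [mem_singleton] at he
          subst he
          rcases Sym2.mem_iff.1 hx with rfl | rfl
          · exact hh.1
          · exact hh.2
      · rw [if_neg hh, card_eq_zero, filter_eq_empty_iff]
        intro e he hc
        rw [mem_singleton] at he
        subst he
        exact hh ⟨hc 0 (by simp), hc 1 (by simp)⟩
    rw [h1, h2]
    obtain ⟨x, hx, hpx⟩ := hp
    have : x = 0 ∨ x = 1 := by omega
    rcases this with rfl | rfl
    · by_cases h1 : p 1 <;> simp [hpx, h1]
    · by_cases h1 : p 0 <;> simp [hpx, h1]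
  · intro m E v hm hE hv ih p hp
    rw [card_eIn_insert hE.valid, card_vIn_succ]
    by_cases hex : ∃ x < m, p x
    · have := ih p hex
      by_cases h1 : p m <;> by_cases h2 : p v <;> simp [h1, h2] <;> omega
    · have hpv : ¬ p v := fun hh => hex ⟨v, hv, hh⟩
      have hpm : p m := by
        obtain ⟨x, hx, hpx⟩ := hp
        by_cases hxm : x = m
        · rwa [hxm] at hpx
        · exact absurd ⟨x, by omega, hpx⟩ hex
      have h0 : (eIn p E).card = 0 := by
        rw [card_eq_zero]
        unfold eIn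
        rw [filter_eq_empty_iff]
        intro e he hc
        induction e using Sym2.ind with
        | _ a b => exact hex ⟨a, hE.valid.lt _ he a (by simp), hc a (by simp)⟩
      simp [h0, hpv, hpm]
  · intro m E σ hσ hE ih p hp
    rw [card_eIn_perm, ← card_vIn_perm hσ]
    apply ih
    obtain ⟨x, hx, hpx⟩ := hp
    exact ⟨σ.symm x, (hσ.symm.lt_iff x).2 hx, by simpa using hpx⟩

/-- a connected class of vertices of a tree spans a tree -/
theorem TreeOn.card_vIn_le {m : ℕ} (hm : 2 ≤ m) {E : ESet} (h : TreeOn m E) (p : ℕ → Prop)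
    (hp : ∀ x < m, ∀ y < m, p x → p y → Conn E p x y) : (vIn m p).card ≤ (eIn p E).card + 1 := by
  classical
  refine TreeOn.rec' (Pr := fun m E => ∀ p : ℕ → Prop, (∀ x < m, ∀ y < m, p x → p y → Conn E p x y) →
    (vIn m p).card ≤ (eIn p E).card + 1) ?_ ?_ ?_ m hm E h p hp
  · intro p hp
    have h1 : (vIn 2 p).card = (if p 0 then 1 else 0) + (if p 1 then 1 else 0) := by
      rw [card_vIn_succ, card_vIn_succ]
      simp [vIn]
    rw [h1]
    by_cases hh : p 0 ∧ p 1
    · have h2 : s(0, 1) ∈ eIn p {s(0, 1)} := by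
        rw [mem_eIn]; exact ⟨by simp, hh.1, hh.2⟩
      have h3 : 0 < (eIn p {s(0, 1)}).card := card_pos.2 ⟨_, h2⟩
      rw [if_pos hh.1, if_pos hh.2]
      omega
    · by_cases h0 : p 0
      · have : ¬ p 1 := fun h => hh ⟨h0, h⟩
        simp [h0, this]
      · by_cases h2 : p 1 <;> simp [h0, h2]
  · intro m E v hm hE hv ih p hp
    rw [card_eIn_insert hE.valid, card_vIn_succ]
    have ih' := ih p (fun x hx y hy hpx hpy =>
      (conn_insert_old hE.valid.lt (fun _ _ => Iff.rfl) hv hx hy).1
        (hp x (by omega) y (by omega) hpx hpy))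
    by_cases hpm : p m
    · by_cases hex : ∃ x < m, p x
      · obtain ⟨x, hx, hpx⟩ := hex
        have := (conn_insert_new hE.valid.lt (fun _ _ => Iff.rfl) hv hx).1
          (hp x (by omega) m (by omega) hpx hpm)
        have hpv : p v := this.2.1
        simp only [hpv, hpm, and_self, if_true]
        omega
      · have : (vIn m p).card = 0 := by
          rw [card_eq_zero]
          ext x
          simp only [mem_vIn]
          constructor
          · rintro ⟨h1, h2⟩; exact absurd ⟨x, h1, h2⟩ hex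
          · intro h; simp at h
        simp only [hpm, and_true, if_true]
        omega
    · simp only [hpm, and_false, if_false]
      omega
  · intro m E σ hσ hE ih p hp
    rw [card_eIn_perm, ← card_vIn_perm hσ]
    apply ih
    intro x hx y hy hpx hpy
    have h1 := hp (σ x) ((hσ.lt_iff x).2 hx) (σ y) ((hσ.lt_iff y).2 hy) hpx hpy
    have h2 := conn_perm (E := E) (nh := fun x => p (σ x)) σ (x := x) (y := y)
    rw [← h2]
    simpa using h1

end SeedPA
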