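import Pool.Agent.SeedPA.RegDef
import Pool.Agent.SeedPA.Tree

/-!
# Colour sums versus the attachment process (module H)

The value functions are sums over the possible sets of hub labels of probabilities of the
attachment process.
-/

open Finset Relation

namespace SeedPA

/-- connectedness only depends on the class of vertices met by the edges -/
theorem Conn.congr {E : ESet} {nh nh' : ℕ → Prop} {m : ℕ} (hE : ∀ e ∈ E, ∀ x ∈ e, x < m)
    (hnh : ∀ z < m, nh' z ↔ nh z) {x y : ℕ} : Conn E nh' x y ↔ Conn E nh x y := by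
  have key : ∀ {nh nh' : ℕ → Prop}, (∀ z < m, nh' z ↔ nh z) → Conn E nh' x y → Conn E nh x y := by
    intro nh nh' hnh h
    unfold Conn at h ⊢
    induction h with
    | refl => exact ReflTransGen.refl
    | @tail b c _ hbc ih =>
      exact ih.tail ⟨hbc.1, (hnh b (hE _ hbc.1 b (by simp))).1 hbc.2.1,
        (hnh c (hE _ hbc.1 c (by simp))).1 hbc.2.2⟩
  exact ⟨key hnh, key fun z hz => (hnh z hz).symm⟩

theorem csz_congr {E : ESet} {nh nh' : ℕ → Prop} {m k : ℕ} (hE : ∀ e ∈ E, ∀ x ∈ e, x < m)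
    (hnh : ∀ z < m, nh' z ↔ nh z) (hk : k ≤ m) (x : ℕ) : csz k E nh' x = csz k E nh x := by
  classical
  unfold csz
  congr 1
  ext y
  simp only [mem_filter, mem_range]
  constructor
  · rintro ⟨hy, h1, h2⟩
    exact ⟨hy, (hnh y (by omega)).1 h1, (Conn.congr hE hnh).1 h2⟩
  · rintro ⟨hy, h1, h2⟩
    exact ⟨hy, (hnh y (by omega)).2 h1, (Conn.congr hE hnh).2 h2⟩

variable {I : Type*}

/-- two states which agree as far as labels `< n` are concerned -/
structure Agree (n : ℕ) (s s' : St (Option I)) : Prop where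
  E : s.E = s'.E
  lt : ∀ e ∈ s.E, ∀ x ∈ e, x < n
  col : ∀ x < n, s.col x = s'.col x

theorem Agree.symm {n : ℕ} {s s' : St (Option I)} (h : Agree n s s') : Agree n s' s :=
  ⟨h.E.symm, h.E ▸ h.lt, fun x hx => (h.col x hx).symm⟩

theorem Agree.cs {n k : ℕ} {s s' : St (Option I)} (h : Agree n s s') (hk : k ≤ n) (x : ℕ) :
    cs k s x = cs k s' x := by
  unfold SeedPA.cs
  rw [← h.E]
  apply csz_congr h.lt _ hk
  intro z hz
  unfold nhS
  rw [h.col z hz]

theorem Agree.bigAt {P : Par I} {s s' : St (Option I)} (h : Agree P.n s s') (y x : ℕ) :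
    BigAt P s y x → BigAt P s' y x := by
  rintro ⟨h1, h2, h3, h4⟩
  refine ⟨h1, by rw [← h.col x h1]; exact h2, by rw [← h.E]; exact h3, ?_⟩
  rw [← h.cs le_rfl]
  exact h4

theorem Agree.bigSet {P : Par I} {s s' : St (Option I)} (h : Agree P.n s s') (y : ℕ) :
    bigSet P s y = bigSet P s' y := by
  classical
  unfold SeedPA.bigSet
  ext x
  rw [mem_filter, mem_filter]
  exact and_congr_right fun _ => ⟨h.bigAt y x, h.symm.bigAt y x⟩

theorem Agree.hubAdj {n : ℕ} {s s' : St (Option I)} (h : Agree n s s') {x : ℕ} :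
    HubAdj n s x → HubAdj n s' x := by
  rintro ⟨h1, h2, y, hy, h3, h4⟩
  exact ⟨h1, by rw [← h.col x h1]; exact h2, y, hy, by rw [← h.col y hy]; exact h3,
    by rw [← h.E]; exact h4⟩

theorem Agree.good {P : Par I} (hP : P.n1 ≤ P.n) {Z : SimpleGraph I} {s s' : St (Option I)}
    (h : Agree P.n s s') (hg : Good P Z s) : Good P Z s' := by
  constructor
  · intro i
    obtain ⟨x, hx, hc⟩ := hg.ex i
    exact ⟨x, hx, by rw [← h.col x (by omega)]; exact hc⟩
  · intro i x y hx hy h1 h2
    rw [← h.col x hx] at h1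
    rw [← h.col y hy] at h2
    exact hg.uniq i x y hx hy h1 h2
  · intro i i' x y hx hy h1 h2 hZ
    rw [← h.col x hx] at h1
    rw [← h.col y hy] at h2
    rw [← h.E]
    exact hg.adj i i' x y hx hy h1 h2 hZ
  · intro x hx hc
    rw [← h.col x hx] at hc
    rw [← h.cs le_rfl]
    exact hg.small x hx hc
  · intro i y hy hc
    rw [← h.col y hy] at hc
    rw [← h.bigSet]
    exact hg.lo i y hy hc
  · intro i y hy hc
    rw [← h.col y hy] at hc
    rw [← h.bigSet]
    exact hg.hi i y hy hc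
  · intro x hx hh
    rw [← h.cs le_rfl]
    exact hg.g1 x hx (h.symm.hubAdj hh)
  · intro x hx hh hsm
    rw [← h.cs le_rfl] at hsm
    rw [← h.cs hP]
    exact hg.g2 x hx (h.symm.hubAdj hh) hsm
  · intro y hy hc
    rw [← h.col y hy] at hc
    rw [← h.E]
    exact hg.g3 y hy hc

theorem Agree.good_iff {P : Par I} (hP : P.n1 ≤ P.n) {Z : SimpleGraph I} {s s' : St (Option I)}
    (h : Agree P.n s s') : Good P Z s ↔ Good P Z s' := ⟨h.good hP, h.symm.good hP⟩

/-! ### labelled hub sets -/

open Classical in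
/-- the colouring given by an (injective) assignment of labels to the colours -/
noncomputable def colL (L : I → ℕ) (x : ℕ) : Option I :=
  if h : ∃ i, L i = x then some h.choose else none

theorem colL_some {L : I → ℕ} (hL : Function.Injective L) {x : ℕ} {i : I} :
    colL L x = some i ↔ L i = x := by
  unfold colL
  constructor
  · intro h
    split_ifs at h with h'
    · rw [← Option.some.inj h]
      exact h'.choose_spec
  · intro h
    have h' : ∃ i, L i = x := ⟨i, h⟩
    rw [dif_pos h']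
    congr 1
    exact hL (h'.choose_spec.trans h.symm)

theorem colL_none {L : I → ℕ} {x : ℕ} : colL L x = none ↔ ∀ i, L i ≠ x := by
  unfold colL
  constructor
  · intro h i hi
    rw [dif_pos ⟨i, hi⟩] at h
    simp at h
  · intro h
    rw [dif_neg]
    rintro ⟨i, hi⟩
    exact h i hi

theorem colL_self {L : I → ℕ} (hL : Function.Injective L) (i : I) : colL L (L i) = some i :=
  (colL_some hL).2 rfl

/-- a state all of whose colours occur exactly once comes from a labelling -/
theorem exists_colL {n n1 : ℕ} {col : ℕ → Option I} (h1n : n1 ≤ n)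
    (hex : ∀ i, ∃ x < n1, col x = some i)
    (huniq : ∀ i x y, x < n → y < n → col x = some i → col y = some i → x = y) :
    ∃ L : I → ℕ, (∀ i, L i < n1) ∧ Function.Injective L ∧ ∀ x < n, colL L x = col x := by
  choose L hL1 hL2 using hex
  have hinj : Function.Injective L := by
    intro i j hij
    have := (hL2 i).symm.trans ((congrArg col hij).trans (hL2 j))
    exact Option.some.inj this
  refine ⟨L, hL1, hinj, ?_⟩
  intro x hx
  cases hc : col x with
  | none =>
    rw [colL_none]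
    rintro i rfl
    rw [hL2] at hc
    simp at hc
  | some i =>
    rw [colL_some hinj]
    exact huniq i _ _ (lt_of_lt_of_le (hL1 i) h1n) hx (hL2 i) hc

section
variable [Fintype I]

open Classical in
/-- injective label assignments with labels `< n1` -/
noncomputable def LamSet (P : Par I) : Finset (I → ℕ) :=
  (Fintype.piFinset (fun _ : I => range P.n1)).filter Function.Injective

open Classical in
/-- label assignments compatible with the colouring of a state below `m` -/
noncomputable def Lset (P : Par I) (m : ℕ) (s : St (Option I)) : Finset (I → ℕ) :=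
  (LamSet P).filter (fun L => ∀ x < m, colL L x = s.col x)

theorem mem_LamSet {P : Par I} {L : I → ℕ} :
    L ∈ LamSet P ↔ (∀ i, L i < P.n1) ∧ Function.Injective L := by
  classical
  simp [LamSet, Fintype.mem_piFinset]

theorem mem_Lset {P : Par I} {m : ℕ} {s : St (Option I)} {L : I → ℕ} :
    L ∈ Lset P m s ↔ (∀ i, L i < P.n1) ∧ Function.Injective L ∧ ∀ x < m, colL L x = s.col x := by
  classical
  unfold Lset
  rw [mem_filter, mem_LamSet, and_assoc]

open Classical in
theorem Lset_step {P : Par I} {m v : ℕ} {s : St (Option I)} {c : Option I} :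
    Lset P (m + 1) (s.step m v c) = (Lset P m s).filter (fun L => colL L m = c) := by
  ext L
  rw [mem_filter, mem_Lset, mem_Lset]
  constructor
  · rintro ⟨h1, h2, h3⟩
    refine ⟨⟨h1, h2, ?_⟩, ?_⟩
    · intro x hx
      rw [h3 x (by omega), St.step_col_of_ne _ _ _ _ (by omega)]
    · rw [h3 m (by omega), St.step_col_self]
  · rintro ⟨⟨h1, h2, h3⟩, h4⟩
    refine ⟨h1, h2, ?_⟩
    intro x hx
    by_cases hxm : x = m
    · rw [hxm, h4, St.step_col_self]
    · rw [St.step_col_of_ne _ _ _ _ hxm]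
      exact h3 x (by omega)

theorem sum_Lset_step {P : Par I} {m v : ℕ} {s : St (Option I)} (F : (I → ℕ) → ℝ) :
    ∑ c, ∑ L ∈ Lset P (m + 1) (s.step m v c), F L = ∑ L ∈ Lset P m s, F L := by
  classical
  rw [← sum_fiberwise (Lset P m s) (fun L => colL L m) F]
  apply sum_congr rfl
  intro c _
  rw [Lset_step]

/-- the labelling of a fully coloured state is unique -/
theorem Lset_card_le_one {P : Par I} {m : ℕ} {s : St (Option I)}
    (hex : ∀ i, ∃ x < m, s.col x = some i) : (Lset P m s).card ≤ 1 := by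
  rw [card_le_one]
  intro L hL L' hL'
  rw [mem_Lset] at hL hL'
  funext i
  obtain ⟨x, hx, hc⟩ := hex i
  rw [(colL_some hL.2.1).1 ((hL.2.2 x hx).trans hc),
    (colL_some hL'.2.1).1 ((hL'.2.2 x hx).trans hc)]

variable {α : ℝ}

/-- **H1** -/
theorem ev_le_sum_pr {P : Par I} {Z : SimpleGraph I} (h0 : 0 < α) (hP : P.n1 ≤ P.n)
    {Ψ : St (Option I) → ℝ} (hΨ0 : ∀ s, 0 ≤ Ψ s)
    (hloc : ∀ s s', Agree P.n s s' → Ψ s = Ψ s')
    (hsupp : ∀ s, Ψ s ≠ 0 → (∀ i, ∃ x < P.n1, s.col x = some i) ∧
      (∀ i x y, x < P.n → y < P.n → s.col x = some i → s.col y = some i → x = y))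
    {m : ℕ} (hm1 : 1 ≤ m) (hmn : m ≤ P.n) {s : St (Option I)} (hs : Valid m s.E) :
    ev α P Z m (fun s' => cfac α P.n s'.E * Ψ s') s ≤
      cfac α m s.E * ∑ L ∈ Lset P m s, pr α m (P.n - m) (fun E => Ψ ⟨E, colL L⟩) s.E := by
  unfold ev
  have key : ∀ (d m : ℕ) (s : St (Option I)), m + d = P.n → 1 ≤ m → Valid m s.E →
      itr (gP α (okStep Z)) m d (fun s' => cfac α P.n s'.E * Ψ s') s ≤
      cfac α m s.E * ∑ L ∈ Lset P m s, pr α m d (fun E => Ψ ⟨E, colL L⟩) s.E := by
    intro d
    induction d with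
    | zero =>
      intro m s hm hm1 hs
      have hmn : m = P.n := by omega
      subst hmn
      rw [itr_zero]
      apply mul_le_mul_of_nonneg_left _ (cfac_nonneg _ _ _)
      simp only [pr_zero]
      by_cases hz : Ψ s = 0
      · rw [hz]
        exact sum_nonneg fun L _ => hΨ0 _
      · obtain ⟨h1, h2⟩ := hsupp s hz
        obtain ⟨L, hL1, hL2, hL3⟩ := exists_colL hP h1 h2
        have hmem : L ∈ Lset P P.n s := mem_Lset.2 ⟨hL1, hL2, hL3⟩
        have heq : Ψ s = Ψ ⟨s.E, colL L⟩ :=
          hloc _ _ ⟨rfl, hs.lt, fun x hx => (hL3 x hx).symm⟩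
        rw [heq]
        exact single_le_sum (f := fun L => Ψ ⟨s.E, colL L⟩) (fun L _ => hΨ0 _) hmem
    | succ d ih =>
      intro m s hm hm1 hs
      rw [itr_succ]
      have hW := hs.W_pos h0 hm1
      have hrhs : cfac α m s.E * ∑ L ∈ Lset P m s, pr α m (d + 1) (fun E => Ψ ⟨E, colL L⟩) s.E =
          ∑ v ∈ range m, (W α m s.E)⁻¹ * (cfac α (m + 1) (insert s(v, m) s.E) *
            ∑ L ∈ Lset P m s, pr α (m + 1) d (fun E => Ψ ⟨E, colL L⟩) (insert s(v, m) s.E)) := by
        simp only [pr_succ]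
        rw [sum_comm, mul_sum]
        apply sum_congr rfl
        intro v hv
        rw [cfac_step hs (mem_range.1 hv), ← mul_sum]
        ring
      rw [hrhs]
      apply sum_le_sum
      intro v hv
      have hv' := mem_range.1 hv
      rw [← sum_Lset_step (v := v), mul_sum, mul_sum]
      apply sum_le_sum
      intro c _
      have h1 := ih (m + 1) (s.step m v c) (by omega) (by omega) (hs.step hv')
      have h2 : gP α (okStep Z) m s v c ≤ (W α m s.E)⁻¹ := by
        unfold gP
        split_ifs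
        · exact le_rfl
        · exact inv_nonneg.2 hW.le
      exact mul_le_mul h2 h1 (itr_nonneg (fun _ _ _ _ => gP_nonneg _ _ _ _)
        (fun s => mul_nonneg (cfac_nonneg _ _ _) (hΨ0 s)) _ _ _) (inv_nonneg.2 hW.le)
  exact key _ m s (by omega) hm1 hs

/-- **H3** -/
theorem pr_le_ev {P : Par I} {Z : SimpleGraph I}
    {Ψ : St (Option I) → ℝ} (hΨ0 : ∀ s, 0 ≤ Ψ s) {m : ℕ} (hm1 : 1 ≤ m)
    (hmn : m ≤ P.n) {s : St (Option I)} (hs : Valid m s.E) (hc : ∀ x, m ≤ x → s.col x = none) :
    cfac α m s.E * pr α m (P.n - m) (fun E => Ψ ⟨E, s.col⟩) s.E ≤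
      ev α P Z m (fun s' => cfac α P.n s'.E * Ψ s') s := by
  unfold ev
  have key : ∀ (d m : ℕ) (s : St (Option I)), m + d = P.n → 1 ≤ m → Valid m s.E →
      (∀ x, m ≤ x → s.col x = none) →
      cfac α m s.E * pr α m d (fun E => Ψ ⟨E, s.col⟩) s.E ≤
      itr (gP α (okStep Z)) m d (fun s' => cfac α P.n s'.E * Ψ s') s := by
    intro d
    induction d with
    | zero =>
      intro m s hm hm1 hs hc
      have hmn : m = P.n := by omega
      subst hmn
      rw [itr_zero, pr_zero]
    | succ d ih =>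
      intro m s hm hm1 hs hc
      rw [itr_succ, pr_succ, mul_sum]
      apply sum_le_sum
      intro v hv
      have hv' := mem_range.1 hv
      have hcol : (s.step m v none).col = s.col := by
        rw [St.step_col]
        conv_lhs => rw [← hc m le_rfl]
        exact Function.update_eq_self m s.col
      have h1 := ih (m + 1) (s.step m v none) (by omega) (by omega) (hs.step hv') (by
        intro x hx
        rw [hcol]
        exact hc x (by omega))
      rw [hcol, St.step_E] at h1
      have h2 : gP α (okStep Z) m s v none * itr (gP α (okStep Z)) (m + 1) d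
          (fun s' => cfac α P.n s'.E * Ψ s') (s.step m v none) ≤
          ∑ c, gP α (okStep Z) m s v c * itr (gP α (okStep Z)) (m + 1) d
          (fun s' => cfac α P.n s'.E * Ψ s') (s.step m v c) :=
        single_le_sum (f := fun c => gP α (okStep Z) m s v c * itr (gP α (okStep Z)) (m + 1) d
          (fun s' => cfac α P.n s'.E * Ψ s') (s.step m v c))
          (fun c _ => mul_nonneg (gP_nonneg _ _ _ _) (itr_nonneg (fun _ _ _ _ => gP_nonneg _ _ _ _)
            (fun s => mul_nonneg (cfac_nonneg _ _ _) (hΨ0 s)) _ _ _)) (mem_univ none)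
      refine le_trans ?_ h2
      have h3 : gP α (okStep Z) m s v none = (W α m s.E)⁻¹ := by
        unfold gP
        rw [if_pos]
        simp [okStep]
      rw [h3]
      have h4 := mul_le_mul_of_nonneg_left h1 (inv_nonneg.2 (W_nonneg (α := α) m s.E))
      refine le_trans (le_of_eq ?_) h4
      rw [cfac_step hs hv']
      ring
  exact key _ m s (by omega) hm1 hs hc

end

/-! ### extensions of a tree -/

/-- `E'` is obtained from the tree `E` on `{0,…,k-1}` by attaching the labels `k,…,m-1` -/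
structure Ext (k : ℕ) (E : ESet) (m : ℕ) (E' : ESet) : Prop where
  tree : TreeOn m E'
  le : k ≤ m
  sub : E ⊆ E'
  conn : ∀ nh : ℕ → Prop, ∀ x < k, ∀ y < k, (Conn E' nh x y ↔ Conn E nh x y)
  up : ∀ y, k ≤ y → y < m → ∀ p < y, ∀ q < y, s(p, y) ∈ E' → s(q, y) ∈ E' → p = q

theorem Ext.refl {k : ℕ} {E : ESet} (h : TreeOn k E) : Ext k E k E :=
  ⟨h, le_rfl, Subset.refl _, fun _ _ _ _ _ => Iff.rfl, fun y h1 h2 => by omega⟩

theorem Ext.step {k m v : ℕ} {E E' : ESet} (h : Ext k E m E') (hv : v < m) :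
    Ext k E (m + 1) (insert s(v, m) E') := by
  refine ⟨h.tree.step hv, by have := h.le; omega, h.sub.trans (subset_insert _ _), ?_, ?_⟩
  · intro nh x hx y hy
    rw [conn_insert_old h.tree.valid.lt (fun _ _ => Iff.rfl) hv (by have := h.le; omega)
      (by have := h.le; omega)]
    exact h.conn nh x hx y hy
  · have old : ∀ p y, p < y → y < m → s(p, y) ∈ insert s(v, m) E' → s(p, y) ∈ E' := by
      intro p y hp hy hmem
      rcases mem_insert.1 hmem with he | he
      · rw [Sym2.eq_iff] at he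
        omega
      · exact he
    have new : ∀ p, p < m → s(p, m) ∈ insert s(v, m) E' → p = v := by
      intro p hp hmem
      rcases mem_insert.1 hmem with he | he
      · rw [Sym2.eq_iff] at he
        omega
      · exact absurd he (h.tree.valid.not_mem p)
    intro y hky hy p hp q hq h1 h2
    by_cases hym : y = m
    · subst hym
      rw [new p hp h1, new q hq h2]
    · exact h.up y hky (by omega) p hp q hq (old p y hp (by omega) h1) (old q y hq (by omega) h2)

theorem pr_le_ext {α : ℝ} {Ψ Ψ' : ESet → ℝ} {k d n : ℕ} {E : ESet} (hE : TreeOn k E)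
    (hn : k + d = n) (h : ∀ E', Ext k E n E' → Ψ E' ≤ Ψ' E') : pr α k d Ψ E ≤ pr α k d Ψ' E :=
  pr_le_inv (fun m E' => Ext k E m E') n (fun _ _ _ _ hv hI => hI.step hv) h d k E hn (Ext.refl hE)

theorem pr_congr_ext {α : ℝ} {Ψ Ψ' : ESet → ℝ} {k d n : ℕ} {E : ESet} (hE : TreeOn k E)
    (hn : k + d = n) (h : ∀ E', Ext k E n E' → Ψ E' = Ψ' E') : pr α k d Ψ E = pr α k d Ψ' E :=
  le_antisymm (pr_le_ext hE hn fun E' h' => (h E' h').le)
    (pr_le_ext hE hn fun E' h' => (h E' h').ge)

theorem pr_zero_fun {α : ℝ} : ∀ (d m : ℕ) (E : ESet), pr α m d (fun _ => 0) E = 0 := by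
  intro d
  induction d with
  | zero => intro m E; rfl
  | succ d ih =>
    intro m E
    rw [pr_succ]
    apply sum_eq_zero
    intro v _
    rw [ih, mul_zero]

/-! ### hubs in a good state -/

section
variable [Fintype I]

omit [Fintype I] in
/-- hubs are connected through hubs -/
theorem hub_conn {Z : SimpleGraph I} (hZ : Z.Connected) {L : I → ℕ} {E : ESet}
    (hadj : ∀ i j, Z.Adj i j → s(L i, L j) ∈ E) (i j : I) :
    Conn E (fun x => ∃ i, L i = x) (L i) (L j) := by
  obtain ⟨w⟩ := hZ.preconnected i j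
  induction w with
  | nil => exact Conn.refl _
  | cons h _ ih => exact ReflTransGen.head ⟨hadj _ _ h, ⟨_, rfl⟩, ⟨_, rfl⟩⟩ ih

/-- edges between hubs are exactly the edges of `Z` -/
theorem hub_edges {Z : SimpleGraph I} (hZ : Z.IsTree) {L : I → ℕ} (hL : Function.Injective L)
    {n : ℕ} (hn : 2 ≤ n) (hLn : ∀ i, L i < n) {E : ESet} (hE : TreeOn n E)
    (hadj : ∀ i j, Z.Adj i j → s(L i, L j) ∈ E) {i j : I} (hij : s(L i, L j) ∈ E) : Z.Adj i j := by
  classical
  have h1 := hE.card_eIn_lt hn (fun x => ∃ i, L i = x) ⟨L i, hLn i, i, rfl⟩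
  have h2 : (vIn n (fun x => ∃ i, L i = x)).card = Fintype.card I := by
    rw [← card_univ, ← card_image_of_injective univ hL]
    congr 1
    ext x
    rw [mem_vIn, mem_image]
    constructor
    · rintro ⟨_, i, hi⟩
      exact ⟨i, mem_univ _, hi⟩
    · rintro ⟨i, _, rfl⟩
      exact ⟨hLn i, i, rfl⟩
  have h3 := hZ.card_edgeFinset
  have h4 : (Z.edgeFinset.image (Sym2.map L)) ⊆ eIn (fun x => ∃ i, L i = x) E := by
    intro e he
    obtain ⟨e', he', rfl⟩ := mem_image.1 he
    induction e' using Sym2.ind with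
    | _ a b =>
      rw [SimpleGraph.mem_edgeFinset, SimpleGraph.mem_edgeSet] at he'
      rw [Sym2.map_mk, mem_eIn]
      exact ⟨hadj a b he', ⟨a, rfl⟩, ⟨b, rfl⟩⟩
  have h5 : (Z.edgeFinset.image (Sym2.map L)).card = Z.edgeFinset.card :=
    card_image_of_injective _ (Sym2.map.injective hL)
  have h6 := eq_of_subset_of_card_le h4 (by omega)
  have h7 : s(L i, L j) ∈ Z.edgeFinset.image (Sym2.map L) := by
    rw [h6, mem_eIn]
    exact ⟨hij, ⟨i, rfl⟩, ⟨j, rfl⟩⟩
  obtain ⟨e', he', h8⟩ := mem_image.1 h7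
  have h9 : e' = s(i, j) := Sym2.map.injective hL (by rw [h8, Sym2.map_mk])
  rw [h9, SimpleGraph.mem_edgeFinset, SimpleGraph.mem_edgeSet] at he'
  exact he'

/-- a step which violates the hub policy does not lead to a good state -/
theorem not_good_of_not_okStep {P : Par I} (hP : P.n1 ≤ P.n) {Z : SimpleGraph I} (hZ : Z.IsTree)
    {m v : ℕ} {s : St (Option I)} (hs : TreeOn m s.E) (hv : v < m) {c : Option I}
    (hok : ¬ okStep Z m s v c) {L : I → ℕ} (hL : L ∈ Lset P (m + 1) (s.step m v c)) {E' : ESet}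
    (hE' : Ext (m + 1) (insert s(v, m) s.E) P.n E') : ¬ Good P Z ⟨E', colL L⟩ := by
  intro hg
  cases c with
  | none => exact hok trivial
  | some i =>
    rw [mem_Lset] at hL
    obtain ⟨hL1, hL2, hL3⟩ := hL
    have hmi : L i = m := by
      have := hL3 m (by omega)
      rw [St.step_col_self, colL_some hL2] at this
      exact this
    have hcol : ∀ x < m, colL L x = s.col x := by
      intro x hx
      rw [hL3 x (by omega), St.step_col_of_ne _ _ _ _ (by omega)]
    have hLn : ∀ j, L j < P.n := fun j => lt_of_lt_of_le (hL1 j) hP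
    have hadj : ∀ a b, Z.Adj a b → s(L a, L b) ∈ E' := fun a b hab =>
      hg.adj a b (L a) (L b) (hLn a) (hLn b) (colL_self hL2 a) (colL_self hL2 b) hab
    apply hok
    refine ⟨?_, ?_⟩
    · intro x hx hc
      rw [← hcol x hx, colL_some hL2] at hc
      omega
    · by_contra hcon
      push Not at hcon
      obtain ⟨⟨x, hx, hxc⟩, h2⟩ := hcon
      obtain ⟨j, hj⟩ := Option.ne_none_iff_exists'.1 hxc
      rw [← hcol x hx, colL_some hL2] at hj
      have h3 := hub_conn hZ.connected hadj j i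
      rw [hj, hmi, hE'.conn _ x (by omega) m (by omega),
        conn_insert_new hs.valid.lt (fun _ _ => Iff.rfl) hv hx] at h3
      obtain ⟨_, ⟨i', hi'⟩, _⟩ := h3
      have h4 : s.col v = some i' := by
        rw [← hcol v hv, colL_some hL2]
        exact hi'
      apply h2 i' h4
      apply hub_edges hZ hL2 (by have := hE'.le; omega) hLn hE'.tree hadj
      rw [hi', hmi]
      exact hE'.sub (mem_insert_self _ _)

variable {α : ℝ}

/-- **H2** (general form) -/
theorem ev_eq_sum_pr {P : Par I} {Z : SimpleGraph I} (hP : P.n1 ≤ P.n)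
    (hZ : Z.IsTree) {Ψ : St (Option I) → ℝ} (hloc : ∀ s s', Agree P.n s s' → Ψ s = Ψ s')
    (hsupp : ∀ s, Ψ s ≠ 0 → Good P Z s)
    {m : ℕ} (hm1 : 1 ≤ m) (hmn : m ≤ P.n) {s : St (Option I)} (hs : TreeOn m s.E) :
    ev α P Z m (fun s' => cfac α P.n s'.E * Ψ s') s =
      cfac α m s.E * ∑ L ∈ Lset P m s, pr α m (P.n - m) (fun E => Ψ ⟨E, colL L⟩) s.E := by
  unfold ev
  have key : ∀ (d m : ℕ) (s : St (Option I)), m + d = P.n → 1 ≤ m → TreeOn m s.E →
      itr (gP α (okStep Z)) m d (fun s' => cfac α P.n s'.E * Ψ s') s =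
      cfac α m s.E * ∑ L ∈ Lset P m s, pr α m d (fun E => Ψ ⟨E, colL L⟩) s.E := by
    intro d
    induction d with
    | zero =>
      intro m s hm hm1 hs
      have hmn : m = P.n := by omega
      subst hmn
      rw [itr_zero]
      congr 1
      simp only [pr_zero]
      have hall : ∀ L ∈ Lset P P.n s, Ψ ⟨s.E, colL L⟩ = Ψ s := by
        intro L hL
        rw [mem_Lset] at hL
        exact (hloc s ⟨s.E, colL L⟩ ⟨rfl, hs.valid.lt, fun x hx => (hL.2.2 x hx).symm⟩).symm
      rw [sum_congr rfl hall, sum_const, nsmul_eq_mul]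
      by_cases hz : Ψ s = 0
      · rw [hz, mul_zero]
      · have hg := hsupp s hz
        obtain ⟨L, hL1, hL2, hL3⟩ := exists_colL hP hg.ex hg.uniq
        have hmem : L ∈ Lset P P.n s := mem_Lset.2 ⟨hL1, hL2, hL3⟩
        have h1 : (Lset P P.n s).card ≤ 1 := Lset_card_le_one fun i => by
          obtain ⟨x, hx, hc⟩ := hg.ex i
          exact ⟨x, by omega, hc⟩
        have h2 : 0 < (Lset P P.n s).card := card_pos.2 ⟨L, hmem⟩
        have h3 : (Lset P P.n s).card = 1 := by omega
        rw [h3]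
        simp
    | succ d ih =>
      intro m s hm hm1 hs
      rw [itr_succ]
      have hrhs : cfac α m s.E * ∑ L ∈ Lset P m s, pr α m (d + 1) (fun E => Ψ ⟨E, colL L⟩) s.E =
          ∑ v ∈ range m, (W α m s.E)⁻¹ * (cfac α (m + 1) (insert s(v, m) s.E) *
            ∑ L ∈ Lset P m s, pr α (m + 1) d (fun E => Ψ ⟨E, colL L⟩) (insert s(v, m) s.E)) := by
        simp only [pr_succ]
        rw [sum_comm, mul_sum]
        apply sum_congr rfl
        intro v hv
        rw [cfac_step hs.valid (mem_range.1 hv), ← mul_sum]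
        ring
      rw [hrhs]
      apply sum_congr rfl
      intro v hv
      have hv' := mem_range.1 hv
      rw [← sum_Lset_step (v := v), mul_sum, mul_sum]
      apply sum_congr rfl
      intro c _
      have h1 := ih (m + 1) (s.step m v c) (by omega) (by omega) (hs.step hv')
      have hg1 : okStep Z m s v c → gP α (okStep Z) m s v c = (W α m s.E)⁻¹ := by
        intro h; unfold gP; rw [if_pos h]
      have hg2 : ¬ okStep Z m s v c → gP α (okStep Z) m s v c = 0 := by
        intro h; unfold gP; rw [if_neg h]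
      by_cases hok : okStep Z m s v c
      · rw [hg1 hok, h1]; rfl
      · rw [hg2 hok, zero_mul]
        symm
        rw [sum_eq_zero, mul_zero, mul_zero]
        intro L hL
        have h2 : pr α (m + 1) d (fun E => Ψ ⟨E, colL L⟩) (insert s(v, m) s.E) =
            pr α (m + 1) d (fun _ => 0) (insert s(v, m) s.E) := by
          apply pr_congr_ext (n := P.n) (hs.step hv') (by omega)
          intro E' hE'
          by_contra hne
          exact not_good_of_not_okStep hP hZ hs hv' hok hL hE' (hsupp _ hne)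
        rw [h2, pr_zero_fun]
  exact key _ m s (by omega) hm1 hs

omit [Fintype I] in
theorem Theta_eq {P : Par I} {Z : SimpleGraph I} (s : St (Option I)) :
    Theta α P Z s = cfac α P.n s.E * ind (fun E => Good P Z ⟨E, s.col⟩) s.E := by
  unfold Theta ind
  split_ifs <;> simp

/-- **H2** -/
theorem Rv_eq_sum_pr {P : Par I} {Z : SimpleGraph I} (hP : P.n1 ≤ P.n)
    (hZ : Z.IsTree) {m : ℕ} (hm1 : 1 ≤ m) (hmn : m ≤ P.n) {s : St (Option I)}
    (hs : TreeOn m s.E) :
    Rv α P Z m s = cfac α m s.E *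
      ∑ L ∈ Lset P m s, pr α m (P.n - m) (ind (fun E => Good P Z ⟨E, colL L⟩)) s.E := by
  have h1 := ev_eq_sum_pr (α := α) (P := P) (Z := Z) hP hZ
    (Ψ := fun s => ind (fun E => Good P Z ⟨E, s.col⟩) s.E) ?_ ?_ hm1 hmn hs
  · rw [← h1]
    unfold Rv
    congr 1
    funext s'
    exact Theta_eq s'
  · intro s s' h
    have := h.good_iff hP (Z := Z)
    unfold ind
    by_cases hg : Good P Z s
    · rw [if_pos hg, if_pos (this.1 hg)]
    · rw [if_neg hg, if_neg (fun h => hg (this.2 h))]
  · intro s hne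
    unfold ind at hne
    by_contra hc
    exact hne (if_neg hc)

open Classical in
/-- the restricted value function -/
theorem RvA_eq_sum_pr {P : Par I} {Z : SimpleGraph I} (hP : P.n1 ≤ P.n)
    (hZ : Z.IsTree) {A : St (Option I) → Prop} (hA : ∀ s s', Agree P.n s s' → (A s ↔ A s')) {m : ℕ}
    (hm1 : 1 ≤ m) (hmn : m ≤ P.n) {s : St (Option I)} (hs : TreeOn m s.E) :
    RvA α P Z m A s = cfac α m s.E * ∑ L ∈ Lset P m s,
      pr α m (P.n - m) (ind (fun E => A ⟨E, colL L⟩ ∧ Good P Z ⟨E, colL L⟩)) s.E := by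
  have h1 := ev_eq_sum_pr (α := α) (P := P) (Z := Z) hP hZ
    (Ψ := fun s => ind (fun E => A ⟨E, s.col⟩ ∧ Good P Z ⟨E, s.col⟩) s.E) ?_ ?_ hm1 hmn hs
  · rw [← h1]
    unfold RvA
    congr 1
    funext s'
    unfold Theta ind
    by_cases h1 : A s' <;> by_cases h2 : Good P Z s' <;> simp [h1, h2]
  · intro s s' h
    have h1 := h.good_iff hP (Z := Z)
    have h2 := hA s s' h
    unfold ind
    by_cases hg : A s ∧ Good P Z s
    · rw [if_pos hg, if_pos ⟨h2.1 hg.1, h1.1 hg.2⟩]
    · rw [if_neg hg, if_neg (fun h => hg ⟨h2.2 h.1, h1.2 h.2⟩)]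
  · intro s hne
    unfold ind at hne
    by_contra hc
    exact hne (if_neg fun h => hc h.2)

/-! ### colourings of the first `k` labels -/

open Classical in
/-- colourings which vanish from `k` on -/
noncomputable def Cols (I : Type*) [Fintype I] (k : ℕ) : Finset (ℕ → Option I) :=
  (univ : Finset (Fin k → Option I)).image (fun f x => if h : x < k then f ⟨x, h⟩ else none)

theorem mem_Cols {k : ℕ} {c : ℕ → Option I} : c ∈ Cols I k ↔ ∀ x, k ≤ x → c x = none := by
  classical
  unfold Cols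
  rw [mem_image]
  constructor
  · rintro ⟨f, _, rfl⟩ x hx
    exact dif_neg (by omega)
  · intro h
    refine ⟨fun x => c x, mem_univ _, ?_⟩
    funext x
    split_ifs with hx
    · rfl
    · exact (h x (by omega)).symm

theorem card_Cols (k : ℕ) : (Cols I k).card = (Fintype.card I + 1) ^ k := by
  classical
  unfold Cols
  rw [card_image_of_injective]
  · simp
  · intro f g hfg
    funext x
    have := congrFun hfg x
    simpa using this

open Classical in
/-- truncation of a colouring -/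
noncomputable def truncC (k : ℕ) (c : ℕ → Option I) : ℕ → Option I :=
  fun x => if x < k then c x else none

theorem sum_Cols {P : Par I} {k : ℕ} {E : ESet} (F : (I → ℕ) → ℝ) :
    ∑ c ∈ Cols I k, ∑ L ∈ Lset P k ⟨E, c⟩, F L = ∑ L ∈ LamSet P, F L := by
  classical
  rw [← sum_fiberwise_of_maps_to (s := LamSet P) (t := Cols I k)
    (g := fun L => truncC k (colL L)) ?_ F]
  · apply sum_congr rfl
    intro c hc
    rw [mem_Cols] at hc
    apply sum_congr _ (fun _ _ => rfl)
    ext L
    rw [mem_Lset, mem_filter, mem_LamSet, and_assoc]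
    refine and_congr_right fun _ => and_congr_right fun _ => ?_
    constructor
    · intro h
      funext x
      unfold truncC
      split_ifs with hx
      · exact h x hx
      · exact (hc x (by omega)).symm
    · intro h x hx
      have := congrFun h x
      unfold truncC at this
      rwa [if_pos hx] at this
  · intro L _
    rw [mem_Cols]
    intro x hx
    unfold truncC
    rw [if_neg (by omega)]

/-- the sum of the value functions over all colourings -/
theorem sum_Cols_Rv {P : Par I} {Z : SimpleGraph I} (hP : P.n1 ≤ P.n)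
    (hZ : Z.IsTree) {k : ℕ} (hk1 : 1 ≤ k) (hkn : k ≤ P.n) {E : ESet} (hE : TreeOn k E) :
    (cfac α k E)⁻¹ * ∑ c ∈ Cols I k, Rv α P Z k ⟨E, c⟩ =
      ∑ L ∈ LamSet P, pr α k (P.n - k) (ind (fun E => Good P Z ⟨E, colL L⟩)) E := by
  have h1 : ∀ c ∈ Cols I k, Rv α P Z k ⟨E, c⟩ = cfac α k E *
      ∑ L ∈ Lset P k ⟨E, c⟩, pr α k (P.n - k) (ind (fun E => Good P Z ⟨E, colL L⟩)) E :=
    fun c _ => Rv_eq_sum_pr hP hZ hk1 hkn hE
  rw [sum_congr rfl h1, ← mul_sum, sum_Cols, ← mul_assoc,
    inv_mul_cancel₀ (cfac_pos _ _ _).ne', one_mul]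

end

/-! ### the isomorphism invariant event -/

/-- the isomorphism invariant part of `Good` -/
structure Good0 (P : Par I) (Z : SimpleGraph I) (s : St (Option I)) : Prop where
  ex : ∀ i, ∃ x < P.n, s.col x = some i
  uniq : ∀ i x y, x < P.n → y < P.n → s.col x = some i → s.col y = some i → x = y
  adj : ∀ i i' x y, x < P.n → y < P.n → s.col x = some i → s.col y = some i' → Z.Adj i i' →
    s(x, y) ∈ s.E
  small : ∀ x < P.n, s.col x = none → cs P.n s x * P.u ≤ P.n
  lo : ∀ i, ∀ y < P.n, s.col y = some i → P.H i ≤ (bigSet P s y).card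
  hi : ∀ i, ∀ y < P.n, s.col y = some i → (bigSet P s y).card ≤ 3 * P.H i

/-- the event -/
def EvA (P : Par I) (Z : SimpleGraph I) (E : ESet) : Prop := ∃ col : ℕ → Option I, Good0 P Z ⟨E, col⟩

theorem Good.good0 {P : Par I} (hP : P.n1 ≤ P.n) {Z : SimpleGraph I} {s : St (Option I)}
    (h : Good P Z s) : Good0 P Z s :=
  ⟨fun i => by obtain ⟨x, hx, hc⟩ := h.ex i; exact ⟨x, by omega, hc⟩, h.uniq, h.adj, h.small,
    h.lo, h.hi⟩

theorem Good0.perm {P : Par I} {Z : SimpleGraph I} {s : St (Option I)}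
    (h : Good0 P Z s) {σ : Equiv.Perm ℕ} (hσ : FixGE P.n σ) : Good0 P Z (s.perm σ) := by
  constructor
  · intro i
    obtain ⟨x, hx, hc⟩ := h.ex i
    exact ⟨σ x, (hσ.lt_iff x).2 hx, by simpa using hc⟩
  · intro i x y hx hy h1 h2
    have := h.uniq i (σ.symm x) (σ.symm y) ((hσ.symm.lt_iff x).2 hx) ((hσ.symm.lt_iff y).2 hy)
      h1 h2
    exact σ.symm.injective this
  · intro i i' x y hx hy h1 h2 hZ
    rw [St.perm_E, mem_permE']
    exact h.adj i i' _ _ ((hσ.symm.lt_iff x).2 hx) ((hσ.symm.lt_iff y).2 hy) h1 h2 hZ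
  · intro x hx hc
    rw [cs_perm' hσ]
    exact h.small _ ((hσ.symm.lt_iff x).2 hx) hc
  · intro i y hy hc
    rw [card_bigSet_perm hσ]
    exact h.lo i _ ((hσ.symm.lt_iff y).2 hy) hc
  · intro i y hy hc
    rw [card_bigSet_perm hσ]
    exact h.hi i _ ((hσ.symm.lt_iff y).2 hy) hc

/-- **H4 (i)** -/
theorem EvA_perm {P : Par I} {Z : SimpleGraph I} {σ : Equiv.Perm ℕ} (hσ : FixGE P.n σ) (E : ESet) :
    EvA P Z (permE σ E) ↔ EvA P Z E := by
  have key : ∀ (σ : Equiv.Perm ℕ), FixGE P.n σ → ∀ E, EvA P Z E → EvA P Z (permE σ E) := by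
    rintro σ hσ E ⟨col, h⟩
    exact ⟨col ∘ σ.symm, h.perm hσ⟩
  constructor
  · intro h
    have := key σ.symm hσ.symm _ h
    rwa [permE_symm_permE] at this
  · exact key σ hσ E

/-! ### descendants -/

/-- descendants of a label: increasing paths -/
def Desc (E : ESet) : ℕ → ℕ → Prop := ReflTransGen (fun a b => a < b ∧ s(a, b) ∈ E)

theorem Desc.le {E : ESet} {y z : ℕ} (h : Desc E y z) : y ≤ z := by
  unfold Desc at h
  induction h with
  | refl => exact le_rfl
  | tail _ h ih => exact ih.trans h.1.le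

theorem Desc.conn {E : ESet} {y z : ℕ} (h : Desc E y z) : Conn E (fun w => y ≤ w) y z := by
  unfold Desc at h
  induction h with
  | refl => exact Conn.refl _
  | @tail b c hb h ih =>
    have hyb : y ≤ b := Desc.le hb
    exact ReflTransGen.tail ih ⟨h.2, hyb, hyb.trans h.1.le⟩

/-- a component which avoids the parent of `y` consists of descendants of `y` -/
theorem desc_of_conn {E : ESet} {k n : ℕ} (hlt : ∀ e ∈ E, ∀ x ∈ e, x < n)
    (hirr : ∀ x, s(x, x) ∉ E)
    (hup : ∀ y, k ≤ y → y < n → ∀ p < y, ∀ q < y, s(p, y) ∈ E → s(q, y) ∈ E → p = q)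
    {nh : ℕ → Prop} {y : ℕ} (hky : k ≤ y) (hpar : ∀ p < y, s(p, y) ∈ E → ¬ nh p) {z : ℕ}
    (h : Conn E nh y z) : Desc E y z := by
  unfold Conn at h
  induction h with
  | refl => exact ReflTransGen.refl
  | @tail b c _ hbc ih =>
    obtain ⟨he, hb, hc⟩ := hbc
    rcases lt_trichotomy b c with hlt' | heq | hgt
    · exact ReflTransGen.tail ih ⟨hlt', he⟩
    · subst heq
      exact absurd he (hirr b)
    · rcases ReflTransGen.cases_tail ih with heq | ⟨a, ha, hab⟩
      · subst heq
        exact absurd hc (hpar c hgt (by rw [Sym2.eq_swap]; exact he))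
      · have hyb : y ≤ b := Desc.le ih
        have hbn : b < n := hlt _ he b (by simp)
        have : a = c := hup b (hky.trans hyb) hbn a hab.1 c hgt hab.2
          (by rw [Sym2.eq_swap]; exact he)
        rw [← this]
        exact ha

theorem csz_le_desc {E : ESet} {k n : ℕ} (hlt : ∀ e ∈ E, ∀ x ∈ e, x < n)
    (hirr : ∀ x, s(x, x) ∉ E)
    (hup : ∀ y, k ≤ y → y < n → ∀ p < y, ∀ q < y, s(p, y) ∈ E → s(q, y) ∈ E → p = q)
    {nh : ℕ → Prop} {y : ℕ} (hky : k ≤ y) (hpar : ∀ p < y, s(p, y) ∈ E → ¬ nh p) (m : ℕ) :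
    csz m E nh y ≤ csz m E (fun w => y ≤ w) y := by
  classical
  unfold csz
  apply card_le_card
  intro z hz
  simp only [mem_filter] at hz ⊢
  have hd := desc_of_conn hlt hirr hup hky hpar hz.2.2
  exact ⟨hz.1, hd.le, hd.conn⟩

section
variable [Fintype I]

/-- **H4 (ii)** -/
theorem Good0.good {P : Par I} (hP : P.n1 ≤ P.n) {Z : SimpleGraph I} (hH : ∀ i, 2 ≤ P.H i)
    {s : St (Option I)} (h : Good0 P Z s) (hV : Valid P.n s.E) {k : ℕ} (hk : k ≤ P.n1)
    (hup : ∀ y, k ≤ y → y < P.n → ∀ p < y, ∀ q < y, s(p, y) ∈ s.E → s(q, y) ∈ s.E → p = q)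
    (hR : Reg P s.E) : Good P Z s := by
  classical
  -- all hubs are early
  have hearly : ∀ x < P.n, s.col x ≠ none → x < P.n1 := by
    intro x hx hc
    by_contra hcon
    rw [not_lt] at hcon
    obtain ⟨i, hi⟩ := Option.ne_none_iff_exists'.1 hc
    have h1 : 1 < (bigSet P s x).card := lt_of_lt_of_le (hH i) (h.lo i x hx hi)
    obtain ⟨y1, hy1, y2, hy2, hne⟩ := one_lt_card.1 h1
    have hbig : ∀ y ∈ bigSet P s x, y < x := by
      intro y hy
      simp only [bigSet, mem_filter, mem_range] at hy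
      obtain ⟨hyn, _, hyc, hyE, hyb⟩ := hy
      rcases lt_trichotomy y x with hlt | heq | hgt
      · exact hlt
      · subst heq
        exact absurd hyE (hV.irrefl y)
      · exfalso
        have h2 : cs P.n s y ≤ csz P.n s.E (fun w => y ≤ w) y := by
          apply csz_le_desc hV.lt hV.irrefl hup (show k ≤ y by omega)
          intro p hp hpE hnh
          have : p = x := hup y (by omega) hyn p hp x hgt hpE hyE
          subst this
          exact hc hnh
        have h3 := hR.r1 y (by omega) hyn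
        have h4 := Nat.mul_le_mul_right P.t h2
        omega
    have hE1 : s(y1, x) ∈ s.E := by
      simp only [bigSet, mem_filter, mem_range] at hy1
      rw [Sym2.eq_swap]; exact hy1.2.2.2.1
    have hE2 : s(y2, x) ∈ s.E := by
      simp only [bigSet, mem_filter, mem_range] at hy2
      rw [Sym2.eq_swap]; exact hy2.2.2.2.1
    exact hne (hup x (by omega) hx y1 (hbig y1 hy1) y2 (hbig y2 hy2) hE1 hE2)
  -- the set of hubs
  set Hs : Finset ℕ := (range P.n).filter (fun x => s.col x ≠ none) with hHs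
  have hHsub : Hs ⊆ range P.n1 := by
    intro x hx
    rw [hHs, mem_filter, mem_range] at hx
    exact mem_range.2 (hearly x hx.1 hx.2)
  have hHcard : Hs.card ≤ Fintype.card I := by
    have h1 : (Hs.image s.col) ⊆ (univ : Finset I).image some := by
      intro c hc
      obtain ⟨x, hx, rfl⟩ := mem_image.1 hc
      rw [hHs, mem_filter] at hx
      obtain ⟨i, hi⟩ := Option.ne_none_iff_exists'.1 hx.2
      rw [hi]
      exact mem_image_of_mem _ (mem_univ _)
    have h2 : (Hs.image s.col).card = Hs.card := by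
      apply card_image_of_injOn
      intro x hx y hy hxy
      rw [mem_coe, hHs, mem_filter, mem_range] at hx hy
      obtain ⟨i, hi⟩ := Option.ne_none_iff_exists'.1 hx.2
      have hxy' : s.col x = s.col y := hxy
      exact h.uniq i x y hx.1 hy.1 hi (hxy' ▸ hi)
    have h3 := card_le_card h1
    rw [h2] at h3
    refine h3.trans (card_image_le.trans ?_)
    rw [card_univ]
  have hnh : ∀ z < P.n, (z ∉ Hs) ↔ nhS s z := by
    intro z hz
    rw [hHs, mem_filter, mem_range]
    unfold nhS
    constructor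
    · intro h'
      by_contra hc
      exact h' ⟨hz, hc⟩
    · rintro h' ⟨_, h2⟩
      exact h2 h'
  have hcs : ∀ m ≤ P.n, ∀ x, csz m s.E (fun y => y ∉ Hs) x = cs m s x := fun m hm x =>
    csz_congr hV.lt hnh hm x
  constructor
  · intro i
    obtain ⟨x, hx, hc⟩ := h.ex i
    exact ⟨x, hearly x hx (by rw [hc]; simp), hc⟩
  · exact h.uniq
  · exact h.adj
  · exact h.small
  · exact h.lo
  · exact h.hi
  · rintro x hx ⟨hxn, hxc, y, hy, hyc, hyE⟩
    have hy1 := hearly y hy hyc
    have h2 : cs P.n s x ≤ csz P.n s.E (fun w => x ≤ w) x := by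
      apply csz_le_desc hV.lt hV.irrefl hup (show k ≤ x by omega)
      intro p hp hpE hnh
      have : p = y := hup x (by omega) hxn p hp y (by omega) hpE hyE
      subst this
      exact hyc hnh
    have h3 := hR.r1 x hx hxn
    have h4 := Nat.mul_le_mul_right P.t h2
    omega
  · rintro x hx ⟨hxn, hxc, _⟩ hsm
    by_contra hcon
    rw [not_le, ← hcs P.n1 hP] at hcon
    have hxH : x ∉ Hs := (hnh x hxn).2 hxc
    have := hR.r2 Hs hHsub hHcard x hx hxH hcon
    rw [hcs P.n le_rfl] at this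
    omega
  · intro y hy hc
    exact hR.r3 y (hearly y hy hc)

variable {α : ℝ}

/-- **H4 (iii)** -/
theorem pr_EvA_le {P : Par I} {Z : SimpleGraph I} (hP : P.n1 ≤ P.n)
    (hZ : Z.IsTree) (hH : ∀ i, 2 ≤ P.H i) {k : ℕ} (hk1 : 1 ≤ k) (hk : k ≤ P.n1) {E : ESet}
    (hE : TreeOn k E) :
    pr α k (P.n - k) (ind (EvA P Z)) E ≤ (cfac α k E)⁻¹ * ∑ c ∈ Cols I k, Rv α P Z k ⟨E, c⟩ +
      pr α k (P.n - k) (ind (fun E => ¬ Reg P E)) E := by
  rw [sum_Cols_Rv hP hZ hk1 (hk.trans hP) hE, ← pr_sum, ← pr_add]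
  apply pr_le_ext (n := P.n) hE (by omega)
  intro E' hE'
  have hpos : ∀ A : ESet → Prop, 0 ≤ ind A E' := by
    intro A
    unfold ind
    split_ifs <;> norm_num
  by_cases hev : EvA P Z E'
  · by_cases hreg : Reg P E'
    · obtain ⟨col, hg0⟩ := hev
      have hg := hg0.good hP hH hE'.tree.valid hk hE'.up hreg
      obtain ⟨L, hL1, hL2, hL3⟩ := exists_colL hP hg.ex hg.uniq
      have hgL : Good P Z ⟨E', colL L⟩ :=
        Agree.good (s := ⟨E', col⟩) hP ⟨rfl, hE'.tree.valid.lt, fun x hx => (hL3 x hx).symm⟩ hg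
      have h1 : ind (EvA P Z) E' = 1 := by
        unfold ind; rw [if_pos ⟨col, hg0⟩]
      have h2 : ind (fun E => Good P Z ⟨E, colL L⟩) E' = 1 := by
        unfold ind; rw [if_pos hgL]
      rw [h1, ← h2]
      have h3 := single_le_sum (f := fun L => ind (fun E => Good P Z ⟨E, colL L⟩) E')
        (fun L _ => hpos _) (mem_LamSet.2 ⟨hL1, hL2⟩)
      have h4 := hpos (fun E => ¬ Reg P E)
      linarith
    · have h1 : ind (EvA P Z) E' ≤ 1 := by
        unfold ind; split_ifs <;> norm_num
      have h2 : ind (fun E => ¬ Reg P E) E' = 1 := by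
        unfold ind; rw [if_pos hreg]
      have h3 : 0 ≤ ∑ L ∈ LamSet P, ind (fun E => Good P Z ⟨E, colL L⟩) E' :=
        sum_nonneg fun L _ => hpos _
      linarith
  · have h1 : ind (EvA P Z) E' = 0 := by
      unfold ind; rw [if_neg hev]
    rw [h1]
    have h3 : 0 ≤ ∑ L ∈ LamSet P, ind (fun E => Good P Z ⟨E, colL L⟩) E' :=
      sum_nonneg fun L _ => hpos _
    have h4 := hpos (fun E => ¬ Reg P E)
    linarith

/-- **H4 (iv)** -/
theorem Rv_le_pr_EvA {P : Par I} {Z : SimpleGraph I} (hP : P.n1 ≤ P.n)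
    (hZ : Z.IsTree) {k : ℕ} (hk1 : 1 ≤ k) (hk : k ≤ P.n) {E : ESet}
    (hE : TreeOn k E) {col : ℕ → Option I} (hcol : ∀ i, ∃ x < k, col x = some i) :
    (cfac α k E)⁻¹ * Rv α P Z k ⟨E, col⟩ ≤ pr α k (P.n - k) (ind (EvA P Z)) E := by
  rw [Rv_eq_sum_pr hP hZ hk1 hk hE, ← mul_assoc, inv_mul_cancel₀ (cfac_pos _ _ _).ne', one_mul,
    ← pr_sum]
  apply pr_le_ext (n := P.n) hE (by omega)
  intro E' hE'
  have hcard := Lset_card_le_one (P := P) (s := ⟨E, col⟩) hcol
  have h1 : ∀ L ∈ Lset P k ⟨E, col⟩, ind (fun E => Good P Z ⟨E, colL L⟩) E' ≤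
      ind (EvA P Z) E' := by
    intro L _
    unfold ind
    by_cases hg : Good P Z ⟨E', colL L⟩
    · rw [if_pos hg, if_pos ⟨colL L, hg.good0 hP⟩]
    · rw [if_neg hg]
      split_ifs
      · norm_num
      · exact le_rfl
  have h2 := sum_le_card_nsmul _ _ _ h1
  refine h2.trans ?_
  rw [nsmul_eq_mul]
  have h3 : ((Lset P k ⟨E, col⟩).card : ℝ) ≤ 1 := by exact_mod_cast hcard
  have h4 : 0 ≤ ind (EvA P Z) E' := by
    unfold ind
    split_ifs
    · norm_num
    · exact le_rfl
  nlinarith

end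

end SeedPA
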