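import Pool.Agent.SeedPA.Tails
import Pool.Agent.SeedPA.ColorSum
import Pool.Agent.SeedPA.Clean

/-!
# T0: in a good final state there is an early hub and the components at level `n0` are small,
except with very small probability
-/

open Finset

namespace SeedPA

section
variable {p : ℕ → Prop}

/-- a late vertex of the class `p` which is connected (through `p`) to a smaller label has its
parent in `p` -/
def JPar (p : ℕ → Prop) (k l : ℕ) (E : ESet) : Prop :=
  ∀ y, k ≤ y → y < l → ∀ z0 < y, Conn E p z0 y → ∀ z < y, s(z, y) ∈ E → p z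

theorem JPar.step {k l : ℕ} {E : ESet} (h : JPar p k l E) (hE : Valid l E) {v : ℕ} (hv : v < l) :
    JPar p k (l + 1) (insert s(v, l) E) := by
  intro y hky hyl z0 hz0 hc z hz he
  by_cases hyl' : y = l
  · subst hyl'
    have h1 := (conn_insert_new hE.lt (nh := p) (fun _ _ => Iff.rfl) hv hz0).1 hc
    rcases mem_insert.1 he with he | he
    · rw [Sym2.eq_iff] at he
      have : z = v := by omega
      rw [this]; exact h1.2.1
    · exact absurd he (hE.not_mem z)
  · have hc' := (conn_insert_old hE.lt (nh := p) (fun _ _ => Iff.rfl) hv (by omega) (by omega)).1 hc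
    rcases mem_insert.1 he with he | he
    · rw [Sym2.eq_iff] at he
      omega
    · exact h y hky (by omega) z0 hz0 hc' z hz he

/-- late hubs are attached to hubs -/
def HPar (nh : ℕ → Prop) (k l : ℕ) (E : ESet) : Prop :=
  ∀ y, k ≤ y → y < l → ¬ nh y → ∀ z < y, s(z, y) ∈ E → ¬ nh z

theorem HPar.of_step {nh : ℕ → Prop} {k l v : ℕ} {E : ESet} (h : HPar nh k (l + 1) (insert s(v, l) E)) :
    HPar nh k l E := fun y h1 h2 h3 z hz he => h y h1 (by omega) h3 z hz (mem_insert_of_mem he)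

end

section
variable {I : Type*} [Fintype I] {α c C : ℝ} {m0 : ℕ}

omit [Fintype I] in
theorem colL_ne_none {L : I → ℕ} {x : ℕ} : colL L x ≠ none ↔ ∃ i, L i = x := by
  rw [Ne, colL_none]
  push Not
  exact Iff.rfl

theorem card_hubs_le {L : I → ℕ} {k : ℕ} :
    (vIn k (fun y => ¬ (colL L y = none))).card ≤ Fintype.card I := by
  classical
  have : vIn k (fun y => ¬ (colL L y = none)) ⊆ (univ : Finset I).image L := by
    intro y hy
    obtain ⟨i, hi⟩ := colL_ne_none.1 (mem_vIn.1 hy).2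
    exact mem_image.2 ⟨i, mem_univ _, hi⟩
  exact (card_le_card this).trans card_image_le

/-- a large component at level `k` is unlikely to lead to a good final state -/
theorem large_comp (_hc0 : 0 < c) (hc : ConcP α c C m0) {P : Par I} {Z : SimpleGraph I}
    (hZ : Z.Connected) {L : I → ℕ} (hL : Function.Injective L) (hLn : ∀ i, L i < P.n) {i0 : I} {k x : ℕ}
    (hi0 : L i0 < k) (hk2 : 2 ≤ k) (hk : m0 ≤ k) (hkn : k ≤ P.n) {E : ESet} (hE : TreeOn k E)
    (hx : x < k) (hnx : colL L x = none)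
    (hcard : Fintype.card I ≤ csz k E (fun y => colL L y = none) x)
    (hu : (k:ℝ) ≤ c * csz k E (fun y => colL L y = none) x * P.u) :
    pr α k (P.n - k) (ind (fun E' => Good P Z ⟨E', colL L⟩)) E ≤
      Real.exp (-(c * csz k E (fun y => colL L y = none) x)) := by
  set nh : ℕ → Prop := fun y => colL L y = none with hnh
  have hs := hE.sum_deg_compSet hk2 hx (nh := nh) hnx
  have hh : (vIn k (fun y => ¬ nh y)).card ≤ Fintype.card I := card_hubs_le
  have h1 := (hc k (P.n - k) E (compSet k E nh x) hk hE.valid compSet_subset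
    (by rw [card_compSet] at hs ⊢; omega)).1
  rw [card_compSet] at h1
  rw [← neg_mul]
  refine le_trans ?_ h1
  apply pr_le_prB (fun l E B => TreeOn l E ∧ k ≤ l ∧ JPar (fun y => ¬ nh y) k l E ∧
    (HPar nh k l E → B ⊆ compSet l E nh x)) P.n _ ?_ (by omega)
    ⟨hE, le_rfl, fun y h1 h2 => by omega, fun _ => Subset.refl _⟩
  · rintro l E B v _ hv ⟨h2, h3, h4, h5⟩
    refine ⟨h2.step hv, by omega, h4.step h2.valid hv, fun h6 => ?_⟩
    have h7 := h5 h6.of_step
    have h8 : B ⊆ compSet (l + 1) (insert s(v, l) E) nh x :=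
      h7.trans (compSet_step_mono h2.valid.lt hv (by omega))
    split_ifs with hvB
    · have h9 : nh l := by
        by_contra hc
        exact h6 l (by omega) (by omega) hc v hv (mem_insert_self _ _) (mem_compSet.1 (h7 hvB)).2.1
      intro y hy
      rcases mem_insert.1 hy with rfl | hy
      · exact compSet_step_new h2.valid.lt hv (by omega) h9 (h7 hvB)
      · exact h8 hy
    · exact h8
  · rintro E' B' ⟨h2, h3, h4, h5⟩
    by_cases hG : Good P Z ⟨E', colL L⟩
    swap
    · rw [ind_of_not hG]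
      split_ifs <;> norm_num
    have hadj : ∀ i j, Z.Adj i j → s(L i, L j) ∈ E' := fun i j hij =>
      hG.adj i j (L i) (L j) (hLn i) (hLn j) (colL_self hL i) (colL_self hL j) hij
    have hHP : HPar nh k P.n E' := by
      intro y hky hyn hy z hz he
      obtain ⟨i, hi⟩ := colL_ne_none.1 hy
      have h6 := hub_conn hZ hadj i0 i
      have e : (fun x => ∃ i, L i = x) = (fun y => ¬ nh y) := by
        funext w
        exact propext (colL_ne_none.symm)
      rw [e, hi] at h6
      exact h4 y hky hyn (L i0) (by omega) h6 z hz he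
    have h6 := card_le_card (h5 hHP)
    rw [card_compSet] at h6
    have h7 := hG.small x (by omega) hnx
    have h8 : csz P.n E' nh x * P.u ≤ P.n := h7
    have h9 : B'.card * P.u ≤ P.n := (Nat.mul_le_mul_right _ h6).trans h8
    have e : ((k:ℝ) + ((P.n - k : ℕ) : ℝ)) = P.n := by
      rw [← Nat.cast_add]; congr 1; omega
    rw [e]
    have hk0 : (0:ℝ) < k := by exact_mod_cast (by omega : 0 < k)
    have hu0 : (0:ℝ) < P.u := by
      rcases Nat.eq_zero_or_pos P.u with h | h
      · rw [h] at hu; simp at hu; linarith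
      · exact_mod_cast h
    have h10 : (B'.card : ℝ) * P.u ≤ P.n := by exact_mod_cast h9
    have h11 : (B'.card : ℝ) ≤ c * (csz k E nh x / k) * P.n := by
      apply le_of_mul_le_mul_right _ hu0
      refine h10.trans ?_
      have h12 : 1 ≤ c * (csz k E nh x / k) * P.u := by
        have : c * (csz k E nh x / k) * P.u = (c * csz k E nh x * P.u) / k := by ring
        rw [this, le_div_iff₀ hk0]
        linarith
      calc (P.n : ℝ) = P.n * 1 := by ring
        _ ≤ P.n * (c * (csz k E nh x / k) * P.u) := mul_le_mul_of_nonneg_left h12 (by positivity)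
        _ = _ := by ring
    rw [if_pos h11]
    exact ind_le_one _ _

omit [Fintype I] in
theorem agree_good0 {P : Par I} (hP : P.n0 ≤ P.n) {s s' : St (Option I)} (h : Agree P.n s s')
    (hg : good0 P s) : good0 P s' := by
  obtain ⟨⟨z, hz, hc⟩, h2⟩ := hg
  refine ⟨⟨z, hz, by rwa [← h.col z (by omega)]⟩, ?_⟩
  intro x hx hcx
  rw [← h.cs hP x]
  exact h2 x hx (by rw [h.col x (by omega)]; exact hcx)

/-- case (a): there is a hub with label `< n0` -/
theorem T0_a (h0 : 0 < α) (hc0 : 0 < c) (hc : ConcP α c C m0) {P : Par I} {Z : SimpleGraph I}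
    (hZ : Z.Connected) {L : I → ℕ} (hL : Function.Injective L) (hLn : ∀ i, L i < P.n) {i0 : I} {m : ℕ}
    (hi0 : L i0 < P.n0) (hm : 1 ≤ m) (hmn0 : m ≤ P.n0) (hk2 : 2 ≤ P.n0) (hk : m0 ≤ P.n0)
    (hkn : P.n0 ≤ P.n) {E : ESet} (hE : TreeOn m E)
    (hcard : Fintype.card I ≤ P.β0) (hu : (P.n0:ℝ) ≤ c * P.β0 * P.u) :
    pr α m (P.n - m) (ind (fun E' => ¬ good0 P ⟨E', colL L⟩ ∧ Good P Z ⟨E', colL L⟩)) E ≤
      P.n0 * Real.exp (-(c * P.β0)) := by
  have h1 : pr α m (P.n - m) (ind (fun E' => ¬ good0 P ⟨E', colL L⟩ ∧ Good P Z ⟨E', colL L⟩)) E ≤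
      pr α m (P.n - m) (ind (fun E' => ∃ x ∈ range P.n0, colL L x = none ∧
        P.β0 < csz P.n0 E' (fun y => colL L y = none) x ∧ Good P Z ⟨E', colL L⟩)) E := by
    apply pr_mono
    intro E'
    apply ind_mono
    rintro ⟨h1, h2⟩
    by_contra hcon
    push Not at hcon
    apply h1
    refine ⟨⟨L i0, hi0, ?_⟩, ?_⟩
    · exact colL_ne_none.2 ⟨i0, rfl⟩
    · intro x hx hcx
      by_contra hc
      rw [not_le] at hc
      exact hcon x (mem_range.2 hx) hcx hc h2
  refine h1.trans ?_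
  have hr : ((range P.n0).card : ℝ) = P.n0 := by rw [card_range]
  rw [← hr]
  apply pr_union_le
  intro x hx
  have hx := mem_range.1 hx
  by_cases hcx : colL L x = none
  swap
  · have : pr α m (P.n - m) (ind (fun E' => colL L x = none ∧
        P.β0 < csz P.n0 E' (fun y => colL L y = none) x ∧ Good P Z ⟨E', colL L⟩)) E ≤
        pr α m (P.n - m) (fun _ => 0) E := by
      apply pr_mono
      intro E'
      rw [ind_of_not]
      rintro ⟨h5, _⟩
      exact hcx h5
    rw [pr_const h0 _ _ _ _ (by omega) hE.valid] at this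
    exact this.trans (Real.exp_pos _).le
  apply pr_le_of_level_tree h0 hm hmn0 hkn _ hE
  intro E1 hE1
  by_cases hb : P.β0 < csz P.n0 E1 (fun y => colL L y = none) x
  · have hbR : (P.β0:ℝ) < csz P.n0 E1 (fun y => colL L y = none) x := by exact_mod_cast hb
    have hu0 : (0:ℝ) ≤ P.u := by positivity
    have h2 := large_comp hc0 hc hZ hL hLn hi0 hk2 hk hkn hE1 hx hcx (by omega)
      (hu.trans (by
        apply mul_le_mul_of_nonneg_right _ hu0
        exact mul_le_mul_of_nonneg_left hbR.le hc0.le))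
    refine le_trans ?_ (h2.trans (Real.exp_le_exp.2 (by nlinarith)))
    apply pr_mono
    intro E'
    apply ind_mono
    rintro ⟨_, _, h3⟩
    exact h3
  · have h1 : pr α P.n0 (P.n - P.n0) (ind (fun E' => colL L x = none ∧
        P.β0 < csz P.n0 E' (fun y => colL L y = none) x ∧ Good P Z ⟨E', colL L⟩)) E1 ≤
        pr α P.n0 (P.n - P.n0) (fun _ => 0) E1 := by
      apply pr_le_inv (fun l E' => P.n0 ≤ l ∧ Valid l E' ∧
        csz P.n0 E' (fun y => colL L y = none) x = csz P.n0 E1 (fun y => colL L y = none) x) P.n _ _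
        (P.n - P.n0) P.n0 E1 (by omega) ⟨le_rfl, hE1.valid, rfl⟩
      · rintro l E' v _ hv ⟨h4, h5, h6⟩
        refine ⟨by omega, h5.step hv, ?_⟩
        rw [csz_insert_old h5.lt (fun _ _ => Iff.rfl) hv (by omega) h4, h6]
      · rintro E' ⟨_, _, h6⟩
        rw [ind_of_not]
        rintro ⟨_, h7, _⟩
        rw [h6] at h7
        exact hb h7
    rw [pr_const h0 _ _ _ _ (by omega) hE1.valid] at h1
    exact h1.trans (Real.exp_pos _).le

/-- case (b): all hubs have labels `≥ n0` -/
theorem T0_b (h0 : 0 < α) (hc0 : 0 < c) (hc : ConcP α c C m0) {P : Par I} {Z : SimpleGraph I}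
    (hZ : Z.Connected) {L : I → ℕ} (hL : Function.Injective L) (hLn : ∀ i, L i < P.n) {m : ℕ}
    (hi0 : ∀ i, P.n0 ≤ L i) (hm : 2 ≤ m) (hmn0 : m ≤ P.n0) (hk : m0 ≤ P.n0)
    {E : ESet} (hE : TreeOn m E)
    (hcard : Fintype.card I ≤ P.n0) (hu : 2 ≤ c * P.u) :
    pr α m (P.n - m) (ind (fun E' => Good P Z ⟨E', colL L⟩)) E ≤ Real.exp (-(c * P.n0)) := by
  classical
  have : Nonempty I := hZ.nonempty
  obtain ⟨i0, -, hmin⟩ := exists_min_image (univ : Finset I) L univ_nonempty
  set y := L i0 with hy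
  have hyn0 : P.n0 ≤ y := hi0 i0
  have hyn : y < P.n := hLn i0
  have hnh : ∀ z < y, colL L z = none := by
    intro z hz
    rw [colL_none]
    intro i hi
    have := hmin i (mem_univ _)
    omega
  refine pr_le_of_level h0 (by omega) (show m ≤ y + 1 by omega) (by omega)
    (fun l E => TreeOn l E ∧ (y < l → ∃ E0 v, TreeOn y E0 ∧ v < y ∧ E = insert s(v, y) E0))
    (fun _ _ h => h.1.valid) ?_ ?_ ⟨hE, by omega⟩
  · rintro l E v hl hv ⟨h1, h2⟩
    refine ⟨h1.step hv, fun hyl => ?_⟩
    have : l = y := by omega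
    subst this
    exact ⟨E, v, h1, hv, rfl⟩
  · rintro E1 ⟨hE1, hex⟩
    obtain ⟨E0, v, hE0, hv, rfl⟩ := hex (by omega)
    have hsz : y ≤ csz (y + 1) (insert s(v, y) E0) (fun z => colL L z = none) 0 := by
      have h1 : range y ⊆ compSet (y + 1) (insert s(v, y) E0) (fun z => colL L z = none) 0 := by
        refine Subset.trans ?_ (compSet_step_mono hE0.valid.lt hv (by omega))
        intro z hz
        have hz := mem_range.1 hz
        rw [mem_compSet]
        refine ⟨hz, hnh z hz, ?_⟩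
        exact (Conn.congr hE0.valid.lt (nh := fun z => colL L z = none) (nh' := fun _ => True)
          (fun w hw => by simp [hnh w hw])).1 (hE0.conn 0 (by omega) z hz)
      have := card_le_card h1
      rwa [card_range, card_compSet] at this
    have hszR : (y:ℝ) ≤ csz (y + 1) (insert s(v, y) E0) (fun z => colL L z = none) 0 := by
      exact_mod_cast hsz
    have h2 := large_comp hc0 hc hZ hL hLn (i0 := i0) (k := y + 1) (x := 0) (by omega) (by omega)
      (by omega) (by omega) hE1 (by omega) (hnh 0 (by omega)) (by omega) (by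
        have hy1 : (1:ℝ) ≤ y := by exact_mod_cast (by omega : 1 ≤ y)
        push_cast
        calc (y:ℝ) + 1 ≤ 2 * y := by linarith
          _ ≤ (c * P.u) * y := mul_le_mul_of_nonneg_right hu (by positivity)
          _ = c * y * P.u := by ring
          _ ≤ _ := by
            apply mul_le_mul_of_nonneg_right _ (by positivity)
            exact mul_le_mul_of_nonneg_left hszR hc0.le)
    refine h2.trans (Real.exp_le_exp.2 ?_)
    have : (P.n0:ℝ) ≤ y := by exact_mod_cast hyn0
    nlinarith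

/-- **T0** -/
theorem T0 (h0 : 0 < α) (h1 : α < 1) {Z : SimpleGraph I} (hZ : Z.IsTree) (Q d : ℕ) (q : I → ℕ)
    (hd : 1 ≤ d) (hQ : d + 1 ≤ Q) :
    ∃ b0 : ℕ, ∀ b ≥ b0, ∃ n' : ℕ, ∀ n ≥ n', ∀ m, 2 ≤ m → m ≤ b ^ (2 * Q) →
      ∀ s : St (Option I), TreeOn m s.E →
      RvA α (par b Q d q n) Z m (fun s' => ¬ good0 (par b Q d q n) s') s ≤
        cfac α m s.E * Real.exp (-(2 * (b:ℝ) ^ Q)) := by
  classical
  obtain ⟨c, C, m0, hc0, hC0, hconc⟩ := conc h0 h1
  have hc : ConcP α c C m0 := hconc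
  obtain ⟨b1, hb1, hn1⟩ := num_exp hc0 1 ((7 * Q + 1) * Fintype.card I + 2 * Q) Q (by omega)
  refine ⟨b1 + m0 + Fintype.card I + ⌈2 / c⌉₊ + 2, ?_⟩
  intro b hb
  refine ⟨b ^ (7 * Q + 1) + b ^ (2 * Q) + 1, ?_⟩
  intro n hn m hm2 hmn0 s hs
  set P := par b Q d q n with hP
  have hPn : P.n = n := rfl
  have hPn0 : P.n0 = b ^ (2 * Q) := rfl
  have hPn1 : P.n1 = b ^ (7 * Q + 1) := rfl
  have hPu : P.u = b ^ (Q - d) := rfl
  have hPβ0 : P.β0 = b ^ (Q + d + 1) := rfl
  have hb2' : 2 ≤ b := by omega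
  have hbR : (2:ℝ) ≤ b := by exact_mod_cast hb2'
  have hb0 : (0:ℝ) < b := by linarith
  have hcb : 2 ≤ c * b := by
    have : 2 / c ≤ b := (Nat.le_ceil _).trans (by exact_mod_cast (by omega))
    rw [div_le_iff₀ hc0] at this
    linarith
  have hn0b : b ≤ b ^ (2 * Q) := Nat.le_self_pow (by omega) b
  have hβ0b : b ≤ b ^ (Q + d + 1) := Nat.le_self_pow (by omega) b
  have hub : b ≤ b ^ (Q - d) := Nat.le_self_pow (by omega) b
  have hZc : Z.Connected := hZ.connected
  rw [RvA_eq_sum_pr (by omega) hZ (fun s s' h => not_congr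
    ⟨fun hg => agree_good0 (by omega) h hg, fun hg => agree_good0 (by omega) h.symm hg⟩)
    (by omega) (by omega) hs]
  apply mul_le_mul_of_nonneg_left _ (cfac_nonneg _ _ _)
  have hexp2 : Real.exp (-(c * (b:ℝ) ^ (2 * Q))) ≤ Real.exp (-(c * (b:ℝ) ^ (Q + 1))) := by
    apply Real.exp_le_exp.2
    have : (b:ℝ) ^ (Q + 1) ≤ (b:ℝ) ^ (2 * Q) := pow_le_pow_right₀ (by linarith) (by omega)
    nlinarith
  have hexp1 : Real.exp (-(c * (b:ℝ) ^ (Q + d + 1))) ≤ Real.exp (-(c * (b:ℝ) ^ (Q + 1))) := by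
    apply Real.exp_le_exp.2
    have : (b:ℝ) ^ (Q + 1) ≤ (b:ℝ) ^ (Q + d + 1) := pow_le_pow_right₀ (by linarith) (by omega)
    nlinarith
  have hn01 : (1:ℝ) ≤ (b:ℝ) ^ (2 * Q) := one_le_pow₀ (by linarith)
  have hone : ∀ L ∈ Lset P m s, pr α m (P.n - m)
      (ind (fun E => ¬ good0 P ⟨E, colL L⟩ ∧ Good P Z ⟨E, colL L⟩)) s.E ≤
      (b:ℝ) ^ (2 * Q) * Real.exp (-(c * (b:ℝ) ^ (Q + 1))) := by
    intro L hL
    rw [mem_Lset] at hL
    obtain ⟨hL1, hL2, -⟩ := hL
    have hLn : ∀ i, L i < P.n := fun i => by have := hL1 i; omega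
    by_cases hex : ∃ i0, L i0 < P.n0
    · obtain ⟨i0, hi0⟩ := hex
      have h2 := T0_a h0 hc0 hc hZc hL2 hLn hi0 (by omega) (by omega) (by omega) (by omega)
        (by omega) hs (by omega) (by
          rw [hPn0, hPβ0, hPu]
          push_cast
          have e : c * (b:ℝ) ^ (Q + d + 1) * (b:ℝ) ^ (Q - d) = (c * b) * (b:ℝ) ^ (2 * Q) := by
            rw [mul_assoc, ← pow_add, show Q + d + 1 + (Q - d) = 2 * Q + 1 by omega, pow_succ]
            ring
          rw [e]
          have : 0 < (b:ℝ) ^ (2 * Q) := by positivity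
          nlinarith)
      refine h2.trans ?_
      rw [hPn0, hPβ0]
      push_cast
      exact mul_le_mul_of_nonneg_left hexp1 (by positivity)
    · push Not at hex
      have h2 := T0_b h0 hc0 hc hZc hL2 hLn hex hm2 (by omega) (by omega) hs (by omega) (by
        rw [hPu]
        have : (b:ℝ) ≤ ((b ^ (Q - d) : ℕ) : ℝ) := by exact_mod_cast hub
        nlinarith)
      refine le_trans (pr_mono fun E' => ind_mono fun h => h.2) (h2.trans ?_)
      rw [hPn0]
      push_cast
      refine hexp2.trans ?_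
      exact le_mul_of_one_le_left (Real.exp_pos _).le hn01
  refine (sum_le_card_nsmul _ _ _ hone).trans ?_
  rw [nsmul_eq_mul]
  have hcardL : ((Lset P m s).card : ℝ) ≤ (b:ℝ) ^ ((7 * Q + 1) * Fintype.card I) := by
    have h2 : (Lset P m s).card ≤ P.n1 ^ Fintype.card I := by
      have h3 : Lset P m s ⊆ Fintype.piFinset (fun _ : I => range P.n1) := by
        intro L hL
        rw [mem_Lset] at hL
        rw [Fintype.mem_piFinset]
        exact fun i => mem_range.2 (hL.1 i)
      have := card_le_card h3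
      rwa [Fintype.card_piFinset, prod_const, card_range, card_univ] at this
    rw [hPn1, ← pow_mul] at h2
    exact_mod_cast h2
  calc ((Lset P m s).card : ℝ) * ((b:ℝ) ^ (2 * Q) * Real.exp (-(c * (b:ℝ) ^ (Q + 1))))
      ≤ (b:ℝ) ^ ((7 * Q + 1) * Fintype.card I) * ((b:ℝ) ^ (2 * Q) * Real.exp (-(c * (b:ℝ) ^ (Q + 1)))) :=
        mul_le_mul_of_nonneg_right hcardL (by positivity)
    _ = 1 * (b:ℝ) ^ ((7 * Q + 1) * Fintype.card I + 2 * Q) * Real.exp (-(c * (b:ℝ) ^ (Q + 1))) := by
        rw [pow_add]; ring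
    _ ≤ _ := hn1 b (by omega)
    _ ≤ _ := by
        apply Real.exp_le_exp.2
        have : 0 ≤ (b:ℝ) ^ Q := by positivity
        linarith

end

end SeedPA
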