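import Pool.Agent.SeedPA.AsmMax
import Pool.Agent.SeedPA.CanonDeg
import Pool.Agent.SeedPA.Exist2
import Pool.Agent.SeedPA.JDdef
import Pool.Agent.SeedPA.Tails0

/-!
# Assembly, part 3: the separation property from the comparison lemmas
-/

open Finset

namespace SeedPA

section const
variable {α : ℝ}

theorem cfac_le_const (h1 : α < 1) {m K : ℕ} (hm : m ≤ K) {E : ESet} (hE : Valid m E) :
    cfac α m E ≤ (K.factorial : ℝ) ^ K := by
  unfold cfac
  have hK : (1:ℝ) ≤ (K.factorial : ℝ) := by exact_mod_cast Nat.factorial_pos _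
  have hle : ∀ v ∈ range m, (((deg E v - 1).factorial : ℝ)) ^ α ≤ (K.factorial : ℝ) := by
    intro v _
    have h2 : deg E v ≤ m := by
      unfold deg
      refine (card_filter_le _ _).trans ?_
      have := hE.card
      omega
    have h3 : (1:ℝ) ≤ ((deg E v - 1).factorial : ℝ) := by exact_mod_cast Nat.factorial_pos _
    calc (((deg E v - 1).factorial : ℝ)) ^ α ≤ (((deg E v - 1).factorial : ℝ)) ^ (1:ℝ) :=
          Real.rpow_le_rpow_of_exponent_le h3 h1.le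
      _ = ((deg E v - 1).factorial : ℝ) := Real.rpow_one _
      _ ≤ K.factorial := by exact_mod_cast Nat.factorial_le (by omega)
  calc ∏ v ∈ range m, (((deg E v - 1).factorial : ℝ)) ^ α ≤ ∏ v ∈ range m, (K.factorial : ℝ) :=
        prod_le_prod (fun _ _ => by positivity) hle
    _ = (K.factorial : ℝ) ^ m := by simp
    _ ≤ _ := pow_le_pow_right₀ hK hm

end const

section lex

/-- the minimal leaf vector in the lexicographic order -/
theorem exists_lex_min {j k : ℕ} (L : Set (Fin j → ℕ)) (hne : L.Nonempty)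
    (hk : ∀ l ∈ L, ∑ i, l i ≤ k) :
    ∃ l1 ∈ L, ∀ l ∈ L, l ≠ l1 → ∃ i, (∀ i' < i, l i' = l1 i') ∧ l1 i < l i := by
  have hfin : L.Finite := by
    apply (Fintype.piFinset (fun _ : Fin j => range (k + 1))).finite_toSet.subset
    intro l hl
    rw [mem_coe, Fintype.mem_piFinset]
    intro i
    have := single_le_sum (f := l) (fun i _ => Nat.zero_le _) (mem_univ i)
    have := hk l hl
    rw [mem_range]; omega
  obtain ⟨l1, hl1, hmin⟩ := Set.exists_min_image L (fun l => toLex l) hfin hne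
  refine ⟨l1, hl1, fun l hl hne => ?_⟩
  have h1 : toLex l1 < toLex l := lt_of_le_of_ne (hmin l hl) (fun h => hne (toLex.injective h).symm)
  obtain ⟨i, hi, hlt⟩ := h1
  exact ⟨i, fun i' hi' => (hi i' hi').symm, hlt⟩

end lex

section arith

theorem arith_junk {R V T F b X D1 ω kk jj : ℝ} (hV : 0 ≤ V) (hT0 : 0 ≤ T) (hT : T ≤ 2 * F * V / b)
    (hb : 1 ≤ b) (hF : 1 ≤ F) (hkk : 0 ≤ kk) (hjj : 0 ≤ jj) (hω : ω ≤ 1 / 2)
    (hωX : ω * X ≤ 2 * kk * jj / b)
    (hR : R ≤ ω * (X * (D1 * V) + (kk * X + 2) * T) + T) (hD1 : 0 ≤ D1) :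
    R ≤ (2 * kk * jj * (D1 + 2 * kk * F) + 4 * F) / b * V := by
  have hb0 : 0 < b := by linarith
  have hT2 : T ≤ 2 * F * V := by
    refine hT.trans ?_
    exact div_le_self (by positivity) hb
  have e1 : ω * (X * (D1 * V) + (kk * X + 2) * T) = (ω * X) * (D1 * V + kk * T) + 2 * ω * T := by ring
  have h1 : (ω * X) * (D1 * V + kk * T) ≤ 2 * kk * jj / b * (D1 * V + kk * (2 * F * V)) := by
    apply mul_le_mul hωX _ (by positivity) (by positivity)
    have := mul_le_mul_of_nonneg_left hT2 hkk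
    linarith
  have h2 : 2 * ω * T ≤ T := by nlinarith
  calc R ≤ 2 * kk * jj / b * (D1 * V + kk * (2 * F * V)) + T + T := by linarith
    _ ≤ 2 * kk * jj / b * (D1 * V + kk * (2 * F * V)) + 2 * F * V / b + 2 * F * V / b := by linarith
    _ = _ := by field_simp; ring

theorem arith_lex {R V T F b X D1 δ kk C : ℝ} (hV : 0 ≤ V) (hT0 : 0 ≤ T) (hT : T ≤ 2 * F * V / b)
    (hb : 1 ≤ b) (hF : 1 ≤ F) (hkk : 0 ≤ kk) (hC : 0 ≤ C) (hδX : δ * X ≤ C / b)
    (hR : R ≤ δ * (X * (D1 * V) + kk * X * T) + T) (hD1 : 0 ≤ D1) :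
    R ≤ (C * (D1 + 2 * kk * F) + 4 * F) / b * V := by
  have hb0 : 0 < b := by linarith
  have hT2 : T ≤ 2 * F * V := by
    refine hT.trans ?_
    exact div_le_self (by positivity) hb
  have e1 : δ * (X * (D1 * V) + kk * X * T) = (δ * X) * (D1 * V + kk * T) := by ring
  have h1 : (δ * X) * (D1 * V + kk * T) ≤ C / b * (D1 * V + kk * (2 * F * V)) := by
    apply mul_le_mul hδX _ (by positivity) (by positivity)
    have := mul_le_mul_of_nonneg_left hT2 hkk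
    linarith
  have h3 : 0 ≤ 2 * F * V / b := by positivity
  calc R ≤ C / b * (D1 * V + kk * (2 * F * V)) + T := by linarith
    _ ≤ C / b * (D1 * V + kk * (2 * F * V)) + 2 * F * V / b + 2 * F * V / b := by linarith
    _ = _ := by field_simp; ring

end arith

section core

variable {α : ℝ} {j : ℕ} {P : Par (Fin j)} {Z : SimpleGraph (Fin j)} {K : ℕ} {q : Fin j → ℕ} {b T : ℝ}

/-- all states except the canonical states of the reference tree have small values -/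
theorem core_bound (hZ : Z.IsTree) (H : Ineqs α P Z K q b T) (h0 : 0 < α) (h1 : α < 1)
    (hn01 : P.n0 ≤ P.n1) {g k : ℕ} (hg : ∀ i, 4 * q i + 1 ≤ g) (hK : 3 * k ≤ K + 1)
    (hk : 3 ≤ k) (hkβ : k ≤ P.β0) (hkn : k < P.n0)
    (hno : ∀ B : ℝ, (∀ s' : St (Option (Fin j)), TreeOn (k-1) s'.E → (∀ x < k-1, s'.col x = none) →
      Rv α P Z (k-1) s' ≤ B) → ∀ s : St (Option (Fin j)), TreeOn k s.E → (∀ x < k, s.col x = none) →
      Rv α P Z k s ≤ k * (P.β0 / xi ((2:ℝ)^α) P.n0 (k-1)) * B +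
        RvA α P Z k (fun s' => ¬ good0 P s') s)
    (hT0 : ∀ s : St (Option (Fin j)), TreeOn k s.E →
      RvA α P Z k (fun s' => ¬ good0 P s') s ≤ T)
    (hρ : P.β0 / xi ((2:ℝ)^α) P.n0 (k-1) ≤ 2 / (b * (b ^ g) ^ k))
    (hb : (4 * k * (j + 1) : ℝ) ≤ b)
    {x : Fin j → ℕ} (hx : ∀ i i', i < i' → 4 * q i' + 1 ≤ x i)
    {δ : Fin j → ℝ} (hδ : ∀ i, 0 ≤ δ i) {C : ℝ} (hC : 0 ≤ C)
    (hδx : ∀ i, δ i * (b ^ (x i)) ^ k ≤ C / b)
    (hD : ∀ i i2, i < i2 → ∀ m, 2 ≤ m → m ≤ K → ∀ s : St (Option (Fin j)), TreeOn m s.E →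
      Clean m s → ∀ z1 < m, ∀ z2 < m, s.col z1 = some i → s.col z2 = some i2 →
      Rv α P Z (m + 1) (s.step m z1 none) ≤ δ i * Rv α P Z m s + T)
    {F V : ℝ} (hF : 1 ≤ F) {s1 : St (Option (Fin j))} {l1 : Fin j → ℕ} (hC1 : Canon Z k s1 l1)
    (hV : V = Rv α P Z k s1) (hTV : T ≤ 2 * F * V / b) {s : St (Option (Fin j))}
    (hs : TreeOn k s.E)
    (hlex : Clean k s → Cons Z k s → ∃ l, Canon Z k s l ∧
      ∃ i, (∀ i' < i, l i' = l1 i') ∧ l1 i < l i) :
    Rv α P Z k s ≤ ((2 * k * (j + 1) + C) * ((2 * (K + 1 : ℕ)) ^ (2 * k) + 2 * k * F) + 4 * F) / b * V := by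
  have hb1 := H.b1
  have hb0 : 0 < b := by linarith
  have hV0 : 0 ≤ V := by rw [hV]; exact Rv_nonneg _ _
  have hX : (1:ℝ) ≤ (b ^ g) ^ k := one_le_pow₀ (one_le_pow₀ hb1)
  have hX0 : (0:ℝ) < (b ^ g) ^ k := by linarith
  have hD1 : (0:ℝ) ≤ (2 * ((K + 1 : ℕ):ℝ)) ^ (2 * k) := by positivity
  have hkk : (0:ℝ) ≤ k := by positivity
  have hjj : (0:ℝ) ≤ (j:ℝ) + 1 := by positivity
  have hcardj : ((Fintype.card (Fin j) + 1 : ℕ) : ℝ) = (j:ℝ) + 1 := by
    rw [Fintype.card_fin]; push_cast; ring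
  have hbX : b ≤ b * (b ^ g) ^ k := le_mul_of_one_le_right hb0.le hX
  have hω : (k:ℝ) * (2 / (b * (b ^ g) ^ k)) * ((Fintype.card (Fin j) + 1 : ℕ) : ℝ) ≤ 1 / 2 := by
    rw [hcardj]
    have : 2 / (b * (b ^ g) ^ k) ≤ 2 / b := div_le_div_of_nonneg_left (by norm_num) hb0 hbX
    calc (k:ℝ) * (2 / (b * (b ^ g) ^ k)) * ((j:ℝ) + 1) ≤ (k:ℝ) * (2 / b) * ((j:ℝ) + 1) := by
          apply mul_le_mul_of_nonneg_right _ hjj
          exact mul_le_mul_of_nonneg_left this hkk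
      _ = (2 * k * (j + 1)) / b := by ring
      _ ≤ 1 / 2 := by rw [div_le_iff₀ hb0]; linarith
  have hmono : ∀ c : ℝ, (2 * k * (j + 1) + C) * ((2 * ((K + 1 : ℕ):ℝ)) ^ (2 * k) + 2 * k * F) + 4 * F ≥
      c → c / b * V ≤ ((2 * k * (j + 1) + C) * ((2 * (K + 1 : ℕ)) ^ (2 * k) + 2 * k * F) + 4 * F) / b * V := by
    intro c hc
    apply mul_le_mul_of_nonneg_right _ hV0
    exact div_le_div_of_nonneg_right hc hb0.le
  rcases max_bound hZ H h0 h1 hn01 hg hK hk hkβ hkn hno hT0 (by positivity) hρ hω hC1 hs with h | h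
  · obtain ⟨l, hCl, i, heq, hlt⟩ := hlex h.1 h.2
    -- a smaller index where `l` is smaller
    obtain ⟨i2, hi2, hlt2⟩ : ∃ i2, i < i2 ∧ l i2 < l1 i2 := by
      by_contra hcon
      push Not at hcon
      have e1 := hCl.card_eq
      have e2 := hC1.card_eq
      have : ∑ i', l1 i' < ∑ i', l i' := by
        apply sum_lt_sum
        · intro i' _
          rcases lt_trichotomy i' i with h4 | h4 | h4
          · exact (heq i' h4).ge
          · rw [h4]; exact hlt.le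
          · exact hcon i' h4
        · exact ⟨i, mem_univ _, hlt⟩
      omega
    have h2 := lex_compare H h0 h1 (by omega) hk hCl hC1 (i2 := i2) heq hlt (g := x i)
      (fun i' hi' => hx i i' hi') (hδ i) (hD i i2 hi2)
    rw [← hV] at h2
    refine (arith_lex hV0 H.T0 hTV hb1 hF hkk hC (hδx i) h2 hD1).trans (hmono _ ?_)
    have : 0 ≤ 2 * (k:ℝ) * (j + 1) * ((2 * ((K + 1 : ℕ):ℝ)) ^ (2 * k) + 2 * k * F) := by positivity
    nlinarith
  · rw [← hV] at h
    have hωX : (k:ℝ) * (2 / (b * (b ^ g) ^ k)) * ((Fintype.card (Fin j) + 1 : ℕ) : ℝ) * (b ^ g) ^ k ≤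
        2 * k * (j + 1) / b := by
      rw [hcardj]
      apply le_of_eq
      field_simp
    refine (arith_junk hV0 H.T0 hTV hb1 hF hkk hjj hω hωX h hD1).trans (hmono _ ?_)
    have : 0 ≤ C * ((2 * ((K + 1 : ℕ):ℝ)) ^ (2 * k) + 2 * k * F) := by positivity
    nlinarith

end core


section final

/-- the comparison hypotheses of the assembly -/
structure AsmHyp (α : ℝ) : Prop where
  JL : ∀ (j : ℕ) (Z : SimpleGraph (Fin j)) (Q d : ℕ) (q : Fin j → ℕ), ParOK α Q d q → Z.IsTree →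
    JLeafProp α Z Q d q
  JH : ∀ (j : ℕ) (Z : SimpleGraph (Fin j)) (Q d : ℕ) (q : Fin j → ℕ), ParOK α Q d q → Z.IsTree →
    JHubProp α Z Q d q
  D : ∀ (j : ℕ) (Z : SimpleGraph (Fin j)) (Q d : ℕ) (q : Fin j → ℕ), ParOK α Q d q → Z.IsTree →
    DProp α Z Q d q
  no : ∀ (j : ℕ) (Z : SimpleGraph (Fin j)) (P : Par (Fin j)), Z.IsTree → P.n0 ≤ P.n1 →
    P.n1 ≤ P.n → ∀ k, 3 ≤ k → k < P.n0 → ∀ B : ℝ,
    (∀ s' : St (Option (Fin j)), TreeOn (k-1) s'.E → (∀ x < k-1, s'.col x = none) →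
      Rv α P Z (k-1) s' ≤ B) → ∀ s : St (Option (Fin j)), TreeOn k s.E → (∀ x < k, s.col x = none) →
      Rv α P Z k s ≤ k * (P.β0 / xi ((2:ℝ)^α) P.n0 (k-1)) * B +
        RvA α P Z k (fun s' => ¬ good0 P s') s
  num : ∀ (b Q d M : ℕ), 4 ≤ b → 1 ≤ M → M ≤ b → 1 ≤ Q →
    (((b ^ (Q + d + 1) : ℕ) : ℝ)) / xi ((2:ℝ)^α) (b ^ (2 * Q)) M ≤
      2 * b * (b:ℝ) ^ ((d:ℝ) + 1 - ((2:ℝ) ^ (1 - α) - 1) * Q)

/-- **the separation property** -/
theorem sepProp_of {α : ℝ} (h0 : 0 < α) (h1 : α < 1) (A : AsmHyp α) : SepProp α := by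
  classical
  intro k hk S hS hT hiso
  -- the skeleton
  obtain ⟨E0, hE0, hmin⟩ := exists_min_image S (fun E => (J2 k E).card) hS
  set j := (J2 k E0).card with hj
  have e : Fin j ≃ {x // x ∈ J2 k E0} := (J2 k E0).equivFin.symm
  set Z : SimpleGraph (Fin j) := ZJ (hT E0 hE0).valid e with hZdef
  have hZ : Z.IsTree := ZJ_isTree e (hT E0 hE0) hk
  have hC0 : Canon Z k ⟨E0, colJ e⟩ (leafs k ⟨E0, colJ e⟩) := canon_colJ e (hT E0 hE0) hk
  -- the reference state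
  set L : Set (Fin j → ℕ) := {l | ∃ E ∈ S, ∃ c, Canon Z k ⟨E, c⟩ l} with hL
  obtain ⟨l1, ⟨E1, hE1, c1, hC1⟩, hlmin⟩ := exists_lex_min L ⟨_, E0, hE0, _, hC0⟩ (k := k) (by
    rintro l ⟨E, _, c, hC⟩
    have := hC.card_eq
    omega)
  -- parameters
  set γ : ℝ := (2:ℝ) ^ (1 - α) - 1 with hγ
  have hγ0 : 0 < γ := by
    have : (1:ℝ) < (2:ℝ) ^ (1 - α) := Real.one_lt_rpow (by norm_num) (by linarith)
    rw [hγ]; linarith
  set A' : ℕ := ⌈(6 * k : ℝ) / γ⌉₊ + 4 with hA'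
  have hA'γ : (6 * k : ℝ) ≤ γ * A' := by
    have h2 : (6 * k : ℝ) / γ ≤ A' := (Nat.le_ceil _).trans (Nat.cast_le.2 (by omega))
    rw [div_le_iff₀ hγ0] at h2
    linarith
  set q : Fin j → ℕ := fun i => (2 * A') ^ (j - i.1) with hq
  have hAge : 8 ≤ 2 * A' := by omega
  have hqmax : ∀ i, q i ≤ (2 * A') ^ j := fun i => Nat.pow_le_pow_right (by omega) (by omega)
  have hqmin : ∀ i, 8 ≤ q i := fun i => by
    calc 8 ≤ 2 * A' := hAge
      _ = (2 * A') ^ 1 := (pow_one _).symm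
      _ ≤ _ := Nat.pow_le_pow_right (by omega) (by have := i.2; omega)
  set qm := (2 * A') ^ j with hqm
  set g := 4 * qm + 1 with hg
  set d := qm + 1 with hd
  set Q : ℕ := ⌈((g * k + 4 * qm + 2 * d + 10 : ℕ) : ℝ) / γ⌉₊ + 4 * qm + d + 10 with hQ
  have hQγ : ((g * k + 4 * qm + 2 * d + 10 : ℕ) : ℝ) ≤ γ * Q := by
    have h2 : ((g * k + 4 * qm + 2 * d + 10 : ℕ) : ℝ) / γ ≤ Q :=
      (Nat.le_ceil _).trans (Nat.cast_le.2 (by omega))
    rw [div_le_iff₀ hγ0] at h2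
    linarith
  have hPar : ParOK α Q d q := by
    refine ⟨fun i => by have := hqmin i; omega, fun i => by have := hqmax i; omega, by omega, ?_, ?_⟩
    · intro i
      refine le_trans ?_ hQγ
      have : 4 * q i + d + 4 ≤ g * k + 4 * qm + 2 * d + 10 := by
        have := hqmax i
        have : 0 ≤ g * k := by positivity
        omega
      exact_mod_cast this
    · intro i
      have := hqmax i
      omega
  -- constants
  set K := 3 * k with hK
  set F : ℝ := ((K + 1).factorial : ℝ) ^ (K + 1) with hF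
  have hF1 : 1 ≤ F := by
    rw [hF]
    exact one_le_pow₀ (by exact_mod_cast Nat.factorial_pos _)
  obtain ⟨bJL, hbJL⟩ := A.JL j Z Q d q hPar hZ K
  obtain ⟨bJH, hbJH⟩ := A.JH j Z Q d q hPar hZ K
  have hDall : ∀ z : Fin j × Fin j, ∃ C : ℝ, 0 < C ∧ ∃ b0 : ℕ, ∀ b ≥ b0, ∃ n' : ℕ,
      2 * (q z.2 + 2) ≤ q z.1 →
      ∀ n ≥ n', ∀ m, 2 ≤ m → m ≤ K → ∀ s : St (Option (Fin j)),
      TreeOn m s.E → Clean m s → ∀ z1 < m, ∀ z2 < m, s.col z1 = some z.1 → s.col z2 = some z.2 →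
      Rv α (par b Q d q n) Z (m + 1) (s.step m z1 none) ≤
        C * (b:ℝ) ^ (-(γ * (q z.1 / 2 : ℕ))) * Rv α (par b Q d q n) Z m s +
        2 * (cfac α (m + 1) (s.step m z1 none).E * Real.exp (-(2 * (b:ℝ) ^ Q))) := by
    intro z
    by_cases hz : 2 * (q z.2 + 2) ≤ q z.1
    · obtain ⟨C, hC, b0, hb0⟩ := A.D j Z Q d q hPar hZ z.1 z.2 hz K
      refine ⟨C, hC, b0, fun b hb => ?_⟩
      obtain ⟨n', hn'⟩ := hb0 b hb
      exact ⟨n', fun _ => hn'⟩
    · exact ⟨1, one_pos, 0, fun b _ => ⟨0, fun h => absurd h hz⟩⟩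
  choose CD hCD bD hbD using hDall
  obtain ⟨bT0, hbT0⟩ := T0 h0 h1 hZ Q d q (by omega) (by omega)
  obtain ⟨bT1, hbT1⟩ := T1 (I := Fin j) h0 h1 Q d q (by omega)
  obtain ⟨bX, hbX⟩ := exist_lower h0 h1 hZ (k := k) (by omega) (Q := Q) (d := d) (q := q)
    (fun i => ⟨hPar.q2 i, hPar.qd i⟩) (by omega)
  set CC : ℝ := ∑ z, CD z with hCC
  have hCC0 : 0 ≤ CC := sum_nonneg fun z _ => (hCD z).le
  set D5 : ℝ := (2 * k * (j + 1) + CC) * ((2 * (K + 1 : ℕ)) ^ (2 * k) + 2 * k * F) + 4 * F with hD5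
  have hD50 : 0 ≤ D5 := by positivity
  refine ⟨E1, hE1, ?_⟩
  intro η hη
  -- choice of `b`
  set b : ℕ := bJL + bJH + (∑ z, bD z) + bT0 + bT1 + bX + 4 * k * (j + 1) + 3 * k + 10 +
    ⌈F * (((j:ℝ) + 1) ^ k * D5 + 1) / η⌉₊ with hb
  have hbη : F * (((j:ℝ) + 1) ^ k * D5 + 1) ≤ η * b := by
    have h2 : F * (((j:ℝ) + 1) ^ k * D5 + 1) / η ≤ b :=
      (Nat.le_ceil _).trans (Nat.cast_le.2 (by omega))
    rw [div_le_iff₀ hη] at h2
    linarith
  have hbk : 4 * k * (j + 1) ≤ b := by omega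
  have hb10 : 10 ≤ b := by omega
  have hb3k : 3 * k + 1 ≤ b := by omega
  have hbR : (10:ℝ) ≤ b := by exact_mod_cast hb10
  have hb0 : (0:ℝ) < b := by linarith
  obtain ⟨nJL, hnJL⟩ := hbJL b (by omega)
  obtain ⟨nJH, hnJH⟩ := hbJH b (by omega)
  have hbDle : ∀ z, bD z ≤ b := fun z => by
    have := single_le_sum (f := bD) (fun z _ => Nat.zero_le _) (mem_univ z)
    omega
  choose nD hnD using fun z => hbD z b (hbDle z)
  obtain ⟨nT0, hnT0⟩ := hbT0 b (by omega)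
  obtain ⟨nT1, hnT1⟩ := hbT1 b (by omega)
  obtain ⟨nX, hnX⟩ := hbX b (by omega)
  have hebQ : 0 < Real.exp (-(b:ℝ) ^ Q) := Real.exp_pos _
  refine ⟨F⁻¹ * Real.exp (-(b:ℝ) ^ Q), by positivity,
    nJL + nJH + (∑ z, nD z) + nT0 + nT1 + nX + b ^ (7 * Q + 1) + 1, ?_⟩
  intro n hn
  set P := par b Q d q n with hP
  have hPn : P.n = n := rfl
  have hPn0 : P.n0 = b ^ (2 * Q) := rfl
  have hPn1 : P.n1 = b ^ (7 * Q + 1) := rfl
  have hPβ0 : P.β0 = b ^ (Q + d + 1) := rfl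
  have hn0b : b ≤ b ^ (2 * Q) := Nat.le_self_pow (by omega) b
  have hn1b : b ≤ b ^ (7 * Q + 1) := Nat.le_self_pow (by omega) b
  have hβ0b : b ≤ b ^ (Q + d + 1) := Nat.le_self_pow (by omega) b
  have hn01 : P.n0 ≤ P.n1 := by
    rw [hPn0, hPn1]; exact Nat.pow_le_pow_right (by omega) (by omega)
  have hn1n : P.n1 ≤ P.n := by omega
  have hH2 : ∀ i, 2 ≤ P.H i := by
    intro i
    show 2 ≤ b ^ (Q - q i)
    have h2 : b ≤ b ^ (Q - q i) := Nat.le_self_pow (by have := hqmax i; omega) b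
    omega
  set V : ℝ := Rv α P Z k ⟨E1, c1⟩ with hV
  have hVlow : Real.exp (-(b:ℝ) ^ Q) ≤ V := hnX n (by omega) ⟨E1, c1⟩ (hT E1 hE1) hC1.all
    hC1.cons.uniq (fun x hx y hy i i' hi hi' hadj => (hC1.cons.adj i i' x y hx hy hi hi').1 hadj)
  have hV0 : 0 < V := lt_of_lt_of_le hebQ hVlow
  set t : ℝ := Real.exp (-(2 * (b:ℝ) ^ Q)) with ht
  have ht0 : 0 < t := Real.exp_pos _
  have htV : t ≤ V / b := by
    have e1 : t = Real.exp (-(b:ℝ) ^ Q) * Real.exp (-(b:ℝ) ^ Q) := by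
      rw [ht, ← Real.exp_add]; congr 1; ring
    have e2 : Real.exp (-(b:ℝ) ^ Q) ≤ 1 / b := by
      rw [Real.exp_neg, ← one_div]
      apply one_div_le_one_div_of_le hb0
      have h2 : (b:ℝ) ≤ (b:ℝ) ^ Q := le_self_pow₀ (by linarith) (by omega)
      have := Real.add_one_le_exp ((b:ℝ) ^ Q)
      linarith
    rw [e1]
    calc Real.exp (-(b:ℝ) ^ Q) * Real.exp (-(b:ℝ) ^ Q) ≤ V * (1 / b) :=
          mul_le_mul hVlow e2 hebQ.le hV0.le
      _ = V / b := by ring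
  set T : ℝ := 2 * F * t with hTdef
  have hT0' : 0 ≤ T := by positivity
  have hcf : ∀ m E, m ≤ K + 1 → TreeOn m E → 2 * (cfac α m E * t) ≤ T := by
    intro m E hm hE
    have := cfac_le_const h1 hm hE.valid
    rw [hTdef, mul_assoc]
    apply mul_le_mul_of_nonneg_left _ (by norm_num)
    exact mul_le_mul_of_nonneg_right this ht0.le
  have hIneq : Ineqs α P Z K q b T := by
    refine ⟨hn1n, by omega, by linarith, hT0', ?_, ?_⟩
    · intro m hm2 hmK s hs hcl y hy i hi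
      exact (hnJL n (by omega) m hm2 hmK s hs hcl y hy i hi).trans
        (add_le_add le_rfl (hcf m s.E (by omega) hs))
    · intro m hm2 hmK s hs hcl y hy i i' hi hadj hmiss
      exact (hnJH n (by omega) m hm2 hmK s hs hcl y hy i i' hi hadj hmiss).trans
        (add_le_add le_rfl (hcf m s.E (by omega) hs))
  have hRvT0 : ∀ s : St (Option (Fin j)), TreeOn k s.E →
      RvA α P Z k (fun s' => ¬ good0 P s') s ≤ T := by
    intro s hs
    refine (hnT0 n (by omega) k (by omega) (by omega) s hs).trans ?_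
    refine le_trans ?_ (hcf k s.E (by omega) hs)
    have : 0 ≤ cfac α k s.E * t := mul_nonneg (cfac_nonneg _ _ _) ht0.le
    linarith
  -- the small factor
  have hrho : P.β0 / xi ((2:ℝ)^α) P.n0 (k-1) ≤ 2 / (b * ((b:ℝ) ^ g) ^ k) := by
    refine (A.num b Q d (k - 1) (by omega) (by omega) (by omega) (by omega)).trans ?_
    have e1 : (b:ℝ) * ((b:ℝ) ^ g) ^ k = (b:ℝ) ^ ((g * k + 1 : ℕ) : ℝ) := by
      rw [Real.rpow_natCast, ← pow_mul, pow_succ]; ring
    have e2 : 2 * (b:ℝ) * (b:ℝ) ^ ((d:ℝ) + 1 - ((2:ℝ) ^ (1 - α) - 1) * Q) =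
        2 * (b:ℝ) ^ ((d:ℝ) + 2 - γ * Q) := by
      have : (d:ℝ) + 2 - γ * Q = 1 + ((d:ℝ) + 1 - γ * Q) := by ring
      rw [this, Real.rpow_add hb0, Real.rpow_one, ← hγ]; ring
    rw [e1, e2, div_eq_mul_inv, ← Real.rpow_neg hb0.le]
    apply mul_le_mul_of_nonneg_left _ (by norm_num)
    apply Real.rpow_le_rpow_of_exponent_le (by linarith)
    have h3 := hQγ
    push_cast at h3 ⊢
    have hqm0 : (0:ℝ) ≤ qm := by positivity
    have hd0 : (0:ℝ) ≤ d := by positivity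
    linarith
  -- the factors of `D`
  set x : Fin j → ℕ := fun i => 4 * (2 * A') ^ (j - i.1 - 1) + 1 with hx
  have hx' : ∀ i i', i < i' → 4 * q i' + 1 ≤ x i := by
    intro i i' hii
    have : q i' ≤ (2 * A') ^ (j - i.1 - 1) := Nat.pow_le_pow_right (by omega) (by
      have h2 : i.1 < i'.1 := hii
      omega)
    simp only [hx]
    omega
  have hqdiv : ∀ i : Fin j, q i = 2 * (A' * (2 * A') ^ (j - i.1 - 1)) := by
    intro i
    have : j - i.1 = (j - i.1 - 1) + 1 := by have := i.2; omega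
    simp only [hq]
    conv_lhs => rw [this, pow_succ]
    ring
  set δ : Fin j → ℝ := fun i => CC * (b:ℝ) ^ (-(γ * (q i / 2 : ℕ))) with hδ
  have hδ0 : ∀ i, 0 ≤ δ i := fun i => mul_nonneg hCC0 (Real.rpow_nonneg hb0.le _)
  have hδx : ∀ i, δ i * ((b:ℝ) ^ (x i)) ^ k ≤ CC / b := by
    intro i
    set y := (2 * A') ^ (j - i.1 - 1) with hy
    have hy1 : 1 ≤ y := Nat.one_le_pow _ _ (by omega)
    have e1 : ((b:ℝ) ^ (x i)) ^ k = (b:ℝ) ^ (((4 * y + 1) * k : ℕ) : ℝ) := by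
      rw [Real.rpow_natCast, ← pow_mul]
    have e2 : q i / 2 = A' * y := by
      rw [hqdiv i]
      exact Nat.mul_div_cancel_left _ (by norm_num)
    simp only [hδ]
    rw [e1, e2, mul_assoc, ← Real.rpow_add hb0, div_eq_mul_inv]
    apply mul_le_mul_of_nonneg_left _ hCC0
    rw [← Real.rpow_neg_one]
    apply Real.rpow_le_rpow_of_exponent_le (by linarith)
    push_cast
    have hy1R : (1:ℝ) ≤ y := by exact_mod_cast hy1
    have hk1R : (3:ℝ) ≤ k := by exact_mod_cast hk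
    have h3 : (6 * k : ℝ) * y ≤ γ * A' * y := mul_le_mul_of_nonneg_right hA'γ (by positivity)
    nlinarith
  have hDfix : ∀ i i2, i < i2 → ∀ m, 2 ≤ m → m ≤ K → ∀ s : St (Option (Fin j)), TreeOn m s.E →
      Clean m s → ∀ z1 < m, ∀ z2 < m, s.col z1 = some i → s.col z2 = some i2 →
      Rv α P Z (m + 1) (s.step m z1 none) ≤ δ i * Rv α P Z m s + T := by
    intro i i2 hii m hm2 hmK s hs hcl z1 hz1 z2 hz2 hc1 hc2
    have hcond : 2 * (q i2 + 2) ≤ q i := by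
      have h2 : q i2 ≤ (2 * A') ^ (j - i.1 - 1) := Nat.pow_le_pow_right (by omega) (by
        have h2 : i.1 < i2.1 := hii
        omega)
      have h3 := hqdiv i
      have h4 : 1 ≤ (2 * A') ^ (j - i.1 - 1) := Nat.one_le_pow _ _ (by omega)
      have h5 : 4 * (2 * A') ^ (j - i.1 - 1) ≤ A' * (2 * A') ^ (j - i.1 - 1) :=
        Nat.mul_le_mul_right _ (by omega)
      omega
    have hnz : nD (i, i2) ≤ n := by
      have := single_le_sum (f := nD) (fun z _ => Nat.zero_le _) (mem_univ (i, i2))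
      omega
    have h2 := hnD (i, i2) hcond n hnz m hm2 hmK s hs hcl z1 hz1 z2 hz2 hc1 hc2
    refine h2.trans (add_le_add ?_ (hcf (m + 1) _ (by omega) (hs.step hz1)))
    apply mul_le_mul_of_nonneg_right _ (Rv_nonneg _ _)
    simp only [hδ]
    apply mul_le_mul_of_nonneg_right _ (Real.rpow_nonneg hb0.le _)
    exact single_le_sum (f := CD) (fun z _ => (hCD z).le) (mem_univ (i, i2))
  have hTV : T ≤ 2 * F * V / b := by
    rw [hTdef]
    calc 2 * F * t ≤ 2 * F * (V / b) := mul_le_mul_of_nonneg_left htV (by positivity)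
      _ = _ := by ring
  -- values of the other trees
  have hother : ∀ E ∈ S, E ≠ E1 → ∀ c, Rv α P Z k ⟨E, c⟩ ≤ D5 / b * V := by
    intro E hE hne c
    refine core_bound hZ hIneq h0 h1 hn01 (g := g) (fun i => by have := hqmax i; omega)
      (by omega) hk (by omega) (by omega)
      (A.no j Z P hZ hn01 hn1n k hk (by omega)) hRvT0 hrho (by exact_mod_cast hbk) hx' hδ0 hCC0 hδx
      hDfix hF1 hC1 hV hTV (s := ⟨E, c⟩) (hT E hE) ?_
    intro hcl hcons
    have hall := all_of_card_J2 (hT E hE) hcl hcons (by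
      rw [Fintype.card_fin]; exact hmin E hE)
    have hC : Canon Z k ⟨E, c⟩ (leafs k ⟨E, c⟩) := ⟨hT E hE, hcl, hcons, hall, fun _ => rfl⟩
    refine ⟨_, hC, hlmin _ ⟨E, hE, c, hC⟩ ?_⟩
    intro heq
    rw [heq] at hC
    exact hne (hiso E hE E1 hE1 (hC.isoOn hC1))
  refine ⟨EvA P Z, fun σ hσ E => EvA_perm hσ E, ?_, ?_⟩
  · have h2 := Rv_le_pr_EvA (α := α) hn1n hZ (k := k) (by omega) (by omega) (hT E1 hE1) hC1.all
    refine le_trans ?_ h2
    apply mul_le_mul _ hVlow hebQ.le (by have := cfac_pos α k E1; positivity)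
    exact inv_anti₀ (cfac_pos _ _ _) (cfac_le_const h1 (by omega) (hT E1 hE1).valid)
  · intro E hE hne
    have h2 := Rv_le_pr_EvA (α := α) hn1n hZ (k := k) (by omega) (by omega) (hT E1 hE1) hC1.all
    have h3 := pr_EvA_le (α := α) hn1n hZ hH2 (k := k) (by omega) (by omega) (hT E hE)
    have h4 : pr α k (P.n - k) (ind (fun E => ¬ Reg P E)) E ≤ t :=
      hnT1 n (by omega) k (by omega) (by omega) E (hT E hE) (by
        intro y _
        have h5 : deg E y ≤ k := by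
          unfold deg
          refine (card_filter_le _ _).trans ?_
          have := (hT E hE).valid.card
          omega
        have h6 : b ≤ b ^ Q := Nat.le_self_pow (by omega) b
        omega)
    have h5 : (cfac α k E)⁻¹ * ∑ c ∈ Cols (Fin j) k, Rv α P Z k ⟨E, c⟩ ≤
        ((j:ℝ) + 1) ^ k * (D5 / b * V) := by
      have h6 : ∑ c ∈ Cols (Fin j) k, Rv α P Z k ⟨E, c⟩ ≤ ((j:ℝ) + 1) ^ k * (D5 / b * V) := by
        refine (sum_le_card_nsmul _ _ _ (fun c _ => hother E hE hne c)).trans ?_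
        rw [card_Cols, nsmul_eq_mul, Fintype.card_fin]
        push_cast
        exact le_rfl
      have h7 : 0 ≤ ∑ c ∈ Cols (Fin j) k, Rv α P Z k ⟨E, c⟩ :=
        sum_nonneg fun c _ => Rv_nonneg _ _
      calc _ ≤ 1 * ∑ c ∈ Cols (Fin j) k, Rv α P Z k ⟨E, c⟩ := by
            apply mul_le_mul_of_nonneg_right _ h7
            exact inv_le_one_of_one_le₀ (one_le_cfac h0 _ _)
        _ ≤ _ := by rw [one_mul]; exact h6
    have h8 : F⁻¹ * V ≤ pr α k (P.n - k) (ind (EvA P Z)) E1 := by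
      refine le_trans ?_ h2
      apply mul_le_mul_of_nonneg_right _ hV0.le
      exact inv_anti₀ (cfac_pos _ _ _) (cfac_le_const h1 (by omega) (hT E1 hE1).valid)
    calc pr α k (n - k) (ind (EvA P Z)) E ≤ ((j:ℝ) + 1) ^ k * (D5 / b * V) + V / b :=
          h3.trans (add_le_add h5 (h4.trans htV))
      _ = (((j:ℝ) + 1) ^ k * D5 + 1) / b * V := by ring
      _ ≤ η * (F⁻¹ * V) := by
          rw [← mul_assoc]
          apply mul_le_mul_of_nonneg_right _ hV0.le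
          rw [div_le_iff₀ hb0]
          have hF0 : 0 < F := by linarith
          have : ((j:ℝ) + 1) ^ k * D5 + 1 ≤ η * b / F := by
            rw [le_div_iff₀ hF0]; linarith
          calc _ ≤ η * b / F := this
            _ = _ := by rw [div_eq_mul_inv]; ring
      _ ≤ η * pr α k (n - k) (ind (EvA P Z)) E1 := mul_le_mul_of_nonneg_left h8 hη.le

end final

end SeedPA
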