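import Pool.Agent.SeedPA.Exch

/-!
# X1 and X2: few / many early components at a hub
-/

open Finset

namespace SeedPA

variable {I : Type*} [Fintype I] {α : ℝ} {P : Par I} {Z : SimpleGraph I}

omit [Fintype I] in
/-- the big vertices at a hub have labels `< n1` -/
theorem big_lt {s : St (Option I)} (hG : Good P Z s) {z x : ℕ} (hz : z < P.n)
    (hc : s.col z ≠ none) (h : BigAt P s z x) : x < P.n1 := by
  by_contra hcon
  have := hG.g1 x (by omega) ⟨h.1, h.2.1, z, hz, hc, h.2.2.1⟩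
  have := h.2.2.2
  omega

open Classical in
/-- **X1**: it is unlikely that many early components are attached to a hub -/
theorem X1 (h0 : 0 < α) (h1 : α < 1) (hP : P.n1 ≤ P.n) {m0 M z1 z2 : ℕ} {i i2 : I}
    (hm0 : 1 ≤ m0) (hmM : m0 ≤ M) (hM : M ≤ P.n1) (hz : z1 ≠ z2) (hz1 : z1 < m0) (hz2 : z2 < m0)
    {s : St (Option I)} (hs : Valid m0 s.E) (hub : HasHub m0 s) (hc1 : s.col z1 = some i)
    (hc2 : s.col z2 = some i2) {D s0 c : ℕ} (hcard : 2 * (2 * s0 : ℝ) ^ α ≤ c) :
    ((D.choose s0 * (P.H i2 - M).choose s0 : ℕ) : ℝ) *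
      RvA α P Z m0 (fun s => D ≤ ((Ico m0 M).filter (fun x => BigAt P s z1 x)).card) s ≤
    (P.n1 : ℝ) ^ c * ((M.choose s0 * (3 * P.H i).choose s0 : ℕ) * Rv α P Z m0 s) := by
  set T := (powersetCard s0 (Ico m0 M)) ×ˢ (powersetCard s0 (Ico M P.n1)) with hT
  set B : Finset ℕ × Finset ℕ → St (Option I) → Prop := fun T s =>
    Att z1 z2 T.1 T.2 s ∧ (∀ x ∈ T.1, BigAt P s z1 x) ∧ (∀ y ∈ T.2, BigAt P s z2 y) ∧ True with hB
  set B' : Finset ℕ × Finset ℕ → St (Option I) → Prop := fun T s =>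
    Att z2 z1 T.1 T.2 s ∧ (∀ x ∈ T.1, BigAt P s z2 x) ∧ (∀ y ∈ T.2, BigAt P s z1 y) ∧ True with hB'
  have step1 : ((D.choose s0 * (P.H i2 - M).choose s0 : ℕ) : ℝ) *
      RvA α P Z m0 (fun s => D ≤ ((Ico m0 M).filter (fun x => BigAt P s z1 x)).card) s ≤
      ∑ t ∈ T, RvA α P Z m0 (B t) s := by
    apply RvA_count_le T (by omega) hs hub
    intro s' hi hG hA
    have hn1 : z1 < P.n := by omega
    have hn2 : z2 < P.n := by omega
    have hcz1 : s'.col z1 = some i := by rw [hi.old z1 hz1]; exact hc1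
    have hcz2 : s'.col z2 = some i2 := by rw [hi.old z2 hz2]; exact hc2
    set F := (Ico m0 M).filter (fun x => BigAt P s' z1 x) with hF
    set G := (Ico M P.n1).filter (fun x => BigAt P s' z2 x) with hGG
    have hGcard : P.H i2 - M ≤ G.card := by
      have h2 := hG.lo i2 z2 hn2 hcz2
      have h3 : bigSet P s' z2 ⊆ range M ∪ G := by
        intro x hx
        rw [bigSet, mem_filter, mem_range] at hx
        rw [mem_union, mem_range]
        by_cases hxM : x < M
        · exact Or.inl hxM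
        · right
          rw [hGG, mem_filter, mem_Ico]
          exact ⟨⟨by omega, big_lt hG hn2 (by rw [hcz2]; simp) hx.2⟩, hx.2⟩
      have h4 := (card_le_card h3).trans (card_union_le _ _)
      rw [card_range] at h4
      omega
    have hsub : ∀ t ∈ (powersetCard s0 F) ×ˢ (powersetCard s0 G), t ∈ T ∧ B t s' := by
      rintro ⟨X, Y⟩ hXY
      rw [mem_product, mem_powersetCard, mem_powersetCard] at hXY
      obtain ⟨⟨hXF, hXc⟩, ⟨hYG, hYc⟩⟩ := hXY
      dsimp only at hXF hYG hXc hYc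
      have hXF' : ∀ x ∈ X, m0 ≤ x ∧ x < M ∧ BigAt P s' z1 x := by
        intro x hx
        have := hXF hx
        rw [hF, mem_filter, mem_Ico] at this
        exact ⟨this.1.1, this.1.2, this.2⟩
      have hYG' : ∀ x ∈ Y, M ≤ x ∧ x < P.n1 ∧ BigAt P s' z2 x := by
        intro x hx
        have := hYG hx
        rw [hGG, mem_filter, mem_Ico] at this
        exact ⟨this.1.1, this.1.2, this.2⟩
      rw [hT, mem_product, mem_powersetCard, mem_powersetCard]
      refine ⟨⟨⟨fun x hx => mem_Ico.2 ⟨(hXF' x hx).1, (hXF' x hx).2.1⟩, hXc⟩,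
        ⟨fun x hx => mem_Ico.2 ⟨(hYG' x hx).1, (hYG' x hx).2.1⟩, hYc⟩⟩, ?_,
        fun x hx => (hXF' x hx).2.2, fun x hx => (hYG' x hx).2.2, trivial⟩
      have hcz1' : s'.col z1 ≠ none := by rw [hcz1]; simp
      have hcz2' : s'.col z2 ≠ none := by rw [hcz2]; simp
      refine ⟨hcz1', hcz2', fun x hx => (hXF' x hx).2.2.2.1, fun x hx => (hYG' x hx).2.2.2.1,
        fun x hx => (hXF' x hx).2.2.2.2.1, ?_, fun x hx => (hYG' x hx).2.2.2.2.1, ?_⟩
      · intro x hx hcon
        have h3 := hXF' x hx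
        exact hz (hi.up x h3.1 h3.2.2.1 z1 (by omega) z2 (by omega) h3.2.2.2.2.1 hcon)
      · intro x hx hcon
        have h3 := hYG' x hx
        exact hz (hi.up x (by omega) h3.2.2.1 z1 (by omega) z2 (by omega) hcon h3.2.2.2.2.1)
    refine ⟨_, hsub, ?_⟩
    rw [card_product, card_powersetCard, card_powersetCard]
    exact Nat.mul_le_mul (Nat.choose_le_choose _ hA) (Nat.choose_le_choose _ hGcard)
  have step2 : ∀ t ∈ T, RvA α P Z m0 (B t) s ≤ (P.n1 : ℝ) ^ c * RvA α P Z m0 (B' t) s := by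
    rintro ⟨X, Y⟩ ht
    rw [hT, mem_product, mem_powersetCard, mem_powersetCard] at ht
    obtain ⟨⟨hX, hXc⟩, ⟨hY, hYc⟩⟩ := ht
    dsimp only at hX hY hXc hYc
    exact exch_core (Z := Z) h0 h1 hP hm0 hmM hM hz hz2 (by omega) hX
      (fun x hx => by have := mem_Ico.1 (hX hx); omega) hY (by rw [hXc, hYc])
      (by rw [hXc]; exact hcard) (fun _ _ _ _ => trivial) hs
  have step3 : ∑ t ∈ T, RvA α P Z m0 (B' t) s ≤
      (M.choose s0 * (3 * P.H i).choose s0 : ℕ) * Rv α P Z m0 s := by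
    apply RvA_count_ge T (by omega) hs hub
    intro s' hi hG
    have hcz1 : s'.col z1 = some i := by rw [hi.old z1 hz1]; exact hc1
    have hsub : ∀ t, t ∈ T → B' t s' → t ∈
        (powersetCard s0 (Ico m0 M)) ×ˢ (powersetCard s0 (bigSet P s' z1)) := by
      rintro ⟨X, Y⟩ hXY ⟨_, _, hbY, _⟩
      rw [hT, mem_product, mem_powersetCard, mem_powersetCard] at hXY
      obtain ⟨⟨hX, hXc⟩, ⟨hY, hYc⟩⟩ := hXY
      rw [mem_product, mem_powersetCard, mem_powersetCard]
      refine ⟨⟨hX, hXc⟩, ⟨fun y hy => ?_, hYc⟩⟩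
      rw [bigSet, mem_filter, mem_range]
      exact ⟨(hbY y hy).1, hbY y hy⟩
    refine ⟨_, hsub, ?_⟩
    rw [card_product, card_powersetCard, card_powersetCard, Nat.card_Ico]
    exact Nat.mul_le_mul (Nat.choose_le_choose _ (Nat.sub_le _ _))
      (Nat.choose_le_choose _ (hG.hi i z1 (by omega) hcz1))
  calc _ ≤ ∑ t ∈ T, RvA α P Z m0 (B t) s := step1
    _ ≤ ∑ t ∈ T, (P.n1 : ℝ) ^ c * RvA α P Z m0 (B' t) s := sum_le_sum step2
    _ = (P.n1 : ℝ) ^ c * ∑ t ∈ T, RvA α P Z m0 (B' t) s := by rw [mul_sum]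
    _ ≤ _ := mul_le_mul_of_nonneg_left step3 (by positivity)

/-- the event of X2: no non-hub in `[m0, M)` is attached to `z2`, all non-hubs in `[m0, M)` are
attached to hubs with label `< M` and are big -/
def EvX2 (P : Par I) (m0 M z2 : ℕ) (s : St (Option I)) : Prop :=
  ∀ x, m0 ≤ x → x < M → s.col x = none →
    s(z2, x) ∉ s.E ∧ (∃ y < M, s.col y ≠ none ∧ s(y, x) ∈ s.E) ∧ P.n ≤ cs P.n s x * P.t

open Classical in
/-- number of hubs -/
theorem card_hubsI_le {s : St (Option I)} (hG : Good P Z s) {A : Finset ℕ}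
    (hA : ∀ x ∈ A, x < P.n ∧ s.col x ≠ none) : A.card ≤ Fintype.card I := by
  have h : ∀ x : A, ∃ i, s.col x = some i := fun x => Option.ne_none_iff_exists'.1 (hA x x.2).2
  choose f hf using h
  have hinj : Function.Injective f := by
    intro a b hab
    have h1 := hf a
    have h2 := hf b
    rw [hab] at h1
    exact Subtype.ext (hG.uniq _ _ _ (hA a a.2).1 (hA b b.2).1 h1 h2)
  have := Fintype.card_le_of_injective f hinj
  simpa using this

open Classical in
/-- **X2**: it is unlikely that no early component is attached to a hub -/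
theorem X2 (h0 : 0 < α) (h1 : α < 1) (hP : P.n1 ≤ P.n) {m0 M z2 : ℕ} {i : I}
    (hm0 : 1 ≤ m0) (hmM : m0 ≤ M) (hM : M ≤ P.n1) (hz2 : z2 < m0)
    {s : St (Option I)} (hs : Valid m0 s.E) (hub : HasHub m0 s) (hc2 : s.col z2 = some i)
    {a s0 c Hm : ℕ} (hs0 : 1 ≤ s0) (hcard : 2 * (2 * s0 : ℝ) ^ α ≤ c)
    (ha : Fintype.card I * a + Fintype.card I ≤ M - m0) (hHm : ∀ i', P.H i' ≤ Hm) :
    ((a.choose s0 * (P.H i - m0).choose s0 : ℕ) : ℝ) * RvA α P Z m0 (EvX2 P m0 M z2) s ≤
    (P.n1 : ℝ) ^ c * ((Fintype.card I * (3 * Hm).choose s0 : ℕ) * Rv α P Z m0 s) := by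
  set T := (range M) ×ˢ ((powersetCard s0 (Ico m0 M)) ×ˢ (powersetCard s0 (Ico M P.n1))) with hT
  set B0 : ℕ × Finset ℕ × Finset ℕ → St (Option I) → Prop := fun T s =>
    Att T.1 z2 T.2.1 T.2.2 s ∧ (∀ x ∈ T.2.1, BigAt P s T.1 x) ∧ (∀ y ∈ T.2.2, BigAt P s z2 y) ∧
    (∀ x, m0 ≤ x → x < M → s.col x = none → s(z2, x) ∉ s.E) with hB0
  set B : ℕ × Finset ℕ × Finset ℕ → St (Option I) → Prop := fun T s =>
    (T.1 ≠ z2 ∧ ∀ x ∈ T.2.1, T.1 < x) ∧ B0 T s with hB
  set B' : ℕ × Finset ℕ × Finset ℕ → St (Option I) → Prop := fun T s =>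
    Att z2 T.1 T.2.1 T.2.2 s ∧ (∀ x ∈ T.2.1, BigAt P s z2 x) ∧ (∀ y ∈ T.2.2, BigAt P s T.1 y) ∧
    (∀ x, m0 ≤ x → x < M → s.col x = none → s(z2, x) ∈ s.E → x ∈ T.2.1) with hB'
  have step1 : ((a.choose s0 * (P.H i - m0).choose s0 : ℕ) : ℝ) *
      RvA α P Z m0 (EvX2 P m0 M z2) s ≤ ∑ t ∈ T, RvA α P Z m0 (B t) s := by
    apply RvA_count_le T (by omega) hs hub
    intro s' hi hG hA
    have hn2 : z2 < P.n := by omega
    have hcz2 : s'.col z2 = some i := by rw [hi.old z2 hz2]; exact hc2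
    have hcz2' : s'.col z2 ≠ none := by rw [hcz2]; simp
    by_cases ha0 : a = 0
    · subst ha0
      refine ⟨∅, by simp, ?_⟩
      rw [Nat.choose_eq_zero_of_lt hs0, zero_mul]
      exact Nat.zero_le _
    set G := (Ico M P.n1).filter (fun x => BigAt P s' z2 x) with hGG
    have hGcard : P.H i - m0 ≤ G.card := by
      have h2 := hG.lo i z2 hn2 hcz2
      have h3 : bigSet P s' z2 ⊆ range m0 ∪ G := by
        intro x hx
        rw [bigSet, mem_filter, mem_range] at hx
        rw [mem_union, mem_range]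
        by_cases hxm : x < m0
        · exact Or.inl hxm
        · right
          rw [hGG, mem_filter, mem_Ico]
          refine ⟨⟨?_, big_lt hG hn2 hcz2' hx.2⟩, hx.2⟩
          by_contra hcon
          exact (hA x (by omega) (by omega) hx.2.2.1).1 hx.2.2.2.1
      have h4 := (card_le_card h3).trans (card_union_le _ _)
      rw [card_range] at h4
      omega
    -- non-hubs in `[m0, M)`
    set N := (Ico m0 M).filter (fun x => s'.col x = none) with hN
    have hNcard : Fintype.card I * a ≤ N.card := by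
      have h2 := card_sdiff_add_card_eq_card (s := N) (t := Ico m0 M) (filter_subset _ _)
      have h3 : (Ico m0 M \ N).card ≤ Fintype.card I := by
        apply card_hubsI_le hG
        intro x hx
        rw [mem_sdiff, hN, mem_filter] at hx
        have h5 := mem_Ico.1 hx.1
        exact ⟨by omega, fun h6 => hx.2 ⟨hx.1, h6⟩⟩
      rw [Nat.card_Ico] at h2
      omega
    have hy : ∀ x ∈ N, ∃ y < M, ∃ i', s'.col y = some i' ∧ s(y, x) ∈ s'.E := by
      intro x hx
      rw [hN, mem_filter, mem_Ico] at hx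
      obtain ⟨_, ⟨y, hy, hyc, hye⟩, _⟩ := hA x hx.1.1 hx.1.2 hx.2
      obtain ⟨i', hi'⟩ := Option.ne_none_iff_exists'.1 hyc
      exact ⟨y, hy, i', hi', hye⟩
    have : Nonempty I := ⟨i⟩
    choose! y hyM g hg hye using hy
    obtain ⟨i1, _, hi1⟩ := exists_le_card_fiber_of_mul_le_card_of_maps_to (s := N)
      (t := (univ : Finset I)) (f := g) (n := a) (fun x _ => mem_univ _) univ_nonempty
      (by rw [card_univ]; exact hNcard)
    obtain ⟨x0, hx0⟩ : (N.filter (fun x => g x = i1)).Nonempty := by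
      rw [← card_pos]; omega
    rw [mem_filter] at hx0
    set z1 := y x0 with hz1
    have hz1M : z1 < M := hyM x0 hx0.1
    have hcz1 : s'.col z1 = some i1 := by rw [hz1, hg x0 hx0.1, hx0.2]
    have hcz1' : s'.col z1 ≠ none := by rw [hcz1]; simp
    set F := (Ico m0 M).filter (fun x => BigAt P s' z1 x) with hF
    have hFN : N.filter (fun x => g x = i1) ⊆ F := by
      intro x hx
      rw [mem_filter] at hx
      have hxN := hx.1
      rw [hN, mem_filter, mem_Ico] at hxN
      have hyx : y x = z1 := by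
        apply hG.uniq i1 _ _ (by have := hyM x hx.1; omega) (by omega) _ hcz1
        rw [hg x hx.1, hx.2]
      rw [hF, mem_filter, mem_Ico]
      refine ⟨hxN.1, by omega, hxN.2, ?_, (hA x hxN.1.1 hxN.1.2 hxN.2).2.2⟩
      rw [← hyx]
      exact hye x hx.1
    have hFcard : a ≤ F.card := hi1.trans (card_le_card hFN)
    have hz12 : z1 ≠ z2 := by
      intro h
      have hx := hx0.1
      rw [hN, mem_filter, mem_Ico] at hx
      apply (hA x0 hx.1.1 hx.1.2 hx.2).1
      rw [← h]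
      exact hye x0 hx0.1
    have hz1x : ∀ x ∈ F, z1 < x := by
      intro x hx
      rw [hF, mem_filter, mem_Ico] at hx
      by_contra hcon
      have hne : z1 ≠ x := by
        intro h
        rw [h] at hcz1'
        exact hcz1' hx.2.2.1
      have : s'.col x ≠ none := by
        apply hi.hp z1 (by omega) (by omega) hcz1' x (by omega)
        rw [Sym2.eq_swap]
        exact hx.2.2.2.1
      exact this hx.2.2.1
    have hsub : ∀ t ∈ (({z1} : Finset ℕ) ×ˢ ((powersetCard s0 F) ×ˢ (powersetCard s0 G))),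
        t ∈ T ∧ B t s' := by
      rintro ⟨z, X, Y⟩ hXY
      rw [mem_product, mem_product, mem_powersetCard, mem_powersetCard, mem_singleton] at hXY
      obtain ⟨hzz, ⟨hXF, hXc⟩, ⟨hYG, hYc⟩⟩ := hXY
      dsimp only at hzz hXF hYG hXc hYc
      subst hzz
      have hXF' : ∀ x ∈ X, m0 ≤ x ∧ x < M ∧ BigAt P s' z1 x := by
        intro x hx
        have := hXF hx
        rw [hF, mem_filter, mem_Ico] at this
        exact ⟨this.1.1, this.1.2, this.2⟩
      have hYG' : ∀ x ∈ Y, M ≤ x ∧ x < P.n1 ∧ BigAt P s' z2 x := by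
        intro x hx
        have := hYG hx
        rw [hGG, mem_filter, mem_Ico] at this
        exact ⟨this.1.1, this.1.2, this.2⟩
      rw [hT, mem_product, mem_product, mem_powersetCard, mem_powersetCard, mem_range]
      refine ⟨⟨hz1M, ⟨fun x hx => mem_Ico.2 ⟨(hXF' x hx).1, (hXF' x hx).2.1⟩, hXc⟩,
        ⟨fun x hx => mem_Ico.2 ⟨(hYG' x hx).1, (hYG' x hx).2.1⟩, hYc⟩⟩,
        ⟨hz12, fun x hx => hz1x x (hXF hx)⟩, ?_,
        fun x hx => (hXF' x hx).2.2, fun x hx => (hYG' x hx).2.2,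
        fun x h1 h2 h3 => (hA x h1 h2 h3).1⟩
      refine ⟨hcz1', hcz2', fun x hx => (hXF' x hx).2.2.2.1, fun x hx => (hYG' x hx).2.2.2.1,
        fun x hx => (hXF' x hx).2.2.2.2.1, ?_, fun x hx => (hYG' x hx).2.2.2.2.1, ?_⟩
      · intro x hx
        have h3 := hXF' x hx
        exact (hA x h3.1 h3.2.1 h3.2.2.2.1).1
      · intro x hx hcon
        have h3 := hYG' x hx
        exact hz12 (hi.up x (by omega) h3.2.2.1 z1 (by omega) z2 (by omega) hcon h3.2.2.2.2.1)
    refine ⟨_, hsub, ?_⟩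
    rw [card_product, card_product, card_powersetCard, card_powersetCard, card_singleton, one_mul]
    exact Nat.mul_le_mul (Nat.choose_le_choose _ hFcard) (Nat.choose_le_choose _ hGcard)
  have step2 : ∀ t ∈ T, RvA α P Z m0 (B t) s ≤ (P.n1 : ℝ) ^ c * RvA α P Z m0 (B' t) s := by
    rintro ⟨z1, X, Y⟩ ht
    rw [hT, mem_product, mem_product, mem_powersetCard, mem_powersetCard, mem_range] at ht
    obtain ⟨hz1M, ⟨hX, hXc⟩, ⟨hY, hYc⟩⟩ := ht
    dsimp only at hX hY hXc hYc hz1M
    by_cases hcond : z1 ≠ z2 ∧ ∀ x ∈ X, z1 < x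
    · have e : RvA α P Z m0 (B (z1, X, Y)) s ≤ RvA α P Z m0 (B0 (z1, X, Y)) s :=
        RvA_mono (fun _ _ h => h.2) _ _
      refine e.trans ?_
      apply exch_core (Z := Z) h0 h1 hP hm0 hmM hM hcond.1 hz2 hz1M hX hcond.2 hY
        (by rw [hXc, hYc]) (by rw [hXc]; exact hcard) _ hs
      intro s' hv hatt hBx x hx1 hx2 hxc hxe
      by_contra hxX
      have hxA : x ∉ X ∪ Y := by
        rw [mem_union]
        rintro (h | h)
        · exact hxX h
        · have := mem_Ico.1 (hY h); omega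
      rw [hatt.mem_hub_out hatt.c2 hxA] at hxe
      exact hBx x hx1 hx2 hxc hxe
    · have e : RvA α P Z m0 (B (z1, X, Y)) s ≤ RvA α P Z m0 (B' (z1, X, Y)) s := by
        apply RvA_mono
        intro s' _ h
        exact absurd h.1 hcond
      refine e.trans ?_
      have hn : (1:ℝ) ≤ (P.n1 : ℝ) ^ c := by
        apply one_le_pow₀
        exact_mod_cast (by omega : 1 ≤ P.n1)
      calc _ = 1 * RvA α P Z m0 (B' (z1, X, Y)) s := (one_mul _).symm
        _ ≤ _ := mul_le_mul_of_nonneg_right hn (RvA_nonneg _ _ _)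
  have step3 : ∑ t ∈ T, RvA α P Z m0 (B' t) s ≤
      (Fintype.card I * (3 * Hm).choose s0 : ℕ) * Rv α P Z m0 s := by
    apply RvA_count_ge T (by omega) hs hub
    intro s' hi hG
    set Hs := (range P.n).filter (fun z => s'.col z ≠ none) with hHs
    set X0 := (Ico m0 M).filter (fun x => s'.col x = none ∧ s(z2, x) ∈ s'.E) with hX0
    have hsub : ∀ t, t ∈ T → B' t s' → t ∈
        Hs.biUnion (fun z => (powersetCard s0 (bigSet P s' z)).image (fun Y => (z, X0, Y))) := by
      rintro ⟨z1, X, Y⟩ hXY ⟨hatt, _, hbY, hXm⟩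
      rw [hT, mem_product, mem_product, mem_powersetCard, mem_powersetCard,
        mem_range] at hXY
      obtain ⟨hz1M, ⟨hX, hXc⟩, ⟨hY, hYc⟩⟩ := hXY
      dsimp only at hz1M hX hXc hY hYc hatt hbY hXm
      rw [mem_biUnion]
      refine ⟨z1, ?_, ?_⟩
      · rw [hHs, mem_filter, mem_range]
        exact ⟨by omega, hatt.c2⟩
      · rw [mem_image]
        refine ⟨Y, ?_, ?_⟩
        · rw [mem_powersetCard]
          refine ⟨fun y hy => ?_, hYc⟩
          rw [bigSet, mem_filter, mem_range]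
          exact ⟨(hbY y hy).1, hbY y hy⟩
        · have : X0 = X := by
            ext x
            rw [hX0, mem_filter, mem_Ico]
            constructor
            · rintro ⟨⟨h1, h2⟩, h3, h4⟩
              exact hXm x h1 h2 h3 h4
            · intro hx
              exact ⟨mem_Ico.1 (hX hx), hatt.cX x hx, hatt.X1 x hx⟩
          rw [this]
    refine ⟨_, hsub, card_biUnion_le.trans ?_⟩
    have h2 : ∀ z ∈ Hs, ((powersetCard s0 (bigSet P s' z)).image (fun Y => (z, X0, Y))).card ≤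
        (3 * Hm).choose s0 := by
      intro z hz
      rw [hHs, mem_filter, mem_range] at hz
      refine card_image_le.trans ?_
      rw [card_powersetCard]
      apply Nat.choose_le_choose
      obtain ⟨i', hi'⟩ := Option.ne_none_iff_exists'.1 hz.2
      exact (hG.hi i' z hz.1 hi').trans (Nat.mul_le_mul_left _ (hHm i'))
    refine (sum_le_sum h2).trans ?_
    rw [sum_const, smul_eq_mul]
    apply Nat.mul_le_mul_right
    apply card_hubsI_le hG
    intro x hx
    rw [hHs, mem_filter, mem_range] at hx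
    exact hx
  calc _ ≤ ∑ t ∈ T, RvA α P Z m0 (B t) s := step1
    _ ≤ ∑ t ∈ T, (P.n1 : ℝ) ^ c * RvA α P Z m0 (B' t) s := sum_le_sum step2
    _ = (P.n1 : ℝ) ^ c * ∑ t ∈ T, RvA α P Z m0 (B' t) s := by rw [mul_sum]
    _ ≤ _ := mul_le_mul_of_nonneg_left step3 (by positivity)

end SeedPA
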