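import Pool.Agent.SeedPA.Await

/-!
# The move-earlier lemma
-/

open Finset

namespace SeedPA

variable {C I : Type*}

/-- the permutation `m + d ↦ m`, `x ↦ x + 1` for `m ≤ x < m + d` -/
def cyc : ℕ → ℕ → Equiv.Perm ℕ
  | _, 0 => Equiv.refl ℕ
  | m, d + 1 => (cyc (m + 1) d).trans (Equiv.swap m (m + 1))

theorem cyc_zero (m : ℕ) : cyc m 0 = Equiv.refl ℕ := rfl
theorem cyc_succ (m d : ℕ) : cyc m (d + 1) = (cyc (m + 1) d).trans (Equiv.swap m (m + 1)) := rfl

theorem cyc_lt : ∀ (d m x : ℕ), x < m → cyc m d x = x := by
  intro d
  induction d with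
  | zero => intro m x _; rfl
  | succ d ih =>
    intro m x hx
    rw [cyc_succ, Equiv.trans_apply, ih (m + 1) x (by omega)]
    exact Equiv.swap_apply_of_ne_of_ne (by omega) (by omega)

theorem cyc_gt : ∀ (d m x : ℕ), m + d < x → cyc m d x = x := by
  intro d
  induction d with
  | zero => intro m x _; rfl
  | succ d ih =>
    intro m x hx
    rw [cyc_succ, Equiv.trans_apply, ih (m + 1) x (by omega)]
    exact Equiv.swap_apply_of_ne_of_ne (by omega) (by omega)

theorem cyc_last : ∀ (d m : ℕ), cyc m d (m + d) = m := by
  intro d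
  induction d with
  | zero => intro m; rfl
  | succ d ih =>
    intro m
    rw [cyc_succ, Equiv.trans_apply, show m + (d + 1) = (m + 1) + d by omega, ih (m + 1)]
    exact Equiv.swap_apply_right m (m + 1)

theorem cyc_mid : ∀ (d m x : ℕ), m ≤ x → x < m + d → cyc m d x = x + 1 := by
  intro d
  induction d with
  | zero => intro m x h1 h2; omega
  | succ d ih =>
    intro m x h1 h2
    rw [cyc_succ, Equiv.trans_apply]
    by_cases hx : x = m
    · subst hx
      rw [cyc_lt d (x + 1) x (by omega), Equiv.swap_apply_left]
    · rw [ih (m + 1) x (by omega) (by omega)]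
      exact Equiv.swap_apply_of_ne_of_ne (by omega) (by omega)

theorem cyc_fixGE (d m : ℕ) : FixGE (m + d + 1) (cyc m d) := fun x hx => cyc_gt d m x (by omega)

theorem St.perm_refl (s : St C) : s.perm (Equiv.refl ℕ) = s := by
  ext x
  · induction x using Sym2.ind with
    | _ a b => simp [mem_permE']
  · simp

theorem St.perm_perm (s : St C) (σ τ : Equiv.Perm ℕ) : (s.perm σ).perm τ = s.perm (σ.trans τ) := by
  ext x
  · induction x using Sym2.ind with
    | _ a b => simp [mem_permE']
  · simp

/-- a step is only possible with its recorded colour and parent -/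
theorem step_edge_iff {s : St C} {m : ℕ} (hs : Valid m s.E) {v y : ℕ} {c : C} (hy : y < m) :
    s(y, m) ∈ (s.step m v c).E ↔ y = v := by
  rw [St.step_E, mem_insert]
  constructor
  · rintro (h | h)
    · rw [Sym2.eq_iff] at h; omega
    · exact absurd h (hs.not_mem y)
  · rintro rfl; exact Or.inl rfl

section move

variable [Fintype I] {α : ℝ} {P : Par I} {Z : SimpleGraph I}

open Classical in
/-- restriction of a functional to the states whose label `l` has colour `c` and is adjacent to
`y` -/
noncomputable def atStep (l y : ℕ) (c : Option I) (f : St (Option I) → ℝ) : St (Option I) → ℝ :=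
  fun s => if s.col l = c ∧ s(y, l) ∈ s.E then f s else 0

omit [Fintype I] in
theorem atStep_nonneg {l y : ℕ} {c : Option I} {f : St (Option I) → ℝ} (hf : ∀ s, 0 ≤ f s)
    (s : St (Option I)) : 0 ≤ atStep l y c f s := by
  unfold atStep
  split_ifs
  · exact hf s
  · exact le_rfl

/-- if the label `l` has the wrong colour or the wrong parent then the value vanishes -/
theorem ev_atStep_dead {l y x : ℕ} {c : Option I} {f : St (Option I) → ℝ} (hl : l < x)
    (hy : y < x) (hx : x ≤ P.n) {s : St (Option I)} (hs : Valid x s.E)
    (h : ¬ (s.col l = c ∧ s(y, l) ∈ s.E)) : ev α P Z x (atStep l y c f) s = 0 := by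
  apply itr_dead (fun x s => l < x ∧ y < x ∧ Valid x s.E ∧ ¬ (s.col l = c ∧ s(y, l) ∈ s.E)) P.n
  · rintro x s v c' _ hv ⟨h1, h2, h3, h4⟩ _
    refine ⟨by omega, by omega, h3.step hv, ?_⟩
    rintro ⟨h5, h6⟩
    rw [St.step_col_of_ne _ _ _ _ (by omega)] at h5
    exact h4 ⟨h5, (dec_edge (M := x) h2 h1 x le_rfl s v c' h3 hv).1 h6⟩
  · rintro s ⟨_, _, _, h4⟩
    unfold atStep
    rw [if_neg h4]
  · omega
  · exact ⟨hl, hy, hs, h⟩

/-- colour `i` is used before the label `l`: then `l` cannot get the colour `i` -/
theorem ev_atStep_used {l y x z : ℕ} {i : I} {f : St (Option I) → ℝ} (hz : z < x) (hxl : x ≤ l)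
    (hy : y < x) (hl : l < P.n) {s : St (Option I)} (hs : Valid x s.E) (hzc : s.col z = some i) :
    ev α P Z x (atStep l y (some i) f) s = 0 := by
  apply itr_dead (fun x s => Valid x s.E ∧ y < x ∧ z < x ∧ z < l ∧ s.col z = some i ∧
    (l < x → s.col l ≠ some i)) P.n
  · rintro x s v c' _ hv ⟨h1, h2, h3, h4, h5, h6⟩ hg
    refine ⟨h1.step hv, by omega, by omega, h4, ?_, ?_⟩
    · rw [St.step_col_of_ne _ _ _ _ (by omega)]; exact h5
    · intro hlx
      by_cases hlx' : l = x
      · subst hlx'
        rw [St.step_col_self]
        rintro rfl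
        apply hg
        unfold gP
        rw [if_neg]
        rintro ⟨h7, _⟩
        exact h7 z h3 h5
      · rw [St.step_col_of_ne _ _ _ _ (by omega)]
        exact h6 (by omega)
  · rintro s ⟨_, _, _, _, _, h6⟩
    unfold atStep
    rw [if_neg]
    rintro ⟨h7, _⟩
    exact h6 hl h7
  · omega
  · exact ⟨hs, hy, hz, by omega, hzc, fun h => by omega⟩

open Classical in
/-- **move-earlier lemma** -/
theorem move_earlier (h0 : 0 < α) (h1 : α < 1) (c0 : Option I) {y : ℕ} :
    ∀ (d m : ℕ) (f : St (Option I) → ℝ), (∀ s, 0 ≤ f s) → m + d < P.n → 1 ≤ m → y < m →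
      ∀ s : St (Option I), Valid m s.E → HasHub m s →
      ev α P Z m (atStep (m + d) y c0 f) s ≤
        (((m + d + 1 : ℕ) : ℝ) / ((m + 1 : ℕ) : ℝ)) * ((W α m s.E)⁻¹ *
          (if okStep Z m s y c0 then
            ev α P Z (m + 1) (fun s' => f (s'.perm (cyc m d).symm)) (s.step m y c0) else 0)) := by
  intro d
  induction d with
  | zero =>
    intro m f hf hmn hm1 hy s hs hub
    have hW := hs.W_pos h0 hm1
    rw [add_zero, div_self (by positivity), one_mul]
    rw [← mul_le_mul_iff_right₀ hW, ← mul_assoc, mul_inv_cancel₀ hW.ne', one_mul,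
      ev_rec h0 hm1 (by omega) hs]
    have e1 : ∑ v ∈ range m, ∑ c, (if okStep Z m s v c then
        ev α P Z (m + 1) (atStep m y c0 f) (s.step m v c) else 0) =
        (if okStep Z m s y c0 then ev α P Z (m + 1) (atStep m y c0 f) (s.step m y c0) else 0) := by
      rw [sum_eq_single_of_mem y (mem_range.2 hy), sum_eq_single_of_mem c0 (mem_univ _)]
      · intro c _ hc
        split_ifs
        · apply ev_atStep_dead (by omega) (by omega) (by omega) (hs.step hy)
          rintro ⟨h2, _⟩
          rw [St.step_col_self] at h2
          exact hc h2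
        · rfl
      · intro v hv hvy
        have hv' := mem_range.1 hv
        apply sum_eq_zero; intro c _
        split_ifs
        · apply ev_atStep_dead (by omega) (by omega) (by omega) (hs.step hv')
          rintro ⟨_, h3⟩
          rw [step_edge_iff hs hy] at h3
          exact hvy h3.symm
        · rfl
    rw [e1]
    split_ifs
    · have : (fun s' : St (Option I) => f (s'.perm (cyc m 0).symm)) = f := by
        funext s'
        rw [cyc_zero, Equiv.refl_symm, St.perm_refl]
      rw [this]
      apply ev_mono
      intro s'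
      unfold atStep
      split_ifs
      · exact le_rfl
      · exact hf s'
    · exact le_rfl
  | succ d ih =>
    intro m f hf hmn hm1 hy s hs hub
    have hW := hs.W_pos h0 hm1
    set G : St (Option I) → ℝ := fun s' => f (s'.perm (cyc m (d + 1)).symm) with hG
    have hG0 : ∀ s, 0 ≤ G s := fun s => hf _
    set K1 : ℝ := ((m + (d + 1) + 1 : ℕ) : ℝ) / ((m + 1 + 1 : ℕ) : ℝ) with hK1
    have hK10 : 0 ≤ K1 := by positivity
    -- the right-hand side
    set s1 := s.step m y c0 with hs1
    have hs1v : Valid (m + 1) s1.E := hs.step hy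
    have hW1 : 0 < W α (m + 1) s1.E := hs1v.W_pos h0 (by omega)
    have hW1le : W α (m + 1) s1.E ≤ W α m s.E + 2 := by
      have := hs.W_step_le h0 h1 hy
      have h2 : (2:ℝ) ^ α ≤ 2 := by
        calc (2:ℝ) ^ α ≤ (2:ℝ) ^ (1:ℝ) := Real.rpow_le_rpow_of_exponent_le (by norm_num) h1.le
          _ = 2 := by norm_num
      calc _ ≤ _ := this
        _ ≤ _ := by linarith
    rw [← mul_le_mul_iff_right₀ hW, ev_rec h0 hm1 (by omega) hs]
    -- bound of each term
    have hterm : ∀ v ∈ range m, ∀ c : Option I,
        (if okStep Z m s v c then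
          ev α P Z (m + 1) (atStep (m + (d + 1)) y c0 f) (s.step m v c) else 0) ≤
        K1 * (W α m s.E + 1)⁻¹ * (if okStep Z m s y c0 then
          (if okStep Z (m + 1) s1 v c then
            ev α P Z (m + 2) G (s1.step (m + 1) v c) else 0) else 0) := by
      intro v hv c
      have hv' := mem_range.1 hv
      have hrhs : 0 ≤ K1 * (W α m s.E + 1)⁻¹ * (if okStep Z m s y c0 then
          (if okStep Z (m + 1) s1 v c then
            ev α P Z (m + 2) G (s1.step (m + 1) v c) else 0) else 0) := by
        apply mul_nonneg (mul_nonneg hK10 (by positivity))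
        split_ifs
        · exact ev_nonneg hG0 _ _
        · exact le_rfl
        · exact le_rfl
      by_cases hok : okStep Z m s v c
      · rw [if_pos hok]
        have IH := ih (m + 1) f hf (by omega) (by omega) (by omega) (s.step m v c) (hs.step hv')
          (hub.step v c)
        rw [show m + 1 + d = m + (d + 1) by omega] at IH
        by_cases hok2 : okStep Z (m + 1) (s.step m v c) y c0
        · rw [if_pos hok2] at IH
          -- the allowed step at `s`
          have hok3 : okStep Z m s y c0 := by
            cases c0 with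
            | none => trivial
            | some i =>
              refine ⟨?_, ?_⟩
              · intro x hx
                have := hok2.1 x (by omega)
                rwa [St.step_col_of_ne _ _ _ _ (by omega)] at this
              · right
                rcases hok2.2 with h3 | ⟨i', h3, h4⟩
                · obtain ⟨z, hz, hzc⟩ := hub
                  have := h3 z (by omega)
                  rw [St.step_col_of_ne _ _ _ _ (by omega)] at this
                  exact absurd this hzc
                · rw [St.step_col_of_ne _ _ _ _ (by omega)] at h3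
                  exact ⟨i', h3, h4⟩
          have hok4 : okStep Z (m + 1) s1 v c := by
            cases c with
            | none => trivial
            | some i =>
              refine ⟨?_, ?_⟩
              · intro x hx
                by_cases hxm : x = m
                · subst hxm
                  rw [hs1, St.step_col_self]
                  rintro rfl
                  -- colour `i` used twice
                  exact hok2.1 x (by omega) (by rw [St.step_col_self])
                · rw [hs1, St.step_col_of_ne _ _ _ _ hxm]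
                  exact hok.1 x (by omega)
              · right
                rcases hok.2 with h3 | ⟨i', h3, h4⟩
                · obtain ⟨z, hz, hzc⟩ := hub
                  exact absurd (h3 z hz) hzc
                · refine ⟨i', ?_, h4⟩
                  rw [hs1, St.step_col_of_ne _ _ _ _ (by omega)]
                  exact h3
          rw [if_pos hok3, if_pos hok4]
          have hWs : W α m s.E + 1 ≤ W α (m + 1) (s.step m v c).E := hs.W_step_ge h0 hv'
          -- swap
          have hsw : ev α P Z (m + 1 + 1) (fun s' => f (s'.perm (cyc (m + 1) d).symm))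
              ((s.step m v c).step (m + 1) y c0) = ev α P Z (m + 2) G (s1.step (m + 1) v c) := by
            rw [hs1, ← St.step_step_swap hs.lt hv' hy c c0]
            symm
            apply ev_perm2 (fixGE_swap m)
            intro s'
            simp only [hG]
            rw [St.perm_perm, cyc_succ]
            congr 2
            ext x
            simp
          rw [hsw] at IH
          refine IH.trans ?_
          rw [mul_assoc]
          apply mul_le_mul_of_nonneg_left _ hK10
          apply mul_le_mul_of_nonneg_right _ (ev_nonneg hG0 _ _)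
          exact inv_anti₀ (by positivity) hWs
        · rw [if_neg hok2, mul_zero, mul_zero] at IH
          exact IH.trans hrhs
      · rw [if_neg hok]; exact hrhs
    have h2 : ∑ v ∈ range m, ∑ c, (if okStep Z m s v c then
        ev α P Z (m + 1) (atStep (m + (d + 1)) y c0 f) (s.step m v c) else 0) ≤
        K1 * (W α m s.E + 1)⁻¹ * (if okStep Z m s y c0 then
          ∑ v ∈ range (m + 1), ∑ c, (if okStep Z (m + 1) s1 v c then
            ev α P Z (m + 2) G (s1.step (m + 1) v c) else 0) else 0) := by
      refine (sum_le_sum fun v hv => sum_le_sum fun c _ => hterm v hv c).trans ?_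
      simp_rw [← mul_sum]
      apply mul_le_mul_of_nonneg_left _ (mul_nonneg hK10 (by positivity))
      split_ifs
      · rw [sum_range_succ]
        have : 0 ≤ ∑ c, (if okStep Z (m + 1) s1 m c then
            ev α P Z (m + 2) G (s1.step (m + 1) m c) else 0) := by
          apply sum_nonneg; intro c _
          split_ifs
          · exact ev_nonneg hG0 _ _
          · exact le_rfl
        linarith
      · simp
    refine h2.trans ?_
    have hrec := ev_rec (P := P) (Z := Z) (f := G) h0 (show 1 ≤ m + 1 by omega)
      (show m + 1 < P.n by omega) hs1v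
    rw [← hrec]
    by_cases hok : okStep Z m s y c0
    · rw [if_pos hok, if_pos hok]
      have hev : 0 ≤ ev α P Z (m + 1) G s1 := ev_nonneg hG0 _ _
      -- numeric
      have hWm : (m : ℝ) ≤ W α m s.E := hs.le_W h0
      have hratio : W α (m + 1) s1.E / (W α m s.E + 1) ≤ ((m + 2 : ℕ) : ℝ) / ((m + 1 : ℕ) : ℝ) := by
        rw [div_le_div_iff₀ (by positivity) (by positivity)]
        push_cast
        nlinarith
      calc K1 * (W α m s.E + 1)⁻¹ * (W α (m + 1) s1.E * ev α P Z (m + 1) G s1)
          = K1 * (W α (m + 1) s1.E / (W α m s.E + 1)) * ev α P Z (m + 1) G s1 := by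
            rw [div_eq_mul_inv]; ring
        _ ≤ K1 * (((m + 2 : ℕ) : ℝ) / ((m + 1 : ℕ) : ℝ)) * ev α P Z (m + 1) G s1 := by
            apply mul_le_mul_of_nonneg_right _ hev
            exact mul_le_mul_of_nonneg_left hratio hK10
        _ = W α m s.E * ((((m + (d + 1) + 1 : ℕ) : ℝ) / ((m + 1 : ℕ) : ℝ)) *
              ((W α m s.E)⁻¹ * ev α P Z (m + 1) G s1)) := by
            rw [hK1]
            push_cast
            field_simp
            ring
    · rw [if_neg hok, if_neg hok]
      simp

/-- move-earlier for restricted values -/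
theorem move_RvA (h0 : 0 < α) (h1 : α < 1) (hP : P.n1 ≤ P.n) {m l y : ℕ} {c0 : Option I}
    (hml : m ≤ l) (hl : l < P.n1) (hm1 : 1 ≤ m) (hy : y < m) {s : St (Option I)}
    (hs : Valid m s.E) (hub : HasHub m s) (A : St (Option I) → Prop) :
    RvA α P Z m (fun s' => A s' ∧ s'.col l = c0 ∧ s(y, l) ∈ s'.E) s ≤
      (l + 1 : ℕ) * RvA α P Z (m + 1) (fun s' => A (s'.perm (cyc m (l - m)).symm))
        (s.step m y c0) := by
  classical
  have key := move_earlier (P := P) (Z := Z) h0 h1 c0 (l - m) m (thA α P Z A) (thA_nonneg A)
    (by omega) hm1 hy s hs hub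
  have e : m + (l - m) = l := by omega
  rw [e] at key
  have e1 : ev α P Z m (atStep l y c0 (thA α P Z A)) s =
      RvA α P Z m (fun s' => A s' ∧ s'.col l = c0 ∧ s(y, l) ∈ s'.E) s := by
    rw [RvA_def]
    congr 1
    funext s'
    unfold atStep thA
    by_cases hA : A s' <;> by_cases hB : s'.col l = c0 ∧ s(y, l) ∈ s'.E <;> simp [hA, hB]
  have hfix : FixGE P.n1 (cyc m (l - m)).symm :=
    ((cyc_fixGE (l - m) m).mono (by omega)).symm
  have e2 : ev α P Z (m + 1) (fun s' => thA α P Z A (s'.perm (cyc m (l - m)).symm))
      (s.step m y c0) = RvA α P Z (m + 1) (fun s' => A (s'.perm (cyc m (l - m)).symm))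
        (s.step m y c0) := by
    rw [RvA_def]
    congr 1
    funext s'
    unfold thA
    rw [Theta_TInv hP Z _ hfix]
  rw [e1, e2] at key
  refine key.trans ?_
  have hR : 0 ≤ RvA α P Z (m + 1) (fun s' => A (s'.perm (cyc m (l - m)).symm)) (s.step m y c0) :=
    RvA_nonneg _ _ _
  have hW : 1 ≤ W α m s.E := by
    have := hs.le_W h0
    have h2 : (1:ℝ) ≤ m := by exact_mod_cast hm1
    linarith
  have h3 : (W α m s.E)⁻¹ * (if okStep Z m s y c0 then
      RvA α P Z (m + 1) (fun s' => A (s'.perm (cyc m (l - m)).symm)) (s.step m y c0) else 0) ≤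
      RvA α P Z (m + 1) (fun s' => A (s'.perm (cyc m (l - m)).symm)) (s.step m y c0) := by
    split_ifs
    · calc _ ≤ 1 * RvA α P Z (m + 1) (fun s' => A (s'.perm (cyc m (l - m)).symm))
            (s.step m y c0) := mul_le_mul_of_nonneg_right (inv_le_one_of_one_le₀ hW) hR
        _ = _ := one_mul _
    · rw [mul_zero]; exact hR
  have h4 : 0 ≤ (W α m s.E)⁻¹ * (if okStep Z m s y c0 then
      RvA α P Z (m + 1) (fun s' => A (s'.perm (cyc m (l - m)).symm)) (s.step m y c0) else 0) := by
    apply mul_nonneg (inv_nonneg.2 (by linarith))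
    split_ifs
    · exact hR
    · exact le_rfl
  calc _ ≤ ((l + 1 : ℕ) : ℝ) * ((W α m s.E)⁻¹ * (if okStep Z m s y c0 then
      RvA α P Z (m + 1) (fun s' => A (s'.perm (cyc m (l - m)).symm)) (s.step m y c0) else 0)) := by
        apply mul_le_mul_of_nonneg_right _ h4
        apply div_le_self (by positivity)
        push_cast
        have : (0:ℝ) ≤ m := by positivity
        linarith
    _ ≤ _ := mul_le_mul_of_nonneg_left h3 (by positivity)

end move

end SeedPA
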