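import Pool.Agent.SeedPA.Early
import Pool.Agent.SeedPA.Exch2
import Pool.Agent.SeedPA.Move

/-!
# The comparison lemma J (general form)
-/

open Finset

namespace SeedPA

variable {I : Type*} [Fintype I] {α : ℝ} {P : Par I} {Z : SimpleGraph I}

omit [Fintype I] in
/-- clean, early components big and nothing attached to `y`: the event of X2 -/
theorem evX2_of {m M y : ℕ} {sI s : St (Option I)} (hMn : M ≤ P.n)
    (hi : Hist m sI P.n s) (hc : Clean M s) (he : EB P m M s)
    (hn : ∀ x, m ≤ x → x < M → s.col x = none → s(y, x) ∉ s.E) : EvX2 P m M y s := by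
  intro x hx1 hx2 hxc
  obtain ⟨a, ha, hae⟩ := hi.ex x hx1 (by omega)
  have hac : s.col a ≠ none := by
    rcases hc.2 a (by omega) x hx2 hae with h | h
    · exact h
    · exact absurd hxc h
  exact ⟨hn x hx1 hx2 hxc, ⟨a, by omega, hac, hae⟩, he x hx1 hx2 ⟨by omega, hxc, a, by omega, hac, hae⟩⟩

/-- **J**, new leaf at a present hub -/
theorem J_leaf_gen (h0 : 0 < α) (h1 : α < 1) (hn01 : P.n0 ≤ P.n1) (hn1 : P.n1 ≤ P.n)
    (hβ : 1 ≤ P.β0) {m M y : ℕ} (hm : 1 ≤ m) (hmM : m ≤ M) (hM : M < P.n0) (hy : y < m)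
    {s : St (Option I)} (hs : Valid m s.E) (hc : Clean m s)
    {ρ0 ρ1 x : ℝ} (hρ1' : ρ0 ≤ 1) (hρ0 : P.β0 / xi ((2:ℝ)^α) P.n0 M ≤ ρ0)
    (hρ1 : P.β1 / xi ((2:ℝ)^α) P.n1 M * (Fintype.card I * P.D1 : ℕ) ≤ ρ1)
    (hx : RvA α P Z m (EvX2 P m M y) s ≤ x * Rv α P Z m s)
    (hsum : M * ρ0 + M * ρ1 + x ≤ 1 / 2) :
    Rv α P Z m s ≤ 2 * (M:ℝ)^2 * Rv α P Z (m + 1) (s.step m y none) +
      2 * RvA α P Z m (fun s' => ¬ good0 P s') s := by
  classical
  have hR := Rv_nonneg (α := α) (P := P) (Z := Z) m s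
  set R1 := Rv α P Z (m + 1) (s.step m y none) with hR1
  have hR1n : 0 ≤ R1 := Rv_nonneg _ _
  set N : St (Option I) → Prop := fun s' => ∀ x, m ≤ x → x < M → s'.col x = none → s(y, x) ∉ s'.E
    with hN
  -- some leaf at `y`
  have e1 : RvA α P Z m (fun s' => ¬ N s') s ≤ (M:ℝ)^2 * R1 := by
    have h2 : RvA α P Z m (fun s' => ¬ N s') s ≤ ∑ l ∈ Ico m M,
        RvA α P Z m (fun s' => True ∧ s'.col l = none ∧ s(y, l) ∈ s'.E) s := by
      apply RvA_union
      intro s' _ hA
      simp only [hN] at hA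
      push Not at hA
      obtain ⟨l, hl1, hl2, hl3, hl4⟩ := hA
      exact ⟨l, mem_Ico.2 ⟨hl1, hl2⟩, trivial, hl3, hl4⟩
    refine h2.trans ?_
    have h3 : ∀ l ∈ Ico m M, RvA α P Z m (fun s' => True ∧ s'.col l = none ∧ s(y, l) ∈ s'.E) s ≤
        M * R1 := by
      intro l hl
      rw [mem_Ico] at hl
      refine (move_RvA h0 h1 hn1 hl.1 (by omega) hm hy hs hc.1 (fun _ => True)).trans ?_
      have h4 : RvA α P Z (m + 1) (fun _ => True) (s.step m y none) ≤ R1 := RvA_le_Rv _ _ _
      apply mul_le_mul _ h4 (RvA_nonneg _ _ _) (by positivity)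
      exact_mod_cast (by omega : l + 1 ≤ M)
    refine (sum_le_sum h3).trans ?_
    rw [sum_const, Nat.card_Ico, nsmul_eq_mul]
    have h5 : ((M - m : ℕ) : ℝ) ≤ M := by exact_mod_cast Nat.sub_le M m
    calc ((M - m : ℕ) : ℝ) * (M * R1) ≤ M * (M * R1) :=
          mul_le_mul_of_nonneg_right h5 (by positivity)
      _ = _ := by ring
  have e2 : RvA α P Z m N s ≤ RvA α P Z m (fun s' => ¬ Clean M s') s +
      (RvA α P Z m (fun s' => ¬ EB P m M s') s + RvA α P Z m (EvX2 P m M y) s) := by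
    have h2 : RvA α P Z m N s ≤ ∑ j ∈ (univ : Finset (Fin 3)),
        RvA α P Z m (![fun s' => ¬ Clean M s', fun s' => ¬ EB P m M s', EvX2 P m M y] j) s := by
      have h3 := RvA_mono_hist (α := α) (Z := Z) (by omega : m ≤ P.n) hs hc.1 (A := N)
        (B := fun s' => ∃ j ∈ (univ : Finset (Fin 3)),
          (![fun s' => ¬ Clean M s', fun s' => ¬ EB P m M s', EvX2 P m M y] j) s') (by
        intro s' hi _ hA
        by_cases hc' : Clean M s'
        · by_cases he' : EB P m M s'
          · exact ⟨2, mem_univ _, evX2_of (by omega) hi hc' he' hA⟩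
          · exact ⟨1, mem_univ _, he'⟩
        · exact ⟨0, mem_univ _, hc'⟩)
      refine h3.trans ?_
      apply RvA_union
      intro s' _ h
      exact h
    refine h2.trans (le_of_eq ?_)
    rw [Fin.sum_univ_three]
    simp only [Matrix.cons_val_zero, Matrix.cons_val_one, Matrix.cons_val]
    ring
  have e3 := clean_bound (Z := Z) h0 h1 hn01 hn1 hβ hM hρ1' hρ0 hm hmM hs hc
  have e4 := EB_bound (Z := Z) h0 h1 hn1 hm (by omega : M < P.n1) hρ1 hs hc.1
  have e5 := RvA_split (α := α) (P := P) (Z := Z) N m s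
  have e6 : (M * ρ0 + M * ρ1 + x) * Rv α P Z m s ≤ 1 / 2 * Rv α P Z m s :=
    mul_le_mul_of_nonneg_right hsum hR
  nlinarith

/-- **J**, missing hub adjacent to a present hub -/
theorem J_hub_gen (h0 : 0 < α) (h1 : α < 1) (hn01 : P.n0 ≤ P.n1) (hn1 : P.n1 ≤ P.n)
    (hβ : 1 ≤ P.β0) {m M y : ℕ} {i i' : I} (hm : 1 ≤ m) (hmM : m ≤ M) (hM : M < P.n0) (hy : y < m)
    {s : St (Option I)} (hs : Valid m s.E) (hc : Clean m s) (hyc : s.col y = some i')
    (hadj : Z.Adj i' i) (hmiss : ∀ x < m, s.col x ≠ some i)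
    {ρ0 ρ1 x : ℝ} (hρ1' : ρ0 ≤ 1) (hρ0 : P.β0 / xi ((2:ℝ)^α) P.n0 M ≤ ρ0)
    (hρ1 : P.β1 / xi ((2:ℝ)^α) P.n1 M * (Fintype.card I * P.D1 : ℕ) ≤ ρ1)
    (hx : RvA α P Z (m + 1) (EvX2 P (m + 1) (M + 1) m) (s.step m y (some i)) ≤
      x * Rv α P Z (m + 1) (s.step m y (some i)))
    (hx1 : (P.n1:ℝ)^2 * x ≤ 1) (hsum : M * ρ0 + M * ρ1 ≤ 1 / 2) :
    Rv α P Z m s ≤ 2 * ((M:ℝ)^2 + 1) * Rv α P Z (m + 1) (s.step m y (some i)) +
      2 * RvA α P Z m (fun s' => ¬ good0 P s') s := by
  classical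
  have hR := Rv_nonneg (α := α) (P := P) (Z := Z) m s
  set s1 := s.step m y (some i) with hs1
  set R1 := Rv α P Z (m + 1) s1 with hR1
  have hR1n : 0 ≤ R1 := Rv_nonneg _ _
  have hs1v : Valid (m + 1) s1.E := hs.step hy
  have hs1h : HasHub (m + 1) s1 := hc.1.step y (some i)
  -- early and late births
  set E1 : ℕ → St (Option I) → Prop := fun l s' => True ∧ s'.col l = some i ∧ s(y, l) ∈ s'.E
    with hE1
  set A : ℕ → St (Option I) → Prop := fun l s' => Clean M s' ∧ EB P m M s' ∧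
    ∀ x, m ≤ x → x < M → s(x, l) ∉ s'.E with hA
  set L1 : ℕ → St (Option I) → Prop := fun l s' => A l s' ∧ s'.col l = some i ∧ s(y, l) ∈ s'.E
    with hL1
  have key : Rv α P Z m s ≤ ∑ l ∈ Ico m M, RvA α P Z m (E1 l) s +
      (∑ l ∈ Ico M P.n1, RvA α P Z m (L1 l) s +
      (RvA α P Z m (fun s' => ¬ Clean M s') s + RvA α P Z m (fun s' => ¬ EB P m M s') s)) := by
    set Bs : (ℕ ⊕ ℕ) ⊕ Fin 2 → St (Option I) → Prop := fun t => match t with
      | .inl (.inl l) => E1 l
      | .inl (.inr l) => L1 l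
      | .inr j => ![fun s' => ¬ Clean M s', fun s' => ¬ EB P m M s'] j with hBs
    set T : Finset ((ℕ ⊕ ℕ) ⊕ Fin 2) := ((Ico m M).disjSum (Ico M P.n1)).disjSum univ with hT
    have h2 : Rv α P Z m s ≤ RvA α P Z m (fun s' => ∃ t ∈ T, Bs t s') s := by
      have h3 : Rv α P Z m s = RvA α P Z m (fun _ => True) s := by
        rw [RvA_def]
        unfold Rv thA
        simp
      rw [h3]
      apply RvA_mono_hist (by omega) hs hc.1
      intro s' hi hG _
      by_cases hc' : Clean M s'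
      · by_cases he' : EB P m M s'
        · obtain ⟨l, hl, hlc⟩ := hG.ex i
          have hlm : m ≤ l := by
            by_contra hcon
            have := hi.old l (by omega)
            rw [hlc] at this
            exact hmiss l (by omega) this.symm
          have hyl : s(y, l) ∈ s'.E := by
            apply hG.adj i' i y l (by omega) (by omega) _ hlc hadj
            rw [hi.old y hy]; exact hyc
          by_cases hlM : l < M
          · exact ⟨.inl (.inl l), by simp [hT, hlm, hlM], trivial, hlc, hyl⟩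
          · refine ⟨.inl (.inr l), by simp [hT]; omega, ⟨hc', he', ?_⟩, hlc, hyl⟩
            intro x hx1 hx2 hxe
            have := hi.up l (by omega) (by omega) x (by omega) y (by omega) hxe hyl
            omega
        · exact ⟨.inr 1, by simp [hT], he'⟩
      · exact ⟨.inr 0, by simp [hT], hc'⟩
    refine h2.trans ((RvA_union T (fun s' _ h => h) m s).trans (le_of_eq ?_))
    rw [hT, sum_disjSum, sum_disjSum, Fin.sum_univ_two, add_assoc]
    rfl
  have e1 : ∑ l ∈ Ico m M, RvA α P Z m (E1 l) s ≤ (M:ℝ)^2 * R1 := by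
    have h3 : ∀ l ∈ Ico m M, RvA α P Z m (E1 l) s ≤ M * R1 := by
      intro l hl
      rw [mem_Ico] at hl
      refine (move_RvA h0 h1 hn1 hl.1 (by omega) hm hy hs hc.1 (fun _ => True)).trans ?_
      have h4 : RvA α P Z (m + 1) (fun _ => True) s1 ≤ R1 := RvA_le_Rv _ _ _
      apply mul_le_mul _ h4 (RvA_nonneg _ _ _) (by positivity)
      exact_mod_cast (by omega : l + 1 ≤ M)
    refine (sum_le_sum h3).trans ?_
    rw [sum_const, Nat.card_Ico, nsmul_eq_mul]
    have h5 : ((M - m : ℕ) : ℝ) ≤ M := by exact_mod_cast Nat.sub_le M m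
    calc ((M - m : ℕ) : ℝ) * (M * R1) ≤ M * (M * R1) :=
          mul_le_mul_of_nonneg_right h5 (by positivity)
      _ = _ := by ring
  have hxR : 0 ≤ x * R1 := le_trans (RvA_nonneg _ _ _) hx
  have e2 : ∑ l ∈ Ico M P.n1, RvA α P Z m (L1 l) s ≤ R1 := by
    have h3 : ∀ l ∈ Ico M P.n1, RvA α P Z m (L1 l) s ≤ P.n1 * (x * R1) := by
      intro l hl
      rw [mem_Ico] at hl
      refine (move_RvA h0 h1 hn1 (by omega : m ≤ l) hl.2 hm hy hs hc.1 (A l)).trans ?_
      have h4 : RvA α P Z (m + 1) (fun s' => A l (s'.perm (cyc m (l - m)).symm)) s1 ≤ x * R1 := by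
        refine le_trans ?_ hx
        apply RvA_mono_hist (by omega) hs1v hs1h
        intro s' hi hG hAl
        obtain ⟨hcl, hEB, hno⟩ := hAl
        set σ := cyc m (l - m) with hσ
        have hσfix : FixGE (l + 1) σ := by
          have := cyc_fixGE (l - m) m
          rwa [show m + (l - m) = l by omega] at this
        have hσn : FixGE P.n σ.symm := (hσfix.mono (by omega)).symm
        have hσl : σ l = m := by
          have := cyc_last (l - m) m
          rwa [show m + (l - m) = l by omega] at this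
        -- relabelled labels
        have hlab : ∀ x', m + 1 ≤ x' → x' < M + 1 → σ (x' - 1) = x' := by
          intro x' h1' h2'
          rw [hσ, cyc_mid (l - m) m (x' - 1) (by omega) (by omega)]
          omega
        have hperm : ∀ a b, s(a, b) ∈ (s'.perm σ.symm).E ↔ s(σ a, σ b) ∈ s'.E := by
          intro a b
          rw [St.perm_E, mem_permE']
          simp
        have hcolp : ∀ a, (s'.perm σ.symm).col a = s'.col (σ a) := by
          intro a; simp
        -- nobody in the range is attached to `m`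
        have hnom : ∀ x', m + 1 ≤ x' → x' < M + 1 → s(m, x') ∉ s'.E := by
          intro x' h1' h2' hcon
          apply hno (x' - 1) (by omega) (by omega)
          rw [hperm, hlab x' h1' h2', hσl, Sym2.eq_swap]
          exact hcon
        intro x' hx1' hx2' hxc'
        obtain ⟨a', ha', hae'⟩ := hi.ex x' (by omega) (by omega)
        have ham : a' ≠ m := by
          rintro rfl
          exact hnom x' hx1' hx2' hae'
        -- the preimage of `a'`
        obtain ⟨a, haM, haσ⟩ : ∃ a < M, σ a = a' := by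
          by_cases h3 : a' < m
          · exact ⟨a', by omega, by rw [hσ, cyc_lt _ _ _ h3]⟩
          · exact ⟨a' - 1, by omega, hlab a' (by omega) (by omega)⟩
        have hedge : s(a, x' - 1) ∈ (s'.perm σ.symm).E := by
          rw [hperm, haσ, hlab x' hx1' hx2']; exact hae'
        have hxc : (s'.perm σ.symm).col (x' - 1) = none := by
          rw [hcolp, hlab x' hx1' hx2']; exact hxc'
        have hac : (s'.perm σ.symm).col a ≠ none := by
          rcases hcl.2 a haM (x' - 1) (by omega) hedge with h | h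
          · exact h
          · exact absurd hxc h
        have hac' : s'.col a' ≠ none := by rwa [hcolp, haσ] at hac
        refine ⟨hnom x' hx1' hx2', ⟨a', by omega, hac', hae'⟩, ?_⟩
        have h5 := hEB (x' - 1) (by omega) (by omega) ⟨by omega, hxc, a, by omega, hac, hedge⟩
        rw [cs_perm' hσn, Equiv.symm_symm, hlab x' hx1' hx2'] at h5
        exact h5
      apply mul_le_mul _ h4 (RvA_nonneg _ _ _) (by positivity)
      exact_mod_cast (by omega : l + 1 ≤ P.n1)
    refine (sum_le_sum h3).trans ?_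
    rw [sum_const, Nat.card_Ico, nsmul_eq_mul]
    have h5 : ((P.n1 - M : ℕ) : ℝ) ≤ P.n1 := by exact_mod_cast Nat.sub_le P.n1 M
    calc ((P.n1 - M : ℕ) : ℝ) * (P.n1 * (x * R1)) ≤ P.n1 * (P.n1 * (x * R1)) :=
          mul_le_mul_of_nonneg_right h5 (by positivity)
      _ = ((P.n1:ℝ)^2 * x) * R1 := by ring
      _ ≤ 1 * R1 := mul_le_mul_of_nonneg_right hx1 hR1n
      _ = R1 := one_mul _
  have e3 := clean_bound (Z := Z) h0 h1 hn01 hn1 hβ hM hρ1' hρ0 hm hmM hs hc
  have e4 := EB_bound (Z := Z) h0 h1 hn1 hm (by omega : M < P.n1) hρ1 hs hc.1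
  have e6 : (M * ρ0 + M * ρ1) * Rv α P Z m s ≤ 1 / 2 * Rv α P Z m s :=
    mul_le_mul_of_nonneg_right hsum hR
  nlinarith

end SeedPA
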