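import Pool.Agent.SeedPA.Delay

/-!
# Numerical estimates (module NUM)
-/

open Finset

namespace SeedPA

/-- telescoping product -/
theorem prod_tele (p : ℝ) {m h : ℕ} (hm : 1 ≤ m) (hmh : m ≤ h) :
    ∏ l ∈ Ico m h, (1 + 1 / (l:ℝ)) ^ p = ((h:ℝ) / m) ^ p := by
  induction h, hmh using Nat.le_induction with
  | base =>
    have : (m:ℝ) ≠ 0 := by positivity
    simp [this]
  | succ n hn ih =>
    rw [prod_Ico_succ_top hn, ih, ← Real.mul_rpow (by positivity) (by positivity)]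
    congr 1
    have h1 : (m:ℝ) ≠ 0 := by positivity
    have h2 : (n:ℝ) ≠ 0 := by
      have : 1 ≤ n := by omega
      positivity
    field_simp
    push_cast
    ring

/-- **NUM1** -/
theorem xi_lower {κ : ℝ} (h1 : 1 ≤ κ) (h2 : κ ≤ 2) {m h : ℕ} (hm : 1 ≤ m) (hmh : 4 * m ≤ h) :
    (1 / 2 : ℝ) * ((h:ℝ) / m) ^ (1 / κ) ≤ xi κ h m := by
  have hκ : 0 < κ := by linarith
  have hp0 : 0 ≤ 1 / κ := by positivity
  have hp1 : 1 / κ ≤ 1 := by rw [div_le_one hκ]; exact h1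
  have hp2 : 1 / 2 ≤ 1 / κ := one_div_le_one_div_of_le hκ h2
  have hmR : (0:ℝ) < m := by exact_mod_cast hm
  have e1 : ((h:ℝ) / m) ^ (1 / κ) ≤ ∏ l ∈ Ico m h, (1 + 1 / (κ * (l:ℝ))) := by
    rw [← prod_tele _ hm (by omega : m ≤ h)]
    apply prod_le_prod
    · intro l _
      positivity
    · intro l hl
      have hl1 : 1 ≤ l := by have := mem_Ico.1 hl; omega
      have h3 := rpow_one_add_le_one_add_mul_self (s := 1 / (l:ℝ)) (p := 1 / κ)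
        (by have : (0:ℝ) ≤ 1 / l := by positivity
            linarith) hp0 hp1
      refine h3.trans (le_of_eq ?_)
      rw [one_div_mul_one_div]
  have e2 : (2:ℝ) ≤ ((h:ℝ) / m) ^ (1 / κ) := by
    have h4 : (4:ℝ) ≤ (h:ℝ) / m := by
      rw [le_div_iff₀ hmR]
      exact_mod_cast hmh
    calc (2:ℝ) = (4:ℝ) ^ ((1:ℝ) / 2) := by
          rw [← Real.sqrt_eq_rpow, show (4:ℝ) = 2 ^ 2 by norm_num, Real.sqrt_sq (by norm_num)]
      _ ≤ (4:ℝ) ^ (1 / κ) := Real.rpow_le_rpow_of_exponent_le (by norm_num) hp2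
      _ ≤ _ := Real.rpow_le_rpow (by norm_num) h4 hp0
  unfold xi
  linarith

/-- the reciprocal form -/
theorem inv_xi_le {κ : ℝ} (h1 : 1 ≤ κ) (h2 : κ ≤ 2) {m h : ℕ} (hm : 1 ≤ m) (hmh : 4 * m ≤ h) :
    1 / xi κ h m ≤ 2 * m * (h:ℝ) ^ (-(1 / κ)) := by
  have hκ : 0 < κ := by linarith
  have hp0 : 0 ≤ 1 / κ := by positivity
  have hp1 : 1 / κ ≤ 1 := by rw [div_le_one hκ]; exact h1
  have hmR : (1:ℝ) ≤ m := by exact_mod_cast hm
  have hhR : (0:ℝ) < h := by exact_mod_cast (by omega : 0 < h)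
  have e1 := xi_lower h1 h2 hm hmh
  have e2 : 0 < (1 / 2 : ℝ) * ((h:ℝ) / m) ^ (1 / κ) := by positivity
  have e3 := one_div_le_one_div_of_le e2 e1
  refine e3.trans ?_
  rw [Real.div_rpow hhR.le (by linarith), Real.rpow_neg hhR.le]
  have e4 : (m:ℝ) ^ (1 / κ) ≤ m := by
    calc (m:ℝ) ^ (1 / κ) ≤ (m:ℝ) ^ (1:ℝ) := Real.rpow_le_rpow_of_exponent_le hmR hp1
      _ = m := Real.rpow_one _
  have e5 : 0 < (h:ℝ) ^ (1 / κ) := by positivity
  have e6 : 0 < (m:ℝ) ^ (1 / κ) := by positivity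
  calc 1 / (1 / 2 * ((h:ℝ) ^ (1 / κ) / (m:ℝ) ^ (1 / κ)))
      = 2 * (m:ℝ) ^ (1 / κ) * ((h:ℝ) ^ (1 / κ))⁻¹ := by field_simp
    _ ≤ 2 * m * ((h:ℝ) ^ (1 / κ))⁻¹ := by
        apply mul_le_mul_of_nonneg_right _ (by positivity)
        linarith

/-- **NUM2** -/
theorem num_two {α : ℝ} (h0 : 0 < α) (h1 : α < 1) (A B : ℕ) :
    ∃ s0 c : ℕ, 1 ≤ s0 ∧ 2 * (2 * (s0:ℝ)) ^ α ≤ c ∧ A * c + B ≤ s0 := by
  have t1 : Filter.Tendsto (fun n : ℕ => (n:ℝ) ^ (1 - α)) Filter.atTop Filter.atTop :=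
    (tendsto_rpow_atTop (by linarith)).comp tendsto_natCast_atTop_atTop
  obtain ⟨s0, hs1, hs2⟩ := ((t1.eventually_ge_atTop ((5 * A + B : ℕ) : ℝ)).and
    (Filter.eventually_ge_atTop 1)).exists
  refine ⟨s0, ⌈2 * (2 * (s0:ℝ)) ^ α⌉₊, hs2, Nat.le_ceil _, ?_⟩
  have hs : (1:ℝ) ≤ s0 := by exact_mod_cast hs2
  have hsa : (1:ℝ) ≤ (s0:ℝ) ^ α := Real.one_le_rpow hs h0.le
  have h2a : (2:ℝ) ^ α ≤ 2 := by
    calc (2:ℝ) ^ α ≤ 2 ^ (1:ℝ) := Real.rpow_le_rpow_of_exponent_le (by norm_num) h1.le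
      _ = 2 := by norm_num
  have e1 : 2 * (2 * (s0:ℝ)) ^ α ≤ 4 * (s0:ℝ) ^ α := by
    rw [Real.mul_rpow (by norm_num) (by linarith)]
    nlinarith
  have e2 : ((⌈2 * (2 * (s0:ℝ)) ^ α⌉₊ : ℕ) : ℝ) ≤ 5 * (s0:ℝ) ^ α := by
    have := Nat.ceil_lt_add_one (show 0 ≤ 2 * (2 * (s0:ℝ)) ^ α by positivity)
    linarith
  have e3 : ((A * ⌈2 * (2 * (s0:ℝ)) ^ α⌉₊ + B : ℕ) : ℝ) ≤ s0 := by
    push_cast
    push_cast at hs1
    have hA : (0:ℝ) ≤ A := by positivity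
    have hB : (0:ℝ) ≤ B := by positivity
    calc (A:ℝ) * (⌈2 * (2 * (s0:ℝ)) ^ α⌉₊ : ℝ) + B ≤ A * (5 * (s0:ℝ) ^ α) + B * (s0:ℝ) ^ α := by
          apply add_le_add
          · exact mul_le_mul_of_nonneg_left e2 hA
          · nlinarith
      _ = (5 * A + B) * (s0:ℝ) ^ α := by ring
      _ ≤ (s0:ℝ) ^ (1 - α) * (s0:ℝ) ^ α := mul_le_mul_of_nonneg_right hs1 (by linarith)
      _ = s0 := by
          rw [← Real.rpow_add (by linarith)]
          have : 1 - α + α = 1 := by ring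
          rw [this, Real.rpow_one]
  exact_mod_cast e3

/-- lower bound for binomial coefficients -/
theorem choose_lower {x s : ℕ} {y : ℝ} (hy : 0 ≤ y) (h : y + s ≤ x) :
    y ^ s / s.factorial ≤ (x.choose s : ℝ) := by
  have h1 := Nat.pow_le_choose (α := ℝ) s x
  refine le_trans ?_ h1
  apply div_le_div_of_nonneg_right _ (by positivity)
  apply pow_le_pow_left₀ hy
  have hs : s ≤ x + 1 := by
    have : (s:ℝ) ≤ x := by linarith
    have : s ≤ x := by exact_mod_cast this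
    omega
  rw [Nat.cast_sub hs]
  push_cast
  linarith

theorem choose_upper (x s : ℕ) : (x.choose s : ℝ) ≤ (x:ℝ) ^ s / s.factorial :=
  Nat.choose_le_pow_div s x

/-- **NUM3** -/
theorem num_three (j Q q s0 c R K : ℕ) (hj : 1 ≤ j) (hq : 1 ≤ q) (hqQ : q < Q) (hs0 : 1 ≤ s0)
    (h : (7 * Q + 1) * c + R + 1 ≤ s0 * q) : ∃ b0 : ℕ, ∀ b ≥ b0, ∀ m0 ≤ K,
    ((b:ℝ) ^ (7 * Q + 1)) ^ c * ((j * (3 * b ^ Q).choose s0 : ℕ) : ℝ) * (b:ℝ) ^ R ≤
      ((((b ^ (2 * q) - m0 - j) / j).choose s0 * (b ^ (Q - q) - m0).choose s0 : ℕ) : ℝ) := by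
  set A : ℕ := j * 3 ^ s0 * (8 * j) ^ s0 * s0.factorial with hA
  refine ⟨A + 4 * (K + j + j + j * s0) + 2 * (K + s0) + 1, ?_⟩
  intro b hb m0 hm0
  have hb1 : 1 ≤ b := by omega
  have hbR : (1:ℝ) ≤ b := by exact_mod_cast hb1
  have hb0 : (0:ℝ) < b := by linarith
  have hjR : (1:ℝ) ≤ j := by exact_mod_cast hj
  have hf : (0:ℝ) < s0.factorial := by exact_mod_cast Nat.factorial_pos _
  -- the first binomial coefficient
  have hx : (b:ℝ) ^ (2 * q) / (4 * j) + s0 ≤ (((b ^ (2 * q) - m0 - j) / j : ℕ) : ℝ) := by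
    have h1 : b ≤ b ^ (2 * q) := Nat.le_self_pow (by omega) b
    have h2 : ((b ^ (2 * q) - m0 - j : ℕ) : ℝ) = (b:ℝ) ^ (2 * q) - m0 - j := by
      rw [Nat.sub_sub, Nat.cast_sub (by omega)]
      push_cast
      ring
    have h3 : ((b ^ (2 * q) - m0 - j : ℕ) : ℝ) ≤
        j * (((b ^ (2 * q) - m0 - j) / j : ℕ) : ℝ) + j := by
      have h4 := Nat.div_add_mod (b ^ (2 * q) - m0 - j) j
      have h5 := Nat.mod_lt (b ^ (2 * q) - m0 - j) (show j > 0 by omega)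
      have h6 : b ^ (2 * q) - m0 - j ≤ j * ((b ^ (2 * q) - m0 - j) / j) + j := by omega
      exact_mod_cast h6
    rw [h2] at h3
    have h7 : 4 * ((K:ℝ) + j + j + j * s0) ≤ (b:ℝ) ^ (2 * q) := by
      have : 4 * (K + j + j + j * s0) ≤ b ^ (2 * q) := by omega
      exact_mod_cast this
    have h8 : (m0:ℝ) ≤ K := by exact_mod_cast hm0
    have hj0 : (0:ℝ) < j := by linarith
    have h9 : (b:ℝ) ^ (2 * q) / (4 * j) = ((b:ℝ) ^ (2 * q) / 4) / j := by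
      field_simp
    rw [h9]
    have h10 : (b:ℝ) ^ (2 * q) / 4 + j * s0 ≤ j * (((b ^ (2 * q) - m0 - j) / j : ℕ) : ℝ) := by
      linarith
    have h11 : ((b:ℝ) ^ (2 * q) / 4) / j + s0 = ((b:ℝ) ^ (2 * q) / 4 + j * s0) / j := by
      field_simp
    rw [h11, div_le_iff₀ hj0]
    linarith
  have hy : (b:ℝ) ^ (Q - q) / 2 + s0 ≤ ((b ^ (Q - q) - m0 : ℕ) : ℝ) := by
    have h1 : b ≤ b ^ (Q - q) := Nat.le_self_pow (by omega) b
    rw [Nat.cast_sub (by omega)]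
    push_cast
    have h7 : 2 * ((K:ℝ) + s0) ≤ (b:ℝ) ^ (Q - q) := by
      have : 2 * (K + s0) ≤ b ^ (Q - q) := by omega
      exact_mod_cast this
    have h8 : (m0:ℝ) ≤ K := by exact_mod_cast hm0
    linarith
  have c1 := choose_lower (by positivity) hx
  have c2 := choose_lower (by positivity) hy
  have c3 := choose_upper (3 * b ^ Q) s0
  push_cast at c3 ⊢
  calc ((b:ℝ) ^ (7 * Q + 1)) ^ c * (j * ((3 * b ^ Q).choose s0 : ℝ)) * (b:ℝ) ^ R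
      ≤ ((b:ℝ) ^ (7 * Q + 1)) ^ c * (j * ((3 * (b:ℝ) ^ Q) ^ s0 / s0.factorial)) * (b:ℝ) ^ R := by
        apply mul_le_mul_of_nonneg_right _ (by positivity)
        apply mul_le_mul_of_nonneg_left _ (by positivity)
        exact mul_le_mul_of_nonneg_left c3 (by positivity)
    _ = (j * 3 ^ s0 / s0.factorial) * (b:ℝ) ^ ((7 * Q + 1) * c + R + Q * s0) := by
        rw [mul_pow, ← pow_mul, ← pow_mul, pow_add, pow_add]
        ring
    _ ≤ ((b:ℝ) ^ (2 * q) / (4 * j)) ^ s0 / s0.factorial *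
          (((b:ℝ) ^ (Q - q) / 2) ^ s0 / s0.factorial) := by
        have e1 : ((b:ℝ) ^ (2 * q) / (4 * j)) ^ s0 / s0.factorial *
          (((b:ℝ) ^ (Q - q) / 2) ^ s0 / s0.factorial) =
            (b:ℝ) ^ (s0 * q + Q * s0) / ((8 * j) ^ s0 * s0.factorial * s0.factorial) := by
          have e2 : (b:ℝ) ^ (s0 * q + Q * s0) = ((b:ℝ) ^ (2 * q)) ^ s0 * ((b:ℝ) ^ (Q - q)) ^ s0 := by
            rw [← pow_mul, ← pow_mul, ← pow_add]
            congr 1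
            obtain ⟨r, rfl⟩ := Nat.exists_eq_add_of_lt hqQ
            rw [show q + r + 1 - q = r + 1 by omega]
            ring
          rw [e2, div_pow, div_pow, mul_pow, mul_pow]
          have : (8:ℝ) ^ s0 = 4 ^ s0 * 2 ^ s0 := by rw [← mul_pow]; norm_num
          rw [this]
          field_simp
        rw [e1, le_div_iff₀ (by positivity)]
        have hAb : (A:ℝ) ≤ b := by exact_mod_cast (by omega : A ≤ b)
        rw [hA] at hAb
        push_cast at hAb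
        calc (j * 3 ^ s0 / s0.factorial) * (b:ℝ) ^ ((7 * Q + 1) * c + R + Q * s0) *
              ((8 * j) ^ s0 * s0.factorial * s0.factorial)
            = (j * 3 ^ s0 * (8 * j) ^ s0 * s0.factorial) * (b:ℝ) ^ ((7 * Q + 1) * c + R + Q * s0) := by
              field_simp
          _ ≤ b * (b:ℝ) ^ ((7 * Q + 1) * c + R + Q * s0) :=
              mul_le_mul_of_nonneg_right hAb (by positivity)
          _ = (b:ℝ) ^ ((7 * Q + 1) * c + R + Q * s0 + 1) := by rw [pow_succ]; ring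
          _ ≤ (b:ℝ) ^ (s0 * q + Q * s0) := pow_le_pow_right₀ hbR (by omega)
    _ ≤ _ := mul_le_mul c1 c2 (by positivity) (by positivity)

/-- **NUM4** -/
theorem num_four (Q e q2 s0 c R : ℕ) (_hs0 : 1 ≤ s0) (he : q2 + 1 ≤ e) (hQ : 2 * e + 1 + q2 ≤ Q)
    (h : (7 * Q + 1) * c + R + 1 + s0 * q2 ≤ s0 * e) : ∃ b0 : ℕ, ∀ b ≥ b0,
    ((b:ℝ) ^ (7 * Q + 1)) ^ c *
      (((b ^ (2 * e)).choose s0 * (3 * b ^ (Q - 2 * e)).choose s0 : ℕ) : ℝ) * (b:ℝ) ^ R ≤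
      (((b ^ e).choose s0 * (b ^ (Q - q2) - b ^ (2 * e)).choose s0 : ℕ) : ℝ) := by
  set A : ℕ := 3 ^ s0 * 8 ^ s0 with hA
  refine ⟨A + 4 * s0 + 4, ?_⟩
  intro b hb
  have hb1 : 1 ≤ b := by omega
  have hbR : (1:ℝ) ≤ b := by exact_mod_cast hb1
  have hb0 : (0:ℝ) < b := by linarith
  have hf : (0:ℝ) < s0.factorial := by exact_mod_cast Nat.factorial_pos _
  have hx : (b:ℝ) ^ e / 2 + s0 ≤ ((b ^ e : ℕ) : ℝ) := by
    have h1 : b ≤ b ^ e := Nat.le_self_pow (by omega) b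
    have h2 : 2 * (s0:ℝ) ≤ (b:ℝ) ^ e := by
      have : 2 * s0 ≤ b ^ e := by omega
      exact_mod_cast this
    push_cast
    linarith
  have hy : (b:ℝ) ^ (Q - q2) / 4 + s0 ≤ ((b ^ (Q - q2) - b ^ (2 * e) : ℕ) : ℝ) := by
    have h1 : b * b ^ (2 * e) ≤ b ^ (Q - q2) := by
      rw [← pow_succ']
      exact Nat.pow_le_pow_right (by omega) (by omega)
    have h3 : 4 * b ^ (2 * e) ≤ b ^ (Q - q2) := by nlinarith [Nat.one_le_pow (2 * e) b (by omega)]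
    have h4 : b ≤ b ^ (Q - q2) := Nat.le_self_pow (by omega) b
    have h5 : 4 * (b:ℝ) ^ (2 * e) ≤ (b:ℝ) ^ (Q - q2) := by exact_mod_cast h3
    have h6 : 4 * (s0:ℝ) ≤ (b:ℝ) ^ (Q - q2) := by
      have : 4 * s0 ≤ b ^ (Q - q2) := by omega
      exact_mod_cast this
    rw [Nat.cast_sub (by omega)]
    push_cast
    linarith
  have c1 := choose_lower (by positivity) hx
  have c2 := choose_lower (by positivity) hy
  have c3 := choose_upper (3 * b ^ (Q - 2 * e)) s0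
  have c4 := choose_upper (b ^ (2 * e)) s0
  push_cast at c3 c4 ⊢
  calc ((b:ℝ) ^ (7 * Q + 1)) ^ c * (((b ^ (2 * e)).choose s0 : ℝ) *
        ((3 * b ^ (Q - 2 * e)).choose s0 : ℝ)) * (b:ℝ) ^ R
      ≤ ((b:ℝ) ^ (7 * Q + 1)) ^ c * ((((b:ℝ) ^ (2 * e)) ^ s0 / s0.factorial) *
        ((3 * (b:ℝ) ^ (Q - 2 * e)) ^ s0 / s0.factorial)) * (b:ℝ) ^ R := by
        apply mul_le_mul_of_nonneg_right _ (by positivity)
        apply mul_le_mul_of_nonneg_left _ (by positivity)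
        exact mul_le_mul c4 c3 (by positivity) (by positivity)
    _ = (3 ^ s0 / (s0.factorial * s0.factorial)) * (b:ℝ) ^ ((7 * Q + 1) * c + R + Q * s0) := by
        have e2 : (b:ℝ) ^ (Q * s0) = ((b:ℝ) ^ (2 * e)) ^ s0 * ((b:ℝ) ^ (Q - 2 * e)) ^ s0 := by
          rw [← pow_mul, ← pow_mul, ← pow_add]
          congr 1
          rw [← Nat.add_mul]
          congr 1
          omega
        have e3 : (b:ℝ) ^ ((7 * Q + 1) * c + R + Q * s0) =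
            ((b:ℝ) ^ (7 * Q + 1)) ^ c * (b:ℝ) ^ R * (b:ℝ) ^ (Q * s0) := by
          rw [← pow_mul, ← pow_add, ← pow_add]
        rw [e3, e2, mul_pow]
        ring
    _ ≤ ((b:ℝ) ^ e / 2) ^ s0 / s0.factorial *
          (((b:ℝ) ^ (Q - q2) / 4) ^ s0 / s0.factorial) := by
        have e1 : ((b:ℝ) ^ e / 2) ^ s0 / s0.factorial *
          (((b:ℝ) ^ (Q - q2) / 4) ^ s0 / s0.factorial) =
            (b:ℝ) ^ (s0 * (e + (Q - q2))) / (8 ^ s0 * s0.factorial * s0.factorial) := by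
          have e2 : (b:ℝ) ^ (s0 * (e + (Q - q2))) = ((b:ℝ) ^ e) ^ s0 * ((b:ℝ) ^ (Q - q2)) ^ s0 := by
            rw [← pow_mul, ← pow_mul, ← pow_add]
            congr 1
            ring
          rw [e2, div_pow, div_pow]
          have : (8:ℝ) ^ s0 = 2 ^ s0 * 4 ^ s0 := by rw [← mul_pow]; norm_num
          rw [this]
          field_simp
        rw [e1, le_div_iff₀ (by positivity)]
        have hAb : (A:ℝ) ≤ b := by exact_mod_cast (by omega : A ≤ b)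
        rw [hA] at hAb
        push_cast at hAb
        have hexp : (7 * Q + 1) * c + R + Q * s0 + 1 ≤ s0 * (e + (Q - q2)) := by
          have h1 : s0 * (e + (Q - q2)) + s0 * q2 = s0 * e + Q * s0 := by
            obtain ⟨r, hr⟩ := Nat.exists_eq_add_of_le (show q2 ≤ Q by omega)
            rw [hr, show q2 + r - q2 = r by omega]
            ring
          omega
        calc (3 ^ s0 / (s0.factorial * s0.factorial)) * (b:ℝ) ^ ((7 * Q + 1) * c + R + Q * s0) *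
              (8 ^ s0 * s0.factorial * s0.factorial)
            = (3 ^ s0 * 8 ^ s0) * (b:ℝ) ^ ((7 * Q + 1) * c + R + Q * s0) := by
              field_simp
          _ ≤ b * (b:ℝ) ^ ((7 * Q + 1) * c + R + Q * s0) :=
              mul_le_mul_of_nonneg_right hAb (by positivity)
          _ = (b:ℝ) ^ ((7 * Q + 1) * c + R + Q * s0 + 1) := by rw [pow_succ]; ring
          _ ≤ (b:ℝ) ^ (s0 * (e + (Q - q2))) := pow_le_pow_right₀ hbR hexp
    _ ≤ _ := mul_le_mul c1 c2 (by positivity) (by positivity)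

section
variable {α : ℝ}

theorem two_rpow_bounds (h0 : 0 < α) (h1 : α < 1) : 1 ≤ (2:ℝ) ^ α ∧ (2:ℝ) ^ α ≤ 2 :=
  ⟨Real.one_le_rpow (by norm_num) h0.le, by
    calc (2:ℝ) ^ α ≤ 2 ^ (1:ℝ) := Real.rpow_le_rpow_of_exponent_le (by norm_num) h1.le
      _ = 2 := by norm_num⟩

theorem two_div_kappa (α : ℝ) : 2 / (2:ℝ) ^ α = 1 + ((2:ℝ) ^ (1 - α) - 1) := by
  rw [Real.rpow_sub (by norm_num), Real.rpow_one]
  ring

/-- the reciprocal of `xi` at a power of `b` -/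
theorem inv_xi_pow (h0 : 0 < α) (h1 : α < 1) {b m e : ℕ} (hb : 1 ≤ b) (hm : 1 ≤ m)
    (hmh : 4 * m ≤ b ^ (2 * e)) :
    1 / xi ((2:ℝ) ^ α) (b ^ (2 * e)) m ≤
      2 * m * (b:ℝ) ^ (-((1 + ((2:ℝ) ^ (1 - α) - 1)) * e)) := by
  obtain ⟨k1, k2⟩ := two_rpow_bounds h0 h1
  refine (inv_xi_le k1 k2 hm hmh).trans (le_of_eq ?_)
  congr 1
  have hbR : (0:ℝ) < b := by exact_mod_cast hb
  push_cast
  rw [← Real.rpow_natCast, ← Real.rpow_mul hbR.le, ← two_div_kappa]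
  congr 1
  push_cast
  ring

/-- **NUM5 (i)** -/
theorem num_five_a (h0 : 0 < α) (h1 : α < 1) {b M p Q d : ℕ} (hM : 1 ≤ M)
    (hMp : M ≤ b ^ p) (hpQ : p + 1 ≤ 2 * Q) (hb : 4 ≤ b) :
    ((b ^ (Q + d + 1) : ℕ) : ℝ) / xi ((2:ℝ) ^ α) (b ^ (2 * Q)) M ≤
      2 * (b:ℝ) ^ p * (b:ℝ) ^ ((d:ℝ) + 1 - ((2:ℝ) ^ (1 - α) - 1) * Q) := by
  have hbR : (0:ℝ) < b := by exact_mod_cast (by omega : 0 < b)
  have h4M : 4 * M ≤ b ^ (2 * Q) := by
    calc 4 * M ≤ b * b ^ p := Nat.mul_le_mul hb hMp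
      _ = b ^ (p + 1) := by rw [pow_succ]; ring
      _ ≤ b ^ (2 * Q) := Nat.pow_le_pow_right (by omega) hpQ
  have e1 := inv_xi_pow h0 h1 (show 1 ≤ b by omega) hM h4M
  have hMR : (M:ℝ) ≤ (b:ℝ) ^ p := by exact_mod_cast hMp
  rw [div_eq_mul_one_div]
  calc ((b ^ (Q + d + 1) : ℕ) : ℝ) * (1 / xi ((2:ℝ) ^ α) (b ^ (2 * Q)) M)
      ≤ (b:ℝ) ^ (Q + d + 1) * (2 * (b:ℝ) ^ p * (b:ℝ) ^ (-((1 + ((2:ℝ) ^ (1 - α) - 1)) * Q))) := by
        push_cast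
        apply mul_le_mul_of_nonneg_left _ (by positivity)
        refine e1.trans ?_
        apply mul_le_mul_of_nonneg_right _ (by positivity)
        linarith
    _ = 2 * (b:ℝ) ^ p * ((b:ℝ) ^ ((Q + d + 1 : ℕ):ℝ) *
          (b:ℝ) ^ (-((1 + ((2:ℝ) ^ (1 - α) - 1)) * Q))) := by
        rw [Real.rpow_natCast]; ring
    _ = _ := by
        rw [← Real.rpow_add hbR]
        congr 2
        push_cast
        ring

/-- **NUM5 (ii)** -/
theorem num_five_b (h0 : 0 < α) (h1 : α < 1) {b M p Q j : ℕ} (hM : 1 ≤ M)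
    (hMp : M ≤ b ^ p) (hpQ : p ≤ Q) (hQ : 1 ≤ Q) (hb : 4 ≤ b) :
    ((b ^ (Q + 2) : ℕ) : ℝ) / xi ((2:ℝ) ^ α) (b ^ (7 * Q + 1)) M * ((j * b ^ (Q + 2) : ℕ) : ℝ) ≤
      2 * j * (b:ℝ) ^ (p + 2 * Q + 4) * (b:ℝ) ^ (-((7 * Q + 1 : ℕ) : ℝ) / 2) := by
  obtain ⟨k1, k2⟩ := two_rpow_bounds h0 h1
  have hbR : (1:ℝ) ≤ b := by exact_mod_cast (by omega : 1 ≤ b)
  have h4M : 4 * M ≤ b ^ (7 * Q + 1) := by
    calc 4 * M ≤ b * b ^ p := Nat.mul_le_mul hb hMp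
      _ = b ^ (p + 1) := by rw [pow_succ]; ring
      _ ≤ b ^ (7 * Q + 1) := Nat.pow_le_pow_right (by omega) (by omega)
  have e1 := inv_xi_le k1 k2 hM h4M
  have hMR : (M:ℝ) ≤ (b:ℝ) ^ p := by exact_mod_cast hMp
  have e2 : ((b ^ (7 * Q + 1) : ℕ) : ℝ) ^ (-(1 / (2:ℝ) ^ α)) ≤
      (b:ℝ) ^ (-((7 * Q + 1 : ℕ) : ℝ) / 2) := by
    have hh : (1:ℝ) ≤ ((b ^ (7 * Q + 1) : ℕ) : ℝ) := by
      push_cast
      exact one_le_pow₀ hbR
    calc ((b ^ (7 * Q + 1) : ℕ) : ℝ) ^ (-(1 / (2:ℝ) ^ α))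
        ≤ ((b ^ (7 * Q + 1) : ℕ) : ℝ) ^ (-(1 / 2 : ℝ)) := by
          apply Real.rpow_le_rpow_of_exponent_le hh
          have := one_div_le_one_div_of_le (by linarith) k2
          linarith
      _ = _ := by
          push_cast
          rw [← Real.rpow_natCast, ← Real.rpow_mul (by linarith)]
          congr 1
          push_cast
          ring
  rw [div_eq_mul_one_div]
  push_cast
  calc (b:ℝ) ^ (Q + 2) * (1 / xi ((2:ℝ) ^ α) (b ^ (7 * Q + 1)) M) * (j * (b:ℝ) ^ (Q + 2))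
      ≤ (b:ℝ) ^ (Q + 2) * (2 * (b:ℝ) ^ p * (b:ℝ) ^ (-((7 * Q + 1 : ℕ) : ℝ) / 2)) *
          (j * (b:ℝ) ^ (Q + 2)) := by
        apply mul_le_mul_of_nonneg_right _ (by positivity)
        apply mul_le_mul_of_nonneg_left _ (by positivity)
        refine e1.trans ?_
        apply mul_le_mul _ e2 (by positivity) (by positivity)
        linarith
    _ = 2 * j * (b:ℝ) ^ (p + 2 * Q + 4) * (b:ℝ) ^ (-((7 * Q + 1 : ℕ) : ℝ) / 2) := by
        rw [show p + 2 * Q + 4 = p + (Q + 2) + (Q + 2) by ring, pow_add, pow_add]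
        ring
    _ = _ := by push_cast; rfl

/-- **NUM5 (iii)** -/
theorem num_five_c (h0 : 0 < α) (h1 : α < 1) {b m K e : ℕ} (hb : 1 ≤ b) (hm : 1 ≤ m)
    (hmK : m ≤ K) (hK : 4 * K ≤ b ^ (2 * e)) :
    1 / xi ((2:ℝ) ^ α) (b ^ (2 * e)) m ≤
      2 * K * (b:ℝ) ^ (-((1 + ((2:ℝ) ^ (1 - α) - 1)) * e)) := by
  refine (inv_xi_pow h0 h1 hb hm (by omega)).trans ?_
  apply mul_le_mul_of_nonneg_right _ (by positivity)
  have : (m:ℝ) ≤ K := by exact_mod_cast hmK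
  linarith

end

end SeedPA
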