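import Pool.Agent.SeedPA.Dgen
import Pool.Agent.SeedPA.JDdef
import Pool.Agent.SeedPA.Jgen
import Pool.Agent.SeedPA.Num
import Pool.Agent.SeedPA.Tails0

/-!
# The comparison lemmas J and D for the concrete parameters
-/

open Finset

namespace SeedPA

variable {I : Type*} [Fintype I] {α : ℝ} {Z : SimpleGraph I}

/-- two labels with the same hub colour kill the value -/
theorem Rv_dup {P : Par I} {m x y : ℕ} {i : I} (hm : m ≤ P.n) (hx : x < m) (hy : y < m)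
    (hxy : x ≠ y) {s : St (Option I)} (hxc : s.col x = some i) (hyc : s.col y = some i) :
    Rv α P Z m s = 0 := by
  apply itr_dead (fun l s => m ≤ l ∧ s.col x = some i ∧ s.col y = some i) P.n
  · rintro l s v c _ hv ⟨h0, h1, h2⟩ _
    refine ⟨by omega, ?_, ?_⟩
    · rw [St.step_col_of_ne _ _ _ _ (by omega)]; exact h1
    · rw [St.step_col_of_ne _ _ _ _ (by omega)]; exact h2
  · rintro s ⟨_, h1, h2⟩
    unfold Theta
    rw [if_neg]
    intro hG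
    exact hxy (hG.uniq i x y (by omega) (by omega) h1 h2)
  · omega
  · exact ⟨le_rfl, hxc, hyc⟩

/-- numerical bound for the non-clean part -/
theorem rho0_bound {b Q d p : ℕ} (hb : 16 ≤ b)
    (hc : (2 * p + d + 4 : ℝ) ≤ ((2:ℝ) ^ (1 - α) - 1) * Q) :
    2 * (b:ℝ) ^ p * (b:ℝ) ^ ((d:ℝ) + 1 - ((2:ℝ) ^ (1 - α) - 1) * Q) ≤ 1 ∧
    ((b ^ p : ℕ) : ℝ) * (2 * (b:ℝ) ^ p * (b:ℝ) ^ ((d:ℝ) + 1 - ((2:ℝ) ^ (1 - α) - 1) * Q)) ≤ 1 / 8 := by
  have hbR : (16:ℝ) ≤ b := by exact_mod_cast hb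
  have hb0 : (0:ℝ) < b := by linarith
  have hb1 : (1:ℝ) ≤ b := by linarith
  have e : (b:ℝ) ^ p * ((b:ℝ) ^ p * (b:ℝ) ^ ((d:ℝ) + 1 - ((2:ℝ) ^ (1 - α) - 1) * Q)) ≤
      (b:ℝ) ^ (-(3:ℝ)) := by
    rw [← Real.rpow_natCast, ← Real.rpow_add hb0, ← Real.rpow_add hb0]
    apply Real.rpow_le_rpow_of_exponent_le hb1
    linarith
  have e2 : (b:ℝ) ^ (-(3:ℝ)) ≤ 1 / 16 := by
    rw [Real.rpow_neg hb0.le, ← one_div]
    apply one_div_le_one_div_of_le (by norm_num)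
    calc (16:ℝ) ≤ b := hbR
      _ = (b:ℝ) ^ (1:ℝ) := (Real.rpow_one _).symm
      _ ≤ (b:ℝ) ^ (3:ℝ) := Real.rpow_le_rpow_of_exponent_le hb1 (by norm_num)
  have hp1 : (1:ℝ) ≤ (b:ℝ) ^ p := one_le_pow₀ hb1
  have e3 : 0 ≤ (b:ℝ) ^ p * (b:ℝ) ^ ((d:ℝ) + 1 - ((2:ℝ) ^ (1 - α) - 1) * Q) := by positivity
  have e4 : (b:ℝ) ^ p * (b:ℝ) ^ ((d:ℝ) + 1 - ((2:ℝ) ^ (1 - α) - 1) * Q) ≤
      (b:ℝ) ^ p * ((b:ℝ) ^ p * (b:ℝ) ^ ((d:ℝ) + 1 - ((2:ℝ) ^ (1 - α) - 1) * Q)) :=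
    le_mul_of_one_le_left e3 hp1
  constructor
  · nlinarith
  · push_cast
    nlinarith

/-- numerical bound for the non-big part -/
theorem rho1_bound {b Q p j : ℕ} (hb : 16 * j + 1 ≤ b) (hc : 2 * p + 8 ≤ Q) :
    ((b ^ p : ℕ) : ℝ) * (2 * j * (b:ℝ) ^ (p + 2 * Q + 4) * (b:ℝ) ^ (-((7 * Q + 1 : ℕ) : ℝ) / 2)) ≤
      1 / 8 := by
  have hbR : (16 * j + 1 : ℝ) ≤ b := by exact_mod_cast hb
  have hj : (0:ℝ) ≤ j := by positivity
  have hb0 : (0:ℝ) < b := by linarith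
  have hb1 : (1:ℝ) ≤ b := by linarith
  have e : (b:ℝ) ^ p * ((b:ℝ) ^ (p + 2 * Q + 4) * (b:ℝ) ^ (-((7 * Q + 1 : ℕ) : ℝ) / 2)) ≤
      (b:ℝ) ^ (-(1:ℝ)) := by
    rw [← Real.rpow_natCast, ← Real.rpow_natCast, ← Real.rpow_add hb0, ← Real.rpow_add hb0]
    apply Real.rpow_le_rpow_of_exponent_le hb1
    push_cast
    have : (2 * p + 8 : ℝ) ≤ Q := by exact_mod_cast hc
    linarith
  have e2 : (2 * j) * (b:ℝ) ^ (-(1:ℝ)) ≤ 1 / 8 := by
    rw [Real.rpow_neg hb0.le, Real.rpow_one, ← div_eq_mul_inv, div_le_iff₀ hb0]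
    linarith
  push_cast
  calc _ = (2 * j) * ((b:ℝ) ^ p * ((b:ℝ) ^ (p + 2 * Q + 4) *
        (b:ℝ) ^ (-((7 * Q + 1 : ℝ)) / 2))) := by push_cast; ring
    _ ≤ (2 * j) * (b:ℝ) ^ (-(1:ℝ)) := by
        apply mul_le_mul_of_nonneg_left _ (by positivity)
        have := e
        push_cast at this
        exact this
    _ ≤ 1 / 8 := e2

/-- from a product inequality to a ratio -/
theorem ratio_of {C1 C2 A x N R : ℝ} (hC2 : 0 < C2) (hN : 0 < N) (hR : 0 ≤ R) (hx : 0 < x)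
    (h1 : C1 * A ≤ N * (C2 * R)) (h2 : N * C2 * x⁻¹ ≤ C1) : A ≤ x * R := by
  have hC1 : 0 < C1 := lt_of_lt_of_le (by positivity) h2
  have h3 : N * (C2 * R) ≤ C1 * (x * R) := by
    calc N * (C2 * R) = (N * C2 * x⁻¹) * (x * R) := by field_simp
      _ ≤ C1 * (x * R) := mul_le_mul_of_nonneg_right h2 (by positivity)
  exact le_of_mul_le_mul_left (h1.trans h3) hC1

/-- X2 for the concrete parameters -/
theorem X2_par (h0 : 0 < α) (h1 : α < 1) {Q d : ℕ} {q : I → ℕ} (hp : ParOK α Q d q) (i : I)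
    (R K : ℕ) : ∃ b1 : ℕ, ∀ b ≥ b1, ∀ n, b ^ (7 * Q + 1) ≤ n → ∀ m, 1 ≤ m → m ≤ K →
      ∀ M, b ^ (2 * q i) ≤ M → M ≤ b ^ (7 * Q + 1) → ∀ y < m, ∀ s : St (Option I), Valid m s.E →
      HasHub m s → s.col y = some i →
      RvA α (par b Q d q n) Z m (EvX2 (par b Q d q n) m M y) s ≤
        ((b:ℝ) ^ R)⁻¹ * Rv α (par b Q d q n) Z m s := by
  classical
  have hdQ := hp.dQ
  have hI : Nonempty I := ⟨i⟩
  have hcard : 1 ≤ Fintype.card I := Fintype.card_pos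
  obtain ⟨s0, c, a1, a2, a3⟩ := num_two h0 h1 (7 * Q + 1) (R + 1)
  have hq1 := hp.q2 i
  have hqQ := hp.c2 i
  obtain ⟨b1, hb1⟩ := num_three (Fintype.card I) Q (q i) s0 c R K hcard (by omega) (by omega) a1
    (by nlinarith)
  refine ⟨b1 + s0 + K + Fintype.card I + 2, ?_⟩
  intro b hb n hn m hm1 hmK M hM1 hM2 y hy s hs hub hyc
  set P := par b Q d q n with hP
  have hb1' : 1 ≤ b := by omega
  have hb2 : b ≤ b ^ (2 * q i) := by
    calc b = b ^ 1 := (pow_one b).symm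
      _ ≤ _ := Nat.pow_le_pow_right hb1' (by omega)
  have hn1 : P.n1 ≤ P.n := hn
  have hR := Rv_nonneg (α := α) (P := P) (Z := Z) m s
  have hX := X2 (Z := Z) h0 h1 hn1 (m0 := m) (M := M) hm1 (by omega)
    hM2 hy hs hub hyc (a := (b ^ (2 * q i) - m - Fintype.card I) / Fintype.card I)
    (s0 := s0) (c := c) (Hm := b ^ Q) a1 a2
    (by
      have := Nat.mul_div_le (b ^ (2 * q i) - m - Fintype.card I) (Fintype.card I)
      omega)
    (fun i' => Nat.pow_le_pow_right hb1' (Nat.sub_le _ _))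
  have hbR : (1:ℝ) ≤ b := by exact_mod_cast hb1'
  apply ratio_of _ _ hR _ hX
  · have e1 := hb1 b (by omega) m hmK
    have e2 : (P.n1 : ℝ) ^ c = ((b:ℝ) ^ (7 * Q + 1)) ^ c := by
      show ((b ^ (7 * Q + 1) : ℕ) : ℝ) ^ c = _
      push_cast; ring
    rw [e2, inv_inv]
    exact e1
  · have : 0 < (3 * b ^ Q).choose s0 := by
      apply Nat.choose_pos
      have e3 : b ≤ b ^ Q := by
        calc b = b ^ 1 := (pow_one b).symm
          _ ≤ _ := Nat.pow_le_pow_right hb1' (by omega)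
      omega
    have h5 : 0 < Fintype.card I * (3 * b ^ Q).choose s0 := Nat.mul_pos hcard this
    exact_mod_cast h5
  · have : 0 < P.n1 := Nat.pow_pos (by omega)
    positivity
  · positivity

theorem jLeaf (h0 : 0 < α) (h1 : α < 1) (hZ : Z.IsTree) {Q d : ℕ} {q : I → ℕ}
    (hp : ParOK α Q d q) : JLeafProp α Z Q d q := by
  classical
  intro K
  have hdQ := hp.dQ
  by_cases hI : IsEmpty I
  · exact ⟨0, fun b _ => ⟨0, fun n _ m _ _ s _ _ y _ i => (hI.false i).elim⟩⟩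
  rw [not_isEmpty_iff] at hI
  have hd1 : 1 ≤ d := by have := hp.qd (Classical.arbitrary I); omega
  obtain ⟨bT, hT⟩ := T0 h0 h1 hZ Q d q hd1 (by omega)
  have hX : ∀ i : I, _ := fun i => X2_par (Z := Z) h0 h1 hp i 1 K
  choose b1 hb1 using hX
  refine ⟨bT + K + 16 * Fintype.card I + 16 + ∑ i, b1 i, ?_⟩
  intro b hb
  obtain ⟨nT, hnT⟩ := hT b (by omega)
  refine ⟨nT + b ^ (7 * Q + 1), ?_⟩
  intro n hn m hm2 hmK s hs hc y hy i hyc
  set P := par b Q d q n with hP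
  have hb1i : b1 i ≤ b := by
    have := single_le_sum (f := b1) (fun _ _ => Nat.zero_le _) (mem_univ i)
    omega
  have hq1 := hp.q2 i
  have hqQ := hp.c2 i
  have hb1' : 1 ≤ b := by omega
  have hM1 : b ≤ b ^ (2 * q i) := by
    calc b = b ^ 1 := (pow_one b).symm
      _ ≤ _ := Nat.pow_le_pow_right hb1' (by omega)
  have hMn0 : b ^ (2 * q i) < P.n0 := Nat.pow_lt_pow_right (by omega) (by omega)
  have hn01 : P.n0 ≤ P.n1 := Nat.pow_le_pow_right hb1' (by omega)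
  have hn1 : P.n1 ≤ P.n := by show b ^ (7 * Q + 1) ≤ n; omega
  have hβ : 1 ≤ P.β0 := Nat.one_le_pow _ _ hb1'
  obtain ⟨r1, r2⟩ := rho0_bound (α := α) (b := b) (Q := Q) (d := d) (p := 2 * q i) (by omega)
    (by have := hp.c1 i; push_cast; linarith)
  have r3 := rho1_bound (b := b) (Q := Q) (p := 2 * q i) (j := Fintype.card I) (by omega) (by omega)
  have hρ0 : (P.β0:ℝ) / xi ((2:ℝ)^α) P.n0 (b ^ (2 * q i)) ≤ _ :=
    num_five_a (d := d) h0 h1 (M := b ^ (2 * q i)) (p := 2 * q i) (Nat.one_le_pow _ _ hb1') le_rfl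
      (by omega : 2 * q i + 1 ≤ 2 * Q) (by omega)
  have hρ1 : (P.β1:ℝ) / xi ((2:ℝ)^α) P.n1 (b ^ (2 * q i)) * (Fintype.card I * P.D1 : ℕ) ≤ _ :=
    num_five_b (j := Fintype.card I) h0 h1 (M := b ^ (2 * q i)) (p := 2 * q i)
      (Nat.one_le_pow _ _ hb1') le_rfl (by omega) (by omega) (by omega)
  have hbR : (16:ℝ) ≤ b := by exact_mod_cast (by omega : 16 ≤ b)
  have hx := hb1 i b hb1i n (by omega) m (by omega) hmK (b ^ (2 * q i)) le_rfl
    (Nat.pow_le_pow_right hb1' (by omega)) y hy s hs.valid hc.1 hyc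
  have hb8 : ((b:ℝ) ^ 1)⁻¹ ≤ 1 / 8 := by
    rw [pow_one, inv_eq_one_div]
    exact one_div_le_one_div_of_le (by norm_num) (by linarith)
  have hJ := J_leaf_gen (Z := Z) h0 h1 hn01 hn1 hβ (by omega : 1 ≤ m) (by omega) hMn0 hy hs.valid hc
    r1 hρ0 hρ1 hx (by linarith)
  refine hJ.trans ?_
  have hT' := hnT n (by omega) m hm2 (by
    calc m ≤ b ^ (2 * q i) := by omega
      _ ≤ b ^ (2 * Q) := Nat.pow_le_pow_right hb1' (by omega)) s hs
  have hR1 := Rv_nonneg (α := α) (P := P) (Z := Z) (m + 1) (s.step m y none)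
  have hpow : 2 * ((b ^ (2 * q i) : ℕ) : ℝ) ^ 2 ≤ (b:ℝ) ^ (4 * q i + 1) := by
    push_cast
    rw [← pow_mul, pow_succ, show 2 * q i * 2 = 4 * q i by ring]
    have : 0 ≤ (b:ℝ) ^ (4 * q i) := by positivity
    nlinarith
  have h2 := mul_le_mul_of_nonneg_right hpow hR1
  linarith

theorem jHub (h0 : 0 < α) (h1 : α < 1) (hZ : Z.IsTree) {Q d : ℕ} {q : I → ℕ}
    (hp : ParOK α Q d q) : JHubProp α Z Q d q := by
  classical
  intro K
  have hdQ := hp.dQ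
  by_cases hI : IsEmpty I
  · exact ⟨0, fun b _ => ⟨0, fun n _ m _ _ s _ _ y _ i => (hI.false i).elim⟩⟩
  rw [not_isEmpty_iff] at hI
  have hd1 : 1 ≤ d := by have := hp.qd (Classical.arbitrary I); omega
  obtain ⟨bT, hT⟩ := T0 h0 h1 hZ Q d q hd1 (by omega)
  have hX : ∀ i : I, _ := fun i => X2_par (Z := Z) h0 h1 hp i (2 * (7 * Q + 1)) (K + 1)
  choose b1 hb1 using hX
  refine ⟨bT + K + 16 * Fintype.card I + 16 + ∑ i, b1 i, ?_⟩
  intro b hb
  obtain ⟨nT, hnT⟩ := hT b (by omega)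
  refine ⟨nT + b ^ (7 * Q + 1), ?_⟩
  intro n hn m hm2 hmK s hs hc y hy i i' hyc hadj hmiss
  set P := par b Q d q n with hP
  have hb1i : b1 i ≤ b := by
    have := single_le_sum (f := b1) (fun _ _ => Nat.zero_le _) (mem_univ i)
    omega
  have hq1 := hp.q2 i
  have hqQ := hp.c2 i
  have hb1' : 1 ≤ b := by omega
  have hM1 : b ≤ b ^ (2 * q i) := by
    calc b = b ^ 1 := (pow_one b).symm
      _ ≤ _ := Nat.pow_le_pow_right hb1' (by omega)
  have hMn0 : b ^ (2 * q i) < P.n0 := Nat.pow_lt_pow_right (by omega) (by omega)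
  have hn01 : P.n0 ≤ P.n1 := Nat.pow_le_pow_right hb1' (by omega)
  have hn1 : P.n1 ≤ P.n := by show b ^ (7 * Q + 1) ≤ n; omega
  have hβ : 1 ≤ P.β0 := Nat.one_le_pow _ _ hb1'
  obtain ⟨r1, r2⟩ := rho0_bound (α := α) (b := b) (Q := Q) (d := d) (p := 2 * q i) (by omega)
    (by have := hp.c1 i; push_cast; linarith)
  have r3 := rho1_bound (b := b) (Q := Q) (p := 2 * q i) (j := Fintype.card I) (by omega) (by omega)
  have hρ0 : (P.β0:ℝ) / xi ((2:ℝ)^α) P.n0 (b ^ (2 * q i)) ≤ _ :=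
    num_five_a (d := d) h0 h1 (M := b ^ (2 * q i)) (p := 2 * q i) (Nat.one_le_pow _ _ hb1') le_rfl
      (by omega : 2 * q i + 1 ≤ 2 * Q) (by omega)
  have hρ1 : (P.β1:ℝ) / xi ((2:ℝ)^α) P.n1 (b ^ (2 * q i)) * (Fintype.card I * P.D1 : ℕ) ≤ _ :=
    num_five_b (j := Fintype.card I) h0 h1 (M := b ^ (2 * q i)) (p := 2 * q i)
      (Nat.one_le_pow _ _ hb1') le_rfl (by omega) (by omega) (by omega)
  have hbR : (16:ℝ) ≤ b := by exact_mod_cast (by omega : 16 ≤ b)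
  have hle1 : b ^ (2 * q i) + 1 ≤ b ^ (7 * Q + 1) := by
    have : b ^ (2 * q i) < b ^ (7 * Q + 1) := Nat.pow_lt_pow_right (by omega) (by omega)
    omega
  have hx := hb1 i b hb1i n (by omega) (m + 1) (by omega) (by omega) (b ^ (2 * q i) + 1)
    (by omega) hle1 m (by omega) (s.step m y (some i)) (hs.valid.step hy)
    (hc.1.step y (some i)) (St.step_col_self _ _ _ _)
  have hx1 : (P.n1:ℝ)^2 * ((b:ℝ) ^ (2 * (7 * Q + 1)))⁻¹ ≤ 1 := by
    have : (P.n1:ℝ)^2 = (b:ℝ) ^ (2 * (7 * Q + 1)) := by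
      show ((b ^ (7 * Q + 1) : ℕ) : ℝ) ^ 2 = _
      push_cast
      rw [← pow_mul, mul_comm]
    rw [this, mul_inv_cancel₀ (by positivity)]
  have hJ := J_hub_gen (Z := Z) h0 h1 hn01 hn1 hβ (by omega : 1 ≤ m) (by omega) hMn0 hy hs.valid hc
    hyc hadj hmiss r1 hρ0 hρ1 hx hx1 (by linarith)
  refine hJ.trans ?_
  have hT' := hnT n (by omega) m hm2 (by
    calc m ≤ b ^ (2 * q i) := by omega
      _ ≤ b ^ (2 * Q) := Nat.pow_le_pow_right hb1' (by omega)) s hs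
  have hR1 := Rv_nonneg (α := α) (P := P) (Z := Z) (m + 1) (s.step m y (some i))
  have hpow : 2 * (((b ^ (2 * q i) : ℕ) : ℝ) ^ 2 + 1) ≤ (b:ℝ) ^ (4 * q i + 1) := by
    push_cast
    rw [← pow_mul, pow_succ, show 2 * q i * 2 = 4 * q i by ring]
    have : 1 ≤ (b:ℝ) ^ (4 * q i) := one_le_pow₀ (by linarith)
    nlinarith
  have h2 := mul_le_mul_of_nonneg_right hpow hR1
  linarith

theorem dProp (h0 : 0 < α) (h1 : α < 1) (hZ : Z.IsTree) {Q d : ℕ} {q : I → ℕ}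
    (hp : ParOK α Q d q) : DProp α Z Q d q := by
  classical
  intro i i2 hii K
  have hdQ := hp.dQ
  have hI : Nonempty I := ⟨i⟩
  have hd1 : 1 ≤ d := by have := hp.qd i; omega
  obtain ⟨bT, hT⟩ := T0 h0 h1 hZ Q d q hd1 (by omega)
  have hq1 := hp.q2 i
  have hqQ := hp.c2 i
  set e := q i / 2 with he
  have he2 : 2 * e ≤ q i := Nat.mul_div_le _ _
  have heq : q i2 + 2 ≤ e := by omega
  obtain ⟨s0, c, a1, a2, a3⟩ := num_two h0 h1 (7 * Q + 1) 2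
  obtain ⟨b1, hb1⟩ := num_four Q e (q i2) s0 c 1 a1 (by omega) (by omega)
    (by nlinarith)
  refine ⟨8 * K + 1, by positivity, bT + 4 * K + 16 * Fintype.card I + 16 + b1 + s0, ?_⟩
  intro b hb
  obtain ⟨nT, hnT⟩ := hT b (by omega)
  refine ⟨nT + b ^ (7 * Q + 1), ?_⟩
  intro n hn m hm2 hmK s hs hc z1 hz1 z2 hz2 hc1 hc2
  set P := par b Q d q n with hP
  have hb1' : 1 ≤ b := by omega
  have hM1 : b ^ 2 ≤ b ^ (2 * e) := Nat.pow_le_pow_right hb1' (by omega)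
  have hbb : b ≤ b ^ e := by
    calc b = b ^ 1 := (pow_one b).symm
      _ ≤ _ := Nat.pow_le_pow_right hb1' (by omega)
  have hM1' : b ≤ b ^ (2 * e) := by
    calc b = b ^ 1 := (pow_one b).symm
      _ ≤ _ := Nat.pow_le_pow_right hb1' (by omega)
  have hMn0 : b ^ (2 * e) < P.n0 := Nat.pow_lt_pow_right (by omega) (by omega)
  have hn01 : P.n0 ≤ P.n1 := Nat.pow_le_pow_right hb1' (by omega)
  have hn1 : P.n1 ≤ P.n := by show b ^ (7 * Q + 1) ≤ n; omega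
  have hβ : 1 ≤ P.β0 := Nat.one_le_pow _ _ hb1'
  have hbR : (16:ℝ) ≤ b := by exact_mod_cast (by omega : 16 ≤ b)
  have hb0 : (0:ℝ) < b := by linarith
  have hs1 : TreeOn (m + 1) (s.step m z1 none).E := hs.step hz1
  have hbQ : b ^ (2 * e) ≤ b ^ (2 * Q) := Nat.pow_le_pow_right hb1' (by omega)
  have hcoef : 0 ≤ (8 * K + 1 : ℝ) * (b:ℝ) ^ (-(((2:ℝ) ^ (1 - α) - 1) * (e : ℕ))) *
      Rv α P Z m s := by
    have := Rv_nonneg (α := α) (P := P) (Z := Z) m s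
    positivity
  by_cases hu : ∀ x < m, s.col x = some i → x = z1
  swap
  · -- duplicate colour
    push Not at hu
    obtain ⟨x, hx, hxc, hxz⟩ := hu
    rw [Rv_dup (by omega) (by omega : x < m + 1) (by omega : z1 < m + 1) hxz
      (by rw [St.step_col_of_ne _ _ _ _ (by omega)]; exact hxc)
      (by rw [St.step_col_of_ne _ _ _ _ (by omega)]; exact hc1)]
    have := cfac_nonneg α (m + 1) (s.step m z1 none).E
    positivity
  have hz12 : z1 ≠ z2 := by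
    rintro rfl
    rw [hc1] at hc2
    have : i = i2 := by simpa using hc2
    subst this
    omega
  obtain ⟨r1, r2⟩ := rho0_bound (α := α) (b := b) (Q := Q) (d := d) (p := 2 * e) (by omega)
    (by
      have := hp.c1 i
      have h3 : (2 * e : ℝ) ≤ q i := by exact_mod_cast he2
      push_cast
      linarith)
  have r3 := rho1_bound (b := b) (Q := Q) (p := 2 * e) (j := Fintype.card I) (by omega) (by omega)
  have hρ0 : (P.β0:ℝ) / xi ((2:ℝ)^α) P.n0 (b ^ (2 * e)) ≤ _ :=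
    num_five_a (d := d) h0 h1 (M := b ^ (2 * e)) (p := 2 * e) (Nat.one_le_pow _ _ hb1') le_rfl
      (by omega : 2 * e + 1 ≤ 2 * Q) (by omega)
  have hρ1 : (P.β1:ℝ) / xi ((2:ℝ)^α) P.n1 (b ^ (2 * e)) * (Fintype.card I * P.D1 : ℕ) ≤ _ :=
    num_five_b (j := Fintype.card I) h0 h1 (M := b ^ (2 * e)) (p := 2 * e)
      (Nat.one_le_pow _ _ hb1') le_rfl (by omega) (by omega) (by omega)
  have hub1 : HasHub (m + 1) (s.step m z1 none) := hc.1.step z1 none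
  have hX := X1 (Z := Z) h0 h1 hn1 (m0 := m + 1) (M := b ^ (2 * e)) (z1 := z1) (z2 := z2)
    (i := i) (i2 := i2) (by omega) (by omega) (by omega) hz12 (by omega) (by omega)
    hs1.valid hub1
    (by rw [St.step_col_of_ne _ _ _ _ (by omega)]; exact hc1)
    (by rw [St.step_col_of_ne _ _ _ _ (by omega)]; exact hc2) (D := b ^ e) (s0 := s0) (c := c) a2
  have hR1 := Rv_nonneg (α := α) (P := P) (Z := Z) (m + 1) (s.step m z1 none)
  have hx : RvA α P Z (m + 1) (fun s' => b ^ e ≤ ((Ico (m + 1) (b ^ (2 * e))).filter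
      (fun x => BigAt P s' z1 x)).card) (s.step m z1 none) ≤
      ((b:ℝ) ^ 1)⁻¹ * Rv α P Z (m + 1) (s.step m z1 none) := by
    apply ratio_of _ _ hR1 _ hX
    · have e1 := hb1 b (by omega)
      have e2 : (P.n1 : ℝ) ^ c = ((b:ℝ) ^ (7 * Q + 1)) ^ c := by
        show ((b ^ (7 * Q + 1) : ℕ) : ℝ) ^ c = _
        push_cast; ring
      rw [e2, inv_inv]
      refine le_trans ?_ e1
      apply mul_le_mul_of_nonneg_right _ (by positivity)
      apply mul_le_mul_of_nonneg_left _ (by positivity)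
      have h5 : (3 * P.H i).choose s0 ≤ (3 * b ^ (Q - 2 * e)).choose s0 := by
        apply Nat.choose_le_choose
        apply Nat.mul_le_mul_left
        exact Nat.pow_le_pow_right hb1' (by omega)
      exact_mod_cast Nat.mul_le_mul_left _ h5
    · have e3 : 0 < (b ^ (2 * e)).choose s0 := Nat.choose_pos (by omega)
      have e4 : 0 < (3 * P.H i).choose s0 := by
        apply Nat.choose_pos
        have : b ≤ P.H i := by
          calc b = b ^ 1 := (pow_one b).symm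
            _ ≤ b ^ (Q - q i) := Nat.pow_le_pow_right hb1' (by omega)
        omega
      exact_mod_cast Nat.mul_pos e3 e4
    · have : 0 < P.n1 := Nat.pow_pos (by omega)
      positivity
    · positivity
  have hb8 : ((b:ℝ) ^ 1)⁻¹ ≤ 1 / 8 := by
    rw [pow_one, inv_eq_one_div]
    exact one_div_le_one_div_of_le (by norm_num) (by linarith)
  have hD := D_gen (Z := Z) h0 h1 hn01 hn1 hβ (by omega : 1 ≤ m) (by omega) hMn0 hz1 hs.valid hc hc1
    hu r1 hρ0 hρ1 hx (by linarith)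
  refine hD.trans ?_
  have hT' := hnT n (by omega) (m + 1) (by omega) (by omega) _ hs1
  have hR := Rv_nonneg (α := α) (P := P) (Z := Z) m s
  have hxi := num_five_c h0 h1 (b := b) (m := m) (K := K) (e := e) hb1' (by omega) hmK (by
    calc 4 * K ≤ b := by omega
      _ ≤ _ := hM1')
  have hcf : 2 * (((b ^ e + m + 1 : ℕ) : ℝ) / xi ((2:ℝ)^α) (b ^ (2 * e)) m) ≤
      (8 * K + 1 : ℝ) * (b:ℝ) ^ (-(((2:ℝ) ^ (1 - α) - 1) * (e : ℕ))) := by
    have h5 : ((b ^ e + m + 1 : ℕ) : ℝ) ≤ 2 * (b:ℝ) ^ e := by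
      have : b ^ e + m + 1 ≤ 2 * b ^ e := by omega
      exact_mod_cast this
    have hxi0 : 0 ≤ 1 / xi ((2:ℝ)^α) (b ^ (2 * e)) m :=
      one_div_nonneg.2 (xi_nonneg (by positivity) _ _)
    have h6 : ((b ^ e + m + 1 : ℕ) : ℝ) / xi ((2:ℝ)^α) (b ^ (2 * e)) m ≤
        (2 * (b:ℝ) ^ e) * (2 * K * (b:ℝ) ^ (-((1 + ((2:ℝ) ^ (1 - α) - 1)) * e))) := by
      rw [div_eq_mul_one_div]
      exact mul_le_mul h5 hxi hxi0 (by positivity)
    have h7 : (b:ℝ) ^ e * (b:ℝ) ^ (-((1 + ((2:ℝ) ^ (1 - α) - 1)) * e)) =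
        (b:ℝ) ^ (-(((2:ℝ) ^ (1 - α) - 1) * (e : ℕ))) := by
      rw [← Real.rpow_natCast, ← Real.rpow_add hb0]
      congr 1
      ring
    have h8 : 0 ≤ (b:ℝ) ^ (-(((2:ℝ) ^ (1 - α) - 1) * (e : ℕ))) := by positivity
    calc _ ≤ 2 * ((2 * (b:ℝ) ^ e) * (2 * K * (b:ℝ) ^ (-((1 + ((2:ℝ) ^ (1 - α) - 1)) * e)))) := by
          linarith
      _ = 8 * K * ((b:ℝ) ^ e * (b:ℝ) ^ (-((1 + ((2:ℝ) ^ (1 - α) - 1)) * e))) := by ring
      _ = 8 * K * (b:ℝ) ^ (-(((2:ℝ) ^ (1 - α) - 1) * (e : ℕ))) := by rw [h7]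
      _ ≤ _ := by nlinarith
  have h9 := mul_le_mul_of_nonneg_right hcf hR
  linarith

end SeedPA
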