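import Pool.Agent.SeedPA.AsmNum
import Pool.Agent.SeedPA.Assembly
import Pool.Agent.SeedPA.JD

/-!
# The separation property
-/

open Finset

namespace SeedPA

/-- the bound for states without a hub -/
def NoHubProp (α : ℝ) : Prop :=
  ∀ (j : ℕ) (Z : SimpleGraph (Fin j)) (P : Par (Fin j)), Z.IsTree → P.n0 ≤ P.n1 →
    P.n1 ≤ P.n → ∀ k, 3 ≤ k → k < P.n0 → ∀ B : ℝ,
    (∀ s' : St (Option (Fin j)), TreeOn (k-1) s'.E → (∀ x < k-1, s'.col x = none) →
      Rv α P Z (k-1) s' ≤ B) → ∀ s : St (Option (Fin j)), TreeOn k s.E → (∀ x < k, s.col x = none) →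
      Rv α P Z k s ≤ k * (P.β0 / xi ((2:ℝ)^α) P.n0 (k-1)) * B +
        RvA α P Z k (fun s' => ¬ good0 P s') s

theorem sepProp_of_noHub {α : ℝ} (h0 : 0 < α) (h1 : α < 1) (hno : NoHubProp α) : SepProp α :=
  sepProp_of h0 h1
    { JL := fun _ _ _ _ _ hp hZ => jLeaf h0 h1 hZ hp
      JH := fun _ _ _ _ _ hp hZ => jHub h0 h1 hZ hp
      D := fun _ _ _ _ _ hp hZ => dProp h0 h1 hZ hp
      no := hno
      num := asm_num h0 h1 }

end SeedPA
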