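import Pool.Agent.SeedPA.NoHubB
import Pool.Agent.SeedPA.SepFinal

/-!
# Seeds without a hub, part C: the bound
-/

open Finset Relation

namespace SeedPA

variable {I : Type*}

/-- the seed is `{0,…,k-1}`; every later vertex `y` hangs off a seed vertex `p` behind a child
`l ≤ y` of `p` -/
def Anc (k : ℕ) (E : ESet) (y : ℕ) (p l : ℕ) : Prop :=
  p < k ∧ k ≤ l ∧ l ≤ y ∧ s(p, l) ∈ E ∧ ¬ Conn E (fun z => z ≠ l) p y

/-- invariant used to locate the hubs -/
structure HInv (k x : ℕ) (s : St (Option I)) : Prop where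
  tree : TreeOn x s.E
  le : k ≤ x
  seed : ∀ y < k, s.col y = none
  anc : ∀ y, k ≤ y → y < x → ∃ p l, Anc k s.E y p l
  hub : (∀ y < x, s.col y = none) ∨ ∃ p l, ∃ z, z < x ∧ s.col z ≠ none ∧
    ∀ h < x, s.col h ≠ none → Anc k s.E h p l

theorem Anc.step {k x v : ℕ} {E : ESet} (hE : Valid x E) (hv : v < x) {y p l : ℕ}
    (hy : y < x) (h : Anc k E y p l) : Anc k (insert s(v, x) E) y p l := by
  obtain ⟨h1, h2, h3, h4, h5⟩ := h
  refine ⟨h1, h2, h3, mem_insert_of_mem h4, ?_⟩
  rwa [conn_insert_old hE.lt (fun _ _ => Iff.rfl) hv (by omega) hy]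

theorem Anc.new {k x v : ℕ} {E : ESet} (hE : Valid x E) (hv : v < x) {p l : ℕ}
    (h : Anc k E v p l) : Anc k (insert s(v, x) E) x p l := by
  obtain ⟨h1, h2, h3, h4, h5⟩ := h
  refine ⟨h1, h2, by omega, mem_insert_of_mem h4, ?_⟩
  rw [conn_insert_new hE.lt (fun _ _ => Iff.rfl) hv (by omega)]
  rintro ⟨_, _, h6⟩
  exact h5 h6

theorem HInv.step [Fintype I] {Z : SimpleGraph I} {k x v : ℕ} {s : St (Option I)} {c : Option I}
    (h : HInv k x s) (hv : v < x) (hok : okStep Z x s v c) : HInv k (x + 1) (s.step x v c) := by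
  have hV := h.tree.valid
  have hkx := h.le
  have hanc : ∃ p l, Anc k (s.step x v c).E x p l := by
    rw [St.step_E]
    by_cases hvk : v < k
    · refine ⟨v, x, hvk, hkx, le_rfl, mem_insert_self _ _, ?_⟩
      intro hcon
      exact (Conn.nh (nh := fun z => z ≠ x) hcon (show v ≠ x by omega)) rfl
    · obtain ⟨p, l, hpl⟩ := h.anc v (by omega) hv
      exact ⟨p, l, hpl.new hV hv⟩
  refine ⟨h.tree.step hv, by omega, ?_, ?_, ?_⟩
  · intro y hy
    rw [St.step_col_of_ne _ _ _ _ (by omega)]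
    exact h.seed y hy
  · intro y hky hy
    by_cases hyx : y = x
    · rw [hyx]; exact hanc
    · obtain ⟨p, l, hpl⟩ := h.anc y hky (by omega)
      exact ⟨p, l, hpl.step hV hv (by omega)⟩
  · rcases h.hub with hno | ⟨p, l, z, hz, hzc, hall⟩
    · cases c with
      | none =>
        left
        intro y hy
        by_cases hyx : y = x
        · rw [hyx, St.step_col_self]
        · rw [St.step_col_of_ne _ _ _ _ hyx]; exact hno y (by omega)
      | some i =>
        right
        obtain ⟨p, l, hpl⟩ := hanc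
        refine ⟨p, l, x, by omega, by rw [St.step_col_self]; simp, ?_⟩
        intro y hy hyc
        by_cases hyx : y = x
        · rw [hyx]; exact hpl
        · rw [St.step_col_of_ne _ _ _ _ hyx] at hyc
          exact absurd (hno y (by omega)) hyc
    · right
      refine ⟨p, l, z, by omega, by rwa [St.step_col_of_ne _ _ _ _ (by omega)], ?_⟩
      intro y hy hyc
      by_cases hyx : y = x
      · subst hyx
        rw [St.step_col_self] at hyc
        obtain ⟨i, rfl⟩ := Option.ne_none_iff_exists'.1 hyc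
        exact (hall v hv (okStep_hub ⟨z, hz, hzc⟩ hok)).new hV hv
      · rw [St.step_col_of_ne _ _ _ _ hyx] at hyc
        exact (hall y (by omega) hyc).step hV hv (by omega)

open Classical in
theorem csz_le_csz {m : ℕ} {E : ESet} {nh nh' : ℕ → Prop} {x x' : ℕ}
    (h : ∀ y < m, nh y → Conn E nh x y → nh' y ∧ Conn E nh' x' y) :
    csz m E nh x ≤ csz m E nh' x' := by
  unfold csz
  apply card_le_card
  intro y hy
  rw [mem_filter, mem_range] at hy ⊢
  exact ⟨hy.1, h y hy.1 hy.2.1 hy.2.2⟩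

section
variable [Fintype I] {α : ℝ} {P : Par I} {Z : SimpleGraph I}

/-- the decomposition of the good event -/
theorem good0_split (hn : P.n0 ≤ P.n) {k : ℕ} (hkn : k < P.n0)
    {s : St (Option I)} (hs : TreeOn k s.E) (hcol : ∀ x < k, s.col x = none) :
    RvA α P Z k (good0 P) s ≤ ∑ p ∈ range k, ∑ l ∈ Ico k P.n0, RvA α P Z k (aw P p l) s := by
  classical
  have h1 : RvA α P Z k (good0 P) s ≤
      RvA α P Z k (fun s' => ∃ x ∈ range k ×ˢ Ico k P.n0, aw P x.1 x.2 s') s := by
    apply RvA_mono_inv (HInv k) (fun x s v c _ hv hI hok => hI.step hv hok) _ (by omega)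
      ⟨hs, le_rfl, hcol, fun y hy1 hy2 => by omega, Or.inl hcol⟩
    intro s' hI _ hg
    obtain ⟨z, hz, hzc⟩ := hg.1
    rcases hI.hub with hno | ⟨p, l, _, _, _, hall⟩
    · exact absurd (hno z (by omega)) hzc
    obtain ⟨a1, a2, a3, a4, a5⟩ := hall z (by omega) hzc
    refine ⟨(p, l), mem_product.2 ⟨mem_range.2 a1, mem_Ico.2 ⟨a2, by omega⟩⟩, by omega, a4, ?_, ?_, hg⟩
    · intro y hy hyc
      exact (hall y (by omega) hyc).2.2.2.2
    · refine le_trans ?_ (hg.2 p (by omega) (hI.seed p a1))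
      unfold cs
      apply csz_le_csz
      intro y hy1 _ hy3
      have hlab : ∀ w, Conn s'.E (fun z => z ≠ l) p w → w < P.n := fun w hw =>
        Conn.lt hI.tree.valid.lt hw (by omega)
      have hnon : ∀ w, Conn s'.E (fun z => z ≠ l) p w → nhS s' w := by
        intro w hw
        by_contra hc
        exact (hall w (hlab w hw) hc).2.2.2.2 hw
      refine ⟨hnon y hy3, ?_⟩
      have h2 := Conn.self_class hy3
      unfold Conn at h2 ⊢
      refine ReflTransGen.mono ?_ _ _ h2
      intro a b hab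
      exact ⟨hab.1, hnon a hab.2.1, hnon b hab.2.2⟩
  refine h1.trans ?_
  rw [← sum_product']
  exact RvA_union _ (fun s _ h => h) k s

/-- large seeds cannot be in the small branch -/
theorem RvA_aw_large (hn : P.n0 ≤ P.n) {k p l : ℕ} (hkn : k ≤ P.n0) (hkβ : P.β0 < k) (hp : p < k)
    (hl : k ≤ l) {s : St (Option I)} (hs : TreeOn k s.E) : RvA α P Z k (aw P p l) s = 0 := by
  classical
  apply itr_dead (fun x s => k ≤ x ∧ Valid x s.E ∧ ∀ y < k, Conn s.E (fun z => z ≠ l) p y) P.n
  · rintro x s v c _ hv ⟨h1, h2, h3⟩ _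
    refine ⟨by omega, h2.step hv, fun y hy => ?_⟩
    rw [St.step_E]
    exact Conn.mono h2.lt (fun _ _ => Iff.rfl) (h3 y hy)
  · rintro s ⟨_, _, h3⟩
    rw [if_neg]
    rintro ⟨_, _, _, h4, _⟩
    have h5 : range k ⊆ (range P.n0).filter
        (fun y => y ≠ l ∧ Conn s.E (fun z => z ≠ l) p y) := by
      intro y hy
      have hy' := mem_range.1 hy
      rw [mem_filter, mem_range]
      exact ⟨by omega, by omega, h3 y hy'⟩
    have h6 := card_le_card h5
    rw [card_range] at h6
    have h7 : ((range P.n0).filter (fun y => y ≠ l ∧ Conn s.E (fun z => z ≠ l) p y)).card ≤ P.β0 := by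
      refine le_trans (le_of_eq ?_) h4
      unfold csz
      congr
    omega
  · omega
  · refine ⟨le_rfl, hs.valid, fun y hy => ?_⟩
    have h1 := hs.conn p hp y hy
    exact (Conn.congr hs.valid.lt (nh := fun _ => True) (nh' := fun z => z ≠ l)
      (fun z hz => ⟨fun _ => trivial, fun _ => by omega⟩)).2 h1

/-- a tree with at least three vertices has a leaf different from `p` -/
theorem exists_leaf_ne {m : ℕ} {E : ESet} (h : Valid m E) {p : ℕ} (hp : p < m) :
    ∃ u < m, u ≠ p ∧ deg E u = 1 := by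
  by_contra hc
  push Not at hc
  have h1 : ∀ u ∈ range m, (2 - if u = p then 1 else 0) ≤ deg E u := by
    intro u hu
    have hu' := mem_range.1 hu
    have := h.pos u hu'
    split_ifs with hup
    · omega
    · have := hc u hu' hup
      omega
  have h2 := sum_le_sum h1
  rw [h.sum_deg] at h2
  have h3 : ∑ u ∈ range m, (2 - if u = p then 1 else 0) + 1 = 2 * m := by
    have h4 : ∀ u ∈ range m, (2 - if u = p then 1 else 0) + (if u = p then 1 else 0) = 2 := by
      intro u _
      split_ifs <;> omega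
    have h5 := sum_congr rfl h4
    rw [sum_add_distrib, sum_ite_eq' (range m) p, if_pos (mem_range.2 hp)] at h5
    rw [h5]
    simp
    ring
  have := h.card
  omega

/-- the bound for one seed vertex -/
theorem nohub_one (h0 : 0 < α) (h1 : α < 1) (hn01 : P.n0 ≤ P.n1) (hn1 : P.n1 ≤ P.n) {k : ℕ}
    (hk : 3 ≤ k) (hkn : k < P.n0) {B : ℝ}
    (hB : ∀ s' : St (Option I), TreeOn (k-1) s'.E → (∀ x < k-1, s'.col x = none) →
      Rv α P Z (k-1) s' ≤ B)
    {s : St (Option I)} (hs : TreeOn k s.E) (hcol : ∀ x < k, s.col x = none) {p : ℕ} (hp : p < k) :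
    ∑ l ∈ Ico k P.n0, RvA α P Z k (aw P p l) s ≤ (P.β0 / xi ((2:ℝ)^α) P.n0 (k-1)) * B := by
  classical
  have hn : P.n0 ≤ P.n := hn01.trans hn1
  have hξ : 0 ≤ (P.β0 : ℝ) / xi ((2:ℝ)^α) P.n0 (k-1) :=
    div_nonneg (by positivity) (xi_nonneg (by positivity) _ _)
  -- relabel
  obtain ⟨u, hu, hup, hud⟩ := exists_leaf_ne hs.valid hp
  obtain ⟨m, rfl⟩ := Nat.exists_eq_add_of_le' (show 1 ≤ k by omega)
  simp only [Nat.add_sub_cancel] at hB hξ ⊢
  set σ := Equiv.swap u m with hσ
  have hfix : FixGE (m + 1) σ := by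
    intro x hx
    exact Equiv.swap_apply_of_ne_of_ne (by omega) (by omega)
  set s1 := s.perm σ with hs1
  have ht1 : TreeOn (m + 1) s1.E := hs.perm hfix
  have hcol1 : ∀ x < m + 1, s1.col x = none := by
    intro x hx
    rw [hs1, St.perm_col]
    exact hcol _ ((hfix.symm.lt_iff x).2 hx)
  have hd1 : deg s1.E m = 1 := by
    rw [hs1, St.perm_E, deg_permE']
    have : σ.symm m = u := by simp [hσ]
    rw [this, hud]
  have hpσ : σ p < m := by
    by_cases hpm : p = m
    · rw [hpm, hσ, Equiv.swap_apply_right]; omega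
    · rw [hσ, Equiv.swap_apply_of_ne_of_ne (Ne.symm hup) hpm]; omega
  have hsum : ∑ l ∈ Ico (m + 1) P.n0, RvA α P Z (m + 1) (aw P p l) s =
      ∑ l ∈ Ico (m + 1) P.n0, RvA α P Z (m + 1) (aw P (σ p) l) s1 := by
    apply sum_congr rfl
    intro l hl
    have hl' := mem_Ico.1 hl
    have h2 := RvA_aw_perm (α := α) (Z := Z) hn01 hn1 (by omega : m + 1 ≤ P.n0) hfix p l s
    rw [hfix l hl'.1] at h2
    exact h2.symm
  rw [hsum]
  obtain ⟨v, hv, E', hE', he, _⟩ := ht1.remove_last (by omega) hd1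
  set s' : St (Option I) := ⟨E', s1.col⟩ with hs'
  have hstep : s1 = s'.step m v none := by
    ext x
    · rw [St.step_E, ← he]
    · rw [St.step_col]
      show s1.col x = _ ↔ _
      have : Function.update s1.col m none = s1.col := by
        conv_lhs => rw [← hcol1 m (by omega)]
        exact Function.update_eq_self m s1.col
      rw [show s'.col = s1.col from rfl, this]
  have hcol' : ∀ x < m, s'.col x = none := fun x hx => hcol1 x (by omega)
  have hB' := hB s' hE' hcol'
  have hsum' := itr_eq_sum_le (α := α) (Z := Z) hn01 hn1 (by omega : 2 ≤ m) (by omega) hE' hpσ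
    (Ico m P.n0) (s := s')
  by_cases hβ : m ≤ P.β0
  · have key := delay_nohub (Z := Z) h0 h1 hn01 hn1 (by omega : 1 ≤ m) (by omega) hβ hpσ hE' hcol'
    have h3 : ∑ l ∈ Ico (m + 1) P.n0, RvA α P Z (m + 1) (aw P (σ p) l) s1 ≤
        ∑ v ∈ range m, ∑ l ∈ Ico (m + 1) P.n0,
          RvA α P Z (m + 1) (aw P (σ p) l) (s'.step m v none) := by
      rw [hstep]
      exact single_le_sum (f := fun v => ∑ l ∈ Ico (m + 1) P.n0,
        RvA α P Z (m + 1) (aw P (σ p) l) (s'.step m v none))
        (fun _ _ => sum_nonneg fun _ _ => RvA_nonneg _ _ _) (mem_range.2 hv)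
    refine h3.trans (key.trans ?_)
    exact mul_le_mul_of_nonneg_left (hsum'.trans hB') hξ
  · rw [sum_eq_zero]
    · exact mul_nonneg hξ ((Rv_nonneg _ _).trans hB')
    · intro l hl
      exact RvA_aw_large hn (by omega) (by omega) (by omega) (mem_Ico.1 hl).1 ht1

/-- **seeds without a hub** -/
theorem nohub_bound (h0 : 0 < α) (h1 : α < 1) (hn01 : P.n0 ≤ P.n1) (hn1 : P.n1 ≤ P.n) {k : ℕ}
    (hk : 3 ≤ k) (hkn : k < P.n0) {B : ℝ}
    (hB : ∀ s' : St (Option I), TreeOn (k-1) s'.E → (∀ x < k-1, s'.col x = none) →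
      Rv α P Z (k-1) s' ≤ B)
    {s : St (Option I)} (hs : TreeOn k s.E) (hn : ∀ x < k, s.col x = none) :
    Rv α P Z k s ≤ k * (P.β0 / xi ((2:ℝ)^α) P.n0 (k-1)) * B +
      RvA α P Z k (fun s' => ¬ good0 P s') s := by
  rw [RvA_split (good0 P) k s]
  apply add_le_add _ le_rfl
  refine (good0_split (hn01.trans hn1) hkn hs hn).trans ?_
  have h2 : ∀ p ∈ range k, ∑ l ∈ Ico k P.n0, RvA α P Z k (aw P p l) s ≤
      (P.β0 / xi ((2:ℝ)^α) P.n0 (k-1)) * B := fun p hp =>
    nohub_one h0 h1 hn01 hn1 hk hkn hB hs hn (mem_range.1 hp)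
  refine (sum_le_card_nsmul _ _ _ h2).trans (le_of_eq ?_)
  rw [card_range, nsmul_eq_mul]
  ring

end

/-- **N** -/
theorem noHubProp {α : ℝ} (h0 : 0 < α) (h1 : α < 1) : NoHubProp α := by
  intro j Z P _ hn01 hn1 k hk hkn B hB s hs hn
  exact nohub_bound h0 h1 hn01 hn1 hk hkn hB hs hn

/-- **the separation property** -/
theorem sepProp {α : ℝ} (h0 : 0 < α) (h1 : α < 1) : SepProp α :=
  sepProp_of_noHub h0 h1 (noHubProp h0 h1)

end SeedPA
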