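import Pool.Agent.SeedPA.CanonStep

/-!
# Assembly, part 1: chains of steps between canonical states
-/

open Finset

namespace SeedPA

variable {I : Type*} [Fintype I]

/-- one-step comparison inequalities for fixed parameters -/
structure Ineqs (α : ℝ) (P : Par I) (Z : SimpleGraph I) (K : ℕ) (q : I → ℕ) (b T : ℝ) : Prop where
  hP : P.n1 ≤ P.n
  hK : K + 1 ≤ P.n1
  b1 : 1 ≤ b
  T0 : 0 ≤ T
  JL : ∀ m, 2 ≤ m → m ≤ K → ∀ s : St (Option I), TreeOn m s.E → Clean m s → ∀ y < m, ∀ i,
    s.col y = some i →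
    Rv α P Z m s ≤ b ^ (4 * q i + 1) * Rv α P Z (m + 1) (s.step m y none) + T
  JH : ∀ m, 2 ≤ m → m ≤ K → ∀ s : St (Option I), TreeOn m s.E → Clean m s → ∀ y < m, ∀ i i',
    s.col y = some i' → Z.Adj i' i → (∀ x < m, s.col x ≠ some i) →
    Rv α P Z m s ≤ b ^ (4 * q i + 1) * Rv α P Z (m + 1) (s.step m y (some i)) + T

section
variable {α : ℝ} {P : Par I} {Z : SimpleGraph I} {K : ℕ} {q : I → ℕ} {b T : ℝ}

/-- combining one step with a chain -/
theorem chain_arith {B T R0 R1 R2 : ℝ} {N : ℕ} (hB : 1 ≤ B) (hT : 0 ≤ T)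
    (h1 : R0 ≤ B * R1 + T) (h2 : R1 ≤ B ^ N * R2 + N * B ^ N * T) :
    R0 ≤ B ^ (N + 1) * R2 + (N + 1 : ℕ) * B ^ (N + 1) * T := by
  have h3 : B * R1 ≤ B * (B ^ N * R2 + N * B ^ N * T) := mul_le_mul_of_nonneg_left h2 (by linarith)
  have h4 : (1:ℝ) ≤ B ^ (N + 1) := one_le_pow₀ hB
  have h5 : T ≤ B ^ (N + 1) * T := le_mul_of_one_le_left hT h4
  push_cast
  have e : B * (B ^ N * R2 + N * B ^ N * T) = B ^ (N + 1) * R2 + N * B ^ (N + 1) * T := by
    rw [pow_succ]; ring
  rw [e] at h3
  linarith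

theorem sum_sub_single [DecidableEq I] {a : I → ℕ} {N : ℕ} (ha : ∑ i, a i = N + 1) {i : I}
    (hi : 1 ≤ a i) : ∑ j, (a j - if j = i then 1 else 0) = N := by
  have h1 : ∑ j, (a j - if j = i then 1 else 0) + ∑ j, (if j = i then 1 else 0) = ∑ j, a j := by
    rw [← sum_add_distrib]
    apply sum_congr rfl
    intro j _
    split_ifs with h
    · subst h; omega
    · omega
  rw [ha, sum_ite_eq' univ i (fun _ => 1), if_pos (mem_univ i)] at h1
  omega

/-- adding leaves, upper comparison -/
theorem chain_up (H : Ineqs α P Z K q b T) {g : ℕ} :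
    ∀ (N m : ℕ) (s : St (Option I)) (l a : I → ℕ), Canon Z m s l → ∑ i, a i = N → m + N ≤ K + 1 →
      (∀ i, a i ≠ 0 → 4 * q i + 1 ≤ g) →
      ∃ s' : St (Option I), Canon Z (m + N) s' (fun i => l i + a i) ∧
        Rv α P Z m s ≤ (b ^ g) ^ N * Rv α P Z (m + N) s' + N * (b ^ g) ^ N * T := by
  classical
  intro N
  induction N with
  | zero =>
    intro m s l a hC ha hm hg
    have h0 : ∀ i, a i = 0 := by
      intro i
      exact (sum_eq_zero_iff.1 ha) i (mem_univ i)
    refine ⟨s, ?_, by simp⟩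
    have : (fun i => l i + a i) = l := by
      funext i; rw [h0 i, add_zero]
    rw [this, add_zero]
    exact hC
  | succ N ih =>
    intro m s l a hC ha hm hg
    obtain ⟨i, hi⟩ : ∃ i, 1 ≤ a i := by
      by_contra hc
      push Not at hc
      have : ∑ i, a i = 0 := sum_eq_zero fun i _ => by have := hc i; omega
      omega
    obtain ⟨y, hy, hyc⟩ := hC.all i
    have hC1 := hC.step hy hyc
    obtain ⟨s', hC', hR⟩ := ih (m + 1) (s.step m y none) _ (fun j => a j - if j = i then 1 else 0)
      hC1 (sum_sub_single ha hi) (by omega) (by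
        intro j hj
        apply hg
        intro h0
        rw [h0] at hj
        simp at hj)
    rw [show m + 1 + N = m + (N + 1) by omega] at hC' hR
    refine ⟨s', ?_, ?_⟩
    · have e : (fun j => l j + a j) = (fun j => (l j + if j = i then 1 else 0) +
          (a j - if j = i then 1 else 0)) := by
        funext j
        split_ifs with h
        · subst h; omega
        · omega
      rw [e]
      exact hC'
    · have hm2 := hC.tree.two_le
      have h1 := H.JL m hm2 (by omega) s hC.tree hC.clean y hy i hyc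
      have hbg : b ^ (4 * q i + 1) ≤ b ^ g := pow_le_pow_right₀ H.b1 (hg i (by omega))
      have h2 : Rv α P Z m s ≤ b ^ g * Rv α P Z (m + 1) (s.step m y none) + T :=
        h1.trans (add_le_add (mul_le_mul_of_nonneg_right hbg (Rv_nonneg _ _)) le_rfl)
      exact chain_arith (one_le_pow₀ H.b1) H.T0 h2 hR

/-- a leaf step loses at most a factor `2 K` -/
theorem step_down (h0 : 0 < α) (h1 : α < 1) {m : ℕ} (hm : 1 ≤ m) (hmn : m < P.n)
    {s : St (Option I)} (hs : Valid m s.E) {v : ℕ} (hv : v < m) {c : Option I}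
    (hok : okStep Z m s v c) :
    Rv α P Z (m + 1) (s.step m v c) ≤ 2 * m * Rv α P Z m s := by
  refine (Rv_step_le h0 hm hmn hs hv hok).trans ?_
  apply mul_le_mul_of_nonneg_right _ (Rv_nonneg _ _)
  refine (hs.W_le h0 h1).trans ?_
  apply mul_le_mul_of_nonneg_right _ (by positivity)
  calc (2:ℝ) ^ α ≤ 2 ^ (1:ℝ) := Real.rpow_le_rpow_of_exponent_le (by norm_num) h1.le
    _ = 2 := by norm_num

/-- adding leaves, lower comparison -/
theorem chain_down (h0 : 0 < α) (h1 : α < 1) :
    ∀ (N m : ℕ) (s : St (Option I)) (l a : I → ℕ), Canon Z m s l → ∑ i, a i = N →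
      m + N ≤ K + 1 → K + 1 ≤ P.n →
      ∃ s' : St (Option I), Canon Z (m + N) s' (fun i => l i + a i) ∧
        Rv α P Z (m + N) s' ≤ (2 * (K + 1 : ℕ)) ^ N * Rv α P Z m s := by
  classical
  intro N
  induction N with
  | zero =>
    intro m s l a hC ha hm hKn
    have h0 : ∀ i, a i = 0 := by
      intro i
      exact (sum_eq_zero_iff.1 ha) i (mem_univ i)
    refine ⟨s, ?_, by simp⟩
    have : (fun i => l i + a i) = l := by
      funext i; rw [h0 i, add_zero]
    rw [this, add_zero]
    exact hC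
  | succ N ih =>
    intro m s l a hC ha hm hKn
    obtain ⟨i, hi⟩ : ∃ i, 1 ≤ a i := by
      by_contra hc
      push Not at hc
      have : ∑ i, a i = 0 := sum_eq_zero fun i _ => by have := hc i; omega
      omega
    obtain ⟨y, hy, hyc⟩ := hC.all i
    have hC1 := hC.step hy hyc
    obtain ⟨s', hC', hR⟩ := ih (m + 1) (s.step m y none) _ (fun j => a j - if j = i then 1 else 0)
      hC1 (sum_sub_single ha hi) (by omega) hKn
    rw [show m + 1 + N = m + (N + 1) by omega] at hC' hR
    refine ⟨s', ?_, ?_⟩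
    · have e : (fun j => l j + a j) = (fun j => (l j + if j = i then 1 else 0) +
          (a j - if j = i then 1 else 0)) := by
        funext j
        split_ifs with h
        · subst h; omega
        · omega
      rw [e]
      exact hC'
    · have hm2 := hC.tree.two_le
      have h2 := step_down (P := P) (Z := Z) h0 h1 (m := m) (by omega) (by omega) hC.tree.valid hy
        (c := none) (s := s) trivial
      refine hR.trans ?_
      have h3 : (m:ℝ) ≤ (K + 1 : ℕ) := by exact_mod_cast (by omega : m ≤ K + 1)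
      have h4 := Rv_nonneg (α := α) (P := P) (Z := Z) m s
      calc (2 * ((K + 1 : ℕ) : ℝ)) ^ N * Rv α P Z (m + 1) (s.step m y none)
          ≤ (2 * ((K + 1 : ℕ) : ℝ)) ^ N * (2 * m * Rv α P Z m s) :=
            mul_le_mul_of_nonneg_left h2 (by positivity)
        _ ≤ (2 * ((K + 1 : ℕ) : ℝ)) ^ N * (2 * (K + 1 : ℕ) * Rv α P Z m s) := by
            apply mul_le_mul_of_nonneg_left _ (by positivity)
            apply mul_le_mul_of_nonneg_right _ h4
            linarith
        _ = _ := by rw [pow_succ]; ring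

/-- comparison of two canonical states -/
theorem canon_compare (H : Ineqs α P Z K q b T) (h0 : 0 < α) (h1 : α < 1) {g m k : ℕ}
    {s s1 : St (Option I)} {l l1 a a1 : I → ℕ} (hC : Canon Z m s l) (hC1 : Canon Z k s1 l1)
    (hla : ∀ i, l i + a i = l1 i + a1 i) (hg : ∀ i, a i ≠ 0 → 4 * q i + 1 ≤ g)
    (hK : m + ∑ i, a i ≤ K + 1) :
    Rv α P Z m s ≤ (b ^ g) ^ (∑ i, a i) * ((2 * (K + 1 : ℕ)) ^ (∑ i, a1 i) * Rv α P Z k s1) +
      (∑ i, a i : ℕ) * (b ^ g) ^ (∑ i, a i) * T := by
  obtain ⟨s', hC', hR⟩ := chain_up H (g := g) _ m s l a hC rfl hK hg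
  have hsum : ∑ i, l i + ∑ i, a i = ∑ i, l1 i + ∑ i, a1 i := by
    rw [← sum_add_distrib, ← sum_add_distrib]
    exact sum_congr rfl fun i _ => hla i
  have e1 := hC.card_eq
  have e2 := hC1.card_eq
  obtain ⟨s1', hC1', hR1⟩ := chain_down (K := K) (P := P) (α := α) h0 h1 _ k s1 l1 a1 hC1 rfl
    (by omega) (by have := H.hP; have := H.hK; omega)
  have e : (fun i => l i + a i) = (fun i => l1 i + a1 i) := funext hla
  rw [e] at hC'
  have h2 := hC'.Rv_eq (α := α) H.hP hC1' (by have := H.hK; omega)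
  rw [h2] at hR
  refine hR.trans (add_le_add (mul_le_mul_of_nonneg_left hR1 ?_) le_rfl)
  have := H.b1
  positivity

open Classical in
/-- missing colours -/
noncomputable def missing (m : ℕ) (s : St (Option I)) : Finset I :=
  univ.filter (fun i => ∀ x < m, s.col x ≠ some i)

theorem mem_missing {m : ℕ} {s : St (Option I)} {i : I} :
    i ∈ missing m s ↔ ∀ x < m, s.col x ≠ some i := by
  classical
  simp [missing]

theorem missing_step {m y : ℕ} {s : St (Option I)} {i : I} (hi : i ∈ missing m s) :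
    (missing (m + 1) (s.step m y (some i))).card + 1 = (missing m s).card := by
  classical
  have h1 : missing (m + 1) (s.step m y (some i)) = (missing m s).erase i := by
    ext j
    rw [mem_erase, mem_missing, mem_missing]
    constructor
    · intro h
      refine ⟨?_, ?_⟩
      · rintro rfl
        exact h m (by omega) (by rw [St.step_col_self])
      · intro x hx
        have := h x (by omega)
        rwa [St.step_col_of_ne _ _ _ _ (by omega)] at this
    · rintro ⟨hne, h⟩ x hx
      by_cases hxm : x = m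
      · rw [hxm, St.step_col_self]
        intro hh
        exact hne (Option.some.inj hh).symm
      · rw [St.step_col_of_ne _ _ _ _ hxm]
        exact h x (by omega)
  rw [h1]
  exact card_erase_add_one hi

/-- adding the missing hubs -/
theorem chain_hub (hZ : Z.IsTree) (H : Ineqs α P Z K q b T) {g : ℕ} (hg : ∀ i, 4 * q i + 1 ≤ g) :
    ∀ (N m : ℕ) (s : St (Option I)), (missing m s).card = N → TreeOn m s.E → Clean m s →
      Cons Z m s → m + N ≤ K + 1 →
      ∃ (s' : St (Option I)) (l : I → ℕ), Canon Z (m + N) s' l ∧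
        Rv α P Z m s ≤ (b ^ g) ^ N * Rv α P Z (m + N) s' + N * (b ^ g) ^ N * T := by
  classical
  intro N
  induction N with
  | zero =>
    intro m s hN hs hcl hcons hm
    refine ⟨s, leafs m s, ⟨hs, hcl, hcons, ?_, fun _ => rfl⟩, by simp⟩
    intro i
    by_contra hc
    push Not at hc
    have : i ∈ missing m s := mem_missing.2 hc
    rw [card_eq_zero.1 hN] at this
    simp at this
  | succ N ih =>
    intro m s hN hs hcl hcons hm
    obtain ⟨j, hj⟩ : (missing m s).Nonempty := card_pos.1 (by omega)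
    obtain ⟨i, y, i', hi, hy, hyc, hadj⟩ := exists_missing hZ.connected hcl.1 (mem_missing.1 hj)
    have hcard := missing_step (y := y) (mem_missing.2 hi)
    obtain ⟨s', l, hC', hR⟩ := ih (m + 1) (s.step m y (some i)) (by omega) (hs.step hy)
      (hcl.step hs.valid hy (by rw [hyc]; simp)) (hcons.step_some hZ hs.valid hy hi hyc hadj)
      (by omega)
    rw [show m + 1 + N = m + (N + 1) by omega] at hC' hR
    refine ⟨s', l, hC', ?_⟩
    have h1 := H.JH m hs.two_le (by omega) s hs hcl y hy i i' hyc hadj hi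
    have hbg : b ^ (4 * q i + 1) ≤ b ^ g := pow_le_pow_right₀ H.b1 (hg i)
    have h2 : Rv α P Z m s ≤ b ^ g * Rv α P Z (m + 1) (s.step m y (some i)) + T :=
      h1.trans (add_le_add (mul_le_mul_of_nonneg_right hbg (Rv_nonneg _ _)) le_rfl)
    exact chain_arith (one_le_pow₀ H.b1) H.T0 h2 hR

/-- **(c)** every clean consistent state at level `k` is bounded by the reference state -/
theorem clean_compare (hZ : Z.IsTree) (H : Ineqs α P Z K q b T) (h0 : 0 < α) (h1 : α < 1)
    {g k : ℕ} (hg : ∀ i, 4 * q i + 1 ≤ g) (hK : 3 * k ≤ K + 1) {s s1 : St (Option I)}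
    {l1 : I → ℕ} (hs : TreeOn k s.E) (hcl : Clean k s) (hcons : Cons Z k s)
    (hC1 : Canon Z k s1 l1) :
    Rv α P Z k s ≤ (b ^ g) ^ k * ((2 * (K + 1 : ℕ)) ^ (2 * k) * Rv α P Z k s1) +
      k * (b ^ g) ^ k * T := by
  classical
  have hmiss : (missing k s).card ≤ Fintype.card I := by
    unfold missing
    exact (card_filter_le _ _).trans (by rw [card_univ])
  have e1 := hC1.card_eq
  set h := (missing k s).card with hh
  set j := Fintype.card I with hj
  obtain ⟨s2, l2, hC2, hR2⟩ := chain_hub hZ H hg h k s rfl hs hcl hcons (by omega)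
  have e2 := hC2.card_eq
  have hR3 := canon_compare H h0 h1 (g := g) (a := l1) (a1 := l2) hC2 hC1 (fun i => add_comm _ _)
    (fun i _ => hg i) (by omega)
  have hB : (1:ℝ) ≤ b ^ g := one_le_pow₀ H.b1
  have hB0 : (0:ℝ) ≤ b ^ g := by linarith
  have hsum1 : ∑ i, l1 i + j = k := by omega
  set N := ∑ i, l1 i with hN
  have hV := Rv_nonneg (α := α) (P := P) (Z := Z) k s1
  have h2K : (1:ℝ) ≤ 2 * (K + 1 : ℕ) := by push_cast; have : (0:ℝ) ≤ K := by positivity
                                           linarith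
  have hpow : (2 * ((K + 1 : ℕ):ℝ)) ^ (∑ i, l2 i) ≤ (2 * ((K + 1 : ℕ):ℝ)) ^ (2 * k) :=
    pow_le_pow_right₀ h2K (by omega)
  have hBpow : (b ^ g) ^ (h + N) ≤ (b ^ g) ^ k := pow_le_pow_right₀ hB (by omega)
  have hT := H.T0
  calc Rv α P Z k s ≤ (b ^ g) ^ h * Rv α P Z (k + h) s2 + h * (b ^ g) ^ h * T := hR2
    _ ≤ (b ^ g) ^ h * ((b ^ g) ^ N * ((2 * ((K + 1 : ℕ):ℝ)) ^ (∑ i, l2 i) * Rv α P Z k s1) +
        N * (b ^ g) ^ N * T) + h * (b ^ g) ^ h * T :=
        add_le_add (mul_le_mul_of_nonneg_left hR3 (by positivity)) le_rfl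
    _ ≤ (b ^ g) ^ h * ((b ^ g) ^ N * ((2 * ((K + 1 : ℕ):ℝ)) ^ (2 * k) * Rv α P Z k s1) +
        N * (b ^ g) ^ N * T) + h * (b ^ g) ^ (h + N) * T := by
        apply add_le_add
        · apply mul_le_mul_of_nonneg_left _ (by positivity)
          apply add_le_add _ le_rfl
          apply mul_le_mul_of_nonneg_left _ (by positivity)
          exact mul_le_mul_of_nonneg_right hpow hV
        · apply mul_le_mul_of_nonneg_right _ hT
          apply mul_le_mul_of_nonneg_left _ (by positivity)
          exact pow_le_pow_right₀ hB (by omega)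
    _ = (b ^ g) ^ (h + N) * ((2 * ((K + 1 : ℕ):ℝ)) ^ (2 * k) * Rv α P Z k s1) +
        ((h + N : ℕ) : ℝ) * (b ^ g) ^ (h + N) * T := by
        rw [pow_add]; push_cast; ring
    _ ≤ (b ^ g) ^ k * ((2 * (K + 1 : ℕ)) ^ (2 * k) * Rv α P Z k s1) + k * (b ^ g) ^ k * T := by
        apply add_le_add
        · exact mul_le_mul_of_nonneg_right hBpow (by positivity)
        · apply mul_le_mul_of_nonneg_right _ hT
          apply mul_le_mul _ hBpow (by positivity) (by positivity)
          exact_mod_cast (by omega : h + N ≤ k)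

end

end SeedPA
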