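import Pool.Agent.SeedPA.Canon
import Pool.Agent.SeedPA.Clean

/-!
# Junk states with a hub (CAN7)
-/

open Finset Relation

namespace SeedPA

variable {I : Type*}

section deg
variable {m x : ℕ} {E : ESet} {nh : ℕ → Prop}

/-- the sum of the degrees over a component, sharper form -/
theorem sum_deg_compSet_add (hE : TreeOn m E) :
    ∑ v ∈ compSet m E nh x, deg E v + (eIn (fun y => ¬ nh y) E).card ≤
      (eIn (fun y => y ∈ compSet m E nh x) E).card +
        (eIn (fun y => y ∈ compSet m E nh x ∨ ¬ nh y) E).card := by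
  classical
  set B := compSet m E nh x with hB
  have hBn : ∀ y ∈ B, nh y := fun y hy => (mem_compSet.1 hy).2.1
  have h1 : ∑ v ∈ B, deg E v = ∑ e ∈ E, (B.filter (fun v => v ∈ e)).card := by
    unfold deg
    simp_rw [card_filter]
    rw [sum_comm]
  have e2 : (eIn (fun y => ¬ nh y) E).card = ∑ e ∈ E, (if ∀ x ∈ e, ¬ nh x then 1 else 0) := by
    unfold eIn
    rw [card_filter]
  have e3 : (eIn (fun y => y ∈ B) E).card + (eIn (fun y => y ∈ B ∨ ¬ nh y) E).card =
      ∑ e ∈ E, ((if ∀ x ∈ e, x ∈ B then 1 else 0) + (if ∀ x ∈ e, (x ∈ B ∨ ¬ nh x) then 1 else 0)) := by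
    rw [sum_add_distrib]
    unfold eIn
    rw [card_filter, card_filter]
  rw [h1, e2, e3, ← sum_add_distrib]
  apply sum_le_sum
  intro e he
  induction e using Sym2.ind with
  | _ a b =>
    have hab : a ≠ b := by
      rintro rfl
      exact hE.valid.irrefl _ he
    have ha : a < m := hE.valid.lt _ he a (by simp)
    have hb : b < m := hE.valid.lt _ he b (by simp)
    have hsub : B.filter (fun v => v ∈ s(a, b)) ⊆ {a, b} := by
      intro y hy
      have := (mem_filter.1 hy).2
      simpa [Sym2.mem_iff] using this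
    have hall : ∀ q : ℕ → Prop, (∀ x ∈ s(a, b), q x) ↔ q a ∧ q b := by
      intro q
      simp [Sym2.mem_iff]
    simp only [hall]
    by_cases haB : a ∈ B
    · have hna := hBn a haB
      by_cases hbB : b ∈ B
      · have h5 := card_le_card hsub
        rw [card_pair hab] at h5
        generalize (B.filter (fun v => v ∈ s(a, b))).card = q at h5 ⊢
        simp [haB, hbB, hna]
        omega
      · have hnb : ¬ nh b := by
          intro hnb
          apply hbB
          have := mem_compSet.1 haB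
          exact mem_compSet.2 ⟨hb, hnb, ReflTransGen.tail this.2.2 ⟨he, this.2.1, hnb⟩⟩
        have : B.filter (fun v => v ∈ s(a, b)) ⊆ {a} := by
          intro y hy
          have h5 := hsub hy
          rw [mem_insert, mem_singleton] at h5
          rcases h5 with rfl | rfl
          · simp
          · exact absurd (mem_filter.1 hy).1 hbB
        have h5 := card_le_card this
        rw [card_singleton] at h5
        generalize (B.filter (fun v => v ∈ s(a, b))).card = q at h5 ⊢
        simp [haB, hbB, hna, hnb]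
        omega
    · by_cases hbB : b ∈ B
      · have hnb := hBn b hbB
        have hna : ¬ nh a := by
          intro hna
          apply haB
          have := mem_compSet.1 hbB
          exact mem_compSet.2 ⟨ha, hna, ReflTransGen.tail this.2.2
            ⟨by rw [Sym2.eq_swap]; exact he, this.2.1, hna⟩⟩
        have : B.filter (fun v => v ∈ s(a, b)) ⊆ {b} := by
          intro y hy
          have h5 := hsub hy
          rw [mem_insert, mem_singleton] at h5
          rcases h5 with rfl | rfl
          · exact absurd (mem_filter.1 hy).1 haB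
          · simp
        have h5 := card_le_card this
        rw [card_singleton] at h5
        generalize (B.filter (fun v => v ∈ s(a, b))).card = q at h5 ⊢
        simp [haB, hbB, hna, hnb]
        omega
      · have : B.filter (fun v => v ∈ s(a, b)) = ∅ := by
          rw [filter_eq_empty_iff]
          intro z hz hc
          rcases Sym2.mem_iff.1 hc with rfl | rfl
          · exact haB hz
          · exact hbB hz
        rw [this]
        by_cases hna : nh a <;> by_cases hnb : nh b <;> simp [haB, hbB, hna, hnb]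

/-- in a tree whose hubs are connected, a component of non-hubs with at least two vertices contains
a vertex of degree one whose neighbour lies in the component -/
theorem exists_leaf_in_comp (hE : TreeOn m E) (hx : x < m) (hn : nh x)
    (hub : ∃ z < m, ¬ nh z)
    (hconn : ∀ a < m, ∀ b < m, ¬ nh a → ¬ nh b → Conn E (fun z => ¬ nh z) a b)
    {x' : ℕ} (hx' : nh x') (he : s(x, x') ∈ E) :
    ∃ u < m, nh u ∧ deg E u = 1 ∧ ∀ w, s(w, u) ∈ E → nh w := by
  classical
  have hm := hE.two_le
  set B := compSet m E nh x with hB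
  have hxB : x ∈ B := self_mem_compSet hx hn
  have hx'm : x' < m := hE.valid.lt _ he x' (by simp)
  have h0 := sum_deg_compSet_add (x := x) (nh := nh) hE
  rw [← hB] at h0
  have h1 : (eIn (fun y => y ∈ B) E).card + 1 ≤ (vIn m (fun y => y ∈ B)).card :=
    hE.card_eIn_lt hm _ ⟨x, hx, hxB⟩
  have h2 : (eIn (fun y => y ∈ B ∨ ¬ nh y) E).card + 1 ≤ (vIn m (fun y => y ∈ B ∨ ¬ nh y)).card :=
    hE.card_eIn_lt hm _ ⟨x, hx, Or.inl hxB⟩
  have h3 : (vIn m (fun y => ¬ nh y)).card ≤ (eIn (fun y => ¬ nh y) E).card + 1 :=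
    hE.card_vIn_le hm _ hconn
  have e1 : (vIn m (fun y => y ∈ B)).card = B.card := by
    congr 1
    ext y
    rw [mem_vIn]
    constructor
    · exact fun h => h.2
    · exact fun h => ⟨(mem_compSet.1 h).1, h⟩
  have e2 : (vIn m (fun y => y ∈ B ∨ ¬ nh y)).card ≤ B.card + (vIn m (fun y => ¬ nh y)).card := by
    refine le_trans (card_le_card ?_) (card_union_le _ _)
    intro y hy
    rw [mem_vIn] at hy
    rw [mem_union, mem_vIn]
    tauto
  have hsum : ∑ v ∈ B, deg E v + 1 ≤ 2 * B.card := by omega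
  obtain ⟨u, huB, hud⟩ : ∃ u ∈ B, deg E u ≤ 1 := by
    by_contra hc
    push Not at hc
    have : ∑ v ∈ B, 2 ≤ ∑ v ∈ B, deg E v := sum_le_sum fun v hv => hc v hv
    rw [sum_const, smul_eq_mul] at this
    omega
  have hu := mem_compSet.1 huB
  have hd1 : deg E u = 1 := by
    have := hE.valid.pos u hu.1
    omega
  refine ⟨u, hu.1, hu.2.1, hd1, ?_⟩
  -- the neighbour of `u` in the component
  obtain ⟨w0, hw0, hw0n⟩ : ∃ w0, s(u, w0) ∈ E ∧ nh w0 := by
    rcases ReflTransGen.cases_head hu.2.2.symm with h | ⟨w, hw, _⟩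
    · rw [h]; exact ⟨x', he, hx'⟩
    · exact ⟨w, hw.1, hw.2.2⟩
  intro w hw
  rw [Sym2.eq_swap] at hw
  unfold deg at hd1
  obtain ⟨ed, hed⟩ := card_eq_one.1 hd1
  have c1 : s(u, w) ∈ ({ed} : Finset (Sym2 ℕ)) := by
    rw [← hed, mem_filter]; exact ⟨hw, by simp⟩
  have c2 : s(u, w0) ∈ ({ed} : Finset (Sym2 ℕ)) := by
    rw [← hed, mem_filter]; exact ⟨hw0, by simp⟩
  rw [mem_singleton] at c1 c2
  have h3 := c1.trans c2.symm
  rw [Sym2.eq_iff] at h3
  rcases h3 with ⟨_, h3⟩ | ⟨h3, h4⟩
  · rw [h3]; exact hw0n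
  · rw [h4]; exact hu.2.1

end deg

section junk
variable [Fintype I] {α : ℝ} {P : Par I} {Z : SimpleGraph I}

theorem thA_good0_TInv (hn01 : P.n0 ≤ P.n1) (hP : P.n1 ≤ P.n) :
    TInv P.n0 (thA α P Z (fun s => ¬ good0 P s)) := by
  intro σ hσ s
  unfold thA
  rw [Theta_TInv hP Z σ (hσ.mono hn01) s]
  have := good0_perm (P := P) (s := s) hσ
  by_cases h : good0 P s
  · rw [if_neg (fun h' => h' (this.2 h)), if_neg (fun h' => h' h)]
  · rw [if_pos (fun h' => h (this.1 h')), if_pos h]

theorem RvA_good0_TInv (hn01 : P.n0 ≤ P.n1) (hP : P.n1 ≤ P.n) {m : ℕ} (hm : m ≤ P.n0) :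
    TInv m (RvA α P Z m (fun s => ¬ good0 P s)) := by
  intro σ hσ s
  rw [RvA_def, RvA_def]
  exact itr_TInv (fun m => (okStep_PInv Z).gInv m) hm (thA_good0_TInv hn01 hP) σ hσ s

omit [Fintype I] in
/-- removal of a leaf which is attached to a non-hub -/
theorem exists_remove {k : ℕ} (hk : 3 ≤ k) {s : St (Option I)} (hs : TreeOn k s.E) {u : ℕ}
    (hu : u < k) (hun : s.col u = none) (hd : deg s.E u = 1)
    (hnb : ∀ w, s(w, u) ∈ s.E → s.col w = none) :
    ∃ (s' : St (Option I)) (v : ℕ) (σ : Equiv.Perm ℕ), v < k - 1 ∧ s'.col v = none ∧ FixGE k σ ∧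
      TreeOn (k - 1) s'.E ∧ s.perm σ = s'.step (k - 1) v none := by
  set σ := Equiv.swap u (k - 1) with hσ
  have hfix : FixGE k σ := by
    intro z hz
    exact Equiv.swap_apply_of_ne_of_ne (by omega) (by omega)
  have hT : TreeOn (k - 1 + 1) (s.perm σ).E := by
    rw [show k - 1 + 1 = k by omega]; exact hs.perm hfix
  have hσm : σ.symm (k - 1) = u := by simp [hσ]
  have hσu : σ u = k - 1 := by simp [hσ]
  have hcolm : (s.perm σ).col (k - 1) = none := by
    rw [St.perm_col, hσm]; exact hun
  have hdm : deg (s.perm σ).E (k - 1) = 1 := by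
    rw [St.perm_E, deg_permE', hσm]; exact hd
  obtain ⟨v, hv, E', hE', hins, hnot⟩ := hT.remove_last (by omega) hdm
  have hstep : s.perm σ = St.step ⟨E', (s.perm σ).col⟩ (k - 1) v none := by
    apply St.ext
    · rw [St.step_E]; exact hins
    · rw [St.step_col]
      funext z
      by_cases hz : z = k - 1
      · rw [hz, Function.update_self]; exact hcolm
      · rw [Function.update_of_ne hz]
  refine ⟨⟨E', (s.perm σ).col⟩, v, σ, hv, ?_, hfix, hE', hstep⟩
  show (s.perm σ).col v = none
  rw [St.perm_col]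
  apply hnb
  have h1 : s(v, k - 1) ∈ (s.perm σ).E := by rw [hins]; exact mem_insert_self _ _
  rw [St.perm_E, mem_permE', hσm] at h1
  exact h1

/-- **CAN7** -/
theorem junk_bound (h0 : 0 < α) (h1 : α < 1) (hn01 : P.n0 ≤ P.n1) (hn1 : P.n1 ≤ P.n) {k : ℕ}
    (hk : 3 ≤ k) (hkβ : k ≤ P.β0) (hkn : k < P.n0) {s : St (Option I)} (hs : TreeOn k s.E)
    (hub : HasHub k s)
    (hconn : ∀ x < k, ∀ y < k, hubP s x → hubP s y → Conn s.E (hubP s) x y)
    (hcl : ¬ Clean k s) {B : ℝ}
    (hB : ∀ s' : St (Option I), TreeOn (k - 1) s'.E → Rv α P Z (k - 1) s' ≤ B) :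
    Rv α P Z k s ≤ (P.β0 / xi ((2:ℝ)^α) P.n0 (k - 1)) * B +
      RvA α P Z k (fun s' => ¬ good0 P s') s := by
  classical
  obtain ⟨x, hx, x', hx', he, hxn, hxn'⟩ : ∃ x < k, ∃ x' < k, s(x, x') ∈ s.E ∧ s.col x = none ∧
      s.col x' = none := by
    by_contra hc
    push Not at hc
    apply hcl
    refine ⟨hub, fun a ha b hb he => ?_⟩
    by_cases h : s.col a = none
    · exact Or.inr (hc a ha b hb he h)
    · exact Or.inl h
  obtain ⟨u, hu, hun, hud, hunb⟩ := exists_leaf_in_comp (nh := fun z => s.col z = none) hs hx hxn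
    hub hconn hxn' he
  obtain ⟨s', v, σ, hv, hvn, hσ, hT, hst⟩ := exists_remove hk hs hu hun hud hunb
  rw [RvA_split (good0 P) k s]
  apply add_le_add _ le_rfl
  have hinv : RvA α P Z k (good0 P) s = RvA α P Z k (good0 P) (s'.step (k - 1) v none) := by
    have e1 := RvA_split (α := α) (P := P) (Z := Z) (good0 P) k s
    have e2 := RvA_split (α := α) (P := P) (Z := Z) (good0 P) k (s.perm σ)
    rw [Rv_TInv hn1 (by omega) σ hσ s, RvA_good0_TInv hn01 hn1 hkn.le σ hσ s] at e2
    rw [← hst]
    linarith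
  rw [hinv]
  have hub' : HasHub (k - 1) s' := by
    have h2 : HasHub k (s.perm σ) := (hasHub_perm hσ).2 hub
    obtain ⟨z, hz, hzc⟩ := h2
    rw [hst, St.step_col] at hzc
    have hzk : z ≠ k - 1 := by
      rintro rfl
      rw [Function.update_self] at hzc
      exact hzc rfl
    rw [Function.update_of_ne hzk] at hzc
    exact ⟨z, by omega, hzc⟩
  have hcs : cs (k - 1) s' v ≤ P.β0 := by
    unfold cs csz
    refine (card_filter_le _ _).trans ?_
    rw [card_range]
    omega
  have h3 := nonhub_step_le (Z := Z) h0 h1 hn01 hn1 (m := k - 1) (by omega) (by omega) hT.valid hub'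
    hv hvn hcs
  rw [show k - 1 + 1 = k by omega] at h3
  refine h3.trans ?_
  apply mul_le_mul_of_nonneg_left _ (div_nonneg (by positivity) (xi_nonneg (by positivity) _ _))
  exact (RvA_le_Rv _ _ _).trans (hB s' hT)

end junk

end SeedPA
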