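import Pool.Agent.SeedPA.AsmChain
import Pool.Agent.SeedPA.Junk

/-!
# Assembly, part 2: the maximal value at level `k`
-/

open Finset

namespace SeedPA

variable {I : Type*} [Fintype I]

section
variable {α : ℝ} {P : Par I} {Z : SimpleGraph I} {K : ℕ} {q : I → ℕ} {b T : ℝ}

/-- a state with maximal value -/
theorem exists_max_state (hP : P.n1 ≤ P.n) {k : ℕ} (hk : k ≤ P.n) {E0 : ESet} (hE0 : TreeOn k E0) :
    ∃ s0 : St (Option I), TreeOn k s0.E ∧
      ∀ s : St (Option I), TreeOn k s.E → Rv α P Z k s ≤ Rv α P Z k s0 := by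
  classical
  set 𝓕 := (((range k).sym2.powerset ×ˢ Cols I k).filter (fun z => TreeOn k z.1)) with h𝓕
  have hmem : ∀ E c, TreeOn k E → c ∈ Cols I k → (E, c) ∈ 𝓕 := by
    intro E c hE hc
    rw [h𝓕, mem_filter, mem_product, mem_powerset]
    refine ⟨⟨?_, hc⟩, hE⟩
    intro e he
    rw [mem_sym2_iff]
    intro x hx
    exact mem_range.2 (hE.valid.lt e he x hx)
  have hne : 𝓕.Nonempty := ⟨(E0, fun _ => none), hmem _ _ hE0 (mem_Cols.2 fun _ _ => rfl)⟩
  obtain ⟨z, hz, hmax⟩ := exists_max_image 𝓕 (fun z => Rv α P Z k ⟨z.1, z.2⟩) hne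
  refine ⟨⟨z.1, z.2⟩, (mem_filter.1 hz).2, ?_⟩
  intro s hs
  have h1 : Rv α P Z k s = Rv α P Z k ⟨s.E, truncC k s.col⟩ := by
    apply Rv_loc hP hk _ _ hs.valid
    refine ⟨rfl, fun x hx => ?_⟩
    show s.col x = truncC k s.col x
    unfold truncC
    rw [if_pos hx]
  rw [h1]
  exact hmax (s.E, truncC k s.col) (hmem _ _ hs (mem_Cols.2 fun x hx => by
    unfold truncC; rw [if_neg (by omega)]))

/-- the level below -/
theorem Rv_pred_le (h0 : 0 < α) {m : ℕ} (hm : 1 ≤ m) (hmn : m < P.n) {M : ℝ} (hM0 : 0 ≤ M)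
    (hM : ∀ s : St (Option I), TreeOn (m + 1) s.E → Rv α P Z (m + 1) s ≤ M)
    {s : St (Option I)} (hs : TreeOn m s.E) : Rv α P Z m s ≤ (Fintype.card I + 1 : ℕ) * M := by
  classical
  have h1 := ev_rec (P := P) (Z := Z) h0 hm hmn (f := Theta α P Z) (s := s) hs.valid
  have h2 : ∑ v ∈ range m, ∑ c, (if okStep Z m s v c then
      ev α P Z (m + 1) (Theta α P Z) (s.step m v c) else 0) ≤
      ∑ v ∈ range m, ∑ _c : Option I, M := by
    apply sum_le_sum; intro v hv
    apply sum_le_sum; intro c _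
    split_ifs
    · exact hM _ (hs.step (mem_range.1 hv))
    · exact hM0
  rw [← h1] at h2
  simp only [sum_const, card_range, card_univ, Fintype.card_option, nsmul_eq_mul] at h2
  have h3 := hs.valid.le_W h0
  have hm0 : (0:ℝ) < m := by exact_mod_cast hm
  have h4 : (m:ℝ) * Rv α P Z m s ≤ m * (((Fintype.card I + 1 : ℕ) : ℝ) * M) := by
    refine le_trans ?_ h2
    exact mul_le_mul_of_nonneg_right h3 (Rv_nonneg _ _)
  exact le_of_mul_le_mul_left h4 hm0

/-- every state is clean and consistent, or its value is small -/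
theorem junk_or_clean (hZ : Z.IsTree) (h0 : 0 < α) (h1 : α < 1) (hn01 : P.n0 ≤ P.n1)
    (hn1 : P.n1 ≤ P.n) {k : ℕ} (hk : 3 ≤ k) (hkβ : k ≤ P.β0) (hkn : k < P.n0)
    (hno : ∀ B : ℝ, (∀ s' : St (Option I), TreeOn (k-1) s'.E → (∀ x < k-1, s'.col x = none) →
      Rv α P Z (k-1) s' ≤ B) → ∀ s : St (Option I), TreeOn k s.E → (∀ x < k, s.col x = none) →
      Rv α P Z k s ≤ k * (P.β0 / xi ((2:ℝ)^α) P.n0 (k-1)) * B +
        RvA α P Z k (fun s' => ¬ good0 P s') s)
    {T' : ℝ} (hT0 : ∀ s : St (Option I), TreeOn k s.E → RvA α P Z k (fun s' => ¬ good0 P s') s ≤ T')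
    {B : ℝ} (hB : ∀ s' : St (Option I), TreeOn (k-1) s'.E → Rv α P Z (k-1) s' ≤ B)
    {s : St (Option I)} (hs : TreeOn k s.E) :
    (Clean k s ∧ Cons Z k s) ∨ Rv α P Z k s ≤ k * (P.β0 / xi ((2:ℝ)^α) P.n0 (k-1)) * B + T' := by
  by_cases hR : Rv α P Z k s = 0
  · right
    rw [hR]
    have hxi : 0 ≤ xi ((2:ℝ)^α) P.n0 (k - 1) := xi_nonneg (by positivity) _ _
    obtain ⟨s', hs'⟩ : ∃ s' : St (Option I), TreeOn (k-1) s'.E := by
      obtain ⟨u, hu, hdu⟩ := exists_deg_one hs.valid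
      have hfix : FixGE k (Equiv.swap u (k-1)) := by
        intro z hz
        exact Equiv.swap_apply_of_ne_of_ne (by omega) (by omega)
      have h2 := hs.perm hfix
      have hdm : deg (permE (Equiv.swap u (k-1)) s.E) (k - 1) = 1 := by
        rw [deg_permE']; simpa using hdu
      obtain ⟨v, _, E', hE', _, _⟩ := TreeOn.remove_last (m := k - 1) (by omega)
        (by rw [show k - 1 + 1 = k by omega]; exact h2) hdm
      exact ⟨⟨E', fun _ => none⟩, hE'⟩
    have hB0 : 0 ≤ B := (Rv_nonneg _ _).trans (hB s' hs')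
    have hT' : 0 ≤ T' := (RvA_nonneg _ _ _).trans (hT0 s hs)
    positivity
  · have hcons := cons_of_Rv_ne_zero hn1 hZ (by omega) (by omega) hs hR
    by_cases hub : HasHub k s
    · by_cases hcl : Clean k s
      · exact Or.inl ⟨hcl, hcons⟩
      · right
        have h2 := junk_bound h0 h1 hn01 hn1 hk hkβ hkn hs hub hcons.conn hcl hB
        refine h2.trans (add_le_add ?_ (hT0 s hs))
        have hxi : 0 ≤ xi ((2:ℝ)^α) P.n0 (k - 1) := xi_nonneg (by positivity) _ _
        by_cases hB0 : 0 ≤ B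
        · apply mul_le_mul_of_nonneg_right _ hB0
          have hk1 : (1:ℝ) ≤ k := by exact_mod_cast (by omega : 1 ≤ k)
          exact le_mul_of_one_le_left (by positivity) hk1
        · exfalso
          have h3 := exists_leaf_tree hk hs
          obtain ⟨s', hs'⟩ := h3
          exact hB0 ((Rv_nonneg _ _).trans (hB s' hs'))
    · right
      have hn : ∀ x < k, s.col x = none := by
        intro x hx
        by_contra hc
        exact hub ⟨x, hx, hc⟩
      exact (hno B (fun s' hs' _ => hB s' hs') s hs hn).trans (add_le_add le_rfl (hT0 s hs))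
where
  exists_leaf_tree {k : ℕ} (hk : 3 ≤ k) {s : St (Option I)} (hs : TreeOn k s.E) :
      ∃ s' : St (Option I), TreeOn (k-1) s'.E := by
    obtain ⟨u, hu, hdu⟩ := exists_deg_one hs.valid
    have hfix : FixGE k (Equiv.swap u (k-1)) := by
      intro z hz
      exact Equiv.swap_apply_of_ne_of_ne (by omega) (by omega)
    have h2 := hs.perm hfix
    have hdm : deg (permE (Equiv.swap u (k-1)) s.E) (k - 1) = 1 := by
      rw [deg_permE']; simpa using hdu
    obtain ⟨v, _, E', hE', _, _⟩ := TreeOn.remove_last (m := k - 1) (by omega)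
      (by rw [show k - 1 + 1 = k by omega]; exact h2) hdm
    exact ⟨⟨E', fun _ => none⟩, hE'⟩

/-- **(d)**: the maximal value, and the bound for junk states -/
theorem max_bound (hZ : Z.IsTree) (H : Ineqs α P Z K q b T) (h0 : 0 < α) (h1 : α < 1)
    (hn01 : P.n0 ≤ P.n1) {g k : ℕ} (hg : ∀ i, 4 * q i + 1 ≤ g) (hK : 3 * k ≤ K + 1)
    (hk : 3 ≤ k) (hkβ : k ≤ P.β0) (hkn : k < P.n0)
    (hno : ∀ B : ℝ, (∀ s' : St (Option I), TreeOn (k-1) s'.E → (∀ x < k-1, s'.col x = none) →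
      Rv α P Z (k-1) s' ≤ B) → ∀ s : St (Option I), TreeOn k s.E → (∀ x < k, s.col x = none) →
      Rv α P Z k s ≤ k * (P.β0 / xi ((2:ℝ)^α) P.n0 (k-1)) * B +
        RvA α P Z k (fun s' => ¬ good0 P s') s)
    (hT0 : ∀ s : St (Option I), TreeOn k s.E → RvA α P Z k (fun s' => ¬ good0 P s') s ≤ T)
    {ρ : ℝ} (hρ0 : 0 ≤ ρ) (hρ : P.β0 / xi ((2:ℝ)^α) P.n0 (k-1) ≤ ρ)
    (hρ2 : k * ρ * (Fintype.card I + 1 : ℕ) ≤ 1 / 2)
    {s1 : St (Option I)} {l1 : I → ℕ} (hC1 : Canon Z k s1 l1) {s : St (Option I)}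
    (hs : TreeOn k s.E) :
    (Clean k s ∧ Cons Z k s) ∨
      Rv α P Z k s ≤ (k * ρ * (Fintype.card I + 1 : ℕ)) *
        ((b ^ g) ^ k * ((2 * (K + 1 : ℕ)) ^ (2 * k) * Rv α P Z k s1) + (k * (b ^ g) ^ k + 2) * T) +
        T := by
  have hn1 := H.hP
  obtain ⟨s0, hs0, hmax⟩ := exists_max_state (α := α) (Z := Z) hn1 (k := k)
    (by have := H.hK; omega) hC1.tree
  set M := Rv α P Z k s0 with hM
  have hM0 : 0 ≤ M := Rv_nonneg _ _
  have hB : ∀ s' : St (Option I), TreeOn (k-1) s'.E →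
      Rv α P Z (k-1) s' ≤ (Fintype.card I + 1 : ℕ) * M := by
    intro s' hs'
    exact Rv_pred_le h0 (m := k - 1) (by omega) (by omega) hM0
      (by rw [show k - 1 + 1 = k by omega]; exact hmax) hs'
  have hT := H.T0
  have hjc : ∀ s : St (Option I), TreeOn k s.E → (Clean k s ∧ Cons Z k s) ∨
      Rv α P Z k s ≤ (k * ρ * (Fintype.card I + 1 : ℕ)) * M + T := by
    intro s hs
    rcases junk_or_clean hZ h0 h1 hn01 hn1 hk hkβ hkn hno hT0 hB hs with h | h
    · exact Or.inl h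
    · right
      refine h.trans (add_le_add ?_ le_rfl)
      calc (k:ℝ) * (P.β0 / xi ((2:ℝ)^α) P.n0 (k-1)) * (((Fintype.card I + 1 : ℕ) : ℝ) * M)
          ≤ (k:ℝ) * ρ * (((Fintype.card I + 1 : ℕ) : ℝ) * M) := by
            apply mul_le_mul_of_nonneg_right _ (by positivity)
            exact mul_le_mul_of_nonneg_left hρ (by positivity)
        _ = _ := by ring
  have hV : 0 ≤ Rv α P Z k s1 := Rv_nonneg _ _
  have hb0 : (0:ℝ) ≤ b ^ g := by have := H.b1; positivity
  have hMb : M ≤ (b ^ g) ^ k * ((2 * (K + 1 : ℕ)) ^ (2 * k) * Rv α P Z k s1) +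
      (k * (b ^ g) ^ k + 2) * T := by
    rcases hjc s0 hs0 with h | h
    · have h2 := clean_compare hZ H h0 h1 hg hK hs0 h.1 h.2 hC1
      rw [← hM] at h2
      refine h2.trans ?_
      have : 0 ≤ 2 * T := by positivity
      linarith
    · rw [← hM] at h
      have h2 : M ≤ 1 / 2 * M + T := h.trans (add_le_add (mul_le_mul_of_nonneg_right hρ2 hM0) le_rfl)
      have h3 : M ≤ 2 * T := by linarith
      refine h3.trans ?_
      have h4 : 0 ≤ (b ^ g) ^ k * ((2 * ((K + 1 : ℕ):ℝ)) ^ (2 * k) * Rv α P Z k s1) := by positivity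
      have h5 : 0 ≤ k * (b ^ g) ^ k * T := by positivity
      linarith
  rcases hjc s hs with h | h
  · exact Or.inl h
  · right
    exact h.trans (add_le_add (mul_le_mul_of_nonneg_left hMb (by positivity)) le_rfl)

/-- **(e)**: canonical states which are larger in the lexicographic order -/
theorem lex_compare [LinearOrder I] (H : Ineqs α P Z K q b T) (h0 : 0 < α) (h1 : α < 1)
    {k : ℕ} (hK : 2 * k ≤ K + 1) (hk : 3 ≤ k) {s s1 : St (Option I)} {l l1 : I → ℕ}
    (hC : Canon Z k s l) (hC1 : Canon Z k s1 l1) {i i2 : I} (heq : ∀ i' < i, l i' = l1 i')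
    (hlt : l1 i < l i) {g : ℕ} (hg : ∀ i', i < i' → 4 * q i' + 1 ≤ g) {δ : ℝ} (hδ : 0 ≤ δ)
    (hD : ∀ m, 2 ≤ m → m ≤ K → ∀ s : St (Option I), TreeOn m s.E → Clean m s → ∀ z1 < m, ∀ z2 < m,
      s.col z1 = some i → s.col z2 = some i2 →
      Rv α P Z (m + 1) (s.step m z1 none) ≤ δ * Rv α P Z m s + T) :
    Rv α P Z k s ≤ δ * ((b ^ g) ^ k * ((2 * (K + 1 : ℕ)) ^ (2 * k) * Rv α P Z k s1) +
      k * (b ^ g) ^ k * T) + T := by
  classical
  obtain ⟨m, rfl⟩ : ∃ m, k = m + 1 := ⟨k - 1, by omega⟩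
  obtain ⟨s', y, hy, hyc, hC', hR⟩ := hC.remove_Rv (α := α) H.hP (by omega)
    (by have := H.hK; omega) (i := i) (by omega)
  obtain ⟨z2, hz2, hz2c⟩ := hC'.all i2
  have h2 := hD m (by omega) (by omega) s' hC'.tree hC'.clean y hy z2 hz2 hyc hz2c
  rw [← hR] at h2
  -- add leaves at the hubs `> i`
  have e1 := hC.card_eq
  have e2 := hC1.card_eq
  set a : I → ℕ := fun i' => if i < i' then l1 i' else 0 with ha
  set a1 : I → ℕ := fun i' => if i < i' then l i' else if i' = i then l i - 1 - l1 i else 0 with ha1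
  have hle : ∑ i', a i' ≤ ∑ i', l1 i' := by
    apply sum_le_sum; intro i' _
    simp only [ha]
    split_ifs
    · exact le_rfl
    · omega
  have hle1 : ∑ i', a1 i' ≤ ∑ i', l i' := by
    apply sum_le_sum; intro i' _
    simp only [ha1]
    split_ifs with h3 h4
    · exact le_rfl
    · subst h4; omega
    · omega
  have h3 := canon_compare H h0 h1 (g := g) (a := a) (a1 := a1) hC' hC1 (by
    intro i'
    simp only [ha, ha1]
    rcases lt_trichotomy i i' with h4 | h4 | h4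
    · rw [if_pos h4, if_pos h4, if_neg (ne_of_gt h4)]
      omega
    · subst h4
      simp only [lt_irrefl, if_false, if_true]
      omega
    · rw [if_neg (not_lt.2 h4.le), if_neg (not_lt.2 h4.le), if_neg (ne_of_lt h4),
        if_neg (ne_of_lt h4), heq i' h4]
      omega)
    (by
      intro i' hi'
      apply hg
      by_contra hc
      apply hi'
      simp only [ha]
      rw [if_neg hc])
    (by omega)
  refine h2.trans (add_le_add (mul_le_mul_of_nonneg_left ?_ hδ) le_rfl)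
  refine h3.trans ?_
  have hB : (1:ℝ) ≤ b ^ g := one_le_pow₀ H.b1
  have hB0 : (0:ℝ) ≤ b ^ g := by linarith
  have hV := Rv_nonneg (α := α) (P := P) (Z := Z) (m + 1) s1
  have h2K : (1:ℝ) ≤ 2 * (K + 1 : ℕ) := by
    push_cast; have : (0:ℝ) ≤ K := by positivity
    linarith
  have hN : ∑ i', a i' ≤ m + 1 := by omega
  have hN1 : ∑ i', a1 i' ≤ 2 * (m + 1) := by omega
  have hT := H.T0
  apply add_le_add
  · apply mul_le_mul (pow_le_pow_right₀ hB hN) _ (by positivity) (by positivity)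
    exact mul_le_mul_of_nonneg_right (pow_le_pow_right₀ h2K hN1) hV
  · apply mul_le_mul_of_nonneg_right _ hT
    apply mul_le_mul _ (pow_le_pow_right₀ hB hN) (by positivity) (by positivity)
    exact_mod_cast hN

end

end SeedPA
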