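import Pool.Agent.SeedPA.Num

/-!
# Assembly, part 4: the numerical hypothesis is satisfied
-/

namespace SeedPA

theorem asm_num {α : ℝ} (h0 : 0 < α) (h1 : α < 1) : ∀ (b Q d M : ℕ), 4 ≤ b → 1 ≤ M → M ≤ b →
    1 ≤ Q → (((b ^ (Q + d + 1) : ℕ) : ℝ)) / xi ((2:ℝ)^α) (b ^ (2 * Q)) M ≤
      2 * b * (b:ℝ) ^ ((d:ℝ) + 1 - ((2:ℝ) ^ (1 - α) - 1) * Q) := by
  intro b Q d M hb hM hMb hQ
  have h := num_five_a h0 h1 (p := 1) (Q := Q) (d := d) hM (by simpa using hMb) (by omega) hb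
  rwa [pow_one] at h

end SeedPA
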