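import Pool.Agent.SeedPA.Clean

/-!
# Early components are big

The delay lemma for a component which is not yet born.
-/

open Finset

namespace SeedPA

variable {I : Type*}

theorem ite01_nonneg (p : Prop) [Decidable p] : (0:ℝ) ≤ if p then 1 else 0 := by
  split_ifs <;> norm_num

/-- relabelling with two functionals -/
theorem itr_perm2 {C : Type*} [Fintype C] {g : ℕ → St C → ℕ → C → ℝ} {Θ Θ' : St C → ℝ}
    (σ : Equiv.Perm ℕ) :
    ∀ (d m m0 : ℕ), m0 ≤ m → FixGE m0 σ →
      (∀ x, m ≤ x → x < m + d → ∀ s v c, v < x → g x (s.perm σ) (σ v) c = g x s v c) →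
      (∀ s, Θ' (s.perm σ) = Θ s) → ∀ s, itr g m d Θ' (s.perm σ) = itr g m d Θ s := by
  intro d
  induction d with
  | zero => intro m m0 _ _ _ hΘ s; exact hΘ s
  | succ d ih =>
    intro m m0 hm hσ hg hΘ s
    rw [itr_succ, itr_succ]
    rw [← (hσ.mono hm).sum_range (fun v => ∑ c, g m (s.perm σ) v c *
      itr g (m + 1) d Θ' ((s.perm σ).step m v c))]
    apply sum_congr rfl
    intro v hv
    apply sum_congr rfl
    intro c _
    rw [hg m le_rfl (by omega) s v c (mem_range.1 hv), ← St.perm_step (hσ m hm),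
      ih (m + 1) m0 (by omega) hσ (fun x hx hx' => hg x (by omega) (by omega)) hΘ]

theorem ev_perm2 [Fintype I] {α : ℝ} {P : Par I} {Z : SimpleGraph I} {f f' : St (Option I) → ℝ}
    {m : ℕ} {σ : Equiv.Perm ℕ} (hσ : FixGE m σ) (hf : ∀ s, f' (s.perm σ) = f s)
    (s : St (Option I)) : ev α P Z m f' (s.perm σ) = ev α P Z m f s :=
  itr_perm2 σ _ m m le_rfl hσ
    (fun x hx _ s v c hv => (okStep_PInv Z).gInv x x le_rfl σ (hσ.mono hx) s v c hv) hf s

/-- commutation of two kinds of steps, with two functionals -/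
theorem comm_general' {C : Type*} [Fintype C] {m : ℕ} {s : St C} {f f' : St C → ℝ}
    {wB wB' wA wA' : ℕ → St C → ℕ → C → ℝ}
    (hwB : ∀ m s v c, 0 ≤ wB' m s v c) (hwA : ∀ m s v c, 0 ≤ wA m s v c)
    (hf0 : ∀ s, 0 ≤ f' s)
    (hswap : ∀ v a, v < m → a < m → ∀ c c',
      f ((s.step m v c).step (m + 1) a c') = f' ((s.step m a c').step (m + 1) v c))
    (h1 : ∀ v c, v < m → wB m s v c ≠ 0 → ∀ c', wA' (m + 1) (s.step m v c) m c' = 0)
    (h2 : ∀ v c a c', v < m → a < m → wB m s v c * wA' (m + 1) (s.step m v c) a c' ≤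
      wA m s a c' * wB' (m + 1) (s.step m a c') v c) :
    ∑ v ∈ range m, ∑ c, wB m s v c * (∑ a ∈ range (m + 1), ∑ c', wA' (m + 1) (s.step m v c) a c' *
        f ((s.step m v c).step (m + 1) a c')) ≤
    ∑ a ∈ range m, ∑ c', wA m s a c' * (∑ v ∈ range (m + 1), ∑ c, wB' (m + 1) (s.step m a c') v c *
        f' ((s.step m a c').step (m + 1) v c)) := by
  have lhs : ∑ v ∈ range m, ∑ c, wB m s v c * (∑ a ∈ range (m + 1), ∑ c',
      wA' (m + 1) (s.step m v c) a c' * f ((s.step m v c).step (m + 1) a c')) ≤
      ∑ v ∈ range m, ∑ c, ∑ a ∈ range m, ∑ c', (wA m s a c' * wB' (m + 1) (s.step m a c') v c) *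
        f' ((s.step m a c').step (m + 1) v c) := by
    apply sum_le_sum; intro v hv
    apply sum_le_sum; intro c _
    have hv' := mem_range.1 hv
    rw [sum_range_succ, mul_add]
    have hlast : wB m s v c * ∑ c', wA' (m + 1) (s.step m v c) m c' *
        f ((s.step m v c).step (m + 1) m c') = 0 := by
      by_cases hz : wB m s v c = 0
      · rw [hz, zero_mul]
      · rw [sum_eq_zero, mul_zero]
        intro c' _
        rw [h1 v c hv' hz c', zero_mul]
    rw [hlast, add_zero, mul_sum]
    apply sum_le_sum; intro a ha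
    rw [mul_sum]
    apply sum_le_sum; intro c' _
    have ha' := mem_range.1 ha
    rw [← mul_assoc, hswap v a hv' ha']
    exact mul_le_mul_of_nonneg_right (h2 v c a c' hv' ha') (hf0 _)
  refine lhs.trans ?_
  have e : ∑ v ∈ range m, ∑ c, ∑ a ∈ range m, ∑ c', (wA m s a c' * wB' (m + 1) (s.step m a c') v c) *
        f' ((s.step m a c').step (m + 1) v c) =
      ∑ a ∈ range m, ∑ c', wA m s a c' * ∑ v ∈ range m, ∑ c, wB' (m + 1) (s.step m a c') v c *
        f' ((s.step m a c').step (m + 1) v c) := by
    simp_rw [mul_sum]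
    have : ∀ v ∈ range m, (∑ c, ∑ a ∈ range m, ∑ c', (wA m s a c' * wB' (m + 1) (s.step m a c') v c) *
        f' ((s.step m a c').step (m + 1) v c)) = ∑ a ∈ range m, ∑ c', ∑ c,
          (wA m s a c' * wB' (m + 1) (s.step m a c') v c) * f' ((s.step m a c').step (m + 1) v c) := by
      intro v _
      rw [sum_comm]
      apply sum_congr rfl; intro a _
      rw [sum_comm]
    rw [sum_congr rfl this, sum_comm]
    apply sum_congr rfl; intro a _
    rw [sum_comm]
    apply sum_congr rfl; intro c' _
    apply sum_congr rfl; intro v _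
    apply sum_congr rfl; intro c _
    ring
  rw [e]
  apply sum_le_sum; intro a _
  apply sum_le_sum; intro c' _
  apply mul_le_mul_of_nonneg_left _ (hwA _ _ _ _)
  rw [sum_range_succ]
  have : 0 ≤ ∑ c, wB' (m + 1) (s.step m a c') m c * f' ((s.step m a c').step (m + 1) m c) :=
    sum_nonneg fun c _ => mul_nonneg (hwB _ _ _ _) (hf0 _)
  linarith

/-- the label `l` is a hub-adjacent non-hub whose component is small at level `n1` -/
def chi (P : Par I) (l : ℕ) (s : St (Option I)) : Prop :=
  l < P.n1 ∧ s.col l = none ∧ (∃ y < P.n1, s.col y ≠ none ∧ s(y, l) ∈ s.E) ∧ cs P.n1 s l ≤ P.β1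

theorem dec_chi (P : Par I) (l : ℕ) : Dec P.n1 (chi P l) := by
  intro x hx s v c hs hv
  unfold chi
  by_cases hl : l < P.n1
  · simp only [hl, true_and]
    rw [St.step_col_of_ne _ _ _ _ (by omega), cs_step_old hs hv (by omega) hx]
    have : (∃ y < P.n1, (s.step x v c).col y ≠ none ∧ s(y, l) ∈ (s.step x v c).E) ↔
        ∃ y < P.n1, s.col y ≠ none ∧ s(y, l) ∈ s.E := by
      constructor
      · rintro ⟨y, hy, h1, h2⟩
        rw [St.step_col_of_ne _ _ _ _ (by omega)] at h1
        exact ⟨y, hy, h1, (dec_edge hy hl x hx s v c hs hv).1 h2⟩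
      · rintro ⟨y, hy, h1, h2⟩
        refine ⟨y, hy, ?_, (dec_edge hy hl x hx s v c hs hv).2 h2⟩
        rwa [St.step_col_of_ne _ _ _ _ (by omega)]
    rw [this]
  · simp [hl]

theorem chi_perm {P : Par I} {l : ℕ} {s : St (Option I)} {σ : Equiv.Perm ℕ} (hσ : FixGE P.n1 σ) :
    chi P (σ l) (s.perm σ) ↔ chi P l s := by
  unfold chi
  rw [hσ.lt_iff, St.perm_col, Equiv.symm_apply_apply, cs_perm hσ]
  have : (∃ y < P.n1, (s.perm σ).col y ≠ none ∧ s(y, σ l) ∈ (s.perm σ).E) ↔
        ∃ y < P.n1, s.col y ≠ none ∧ s(y, l) ∈ s.E := by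
    constructor
    · rintro ⟨y, hy, h1, h2⟩
      refine ⟨σ.symm y, (hσ.symm.lt_iff y).2 hy, h1, ?_⟩
      rw [St.perm_E, mem_permE'] at h2
      simpa using h2
    · rintro ⟨y, hy, h1, h2⟩
      refine ⟨σ y, (hσ.lt_iff y).2 hy, by simpa using h1, ?_⟩
      rw [St.perm_E, mem_permE]
      exact h2
  rw [this]

section await
variable [Fintype I] {α : ℝ} {P : Par I} {Z : SimpleGraph I}

theorem RvA_chi_perm (hP : P.n1 ≤ P.n) {m : ℕ} (hm : m ≤ P.n1) {σ : Equiv.Perm ℕ}
    (hσ : FixGE m σ) (l : ℕ) (s : St (Option I)) :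
    RvA α P Z m (chi P (σ l)) (s.perm σ) = RvA α P Z m (chi P l) s := by
  rw [RvA_def, RvA_def]
  apply ev_perm2 hσ
  intro s
  unfold thA
  rw [Theta_TInv hP Z σ (hσ.mono hm) s]
  by_cases h : chi P l s
  · rw [if_pos h, if_pos ((chi_perm (hσ.mono hm)).2 h)]
  · rw [if_neg h, if_neg (fun h' => h ((chi_perm (hσ.mono hm)).1 h'))]

/-- swapping two consecutive new labels -/
theorem RvA_chi_swap (hP : P.n1 ≤ P.n) {m : ℕ} (hm : m + 2 ≤ P.n1) {s : St (Option I)}
    (hs : Valid m s.E) {v a : ℕ} (hv : v < m) (ha : a < m) (c c' : Option I) (l : ℕ) :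
    RvA α P Z (m + 2) (chi P l) ((s.step m v c).step (m + 1) a c') =
      RvA α P Z (m + 2) (chi P (Equiv.swap m (m + 1) l)) ((s.step m a c').step (m + 1) v c) := by
  rw [← St.step_step_swap hs.lt hv ha c c', RvA_chi_perm hP hm (fixGE_swap m)]

/-- `χ_l` is impossible if `l` is a hub -/
theorem RvA_chi_hub {m l : ℕ} (hm : m ≤ P.n) (hl : l < m) {s : St (Option I)}
    (hc : s.col l ≠ none) : RvA α P Z m (chi P l) s = 0 := by
  apply itr_dead (fun x s => l < x ∧ s.col l ≠ none) P.n
  · rintro x s v c _ _ ⟨h1, h2⟩ _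
    exact ⟨by omega, by rwa [St.step_col_of_ne _ _ _ _ (by omega)]⟩
  · rintro s ⟨_, h2⟩
    rw [if_neg]
    rintro ⟨_, h3, _⟩
    exact h2 h3
  · omega
  · exact ⟨hl, hc⟩

/-- `χ_l` is impossible if `l` has only non-hub neighbours while a hub is present -/
theorem RvA_chi_nonadj {m l : ℕ} (hm : m ≤ P.n) (hl : l < m) {s : St (Option I)}
    (hs : Valid m s.E) (hub : HasHub m s) (hc : ∀ y, s(y, l) ∈ s.E → s.col y = none)
    (hcl : s.col l = none) :
    RvA α P Z m (chi P l) s = 0 := by
  apply itr_dead (fun x s => l < x ∧ Valid x s.E ∧ HasHub x s ∧ s.col l = none ∧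
    ∀ y, s(y, l) ∈ s.E → s.col y = none) P.n
  · rintro x s v c _ hv ⟨h1, h2, h3, h5, h4⟩ hg
    have hok : okStep Z x s v c := by
      by_contra hcon
      apply hg
      unfold gP; rw [if_neg hcon]
    refine ⟨by omega, h2.step hv, h3.step v c, ?_, ?_⟩
    · rw [St.step_col_of_ne _ _ _ _ (by omega)]; exact h5
    intro y hy
    rw [St.step_E, mem_insert] at hy
    rcases hy with hy | hy
    · rw [Sym2.eq_iff] at hy
      rcases hy with ⟨_, h⟩ | ⟨rfl, rfl⟩
      · omega
      · rw [St.step_col_self]
        cases c with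
        | none => rfl
        | some i => exact absurd h5 (okStep_hub h3 hok)
    · have : y < x := h2.lt _ hy y (by simp)
      rw [St.step_col_of_ne _ _ _ _ (by omega)]
      exact h4 y hy
  · rintro s ⟨h1, h2, h3, h5, h4⟩
    rw [if_neg]
    rintro ⟨_, _, ⟨y, _, h6, h7⟩, _⟩
    exact h6 (h4 y h7)
  · omega
  · exact ⟨hl, hs, hub, hcl, hc⟩

open Classical in
/-- the marked two-sided structure -/
noncomputable def awTS (Z : SimpleGraph I) (α : ℝ) :
    TwoSided (St (Option I) × Option ℕ) (ℕ × Option I) where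
  Dom := fun m x => Valid m x.1.E ∧ HasHub m x.1 ∧ ∀ l, x.2 = some l → l < m ∧ nhS x.1 l
  TB := fun m _ => range m ×ˢ univ
  TA := fun m _ => range m ×ˢ univ
  wB := fun _ x i => match x.2 with
    | none => if i.2 = none ∧ x.1.col i.1 ≠ none then 1 else 0
    | some l => if i.2 = none ∧ nhS x.1 i.1 ∧ Cn x.1 l i.1 then 1 else 0
  wA := fun m x i => match x.2 with
    | none => if okStep Z m x.1 i.1 i.2 then 1 else 0
    | some l => if ¬ (nhS x.1 i.1 ∧ Cn x.1 l i.1) ∧ okStep Z m x.1 i.1 i.2 then 1 else 0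
  nB := fun m x i => match x.2 with
    | none => (x.1.step m i.1 i.2, some m)
    | some l => (x.1.step m i.1 i.2, some l)
  nA := fun m x i => (x.1.step m i.1 i.2, x.2)
  Wt := fun m x => W α m x.1.E
  b := fun m x => match x.2 with
    | none => 0
    | some l => cs m x.1 l

open Classical in
/-- the marked value -/
noncomputable def Rmk (α : ℝ) (P : Par I) (Z : SimpleGraph I) (m : ℕ)
    (x : St (Option I) × Option ℕ) : ℝ := match x.2 with
  | none => ∑ l ∈ Ico m P.n1, RvA α P Z m (chi P l) x.1
  | some l => RvA α P Z m (chi P l) x.1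

theorem Rmk_none (m : ℕ) (s : St (Option I)) :
    Rmk α P Z m (s, none) = ∑ l ∈ Ico m P.n1, RvA α P Z m (chi P l) s := rfl
theorem Rmk_some (m l : ℕ) (s : St (Option I)) :
    Rmk α P Z m (s, some l) = RvA α P Z m (chi P l) s := rfl

open Classical in
theorem chi_rec (h0 : 0 < α) {m : ℕ} (hm1 : 1 ≤ m) (hmn : m < P.n) {s : St (Option I)}
    (hs : Valid m s.E) (l : ℕ) :
    W α m s.E * RvA α P Z m (chi P l) s = ∑ v ∈ range m, ∑ c,
      if okStep Z m s v c then RvA α P Z (m + 1) (chi P l) (s.step m v c) else 0 :=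
  ev_rec (f := thA α P Z (chi P l)) h0 hm1 hmn hs

open Classical in
/-- **delay lemma for the birth of a small component** -/
theorem delay_await (h0 : 0 < α) (h1 : α < 1) (hn1 : P.n1 ≤ P.n) {m : ℕ} (hm1 : 1 ≤ m)
    (hmh : m < P.n1) {s : St (Option I)} (hs : Valid m s.E) (hub : HasHub m s) :
    ∑ v ∈ range m, (if s.col v ≠ none then
        RvA α P Z (m + 1) (chi P m) (s.step m v none) else 0) ≤
      P.β1 / xi ((2:ℝ)^α) P.n1 m * ∑ l ∈ Ico m P.n1, RvA α P Z m (chi P l) s := by
  have key := delay_abs (awTS Z α) (κ := (2:ℝ)^α) (by positivity) (h := P.n1) (β := P.β1)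
    (m0 := 1) le_rfl (R := Rmk α P Z)
    (by
      rintro m ⟨s, μ⟩ i
      cases μ <;> dsimp [awTS] <;> split_ifs <;> norm_num)
    (by
      rintro m ⟨s, μ⟩ i
      cases μ <;> dsimp [awTS] <;> split_ifs <;> norm_num)
    ?hDB ?hDA ?hW ?hrec ?hcomm
    (by
      rintro m ⟨s, μ⟩
      cases μ with
      | none => rw [Rmk_none]; exact sum_nonneg fun _ _ => RvA_nonneg _ _ _
      | some l => rw [Rmk_some]; exact RvA_nonneg _ _ _)
    ?hz m (s, none) hm1 hmh ⟨hs, hub, by intro l hl; simp at hl⟩ (Nat.zero_le _)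
  case hDB =>
    rintro m ⟨s, μ⟩ ⟨v, c⟩ hm1 hmh ⟨hs, hub, hx⟩ hi hw
    have hv : v < m := by
      have := (mem_product.1 hi).1
      simpa using this
    cases μ with
    | none =>
      dsimp [awTS] at hw ⊢
      rw [ite_eq_right_iff, Classical.not_imp] at hw
      obtain ⟨⟨hc, hcv⟩, _⟩ := hw
      subst hc
      refine ⟨⟨hs.step hv, hub.step v none, ?_⟩, ?_, hs.W_step_ge h0 hv⟩
      · intro l hl
        simp only [Option.some.injEq] at hl
        subst hl
        exact ⟨by omega, nhS_step_self.2 rfl⟩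
      · rw [cs_new_hub hs hv hcv]
    | some l =>
      dsimp [awTS] at hw ⊢
      rw [ite_eq_right_iff, Classical.not_imp] at hw
      obtain ⟨⟨hc, hnv, hcn⟩, _⟩ := hw
      obtain ⟨hl, hnl⟩ := hx l rfl
      refine ⟨⟨hs.step hv, hub.step v c, ?_⟩, ?_, hs.W_step_ge h0 hv⟩
      · intro l' hl'
        simp only [Option.some.injEq] at hl'
        subst hl'
        exact ⟨by omega, (nhS_step l hl).2 hnl⟩
      · rw [cs_step hs hv hl, if_pos ⟨hc, hnv, hcn⟩]
  case hDA =>
    rintro m ⟨s, μ⟩ ⟨v, c⟩ hm1 hmh ⟨hs, hub, hx⟩ hi hw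
    have hv : v < m := by
      have := (mem_product.1 hi).1
      simpa using this
    cases μ with
    | none =>
      dsimp [awTS] at hw ⊢
      refine ⟨⟨hs.step hv, hub.step v c, ?_⟩, rfl⟩
      intro l hl; simp at hl
    | some l =>
      dsimp [awTS] at hw ⊢
      rw [ite_eq_right_iff, Classical.not_imp] at hw
      obtain ⟨⟨hc, _⟩, _⟩ := hw
      obtain ⟨hl, hnl⟩ := hx l rfl
      refine ⟨⟨hs.step hv, hub.step v c, ?_⟩, ?_⟩
      · intro l' hl'
        simp only [Option.some.injEq] at hl'
        subst hl'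
        exact ⟨by omega, (nhS_step l hl).2 hnl⟩
      · rw [cs_step hs hv hl, if_neg, add_zero]
        rintro ⟨_, h1, h2⟩
        exact hc ⟨h1, h2⟩
  case hW =>
    rintro m ⟨s, μ⟩ hm1 hmh ⟨hs, _⟩
    exact ⟨hs.W_pos h0 hm1, hs.W_le h0 h1⟩
  case hrec =>
    rintro m ⟨s, μ⟩ hm1 hmh ⟨hs, hub, hx⟩
    dsimp only at hs hub hx
    cases μ with
    | none =>
      show W α m s.E * Rmk α P Z m (s, none) = _
      rw [Rmk_none, mul_sum]
      have e1 : ∀ l ∈ Ico m P.n1, W α m s.E * RvA α P Z m (chi P l) s = ∑ v ∈ range m, ∑ c,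
          if okStep Z m s v c then RvA α P Z (m + 1) (chi P l) (s.step m v c) else 0 :=
        fun l _ => chi_rec h0 hm1 (by omega) hs l
      rw [sum_congr rfl e1, sum_comm]
      dsimp [awTS, TwoSided.uB, TwoSided.uA]
      rw [sum_product, sum_product, ← sum_add_distrib]
      apply sum_congr rfl; intro v hv
      have hv' := mem_range.1 hv
      rw [sum_comm, ← sum_add_distrib]
      apply sum_congr rfl; intro c _
      dsimp only
      rw [Rmk_some, Rmk_none, ← Finset.sum_Ioo_add_eq_sum_Ico hmh,
        ← Finset.Ico_succ_left_eq_Ioo]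
      simp only [Order.succ_eq_add_one]
      by_cases hok : okStep Z m s v c
      · simp only [hok, if_true, one_mul]
        rw [add_comm]
        congr 1
        cases c with
        | some i =>
          rw [if_neg (by simp), zero_mul]
          exact RvA_chi_hub (by omega) (by omega) (by rw [St.step_col_self]; simp)
        | none =>
          by_cases hcv : s.col v = none
          · rw [if_neg (by simp [hcv]), zero_mul]
            apply RvA_chi_nonadj (by omega) (by omega) (hs.step hv') (hub.step v none)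
            · intro y hy
              rw [St.step_E, mem_insert] at hy
              rcases hy with hy | hy
              · rw [Sym2.eq_iff] at hy
                rcases hy with ⟨rfl, _⟩ | ⟨h1, h2⟩
                · rw [St.step_col_of_ne _ _ _ _ (by omega)]; exact hcv
                · omega
              · have := hs.lt _ hy m (by simp); omega
            · rw [St.step_col_self]
          · rw [if_pos ⟨rfl, hcv⟩, one_mul]
      · simp only [hok, if_false, zero_mul, sum_const_zero, add_zero]
        cases c with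
        | some i => simp
        | none => exact absurd trivial hok
    | some l =>
      show W α m s.E * Rmk α P Z m (s, some l) = _
      rw [Rmk_some, chi_rec h0 hm1 (by omega) hs l]
      dsimp [awTS, TwoSided.uB, TwoSided.uA]
      rw [sum_product, sum_product, ← sum_add_distrib]
      apply sum_congr rfl; intro v hv
      rw [← sum_add_distrib]
      apply sum_congr rfl; intro c _
      dsimp only
      rw [Rmk_some]
      by_cases h1 : nhS s v ∧ Cn s l v
      · cases c with
        | none => simp [okStep, h1]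
        | some i =>
          have : ¬ okStep Z m s v (some i) := fun hok => okStep_hub hub hok h1.1
          simp [this]
      · by_cases h3 : okStep Z m s v c <;> simp [h1, h3]
  case hcomm =>
    rintro m ⟨s, μ⟩ hm1 hmh ⟨hs, hub, hx⟩
    dsimp only at hs hub hx
    cases μ with
    | none =>
      have := comm_general' (m := m) (s := s)
        (f := RvA α P Z (m + 2) (chi P m)) (f' := RvA α P Z (m + 2) (chi P (m + 1)))
        (wB := fun m s v c => (awTS Z α).wB m (s, none) (v, c))
        (wB' := fun m s v c => (awTS Z α).wB m (s, none) (v, c))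
        (wA := fun m s v c => (awTS Z α).wA m (s, none) (v, c))
        (wA' := fun m' s v c => (awTS Z α).wA m' (s, some m) (v, c))
        (by intro m s v c; dsimp [awTS]; split_ifs <;> norm_num)
        (by intro m s v c; dsimp [awTS]; split_ifs <;> norm_num)
        (fun s => RvA_nonneg _ _ _)
        (fun v a hv ha c c' => by
          rw [RvA_chi_swap hn1 hmh hs hv ha c c' m, Equiv.swap_apply_left])
        (by
          intro v c hv hw c'
          dsimp [awTS] at hw ⊢
          rw [ite_eq_right_iff, Classical.not_imp] at hw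
          obtain ⟨⟨hc, _⟩, _⟩ := hw
          rw [if_neg]
          rintro ⟨h1, _⟩
          exact h1 ⟨nhS_step_self.2 hc, Conn.refl m⟩)
        (by
          intro v c a c' hv ha
          dsimp [awTS]
          by_cases h1 : c = none ∧ s.col v ≠ none
          · obtain ⟨rfl, hcv⟩ := h1
            have h2 : ¬ Function.update s.col m c' v = none := by
              rw [Function.update_of_ne (by omega)]; exact hcv
            have h3 : ∀ p : Prop, ¬ p ∧ okStep Z (m + 1) (s.step m v none) a c' →
                okStep Z m s a c' := fun p h => (okStep_step_none ha c').1 h.2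
            rw [if_pos ⟨rfl, hcv⟩, one_mul]
            simp only [h2, not_false_eq_true, and_self, if_true, mul_one]
            split_ifs with h4 h5 h5
            · exact le_refl (1:ℝ)
            · exact absurd (h3 _ h4) h5
            · norm_num
            · exact le_refl (0:ℝ)
          · rw [if_neg h1, zero_mul]
            exact mul_nonneg (ite01_nonneg _) (ite01_nonneg _))
      dsimp [TwoSided.uB, TwoSided.uA, awTS]
      dsimp [awTS] at this
      rw [sum_product, sum_product]
      simp only [sum_product]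
      exact this
    | some l =>
      obtain ⟨hl, hnl⟩ := hx l rfl
      have := comm_general' (m := m) (s := s)
        (f := RvA α P Z (m + 2) (chi P l)) (f' := RvA α P Z (m + 2) (chi P l))
        (wB := fun m s v c => (awTS Z α).wB m (s, some l) (v, c))
        (wB' := fun m s v c => (awTS Z α).wB m (s, some l) (v, c))
        (wA := fun m s v c => (awTS Z α).wA m (s, some l) (v, c))
        (wA' := fun m s v c => (awTS Z α).wA m (s, some l) (v, c))
        (by intro m s v c; dsimp [awTS]; split_ifs <;> norm_num)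
        (by intro m s v c; dsimp [awTS]; split_ifs <;> norm_num)
        (fun s => RvA_nonneg _ _ _)
        (fun v a hv ha c c' => by
          rw [RvA_chi_swap hn1 hmh hs hv ha c c' l,
            Equiv.swap_apply_of_ne_of_ne (by omega) (by omega)])
        (by
          intro v c hv hw c'
          dsimp [awTS] at hw ⊢
          rw [ite_eq_right_iff, Classical.not_imp] at hw
          obtain ⟨⟨hc, hnv, hcn⟩, _⟩ := hw
          rw [if_neg]
          rintro ⟨h1, _⟩
          apply h1
          exact ⟨nhS_step_self.2 hc, (Cn_step_new hs hv hl).2 ⟨hc, hnv, hcn⟩⟩)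
        (by
          intro v c a c' hv ha
          dsimp [awTS]
          by_cases h1 : c = none ∧ nhS s v ∧ Cn s l v
          · rw [if_pos h1, one_mul]
            obtain ⟨rfl, hnv, hcn⟩ := h1
            have e1 : (nhS (s.step m v none) a ∧ Cn (s.step m v none) l a) ↔
                (nhS s a ∧ Cn s l a) := by
              rw [nhS_step a ha, Cn_step_old hs hv hl ha]
            have e2 : (nhS (s.step m a c') v ∧ Cn (s.step m a c') l v) ↔
                (nhS s v ∧ Cn s l v) := by
              rw [nhS_step v hv, Cn_step_old hs ha hl hv]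
            simp only [e1, e2, okStep_step_none ha, hnv, hcn, and_self, if_true, mul_one]
            exact le_rfl
          · rw [if_neg h1, zero_mul]
            split_ifs <;> norm_num)
      dsimp [TwoSided.uB, TwoSided.uA, awTS]
      dsimp [awTS] at this
      rw [sum_product, sum_product]
      simp only [sum_product]
      exact this
  case hz =>
    rintro ⟨s, μ⟩ ⟨hs, hub, hx⟩ hb
    dsimp only at hs hub hx
    cases μ with
    | none => exact absurd hb (Nat.not_lt_zero _)
    | some l =>
      rw [Rmk_some, RvA_decided (dec_chi P l) hn1 hs, if_neg]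
      rintro ⟨_, _, _, h⟩
      have : P.β1 < cs P.n1 s l := hb
      omega
  -- translate the conclusion
  dsimp [awTS, TwoSided.uB] at key
  rw [sum_product] at key
  have e0 : Rmk α P Z m (s, none) = ∑ l ∈ Ico m P.n1, RvA α P Z m (chi P l) s := rfl
  rw [e0] at key
  simp only [Nat.cast_zero, sub_zero] at key
  refine le_trans (le_of_eq ?_) key
  apply sum_congr rfl; intro v _
  rw [Fintype.sum_option, sum_eq_zero (fun i _ => by simp), add_zero]
  by_cases h1 : s.col v = none
  · simp [h1]
  · simp [h1, Rmk_some]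

end await

end SeedPA
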