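import Pool.Agent.SeedPA.Core

/-!
# The forward (probability) recursion

`pr α m d Ψ E` is the expectation of `Ψ (E_{m+d})` for the attachment process started from the edge
set `E` on `{0,…,m-1}`; `prB` carries along a set `B` of vertices which is inherited
(a new vertex belongs to `B` iff its parent does).
-/

open Finset

namespace SeedPA

/-- expectation of `Ψ` after `d` attachment steps from level `m` -/
noncomputable def pr (α : ℝ) : ℕ → ℕ → (ESet → ℝ) → ESet → ℝ
  | _, 0, Ψ, E => Ψ E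
  | m, d + 1, Ψ, E =>
      ∑ v ∈ range m, ((deg E v : ℝ) ^ α / W α m E) * pr α (m + 1) d Ψ (insert s(v, m) E)

/-- the same with an inherited set `B` -/
noncomputable def prB (α : ℝ) : ℕ → ℕ → (ESet → Finset ℕ → ℝ) → ESet → Finset ℕ → ℝ
  | _, 0, Ψ, E, B => Ψ E B
  | m, d + 1, Ψ, E, B =>
      ∑ v ∈ range m, ((deg E v : ℝ) ^ α / W α m E) *
        prB α (m + 1) d Ψ (insert s(v, m) E) (if v ∈ B then insert m B else B)

variable {α : ℝ}

@[simp] theorem pr_zero (m : ℕ) (Ψ : ESet → ℝ) (E : ESet) : pr α m 0 Ψ E = Ψ E := rfl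
theorem pr_succ (m d : ℕ) (Ψ : ESet → ℝ) (E : ESet) : pr α m (d + 1) Ψ E =
    ∑ v ∈ range m, ((deg E v : ℝ) ^ α / W α m E) * pr α (m + 1) d Ψ (insert s(v, m) E) := rfl
@[simp] theorem prB_zero (m : ℕ) (Ψ : ESet → Finset ℕ → ℝ) (E : ESet) (B : Finset ℕ) :
    prB α m 0 Ψ E B = Ψ E B := rfl
theorem prB_succ (m d : ℕ) (Ψ : ESet → Finset ℕ → ℝ) (E : ESet) (B : Finset ℕ) :
    prB α m (d + 1) Ψ E B = ∑ v ∈ range m, ((deg E v : ℝ) ^ α / W α m E) *
        prB α (m + 1) d Ψ (insert s(v, m) E) (if v ∈ B then insert m B else B) := rfl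

theorem W_nonneg (m : ℕ) (E : ESet) : 0 ≤ W α m E :=
  sum_nonneg fun _ _ => by positivity

theorem wt_nonneg (m v : ℕ) (E : ESet) : 0 ≤ (deg E v : ℝ) ^ α / W α m E :=
  div_nonneg (by positivity) (W_nonneg m E)

/-- the step probabilities sum to one -/
theorem Valid.sum_wt {m : ℕ} {E : ESet} (h : Valid m E) (hα0 : 0 < α) (hm : 1 ≤ m) :
    ∑ v ∈ range m, ((deg E v : ℝ) ^ α / W α m E) = 1 := by
  rw [← sum_div]
  exact div_self (h.W_pos hα0 hm).ne'

/-- comparison along an invariant -/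
theorem pr_le_inv (Inv : ℕ → ESet → Prop) {Ψ Ψ' : ESet → ℝ} (N : ℕ)
    (hstep : ∀ x E v, x < N → v < x → Inv x E → Inv (x + 1) (insert s(v, x) E))
    (hΨ : ∀ E, Inv N E → Ψ E ≤ Ψ' E) :
    ∀ (d m : ℕ) (E : ESet), m + d = N → Inv m E → pr α m d Ψ E ≤ pr α m d Ψ' E := by
  intro d
  induction d with
  | zero =>
    intro m E hm hE
    have : m = N := by omega
    subst this
    exact hΨ E hE
  | succ d ih =>
    intro m E hm hE
    rw [pr_succ, pr_succ]
    apply sum_le_sum
    intro v hv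
    exact mul_le_mul_of_nonneg_left
      (ih (m+1) _ (by omega) (hstep m E v (by omega) (mem_range.1 hv) hE)) (wt_nonneg m v E)

theorem pr_const (hα0 : 0 < α) (a : ℝ) :
    ∀ (d m : ℕ) (E : ESet), 1 ≤ m → Valid m E → pr α m d (fun _ => a) E = a := by
  intro d
  induction d with
  | zero => intro m E _ _; rfl
  | succ d ih =>
    intro m E hm hE
    rw [pr_succ]
    have : ∀ v ∈ range m, (deg E v : ℝ) ^ α / W α m E * pr α (m + 1) d (fun _ => a) (insert s(v, m) E)
        = (deg E v : ℝ) ^ α / W α m E * a := by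
      intro v hv
      rw [ih (m+1) _ (by omega) (hE.step (mem_range.1 hv))]
    rw [sum_congr rfl this, ← sum_mul, hE.sum_wt hα0 hm, one_mul]

theorem pr_nonneg {Ψ : ESet → ℝ} (hΨ : ∀ E, 0 ≤ Ψ E) :
    ∀ (d m : ℕ) (E : ESet), 0 ≤ pr α m d Ψ E := by
  intro d
  induction d with
  | zero => intro m E; exact hΨ E
  | succ d ih => intro m E; exact sum_nonneg fun v _ => mul_nonneg (wt_nonneg m v E) (ih _ _)

theorem pr_add (Ψ Ψ' : ESet → ℝ) : ∀ (d m : ℕ) (E : ESet),
    pr α m d (fun E => Ψ E + Ψ' E) E = pr α m d Ψ E + pr α m d Ψ' E := by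
  intro d
  induction d with
  | zero => intro m E; rfl
  | succ d ih => intro m E; simp only [pr_succ, ih, mul_add, sum_add_distrib]

theorem pr_const_mul (a : ℝ) (Ψ : ESet → ℝ) : ∀ (d m : ℕ) (E : ESet),
    pr α m d (fun E => a * Ψ E) E = a * pr α m d Ψ E := by
  intro d
  induction d with
  | zero => intro m E; rfl
  | succ d ih =>
    intro m E
    simp only [pr_succ, ih, mul_sum]
    exact sum_congr rfl fun v _ => by ring

theorem pr_sum {ι : Type*} (T : Finset ι) (Ψ : ι → ESet → ℝ) : ∀ (d m : ℕ) (E : ESet),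
    pr α m d (fun E => ∑ i ∈ T, Ψ i E) E = ∑ i ∈ T, pr α m d (Ψ i) E := by
  intro d
  induction d with
  | zero => intro m E; rfl
  | succ d ih =>
    intro m E
    simp only [pr_succ, ih, mul_sum]
    rw [sum_comm]

theorem pr_comp (Ψ : ESet → ℝ) : ∀ (a b m : ℕ) (E : ESet),
    pr α m (a + b) Ψ E = pr α m a (pr α (m + a) b Ψ) E := by
  intro a
  induction a with
  | zero => intro b m E; simp
  | succ a ih =>
    intro b m E
    rw [show a + 1 + b = (a + b) + 1 by omega, pr_succ, pr_succ]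
    apply sum_congr rfl; intro v _
    rw [ih b (m + 1), show m + 1 + a = m + (a + 1) by omega]

/-- comparison of `prB` along an invariant -/
theorem prB_le_inv (Inv : ℕ → ESet → Finset ℕ → Prop) {Ψ Ψ' : ESet → Finset ℕ → ℝ} (N : ℕ)
    (hstep : ∀ x E B v, x < N → v < x → Inv x E B →
      Inv (x + 1) (insert s(v, x) E) (if v ∈ B then insert x B else B))
    (hΨ : ∀ E B, Inv N E B → Ψ E B ≤ Ψ' E B) :
    ∀ (d m : ℕ) (E : ESet) (B : Finset ℕ), m + d = N → Inv m E B →
      prB α m d Ψ E B ≤ prB α m d Ψ' E B := by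
  intro d
  induction d with
  | zero =>
    intro m E B hm hE
    have : m = N := by omega
    subst this
    exact hΨ E B hE
  | succ d ih =>
    intro m E B hm hE
    rw [prB_succ, prB_succ]
    apply sum_le_sum
    intro v hv
    exact mul_le_mul_of_nonneg_left
      (ih (m+1) _ _ (by omega) (hstep m E B v (by omega) (mem_range.1 hv) hE)) (wt_nonneg m v E)

/-- if the carried set is determined by the edge set through `F`, `prB` reduces to `pr` -/
theorem prB_eq_pr (Inv : ℕ → ESet → Finset ℕ → Prop) {Ψ : ESet → Finset ℕ → ℝ} {Ψ' : ESet → ℝ}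
    (N : ℕ)
    (hstep : ∀ x E B v, x < N → v < x → Inv x E B →
      Inv (x + 1) (insert s(v, x) E) (if v ∈ B then insert x B else B))
    (hΨ : ∀ E B, Inv N E B → Ψ E B = Ψ' E) :
    ∀ (d m : ℕ) (E : ESet) (B : Finset ℕ), m + d = N → Inv m E B →
      prB α m d Ψ E B = pr α m d Ψ' E := by
  intro d
  induction d with
  | zero =>
    intro m E B hm hE
    have : m = N := by omega
    subst this
    exact hΨ E B hE
  | succ d ih =>
    intro m E B hm hE
    rw [prB_succ, pr_succ]
    apply sum_congr rfl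
    intro v hv
    rw [ih (m+1) _ _ (by omega) (hstep m E B v (by omega) (mem_range.1 hv) hE)]

end SeedPA
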