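import Pool.Agent.SeedPA.Good
import Pool.Agent.SeedPA.Forward

/-!
# Interface: trees as edge sets, isomorphism, the separation property
-/

open Finset

namespace SeedPA

/-- `E` is the edge set of a tree on `{0,…,k-1}` -/
structure TreeOn (k : ℕ) (E : ESet) : Prop where
  valid : Valid k E
  conn : ∀ x < k, ∀ y < k, Conn E (fun _ => True) x y

/-- isomorphism of edge sets on `{0,…,k-1}` -/
def IsoOn (k : ℕ) (E E' : ESet) : Prop := ∃ σ : Equiv.Perm ℕ, FixGE k σ ∧ permE σ E = E'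

open Classical in
/-- indicator of a property of edge sets -/
noncomputable def ind (A : ESet → Prop) : ESet → ℝ := fun E => if A E then 1 else 0

/-- the separation property (K): a finite family of pairwise non-isomorphic trees of the same size
has a member which is separated from the others by isomorphism invariant events -/
def SepProp (α : ℝ) : Prop :=
  ∀ k : ℕ, 3 ≤ k → ∀ S : Finset ESet, S.Nonempty → (∀ E ∈ S, TreeOn k E) →
    (∀ E ∈ S, ∀ E' ∈ S, IsoOn k E E' → E = E') →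
    ∃ τ ∈ S, ∀ η : ℝ, 0 < η → ∃ p0 : ℝ, 0 < p0 ∧ ∃ n' : ℕ, ∀ n ≥ n', ∃ A : ESet → Prop,
      (∀ σ : Equiv.Perm ℕ, FixGE n σ → ∀ E, A (permE σ E) ↔ A E) ∧
      p0 ≤ pr α k (n - k) (ind A) τ ∧
      ∀ τ' ∈ S, τ' ≠ τ → pr α k (n - k) (ind A) τ' ≤ η * pr α k (n - k) (ind A) τ

/-- the concrete parameters -/
def par {I : Type*} (b Q d : ℕ) (q : I → ℕ) (n : ℕ) : Par I where
  n := n
  n0 := b ^ (2 * Q)
  n1 := b ^ (7 * Q + 1)
  β0 := b ^ (Q + d + 1)
  β1 := b ^ (Q + 2)
  u := b ^ (Q - d)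
  t := b ^ (6 * Q)
  D1 := b ^ (Q + 2)
  H := fun i => b ^ (Q - q i)

end SeedPA
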