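import Pool.Agent.SeedPA.IsoStep
import Pool.Agent.SeedPA.MainK

/-!
# Bridge between graphs on `Fin n` and edge sets on `ℕ`
-/

open scoped ENNReal
open Finset

namespace SeedPA

open Classical in
/-- the edge set of a finite graph, as a set of pairs of natural numbers -/
noncomputable def enc (G : FG) : ESet := G.2.edgeFinset.image (Sym2.map Fin.val)

theorem mem_enc {n : ℕ} {G : SimpleGraph (Fin n)} {a b : ℕ} :
    s(a, b) ∈ enc ⟨n, G⟩ ↔ ∃ (x y : Fin n), G.Adj x y ∧ x.val = a ∧ y.val = b := by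
  classical
  unfold enc
  rw [mem_image]
  constructor
  · rintro ⟨e, he, hab⟩
    induction e using Sym2.ind with
    | _ x y =>
      rw [SimpleGraph.mem_edgeFinset, SimpleGraph.mem_edgeSet] at he
      rw [Sym2.map_mk, Sym2.eq_iff] at hab
      rcases hab with ⟨h1, h2⟩ | ⟨h1, h2⟩
      · exact ⟨x, y, he, h1, h2⟩
      · exact ⟨y, x, he.symm, h2, h1⟩
  · rintro ⟨x, y, h, rfl, rfl⟩
    exact ⟨s(x, y), by rw [SimpleGraph.mem_edgeFinset, SimpleGraph.mem_edgeSet]; exact h, rfl⟩

theorem mem_enc_val {n : ℕ} {G : SimpleGraph (Fin n)} {x y : Fin n} :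
    s(x.val, y.val) ∈ enc ⟨n, G⟩ ↔ G.Adj x y := by
  rw [mem_enc]
  constructor
  · rintro ⟨x', y', h, h1, h2⟩
    rwa [Fin.ext h1, Fin.ext h2] at h
  · intro h
    exact ⟨x, y, h, rfl, rfl⟩

theorem enc_lt {n : ℕ} {G : SimpleGraph (Fin n)} : ∀ e ∈ enc ⟨n, G⟩, ∀ x ∈ e, x < n := by
  intro e he x hx
  induction e using Sym2.ind with
  | _ a b =>
    obtain ⟨u, v, _, rfl, rfl⟩ := mem_enc.1 he
    rcases Sym2.mem_iff.1 hx with rfl | rfl
    · exact u.2
    · exact v.2

theorem deg_enc {n : ℕ} {G : SimpleGraph (Fin n)} (v : Fin n) : deg (enc ⟨n, G⟩) v.val = dg G v := by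
  classical
  unfold deg dg
  have h1 : (G.neighborSet v).ncard = ((G.neighborSet v).toFinset).card :=
    Set.ncard_eq_toFinset_card' _
  rw [h1]
  symm
  refine Finset.card_bij (fun w _ => s(v.val, w.val)) ?_ ?_ ?_
  · intro w hw
    rw [Set.mem_toFinset, SimpleGraph.mem_neighborSet] at hw
    rw [mem_filter]
    exact ⟨mem_enc_val.2 hw, by simp⟩
  · intro w1 _ w2 _ h
    rw [Sym2.eq_iff] at h
    rcases h with ⟨_, h⟩ | ⟨h1, h2⟩
    · exact Fin.ext h
    · exact Fin.ext (h2.trans h1)
  · intro e he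
    rw [mem_filter] at he
    obtain ⟨he, hv⟩ := he
    induction e using Sym2.ind with
    | _ a b =>
      obtain ⟨x, y, hxy, rfl, rfl⟩ := mem_enc.1 he
      rcases Sym2.mem_iff.1 hv with h | h
      · have hx : v = x := Fin.ext h
        subst hx
        exact ⟨y, by rw [Set.mem_toFinset, SimpleGraph.mem_neighborSet]; exact hxy, rfl⟩
      · have hx : v = y := Fin.ext h
        subst hx
        exact ⟨x, by rw [Set.mem_toFinset, SimpleGraph.mem_neighborSet]; exact hxy.symm,
          Sym2.eq_swap⟩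

theorem enc_attach {n : ℕ} {G : SimpleGraph (Fin n)} (v : Fin n) :
    enc ⟨n + 1, attach G v⟩ = insert s(v.val, n) (enc ⟨n, G⟩) := by
  ext e
  induction e using Sym2.ind with
  | _ a b =>
    rw [mem_insert, mem_enc]
    constructor
    · rintro ⟨x, y, hxy, rfl, rfl⟩
      revert hxy
      refine Fin.lastCases ?_ (fun i => ?_) x
      · refine Fin.lastCases ?_ (fun j => ?_) y
        · intro h; exact absurd h ((attach G v).loopless.irrefl _)
        · intro h
          rw [attach_last_adj] at h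
          subst h
          left
          simp
      · refine Fin.lastCases ?_ (fun j => ?_) y
        · intro h
          rw [attach_adj_last] at h
          subst h
          left
          simp
        · intro h
          rw [attach_adj] at h
          right
          exact mem_enc_val.2 h
    · rintro (h | h)
      · rw [Sym2.eq_iff] at h
        rcases h with ⟨h1, h2⟩ | ⟨h1, h2⟩
        · exact ⟨v.castSucc, Fin.last n, (attach_adj_last v).2 rfl, h1.symm, h2.symm⟩
        · exact ⟨Fin.last n, v.castSucc, (attach_last_adj v).2 rfl, h1.symm, h2.symm⟩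
      · obtain ⟨x, y, hxy, rfl, rfl⟩ := mem_enc.1 h
        exact ⟨x.castSucc, y.castSucc, (attach_adj x y).2 hxy, rfl, rfl⟩

theorem W_enc (α : ℝ) {n : ℕ} (G : SimpleGraph (Fin n)) :
    W α n (enc ⟨n, G⟩) = ∑ v : Fin n, ((dg G v : ℝ)) ^ α := by
  unfold W
  rw [Finset.sum_range]
  exact Finset.sum_congr rfl fun v _ => by rw [deg_enc]

theorem tsum_wgt (α : ℝ) {n : ℕ} (G : SimpleGraph (Fin n)) :
    ∑' v, wgt α G v = ENNReal.ofReal (W α n (enc ⟨n, G⟩)) := by
  rw [tsum_fintype, W_enc, ENNReal.ofReal_sum_of_nonneg]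
  · rfl
  · intro v _
    positivity

/-- the step from a graph with positive weight, integrated -/
theorem paStep_bind {α : ℝ} {n : ℕ} {G : SimpleGraph (Fin n)} (hW : 0 < W α n (enc ⟨n, G⟩))
    {Y : Type*} (f : FG → PMF Y) (A : Set Y) :
    (((paStep α ⟨n, G⟩).bind f).toOuterMeasure A).toReal =
      ∑ v : Fin n, ((dg G v : ℝ) ^ α / W α n (enc ⟨n, G⟩)) *
        (((f ⟨n + 1, attach G v⟩).toOuterMeasure A).toReal) := by
  have h0 : ∑' v, wgt α G v ≠ 0 := by
    rw [tsum_wgt]
    exact (ENNReal.ofReal_pos.2 hW).ne'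
  have h1 : ∀ B : Set Y, ∀ p : PMF Y, p.toOuterMeasure B ≠ ∞ := by
    intro B p
    exact ne_top_of_le_ne_top ENNReal.one_ne_top (by
      rw [PMF.toOuterMeasure_apply, ← p.tsum_coe]
      exact ENNReal.tsum_le_tsum fun x => Set.indicator_le_self _ _ _)
  unfold paStep
  simp only
  rw [dif_pos h0, PMF.bind_map, PMF.toOuterMeasure_bind_apply, tsum_fintype,
    ENNReal.toReal_sum]
  · refine Finset.sum_congr rfl fun v _ => ?_
    rw [ENNReal.toReal_mul, PMF.normalize_apply, ENNReal.toReal_mul, ENNReal.toReal_inv,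
      tsum_wgt, ENNReal.toReal_ofReal hW.le]
    unfold wgt
    rw [ENNReal.toReal_ofReal (by positivity)]
    rfl
  · intro v _
    exact ENNReal.mul_ne_top (PMF.apply_ne_top _ _) (h1 _ _)

/-- the first-step form of the law -/
theorem paLaw_succ' (α : ℝ) : ∀ (d : ℕ) (S : FG),
    paLaw α S (d + 1) = (paStep α S).bind fun G => paLaw α G d := by
  intro d
  induction d with
  | zero =>
    intro S
    show (paLaw α S 0).bind (paStep α) = _
    show (PMF.pure S).bind (paStep α) = (paStep α S).bind fun G => PMF.pure G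
    rw [PMF.pure_bind, PMF.bind_pure]
  | succ d ih =>
    intro S
    show (paLaw α S (d + 1)).bind (paStep α) = _
    rw [ih, PMF.bind_bind]
    rfl

/-- probabilities of label-invariant events in terms of `pr` -/
theorem paLaw_eq_pr {α : ℝ} (h0 : 0 < α) (A : ESet → Prop) : ∀ (d m : ℕ) (G : SimpleGraph (Fin m)),
    1 ≤ m → Valid m (enc ⟨m, G⟩) →
    ((paLaw α ⟨m, G⟩ d).toOuterMeasure {H | H.1 = m + d ∧ A (enc H)}).toReal =
      pr α m d (ind A) (enc ⟨m, G⟩) := by
  intro d
  induction d with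
  | zero =>
    intro m G hm hV
    show ((PMF.pure (⟨m, G⟩ : FG)).toOuterMeasure _).toReal = ind A (enc ⟨m, G⟩)
    rw [PMF.toOuterMeasure_pure_apply]
    unfold ind
    by_cases hA : A (enc ⟨m, G⟩)
    · rw [if_pos (by exact ⟨by simp, hA⟩), if_pos hA, ENNReal.toReal_one]
    · rw [if_neg (by rintro ⟨_, h⟩; exact hA h), if_neg hA, ENNReal.toReal_zero]
  | succ d ih =>
    intro m G hm hV
    rw [paLaw_succ', paStep_bind (hV.W_pos h0 hm), pr_succ, Finset.sum_range]
    refine Finset.sum_congr rfl fun v _ => ?_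
    have hV' : Valid (m + 1) (enc ⟨m + 1, attach G v⟩) := by
      rw [enc_attach]
      exact hV.step v.2
    have h := ih (m + 1) (attach G v) (by omega) hV'
    rw [enc_attach] at h
    have hset : {H : FG | H.1 = m + (d + 1) ∧ A (enc H)} =
        {H : FG | H.1 = m + 1 + d ∧ A (enc H)} := by
      ext H
      constructor
      · rintro ⟨h1, h2⟩; exact ⟨by omega, h2⟩
      · rintro ⟨h1, h2⟩; exact ⟨by omega, h2⟩
    rw [deg_enc, ← h, hset]

end SeedPA
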