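import Pool.Agent.SeedPA.Good

/-!
# General facts on path sums: dead states, locality, prefix functionals
-/

open Finset

namespace SeedPA

variable {C : Type*}

/-- if a property of states persists under steps and kills the terminal functional then the value
of a state with this property vanishes -/
theorem itr_dead [Fintype C] {g : ℕ → St C → ℕ → C → ℝ} {Θ : St C → ℝ} (Dead : ℕ → St C → Prop)
    (N : ℕ)
    (hstep : ∀ x s v c, x < N → v < x → Dead x s → g x s v c ≠ 0 → Dead (x + 1) (s.step x v c))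
    (hΘ : ∀ s, Dead N s → Θ s = 0) :
    ∀ (d m : ℕ) (s : St C), m + d = N → Dead m s → itr g m d Θ s = 0 := by
  intro d
  induction d with
  | zero =>
    intro m s hm hs
    have : m = N := by omega
    subst this
    exact hΘ s hs
  | succ d ih =>
    intro m s hm hs
    rw [itr_succ]
    apply sum_eq_zero; intro v hv
    apply sum_eq_zero; intro c _
    by_cases hz : g m s v c = 0
    · rw [hz, zero_mul]
    · rw [ih (m + 1) _ (by omega) (hstep m s v c (by omega) (mem_range.1 hv) hs hz), mul_zero]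

theorem itr_mono [Fintype C] {g : ℕ → St C → ℕ → C → ℝ} (hg : ∀ m s v c, 0 ≤ g m s v c)
    {Θ Θ' : St C → ℝ} (h : ∀ s, Θ s ≤ Θ' s) :
    ∀ (d m : ℕ) (s : St C), itr g m d Θ s ≤ itr g m d Θ' s := by
  intro d
  induction d with
  | zero => intro m s; exact h s
  | succ d ih =>
    intro m s
    rw [itr_succ, itr_succ]
    exact sum_le_sum fun v _ => sum_le_sum fun c _ =>
      mul_le_mul_of_nonneg_left (ih _ _) (hg _ _ _ _)

/-- monotonicity along an invariant -/
theorem itr_mono_inv [Fintype C] {g : ℕ → St C → ℕ → C → ℝ} (hg : ∀ m s v c, 0 ≤ g m s v c)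
    (Inv : ℕ → St C → Prop) {Θ Θ' : St C → ℝ} (N : ℕ)
    (hstep : ∀ x s v c, x < N → v < x → Inv x s → g x s v c ≠ 0 → Inv (x + 1) (s.step x v c))
    (hΘ : ∀ s, Inv N s → Θ s ≤ Θ' s) :
    ∀ (d m : ℕ) (s : St C), m + d = N → Inv m s → itr g m d Θ s ≤ itr g m d Θ' s := by
  intro d
  induction d with
  | zero =>
    intro m s hm hs
    have : m = N := by omega
    subst this
    exact hΘ s hs
  | succ d ih =>
    intro m s hm hs
    rw [itr_succ, itr_succ]
    apply sum_le_sum; intro v hv
    apply sum_le_sum; intro c _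
    by_cases hz : g m s v c = 0
    · rw [hz, zero_mul, zero_mul]
    · exact mul_le_mul_of_nonneg_left
        (ih (m+1) _ (by omega) (hstep m s v c (by omega) (mem_range.1 hv) hs hz)) (hg _ _ _ _)

/-- equality of two states on the labels `< m` -/
def LEq (m : ℕ) (s s' : St C) : Prop := s.E = s'.E ∧ ∀ x < m, s.col x = s'.col x

theorem LEq.step {m : ℕ} {s s' : St C} (h : LEq m s s') (v : ℕ) (c : C) :
    LEq (m + 1) (s.step m v c) (s'.step m v c) := by
  refine ⟨by rw [St.step_E, St.step_E, h.1], ?_⟩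
  intro x hx
  by_cases hxm : x = m
  · rw [hxm, St.step_col_self, St.step_col_self]
  · rw [St.step_col_of_ne _ _ _ _ hxm, St.step_col_of_ne _ _ _ _ hxm]
    exact h.2 x (by omega)

/-- a functional which only sees the labels `< m` -/
def Loc (m : ℕ) (Θ : St C → ℝ) : Prop := ∀ s s', Valid m s.E → LEq m s s' → Θ s = Θ s'

theorem itr_loc [Fintype C] {g : ℕ → St C → ℕ → C → ℝ}
    (hg : ∀ m s s' v c, v < m → LEq m s s' → g m s v c = g m s' v c) {Θ : St C → ℝ} {N : ℕ}
    (hΘ : Loc N Θ) : ∀ (d m : ℕ), m + d = N → Loc m (itr g m d Θ) := by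
  intro d
  induction d with
  | zero =>
    intro m hm s s' hs h
    have : m = N := by omega
    subst this
    exact hΘ s s' hs h
  | succ d ih =>
    intro m hm s s' hs h
    rw [itr_succ, itr_succ]
    apply sum_congr rfl; intro v hv
    apply sum_congr rfl; intro c _
    rw [hg m s s' v c (mem_range.1 hv) h,
      ih (m + 1) (by omega) _ _ (hs.step (mem_range.1 hv)) (h.step v c)]

variable {I : Type*}

theorem okStep_loc {Z : SimpleGraph I} {m : ℕ} {s s' : St (Option I)} {v : ℕ} {c : Option I}
    (hv : v < m) (h : LEq m s s') : okStep Z m s v c ↔ okStep Z m s' v c := by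
  cases c with
  | none => simp [okStep]
  | some i =>
    simp only [okStep]
    have e1 : (∀ x < m, s.col x ≠ some i) ↔ ∀ x < m, s'.col x ≠ some i := by
      constructor
      · intro h' x hx; rw [← h.2 x hx]; exact h' x hx
      · intro h' x hx; rw [h.2 x hx]; exact h' x hx
    have e2 : (∀ x < m, s.col x = none) ↔ ∀ x < m, s'.col x = none := by
      constructor
      · intro h' x hx; rw [← h.2 x hx]; exact h' x hx
      · intro h' x hx; rw [h.2 x hx]; exact h' x hx
    rw [e1, e2, h.2 v hv]

theorem gP_loc {α : ℝ} {Z : SimpleGraph I} {m : ℕ} {s s' : St (Option I)} {v : ℕ} {c : Option I}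
    (hv : v < m) (h : LEq m s s') : gP α (okStep Z) m s v c = gP α (okStep Z) m s' v c := by
  unfold gP
  have := okStep_loc (Z := Z) (c := c) hv h
  by_cases h1 : okStep Z m s v c
  · rw [if_pos h1, if_pos (this.1 h1), h.1]
  · rw [if_neg h1, if_neg (fun h2 => h1 (this.2 h2))]

theorem LEq.symm {m : ℕ} {s s' : St C} (h : LEq m s s') : LEq m s' s :=
  ⟨h.1.symm, fun x hx => (h.2 x hx).symm⟩

theorem LEq.mono {m n : ℕ} (hmn : m ≤ n) {s s' : St C} (h : LEq n s s') : LEq m s s' :=
  ⟨h.1, fun x hx => h.2 x (by omega)⟩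

/-- connectedness through non-hubs only sees labels `< m` -/
theorem Cn_loc {m : ℕ} {s s' : St (Option I)} (hs : ∀ e ∈ s.E, ∀ x ∈ e, x < m) (h : LEq m s s')
    {x y : ℕ} : Cn s x y ↔ Cn s' x y := by
  have key : ∀ s s' : St (Option I), (∀ e ∈ s.E, ∀ x ∈ e, x < m) → LEq m s s' → ∀ x y,
      Cn s x y → Cn s' x y := by
    intro s s' hs h x y hc
    unfold Cn Conn at hc ⊢
    induction hc with
    | refl => exact Relation.ReflTransGen.refl
    | @tail b c _ hbc ih =>
      refine ih.tail ⟨by rw [← h.1]; exact hbc.1, ?_, ?_⟩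
      · have := h.2 b (hs _ hbc.1 b (by simp))
        unfold nhS at *; rw [← this]; exact hbc.2.1
      · have := h.2 c (hs _ hbc.1 c (by simp))
        unfold nhS at *; rw [← this]; exact hbc.2.2
  exact ⟨key s s' hs h x y, key s' s (by rw [← h.1]; exact hs) h.symm x y⟩

theorem cs_loc {m k : ℕ} (hk : k ≤ m) {s s' : St (Option I)} (hs : ∀ e ∈ s.E, ∀ x ∈ e, x < m)
    (h : LEq m s s') (x : ℕ) : cs k s x = cs k s' x := by
  classical
  unfold cs csz
  congr 1
  apply filter_congr
  intro y hy
  have hy' := mem_range.1 hy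
  have h1 := h.2 y (by omega)
  have h2 := Cn_loc hs h (x := x) (y := y)
  unfold nhS Cn at *
  rw [h1]
  exact and_congr_right fun _ => h2

theorem hubAdj_loc {n : ℕ} {s s' : St (Option I)} (h : LEq n s s') (x : ℕ) :
    HubAdj n s x ↔ HubAdj n s' x := by
  have key : ∀ s s' : St (Option I), LEq n s s' → HubAdj n s x → HubAdj n s' x := by
    rintro s s' h ⟨h1, h2, y, hy, h3, h4⟩
    exact ⟨h1, by rw [← h.2 x h1]; exact h2, y, hy, by rw [← h.2 y hy]; exact h3,
      by rw [← h.1]; exact h4⟩
  exact ⟨key s s' h, key s' s h.symm⟩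

theorem bigSet_loc {P : Par I} {s s' : St (Option I)} (hs : Valid P.n s.E) (h : LEq P.n s s')
    (y : ℕ) : bigSet P s y = bigSet P s' y := by
  classical
  unfold bigSet
  apply filter_congr
  intro x hx
  have hx' := mem_range.1 hx
  unfold BigAt
  rw [h.2 x hx', h.1, cs_loc le_rfl hs.lt h]

theorem Good.loc {P : Par I} (hP : P.n1 ≤ P.n) {Z : SimpleGraph I} {s s' : St (Option I)}
    (hs : Valid P.n s.E) (h : LEq P.n s s') (hG : Good P Z s) : Good P Z s' := by
  constructor
  · intro i
    obtain ⟨x, hx, hc⟩ := hG.ex i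
    exact ⟨x, hx, by rw [← h.2 x (by omega)]; exact hc⟩
  · intro i x y hx hy h1 h2
    rw [← h.2 x hx] at h1
    rw [← h.2 y hy] at h2
    exact hG.uniq i x y hx hy h1 h2
  · intro i i' x y hx hy h1 h2 hZ
    rw [← h.2 x hx] at h1
    rw [← h.2 y hy] at h2
    rw [← h.1]
    exact hG.adj i i' x y hx hy h1 h2 hZ
  · intro x hx hc
    rw [← h.2 x hx] at hc
    rw [← cs_loc le_rfl hs.lt h]
    exact hG.small x hx hc
  · intro i y hy hc
    rw [← h.2 y hy] at hc
    rw [← bigSet_loc hs h]
    exact hG.lo i y hy hc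
  · intro i y hy hc
    rw [← h.2 y hy] at hc
    rw [← bigSet_loc hs h]
    exact hG.hi i y hy hc
  · intro x hx hh
    rw [← hubAdj_loc h] at hh
    rw [← cs_loc le_rfl hs.lt h]
    exact hG.g1 x hx hh
  · intro x hx hh hsm
    rw [← hubAdj_loc h] at hh
    rw [← cs_loc le_rfl hs.lt h] at hsm
    rw [← cs_loc hP hs.lt h]
    exact hG.g2 x hx hh hsm
  · intro y hy hc
    rw [← h.2 y hy] at hc
    rw [← h.1]
    exact hG.g3 y hy hc

theorem Theta_loc {α : ℝ} {P : Par I} (hP : P.n1 ≤ P.n) (Z : SimpleGraph I) :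
    Loc P.n (Theta α P Z) := by
  intro s s' hs h
  unfold Theta
  by_cases hG : Good P Z s
  · rw [if_pos hG, if_pos (hG.loc hP hs h), h.1]
  · rw [if_neg hG, if_neg]
    intro hG'
    exact hG (hG'.loc hP (by rw [← h.1]; exact hs) h.symm)

open Classical in
/-- terminal functional restricted to a property -/
noncomputable def thA (α : ℝ) (P : Par I) (Z : SimpleGraph I) (A : St (Option I) → Prop) :
    St (Option I) → ℝ := fun s => if A s then Theta α P Z s else 0

section value

variable [Fintype I] {α : ℝ} {P : Par I} {Z : SimpleGraph I}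

theorem Rv_loc (hP : P.n1 ≤ P.n) {m : ℕ} (hm : m ≤ P.n) : Loc m (Rv α P Z m) := by
  have h : ∀ (m : ℕ) (s s' : St (Option I)) (v : ℕ) (c : Option I), v < m → LEq m s s' →
      gP α (okStep Z) m s v c = gP α (okStep Z) m s' v c := fun m s s' v c hv h => gP_loc hv h
  exact itr_loc h (Theta_loc hP Z) (P.n - m) m (by omega)

/-- values are invariant under relabellings of the labels below the level -/
theorem Rv_TInv (hP : P.n1 ≤ P.n) {m : ℕ} (hm : m ≤ P.n1) : TInv m (Rv α P Z m) :=
  itr_TInv (fun m => (okStep_PInv Z).gInv m) hm (Theta_TInv hP Z)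

omit [Fintype I] in
theorem thA_nonneg (A : St (Option I) → Prop) (s : St (Option I)) : 0 ≤ thA α P Z A s := by
  unfold thA
  split_ifs
  · exact Theta_nonneg α P Z s
  · exact le_rfl

theorem RvA_def (A : St (Option I) → Prop) (m : ℕ) (s : St (Option I)) :
    RvA α P Z m A s = ev α P Z m (thA α P Z A) s := rfl

theorem ev_mono {f f' : St (Option I) → ℝ} (h : ∀ s, f s ≤ f' s) (m : ℕ) (s : St (Option I)) :
    ev α P Z m f s ≤ ev α P Z m f' s :=
  itr_mono (fun m s v c => gP_nonneg m s v c) h _ _ _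

theorem RvA_le_Rv (A : St (Option I) → Prop) (m : ℕ) (s : St (Option I)) :
    RvA α P Z m A s ≤ Rv α P Z m s := by
  apply ev_mono
  intro s
  split_ifs
  · exact le_rfl
  · exact Theta_nonneg α P Z s

theorem RvA_mono {A B : St (Option I) → Prop} (h : ∀ s, Good P Z s → A s → B s) (m : ℕ)
    (s : St (Option I)) : RvA α P Z m A s ≤ RvA α P Z m B s := by
  apply ev_mono
  intro s
  by_cases hG : Good P Z s
  · by_cases hA : A s
    · simp [hA, h s hG hA]
    · rw [if_neg hA]
      split_ifs
      · exact Theta_nonneg α P Z s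
      · exact le_rfl
  · have : Theta α P Z s = 0 := by unfold Theta; rw [if_neg hG]
    simp [this]

/-- monotonicity along an invariant -/
theorem RvA_mono_inv (Inv : ℕ → St (Option I) → Prop)
    (hstep : ∀ x s v c, x < P.n → v < x → Inv x s → okStep Z x s v c → Inv (x + 1) (s.step x v c))
    {A B : St (Option I) → Prop} (h : ∀ s, Inv P.n s → Good P Z s → A s → B s) {m : ℕ}
    (hm : m ≤ P.n) {s : St (Option I)} (hs : Inv m s) :
    RvA α P Z m A s ≤ RvA α P Z m B s := by
  apply itr_mono_inv (fun m s v c => gP_nonneg m s v c) Inv P.n _ _ _ _ _ (by omega) hs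
  · intro x s v c hx hv hi hg
    apply hstep x s v c hx hv hi
    by_contra hc
    apply hg
    unfold gP; rw [if_neg hc]
  · intro s hi
    by_cases hG : Good P Z s
    · by_cases hA : A s
      · simp [hA, h s hi hG hA]
      · rw [if_neg hA]
        split_ifs
        · exact Theta_nonneg α P Z s
        · exact le_rfl
    · have : Theta α P Z s = 0 := by unfold Theta; rw [if_neg hG]
      simp [this]

theorem RvA_split (A : St (Option I) → Prop) (m : ℕ) (s : St (Option I)) :
    Rv α P Z m s = RvA α P Z m A s + RvA α P Z m (fun s => ¬ A s) s := by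
  unfold Rv RvA ev
  rw [← itr_add]
  congr 1
  funext s
  by_cases hA : A s <;> simp [hA]

/-- union bound -/
theorem RvA_union {ι : Type*} (T : Finset ι) {A : St (Option I) → Prop}
    {B : ι → St (Option I) → Prop} (h : ∀ s, Good P Z s → A s → ∃ i ∈ T, B i s) (m : ℕ)
    (s : St (Option I)) : RvA α P Z m A s ≤ ∑ i ∈ T, RvA α P Z m (B i) s := by
  classical
  unfold RvA ev
  rw [← itr_sum]
  apply itr_mono (fun m s v c => gP_nonneg m s v c)
  intro s
  have h0 : ∀ i ∈ T, 0 ≤ (if B i s then Theta α P Z s else 0) := by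
    intro i _
    split_ifs
    · exact Theta_nonneg α P Z s
    · exact le_rfl
  by_cases hG : Good P Z s
  · by_cases hA : A s
    · obtain ⟨i, hi, hB⟩ := h s hG hA
      rw [if_pos hA]
      have := single_le_sum h0 hi
      rwa [if_pos hB] at this
    · rw [if_neg hA]
      exact sum_nonneg h0
  · have : Theta α P Z s = 0 := by unfold Theta; rw [if_neg hG]
    simp [this]

open Classical in
/-- the one-step recursion -/
theorem ev_rec (hα : 0 < α) {m : ℕ} (hm : 1 ≤ m) (hmn : m < P.n) {f : St (Option I) → ℝ}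
    {s : St (Option I)} (hs : Valid m s.E) :
    W α m s.E * ev α P Z m f s = ∑ v ∈ range m, ∑ c,
      if okStep Z m s v c then ev α P Z (m + 1) f (s.step m v c) else 0 := by
  unfold ev
  have e : P.n - m = (P.n - (m + 1)) + 1 := by omega
  rw [e]
  exact val_rec (hs.W_pos hα hm)

/-- a single step is bounded by the weight times the value -/
theorem ev_step_le (hα : 0 < α) {m : ℕ} (hm : 1 ≤ m) (hmn : m < P.n) {f : St (Option I) → ℝ}
    (hf : ∀ s, 0 ≤ f s) {s : St (Option I)} (hs : Valid m s.E) {v : ℕ} (hv : v < m) {c : Option I}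
    (hok : okStep Z m s v c) :
    ev α P Z (m + 1) f (s.step m v c) ≤ W α m s.E * ev α P Z m f s := by
  classical
  rw [ev_rec hα hm hmn hs]
  have h0 : ∀ v ∈ range m, 0 ≤ ∑ c,
      (if okStep Z m s v c then ev α P Z (m + 1) f (s.step m v c) else 0) := by
    intro v _
    apply sum_nonneg; intro c _
    split_ifs
    · exact ev_nonneg hf _ _
    · exact le_rfl
  refine le_trans ?_ (single_le_sum h0 (mem_range.2 hv))
  have h1 : ∀ c ∈ (univ : Finset (Option I)), 0 ≤
      (if okStep Z m s v c then ev α P Z (m + 1) f (s.step m v c) else 0) := by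
    intro c _
    split_ifs
    · exact ev_nonneg hf _ _
    · exact le_rfl
  refine le_trans (le_of_eq ?_) (single_le_sum h1 (mem_univ c))
  rw [if_pos hok]

theorem Rv_step_le (hα : 0 < α) {m : ℕ} (hm : 1 ≤ m) (hmn : m < P.n) {s : St (Option I)}
    (hs : Valid m s.E) {v : ℕ} (hv : v < m) {c : Option I} (hok : okStep Z m s v c) :
    Rv α P Z (m + 1) (s.step m v c) ≤ W α m s.E * Rv α P Z m s :=
  ev_step_le hα hm hmn (Theta_nonneg α P Z) hs hv hok

/-- functionals which are products of a functional seen at an intermediate level -/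
theorem ev_comp {m M : ℕ} (hm : m ≤ M) (hM : M ≤ P.n) (f : St (Option I) → ℝ) (s : St (Option I)) :
    ev α P Z m f s = itr (gP α (okStep Z)) m (M - m) (ev α P Z M f) s := by
  unfold ev
  have : P.n - m = (M - m) + (P.n - M) := by omega
  rw [this, itr_comp, show m + (M - m) = M by omega]

end value

end SeedPA
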