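import Pool.Agent.SeedPA.Forward

/-!
# Tail bound for the degree of a fixed vertex
-/

open Finset

namespace SeedPA

/-- truncated potential of the degree -/
noncomputable def phiT (α a : ℝ) (x D : ℕ) : ℝ := a ^ (min D x) / (((min D x).factorial : ℝ)) ^ α

theorem phiT_pos {α a : ℝ} (ha : 1 ≤ a) (x D : ℕ) : 0 < phiT α a x D := by
  unfold phiT
  have : 0 < (((min D x).factorial : ℝ)) := by exact_mod_cast Nat.factorial_pos _
  positivity

theorem phiT_succ_le {α a : ℝ} (h0 : 0 < α) (ha : 1 ≤ a) {x D : ℕ} :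
    ((D : ℝ)) ^ α * (phiT α a x (D + 1) - phiT α a x D) ≤ a * phiT α a x D := by
  have hp := phiT_pos (α := α) ha x D
  by_cases hx : x ≤ D
  · have : phiT α a x (D + 1) = phiT α a x D := by
      unfold phiT
      rw [min_eq_right hx, min_eq_right (by omega)]
    rw [this, sub_self, mul_zero]
    positivity
  · have hx' : D + 1 ≤ x := by omega
    have e1 : phiT α a x D = a ^ D / ((D.factorial : ℝ)) ^ α := by
      unfold phiT
      rw [min_eq_left (by omega)]
    have e2 : phiT α a x (D + 1) = phiT α a x D * (a / ((D : ℝ) + 1) ^ α) := by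
      rw [e1]
      unfold phiT
      rw [min_eq_left hx', Nat.factorial_succ, pow_succ]
      push_cast
      rw [Real.mul_rpow (by positivity) (by positivity)]
      field_simp
    have hD0 : (0:ℝ) ≤ (D:ℝ) := by positivity
    have hDα : 0 ≤ (D:ℝ) ^ α := by positivity
    have h3 : (D:ℝ) ^ α ≤ ((D:ℝ) + 1) ^ α := Real.rpow_le_rpow hD0 (by linarith) h0.le
    have h4 : 0 < ((D:ℝ) + 1) ^ α := by positivity
    have h5 : (D:ℝ) ^ α * (a / ((D : ℝ) + 1) ^ α) ≤ a := by
      rw [mul_div_assoc', div_le_iff₀ h4, mul_comm]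
      exact mul_le_mul_of_nonneg_left h3 (by linarith)
    calc ((D : ℝ)) ^ α * (phiT α a x (D + 1) - phiT α a x D)
        ≤ ((D : ℝ)) ^ α * phiT α a x (D + 1) :=
          mul_le_mul_of_nonneg_left (by linarith) hDα
      _ = ((D:ℝ) ^ α * (a / ((D : ℝ) + 1) ^ α)) * phiT α a x D := by rw [e2]; ring
      _ ≤ a * phiT α a x D := mul_le_mul_of_nonneg_right h5 hp.le

/-- one step bound -/
theorem phiT_step {α : ℝ} (h0 : 0 < α) {m : ℕ} {E : ESet} (hm : 1 ≤ m) (hE : Valid m E)
    {v : ℕ} (hv : v < m) {x : ℕ} {a : ℝ} (ha : 1 ≤ a) :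
    ∑ w ∈ range m, ((deg E w : ℝ) ^ α / W α m E) * phiT α a x (deg (insert s(w, m) E) v) ≤
      phiT α a x (deg E v) * (1 + a / m) := by
  have hW := hE.W_pos h0 hm
  have hp := phiT_pos (α := α) ha x (deg E v)
  have e1 : ∀ w ∈ range m, ((deg E w : ℝ) ^ α / W α m E) * phiT α a x (deg (insert s(w, m) E) v) =
      ((deg E w : ℝ) ^ α / W α m E) * phiT α a x (deg E v) +
        (if w = v then ((deg E v : ℝ) ^ α / W α m E) *
          (phiT α a x (deg E v + 1) - phiT α a x (deg E v)) else 0) := by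
    intro w hw
    rw [deg_insert (hE.not_mem w)]
    by_cases hwv : w = v
    · subst hwv
      simp
      ring
    · have h1 : ¬ (v = w ∨ v = m) := by
        rintro (h | h)
        · exact hwv h.symm
        · omega
      rw [if_neg h1, if_neg hwv, add_zero, add_zero]
  rw [sum_congr rfl e1, sum_add_distrib, ← sum_mul, hE.sum_wt h0 hm, one_mul,
    sum_ite_eq' (range m) v, if_pos (mem_range.2 hv)]
  have h2 := phiT_succ_le h0 ha (x := x) (D := deg E v)
  have h3 : (deg E v : ℝ) ^ α / W α m E * (phiT α a x (deg E v + 1) - phiT α a x (deg E v)) ≤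
      a * phiT α a x (deg E v) / W α m E := by
    rw [div_mul_eq_mul_div]
    exact div_le_div_of_nonneg_right h2 hW.le
  have hm0 : (0:ℝ) < m := by exact_mod_cast hm
  have h4 : a * phiT α a x (deg E v) / W α m E ≤ a * phiT α a x (deg E v) / m :=
    div_le_div_of_nonneg_left (by positivity) hm0 (hE.le_W h0)
  calc _ ≤ phiT α a x (deg E v) + a * phiT α a x (deg E v) / m := by linarith
    _ = _ := by ring

theorem phiT_pr {α : ℝ} (h0 : 0 < α) {v : ℕ} {x : ℕ} {a : ℝ} (ha : 1 ≤ a) :
    ∀ (d m : ℕ) (E : ESet), 1 ≤ m → Valid m E → v < m →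
      pr α m d (fun E' => phiT α a x (deg E' v)) E ≤
        phiT α a x (deg E v) * (((m + d : ℕ) : ℝ) / m) ^ a := by
  intro d
  induction d with
  | zero =>
    intro m E hm hE hv
    have hm0 : (m:ℝ) ≠ 0 := by positivity
    simp [hm0]
  | succ d ih =>
    intro m E hm hE hv
    have hm0 : (0:ℝ) < m := by exact_mod_cast hm
    rw [pr_succ]
    set K : ℝ := (((m + 1 + d : ℕ) : ℝ) / ((m + 1 : ℕ) : ℝ)) ^ a with hK
    have hK0 : 0 ≤ K := by positivity
    have h1 : ∀ w ∈ range m, ((deg E w : ℝ) ^ α / W α m E) *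
        pr α (m + 1) d (fun E' => phiT α a x (deg E' v)) (insert s(w, m) E) ≤
        (((deg E w : ℝ) ^ α / W α m E) * phiT α a x (deg (insert s(w, m) E) v)) * K := by
      intro w hw
      rw [mul_assoc]
      exact mul_le_mul_of_nonneg_left
        (ih (m+1) _ (by omega) (hE.step (mem_range.1 hw)) (by omega)) (wt_nonneg m w E)
    refine (sum_le_sum h1).trans ?_
    rw [← sum_mul]
    have h2 := mul_le_mul_of_nonneg_right (phiT_step (x := x) h0 hm hE hv ha) hK0
    refine h2.trans ?_
    have hp := phiT_pos (α := α) ha x (deg E v)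
    rw [mul_assoc]
    apply mul_le_mul_of_nonneg_left _ hp.le
    have h3 : 1 + a / m ≤ (((m + 1 : ℕ) : ℝ) / m) ^ a := by
      have := one_add_mul_self_le_rpow_one_add (s := 1 / (m:ℝ)) (p := a)
        (by have : (0:ℝ) ≤ 1 / m := by positivity
            linarith) ha
      have e : ((m + 1 : ℕ) : ℝ) / m = 1 + 1 / m := by
        push_cast; field_simp
      rw [e]
      calc 1 + a / m = 1 + a * (1 / m) := by ring
        _ ≤ _ := this
    calc (1 + a / m) * K ≤ (((m + 1 : ℕ) : ℝ) / m) ^ a * K :=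
          mul_le_mul_of_nonneg_right h3 hK0
      _ = (((m + (d + 1) : ℕ) : ℝ) / m) ^ a := by
          rw [hK, ← Real.mul_rpow (by positivity) (by positivity)]
          congr 1
          have : ((m + 1 : ℕ) : ℝ) ≠ 0 := by positivity
          field_simp
          push_cast; ring

theorem deg_tail {α : ℝ} (h0 : 0 < α) (_h1 : α < 1) {m d : ℕ} {E : ESet} (hm : 1 ≤ m)
    (hE : Valid m E) {v : ℕ} (hv : v < m) {x : ℕ} (hx : deg E v ≤ x) {a : ℝ} (ha : 1 ≤ a) :
    pr α m d (fun E' => if x ≤ deg E' v then 1 else 0) E ≤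
      (a⁻¹) ^ (x - deg E v) * ((x.factorial : ℝ) / ((deg E v).factorial : ℝ)) ^ α *
        (((m + d : ℕ) : ℝ) / m) ^ a := by
  have ha0 : 0 < a := by linarith
  have hxf : (0:ℝ) < (x.factorial : ℝ) := by exact_mod_cast Nat.factorial_pos _
  have hDf : (0:ℝ) < ((deg E v).factorial : ℝ) := by exact_mod_cast Nat.factorial_pos _
  have hfx : 0 < a ^ x / ((x.factorial : ℝ)) ^ α := by positivity
  have h1 : pr α m d (fun E' => if x ≤ deg E' v then 1 else 0) E ≤
      pr α m d (fun E' => (a ^ x / ((x.factorial : ℝ)) ^ α)⁻¹ * phiT α a x (deg E' v)) E := by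
    apply pr_le_inv (fun _ _ => True) (m + d) (fun _ _ _ _ _ _ => trivial) _ d m E rfl trivial
    intro E' _
    split_ifs with h
    · have : phiT α a x (deg E' v) = a ^ x / ((x.factorial : ℝ)) ^ α := by
        unfold phiT
        rw [min_eq_right h]
      rw [this, inv_mul_cancel₀ hfx.ne']
    · have := phiT_pos (α := α) ha x (deg E' v)
      positivity
  rw [pr_const_mul] at h1
  refine h1.trans ?_
  have h2 := phiT_pr (x := x) h0 ha d m E hm hE hv
  have h3 : phiT α a x (deg E v) = a ^ (deg E v) / (((deg E v).factorial : ℝ)) ^ α := by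
    unfold phiT
    rw [min_eq_left hx]
  rw [h3] at h2
  refine (mul_le_mul_of_nonneg_left h2 (by positivity)).trans ?_
  rw [← mul_assoc]
  apply mul_le_mul_of_nonneg_right _ (by positivity)
  apply le_of_eq
  rw [Real.div_rpow hxf.le hDf.le, inv_pow]
  have e : a ^ x = a ^ (x - deg E v) * a ^ (deg E v) := by
    rw [← pow_add]; congr 1; omega
  rw [e]
  have : 0 < ((x.factorial : ℝ)) ^ α := by positivity
  have : 0 < (((deg E v).factorial : ℝ)) ^ α := by positivity
  field_simp

end SeedPA
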