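import Pool.Agent.SeedPA.Tree

/-!
# Tools for probability bounds: union bound, intermediate levels, inherited components
-/

open Finset

namespace SeedPA

section pr
variable {α : ℝ}

theorem ind_nonneg (A : ESet → Prop) (E : ESet) : 0 ≤ ind A E := by
  unfold ind; split_ifs <;> norm_num

theorem ind_le_one (A : ESet → Prop) (E : ESet) : ind A E ≤ 1 := by
  unfold ind; split_ifs <;> norm_num

theorem ind_of {A : ESet → Prop} {E : ESet} (h : A E) : ind A E = 1 := by
  unfold ind; rw [if_pos h]

theorem ind_of_not {A : ESet → Prop} {E : ESet} (h : ¬ A E) : ind A E = 0 := by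
  unfold ind; rw [if_neg h]

theorem ind_mono {A A' : ESet → Prop} {E : ESet} (h : A E → A' E) : ind A E ≤ ind A' E := by
  by_cases hA : A E
  · rw [ind_of hA, ind_of (h hA)]
  · rw [ind_of_not hA]; exact ind_nonneg _ _

/-- monotonicity along trees -/
theorem pr_mono_tree {Ψ Ψ' : ESet → ℝ} {m d : ℕ} {E : ESet} (hE : TreeOn m E)
    (h : ∀ E', TreeOn (m + d) E' → Ψ E' ≤ Ψ' E') : pr α m d Ψ E ≤ pr α m d Ψ' E :=
  pr_le_inv (fun m E => TreeOn m E) (m + d) (fun _ _ _ _ hv hI => hI.step hv) h d m E rfl hE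

theorem pr_mono {Ψ Ψ' : ESet → ℝ} {m d : ℕ} {E : ESet}
    (h : ∀ E', Ψ E' ≤ Ψ' E') : pr α m d Ψ E ≤ pr α m d Ψ' E :=
  pr_le_inv (fun _ _ => True) (m + d) (fun _ _ _ _ _ _ => trivial) (fun E _ => h E) d m E rfl
    trivial

/-- union bound -/
theorem pr_union {ι : Type*} (T : Finset ι) (A : ι → ESet → Prop) (m d : ℕ) (E : ESet) :
    pr α m d (ind (fun E' => ∃ i ∈ T, A i E')) E ≤ ∑ i ∈ T, pr α m d (ind (A i)) E := by
  rw [← pr_sum]
  apply pr_mono
  intro E'
  by_cases h : ∃ i ∈ T, A i E'
  · obtain ⟨i, hi, hA⟩ := h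
    rw [ind_of (A := fun E' => ∃ i ∈ T, A i E') ⟨i, hi, hA⟩]
    calc (1:ℝ) = ind (A i) E' := (ind_of hA).symm
      _ ≤ ∑ i ∈ T, ind (A i) E' :=
        single_le_sum (f := fun i => ind (A i) E') (fun i _ => ind_nonneg _ _) hi
  · rw [ind_of_not (A := fun E' => ∃ i ∈ T, A i E') h]
    exact sum_nonneg fun i _ => ind_nonneg _ _

theorem pr_union_le {ι : Type*} (T : Finset ι) (A : ι → ESet → Prop) (m d : ℕ) (E : ESet) {a : ℝ}
    (h : ∀ i ∈ T, pr α m d (ind (A i)) E ≤ a) :
    pr α m d (ind (fun E' => ∃ i ∈ T, A i E')) E ≤ T.card * a := by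
  refine (pr_union T A m d E).trans ?_
  rw [← nsmul_eq_mul]
  exact sum_le_card_nsmul _ _ _ h

theorem pr_or (A A' : ESet → Prop) (m d : ℕ) (E : ESet) :
    pr α m d (ind (fun E' => A E' ∨ A' E')) E ≤ pr α m d (ind A) E + pr α m d (ind A') E := by
  rw [← pr_add]
  apply pr_mono
  intro E'
  by_cases h : A E'
  · rw [ind_of h]
    have := ind_nonneg A' E'
    have := ind_le_one (fun E' => A E' ∨ A' E') E'
    linarith
  · by_cases h' : A' E'
    · rw [ind_of h']
      have := ind_nonneg A E'
      have := ind_le_one (fun E' => A E' ∨ A' E') E'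
      linarith
    · rw [ind_of_not (A := fun E' => A E' ∨ A' E') (by tauto), ind_of_not h, ind_of_not h']
      simp

/-- bounding from an intermediate level on -/
theorem pr_le_of_level (h0 : 0 < α) {Ψ : ESet → ℝ} {m k n : ℕ} (hm : 1 ≤ m)
    (hmk : m ≤ k) (hkn : k ≤ n) (J : ℕ → ESet → Prop) (hJv : ∀ x E, J x E → Valid x E)
    (hJ : ∀ x E v, x < k → v < x → J x E → J (x + 1) (insert s(v, x) E))
    {a : ℝ} (h : ∀ E, J k E → pr α k (n - k) Ψ E ≤ a) {E : ESet} (hE : J m E) :
    pr α m (n - m) Ψ E ≤ a := by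
  have e : n - m = (k - m) + (n - k) := by omega
  rw [e, pr_comp, show m + (k - m) = k by omega]
  have h1 : pr α m (k - m) (pr α k (n - k) Ψ) E ≤ pr α m (k - m) (fun _ => a) E := by
    apply pr_le_inv J k hJ _ (k - m) m E (by omega) hE
    intro E' hE'
    exact h E' hE'
  rwa [pr_const h0 a _ _ _ hm (hJv _ _ hE)] at h1

/-- bounding from an intermediate level on, trees -/
theorem pr_le_of_level_tree (h0 : 0 < α) {Ψ : ESet → ℝ} {m k n : ℕ} (hm : 1 ≤ m)
    (hmk : m ≤ k) (hkn : k ≤ n)
    {a : ℝ} (h : ∀ E, TreeOn k E → pr α k (n - k) Ψ E ≤ a) {E : ESet} (hE : TreeOn m E) :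
    pr α m (n - m) Ψ E ≤ a :=
  pr_le_of_level h0 hm hmk hkn (fun m E => TreeOn m E) (fun _ _ h => h.valid)
    (fun _ _ _ _ hv hI => hI.step hv) h hE

/-- comparison of `pr` with `prB` along an invariant -/
theorem pr_le_prB (Inv : ℕ → ESet → Finset ℕ → Prop) {Ψ : ESet → ℝ} {Ψ' : ESet → Finset ℕ → ℝ}
    (N : ℕ)
    (hstep : ∀ x E B v, x < N → v < x → Inv x E B →
      Inv (x + 1) (insert s(v, x) E) (if v ∈ B then insert x B else B))
    (hΨ : ∀ E B, Inv N E B → Ψ E ≤ Ψ' E B) {m d : ℕ} {E : ESet} {B : Finset ℕ} (hm : m + d = N)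
    (hI : Inv m E B) : pr α m d Ψ E ≤ prB α m d Ψ' E B := by
  have h1 := prB_eq_pr (α := α) (Ψ := fun E _ => Ψ E) (Ψ' := Ψ) Inv N hstep (fun _ _ _ => rfl)
    d m E B hm hI
  rw [← h1]
  exact prB_le_inv Inv N hstep hΨ d m E B hm hI

end pr

section comp

open Classical in
/-- the component of `x`, vertices `< m` -/
noncomputable def compSet (m : ℕ) (E : ESet) (nh : ℕ → Prop) (x : ℕ) : Finset ℕ :=
  (range m).filter (fun y => nh y ∧ Conn E nh x y)

variable {E : ESet} {nh : ℕ → Prop} {m v x : ℕ}

theorem card_compSet : (compSet m E nh x).card = csz m E nh x := rfl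

theorem mem_compSet {y : ℕ} : y ∈ compSet m E nh x ↔ y < m ∧ nh y ∧ Conn E nh x y := by
  simp [compSet]

theorem compSet_subset : compSet m E nh x ⊆ range m := fun y hy =>
  mem_range.2 (mem_compSet.1 hy).1

theorem self_mem_compSet (hx : x < m) (hn : nh x) : x ∈ compSet m E nh x :=
  mem_compSet.2 ⟨hx, hn, Conn.refl _⟩

theorem compSet_step_mono (hE : ∀ e ∈ E, ∀ x ∈ e, x < m) (hv : v < m) (hx : x < m) :
    compSet m E nh x ⊆ compSet (m + 1) (insert s(v, m) E) nh x := by
  intro y hy
  rw [mem_compSet] at hy ⊢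
  exact ⟨by omega, hy.2.1, (conn_insert_old hE (fun _ _ => Iff.rfl) hv hx hy.1).2 hy.2.2⟩

theorem compSet_step_new (hE : ∀ e ∈ E, ∀ x ∈ e, x < m) (hv : v < m) (hx : x < m) (hn : nh m)
    (hvB : v ∈ compSet m E nh x) : m ∈ compSet (m + 1) (insert s(v, m) E) nh x := by
  rw [mem_compSet] at hvB ⊢
  exact ⟨by omega, hn, (conn_insert_new hE (fun _ _ => Iff.rfl) hv hx).2
    ⟨hn, hvB.2.1, hvB.2.2⟩⟩

/-- the component is inherited as long as the new vertices are non-hubs -/
theorem compSet_step (hE : ∀ e ∈ E, ∀ x ∈ e, x < m) (hv : v < m) (hx : x < m) (hn : nh m) :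
    compSet (m + 1) (insert s(v, m) E) nh x =
      if v ∈ compSet m E nh x then insert m (compSet m E nh x) else compSet m E nh x := by
  ext y
  have hold : ∀ y < m, (y ∈ compSet (m + 1) (insert s(v, m) E) nh x ↔ y ∈ compSet m E nh x) := by
    intro y hy
    rw [mem_compSet, mem_compSet, conn_insert_old hE (fun _ _ => Iff.rfl) hv hx hy]
    constructor
    · rintro ⟨_, h⟩; exact ⟨hy, h⟩
    · rintro ⟨_, h⟩; exact ⟨by omega, h⟩
  have hnew : m ∈ compSet (m + 1) (insert s(v, m) E) nh x ↔ v ∈ compSet m E nh x := by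
    rw [mem_compSet, mem_compSet, conn_insert_new hE (fun _ _ => Iff.rfl) hv hx]
    constructor
    · rintro ⟨_, _, _, h2, h3⟩; exact ⟨hv, h2, h3⟩
    · rintro ⟨_, h2, h3⟩; exact ⟨by omega, hn, hn, h2, h3⟩
  rcases lt_trichotomy y m with hy | hy | hy
  · rw [hold y hy]
    split_ifs with h
    · rw [mem_insert]
      constructor
      · exact Or.inr
      · rintro (h | h)
        · omega
        · exact h
    · rfl
  · subst hy
    rw [hnew]
    split_ifs with h
    · simp [h]
    · constructor
      · intro h'; exact absurd h' h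
      · intro h'
        exact absurd (mem_compSet.1 h').1 (lt_irrefl _)
  · constructor
    · intro h'
      have := (mem_compSet.1 h').1
      omega
    · intro h'
      split_ifs at h' with h
      · rcases mem_insert.1 h' with h1 | h1
        · omega
        · have := (mem_compSet.1 h1).1
          omega
      · have := (mem_compSet.1 h').1
        omega

/-- the sum of the degrees over a component -/
theorem TreeOn.sum_deg_compSet (hm : 2 ≤ m) (hE : TreeOn m E) (hx : x < m) (hn : nh x) :
    ∑ v ∈ compSet m E nh x, deg E v + 2 ≤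
      2 * (compSet m E nh x).card + (vIn m (fun y => ¬ nh y)).card := by
  classical
  set B := compSet m E nh x with hB
  have hxB : x ∈ B := self_mem_compSet hx hn
  have h1 : (eIn (fun y => y ∈ B) E).card + 1 ≤ (vIn m (fun y => y ∈ B)).card :=
    hE.card_eIn_lt hm _ ⟨x, hx, hxB⟩
  have h2 : (eIn (fun y => y ∈ B ∨ ¬ nh y) E).card + 1 ≤ (vIn m (fun y => y ∈ B ∨ ¬ nh y)).card :=
    hE.card_eIn_lt hm _ ⟨x, hx, Or.inl hxB⟩
  have e1 : (vIn m (fun y => y ∈ B)).card = B.card := by
    congr 1
    ext y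
    rw [mem_vIn]
    constructor
    · exact fun h => h.2
    · exact fun h => ⟨(mem_compSet.1 h).1, h⟩
  have e2 : (vIn m (fun y => y ∈ B ∨ ¬ nh y)).card ≤ B.card + (vIn m (fun y => ¬ nh y)).card := by
    refine le_trans (card_le_card ?_) (card_union_le _ _)
    intro y hy
    rw [mem_vIn] at hy
    rw [mem_union, mem_vIn]
    tauto
  have h3 : ∑ v ∈ B, deg E v ≤ (eIn (fun y => y ∈ B) E).card + (eIn (fun y => y ∈ B ∨ ¬ nh y) E).card := by
    have : ∑ v ∈ B, deg E v = ∑ e ∈ E, (B.filter (fun v => v ∈ e)).card := by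
      unfold deg
      simp_rw [card_filter]
      rw [sum_comm]
    rw [this]
    have e3 : (eIn (fun y => y ∈ B) E).card + (eIn (fun y => y ∈ B ∨ ¬ nh y) E).card =
        ∑ e ∈ E, ((if ∀ x ∈ e, x ∈ B then 1 else 0) + (if ∀ x ∈ e, (x ∈ B ∨ ¬ nh x) then 1 else 0)) := by
      rw [sum_add_distrib]
      unfold eIn
      rw [card_filter, card_filter]
    rw [e3]
    apply sum_le_sum
    intro e he
    induction e using Sym2.ind with
    | _ a b =>
      have hab : a ≠ b := by
        rintro rfl
        exact hE.valid.irrefl _ he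
      have ha : a < m := hE.valid.lt _ he a (by simp)
      have hb : b < m := hE.valid.lt _ he b (by simp)
      have hsub : B.filter (fun v => v ∈ s(a, b)) ⊆ {a, b} := by
        intro y hy
        have := (mem_filter.1 hy).2
        simpa [Sym2.mem_iff] using this
      by_cases haB : a ∈ B
      · by_cases hbB : b ∈ B
        · have c1 : (∀ x ∈ s(a, b), x ∈ B) := by
            intro z hz
            rcases Sym2.mem_iff.1 hz with rfl | rfl <;> assumption
          have c2 : (∀ x ∈ s(a, b), (x ∈ B ∨ ¬ nh x)) := fun z hz => Or.inl (c1 z hz)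
          rw [if_pos c1, if_pos c2]
          refine (card_le_card hsub).trans ?_
          rw [card_pair hab]
        · have c2 : (∀ x ∈ s(a, b), (x ∈ B ∨ ¬ nh x)) := by
            intro z hz
            rcases Sym2.mem_iff.1 hz with rfl | rfl
            · exact Or.inl haB
            · right
              intro hnb
              apply hbB
              have := mem_compSet.1 haB
              exact mem_compSet.2 ⟨hb, hnb, Relation.ReflTransGen.tail this.2.2 ⟨he, this.2.1, hnb⟩⟩
          rw [if_pos c2]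
          have : B.filter (fun v => v ∈ s(a, b)) ⊆ {a} := by
            intro y hy
            have h5 := hsub hy
            rw [mem_insert, mem_singleton] at h5
            rcases h5 with rfl | rfl
            · simp
            · exact absurd (mem_filter.1 hy).1 hbB
          have := card_le_card this
          rw [card_singleton] at this
          omega
      · by_cases hbB : b ∈ B
        · have c2 : (∀ x ∈ s(a, b), (x ∈ B ∨ ¬ nh x)) := by
            intro z hz
            rcases Sym2.mem_iff.1 hz with rfl | rfl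
            · right
              intro hna
              apply haB
              have := mem_compSet.1 hbB
              exact mem_compSet.2 ⟨ha, hna, Relation.ReflTransGen.tail this.2.2
                ⟨by rw [Sym2.eq_swap]; exact he, this.2.1, hna⟩⟩
            · exact Or.inl hbB
          rw [if_pos c2]
          have : B.filter (fun v => v ∈ s(a, b)) ⊆ {b} := by
            intro y hy
            have h5 := hsub hy
            rw [mem_insert, mem_singleton] at h5
            rcases h5 with rfl | rfl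
            · exact absurd (mem_filter.1 hy).1 haB
            · simp
          have := card_le_card this
          rw [card_singleton] at this
          omega
        · have : B.filter (fun v => v ∈ s(a, b)) = ∅ := by
            rw [filter_eq_empty_iff]
            intro z hz hc
            rcases Sym2.mem_iff.1 hc with rfl | rfl
            · exact haB hz
            · exact hbB hz
          rw [this]
          simp
  omega

end comp

section num

/-- a geometric sum -/
theorem geo_sum {y : ℝ} (hy : 0 < y) {a n : ℕ} (han : a ≤ n) :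
    ∑ x ∈ Ico a n, Real.exp (-(y * x)) ≤ Real.exp (-(y * a)) * (1 + 1 / y) := by
  have key : ∑ x ∈ Ico a n, Real.exp (-(y * x)) ≤
      (1 + 1 / y) * (Real.exp (-(y * a)) - Real.exp (-(y * n))) := by
    induction n, han using Nat.le_induction with
    | base => simp
    | succ n hn ih =>
      rw [sum_Ico_succ_top hn]
      have h1 : Real.exp (-(y * n)) ≤ (1 + 1 / y) * (Real.exp (-(y * n)) - Real.exp (-(y * (n + 1 : ℕ)))) := by
        have e : Real.exp (-(y * (n + 1 : ℕ))) = Real.exp (-(y * n)) * Real.exp (-y) := by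
          rw [← Real.exp_add]; congr 1; push_cast; ring
        rw [e]
        have h2 : Real.exp (-y) ≤ 1 / (1 + y) := by
          rw [Real.exp_neg, ← one_div]
          apply one_div_le_one_div_of_le (by linarith)
          have := Real.add_one_le_exp y
          linarith
        have h3 : 1 ≤ (1 + 1 / y) * (1 - Real.exp (-y)) := by
          have h4 : y / (1 + y) ≤ 1 - Real.exp (-y) := by
            have : y / (1 + y) = 1 - 1 / (1 + y) := by field_simp; ring
            rw [this]; linarith
          calc (1:ℝ) = (1 + 1 / y) * (y / (1 + y)) := by field_simp; ring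
            _ ≤ _ := mul_le_mul_of_nonneg_left h4 (by positivity)
        have := mul_le_mul_of_nonneg_left h3 (Real.exp_pos (-(y * n))).le
        calc Real.exp (-(y * n)) = Real.exp (-(y * n)) * 1 := by ring
          _ ≤ _ := this
          _ = _ := by ring
      calc _ ≤ (1 + 1 / y) * (Real.exp (-(y * a)) - Real.exp (-(y * n))) +
            (1 + 1 / y) * (Real.exp (-(y * n)) - Real.exp (-(y * (n + 1 : ℕ)))) := add_le_add ih h1
        _ = _ := by ring
  refine key.trans ?_
  have : 0 ≤ (1 + 1 / y) * Real.exp (-(y * n)) := by positivity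
  nlinarith

/-- a polynomial in `b` times `exp (- c b^(Q+1))` is at most `exp (- 3 b ^ Q)` -/
theorem num_exp {c : ℝ} (hc : 0 < c) (A : ℝ) (K Q : ℕ) (hQ : 1 ≤ Q) : ∃ b0 : ℕ, 1 ≤ b0 ∧ ∀ b ≥ b0,
    A * (b:ℝ) ^ K * Real.exp (-(c * (b:ℝ) ^ (Q + 1))) ≤ Real.exp (-(3 * (b:ℝ) ^ Q)) := by
  set A' : ℝ := |A| * K.factorial with hA'
  have hA'0 : 0 ≤ A' := by positivity
  refine ⟨⌈(4 + A') / c⌉₊ + 1, by omega, ?_⟩
  intro b hb
  have hb1 : 1 ≤ b := by omega
  have hbR : (1:ℝ) ≤ b := by exact_mod_cast hb1
  have hcb : 4 + A' ≤ c * b := by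
    have h1 : (4 + A') / c ≤ b := (Nat.le_ceil _).trans (by exact_mod_cast (by omega))
    rw [div_le_iff₀ hc] at h1
    linarith
  have h1 : (b:ℝ) ^ K ≤ K.factorial * Real.exp b := by
    have := Real.pow_div_factorial_le_exp (x := (b:ℝ)) (by positivity) K
    rw [div_le_iff₀ (by positivity)] at this
    linarith
  have h2 : A * (b:ℝ) ^ K ≤ Real.exp (A' + b) := by
    calc A * (b:ℝ) ^ K ≤ |A| * (b:ℝ) ^ K := mul_le_mul_of_nonneg_right (le_abs_self A) (by positivity)
      _ ≤ |A| * (K.factorial * Real.exp b) := mul_le_mul_of_nonneg_left h1 (abs_nonneg A)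
      _ = A' * Real.exp b := by rw [hA']; ring
      _ ≤ Real.exp A' * Real.exp b := by
          apply mul_le_mul_of_nonneg_right _ (Real.exp_pos _).le
          have := Real.add_one_le_exp A'
          linarith
      _ = _ := by rw [Real.exp_add]
  refine (mul_le_mul_of_nonneg_right h2 (Real.exp_pos _).le).trans ?_
  rw [← Real.exp_add]
  apply Real.exp_le_exp.2
  have h3 : (b:ℝ) ≤ (b:ℝ) ^ Q := le_self_pow₀ hbR (by omega)
  have h4 : (1:ℝ) ≤ (b:ℝ) ^ Q := one_le_pow₀ hbR
  have h5 : (4 + A') * (b:ℝ) ^ Q ≤ c * (b:ℝ) ^ (Q + 1) := by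
    calc (4 + A') * (b:ℝ) ^ Q ≤ (c * b) * (b:ℝ) ^ Q := mul_le_mul_of_nonneg_right hcb (by positivity)
      _ = _ := by rw [pow_succ]; ring
  nlinarith [mul_le_mul_of_nonneg_left h4 hA'0]

end num

end SeedPA
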