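import Pool.Agent.SeedPA.Good

/-!
# Regularity of a tree of size `P.n`

`Reg P E` is the (label dependent) property which fails with very small probability for the
attachment process and which turns the isomorphism invariant part of `Good` into `Good`.
-/

open Finset

namespace SeedPA

variable {I : Type*}

/-- regularity of a tree of size `P.n` -/
structure Reg [Fintype I] (P : Par I) (E : ESet) : Prop where
  /-- the descendants of late vertices do not form big sets -/
  r1 : ∀ x, P.n1 ≤ x → x < P.n → csz P.n E (fun y => x ≤ y) x * P.t < P.n
  /-- components with more than `β1` vertices at level `n1` become big -/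
  r2 : ∀ Hs ⊆ range P.n1, Hs.card ≤ Fintype.card I → ∀ x < P.n1, x ∉ Hs →
    P.β1 < csz P.n1 E (fun y => y ∉ Hs) x → P.n ≤ csz P.n E (fun y => y ∉ Hs) x * P.t
  /-- degrees at level `n1` -/
  r3 : ∀ y < P.n1, (nbr P.n1 E y).card ≤ P.D1

end SeedPA
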