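import Pool.Agent.SeedPA.Conc
import Pool.Agent.SeedPA.DegBound
import Pool.Agent.SeedPA.ProbTools
import Pool.Agent.SeedPA.RegDef

/-!
# Tail bounds: T1 (irregularity is very unlikely)
-/

open Finset

namespace SeedPA

/-- the property provided by `conc` -/
def ConcP (α c C : ℝ) (m0 : ℕ) : Prop :=
  ∀ (m d : ℕ) (E : ESet) (B : Finset ℕ), m0 ≤ m → Valid m E → B ⊆ range m →
      (∑ v ∈ B, deg E v) ≤ 3 * B.card →
      (prB α m d (fun _ B' => if (B'.card : ℝ) ≤ c * (B.card / m) * (m + d) then 1 else 0) E B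
        ≤ Real.exp (-c * B.card)) ∧
      (∀ x : ℝ, 0 ≤ x →
        prB α m d (fun _ B' => if x * (m + d) ≤ (B'.card : ℝ) then 1 else 0) E B
          ≤ Real.exp (-c * x * m + C * B.card))

section comp
variable {α c C : ℝ} {m0 : ℕ}

/-- the invariant: `B` is the component of `x` -/
theorem inv_comp {nh : ℕ → Prop} {x k : ℕ} (hnh : ∀ y, k ≤ y → nh y) :
    ∀ (l : ℕ) (E : ESet) (B : Finset ℕ) (v : ℕ), v < l →
      (TreeOn l E ∧ x < l ∧ k ≤ l ∧ B = compSet l E nh x) →
      (TreeOn (l + 1) (insert s(v, l) E) ∧ x < l + 1 ∧ k ≤ l + 1 ∧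
        (if v ∈ B then insert l B else B) = compSet (l + 1) (insert s(v, l) E) nh x) := by
  rintro l E B v hv ⟨h1, h2, h3, rfl⟩
  refine ⟨h1.step hv, by omega, by omega, ?_⟩
  rw [compSet_step h1.valid.lt hv h2 (hnh l h3)]

/-- lower tail for a component whose later members are never hubs -/
theorem comp_lower (hc : ConcP α c C m0) {nh : ℕ → Prop} {x k n : ℕ}
    (hnh : ∀ y, k ≤ y → nh y) (hk2 : 2 ≤ k) (hk : m0 ≤ k) (hkn : k ≤ n) {E : ESet} (hE : TreeOn k E)
    (hx : x < k) (hnx : nh x) (hcard : (vIn k (fun y => ¬ nh y)).card ≤ csz k E nh x) :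
    pr α k (n - k) (ind (fun E' => (csz n E' nh x : ℝ) ≤ c * (csz k E nh x / k) * n)) E ≤
      Real.exp (-c * csz k E nh x) := by
  have hs := hE.sum_deg_compSet hk2 hx hnx
  have h1 := (hc k (n - k) E (compSet k E nh x) hk hE.valid compSet_subset
    (by rw [card_compSet] at hs ⊢; omega)).1
  rw [card_compSet] at h1
  refine le_trans ?_ h1
  apply pr_le_prB (fun l E B => TreeOn l E ∧ x < l ∧ k ≤ l ∧ B = compSet l E nh x) n
    (fun l E B v _ hv hI => inv_comp hnh l E B v hv hI) ?_ (by omega)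
    ⟨hE, hx, le_rfl, rfl⟩
  rintro E' B' ⟨_, _, _, rfl⟩
  rw [card_compSet]
  have e : ((k:ℝ) + ((n - k : ℕ) : ℝ)) = n := by
    rw [← Nat.cast_add]; congr 1; omega
  rw [e]
  unfold ind
  split_ifs <;> simp

/-- upper tail for a component whose later members are never hubs -/
theorem comp_upper (hc : ConcP α c C m0) {nh : ℕ → Prop} {x k n : ℕ}
    (hnh : ∀ y, k ≤ y → nh y) (hk2 : 2 ≤ k) (hk : m0 ≤ k) (hkn : k ≤ n) {E : ESet} (hE : TreeOn k E)
    (hx : x < k) (hnx : nh x) (hcard : (vIn k (fun y => ¬ nh y)).card ≤ csz k E nh x + 2)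
    {y : ℝ} (hy : 0 ≤ y) :
    pr α k (n - k) (ind (fun E' => y * n ≤ (csz n E' nh x : ℝ))) E ≤
      Real.exp (-c * y * k + C * csz k E nh x) := by
  have hs := hE.sum_deg_compSet hk2 hx hnx
  have h1 := (hc k (n - k) E (compSet k E nh x) hk hE.valid compSet_subset
    (by rw [card_compSet] at hs ⊢; omega)).2 y hy
  rw [card_compSet] at h1
  refine le_trans ?_ h1
  apply pr_le_prB (fun l E B => TreeOn l E ∧ x < l ∧ k ≤ l ∧ B = compSet l E nh x) n
    (fun l E B v _ hv hI => inv_comp hnh l E B v hv hI) ?_ (by omega)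
    ⟨hE, hx, le_rfl, rfl⟩
  rintro E' B' ⟨_, _, _, rfl⟩
  rw [card_compSet]
  have e : ((k:ℝ) + ((n - k : ℕ) : ℝ)) = n := by
    rw [← Nat.cast_add]; congr 1; omega
  rw [e]
  unfold ind
  split_ifs <;> simp

/-- upper tail for the descendants of `x` -/
theorem desc_upper (h0 : 0 < α) (hc0 : 0 < c) (hc : ConcP α c C m0) {m x n : ℕ}
    (hm : 1 ≤ m) (hmx : m ≤ x) (hk : m0 ≤ x) (hxn : x < n) {E : ESet} (hE : TreeOn m E)
    {y : ℝ} (hy : 0 ≤ y) :
    pr α m (n - m) (ind (fun E' => y * n ≤ (csz n E' (fun z => x ≤ z) x : ℝ))) E ≤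
      Real.exp (-(c * y * x)) * Real.exp C := by
  refine pr_le_of_level h0 hm (show m ≤ x + 1 by omega) (by omega)
    (fun k E => TreeOn k E ∧ (x < k → deg E x = 1)) (fun _ _ h => h.1.valid) ?_ ?_ ⟨hE, by omega⟩
  · rintro k E v hk hv ⟨h1, h2⟩
    refine ⟨h1.step hv, fun hxk => ?_⟩
    have : x = k := by omega
    subst this
    rw [deg_insert (h1.valid.not_mem v), h1.valid.deg_zero le_rfl]
    simp
  rintro E1 ⟨hE1, hdeg⟩
  have hdeg := hdeg (by omega)
  have hcs : compSet (x + 1) E1 (fun z => x ≤ z) x = {x} := by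
    ext z
    rw [mem_compSet, mem_singleton]
    constructor
    · rintro ⟨h1, h2, _⟩; omega
    · rintro rfl; exact ⟨by omega, le_rfl, Conn.refl _⟩
  have h1 := (hc (x + 1) (n - (x + 1)) E1 {x} (by omega) hE1.valid
    (by simp) (by simp [hdeg])).2 y hy
  have h2 : pr α (x + 1) (n - (x + 1)) (ind (fun E' => y * n ≤ (csz n E' (fun z => x ≤ z) x : ℝ))) E1 ≤
      Real.exp (-c * y * (x + 1 : ℕ) + C * ({x} : Finset ℕ).card) := by
    refine le_trans ?_ h1
    apply pr_le_prB (fun l E B => TreeOn l E ∧ x < l ∧ x ≤ l ∧ B = compSet l E (fun z => x ≤ z) x) n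
      (fun l E B v _ hv hI => inv_comp (fun y hy => hy) l E B v hv hI) ?_ (by omega)
      ⟨hE1, by omega, by omega, hcs.symm⟩
    rintro E' B' ⟨_, _, _, rfl⟩
    rw [card_compSet]
    have e : (((x + 1 : ℕ):ℝ) + ((n - (x + 1) : ℕ) : ℝ)) = n := by
      rw [← Nat.cast_add]; congr 1; omega
    rw [e]
    unfold ind
    split_ifs <;> simp
  refine h2.trans ?_
  rw [← Real.exp_add]
  apply Real.exp_le_exp.2
  push_cast
  rw [card_singleton]
  have : 0 ≤ c * y := by positivity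
  push_cast
  nlinarith

end comp

/-! ### degrees -/

theorem factorial_div_le {D x : ℕ} (hD : D ≤ x) :
    (x.factorial : ℝ) / (D.factorial : ℝ) ≤ (x:ℝ) ^ (x - D) := by
  have h1 := Nat.factorial_mul_descFactorial (show x - D ≤ x by omega)
  rw [show x - (x - D) = D by omega] at h1
  have h2 := Nat.descFactorial_le_pow x (x - D)
  rw [div_le_iff₀ (by exact_mod_cast Nat.factorial_pos _)]
  have h3 : x.factorial ≤ x ^ (x - D) * D.factorial := by
    rw [← h1, mul_comm]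
    exact Nat.mul_le_mul_right _ h2
  exact_mod_cast h3

/-- simplified degree tail -/
theorem deg_tail' {α : ℝ} (h0 : 0 < α) (h1 : α < 1) {m d : ℕ} {E : ESet} (hm : 1 ≤ m)
    (hE : Valid m E) {v : ℕ} (hv : v < m) {x : ℕ} (hx : deg E v ≤ x) :
    pr α m d (fun E' => if x ≤ deg E' v then 1 else 0) E ≤
      (1 / 2) ^ (x - deg E v) * (((m + d : ℕ) : ℝ)) ^ (2 * (x:ℝ) ^ α) := by
  have hD1 := hE.pos v hv
  have hx1 : (1:ℝ) ≤ x := by exact_mod_cast (by omega : 1 ≤ x)
  have hxa : (1:ℝ) ≤ (x:ℝ) ^ α := Real.one_le_rpow hx1 h0.le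
  have hxa0 : (0:ℝ) < (x:ℝ) ^ α := by linarith
  refine (deg_tail h0 h1 hm hE hv hx (a := 2 * (x:ℝ) ^ α) (by linarith)).trans ?_
  have hm1 : (1:ℝ) ≤ m := by exact_mod_cast hm
  have e1 : (((m + d : ℕ) : ℝ) / m) ^ (2 * (x:ℝ) ^ α) ≤ (((m + d : ℕ) : ℝ)) ^ (2 * (x:ℝ) ^ α) := by
    apply Real.rpow_le_rpow (by positivity) _ (by positivity)
    exact div_le_self (by positivity) hm1
  have e2 : ((x.factorial : ℝ) / ((deg E v).factorial : ℝ)) ^ α ≤ ((x:ℝ) ^ α) ^ (x - deg E v) := by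
    calc ((x.factorial : ℝ) / ((deg E v).factorial : ℝ)) ^ α ≤ ((x:ℝ) ^ (x - deg E v)) ^ α :=
          Real.rpow_le_rpow (by positivity) (factorial_div_le hx) h0.le
      _ = _ := by
          rw [← Real.rpow_natCast, ← Real.rpow_natCast, ← Real.rpow_mul (by positivity),
            ← Real.rpow_mul (by positivity), mul_comm]
  have e3 : ((2 * (x:ℝ) ^ α)⁻¹) ^ (x - deg E v) * ((x.factorial : ℝ) / ((deg E v).factorial : ℝ)) ^ α
      ≤ (1 / 2) ^ (x - deg E v) := by
    calc _ ≤ ((2 * (x:ℝ) ^ α)⁻¹) ^ (x - deg E v) * ((x:ℝ) ^ α) ^ (x - deg E v) :=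
          mul_le_mul_of_nonneg_left e2 (by positivity)
      _ = ((2 * (x:ℝ) ^ α)⁻¹ * (x:ℝ) ^ α) ^ (x - deg E v) := by rw [mul_pow]
      _ = _ := by
          congr 1
          field_simp
  exact mul_le_mul e3 e1 (by positivity) (by positivity)

theorem nbr_step {m v k y : ℕ} {E : ESet} (hk : k ≤ m) (hy : y < k) :
    nbr k (insert s(v, m) E) y = nbr k E y := by
  unfold nbr
  apply filter_congr
  intro x hx
  rw [mem_range] at hx
  rw [mem_insert, Sym2.eq_iff]
  constructor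
  · rintro (h | h)
    · omega
    · exact h
  · exact Or.inr

theorem card_nbr_eq_deg {m y : ℕ} {E : ESet} (hE : Valid m E) : (nbr m E y).card = deg E y := by
  unfold nbr deg
  apply card_bij (fun x _ => s(y, x))
  · intro x hx
    rw [mem_filter] at hx ⊢
    exact ⟨hx.2, by simp⟩
  · intro a _ b _ hab
    rw [Sym2.eq_iff] at hab
    omega
  · intro e he
    rw [mem_filter] at he
    obtain ⟨he, hy⟩ := he
    obtain ⟨w, rfl⟩ := hy
    exact ⟨w, by rw [mem_filter, mem_range]; exact ⟨hE.lt _ he w (by simp), he⟩, rfl⟩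

/-- degrees at level `k` -/
theorem deg_bound {α : ℝ} (h0 : 0 < α) (h1 : α < 1) {m k n D0 D y : ℕ} (hm : 1 ≤ m)
    (hmk : m ≤ k) (hkn : k ≤ n) (hy : y < k) (hD0 : 1 ≤ D0) (hD : D0 ≤ D) {E : ESet}
    (hE : TreeOn m E) (hdeg : ∀ y < m, deg E y ≤ D0) :
    pr α m (n - m) (ind (fun E' => D < (nbr k E' y).card)) E ≤
      (1 / 2) ^ (D + 1 - D0) * (k : ℝ) ^ (2 * ((D + 1 : ℕ):ℝ) ^ α) := by
  -- reduce to level k
  have e : n - m = (k - m) + (n - k) := by omega
  rw [e, pr_comp, show m + (k - m) = k by omega]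
  have hred : pr α m (k - m) (pr α k (n - k) (ind (fun E' => D < (nbr k E' y).card))) E ≤
      pr α m (k - m) (fun E' => if D + 1 ≤ deg E' y then 1 else 0) E := by
    apply pr_mono_tree hE
    intro E1 hE1
    rw [show m + (k - m) = k by omega] at hE1
    have h3 : pr α k (n - k) (ind (fun E' => D < (nbr k E' y).card)) E1 ≤
        pr α k (n - k) (fun _ => if D + 1 ≤ deg E1 y then 1 else 0) E1 := by
      apply pr_le_inv (fun l E' => k ≤ l ∧ nbr k E' y = nbr k E1 y) n _ _ (n - k) k E1 (by omega)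
        ⟨le_rfl, rfl⟩
      · rintro l E' v _ _ ⟨h4, h5⟩
        exact ⟨by omega, by rw [nbr_step h4 hy, h5]⟩
      · rintro E' ⟨_, h5⟩
        have e5 : (nbr k E' y).card = deg E1 y := by rw [h5, card_nbr_eq_deg hE1.valid]
        unfold ind
        simp only [e5]
        split_ifs with h6 h7 h7
        · exact le_rfl
        · exact absurd h6 h7
        · norm_num
        · exact le_rfl
    rwa [pr_const h0 _ _ _ _ (by omega) hE1.valid] at h3
  refine hred.trans ?_
  have hk1 : (1:ℝ) ≤ k := by exact_mod_cast (by omega : 1 ≤ k)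
  by_cases hym : y < m
  · have := deg_tail' h0 h1 (d := k - m) hm hE.valid hym (x := D + 1) (by have := hdeg y hym; omega)
    rw [show m + (k - m) = k by omega] at this
    refine this.trans ?_
    apply mul_le_mul_of_nonneg_right _ (by positivity)
    apply pow_le_pow_of_le_one (by norm_num) (by norm_num)
    have := hdeg y hym
    omega
  · -- y is born later
    rw [show k - m = k - m from rfl]
    apply pr_le_of_level h0 hm (show m ≤ y + 1 by omega) (by omega)
      (fun l E => TreeOn l E ∧ (y < l → deg E y = 1)) (fun _ _ h => h.1.valid) _ _ ⟨hE, by omega⟩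
    · rintro l E v hl hv ⟨h3, h4⟩
      refine ⟨h3.step hv, fun hyl => ?_⟩
      have : y = l := by omega
      subst this
      rw [deg_insert (h3.valid.not_mem v), h3.valid.deg_zero le_rfl]
      simp
    · rintro E1 ⟨hE1, hd1⟩
      have hd1 := hd1 (by omega)
      have := deg_tail' h0 h1 (d := k - (y + 1)) (by omega) hE1.valid (by omega : y < y + 1)
        (x := D + 1) (by omega)
      rw [show y + 1 + (k - (y + 1)) = k by omega, hd1] at this
      refine this.trans ?_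
      apply mul_le_mul_of_nonneg_right _ (by positivity)
      apply pow_le_pow_of_le_one (by norm_num) (by norm_num)
      omega

/-! ### T1 -/

theorem num_r3 {α : ℝ} (h0 : 0 < α) (h1 : α < 1) (Q : ℕ) : ∃ b0 : ℕ, 1 ≤ b0 ∧ ∀ b ≥ b0,
    ((b ^ (7 * Q + 1) : ℕ) : ℝ) * ((1 / 2) ^ (b ^ (Q + 2) + 1 - b ^ Q) *
      ((b ^ (7 * Q + 1) : ℕ) : ℝ) ^ (2 * ((b ^ (Q + 2) + 1 : ℕ):ℝ) ^ α)) ≤
      Real.exp (-(3 * (b:ℝ) ^ Q)) := by
  -- eventually `C X^α log X ≤ X / 10`
  have hlim : ∀ᶠ X : ℝ in Filter.atTop,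
      ((7 * Q + 1 : ℕ) : ℝ) * (1 + 4 * X ^ α) * Real.log X ≤ X / 10 := by
    have t1 := (isLittleO_log_rpow_atTop (r := (1 - α) / 2) (by linarith)).bound
      (show (0:ℝ) < 1 by norm_num)
    have t2 : Filter.Tendsto (fun X : ℝ => X ^ ((1 - α) / 2)) Filter.atTop Filter.atTop :=
      tendsto_rpow_atTop (by linarith)
    have t3 := t2.eventually_ge_atTop (50 * ((7 * Q + 1 : ℕ) : ℝ))
    filter_upwards [t1, t3, Filter.eventually_ge_atTop (1:ℝ)] with X e1 e2 e3
    have hX0 : 0 < X := by linarith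
    have hlog : 0 ≤ Real.log X := Real.log_nonneg e3
    rw [Real.norm_of_nonneg hlog, Real.norm_of_nonneg (by positivity), one_mul] at e1
    have hXa : 1 ≤ X ^ α := Real.one_le_rpow e3 h0.le
    have e4 : X ^ α * X ^ ((1 - α) / 2) * X ^ ((1 - α) / 2) = X := by
      rw [← Real.rpow_add hX0, ← Real.rpow_add hX0]
      have : α + (1 - α) / 2 + (1 - α) / 2 = 1 := by ring
      rw [this, Real.rpow_one]
    set Y := X ^ ((1 - α) / 2) with hY
    have hY0 : 0 ≤ Y := by positivity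
    calc ((7 * Q + 1 : ℕ) : ℝ) * (1 + 4 * X ^ α) * Real.log X
        ≤ ((7 * Q + 1 : ℕ) : ℝ) * (5 * X ^ α) * Y := by
          apply mul_le_mul _ e1 hlog (by positivity)
          apply mul_le_mul_of_nonneg_left _ (by positivity)
          linarith
      _ = (50 * ((7 * Q + 1 : ℕ) : ℝ)) * (X ^ α * Y) / 10 := by ring
      _ ≤ Y * (X ^ α * Y) / 10 := by
          apply div_le_div_of_nonneg_right _ (by norm_num)
          exact mul_le_mul_of_nonneg_right e2 (by positivity)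
      _ = X / 10 := by
          have : Y * (X ^ α * Y) = X := by
            calc Y * (X ^ α * Y) = X ^ α * Y * Y := by ring
              _ = X := e4
          rw [this]
  rw [Filter.eventually_atTop] at hlim
  obtain ⟨X0, hX0⟩ := hlim
  refine ⟨⌈X0⌉₊ + 10, by omega, ?_⟩
  intro b hb
  have hb10 : 10 ≤ b := by omega
  have hbR : (10:ℝ) ≤ b := by exact_mod_cast hb10
  have hb0 : (0:ℝ) < b := by linarith
  have hbX : X0 ≤ b := (Nat.le_ceil _).trans (by exact_mod_cast (by omega))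
  set X : ℝ := (b:ℝ) ^ (Q + 2) with hX
  have hbleX : (b:ℝ) ≤ X := le_self_pow₀ (by linarith) (by omega)
  have hmain := hX0 X (hbX.trans hbleX)
  have hX1 : 1 ≤ X := by linarith
  have hXpos : 0 < X := by linarith
  have hlogb : 0 ≤ Real.log b := Real.log_nonneg (by linarith)
  have hlog : Real.log b ≤ Real.log X := Real.log_le_log hb0 hbleX
  have hXa : (((b ^ (Q + 2) + 1 : ℕ):ℝ)) ^ α ≤ 2 * X ^ α := by
    have : (((b ^ (Q + 2) + 1 : ℕ):ℝ)) ≤ 2 * X := by push_cast; linarith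
    calc (((b ^ (Q + 2) + 1 : ℕ):ℝ)) ^ α ≤ (2 * X) ^ α := Real.rpow_le_rpow (by positivity) this h0.le
      _ = 2 ^ α * X ^ α := Real.mul_rpow (by norm_num) hXpos.le
      _ ≤ 2 * X ^ α := by
          apply mul_le_mul_of_nonneg_right _ (by positivity)
          calc (2:ℝ) ^ α ≤ 2 ^ (1:ℝ) := Real.rpow_le_rpow_of_exponent_le (by norm_num) h1.le
            _ = 2 := by norm_num
  have hbQ : (b:ℝ) ^ Q ≤ X / 100 := by
    rw [hX, pow_add, le_div_iff₀ (by norm_num)]
    apply mul_le_mul_of_nonneg_left _ (by positivity)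
    nlinarith
  have hn1 : ((b ^ (7 * Q + 1) : ℕ) : ℝ) = Real.exp (((7 * Q + 1 : ℕ) : ℝ) * Real.log b) := by
    have e : ((7 * Q + 1 : ℕ) : ℝ) * Real.log b = Real.log b * ((7 * Q + 1 : ℕ) : ℝ) := mul_comm _ _
    rw [e, Real.exp_mul, Real.exp_log hb0, Real.rpow_natCast]
    push_cast
    rfl
  have hhalf : ((1:ℝ) / 2) ^ (b ^ (Q + 2) + 1 - b ^ Q) ≤ Real.exp (-(X / 2)) := by
    have e1 : ((1:ℝ) / 2) = Real.exp (-Real.log 2) := by
      rw [Real.exp_neg, Real.exp_log (by norm_num)]; norm_num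
    rw [e1, ← Real.exp_nat_mul]
    apply Real.exp_le_exp.2
    have hle : b ^ Q ≤ b ^ (Q + 2) + 1 := by
      have : b ^ Q ≤ b ^ (Q + 2) := Nat.pow_le_pow_right (by omega) (by omega)
      omega
    rw [Nat.cast_sub hle]
    push_cast
    rw [← hX]
    have hl2 : (0.69:ℝ) ≤ Real.log 2 := by
      have := Real.log_two_gt_d9; linarith
    have : 0 ≤ X + 1 - (b:ℝ) ^ Q := by linarith
    nlinarith [mul_le_mul_of_nonneg_left hl2 this]
  rw [hn1, ← Real.exp_mul]
  calc Real.exp (((7 * Q + 1 : ℕ) : ℝ) * Real.log b) * ((1 / 2) ^ (b ^ (Q + 2) + 1 - b ^ Q) *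
      Real.exp (((7 * Q + 1 : ℕ) : ℝ) * Real.log b * (2 * ((b ^ (Q + 2) + 1 : ℕ):ℝ) ^ α)))
      ≤ Real.exp (((7 * Q + 1 : ℕ) : ℝ) * Real.log X) * (Real.exp (-(X / 2)) *
      Real.exp (((7 * Q + 1 : ℕ) : ℝ) * Real.log X * (2 * (2 * X ^ α)))) := by
        apply mul_le_mul _ _ (by positivity) (by positivity)
        · apply Real.exp_le_exp.2
          exact mul_le_mul_of_nonneg_left hlog (by positivity)
        · apply mul_le_mul hhalf _ (by positivity) (by positivity)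
          apply Real.exp_le_exp.2
          apply mul_le_mul _ _ (by positivity) (mul_nonneg (by positivity) (hlogb.trans hlog))
          · exact mul_le_mul_of_nonneg_left hlog (by positivity)
          · linarith
    _ = Real.exp (((7 * Q + 1 : ℕ) : ℝ) * (1 + 4 * X ^ α) * Real.log X - X / 2) := by
        rw [← Real.exp_add, ← Real.exp_add]; congr 1; ring
    _ ≤ _ := by
        apply Real.exp_le_exp.2
        linarith

/-- the sets of at most `K` labels `< N` -/
def smallSets (K N : ℕ) : Finset (Finset ℕ) :=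
  (range (K + 1)).biUnion (fun j => powersetCard j (range N))

theorem mem_smallSets {K N : ℕ} {S : Finset ℕ} : S ∈ smallSets K N ↔ S ⊆ range N ∧ S.card ≤ K := by
  unfold smallSets
  simp only [mem_biUnion, mem_range, mem_powersetCard]
  constructor
  · rintro ⟨j, hj, h1, h2⟩; exact ⟨h1, by omega⟩
  · rintro ⟨h1, h2⟩; exact ⟨S.card, by omega, h1, rfl⟩

theorem card_smallSets {K N : ℕ} (hN : 1 ≤ N) : (smallSets K N).card ≤ (K + 1) * N ^ K := by
  unfold smallSets
  refine card_biUnion_le.trans ?_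
  have : ∀ j ∈ range (K + 1), (powersetCard j (range N)).card ≤ N ^ K := by
    intro j hj
    rw [card_powersetCard, card_range]
    exact (Nat.choose_le_pow _ _).trans (Nat.pow_le_pow_right hN (by have := mem_range.1 hj; omega))
  refine (sum_le_sum this).trans ?_
  simp

section T1
variable {I : Type*} [Fintype I] {α c C : ℝ} {m0 : ℕ}

/-- the event (r2) for one set and one vertex -/
theorem r2_one (hc0 : 0 < c) (hc : ConcP α c C m0) (h0 : 0 < α) {m k n β t : ℕ} {Hs : Finset ℕ} {x : ℕ}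
    (hm : 1 ≤ m) (hmk : m ≤ k) (hk2 : 2 ≤ k) (hk : m0 ≤ k) (hkn : k ≤ n) (hHs : Hs ⊆ range k)
    (hcard : Hs.card ≤ β) (hx : x < k) (hxH : x ∉ Hs) (hβ : (k:ℝ) ≤ c * β * t) {E : ESet}
    (hE : TreeOn m E) :
    pr α m (n - m) (ind (fun E' => β < csz k E' (fun y => y ∉ Hs) x ∧
      csz n E' (fun y => y ∉ Hs) x * t < n)) E ≤ Real.exp (-(c * β)) := by
  apply pr_le_of_level_tree h0 hm hmk hkn _ hE
  intro E1 hE1
  have hnh : ∀ y, k ≤ y → y ∉ Hs := fun y hy hyH => by
    have := mem_range.1 (hHs hyH); omega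
  by_cases hb : β < csz k E1 (fun y => y ∉ Hs) x
  · have h1 := comp_lower hc hnh hk2 hk hkn hE1 hx hxH
      (by
        have : (vIn k (fun y => ¬ y ∉ Hs)).card ≤ Hs.card := by
          apply card_le_card
          intro y hy
          have := (mem_vIn.1 hy).2
          simpa using this
        omega)
    have hbR : (β:ℝ) < csz k E1 (fun y => y ∉ Hs) x := by exact_mod_cast hb
    refine le_trans ?_ (h1.trans (Real.exp_le_exp.2 (by nlinarith)))
    apply pr_mono
    intro E'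
    apply ind_mono
    rintro ⟨_, h2⟩
    have h3 : (csz n E' (fun y => y ∉ Hs) x : ℝ) * t < n := by exact_mod_cast h2
    have hk0 : (0:ℝ) < k := by exact_mod_cast (by omega : 0 < k)
    have ht : 0 < (t:ℝ) := by
      rcases Nat.eq_zero_or_pos t with h | h
      · subst h; simp at hβ; linarith
      · exact_mod_cast h
    have h4 : (k:ℝ) ≤ c * csz k E1 (fun y => y ∉ Hs) x * t := by
      refine hβ.trans ?_
      apply mul_le_mul_of_nonneg_right _ ht.le
      exact mul_le_mul_of_nonneg_left hbR.le hc0.le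
    have h5 : 1 ≤ c * (csz k E1 (fun y => y ∉ Hs) x / k) * t := by
      have : c * (csz k E1 (fun y => y ∉ Hs) x / k) * t =
        (c * csz k E1 (fun y => y ∉ Hs) x * t) / k := by ring
      rw [this, le_div_iff₀ hk0]; linarith
    have h6 : (csz n E' (fun y => y ∉ Hs) x : ℝ) * t ≤
        (c * (csz k E1 (fun y => y ∉ Hs) x / k) * n) * t := by
      calc _ ≤ (n:ℝ) * 1 := by linarith
        _ ≤ n * (c * (csz k E1 (fun y => y ∉ Hs) x / k) * t) :=
          mul_le_mul_of_nonneg_left h5 (by positivity)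
        _ = _ := by ring
    exact le_of_mul_le_mul_right h6 ht
  · -- impossible
    have h1 : pr α k (n - k) (ind (fun E' => β < csz k E' (fun y => y ∉ Hs) x ∧
      csz n E' (fun y => y ∉ Hs) x * t < n)) E1 ≤ pr α k (n - k) (fun _ => 0) E1 := by
      apply pr_le_inv (fun l E' => k ≤ l ∧ Valid l E' ∧
        csz k E' (fun y => y ∉ Hs) x = csz k E1 (fun y => y ∉ Hs) x) n _ _ (n - k) k E1 (by omega)
        ⟨le_rfl, hE1.valid, rfl⟩
      · rintro l E' v _ hv ⟨h4, h5, h6⟩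
        refine ⟨by omega, h5.step hv, ?_⟩
        rw [csz_insert_old h5.lt (fun _ _ => Iff.rfl) hv (by omega) h4, h6]
      · rintro E' ⟨_, _, h6⟩
        rw [ind_of_not]
        rintro ⟨h7, _⟩
        rw [h6] at h7
        exact hb h7
    rw [pr_const h0 _ _ _ _ (by omega) hE1.valid] at h1
    exact h1.trans (Real.exp_pos _).le

/-- **T1** -/
theorem T1 (h0 : 0 < α) (h1 : α < 1) (Q d : ℕ) (q : I → ℕ) (hQ : 2 ≤ Q) :
    ∃ b0 : ℕ, ∀ b ≥ b0, ∃ n' : ℕ, ∀ n ≥ n', ∀ m, 2 ≤ m → m ≤ b ^ (2 * Q) → ∀ E, TreeOn m E →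
      (∀ y < m, deg E y ≤ b ^ Q) →
      pr α m (n - m) (ind (fun E => ¬ Reg (par b Q d q n) E)) E ≤
        Real.exp (-(2 * (b:ℝ) ^ Q)) := by
  obtain ⟨c, C, m0, hc0, hC0, hconc⟩ := conc h0 h1
  have hc : ConcP α c C m0 := hconc
  obtain ⟨b1, hb1, hn1⟩ := num_exp hc0 (Real.exp C * (1 + 1 / c)) (6 * Q) Q (by omega)
  obtain ⟨b2, hb2, hn2⟩ := num_exp hc0 (Fintype.card I + 1) ((7 * Q + 1) * (Fintype.card I + 1)) Q
    (by omega)
  obtain ⟨b3, hb3, hn3⟩ := num_r3 h0 h1 Q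
  refine ⟨b1 + b2 + b3 + m0 + Fintype.card I + ⌈1 / c⌉₊ + 2, ?_⟩
  intro b hb
  refine ⟨b ^ (7 * Q + 1) + 1, ?_⟩
  intro n hn m hm2 hmn0 E hE hdeg
  set P := par b Q d q n with hP
  have hPn : P.n = n := rfl
  have hPn1 : P.n1 = b ^ (7 * Q + 1) := rfl
  have hPt : P.t = b ^ (6 * Q) := rfl
  have hPβ1 : P.β1 = b ^ (Q + 2) := rfl
  have hPD1 : P.D1 = b ^ (Q + 2) := rfl
  have hb2' : 2 ≤ b := by omega
  have hbR : (2:ℝ) ≤ b := by exact_mod_cast hb2'
  have hb0 : (0:ℝ) < b := by linarith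
  have hn1b : b ≤ b ^ (7 * Q + 1) := Nat.le_self_pow (by omega) b
  have hmn1 : m ≤ b ^ (7 * Q + 1) := hmn0.trans (Nat.pow_le_pow_right (by omega) (by omega))
  have hcb : 1 ≤ c * b := by
    have : 1 / c ≤ b := (Nat.le_ceil _).trans (by exact_mod_cast (by omega))
    rw [div_le_iff₀ hc0] at this
    linarith
  -- decomposition
  have hdec : pr α m (n - m) (ind (fun E => ¬ Reg P E)) E ≤
      pr α m (n - m) (ind (fun E' => ∃ x ∈ Ico P.n1 n, (1 / (P.t:ℝ)) * n ≤
        (csz n E' (fun z => x ≤ z) x : ℝ))) E +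
      (pr α m (n - m) (ind (fun E' => ∃ z ∈ smallSets (Fintype.card I) P.n1 ×ˢ range P.n1,
        z.2 ∉ z.1 ∧ P.β1 < csz P.n1 E' (fun y => y ∉ z.1) z.2 ∧
          csz n E' (fun y => y ∉ z.1) z.2 * P.t < n)) E +
      pr α m (n - m) (ind (fun E' => ∃ y ∈ range P.n1, P.D1 < (nbr P.n1 E' y).card)) E) := by
    refine le_trans ?_ (add_le_add le_rfl (pr_or _ _ _ _ _))
    refine le_trans ?_ (pr_or _ _ _ _ _)
    apply pr_mono
    intro E'
    apply ind_mono
    intro hreg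
    by_contra hcon
    push Not at hcon
    obtain ⟨c1, c2, c3⟩ := hcon
    apply hreg
    constructor
    · intro x hx hxn
      have h2 := c1 x (mem_Ico.2 ⟨hx, hxn⟩)
      have ht : (0:ℝ) < P.t := by rw [hPt]; push_cast; positivity
      rw [one_div, inv_mul_eq_div, lt_div_iff₀ ht] at h2
      exact_mod_cast h2
    · intro Hs hHs hcard x hx hxH hβ
      exact c2 (Hs, x) (mem_product.2 ⟨mem_smallSets.2 ⟨hHs, hcard⟩, mem_range.2 hx⟩) hxH hβ
    · intro y hy
      exact c3 y (mem_range.2 hy)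
  -- (r1)
  have hr1 : pr α m (n - m) (ind (fun E' => ∃ x ∈ Ico P.n1 n, (1 / (P.t:ℝ)) * n ≤
        (csz n E' (fun z => x ≤ z) x : ℝ))) E ≤ Real.exp (-(3 * (b:ℝ) ^ Q)) := by
    refine (pr_union _ _ _ _ _).trans ?_
    have ht : (0:ℝ) < P.t := by rw [hPt]; push_cast; positivity
    have h2 : ∀ x ∈ Ico P.n1 n, pr α m (n - m) (ind (fun E' => (1 / (P.t:ℝ)) * n ≤
        (csz n E' (fun z => x ≤ z) x : ℝ))) E ≤ Real.exp (-((c * (1 / P.t)) * x)) * Real.exp C := by
      intro x hx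
      rw [mem_Ico] at hx
      exact desc_upper h0 hc0 hc (by omega) (by omega) (by omega) hx.2 hE (by positivity)
    refine (sum_le_sum h2).trans ?_
    rw [← sum_mul]
    have hy : 0 < c * (1 / (P.t:ℝ)) := by positivity
    have h3 := geo_sum hy (show P.n1 ≤ n by omega)
    refine (mul_le_mul_of_nonneg_right h3 (Real.exp_pos C).le).trans ?_
    have e1 : c * (1 / (P.t:ℝ)) * (P.n1 : ℝ) = c * (b:ℝ) ^ (Q + 1) := by
      rw [hPt, hPn1]
      push_cast
      rw [show 7 * Q + 1 = (Q + 1) + 6 * Q by ring, pow_add (b:ℝ) (Q + 1)]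
      field_simp
    rw [e1]
    have e2 : (1 + 1 / (c * (1 / (P.t:ℝ)))) ≤ (1 + 1 / c) * (b:ℝ) ^ (6 * Q) := by
      have e3 : 1 / (c * (1 / (P.t:ℝ))) = (1 / c) * (b:ℝ) ^ (6 * Q) := by
        rw [hPt]; push_cast; field_simp
      rw [e3, add_mul, one_mul]
      have : (1:ℝ) ≤ (b:ℝ) ^ (6 * Q) := one_le_pow₀ (by linarith)
      linarith
    refine le_trans ?_ (hn1 b (by omega))
    calc Real.exp (-(c * (b:ℝ) ^ (Q + 1))) * (1 + 1 / (c * (1 / (P.t:ℝ)))) * Real.exp C
        ≤ Real.exp (-(c * (b:ℝ) ^ (Q + 1))) * ((1 + 1 / c) * (b:ℝ) ^ (6 * Q)) * Real.exp C := by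
          apply mul_le_mul_of_nonneg_right _ (Real.exp_pos _).le
          exact mul_le_mul_of_nonneg_left e2 (Real.exp_pos _).le
      _ = _ := by ring
  -- (r2)
  have hr2 : pr α m (n - m) (ind (fun E' => ∃ z ∈ smallSets (Fintype.card I) P.n1 ×ˢ range P.n1,
        z.2 ∉ z.1 ∧ P.β1 < csz P.n1 E' (fun y => y ∉ z.1) z.2 ∧
          csz n E' (fun y => y ∉ z.1) z.2 * P.t < n)) E ≤ Real.exp (-(3 * (b:ℝ) ^ Q)) := by
    have hIβ : Fintype.card I ≤ b ^ (Q + 2) := by
      calc Fintype.card I ≤ b := by omega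
        _ ≤ b ^ (Q + 2) := Nat.le_self_pow (by omega) b
    refine (pr_union_le _ _ _ _ _ (a := Real.exp (-(c * (b:ℝ) ^ (Q + 1)))) ?_).trans ?_
    · rintro ⟨Hs, x⟩ hz
      rw [mem_product, mem_smallSets, mem_range] at hz
      obtain ⟨⟨h2, h3⟩, h4⟩ := hz
      by_cases hxH : x ∈ Hs
      · have : pr α m (n - m) (ind (fun E' => (Hs, x).2 ∉ (Hs, x).1 ∧
            P.β1 < csz P.n1 E' (fun y => y ∉ (Hs, x).1) (Hs, x).2 ∧
            csz n E' (fun y => y ∉ (Hs, x).1) (Hs, x).2 * P.t < n)) E ≤ pr α m (n - m) (fun _ => 0) E := by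
          apply pr_mono
          intro E'
          rw [ind_of_not]
          rintro ⟨h5, _⟩
          exact h5 hxH
        rw [pr_const h0 _ _ _ _ (by omega) hE.valid] at this
        exact this.trans (Real.exp_pos _).le
      · have h5 := r2_one hc0 hc h0 (m := m) (k := P.n1) (n := n) (β := P.β1) (t := P.t) (Hs := Hs)
          (x := x) (by omega) (by omega) (by omega) (by omega) (by omega) h2
          (h3.trans (hIβ.trans hPβ1.ge)) h4 hxH (by
            rw [hPβ1, hPt, hPn1]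
            push_cast
            have e : c * (b:ℝ) ^ (Q + 2) * (b:ℝ) ^ (6 * Q) = (c * b) * (b:ℝ) ^ (7 * Q + 1) := by
              rw [show 7 * Q + 1 = (Q + 1) + 6 * Q by ring, pow_add (b:ℝ) (Q + 1) (6 * Q),
                pow_succ (b:ℝ) (Q + 1)]
              ring
            rw [e]
            have : 0 < (b:ℝ) ^ (7 * Q + 1) := by positivity
            nlinarith) hE
        refine le_trans (pr_mono fun E' => ind_mono fun h => h.2) (h5.trans ?_)
        apply Real.exp_le_exp.2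
        rw [hPβ1]
        push_cast
        have : (b:ℝ) ^ (Q + 1) ≤ (b:ℝ) ^ (Q + 2) := pow_le_pow_right₀ (by linarith) (by omega)
        nlinarith
    · rw [card_product, card_range]
      refine le_trans ?_ (hn2 b (by omega))
      apply mul_le_mul_of_nonneg_right _ (Real.exp_pos _).le
      have h2 : (smallSets (Fintype.card I) P.n1).card * P.n1 ≤
          (Fintype.card I + 1) * b ^ ((7 * Q + 1) * (Fintype.card I + 1)) := by
        calc _ ≤ ((Fintype.card I + 1) * P.n1 ^ Fintype.card I) * P.n1 :=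
              Nat.mul_le_mul_right _ (card_smallSets (by omega))
          _ = (Fintype.card I + 1) * P.n1 ^ (Fintype.card I + 1) := by ring
          _ = _ := by rw [hPn1, ← pow_mul]
      exact_mod_cast h2
  -- (r3)
  have hr3 : pr α m (n - m) (ind (fun E' => ∃ y ∈ range P.n1, P.D1 < (nbr P.n1 E' y).card)) E ≤
      Real.exp (-(3 * (b:ℝ) ^ Q)) := by
    have hbQ1 : 1 ≤ b ^ Q := Nat.one_le_pow _ _ (by omega)
    have hbQ2 : b ^ Q ≤ b ^ (Q + 2) := Nat.pow_le_pow_right (by omega) (by omega)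
    refine (pr_union_le _ _ _ _ _ (a := (1 / 2) ^ (P.D1 + 1 - b ^ Q) *
      (P.n1 : ℝ) ^ (2 * ((P.D1 + 1 : ℕ):ℝ) ^ α)) ?_).trans ?_
    · intro y hy
      exact deg_bound h0 h1 (by omega) (by omega) (by omega) (mem_range.1 hy) hbQ1
        (by omega) hE hdeg
    · rw [card_range]
      exact hn3 b (by omega)
  refine hdec.trans ?_
  have hbQ : (2:ℝ) ≤ (b:ℝ) ^ Q := by
    calc (2:ℝ) ≤ b := hbR
      _ ≤ (b:ℝ) ^ Q := le_self_pow₀ (by linarith) (by omega)
  have h3 : (3:ℝ) ≤ Real.exp ((b:ℝ) ^ Q) := by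
    have := Real.add_one_le_exp ((b:ℝ) ^ Q)
    linarith
  calc _ ≤ Real.exp (-(3 * (b:ℝ) ^ Q)) + (Real.exp (-(3 * (b:ℝ) ^ Q)) + Real.exp (-(3 * (b:ℝ) ^ Q))) :=
        add_le_add hr1 (add_le_add hr2 hr3)
    _ = 3 * Real.exp (-(3 * (b:ℝ) ^ Q)) := by ring
    _ ≤ Real.exp ((b:ℝ) ^ Q) * Real.exp (-(3 * (b:ℝ) ^ Q)) :=
        mul_le_mul_of_nonneg_right h3 (Real.exp_pos _).le
    _ = _ := by rw [← Real.exp_add]; congr 1; ring

end T1

end SeedPA
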