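import Pool.Agent.SeedPA.CanonDef
import Pool.Agent.SeedPA.ColorSum
import Pool.Agent.SeedPA.Local
import Pool.Agent.SeedPA.Tails

/-!
# Consistent and canonical states (CAN1 – CAN3)
-/

open Finset Relation

namespace SeedPA

variable {I : Type*}

theorem Conn.mono' {E E' : ESet} {nh nh' : ℕ → Prop} (hE : E ⊆ E') (hnh : ∀ z, nh z → nh' z)
    {x y : ℕ} (h : Conn E nh x y) : Conn E' nh' x y := by
  unfold Conn at h ⊢
  induction h with
  | refl => exact ReflTransGen.refl
  | tail _ hbc ih => exact ih.tail ⟨hE hbc.1, hnh _ hbc.2.1, hnh _ hbc.2.2⟩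

/-- edges between old labels are old -/
theorem Ext.edge {k m : ℕ} {E E' : ESet} (h : Ext k E m E') {x y : ℕ} (hx : x < k) (hy : y < k)
    (he : s(x, y) ∈ E') : s(x, y) ∈ E := by
  have hirr := h.tree.valid.irrefl x
  have h1 : Conn E' (fun z => z = x ∨ z = y) x y :=
    ReflTransGen.single ⟨he, Or.inl rfl, Or.inr rfl⟩
  have h2 := (h.conn (fun z => z = x ∨ z = y) x hx y hy).1 h1
  rcases ReflTransGen.cases_head h2 with h3 | ⟨z, hz, _⟩
  · rw [← h3] at he
    exact absurd he hirr
  · rcases hz.2.2 with rfl | rfl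
    · exact absurd (h.sub hz.1) hirr
    · exact hz.1

theorem hubP_iff {s : St (Option I)} {x : ℕ} : hubP s x ↔ ∃ i, s.col x = some i :=
  Option.ne_none_iff_exists'

theorem colL_hub_iff {L : I → ℕ} {x : ℕ} : (∃ i, L i = x) ↔ colL L x ≠ none := by
  rw [Ne, colL_none]
  push Not
  exact Iff.rfl

section
variable [Fintype I] {α : ℝ} {P : Par I} {Z : SimpleGraph I}

/-- **CAN1** -/
theorem cons_of_Rv_ne_zero (hP : P.n1 ≤ P.n) (hZ : Z.IsTree) {m : ℕ} (hm1 : 1 ≤ m) (hmn : m ≤ P.n)
    {s : St (Option I)} (hs : TreeOn m s.E) (hR : Rv α P Z m s ≠ 0) : Cons Z m s := by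
  rw [Rv_eq_sum_pr hP hZ hm1 hmn hs] at hR
  have h1 := right_ne_zero_of_mul hR
  obtain ⟨L, hL, hne⟩ := exists_ne_zero_of_sum_ne_zero h1
  rw [mem_Lset] at hL
  obtain ⟨hL1, hL2, hL3⟩ := hL
  obtain ⟨E', hE', hG⟩ : ∃ E', Ext m s.E P.n E' ∧ Good P Z ⟨E', colL L⟩ := by
    by_contra hcon
    push Not at hcon
    apply hne
    have : pr α m (P.n - m) (ind (fun E => Good P Z ⟨E, colL L⟩)) s.E =
        pr α m (P.n - m) (fun _ => 0) s.E := by
      apply pr_congr_ext (n := P.n) hs (by omega)
      intro E' hE'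
      unfold ind
      rw [if_neg (hcon E' hE')]
    rw [this, pr_zero_fun]
  have hLn : ∀ j, L j < P.n := fun j => lt_of_lt_of_le (hL1 j) hP
  have hadj : ∀ a b, Z.Adj a b → s(L a, L b) ∈ E' := fun a b hab =>
    hG.adj a b (L a) (L b) (hLn a) (hLn b) (colL_self hL2 a) (colL_self hL2 b) hab
  have hcol : ∀ x < m, ∀ i, s.col x = some i → L i = x := by
    intro x hx i hi
    rw [← hL3 x hx, colL_some hL2] at hi
    exact hi
  have hn2 : 2 ≤ P.n ∨ P.n < 2 := by omega
  refine ⟨?_, ?_, ?_⟩
  · intro i x y hx hy h1 h2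
    rw [← hcol x hx i h1, ← hcol y hy i h2]
  · intro i i' x y hx hy h1 h2
    have e1 := hcol x hx i h1
    have e2 := hcol y hy i' h2
    constructor
    · intro h
      have := hadj i i' h
      rw [e1, e2] at this
      exact hE'.edge hx hy this
    · intro h
      rcases hn2 with hn2 | hn2
      · apply hub_edges hZ hL2 hn2 hLn hE'.tree hadj
        rw [e1, e2]
        exact hE'.sub h
      · have := hs.valid.irrefl x
        have hxy : x = y := by omega
        rw [← hxy] at h
        exact absurd h this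
  · intro x hx y hy hx' hy'
    obtain ⟨i, hi⟩ := hubP_iff.1 hx'
    obtain ⟨j, hj⟩ := hubP_iff.1 hy'
    have h3 := hub_conn hZ.connected hadj i j
    rw [hcol x hx i hi, hcol y hy j hj, hE'.conn _ x hx y hy] at h3
    refine (Conn.congr hs.valid.lt (fun z hz => ?_)).1 h3
    unfold hubP
    rw [← hL3 z hz, colL_hub_iff]

end

theorem TreeOn.two_le {m : ℕ} {E : ESet} (h : TreeOn m E) : 2 ≤ m := by
  have h1 := h.valid.card
  by_contra hc
  have hm : m = 1 := by omega
  have h2 := h.valid.pos 0 (by omega)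
  have h3 : E = ∅ := card_eq_zero.1 (by omega)
  rw [h3] at h2
  simp [deg] at h2

section unique
variable {Z : SimpleGraph I} {m : ℕ} {s : St (Option I)}

/-- a non-hub is adjacent to at most one hub -/
theorem nonhub_unique (hs : TreeOn m s.E)
    (hconn : ∀ x < m, ∀ y < m, hubP s x → hubP s y → Conn s.E (hubP s) x y)
    {x y y' : ℕ} (hxn : s.col x = none) (hy : hubP s y) (hy' : hubP s y')
    (he : s(y, x) ∈ s.E) (he' : s(y', x) ∈ s.E) : y = y' := by
  classical
  by_contra hne
  have hm := hs.two_le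
  have hx : x < m := hs.valid.lt _ he x (by simp)
  have hym : y < m := hs.valid.lt _ he y (by simp)
  have h1 : (vIn m (hubP s)).card ≤ (eIn (hubP s) s.E).card + 1 := hs.card_vIn_le hm _ hconn
  have h2 : (eIn (fun z => hubP s z ∨ z = x) s.E).card + 1 ≤
      (vIn m (fun z => hubP s z ∨ z = x)).card := hs.card_eIn_lt hm _ ⟨x, hx, Or.inr rfl⟩
  have h3 : (vIn m (fun z => hubP s z ∨ z = x)).card ≤ (vIn m (hubP s)).card + 1 := by
    have : vIn m (fun z => hubP s z ∨ z = x) ⊆ insert x (vIn m (hubP s)) := by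
      intro z hz
      rw [mem_vIn] at hz
      rw [mem_insert, mem_vIn]
      tauto
    exact (card_le_card this).trans (card_insert_le _ _)
  have hxh : ¬ hubP s x := fun h => h hxn
  have h4 : (eIn (hubP s) s.E).card + 2 ≤ (eIn (fun z => hubP s z ∨ z = x) s.E).card := by
    have hsub : insert s(y, x) (insert s(y', x) (eIn (hubP s) s.E)) ⊆
        eIn (fun z => hubP s z ∨ z = x) s.E := by
      intro e he1
      rcases mem_insert.1 he1 with rfl | he1
      · rw [mem_eIn]; exact ⟨he, Or.inl hy, Or.inr rfl⟩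
      rcases mem_insert.1 he1 with rfl | he1
      · rw [mem_eIn]; exact ⟨he', Or.inl hy', Or.inr rfl⟩
      · induction e using Sym2.ind with
        | _ a b =>
          rw [mem_eIn] at he1 ⊢
          exact ⟨he1.1, Or.inl he1.2.1, Or.inl he1.2.2⟩
    have n1 : s(y', x) ∉ eIn (hubP s) s.E := by
      rw [mem_eIn]; tauto
    have n2 : s(y, x) ∉ insert s(y', x) (eIn (hubP s) s.E) := by
      rw [mem_insert, mem_eIn, Sym2.eq_iff]
      rintro (h | h)
      · rcases h with ⟨h, _⟩ | ⟨h, h'⟩
        · exact hne h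
        · exact hne (h.trans h')
      · exact hxh h.2.2
    have := card_le_card hsub
    rw [card_insert_of_notMem n2, card_insert_of_notMem n1] at this
    omega
  omega

/-- a non-hub of a clean consistent state has degree one -/
theorem nonhub_deg (hs : TreeOn m s.E) (hc : Clean m s)
    (hconn : ∀ x < m, ∀ y < m, hubP s x → hubP s y → Conn s.E (hubP s) x y)
    {x : ℕ} (hx : x < m) (hxn : s.col x = none) :
    deg s.E x = 1 ∧ ∃ y < m, hubP s y ∧ s(y, x) ∈ s.E := by
  classical
  have hub : ∀ z, s(x, z) ∈ s.E → hubP s z := by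
    intro z hz
    have hzm := hs.valid.lt _ hz z (by simp)
    rcases hc.2 x hx z hzm hz with h | h
    · exact absurd hxn h
    · exact h
  have h1 := hs.valid.pos x hx
  obtain ⟨w, hw⟩ := deg_pos_iff.1 h1
  have hwm := hs.valid.lt _ hw w (by simp)
  refine ⟨?_, w, hwm, hub w hw, by rw [Sym2.eq_swap]; exact hw⟩
  rw [← card_nbr_eq_deg hs.valid, card_eq_one]
  refine ⟨w, ?_⟩
  ext z
  rw [mem_singleton]
  unfold nbr
  rw [mem_filter]
  constructor
  · rintro ⟨_, hz⟩
    exact nonhub_unique hs hconn hxn (hub z hz) (hub w hw) (by rw [Sym2.eq_swap]; exact hz)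
      (by rw [Sym2.eq_swap]; exact hw)
  · rintro rfl
    exact ⟨mem_range.2 hwm, hw⟩

end unique

/-! ### types -/

/-- the type of a vertex: hub of colour `i`, or leaf of the hub of colour `i` -/
def IsTy (m : ℕ) (s : St (Option I)) (x : ℕ) (t : I × Bool) : Prop :=
  (t.2 = true ∧ s.col x = some t.1) ∨
    (t.2 = false ∧ s.col x = none ∧ ∃ y < m, s.col y = some t.1 ∧ s(y, x) ∈ s.E)

/-- adjacency of types -/
def EdgeTy (Z : SimpleGraph I) (t t' : I × Bool) : Prop :=
  (t.2 = true ∧ t'.2 = true ∧ Z.Adj t.1 t'.1) ∨ (t.2 = true ∧ t'.2 = false ∧ t.1 = t'.1) ∨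
    (t.2 = false ∧ t'.2 = true ∧ t.1 = t'.1)

section types
variable {Z : SimpleGraph I} {m m' : ℕ} {s s' : St (Option I)} {l : I → ℕ}

theorem IsTy.unique (hs : TreeOn m s.E) (hc : Cons Z m s) {x : ℕ}
    {t t' : I × Bool} (h : IsTy m s x t) (h' : IsTy m s x t') : t = t' := by
  rcases h with ⟨h1, h2⟩ | ⟨h1, h2, y, hy, h3, h4⟩
  · rcases h' with ⟨h1', h2'⟩ | ⟨h1', h2', _⟩
    · rw [h2] at h2'
      exact Prod.ext (Option.some.inj h2') (h1.trans h1'.symm)
    · rw [h2] at h2'; simp at h2'
  · rcases h' with ⟨h1', h2'⟩ | ⟨h1', h2', y', hy', h3', h4'⟩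
    · rw [h2] at h2'; simp at h2'
    · have := nonhub_unique hs hc.conn h2 (hubP_iff.2 ⟨_, h3⟩) (hubP_iff.2 ⟨_, h3'⟩) h4 h4'
      subst this
      rw [h3] at h3'
      exact Prod.ext (Option.some.inj h3') (h1.trans h1'.symm)

theorem Canon.exists_ty (h : Canon Z m s l) {x : ℕ} (hx : x < m) : ∃ t, IsTy m s x t := by
  cases hcx : s.col x with
  | none =>
    obtain ⟨_, y, hy, hyh, he⟩ := nonhub_deg h.tree h.clean h.cons.conn hx hcx
    obtain ⟨i, hi⟩ := hubP_iff.1 hyh
    exact ⟨(i, false), Or.inr ⟨rfl, hcx, y, hy, hi, he⟩⟩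
  | some i => exact ⟨(i, true), Or.inl ⟨rfl, hcx⟩⟩

theorem Canon.edge_iff (h : Canon Z m s l) {x y : ℕ} (hx : x < m) (hy : y < m) {t t' : I × Bool}
    (ht : IsTy m s x t) (ht' : IsTy m s y t') : s(x, y) ∈ s.E ↔ EdgeTy Z t t' := by
  rcases ht with ⟨a1, a2⟩ | ⟨a1, a2, z, hz, a3, a4⟩
  · rcases ht' with ⟨b1, b2⟩ | ⟨b1, b2, w, hw, b3, b4⟩
    · rw [← h.cons.adj _ _ x y hx hy a2 b2]
      unfold EdgeTy
      simp [a1, b1]
    · unfold EdgeTy
      simp only [a1, b1, true_and]
      constructor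
      · intro he
        have := nonhub_unique h.tree h.cons.conn b2 (hubP_iff.2 ⟨_, a2⟩) (hubP_iff.2 ⟨_, b3⟩) he b4
        subst this
        rw [a2] at b3
        right; left
        exact Option.some.inj b3
      · intro he
        have he : t.1 = t'.1 := by simpa using he
        rw [← he] at b3
        rw [h.cons.uniq _ x w hx hw a2 b3]
        exact b4
  · rcases ht' with ⟨b1, b2⟩ | ⟨b1, b2, w, hw, b3, b4⟩
    · unfold EdgeTy
      simp only [a1, b1, true_and]
      constructor
      · intro he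
        rw [Sym2.eq_swap] at he
        have := nonhub_unique h.tree h.cons.conn a2 (hubP_iff.2 ⟨_, a3⟩) (hubP_iff.2 ⟨_, b2⟩) a4 he
        subst this
        rw [a3] at b2
        right; right
        exact Option.some.inj b2
      · intro he
        have he : t.1 = t'.1 := by simpa using he
        rw [he] at a3
        rw [Sym2.eq_swap, h.cons.uniq _ y z hy hz b2 a3]
        exact a4
    · unfold EdgeTy
      simp only [a1, b1]
      constructor
      · intro he
        rcases h.clean.2 x hx y hy he with hh | hh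
        · exact absurd a2 hh
        · exact absurd b2 hh
      · intro he
        simp at he

theorem exists_perm_of_fibers {A T : Type*} [Fintype A] [DecidableEq T] (f f' : A → T)
    (h : ∀ t, Fintype.card {x // f x = t} = Fintype.card {x // f' x = t}) :
    ∃ e : A ≃ A, ∀ x, f' (e x) = f x := by
  let g : ∀ t, {x // f x = t} ≃ {x // f' x = t} := fun t => Fintype.equivOfCardEq (h t)
  refine ⟨(Equiv.sigmaFiberEquiv f).symm.trans
    ((Equiv.sigmaCongrRight g).trans (Equiv.sigmaFiberEquiv f')), ?_⟩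
  intro x
  exact (g (f x) ⟨x, rfl⟩).2

/-- the number of vertices of a given type -/
theorem Canon.card_fiber [DecidableEq (I × Bool)] (h : Canon Z m s l)
    {f : {x // x ∈ range m} → I × Bool}
    (hf : ∀ x : {x // x ∈ range m}, IsTy m s x.1 (f x)) (t : I × Bool) :
    Fintype.card {x : {x // x ∈ range m} // f x = t} = if t.2 = true then 1 else l t.1 := by
  classical
  obtain ⟨i, b⟩ := t
  cases b with
  | true =>
    simp only [if_true]
    rw [Fintype.card_eq_one_iff]
    obtain ⟨x, hx, hxc⟩ := h.all i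
    have hty : ∀ z : {x // x ∈ range m}, f z = (i, true) ↔ s.col z = some i := by
      intro z
      constructor
      · intro hz
        have := hf z
        rw [hz] at this
        rcases this with ⟨_, h2⟩ | ⟨h1, _⟩
        · exact h2
        · simp at h1
      · intro hz
        exact IsTy.unique h.tree h.cons (hf z) (Or.inl ⟨rfl, hz⟩)
    refine ⟨⟨⟨x, mem_range.2 hx⟩, (hty _).2 hxc⟩, ?_⟩
    rintro ⟨⟨z, hz⟩, hfz⟩
    rw [hty] at hfz
    apply Subtype.ext
    apply Subtype.ext
    exact h.cons.uniq i z x (mem_range.1 hz) hx hfz hxc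
  | false =>
    simp only [Bool.false_eq_true, if_false]
    rw [← h.leaf i]
    unfold leafs
    rw [Fintype.card_subtype]
    apply card_bij (fun z _ => z.1)
    · intro z hz
      rw [mem_filter] at hz
      have := hf z
      rw [hz.2] at this
      rcases this with ⟨h1, _⟩ | ⟨_, h2⟩
      · simp at h1
      · rw [mem_filter, mem_range]
        exact ⟨mem_range.1 z.2, h2⟩
    · intro a _ b _ hab
      exact Subtype.ext hab
    · intro x hx
      rw [mem_filter, mem_range] at hx
      refine ⟨⟨x, mem_range.2 hx.1⟩, ?_, rfl⟩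
      rw [mem_filter]
      exact ⟨mem_univ _, IsTy.unique h.tree h.cons (hf ⟨x, mem_range.2 hx.1⟩) (Or.inr ⟨rfl, hx.2⟩)⟩

theorem Canon.card_eq [Fintype I] (h : Canon Z m s l) : m = Fintype.card I + ∑ i, l i := by
  classical
  choose f hf using fun x : {x // x ∈ range m} => h.exists_ty (mem_range.1 x.2)
  have h1 : Fintype.card {x // x ∈ range m} =
      ∑ t, Fintype.card {x : {x // x ∈ range m} // f x = t} := by
    rw [← Fintype.card_sigma]
    exact Fintype.card_congr (Equiv.sigmaFiberEquiv f).symm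
  have h2 : Fintype.card {x // x ∈ range m} = m := by simp
  rw [h2] at h1
  rw [h1, Fintype.sum_prod_type]
  have h3 : ∀ i : I, ∑ b : Bool, Fintype.card {x : {x // x ∈ range m} // f x = (i, b)} =
      1 + l i := by
    intro i
    rw [Fintype.sum_bool, h.card_fiber hf, h.card_fiber hf]
    simp
  rw [sum_congr rfl (fun i _ => h3 i), sum_add_distrib]
  simp

/-- **CAN2**, size -/
theorem Canon.level_eq [Fintype I] (h : Canon Z m s l) (h' : Canon Z m' s' l) : m = m' := by
  rw [h.card_eq, h'.card_eq]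

/-- **CAN2**, isomorphism -/
theorem Canon.exists_perm (h : Canon Z m s l) (h' : Canon Z m s' l) :
    ∃ σ : Equiv.Perm ℕ, FixGE m σ ∧ LEq m (s.perm σ) s' := by
  classical
  choose f hf using fun x : {x // x ∈ range m} => h.exists_ty (mem_range.1 x.2)
  choose f' hf' using fun x : {x // x ∈ range m} => h'.exists_ty (mem_range.1 x.2)
  obtain ⟨e, he⟩ := exists_perm_of_fibers f f' (fun t => by
    rw [h.card_fiber hf, h'.card_fiber hf'])
  set σ : Equiv.Perm ℕ := Equiv.Perm.ofSubtype (p := fun x => x ∈ range m) e with hσ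
  have hfix : FixGE m σ := by
    intro x hx
    exact Equiv.Perm.ofSubtype_apply_of_not_mem e (by rw [mem_range]; omega)
  have happ : ∀ x (hx : x < m), σ x = (e ⟨x, mem_range.2 hx⟩).1 := by
    intro x hx
    exact Equiv.Perm.ofSubtype_apply_of_mem e (mem_range.2 hx)
  have hty : ∀ x (hx : x < m), IsTy m s x (f ⟨x, mem_range.2 hx⟩) ∧
      IsTy m s' (σ x) (f ⟨x, mem_range.2 hx⟩) := by
    intro x hx
    refine ⟨hf ⟨x, mem_range.2 hx⟩, ?_⟩
    rw [happ x hx, ← he ⟨x, mem_range.2 hx⟩]
    exact hf' _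
  refine ⟨σ, hfix, ?_, ?_⟩
  · rw [St.perm_E]
    ext ed
    induction ed using Sym2.ind with
    | _ a b =>
      obtain ⟨x, rfl⟩ := σ.surjective a
      obtain ⟨y, rfl⟩ := σ.surjective b
      rw [mem_permE]
      by_cases hx : x < m
      · by_cases hy : y < m
        · rw [h.edge_iff hx hy (hty x hx).1 (hty y hy).1,
            h'.edge_iff ((hfix.lt_iff x).2 hx) ((hfix.lt_iff y).2 hy) (hty x hx).2 (hty y hy).2]
        · constructor
          · intro he; exact absurd (h.tree.valid.lt _ he y (by simp)) hy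
          · intro he
            exact absurd ((hfix.lt_iff y).1 (h'.tree.valid.lt _ he (σ y) (by simp))) hy
      · constructor
        · intro he; exact absurd (h.tree.valid.lt _ he x (by simp)) hx
        · intro he
          exact absurd ((hfix.lt_iff x).1 (h'.tree.valid.lt _ he (σ x) (by simp))) hx
  · intro z hz
    obtain ⟨x, rfl⟩ := σ.surjective z
    have hx := (hfix.lt_iff x).1 hz
    rw [St.perm_col, Equiv.symm_apply_apply]
    obtain ⟨h1, h2⟩ := hty x hx
    rcases h1 with ⟨a1, a2⟩ | ⟨a1, a2, _⟩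
    · rcases h2 with ⟨b1, b2⟩ | ⟨b1, _⟩
      · rw [a2, b2]
      · rw [a1] at b1; simp at b1
    · rcases h2 with ⟨b1, _⟩ | ⟨b1, b2, _⟩
      · rw [a1] at b1; simp at b1
      · rw [a2, b2]

theorem Canon.isoOn (h : Canon Z m s l) (h' : Canon Z m s' l) : IsoOn m s.E s'.E := by
  obtain ⟨σ, hσ, h1⟩ := h.exists_perm h'
  exact ⟨σ, hσ, h1.1⟩

/-- **CAN2**, values -/
theorem Canon.Rv_eq [Fintype I] {α : ℝ} {P : Par I} (hP : P.n1 ≤ P.n) (h : Canon Z m s l)
    (h' : Canon Z m' s' l) (hm : m ≤ P.n1) : Rv α P Z m s = Rv α P Z m' s' := by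
  have := h.level_eq h'
  subst this
  obtain ⟨σ, hσ, h1⟩ := h.exists_perm h'
  rw [← Rv_TInv hP hm σ hσ s]
  exact Rv_loc hP (by omega) _ _ (h.tree.valid.perm hσ) h1

end types

end SeedPA
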