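import Pool.Agent.SeedPA.MainK

/-!
# Consistent and canonical states: definitions
-/

open Finset

namespace SeedPA

variable {I : Type*}

/-- hubs -/
def hubP (s : St (Option I)) : ℕ → Prop := fun x => s.col x ≠ none

/-- consistency of the colouring of the hubs (labels `< m`) -/
structure Cons (Z : SimpleGraph I) (m : ℕ) (s : St (Option I)) : Prop where
  uniq : ∀ i x y, x < m → y < m → s.col x = some i → s.col y = some i → x = y
  adj : ∀ i i' x y, x < m → y < m → s.col x = some i → s.col y = some i' →
    (Z.Adj i i' ↔ s(x, y) ∈ s.E)
  conn : ∀ x < m, ∀ y < m, hubP s x → hubP s y → Conn s.E (hubP s) x y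

open Classical in
/-- number of non-hubs (labels `< m`) adjacent to the hub of colour `i` -/
noncomputable def leafs (m : ℕ) (s : St (Option I)) (i : I) : ℕ :=
  ((range m).filter (fun x => s.col x = none ∧ ∃ y < m, s.col y = some i ∧ s(y, x) ∈ s.E)).card

/-- canonical states: all hubs are present, the non-hubs are leaves attached to the hubs -/
structure Canon (Z : SimpleGraph I) (m : ℕ) (s : St (Option I)) (l : I → ℕ) : Prop where
  tree : TreeOn m s.E
  clean : Clean m s
  cons : Cons Z m s
  all : ∀ i, ∃ x < m, s.col x = some i
  leaf : ∀ i, leafs m s i = l i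

end SeedPA
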