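import Pool.Agent.SeedPA.Canon
import Pool.Agent.SeedPA.Clean

/-!
# Canonical states: steps (CAN3) and removal of a leaf (CAN4)
-/

open Finset Relation

namespace SeedPA

variable {I : Type*}

section step
variable {Z : SimpleGraph I} {m y : ℕ} {s : St (Option I)} {l : I → ℕ}

/-- an edge of the new state between old labels is old -/
theorem edge_step_old (_hy : y < m) {a b : ℕ} (ha : a < m) (hb : b < m) :
    s(a, b) ∈ insert s(y, m) s.E ↔ s(a, b) ∈ s.E := by
  rw [mem_insert, Sym2.eq_iff]
  constructor
  · rintro (h | h)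
    · omega
    · exact h
  · exact Or.inr

theorem edge_step_new (hs : Valid m s.E) {a : ℕ} (ha : a < m) :
    s(a, m) ∈ insert s(y, m) s.E ↔ a = y := by
  rw [mem_insert, Sym2.eq_iff]
  constructor
  · rintro (h | h)
    · omega
    · exact absurd h (hs.not_mem a)
  · rintro rfl
    exact Or.inl (Or.inl ⟨rfl, rfl⟩)

theorem Cons.step_none (h : Cons Z m s) (hs : Valid m s.E) (hy : y < m) :
    Cons Z (m + 1) (s.step m y none) := by
  have hlt : ∀ x i, x < m + 1 → (s.step m y none).col x = some i → x < m := by
    intro x i hx hc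
    by_contra hcon
    have : x = m := by omega
    rw [this, St.step_col_self] at hc
    simp at hc
  refine ⟨?_, ?_, ?_⟩
  · intro i a b ha hb h1 h2
    have ha' := hlt a i ha h1
    have hb' := hlt b i hb h2
    rw [St.step_col_of_ne _ _ _ _ (by omega)] at h1 h2
    exact h.uniq i a b ha' hb' h1 h2
  · intro i j a b ha hb h1 h2
    have ha' := hlt a i ha h1
    have hb' := hlt b j hb h2
    rw [St.step_col_of_ne _ _ _ _ (by omega)] at h1 h2
    rw [St.step_E, edge_step_old hy ha' hb']
    exact h.adj i j a b ha' hb' h1 h2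
  · intro a ha b hb h1 h2
    obtain ⟨i, hi⟩ := hubP_iff.1 h1
    obtain ⟨j, hj⟩ := hubP_iff.1 h2
    have ha' := hlt a i ha hi
    have hb' := hlt b j hb hj
    rw [St.step_E]
    apply (conn_insert_old hs.lt (nh := hubP s) _ hy ha' hb').2
    · unfold hubP at h1 h2 ⊢
      rw [St.step_col_of_ne _ _ _ _ (by omega)] at h1 h2
      exact h.conn a ha' b hb' h1 h2
    · intro z hz
      unfold hubP
      rw [St.step_col_of_ne _ _ _ _ (by omega)]

theorem all_step (h : ∀ i, ∃ x < m, s.col x = some i) (c : Option I) :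
    ∀ i, ∃ x < m + 1, (s.step m y c).col x = some i := by
  intro i
  obtain ⟨x, hx, hc⟩ := h i
  exact ⟨x, by omega, by rw [St.step_col_of_ne _ _ _ _ (by omega)]; exact hc⟩

open Classical in
theorem leafs_step_none (hs : Valid m s.E) (hy : y < m) {i : I} (hi : s.col y = some i) (j : I) :
    leafs (m + 1) (s.step m y none) j = leafs m s j + if j = i then 1 else 0 := by
  unfold leafs
  rw [range_add_one, filter_insert]
  have h1 : (range m).filter (fun x => (s.step m y none).col x = none ∧
      ∃ z < m + 1, (s.step m y none).col z = some j ∧ s(z, x) ∈ (s.step m y none).E) =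
      (range m).filter (fun x => s.col x = none ∧ ∃ z < m, s.col z = some j ∧ s(z, x) ∈ s.E) := by
    apply filter_congr
    intro x hx
    have hx := mem_range.1 hx
    rw [St.step_col_of_ne _ _ _ _ (by omega)]
    apply and_congr_right
    intro _
    constructor
    · rintro ⟨z, hz, hc, he⟩
      by_cases hzm : z = m
      · rw [hzm, St.step_col_self] at hc
        simp at hc
      · rw [St.step_col_of_ne _ _ _ _ hzm] at hc
        rw [St.step_E, edge_step_old hy (by omega) hx] at he
        exact ⟨z, by omega, hc, he⟩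
    · rintro ⟨z, hz, hc, he⟩
      refine ⟨z, by omega, ?_, ?_⟩
      · rwa [St.step_col_of_ne _ _ _ _ (by omega)]
      · rw [St.step_E, edge_step_old hy (by omega) hx]
        exact he
  have h2 : ((s.step m y none).col m = none ∧
      ∃ z < m + 1, (s.step m y none).col z = some j ∧ s(z, m) ∈ (s.step m y none).E) ↔ j = i := by
    rw [St.step_col_self]
    constructor
    · rintro ⟨_, z, hz, hc, he⟩
      by_cases hzm : z = m
      · rw [hzm, St.step_col_self] at hc
        simp at hc
      · rw [St.step_E, edge_step_new hs (by omega)] at he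
        rw [St.step_col_of_ne _ _ _ _ hzm, he, hi] at hc
        exact (Option.some.inj hc).symm
    · rintro rfl
      refine ⟨rfl, y, by omega, ?_, ?_⟩
      · rwa [St.step_col_of_ne _ _ _ _ (by omega)]
      · rw [St.step_E, edge_step_new hs hy]
  rw [h1]
  by_cases hj : j = i
  · rw [if_pos (h2.2 hj), if_pos hj, card_insert_of_notMem (by simp)]
  · rw [if_neg (fun h => hj (h2.1 h)), if_neg hj, add_zero]

open Classical in
theorem leafs_step_some (hs : Valid m s.E) (hy : y < m) (hyh : hubP s y) {i : I} (j : I) :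
    leafs (m + 1) (s.step m y (some i)) j = leafs m s j := by
  unfold leafs
  rw [range_add_one, filter_insert]
  rw [if_neg]
  · congr 1
    apply filter_congr
    intro x hx
    have hx := mem_range.1 hx
    rw [St.step_col_of_ne _ _ _ _ (by omega)]
    apply and_congr_right
    intro hxn
    constructor
    · rintro ⟨z, hz, hc, he⟩
      by_cases hzm : z = m
      · subst hzm
        rw [St.step_E, Sym2.eq_swap (a := z) (b := x), edge_step_new hs hx] at he
        rw [he] at hxn
        exact absurd hxn hyh
      · rw [St.step_col_of_ne _ _ _ _ hzm] at hc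
        rw [St.step_E, edge_step_old hy (by omega) hx] at he
        exact ⟨z, by omega, hc, he⟩
    · rintro ⟨z, hz, hc, he⟩
      refine ⟨z, by omega, ?_, ?_⟩
      · rwa [St.step_col_of_ne _ _ _ _ (by omega)]
      · rw [St.step_E, edge_step_old hy (by omega) hx]
        exact he
  · rintro ⟨h, _⟩
    rw [St.step_col_self] at h
    simp at h

open Classical in
/-- **CAN3** -/
theorem Canon.step (h : Canon Z m s l) (hy : y < m) {i : I} (hi : s.col y = some i) :
    Canon Z (m + 1) (s.step m y none) (fun j => l j + if j = i then 1 else 0) := by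
  refine ⟨h.tree.step hy, h.clean.step h.tree.valid hy (by rw [hi]; simp),
    h.cons.step_none h.tree.valid hy, all_step h.all _, ?_⟩
  intro j
  rw [leafs_step_none h.tree.valid hy hi, h.leaf j]

open Classical in
theorem Canon.step' (h : Canon Z m s l) (hy : y < m) {i : I} (hi : s.col y = some i) :
    Canon Z (m + 1) (s.step m y none) (Function.update l i (l i + 1)) := by
  have := h.step hy hi
  convert this using 1
  funext j
  by_cases hj : j = i
  · subst hj; simp
  · simp [hj]

/-- hubs which are connected in the state are connected in `Z` through present colours -/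
theorem walk_of_conn (hc : Cons Z m s) (hs : Valid m s.E) {x w : ℕ} (hx : x < m)
    (h : Conn s.E (hubP s) x w) {i j : I} (hi : s.col x = some i) (hj : s.col w = some j) :
    ∃ p : Z.Walk i j, ∀ k ∈ p.support, ∃ z < m, s.col z = some k := by
  have key : ∀ w, Conn s.E (hubP s) x w → w < m ∧ ∀ j, s.col w = some j →
      ∃ p : Z.Walk i j, ∀ k ∈ p.support, ∃ z < m, s.col z = some k := by
    intro w h
    unfold Conn at h
    induction h with
    | refl =>
      refine ⟨hx, ?_⟩
      intro j hj
      rw [hi] at hj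
      have := Option.some.inj hj
      subst this
      exact ⟨SimpleGraph.Walk.nil, fun k hk => ⟨x, hx, by
        rw [SimpleGraph.Walk.support_nil, List.mem_singleton] at hk
        rw [hk]; exact hi⟩⟩
    | @tail b c hb hbc ih =>
      obtain ⟨hbm, ih⟩ := ih
      have hcm : c < m := hs.lt _ hbc.1 c (by simp)
      refine ⟨hcm, ?_⟩
      intro j hj
      obtain ⟨k, hk⟩ := hubP_iff.1 hbc.2.1
      obtain ⟨p, hp⟩ := ih k hk
      have hadj : Z.Adj k j := (hc.adj k j b c hbm hcm hk hj).2 hbc.1
      refine ⟨p.concat hadj, ?_⟩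
      intro k' hk'
      rw [SimpleGraph.Walk.support_concat, List.mem_append, List.mem_singleton] at hk'
      rcases hk' with hk' | hk'
      · exact hp k' hk'
      · exact ⟨c, hcm, by rw [hk']; exact hj⟩
  exact (key w h).2 j hj

/-- in a tree, a missing colour is adjacent to at most one present colour -/
theorem adj_unique (hZ : Z.IsTree) (hc : Cons Z m s) (hs : Valid m s.E) {i : I}
    (hi : ∀ x < m, s.col x ≠ some i) {x w : ℕ} (hx : x < m) (hw : w < m) {a b : I}
    (ha : s.col x = some a) (hb : s.col w = some b) (hai : Z.Adj a i) (hbi : Z.Adj b i) :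
    a = b := by
  classical
  by_contra hne
  obtain ⟨p, hp⟩ := walk_of_conn hc hs hx
    (hc.conn x hx w hw (hubP_iff.2 ⟨a, ha⟩) (hubP_iff.2 ⟨b, hb⟩)) ha hb
  have hq : (SimpleGraph.Walk.cons hai (SimpleGraph.Walk.cons hbi.symm SimpleGraph.Walk.nil)).IsPath := by
    rw [SimpleGraph.Walk.cons_isPath_iff, SimpleGraph.Walk.cons_isPath_iff]
    refine ⟨⟨SimpleGraph.Walk.IsPath.nil, ?_⟩, ?_⟩
    · rw [SimpleGraph.Walk.support_nil, List.mem_singleton]
      exact hbi.symm.ne
    · rw [SimpleGraph.Walk.support_cons, SimpleGraph.Walk.support_nil]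
      simp only [List.mem_cons, List.not_mem_nil, or_false, not_or]
      exact ⟨hai.ne, hne⟩
  have hpath : p.bypass = SimpleGraph.Walk.cons hai (SimpleGraph.Walk.cons hbi.symm SimpleGraph.Walk.nil) := by
    have := (hZ.isAcyclic.subsingleton_path a b).elim ⟨p.bypass, p.bypass_isPath⟩ ⟨_, hq⟩
    exact congrArg Subtype.val this
  have hmem : i ∈ p.bypass.support := by
    rw [hpath]; simp
  obtain ⟨z, hz, hzc⟩ := hp i (p.support_bypass_subset_support hmem)
  exact hi z hz hzc

theorem Cons.step_some (hZ : Z.IsTree) (h : Cons Z m s) (hs : Valid m s.E) (hy : y < m) {i i' : I}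
    (hi : ∀ x < m, s.col x ≠ some i) (hi' : s.col y = some i') (hadj : Z.Adj i' i) :
    Cons Z (m + 1) (s.step m y (some i)) := by
  refine ⟨?_, ?_, ?_⟩
  · intro j a b ha hb h1 h2
    by_cases ham : a = m
    · by_cases hbm : b = m
      · rw [ham, hbm]
      · rw [ham, St.step_col_self] at h1
        rw [St.step_col_of_ne _ _ _ _ hbm] at h2
        exact absurd (h2.trans h1.symm) (hi b (by omega))
    · rw [St.step_col_of_ne _ _ _ _ ham] at h1
      by_cases hbm : b = m
      · rw [hbm, St.step_col_self] at h2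
        exact absurd (h1.trans h2.symm) (hi a (by omega))
      · rw [St.step_col_of_ne _ _ _ _ hbm] at h2
        exact h.uniq j a b (by omega) (by omega) h1 h2
  · have new : ∀ j a, a < m → s.col a = some j → (Z.Adj j i ↔ a = y) := by
      intro j a ha hj
      constructor
      · intro hji
        have := adj_unique hZ h hs hi ha hy hj hi' hji hadj
        subst this
        exact h.uniq j a y ha hy hj hi'
      · rintro rfl
        rw [hi'] at hj
        rw [← Option.some.inj hj]
        exact hadj
    intro j k a b ha hb h1 h2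
    rw [St.step_E]
    by_cases ham : a = m
    · by_cases hbm : b = m
      · rw [ham, St.step_col_self] at h1
        rw [hbm, St.step_col_self] at h2
        rw [← Option.some.inj h1, ← Option.some.inj h2, ham, hbm]
        constructor
        · intro hh; exact absurd hh (Z.loopless.irrefl i)
        · intro hh
          rw [mem_insert, Sym2.eq_iff] at hh
          rcases hh with hh | hh
          · omega
          · exact absurd hh (hs.irrefl m)
      · rw [ham, St.step_col_self] at h1
        rw [St.step_col_of_ne _ _ _ _ hbm] at h2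
        rw [← Option.some.inj h1, ham, Sym2.eq_swap (a := m) (b := b), edge_step_new hs (by omega),
          Z.adj_comm]
        exact new k b (by omega) h2
    · rw [St.step_col_of_ne _ _ _ _ ham] at h1
      by_cases hbm : b = m
      · rw [hbm, St.step_col_self] at h2
        rw [← Option.some.inj h2, hbm, edge_step_new hs (by omega)]
        exact new j a (by omega) h1
      · rw [St.step_col_of_ne _ _ _ _ hbm] at h2
        rw [edge_step_old hy (by omega) (by omega)]
        exact h.adj j k a b (by omega) (by omega) h1 h2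
  · have hhub : ∀ z < m, (hubP (s.step m y (some i)) z ↔ hubP s z) := by
      intro z hz
      unfold hubP
      rw [St.step_col_of_ne _ _ _ _ (by omega)]
    have hm : hubP (s.step m y (some i)) m := by
      unfold hubP; rw [St.step_col_self]; simp
    have hyh : hubP s y := hubP_iff.2 ⟨i', hi'⟩
    have old : ∀ a < m, ∀ b < m, hubP s a → hubP s b →
        Conn (s.step m y (some i)).E (hubP (s.step m y (some i))) a b := by
      intro a ha b hb h1 h2
      exact (conn_insert_old hs.lt hhub hy ha hb).2 (h.conn a ha b hb h1 h2)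
    have new : ∀ a < m, hubP s a → Conn (s.step m y (some i)).E (hubP (s.step m y (some i))) a m := by
      intro a ha h1
      exact (conn_insert_new hs.lt hhub hy ha).2 ⟨hm, hyh, h.conn a ha y hy h1 hyh⟩
    intro a ha b hb h1 h2
    by_cases ham : a = m
    · by_cases hbm : b = m
      · rw [ham, hbm]; exact Conn.refl _
      · rw [ham]; exact (new b (by omega) ((hhub b (by omega)).1 h2)).symm
    · by_cases hbm : b = m
      · rw [hbm]; exact new a (by omega) ((hhub a (by omega)).1 h1)
      · exact old a (by omega) b (by omega) ((hhub a (by omega)).1 h1) ((hhub b (by omega)).1 h2)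

/-- if not all colours are present then some missing colour is adjacent to a present one -/
theorem exists_missing (hZ : Z.Connected) (hub : HasHub m s) {j : I}
    (hj : ∀ x < m, s.col x ≠ some j) :
    ∃ i y i', (∀ x < m, s.col x ≠ some i) ∧ y < m ∧ s.col y = some i' ∧ Z.Adj i' i := by
  classical
  obtain ⟨z, hz, hzc⟩ := hub
  obtain ⟨a, ha⟩ := Option.ne_none_iff_exists'.1 hzc
  obtain ⟨p⟩ := hZ.preconnected a j
  obtain ⟨d, hd, h1, h2⟩ := p.exists_boundary_dart {k | ∃ x < m, s.col x = some k}
    ⟨z, hz, ha⟩ (by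
      rintro ⟨x, hx, hc⟩
      exact hj x hx hc)
  obtain ⟨y, hy, hyc⟩ := h1
  refine ⟨d.snd, y, d.fst, ?_, hy, hyc, d.adj⟩
  intro x hx hc
  exact h2 ⟨x, hx, hc⟩

end step

/-! ### removal -/

section removal
variable {Z : SimpleGraph I} {m : ℕ} {s : St (Option I)} {l : I → ℕ}

theorem Clean.perm {s : St (Option I)} (h : Clean m s) {σ : Equiv.Perm ℕ} (hσ : FixGE m σ) :
    Clean m (s.perm σ) := by
  refine ⟨(hasHub_perm hσ).2 h.1, ?_⟩
  intro x hx y hy he
  rw [St.perm_E, mem_permE'] at he
  exact h.2 _ ((hσ.symm.lt_iff x).2 hx) _ ((hσ.symm.lt_iff y).2 hy) he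

theorem Cons.perm {s : St (Option I)} (h : Cons Z m s) {σ : Equiv.Perm ℕ} (hσ : FixGE m σ) :
    Cons Z m (s.perm σ) := by
  refine ⟨?_, ?_, ?_⟩
  · intro i x y hx hy h1 h2
    have := h.uniq i _ _ ((hσ.symm.lt_iff x).2 hx) ((hσ.symm.lt_iff y).2 hy) h1 h2
    exact σ.symm.injective this
  · intro i j x y hx hy h1 h2
    rw [St.perm_E, mem_permE']
    exact h.adj i j _ _ ((hσ.symm.lt_iff x).2 hx) ((hσ.symm.lt_iff y).2 hy) h1 h2
  · intro x hx y hy h1 h2
    have h3 := h.conn _ ((hσ.symm.lt_iff x).2 hx) _ ((hσ.symm.lt_iff y).2 hy) h1 h2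
    have h4 := (conn_perm (E := s.E) (nh := hubP s) σ).2 h3
    have e : hubP (s.perm σ) = fun z => hubP s (σ.symm z) := rfl
    rw [e]
    simpa using h4

theorem leafs_perm {s : St (Option I)} {σ : Equiv.Perm ℕ} (hσ : FixGE m σ) (i : I) :
    leafs m (s.perm σ) i = leafs m s i := by
  classical
  unfold leafs
  symm
  apply card_bij (fun x _ => σ x)
  · intro x hx
    rw [mem_filter, mem_range] at hx ⊢
    obtain ⟨hx, h1, y, hy, h2, h3⟩ := hx
    refine ⟨(hσ.lt_iff x).2 hx, by simpa using h1, σ y, (hσ.lt_iff y).2 hy, by simpa using h2, ?_⟩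
    rw [St.perm_E, mem_permE]
    exact h3
  · intro a _ b _ hab
    exact σ.injective hab
  · intro x hx
    rw [mem_filter, mem_range] at hx
    obtain ⟨hx, h1, y, hy, h2, h3⟩ := hx
    refine ⟨σ.symm x, ?_, by simp⟩
    rw [mem_filter, mem_range]
    refine ⟨(hσ.symm.lt_iff x).2 hx, h1, σ.symm y, (hσ.symm.lt_iff y).2 hy, h2, ?_⟩
    rwa [St.perm_E, mem_permE'] at h3

theorem Canon.perm {s : St (Option I)} (h : Canon Z m s l) {σ : Equiv.Perm ℕ} (hσ : FixGE m σ) :
    Canon Z m (s.perm σ) l := by
  refine ⟨h.tree.perm hσ, h.clean.perm hσ, h.cons.perm hσ, ?_, ?_⟩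
  · intro i
    obtain ⟨x, hx, hc⟩ := h.all i
    exact ⟨σ x, (hσ.lt_iff x).2 hx, by simpa using hc⟩
  · intro i
    rw [leafs_perm hσ]
    exact h.leaf i

open Classical in
/-- undoing a leaf step -/
theorem Canon.of_step {y : ℕ} (hs : TreeOn m s.E) (hy : y < m) {i : I} (hi : s.col y = some i)
    (h : Canon Z (m + 1) (s.step m y none) l) :
    Canon Z m s (fun j => l j - if j = i then 1 else 0) := by
  refine ⟨hs, ?_, ?_, ?_, ?_⟩
  · refine ⟨⟨y, hy, by rw [hi]; simp⟩, ?_⟩
    intro a ha b hb he
    have := h.clean.2 a (by omega) b (by omega) (by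
      rw [St.step_E]; exact mem_insert_of_mem he)
    rwa [St.step_col_of_ne _ _ _ _ (by omega), St.step_col_of_ne _ _ _ _ (by omega)] at this
  · have hcol : ∀ a < m, (s.step m y none).col a = s.col a := fun a ha =>
      St.step_col_of_ne _ _ _ _ (by omega)
    refine ⟨?_, ?_, ?_⟩
    · intro j a b ha hb h1 h2
      rw [← hcol a ha] at h1
      rw [← hcol b hb] at h2
      exact h.cons.uniq j a b (by omega) (by omega) h1 h2
    · intro j k a b ha hb h1 h2
      rw [← hcol a ha] at h1
      rw [← hcol b hb] at h2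
      rw [h.cons.adj j k a b (by omega) (by omega) h1 h2, St.step_E, edge_step_old hy ha hb]
    · intro a ha b hb h1 h2
      have hhub : ∀ z < m, (hubP (s.step m y none) z ↔ hubP s z) := by
        intro z hz
        unfold hubP
        rw [hcol z hz]
      have h3 := h.cons.conn a (by omega) b (by omega) ((hhub a ha).2 h1) ((hhub b hb).2 h2)
      exact (conn_insert_old hs.valid.lt hhub hy ha hb).1 h3
  · intro j
    obtain ⟨x, hx, hc⟩ := h.all j
    have hxm : x ≠ m := by
      rintro rfl
      rw [St.step_col_self] at hc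
      simp at hc
    exact ⟨x, by omega, by rwa [St.step_col_of_ne _ _ _ _ hxm] at hc⟩
  · intro j
    have := h.leaf j
    rw [leafs_step_none hs.valid hy hi] at this
    omega

open Classical in
/-- **CAN4** -/
theorem Canon.remove (h : Canon Z (m + 1) s l) (hm : 2 ≤ m) {i : I} (hl : 1 ≤ l i) :
    ∃ (s' : St (Option I)) (y : ℕ) (σ : Equiv.Perm ℕ), y < m ∧ s'.col y = some i ∧ FixGE (m + 1) σ ∧
      s.perm σ = s'.step m y none ∧ Canon Z m s' (fun j => l j - if j = i then 1 else 0) := by
  -- a leaf at the hub `i`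
  have hpos : 0 < leafs (m + 1) s i := by rw [h.leaf i]; omega
  unfold leafs at hpos
  obtain ⟨x, hx⟩ := card_pos.1 hpos
  rw [mem_filter, mem_range] at hx
  obtain ⟨hx, hxn, y0, hy0, hy0c, he0⟩ := hx
  set σ := Equiv.swap x m with hσ
  have hfix : FixGE (m + 1) σ := by
    intro z hz
    exact Equiv.swap_apply_of_ne_of_ne (by omega) (by omega)
  have hC := h.perm hfix
  have hσm : σ.symm m = x := by simp [hσ]
  have hcolm : (s.perm σ).col m = none := by
    rw [St.perm_col, hσm]; exact hxn
  obtain ⟨hd, _⟩ := nonhub_deg hC.tree hC.clean hC.cons.conn (by omega : m < m + 1) hcolm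
  obtain ⟨v, hv, E', hE', hins, hnot⟩ := hC.tree.remove_last hm hd
  -- the neighbour of `m` is the hub `i`
  have hy0m : σ y0 < m + 1 := (hfix.lt_iff y0).2 hy0
  have hσx : σ x = m := by simp [hσ]
  have he1 : s(σ y0, m) ∈ (s.perm σ).E := by
    rw [St.perm_E, ← hσx, mem_permE]; exact he0
  have hcy : (s.perm σ).col (σ y0) = some i := by simpa using hy0c
  have hne : σ y0 ≠ m := by
    intro hh; rw [hh, hcolm] at hcy; simp at hcy
  have hvy : σ y0 = v := by
    rw [hins, mem_insert, Sym2.eq_iff] at he1
    rcases he1 with hh | hh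
    · omega
    · exact absurd (hE'.valid.lt _ hh m (by simp)) (lt_irrefl _)
  have hstep : s.perm σ = St.step ⟨E', (s.perm σ).col⟩ m v none := by
    apply St.ext
    · rw [St.step_E]; exact hins
    · rw [St.step_col]
      funext z
      by_cases hz : z = m
      · rw [hz, Function.update_self]; exact hcolm
      · rw [Function.update_of_ne hz]
  refine ⟨⟨E', (s.perm σ).col⟩, v, σ, hv, ?_, hfix, hstep, ?_⟩
  · rw [← hvy]; exact hcy
  · rw [hstep] at hC
    exact hC.of_step hE' hv (by rw [← hvy]; exact hcy)

open Classical in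
/-- **CAN4**, values -/
theorem Canon.remove_Rv [Fintype I] {α : ℝ} {P : Par I} (hP : P.n1 ≤ P.n)
    (h : Canon Z (m + 1) s l) (hm : 2 ≤ m) (hm1 : m + 1 ≤ P.n1) {i : I} (hl : 1 ≤ l i) :
    ∃ (s' : St (Option I)) (y : ℕ), y < m ∧ s'.col y = some i ∧
      Canon Z m s' (fun j => l j - if j = i then 1 else 0) ∧
      Rv α P Z (m + 1) s = Rv α P Z (m + 1) (s'.step m y none) := by
  obtain ⟨s', y, σ, hy, hc, hσ, hst, hC⟩ := h.remove hm hl
  exact ⟨s', y, hy, hc, hC, by rw [← hst, Rv_TInv hP hm1 σ hσ s]⟩

end removal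

end SeedPA
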