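import Pool.Agent.SeedPA.Perm

/-!
# Components of the non-hub vertices
-/

open Finset Relation

namespace SeedPA

/-- adjacency of non-hubs -/
def adjN (E : ESet) (nh : ℕ → Prop) (x y : ℕ) : Prop := s(x, y) ∈ E ∧ nh x ∧ nh y

/-- connectedness through non-hubs -/
def Conn (E : ESet) (nh : ℕ → Prop) : ℕ → ℕ → Prop := ReflTransGen (adjN E nh)

theorem adjN_symm {E : ESet} {nh : ℕ → Prop} {x y : ℕ} (h : adjN E nh x y) : adjN E nh y x :=
  ⟨by rw [Sym2.eq_swap]; exact h.1, h.2.2, h.2.1⟩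

theorem Conn.symm {E : ESet} {nh : ℕ → Prop} {x y : ℕ} (h : Conn E nh x y) : Conn E nh y x := by
  unfold Conn at h ⊢
  induction h with
  | refl => exact ReflTransGen.refl
  | tail _ hbc ih => exact ReflTransGen.head (adjN_symm hbc) ih

theorem Conn.trans {E : ESet} {nh : ℕ → Prop} {x y z : ℕ} (h : Conn E nh x y)
    (h' : Conn E nh y z) : Conn E nh x z := ReflTransGen.trans h h'

theorem Conn.refl {E : ESet} {nh : ℕ → Prop} (x : ℕ) : Conn E nh x x := ReflTransGen.refl

theorem Conn.nh {E : ESet} {nh : ℕ → Prop} {x y : ℕ} (h : Conn E nh x y) (hx : nh x) : nh y := by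
  unfold Conn at h
  induction h with
  | refl => exact hx
  | tail _ hbc _ => exact hbc.2.2

theorem Conn.lt {E : ESet} {nh : ℕ → Prop} {m : ℕ} (hE : ∀ e ∈ E, ∀ x ∈ e, x < m) {x y : ℕ}
    (h : Conn E nh x y) (hx : x < m) : y < m := by
  unfold Conn at h
  induction h with
  | refl => exact hx
  | tail _ hbc _ => exact hE _ hbc.1 _ (by simp)

section insert

variable {E : ESet} {nh nh' : ℕ → Prop} {m v : ℕ}

theorem Conn.mono (hE : ∀ e ∈ E, ∀ x ∈ e, x < m) (hnh : ∀ z < m, nh' z ↔ nh z) {x y : ℕ}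
    (h : Conn E nh x y) : Conn (insert s(v, m) E) nh' x y := by
  unfold Conn at h ⊢
  induction h with
  | refl => exact ReflTransGen.refl
  | @tail b c _ hbc ih =>
    refine ih.tail ⟨mem_insert_of_mem hbc.1, ?_, ?_⟩
    · exact (hnh b (hE _ hbc.1 b (by simp))).2 hbc.2.1
    · exact (hnh c (hE _ hbc.1 c (by simp))).2 hbc.2.2

theorem conn_insert_aux (hE : ∀ e ∈ E, ∀ x ∈ e, x < m) (hnh : ∀ z < m, nh' z ↔ nh z) (hv : v < m)
    {x y : ℕ} (hx : x < m) (h : Conn (insert s(v, m) E) nh' x y) :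
    (y < m ∧ Conn E nh x y) ∨ (y = m ∧ nh' m ∧ nh v ∧ Conn E nh x v) := by
  unfold Conn at h
  induction h with
  | refl => exact Or.inl ⟨hx, ReflTransGen.refl⟩
  | @tail b c _ hbc ih =>
    obtain ⟨he, hb, hc⟩ := hbc
    rcases mem_insert.1 he with he | he
    · rw [Sym2.eq_iff] at he
      rcases he with ⟨rfl, rfl⟩ | ⟨rfl, rfl⟩
      · rcases ih with ⟨_, ih⟩ | ⟨hbm, _⟩
        · exact Or.inr ⟨rfl, hc, (hnh b hv).1 hb, ih⟩
        · omega
      · rcases ih with ⟨hlt, _⟩ | ⟨_, _, _, ih⟩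
        · omega
        · exact Or.inl ⟨hv, ih⟩
    · have hb' : b < m := hE _ he b (by simp)
      have hc' : c < m := hE _ he c (by simp)
      rcases ih with ⟨_, ih⟩ | ⟨hbm, _⟩
      · exact Or.inl ⟨hc', ReflTransGen.tail ih ⟨he, (hnh b hb').1 hb, (hnh c hc').1 hc⟩⟩
      · omega

theorem conn_insert_old (hE : ∀ e ∈ E, ∀ x ∈ e, x < m) (hnh : ∀ z < m, nh' z ↔ nh z) (hv : v < m)
    {x y : ℕ} (hx : x < m) (hy : y < m) :
    Conn (insert s(v, m) E) nh' x y ↔ Conn E nh x y := by
  constructor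
  · intro h
    rcases conn_insert_aux hE hnh hv hx h with h | h
    · exact h.2
    · omega
  · exact Conn.mono hE hnh

theorem conn_insert_new (hE : ∀ e ∈ E, ∀ x ∈ e, x < m) (hnh : ∀ z < m, nh' z ↔ nh z) (hv : v < m)
    {x : ℕ} (hx : x < m) :
    Conn (insert s(v, m) E) nh' x m ↔ nh' m ∧ nh v ∧ Conn E nh x v := by
  constructor
  · intro h
    rcases conn_insert_aux hE hnh hv hx h with h | h
    · omega
    · exact h.2
  · rintro ⟨h1, h2, h3⟩
    refine ReflTransGen.tail (Conn.mono hE hnh h3) ⟨mem_insert_self _ _, (hnh v hv).2 h2, h1⟩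

end insert

open Classical in
/-- size of the component of `x`, counting vertices `< m` -/
noncomputable def csz (m : ℕ) (E : ESet) (nh : ℕ → Prop) (x : ℕ) : ℕ :=
  ((range m).filter (fun y => nh y ∧ Conn E nh x y)).card

section csz

variable {E : ESet} {nh nh' : ℕ → Prop} {m v : ℕ}

/-- the component size (counting vertices `< k`) of an old vertex is unchanged by a step -/
theorem csz_insert_old (hE : ∀ e ∈ E, ∀ x ∈ e, x < m) (hnh : ∀ z < m, nh' z ↔ nh z) (hv : v < m)
    {x k : ℕ} (hx : x < m) (hk : k ≤ m) :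
    csz k (insert s(v, m) E) nh' x = csz k E nh x := by
  classical
  unfold csz
  congr 1
  ext y
  simp only [mem_filter, mem_range]
  constructor
  · rintro ⟨hy, h1, h2⟩
    exact ⟨hy, (hnh y (by omega)).1 h1, (conn_insert_old hE hnh hv hx (by omega)).1 h2⟩
  · rintro ⟨hy, h1, h2⟩
    exact ⟨hy, (hnh y (by omega)).2 h1, (conn_insert_old hE hnh hv hx (by omega)).2 h2⟩

open Classical in
theorem csz_insert_step (hE : ∀ e ∈ E, ∀ x ∈ e, x < m) (hnh : ∀ z < m, nh' z ↔ nh z) (hv : v < m)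
    {x : ℕ} (hx : x < m) :
    csz (m + 1) (insert s(v, m) E) nh' x =
      csz m E nh x + if nh' m ∧ nh v ∧ Conn E nh x v then 1 else 0 := by
  have h1 : csz (m + 1) (insert s(v, m) E) nh' x =
      csz m (insert s(v, m) E) nh' x + if nh' m ∧ Conn (insert s(v, m) E) nh' x m then 1 else 0 := by
    unfold csz
    rw [range_add_one, filter_insert]
    split_ifs with h
    · rw [card_insert_of_notMem (by simp)]
    · simp
  rw [h1, csz_insert_old hE hnh hv hx le_rfl]
  congr 1
  by_cases h : nh' m ∧ nh v ∧ Conn E nh x v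
  · rw [if_pos h, if_pos ⟨h.1, (conn_insert_new hE hnh hv hx).2 h⟩]
  · rw [if_neg h, if_neg]
    rintro ⟨_, h3⟩
    exact h ((conn_insert_new hE hnh hv hx).1 h3)

/-- the component of a new vertex attached to a hub -/
theorem csz_new_hub (hE : ∀ e ∈ E, ∀ x ∈ e, x < m) (hnh : ∀ z < m, nh' z ↔ nh z) (hv : v < m)
    (hvh : ¬ nh v) (hm : nh' m) : csz (m + 1) (insert s(v, m) E) nh' m = 1 := by
  classical
  unfold csz
  rw [card_eq_one]
  refine ⟨m, ?_⟩
  ext y
  simp only [mem_filter, mem_range, mem_singleton]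
  constructor
  · rintro ⟨hy, h1, h2⟩
    by_contra hne
    have h3 := (conn_insert_new hE hnh hv (show y < m by omega)).1 h2.symm
    exact hvh h3.2.1
  · rintro rfl
    exact ⟨by omega, hm, Conn.refl _⟩

end csz

/-! ### relabelling -/

theorem conn_perm {E : ESet} {nh : ℕ → Prop} (σ : Equiv.Perm ℕ) {x y : ℕ} :
    Conn (permE σ E) (fun z => nh (σ.symm z)) (σ x) (σ y) ↔ Conn E nh x y := by
  have key : ∀ (σ : Equiv.Perm ℕ) (E : ESet) (nh : ℕ → Prop) (x y : ℕ), Conn E nh x y →
      Conn (permE σ E) (fun z => nh (σ.symm z)) (σ x) (σ y) := by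
    intro σ E nh x y h
    unfold Conn at h ⊢
    induction h with
    | refl => exact ReflTransGen.refl
    | tail _ hbc ih =>
      exact ih.tail ⟨mem_permE.2 hbc.1, by simpa using hbc.2.1, by simpa using hbc.2.2⟩
  constructor
  · intro h
    have := key σ.symm _ _ _ _ h
    have e1 : permE σ.symm (permE σ E) = E := by
      ext e
      induction e using Sym2.ind with
      | _ a b => rw [mem_permE', mem_permE']; simp
    simpa [e1] using this
  · exact key σ E nh x y

theorem csz_perm {E : ESet} {nh : ℕ → Prop} {σ : Equiv.Perm ℕ} {m : ℕ} (hσ : FixGE m σ) (x : ℕ) :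
    csz m (permE σ E) (fun z => nh (σ.symm z)) (σ x) = csz m E nh x := by
  classical
  unfold csz
  symm
  apply card_bij (fun y _ => σ y)
  · intro y hy
    simp only [mem_filter, mem_range] at hy ⊢
    exact ⟨(hσ.lt_iff y).2 hy.1, by simpa using hy.2.1, (conn_perm σ).2 hy.2.2⟩
  · intro a _ b _ h
    exact σ.injective h
  · intro y hy
    simp only [mem_filter, mem_range] at hy
    refine ⟨σ.symm y, ?_, by simp⟩
    simp only [mem_filter, mem_range]
    refine ⟨(hσ.symm.lt_iff y).2 hy.1, hy.2.1, ?_⟩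
    apply (conn_perm σ).1
    simpa using hy.2.2

end SeedPA
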