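import Pool.Agent.SeedPA.Core

/-!
# The eigenfunction (MP_0bba14_pr)

For `0 < α < 1` there are `λ ∈ [1,2]` and `h` with
`λ h(d) = d^α (h(1) + h(d+1) - h(d))`, `h(1) = 1`, `1/3 ≤ h(d) ≤ K d^α`.
-/

open Finset

namespace SeedPA

namespace Eigen

/-- the ratio `d^α / (lam + d^α)` -/
noncomputable def r (α lam : ℝ) (d : ℕ) : ℝ := (d : ℝ) ^ α / (lam + (d : ℝ) ^ α)

/-- `j`-th term of the series for `h` -/
noncomputable def a (α lam : ℝ) (d j : ℕ) : ℝ := ∏ i ∈ range (j + 1), r α lam (d + i)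

/-- the function `h` -/
noncomputable def hh (α lam : ℝ) (d : ℕ) : ℝ := ∑' j, a α lam d j

variable {α lam : ℝ}

theorem w_ge_one (h0 : 0 < α) {d : ℕ} (hd : 1 ≤ d) : 1 ≤ (d : ℝ) ^ α :=
  Real.one_le_rpow (by exact_mod_cast hd) h0.le

theorem r_pos (h0 : 0 < α) (hl : 1 ≤ lam) {d : ℕ} (hd : 1 ≤ d) : 0 < r α lam d := by
  have := w_ge_one h0 hd
  unfold r
  positivity

theorem r_nonneg (h0 : 0 < α) (hl : 1 ≤ lam) {d : ℕ} (hd : 1 ≤ d) : 0 ≤ r α lam d :=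
  (r_pos h0 hl hd).le

theorem a_nonneg (h0 : 0 < α) (hl : 1 ≤ lam) {d : ℕ} (hd : 1 ≤ d) (j : ℕ) :
    0 ≤ a α lam d j :=
  prod_nonneg fun i _ => r_nonneg h0 hl (by omega)

theorem a_zero (d : ℕ) : a α lam d 0 = r α lam d := by simp [a]

theorem a_succ (d j : ℕ) : a α lam d (j + 1) = r α lam d * a α lam (d + 1) j := by
  unfold a
  rw [prod_range_succ', mul_comm]
  simp only [add_zero]
  congr 1
  apply prod_congr rfl
  intro i _
  congr 1
  omega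

theorem S_succ (d J : ℕ) : (∑ j ∈ range (J + 1), a α lam d j) =
    r α lam d * (1 + ∑ j ∈ range J, a α lam (d + 1) j) := by
  rw [sum_range_succ', a_zero]
  simp_rw [a_succ]
  rw [← mul_sum]
  ring

theorem gap_pos (h1 : α < 1) (hl : 1 ≤ lam) : 0 < lam - ((2:ℝ) ^ α - 1) := by
  have : (2:ℝ) ^ α < 2 := by
    calc (2:ℝ) ^ α < (2:ℝ) ^ (1:ℝ) := Real.rpow_lt_rpow_of_exponent_lt (by norm_num) h1
      _ = 2 := by simp
  linarith

theorem S_le (h0 : 0 < α) (h1 : α < 1) (hl : 1 ≤ lam) (J : ℕ) : ∀ {d : ℕ}, 1 ≤ d →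
    (∑ j ∈ range J, a α lam d j) ≤ (lam - ((2:ℝ) ^ α - 1))⁻¹ * (d : ℝ) ^ α := by
  have hg := gap_pos (α := α) h1 hl
  induction J with
  | zero =>
    intro d hd
    have := w_ge_one h0 hd
    simp only [range_zero, sum_empty]
    positivity
  | succ J ih =>
    intro d hd
    rw [S_succ]
    have hw := w_ge_one h0 hd
    have h2 := ih (d := d + 1) (by omega)
    have h3 := rpow_diff_le h0 h1 (d := (d : ℝ)) (by exact_mod_cast hd)
    push_cast at h2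
    set K := (lam - ((2:ℝ) ^ α - 1))⁻¹ with hK
    have hKpos : 0 < K := by positivity
    have hK1 : K * (lam - ((2:ℝ) ^ α - 1)) = 1 := by
      rw [hK]; exact inv_mul_cancel₀ hg.ne'
    have h4 : 1 + K * ((d : ℝ) + 1) ^ α ≤ K * (lam + (d : ℝ) ^ α) := by
      nlinarith
    calc r α lam d * (1 + ∑ j ∈ range J, a α lam (d + 1) j)
        ≤ r α lam d * (K * (lam + (d : ℝ) ^ α)) :=
          mul_le_mul_of_nonneg_left (by linarith) (r_nonneg h0 hl hd)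
      _ = K * (d : ℝ) ^ α := by
          unfold r
          have : lam + (d : ℝ) ^ α ≠ 0 := by positivity
          field_simp

theorem summ (h0 : 0 < α) (h1 : α < 1) (hl : 1 ≤ lam) {d : ℕ} (hd : 1 ≤ d) :
    Summable (a α lam d) :=
  summable_of_sum_range_le (fun j => a_nonneg h0 hl hd j) (fun J => S_le h0 h1 hl J hd)

theorem hh_le (h0 : 0 < α) (h1 : α < 1) (hl : 1 ≤ lam) {d : ℕ} (hd : 1 ≤ d) :
    hh α lam d ≤ (lam - ((2:ℝ) ^ α - 1))⁻¹ * (d : ℝ) ^ α :=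
  Real.tsum_le_of_sum_range_le (fun j => a_nonneg h0 hl hd j) (fun J => S_le h0 h1 hl J hd)

theorem hh_nonneg (h0 : 0 < α) (hl : 1 ≤ lam) {d : ℕ} (hd : 1 ≤ d) :
    0 ≤ hh α lam d := tsum_nonneg (fun j => a_nonneg h0 hl hd j)

theorem hh_rec (h0 : 0 < α) (h1 : α < 1) (hl : 1 ≤ lam) {d : ℕ} (hd : 1 ≤ d) :
    hh α lam d = r α lam d * (1 + hh α lam (d + 1)) := by
  unfold hh
  rw [(summ h0 h1 hl hd).tsum_eq_zero_add, a_zero]
  simp_rw [a_succ]
  rw [tsum_mul_left]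
  ring

theorem hh_ge (h0 : 0 < α) (h1 : α < 1) (hl : 1 ≤ lam) (hl2 : lam ≤ 2) {d : ℕ} (hd : 1 ≤ d) :
    1 / 3 ≤ hh α lam d := by
  rw [hh_rec h0 h1 hl hd]
  have h2 := hh_nonneg (α := α) h0 hl (d := d + 1) (by omega)
  have hw := w_ge_one h0 hd
  have h3 : 1 / 3 ≤ r α lam d := by
    unfold r
    rw [div_le_div_iff₀ (by norm_num) (by positivity)]
    linarith
  nlinarith [r_nonneg (α := α) h0 hl hd]

theorem S_ge (h0 : 0 < α) (J : ℕ) : ∀ {d : ℕ}, 1 ≤ d →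
    1 - (1 / 2 : ℝ) ^ J ≤ (∑ j ∈ range J, a α 1 d j) := by
  induction J with
  | zero => intro d hd; simp
  | succ J ih =>
    intro d hd
    rw [S_succ]
    have hw := w_ge_one h0 hd
    have h2 := ih (d := d + 1) (by omega)
    have h3 : 1 / 2 ≤ r α 1 d := by
      unfold r
      rw [div_le_div_iff₀ (by norm_num) (by positivity)]
      linarith
    have h4 : (0:ℝ) ≤ ∑ j ∈ range J, a α 1 (d + 1) j :=
      sum_nonneg fun j _ => a_nonneg h0 le_rfl (by omega) j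
    rw [pow_succ]
    nlinarith

theorem hh_one_ge (h0 : 0 < α) (h1 : α < 1) : 1 ≤ hh α 1 1 := by
  have h2 : ∀ J : ℕ, 1 - (1 / 2 : ℝ) ^ J ≤ hh α 1 1 := by
    intro J
    exact (S_ge h0 J le_rfl).trans
      ((summ h0 h1 le_rfl le_rfl).sum_le_tsum _ (fun j _ => a_nonneg h0 le_rfl le_rfl j))
  have h3 : Filter.Tendsto (fun J : ℕ => 1 - (1 / 2 : ℝ) ^ J) Filter.atTop (nhds (1 - 0)) :=
    tendsto_const_nhds.sub (tendsto_pow_atTop_nhds_zero_of_lt_one (by norm_num) (by norm_num))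
  rw [sub_zero] at h3
  exact le_of_tendsto' h3 h2

theorem hh_two_le (h0 : 0 < α) (h1 : α < 1) : hh α 2 1 ≤ 1 := by
  have h2 := hh_le (lam := 2) h0 h1 (by norm_num) (d := 1) le_rfl
  have h3 : (2:ℝ) ^ α < 2 := by
    calc (2:ℝ) ^ α < (2:ℝ) ^ (1:ℝ) := Real.rpow_lt_rpow_of_exponent_lt (by norm_num) h1
      _ = 2 := by simp
  refine h2.trans ?_
  simp only [Nat.cast_one, Real.one_rpow, mul_one]
  apply inv_le_one_of_one_le₀
  linarith

theorem cont (h0 : 0 < α) (h1 : α < 1) :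
    ContinuousOn (fun lam => hh α lam 1) (Set.Icc 1 2) := by
  unfold hh
  refine continuousOn_tsum (u := a α 1 1) ?_ (summ h0 h1 le_rfl le_rfl) ?_
  · intro j
    unfold a
    refine continuousOn_finsetProd _ ?_
    intro i _
    unfold r
    refine ContinuousOn.div continuousOn_const (by fun_prop) ?_
    intro x hx
    have := w_ge_one h0 (d := 1 + i) (by omega)
    have hx1 := hx.1
    positivity
  · intro j x hx
    rw [Real.norm_of_nonneg (a_nonneg h0 hx.1 le_rfl j)]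
    unfold a
    apply prod_le_prod
    · intro i _
      exact r_nonneg h0 hx.1 (by omega)
    · intro i _
      unfold r
      have := w_ge_one h0 (d := 1 + i) (by omega)
      have hx1 := hx.1
      apply div_le_div_of_nonneg_left (by positivity) (by positivity)
      linarith

end Eigen

theorem exists_eigen {α : ℝ} (h0 : 0 < α) (h1 : α < 1) :
    ∃ (lam K : ℝ) (h : ℕ → ℝ), 1 ≤ lam ∧ lam ≤ 2 ∧ 0 < K ∧ h 1 = 1 ∧
      (∀ d : ℕ, 1 ≤ d → 1 / 3 ≤ h d ∧ h d ≤ K * (d : ℝ) ^ α) ∧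
      (∀ d : ℕ, 1 ≤ d → lam * h d = (d : ℝ) ^ α * (h 1 + h (d + 1) - h d)) := by
  have hI := intermediate_value_Icc' (show (1:ℝ) ≤ 2 by norm_num) (Eigen.cont h0 h1)
  obtain ⟨lam, hlam, hval⟩ := hI (⟨Eigen.hh_two_le h0 h1, Eigen.hh_one_ge h0 h1⟩ :
    (1:ℝ) ∈ Set.Icc (Eigen.hh α 2 1) (Eigen.hh α 1 1))
  simp only at hval
  refine ⟨lam, (lam - ((2:ℝ) ^ α - 1))⁻¹, Eigen.hh α lam, hlam.1, hlam.2,
    inv_pos.2 (Eigen.gap_pos h1 hlam.1), hval, ?_, ?_⟩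
  · intro d hd
    exact ⟨Eigen.hh_ge h0 h1 hlam.1 hlam.2 hd, Eigen.hh_le h0 h1 hlam.1 hd⟩
  · intro d hd
    have h2 := Eigen.hh_rec h0 h1 hlam.1 hd
    have hw := Eigen.w_ge_one h0 hd
    have hl := hlam.1
    rw [hval]
    have h3 : (lam + (d : ℝ) ^ α) * Eigen.hh α lam d = (d : ℝ) ^ α * (1 + Eigen.hh α lam (d + 1)) := by
      rw [h2]
      unfold Eigen.r
      have : lam + (d : ℝ) ^ α ≠ 0 := by positivity
      field_simp
    linarith

end SeedPA
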