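import Pool.Agent.SeedPA.Forward
import Pool.Agent.SeedPA.Eigen

/-!
# Concentration of branch sizes (MP_0bba14_pr)

`conc`: exponential lower/upper tail bounds for the size of an inherited set `B`.
-/

open Finset

namespace SeedPA

namespace Conc

variable {α : ℝ}

/-- `∑_{v ∈ B} h (deg v)` -/
noncomputable def Hs (h : ℕ → ℝ) (E : ESet) (B : Finset ℕ) : ℝ := ∑ v ∈ B, h (deg E v)

/-- the fraction `H(B)/H(all)` -/
noncomputable def rho (h : ℕ → ℝ) (m : ℕ) (E : ESet) (B : Finset ℕ) : ℝ :=
  Hs h E B / Hs h E (range m)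

/-- increment of `H` when `v` is hit -/
noncomputable def inc (h : ℕ → ℝ) (E : ESet) (v : ℕ) : ℝ := h 1 + h (deg E v + 1) - h (deg E v)

/-- hypotheses on the eigenfunction -/
structure Eig (α lam K : ℝ) (h : ℕ → ℝ) : Prop where
  l1 : 1 ≤ lam
  l2 : lam ≤ 2
  K0 : 0 < K
  lo : ∀ d : ℕ, 1 ≤ d → 1 / 3 ≤ h d
  hi : ∀ d : ℕ, 1 ≤ d → h d ≤ K * (d : ℝ) ^ α
  eq : ∀ d : ℕ, 1 ≤ d → lam * h d = (d : ℝ) ^ α * (h 1 + h (d + 1) - h d)

variable {lam K : ℝ} {h : ℕ → ℝ}

theorem Hs_step_all {m : ℕ} {E : ESet} (hE : Valid m E) {v : ℕ} (hv : v < m) :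
    Hs h (insert s(v, m) E) (range (m + 1)) = Hs h E (range m) + inc h E v := by
  unfold Hs inc
  rw [sum_range_succ]
  have h1 : deg (insert s(v, m) E) m = 1 := by
    rw [deg_insert (hE.not_mem v), hE.deg_zero le_rfl]; simp
  rw [h1]
  have h2 : ∀ x ∈ range m, h (deg (insert s(v, m) E) x) =
      h (deg E x) + if x = v then (h (deg E v + 1) - h (deg E v)) else 0 := by
    intro x hx
    have hx' := mem_range.1 hx
    rw [deg_insert (hE.not_mem v)]
    by_cases hxv : x = v
    · subst hxv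
      simp
    · have : ¬ (x = v ∨ x = m) := by omega
      rw [if_neg this, if_neg hxv]
      simp
  rw [sum_congr rfl h2, sum_add_distrib, sum_ite_eq' (range m) v, if_pos (mem_range.2 hv)]
  ring

theorem Hs_step_mem {m : ℕ} {E : ESet} (hE : Valid m E) {v : ℕ} {B : Finset ℕ}
    (hB : B ⊆ range m) (hvB : v ∈ B) :
    Hs h (insert s(v, m) E) (insert m B) = Hs h E B + inc h E v := by
  unfold Hs inc
  have hmB : m ∉ B := fun hm => absurd (mem_range.1 (hB hm)) (lt_irrefl m)
  rw [sum_insert hmB]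
  have h1 : deg (insert s(v, m) E) m = 1 := by
    rw [deg_insert (hE.not_mem v), hE.deg_zero le_rfl]; simp
  rw [h1]
  have h2 : ∀ x ∈ B, h (deg (insert s(v, m) E) x) =
      h (deg E x) + if x = v then (h (deg E v + 1) - h (deg E v)) else 0 := by
    intro x hx
    have hx' := mem_range.1 (hB hx)
    rw [deg_insert (hE.not_mem v)]
    by_cases hxv : x = v
    · subst hxv
      simp
    · have : ¬ (x = v ∨ x = m) := by omega
      rw [if_neg this, if_neg hxv]
      simp
  rw [sum_congr rfl h2, sum_add_distrib, sum_ite_eq' B v, if_pos hvB]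
  ring

theorem Hs_step_not_mem {m : ℕ} {E : ESet} (hE : Valid m E) {v : ℕ} {B : Finset ℕ}
    (hB : B ⊆ range m) (hvB : v ∉ B) :
    Hs h (insert s(v, m) E) B = Hs h E B := by
  unfold Hs
  apply sum_congr rfl
  intro x hx
  have hx' := mem_range.1 (hB hx)
  rw [deg_insert (hE.not_mem v)]
  have : ¬ (x = v ∨ x = m) := by
    rintro (rfl | rfl)
    · exact hvB hx
    · omega
  rw [if_neg this, add_zero]

/-- the carried invariant -/
structure Inv (m : ℕ) (E : ESet) (B : Finset ℕ) : Prop where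
  val : Valid m E
  sub : B ⊆ range m
  dsum : (∑ v ∈ B, deg E v) ≤ 3 * B.card

theorem Inv.step {m : ℕ} {E : ESet} {B : Finset ℕ} (hI : Inv m E B) {v : ℕ} (hv : v < m) :
    Inv (m + 1) (insert s(v, m) E) (if v ∈ B then insert m B else B) := by
  have hmB : m ∉ B := fun hm => absurd (mem_range.1 (hI.sub hm)) (lt_irrefl m)
  refine ⟨hI.val.step hv, ?_, ?_⟩
  · split_ifs with hvB
    · intro x hx
      rcases mem_insert.1 hx with rfl | hx
      · exact self_mem_range_succ _
      · have := mem_range.1 (hI.sub hx); exact mem_range.2 (by omega)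
    · intro x hx
      have := mem_range.1 (hI.sub hx); exact mem_range.2 (by omega)
  · split_ifs with hvB
    · rw [sum_insert hmB, card_insert_of_notMem hmB]
      have h1 : deg (insert s(v, m) E) m = 1 := by
        rw [deg_insert (hI.val.not_mem v), hI.val.deg_zero le_rfl]; simp
      have h2 : ∀ x ∈ B, deg (insert s(v, m) E) x = deg E x + if x = v then 1 else 0 := by
        intro x hx
        have hx' := mem_range.1 (hI.sub hx)
        rw [deg_insert (hI.val.not_mem v)]
        by_cases hxv : x = v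
        · simp [hxv]
        · have : ¬ (x = v ∨ x = m) := by omega
          rw [if_neg this, if_neg hxv]
      rw [h1, sum_congr rfl h2, sum_add_distrib, sum_ite_eq' B v, if_pos hvB]
      have := hI.dsum
      omega
    · have h2 : ∀ x ∈ B, deg (insert s(v, m) E) x = deg E x := by
        intro x hx
        have hx' := mem_range.1 (hI.sub hx)
        rw [deg_insert (hI.val.not_mem v)]
        have : ¬ (x = v ∨ x = m) := by
          rintro (rfl | rfl)
          · exact hvB hx
          · omega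
        rw [if_neg this, add_zero]
      rw [sum_congr rfl h2]
      exact hI.dsum

section bounds

variable {m : ℕ} {E : ESet} {B : Finset ℕ}

theorem h_pos (he : Eig α lam K h) {d : ℕ} (hd : 1 ≤ d) : 0 < h d := by
  have := he.lo d hd; linarith

theorem Hs_nonneg (he : Eig α lam K h) (hE : Valid m E) (hB : B ⊆ range m) : 0 ≤ Hs h E B :=
  sum_nonneg fun v hv => (h_pos he (hE.pos v (mem_range.1 (hB hv)))).le

theorem Hs_ge (he : Eig α lam K h) (hE : Valid m E) (hB : B ⊆ range m) :
    (B.card : ℝ) / 3 ≤ Hs h E B := by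
  unfold Hs
  calc (B.card : ℝ) / 3 = ∑ v ∈ B, (1 / 3 : ℝ) := by rw [sum_const, nsmul_eq_mul]; ring
    _ ≤ _ := sum_le_sum fun v hv => he.lo _ (hE.pos v (mem_range.1 (hB hv)))

theorem Hs_all_le (h0 : 0 < α) (h1 : α < 1) (he : Eig α lam K h) (hE : Valid m E) :
    Hs h E (range m) ≤ 2 * K * m := by
  have h2 : Hs h E (range m) ≤ K * W α m E := by
    unfold Hs W
    rw [mul_sum]
    exact sum_le_sum fun v hv => he.hi _ (hE.pos v (mem_range.1 hv))
  have h3 := hE.W_le h0 h1
  have h4 : (2:ℝ) ^ α ≤ 2 := by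
    calc (2:ℝ) ^ α ≤ (2:ℝ) ^ (1:ℝ) := Real.rpow_le_rpow_of_exponent_le (by norm_num) h1.le
      _ = 2 := by simp
  have hK := he.K0
  have hm : (0:ℝ) ≤ m := by positivity
  nlinarith [mul_le_mul_of_nonneg_right h4 hm, mul_le_mul_of_nonneg_left h3 hK.le]

theorem Hs_le_card (h1 : α < 1) (he : Eig α lam K h) (hI : Inv m E B) :
    Hs h E B ≤ 3 * K * B.card := by
  have hK := he.K0
  have h2 : Hs h E B ≤ K * ∑ v ∈ B, (deg E v : ℝ) := by
    unfold Hs
    rw [mul_sum]
    apply sum_le_sum
    intro v hv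
    have hd := hI.val.pos v (mem_range.1 (hI.sub hv))
    have hd' : (1:ℝ) ≤ deg E v := by exact_mod_cast hd
    refine (he.hi _ hd).trans (mul_le_mul_of_nonneg_left ?_ hK.le)
    calc ((deg E v : ℝ)) ^ α ≤ ((deg E v : ℝ)) ^ (1:ℝ) :=
          Real.rpow_le_rpow_of_exponent_le hd' h1.le
      _ = deg E v := by simp
  have h3 : (∑ v ∈ B, (deg E v : ℝ)) ≤ 3 * B.card := by exact_mod_cast hI.dsum
  nlinarith

theorem inc_eq (he : Eig α lam K h) (hE : Valid m E) {v : ℕ} (hv : v < m) :
    (deg E v : ℝ) ^ α * inc h E v = lam * h (deg E v) := (he.eq _ (hE.pos v hv)).symm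

theorem dpow_ge (h0 : 0 < α) (hE : Valid m E) {v : ℕ} (hv : v < m) : 1 ≤ (deg E v : ℝ) ^ α :=
  Real.one_le_rpow (by exact_mod_cast hE.pos v hv) h0.le

theorem inc_pos (h0 : 0 < α) (he : Eig α lam K h) (hE : Valid m E) {v : ℕ} (hv : v < m) :
    0 < inc h E v := by
  have h2 := inc_eq he hE hv
  have h3 := dpow_ge h0 hE hv
  have h4 := h_pos he (hE.pos v hv)
  have hl := he.l1
  have h5 : 0 < (deg E v : ℝ) ^ α * inc h E v := by rw [h2]; positivity
  exact (pos_iff_pos_of_mul_pos h5).1 (by positivity)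

theorem inc_le (h0 : 0 < α) (he : Eig α lam K h) (hE : Valid m E) {v : ℕ} (hv : v < m) :
    inc h E v ≤ 2 * K := by
  have h2 := inc_eq he hE hv
  have h3 := dpow_ge h0 hE hv
  have h4 := he.hi _ (hE.pos v hv)
  have h5 := h_pos he (hE.pos v hv)
  have hl := he.l1
  have hl2 := he.l2
  have hK := he.K0
  have h6 : (deg E v : ℝ) ^ α * inc h E v ≤ (deg E v : ℝ) ^ α * (2 * K) := by
    rw [h2]
    calc lam * h (deg E v) ≤ 2 * h (deg E v) := mul_le_mul_of_nonneg_right hl2 h5.le
      _ ≤ 2 * (K * (deg E v : ℝ) ^ α) := by linarith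
      _ = _ := by ring
  exact le_of_mul_le_mul_left h6 (by positivity)

/-- one exponential step -/
theorem exp_step (h0 : 0 < α) (he : Eig α lam K h) (hI : Inv m E B)
    (hm : 1 ≤ m) {θ : ℝ} (hθ : |θ| * (6 * K) ≤ m) :
    (∑ v ∈ range m, ((deg E v : ℝ) ^ α / W α m E) *
        Real.exp (θ * rho h (m + 1) (insert s(v, m) E) (if v ∈ B then insert m B else B))) ≤
      Real.exp (θ * rho h m E B + 24 * K * (|θ| + θ ^ 2) * rho h m E B / m ^ 2) := by
  have hE := hI.val
  have hK := he.K0
  have hm' : (1:ℝ) ≤ m := by exact_mod_cast hm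
  set T := Hs h E (range m) with hT
  set P := Hs h E B with hP
  set ρ := rho h m E B with hρ
  have hρdef : ρ = P / T := rfl
  have hTge : (m : ℝ) / 3 ≤ T := by
    have := Hs_ge he hE (B := range m) subset_rfl
    simpa using this
  have hT0 : 0 < T := by linarith
  have hP0 : 0 ≤ P := Hs_nonneg he hE hI.sub
  have hPT : P ≤ T := sum_le_sum_of_subset_of_nonneg hI.sub
    fun v hv _ => (h_pos he (hE.pos v (mem_range.1 hv))).le
  have hρ0 : 0 ≤ ρ := div_nonneg hP0 hT0.le
  have hρ1 : ρ ≤ 1 := by rw [hρdef, div_le_one hT0]; exact hPT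
  have hρT : ρ * T = P := by rw [hρdef]; field_simp
  have hW0 : 0 < W α m E := hE.W_pos h0 hm
  have hWge : (m : ℝ) ≤ W α m E := hE.le_W h0
  set Wm := W α m E with hWm
  -- indicator
  let ind : ℕ → ℝ := fun v => if v ∈ B then 1 else 0
  have hind : ∀ v, ind v = 0 ∨ ind v = 1 := by
    intro v; by_cases hv : v ∈ B
    · right; simp [ind, hv]
    · left; simp [ind, hv]
  let x : ℕ → ℝ := inc h E
  let y : ℕ → ℝ := fun v => x v * (ind v - ρ) / (T + x v)
  have hx0 : ∀ v ∈ range m, 0 < x v := fun v hv => inc_pos h0 he hE (mem_range.1 hv)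
  have hx2 : ∀ v ∈ range m, x v ≤ 2 * K := fun v hv => inc_le h0 he hE (mem_range.1 hv)
  -- new value of rho
  have hnew : ∀ v ∈ range m, rho h (m + 1) (insert s(v, m) E) (if v ∈ B then insert m B else B)
      = ρ + y v := by
    intro v hv
    have hxv := hx0 v hv
    have hTx : T + x v ≠ 0 := by positivity
    unfold rho
    rw [Hs_step_all hE (mem_range.1 hv)]
    by_cases hvB : v ∈ B
    · rw [if_pos hvB, Hs_step_mem hE hI.sub hvB]
      simp only [y, ind, if_pos hvB]
      change (P + x v) / (T + x v) = ρ + x v * (1 - ρ) / (T + x v)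
      rw [eq_comm, ← sub_eq_zero]
      field_simp
      linear_combination hρT
    · rw [if_neg hvB, Hs_step_not_mem hE hI.sub hvB]
      simp only [y, ind, if_neg hvB]
      change P / (T + x v) = ρ + x v * (0 - ρ) / (T + x v)
      rw [eq_comm, ← sub_eq_zero]
      field_simp
      linear_combination hρT
  have hyabs : ∀ v ∈ range m, |y v| ≤ 6 * K / m := by
    intro v hv
    have hxv := hx0 v hv
    have hxv2 := hx2 v hv
    have h1 : |ind v - ρ| ≤ 1 := by
      rcases hind v with h | h <;> rw [h, abs_le] <;> constructor <;> linarith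
    have h2 : |y v| = x v * |ind v - ρ| / (T + x v) := by
      simp only [y]
      rw [abs_div, abs_mul, abs_of_pos hxv, abs_of_pos (by positivity : 0 < T + x v)]
    rw [h2, div_le_div_iff₀ (by positivity) (by positivity)]
    have h3 : x v * |ind v - ρ| ≤ 2 * K * 1 := by
      apply mul_le_mul hxv2 h1 (abs_nonneg _) (by positivity)
    have h4 : (m:ℝ) ≤ 3 * (T + x v) := by linarith
    calc x v * |ind v - ρ| * m ≤ (2 * K * 1) * (3 * (T + x v)) :=
          mul_le_mul h3 h4 (by positivity) (by positivity)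
      _ = _ := by ring
  have hwt : ∀ v ∈ range m, (deg E v : ℝ) ^ α / Wm * x v = lam * h (deg E v) / Wm := by
    intro v hv
    have := inc_eq he hE (mem_range.1 hv)
    rw [← this]
    simp only [x]
    ring
  have hh0 : ∀ v ∈ range m, 0 ≤ h (deg E v) := fun v hv =>
    (h_pos he (hE.pos v (mem_range.1 hv))).le
  -- sum of h * (ind + ρ) and h * (ind - ρ)
  have hsumind : (∑ v ∈ range m, h (deg E v) * ind v) = P := by
    simp only [ind, mul_ite, mul_one, mul_zero]
    rw [sum_ite_mem, inter_eq_right.2 hI.sub]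
    rfl
  have hsumT : (∑ v ∈ range m, h (deg E v)) = T := rfl
  have hS : ∀ (f : ℕ → ℝ), (∀ v ∈ range m, |f v| ≤ lam * h (deg E v) / Wm * (ind v + ρ) * (2 * K)
      / T ^ 2) → |∑ v ∈ range m, f v| ≤ 24 * K * ρ / m ^ 2 := by
    intro f hf
    refine (abs_sum_le_sum_abs _ _).trans ((sum_le_sum hf).trans ?_)
    have h1 : (∑ v ∈ range m, lam * h (deg E v) / Wm * (ind v + ρ) * (2 * K) / T ^ 2)
        = lam * (2 * K) / (Wm * T ^ 2) * (P + T * ρ) := by
      rw [← hsumind, ← hsumT, sum_mul, ← sum_add_distrib, mul_sum]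
      apply sum_congr rfl
      intro v _
      rw [hsumT]
      field_simp
    rw [h1, ← hρT]
    have h2 : lam * (2 * K) / (Wm * T ^ 2) * (ρ * T + T * ρ) = lam * (4 * K * ρ) / (Wm * T) := by
      field_simp
      ring
    rw [h2, div_le_div_iff₀ (by positivity) (by positivity)]
    have hl2 := he.l2
    have hl1 := he.l1
    have h3 : (m : ℝ) ^ 2 ≤ Wm * (3 * T) := by
      have : (m:ℝ) ≤ 3 * T := by linarith
      calc (m:ℝ) ^ 2 = m * m := by ring
        _ ≤ _ := mul_le_mul hWge this (by positivity) hW0.le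
    calc lam * (4 * K * ρ) * (m:ℝ) ^ 2 ≤ 2 * (4 * K * ρ) * (Wm * (3 * T)) := by
          apply mul_le_mul _ h3 (by positivity) (by positivity)
          exact mul_le_mul_of_nonneg_right hl2 (by positivity)
      _ = 24 * K * ρ * (Wm * T) := by ring
  -- first moment
  have hzero : (∑ v ∈ range m, lam * h (deg E v) / Wm * (ind v - ρ) / T) = 0 := by
    have : (∑ v ∈ range m, lam * h (deg E v) / Wm * (ind v - ρ) / T)
        = lam / (Wm * T) * ((∑ v ∈ range m, h (deg E v) * ind v) - (∑ v ∈ range m, h (deg E v)) * ρ) := by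
      rw [sum_mul, ← sum_sub_distrib, mul_sum]
      apply sum_congr rfl
      intro v _
      field_simp
    rw [this, hsumind, hsumT, ← hρT]
    ring
  have hM1 : |∑ v ∈ range m, (deg E v : ℝ) ^ α / Wm * y v| ≤ 24 * K * ρ / m ^ 2 := by
    have h1 : (∑ v ∈ range m, (deg E v : ℝ) ^ α / Wm * y v)
        = ∑ v ∈ range m, ((deg E v : ℝ) ^ α / Wm * y v
            - lam * h (deg E v) / Wm * (ind v - ρ) / T) := by
      rw [sum_sub_distrib, hzero, sub_zero]
    rw [h1]
    apply hS
    intro v hv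
    have hxv := hx0 v hv
    have hxv2 := hx2 v hv
    have hhv := hh0 v hv
    have hl1 := he.l1
    have h2 : (deg E v : ℝ) ^ α / Wm * y v - lam * h (deg E v) / Wm * (ind v - ρ) / T
        = - (lam * h (deg E v) / Wm * (ind v - ρ) * x v / (T * (T + x v))) := by
      have hTx : T + x v ≠ 0 := by positivity
      have h3 : (deg E v : ℝ) ^ α / Wm * y v
          = ((deg E v : ℝ) ^ α / Wm * x v) * (ind v - ρ) / (T + x v) := by
        simp only [y]; ring
      rw [h3, hwt v hv]
      field_simp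
      ring
    rw [h2, abs_neg, abs_div, abs_mul, abs_mul,
      abs_of_nonneg (by positivity : 0 ≤ lam * h (deg E v) / Wm),
      abs_of_pos hxv, abs_of_pos (by positivity : 0 < T * (T + x v))]
    have h4 : |ind v - ρ| ≤ ind v + ρ := by
      rcases hind v with h | h <;> rw [h, abs_le] <;> constructor <;> linarith
    have h5 : 0 ≤ ind v + ρ := (abs_nonneg _).trans h4
    rw [div_le_div_iff₀ (by positivity) (by positivity)]
    apply mul_le_mul
    · apply mul_le_mul _ hxv2 hxv.le (by positivity)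
      exact mul_le_mul_of_nonneg_left h4 (by positivity)
    · rw [sq]; exact mul_le_mul_of_nonneg_left (by linarith) hT0.le
    · positivity
    · positivity
  -- second moment
  have hM2 : |∑ v ∈ range m, (deg E v : ℝ) ^ α / Wm * (y v) ^ 2| ≤ 24 * K * ρ / m ^ 2 := by
    apply hS
    intro v hv
    have hxv := hx0 v hv
    have hxv2 := hx2 v hv
    have hhv := hh0 v hv
    have hl1 := he.l1
    have h2 : (deg E v : ℝ) ^ α / Wm * (y v) ^ 2
        = lam * h (deg E v) / Wm * (ind v - ρ) ^ 2 * x v / (T + x v) ^ 2 := by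
      have hTx : T + x v ≠ 0 := by positivity
      have h3 : (deg E v : ℝ) ^ α / Wm * (y v) ^ 2
          = ((deg E v : ℝ) ^ α / Wm * x v) * (ind v - ρ) ^ 2 * x v / (T + x v) ^ 2 := by
        simp only [y]; rw [div_pow]; ring
      rw [h3, hwt v hv]
    rw [h2, abs_of_nonneg (by positivity)]
    have h4 : (ind v - ρ) ^ 2 ≤ ind v + ρ := by
      rcases hind v with h | h <;> rw [h] <;> nlinarith
    have h5 : 0 ≤ ind v + ρ := (sq_nonneg _).trans h4
    rw [div_le_div_iff₀ (by positivity) (by positivity)]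
    apply mul_le_mul
    · apply mul_le_mul _ hxv2 hxv.le (by positivity)
      exact mul_le_mul_of_nonneg_left h4 (by positivity)
    · exact pow_le_pow_left₀ hT0.le (by linarith) 2
    · positivity
    · positivity
  -- assemble
  have hwsum : (∑ v ∈ range m, (deg E v : ℝ) ^ α / Wm) = 1 := hE.sum_wt h0 hm
  have hterm : ∀ v ∈ range m, (deg E v : ℝ) ^ α / Wm *
        Real.exp (θ * rho h (m + 1) (insert s(v, m) E) (if v ∈ B then insert m B else B)) ≤
      Real.exp (θ * ρ) * ((deg E v : ℝ) ^ α / Wm * (1 + θ * y v + θ ^ 2 * (y v) ^ 2)) := by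
    intro v hv
    rw [hnew v hv, mul_add, Real.exp_add]
    have h1 : |θ * y v| ≤ 1 := by
      rw [abs_mul]
      calc |θ| * |y v| ≤ |θ| * (6 * K / m) := mul_le_mul_of_nonneg_left (hyabs v hv) (abs_nonneg _)
        _ = |θ| * (6 * K) / m := by ring
        _ ≤ 1 := by rw [div_le_one (by positivity)]; exact hθ
    have h2 := (abs_le.1 (Real.abs_exp_sub_one_sub_id_le h1)).2
    have h3 : Real.exp (θ * y v) ≤ 1 + θ * y v + θ ^ 2 * (y v) ^ 2 := by nlinarith
    have h4 : 0 ≤ (deg E v : ℝ) ^ α / Wm := wt_nonneg m v E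
    have h5 : (deg E v : ℝ) ^ α / Wm * (Real.exp (θ * ρ) * Real.exp (θ * y v))
        = Real.exp (θ * ρ) * ((deg E v : ℝ) ^ α / Wm * Real.exp (θ * y v)) := by ring
    rw [h5]
    exact mul_le_mul_of_nonneg_left (mul_le_mul_of_nonneg_left h3 h4) (Real.exp_pos _).le
  refine (sum_le_sum hterm).trans ?_
  rw [← mul_sum]
  have hsplit : (∑ v ∈ range m, (deg E v : ℝ) ^ α / Wm * (1 + θ * y v + θ ^ 2 * (y v) ^ 2))
      = 1 + θ * (∑ v ∈ range m, (deg E v : ℝ) ^ α / Wm * y v)
        + θ ^ 2 * (∑ v ∈ range m, (deg E v : ℝ) ^ α / Wm * (y v) ^ 2) := by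
    conv_rhs => rw [← hwsum]
    rw [mul_sum, mul_sum, ← sum_add_distrib, ← sum_add_distrib]
    apply sum_congr rfl
    intro v _
    ring
  rw [hsplit, Real.exp_add]
  apply mul_le_mul_of_nonneg_left _ (Real.exp_pos _).le
  set M1 := ∑ v ∈ range m, (deg E v : ℝ) ^ α / Wm * y v
  set M2 := ∑ v ∈ range m, (deg E v : ℝ) ^ α / Wm * (y v) ^ 2
  have h5 : θ * M1 ≤ |θ| * (24 * K * ρ / m ^ 2) := by
    calc θ * M1 ≤ |θ * M1| := le_abs_self _
      _ = |θ| * |M1| := abs_mul _ _
      _ ≤ _ := mul_le_mul_of_nonneg_left hM1 (abs_nonneg _)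
  have h6 : θ ^ 2 * M2 ≤ θ ^ 2 * (24 * K * ρ / m ^ 2) :=
    mul_le_mul_of_nonneg_left ((le_abs_self _).trans hM2) (sq_nonneg _)
  calc 1 + θ * M1 + θ ^ 2 * M2 ≤ 24 * K * (|θ| + θ ^ 2) * ρ / m ^ 2 + 1 := by
        have : |θ| * (24 * K * ρ / (m:ℝ) ^ 2) + θ ^ 2 * (24 * K * ρ / (m:ℝ) ^ 2)
            = 24 * K * (|θ| + θ ^ 2) * ρ / (m:ℝ) ^ 2 := by ring
        linarith
    _ ≤ _ := Real.add_one_le_exp _

end bounds

theorem prB_const_mul (a : ℝ) (Ψ : ESet → Finset ℕ → ℝ) : ∀ (d m : ℕ) (E : ESet) (B : Finset ℕ),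
    prB α m d (fun E B => a * Ψ E B) E B = a * prB α m d Ψ E B := by
  intro d
  induction d with
  | zero => intro m E B; rfl
  | succ d ih =>
    intro m E B
    simp only [prB_succ, ih, mul_sum]
    exact sum_congr rfl fun v _ => by ring

/-- supermartingale: if one step does not increase `Φ` then `prB` is bounded by the start value -/
theorem prB_super (Φ : ℕ → ESet → Finset ℕ → ℝ) (n0 N : ℕ)
    (hΦ : ∀ m E B, n0 ≤ m → m < N → Inv m E B →
      (∑ v ∈ range m, ((deg E v : ℝ) ^ α / W α m E) *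
        Φ (m + 1) (insert s(v, m) E) (if v ∈ B then insert m B else B)) ≤ Φ m E B) :
    ∀ (d m : ℕ) (E : ESet) (B : Finset ℕ), n0 ≤ m → m + d = N → Inv m E B →
      prB α m d (Φ N) E B ≤ Φ m E B := by
  intro d
  induction d with
  | zero =>
    intro m E B _ hm _
    have : m = N := by omega
    subst this
    exact le_rfl
  | succ d ih =>
    intro m E B h0 hm hI
    rw [prB_succ]
    refine le_trans (sum_le_sum ?_) (hΦ m E B h0 (by omega) hI)
    intro v hv
    exact mul_le_mul_of_nonneg_left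
      (ih (m+1) _ _ (by omega) (by omega) (hI.step (mem_range.1 hv))) (wt_nonneg m v E)

/-- weight used for the upper tail -/
noncomputable def thU (q M m : ℝ) : ℝ := q * M * (1 + M / m)

/-- weight used for the lower tail -/
noncomputable def thL (q M m : ℝ) : ℝ := q * M * (2 - M / m)

section tails

variable {q M : ℝ}

theorem th_cond (hK : 0 < K) (hq : q = 1 / (384 * K)) (hM : 192 * K ≤ M) (hM1 : 1 ≤ M)
    {m θ : ℝ} (hm : M ≤ m) (hθ0 : 0 ≤ θ) (hθ : θ ≤ 2 * q * M) :
    24 * K * (θ + θ ^ 2) / m ^ 2 ≤ q * M ^ 2 / (m * (m + 1)) ∧ θ * (6 * K) ≤ m := by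
  have hq0 : 0 < q := by rw [hq]; positivity
  have hqK : q * (384 * K) = 1 := by rw [hq]; field_simp
  have hM0 : 0 < M := by linarith
  have hm0 : 0 < m := by linarith
  refine ⟨?_, ?_⟩
  · rw [div_le_div_iff₀ (by positivity) (by positivity)]
    -- 24K(θ+θ²) m(m+1) ≤ q M² m²
    have h1 : θ + θ ^ 2 ≤ 2 * q * M + (2 * q * M) ^ 2 := by nlinarith
    have h2 : 24 * K * (2 * q * M + (2 * q * M) ^ 2) ≤ q * M ^ 2 / 2 := by
      have e1 : 24 * K * (2 * q * M) = M / 8 := by linear_combination (M / 8) * hqK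
      have e2 : 24 * K * (2 * q * M) ^ 2 = q * M ^ 2 / 4 := by
        linear_combination (q * M ^ 2 / 4) * hqK
      have e3 : M / 8 ≤ q * M ^ 2 / 4 := by
        have : 1 / 2 ≤ q * M := by
          have : q * (192 * K) ≤ q * M := mul_le_mul_of_nonneg_left hM hq0.le
          nlinarith
        nlinarith
      calc 24 * K * (2 * q * M + (2 * q * M) ^ 2)
          = 24 * K * (2 * q * M) + 24 * K * (2 * q * M) ^ 2 := by ring
        _ ≤ _ := by rw [e1, e2]; linarith
    have h3 : m * (m + 1) ≤ 2 * m ^ 2 := by nlinarith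
    calc 24 * K * (θ + θ ^ 2) * (m * (m + 1))
        ≤ (q * M ^ 2 / 2) * (2 * m ^ 2) := by
          apply mul_le_mul _ h3 (by positivity) (by positivity)
          exact (mul_le_mul_of_nonneg_left h1 (by positivity)).trans h2
      _ = q * M ^ 2 * m ^ 2 := by ring
  · calc θ * (6 * K) ≤ (2 * q * M) * (6 * K) := mul_le_mul_of_nonneg_right hθ (by positivity)
      _ = M / 32 := by linear_combination (M / 32) * hqK
      _ ≤ m := by linarith

theorem superU (h0 : 0 < α) (he : Eig α lam K h) (hq : q = 1 / (384 * K)) (hM : 192 * K ≤ M)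
    (hM1 : 1 ≤ M) {m : ℕ} {E : ESet} {B : Finset ℕ} (hI : Inv m E B) (hm : M ≤ m) :
    (∑ v ∈ range m, ((deg E v : ℝ) ^ α / W α m E) *
        Real.exp (thU q M ((m + 1 : ℕ) : ℝ) *
          rho h (m + 1) (insert s(v, m) E) (if v ∈ B then insert m B else B))) ≤
      Real.exp (thU q M m * rho h m E B) := by
  have hK := he.K0
  have hq0 : 0 < q := by rw [hq]; positivity
  have hm0 : (0:ℝ) < m := by linarith
  have hM0 : 0 < M := by linarith
  have hm1 : 1 ≤ m := by exact_mod_cast hm0
  set θ := thU q M ((m + 1 : ℕ) : ℝ) with hθ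
  have hcast : ((m + 1 : ℕ) : ℝ) = (m:ℝ) + 1 := by push_cast; ring
  have hθ0 : 0 ≤ θ := by rw [hθ, thU]; positivity
  have hθ2 : θ ≤ 2 * q * M := by
    rw [hθ, thU, hcast]
    have : M / ((m:ℝ) + 1) ≤ 1 := by rw [div_le_one (by positivity)]; linarith
    nlinarith [mul_pos hq0 hM0]
  obtain ⟨c1, c2⟩ := th_cond hK hq hM hM1 hm hθ0 hθ2
  have h1 := exp_step h0 he hI hm1 (θ := θ) (by rw [abs_of_nonneg hθ0]; exact c2)
  refine h1.trans (Real.exp_le_exp.2 ?_)
  have hρ0 : 0 ≤ rho h m E B := div_nonneg (Hs_nonneg he hI.val hI.sub)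
    (Hs_nonneg he hI.val subset_rfl)
  rw [abs_of_nonneg hθ0]
  have h2 : θ + 24 * K * (θ + θ ^ 2) / (m:ℝ) ^ 2 ≤ thU q M m := by
    have : thU q M m - θ = q * M ^ 2 / ((m:ℝ) * (m + 1)) := by
      rw [hθ, thU, thU, hcast]; field_simp; ring
    linarith
  calc θ * rho h m E B + 24 * K * (θ + θ ^ 2) * rho h m E B / (m:ℝ) ^ 2
      = (θ + 24 * K * (θ + θ ^ 2) / (m:ℝ) ^ 2) * rho h m E B := by ring
    _ ≤ _ := mul_le_mul_of_nonneg_right h2 hρ0

theorem superL (h0 : 0 < α) (he : Eig α lam K h) (hq : q = 1 / (384 * K)) (hM : 192 * K ≤ M)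
    (hM1 : 1 ≤ M) {m : ℕ} {E : ESet} {B : Finset ℕ} (hI : Inv m E B) (hm : M ≤ m) :
    (∑ v ∈ range m, ((deg E v : ℝ) ^ α / W α m E) *
        Real.exp (-thL q M ((m + 1 : ℕ) : ℝ) *
          rho h (m + 1) (insert s(v, m) E) (if v ∈ B then insert m B else B))) ≤
      Real.exp (-thL q M m * rho h m E B) := by
  have hK := he.K0
  have hq0 : 0 < q := by rw [hq]; positivity
  have hm0 : (0:ℝ) < m := by linarith
  have hM0 : 0 < M := by linarith
  have hm1 : 1 ≤ m := by exact_mod_cast hm0
  set θ := thL q M ((m + 1 : ℕ) : ℝ) with hθ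
  have hcast : ((m + 1 : ℕ) : ℝ) = (m:ℝ) + 1 := by push_cast; ring
  have hqM : 0 < q * M := mul_pos hq0 hM0
  have hle1 : M / ((m:ℝ) + 1) ≤ 1 := by rw [div_le_one (by positivity)]; linarith
  have hge0 : 0 ≤ M / ((m:ℝ) + 1) := by positivity
  have hθ0 : 0 ≤ θ := by rw [hθ, thL, hcast]; nlinarith
  have hθ2 : θ ≤ 2 * q * M := by
    rw [hθ, thL, hcast]
    nlinarith
  obtain ⟨c1, c2⟩ := th_cond hK hq hM hM1 hm hθ0 hθ2
  have h1 := exp_step h0 he hI hm1 (θ := -θ) (by rw [abs_neg, abs_of_nonneg hθ0]; exact c2)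
  refine h1.trans (Real.exp_le_exp.2 ?_)
  have hρ0 : 0 ≤ rho h m E B := div_nonneg (Hs_nonneg he hI.val hI.sub)
    (Hs_nonneg he hI.val subset_rfl)
  rw [abs_neg, abs_of_nonneg hθ0, neg_sq]
  have h2 : -θ + 24 * K * (θ + θ ^ 2) / (m:ℝ) ^ 2 ≤ -thL q M m := by
    have : θ - thL q M m = q * M ^ 2 / ((m:ℝ) * (m + 1)) := by
      rw [hθ, thL, thL, hcast]; field_simp; ring
    linarith
  calc -θ * rho h m E B + 24 * K * (θ + θ ^ 2) * rho h m E B / (m:ℝ) ^ 2
      = (-θ + 24 * K * (θ + θ ^ 2) / (m:ℝ) ^ 2) * rho h m E B := by ring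
    _ ≤ _ := mul_le_mul_of_nonneg_right h2 hρ0

end tails

end Conc

open Conc in
theorem conc {α : ℝ} (h0 : 0 < α) (h1 : α < 1) : ∃ (c C : ℝ) (m0 : ℕ), 0 < c ∧ 0 < C ∧
    ∀ (m d : ℕ) (E : ESet) (B : Finset ℕ), m0 ≤ m → Valid m E → B ⊆ range m →
      (∑ v ∈ B, deg E v) ≤ 3 * B.card →
      (prB α m d (fun _ B' => if (B'.card : ℝ) ≤ c * (B.card / m) * (m + d) then 1 else 0) E B
        ≤ Real.exp (-c * B.card)) ∧
      (∀ x : ℝ, 0 ≤ x →
        prB α m d (fun _ B' => if x * (m + d) ≤ (B'.card : ℝ) then 1 else 0) E B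
          ≤ Real.exp (-c * x * m + C * B.card)) := by
  obtain ⟨lam, K, h, hl1, hl2, hK, -, hh, heq⟩ := exists_eigen h0 h1
  have he : Eig α lam K h := ⟨hl1, hl2, hK, fun d hd => (hh d hd).1, fun d hd => (hh d hd).2, heq⟩
  obtain ⟨q, hq⟩ : ∃ q, q = 1 / (384 * K) := ⟨_, rfl⟩
  have hq0 : 0 < q := by rw [hq]; positivity
  -- K ≥ 1/3
  have hK3 : 1 / 3 ≤ K := by
    have := (hh 1 le_rfl).1.trans (hh 1 le_rfl).2
    simpa using this
  set c : ℝ := min (1 / (216 * K ^ 2)) (q / (12 * K)) with hc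
  have hc0 : 0 < c := by rw [hc]; positivity
  have hcA : c ≤ 1 / (216 * K ^ 2) := min_le_left _ _
  have hcB : c ≤ q / (12 * K) := min_le_right _ _
  refine ⟨c, 18 * q * K, ⌈192 * K⌉₊ + 1, hc0, by positivity, ?_⟩
  intro m d E B hm hE hB hdeg
  have hI : Inv m E B := ⟨hE, hB, hdeg⟩
  have hmR : 192 * K ≤ (m:ℝ) := by
    calc 192 * K ≤ (⌈192 * K⌉₊ : ℝ) := Nat.le_ceil _
      _ ≤ m := by exact_mod_cast (by omega : ⌈192 * K⌉₊ ≤ m)
  have hm1 : 1 ≤ m := by omega
  have hm1R : (1:ℝ) ≤ m := by exact_mod_cast hm1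
  have hm0 : (0:ℝ) < m := by linarith
  set b : ℝ := (B.card : ℝ) with hb
  have hb0 : 0 ≤ b := by positivity
  set N := m + d with hN
  have hNR : ((N : ℕ) : ℝ) = (m:ℝ) + d := by rw [hN]; push_cast; ring
  have hN1 : (1:ℝ) ≤ (m:ℝ) + d := by
    have : (0:ℝ) ≤ d := by positivity
    linarith
  -- bounds for rho at the start
  have hT : (m : ℝ) / 3 ≤ Hs h E (range m) := by
    have := Hs_ge he hE (B := range m) subset_rfl
    simpa using this
  have hT2 := Hs_all_le h0 h1 he hE
  have hT0 : 0 < Hs h E (range m) := by linarith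
  have hP := Hs_ge he hE hB
  have hP2 := Hs_le_card h1 he hI
  have hρlo : b / (6 * K) ≤ m * rho h m E B := by
    unfold rho
    rw [mul_div_assoc', div_le_div_iff₀ (by positivity) hT0]
    calc b * Hs h E (range m) ≤ b * (2 * K * m) := mul_le_mul_of_nonneg_left hT2 hb0
      _ = m * (b / 3) * (6 * K) := by ring
      _ ≤ m * Hs h E B * (6 * K) := by
          apply mul_le_mul_of_nonneg_right _ (by positivity)
          exact mul_le_mul_of_nonneg_left hP hm0.le
  have hρhi : m * rho h m E B ≤ 9 * K * b := by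
    unfold rho
    rw [mul_div_assoc', div_le_iff₀ hT0]
    calc m * Hs h E B ≤ m * (3 * K * b) := mul_le_mul_of_nonneg_left hP2 hm0.le
      _ = 9 * K * b * (m / 3) := by ring
      _ ≤ 9 * K * b * Hs h E (range m) := mul_le_mul_of_nonneg_left hT (by positivity)
  have hInv : ∀ x E B v, x < N → v < x → Conc.Inv x E B →
      Conc.Inv (x + 1) (insert s(v, x) E) (if v ∈ B then insert x B else B) :=
    fun x E B v _ hv hI => hI.step hv
  -- bounds for rho at the end
  have hend : ∀ (E' : ESet) (B' : Finset ℕ), Conc.Inv N E' B' →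
      (B'.card : ℝ) ≤ 6 * K * ((m + d) * rho h N E' B') ∧
      (m + d) * rho h N E' B' ≤ 9 * K * B'.card ∧ 0 ≤ rho h N E' B' := by
    intro E' B' hI'
    have hT' : ((N:ℕ) : ℝ) / 3 ≤ Hs h E' (range N) := by
      have := Hs_ge he hI'.val (B := range N) subset_rfl
      simpa using this
    have hT2' := Hs_all_le h0 h1 he hI'.val
    rw [hNR] at hT' hT2'
    have hT0' : 0 < Hs h E' (range N) := by linarith
    have hP' := Hs_ge he hI'.val hI'.sub
    have hP2' := Hs_le_card h1 he hI'
    have hc0' : (0:ℝ) ≤ B'.card := by positivity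
    refine ⟨?_, ?_, div_nonneg (Hs_nonneg he hI'.val hI'.sub) hT0'.le⟩
    · unfold rho
      rw [mul_div_assoc', mul_div_assoc', le_div_iff₀ hT0']
      calc (B'.card : ℝ) * Hs h E' (range N) ≤ B'.card * (2 * K * (m + d)) :=
            mul_le_mul_of_nonneg_left hT2' hc0'
        _ = 6 * K * ((m + d) * (B'.card / 3)) := by ring
        _ ≤ 6 * K * ((m + d) * Hs h E' B') := by
            apply mul_le_mul_of_nonneg_left _ (by positivity)
            exact mul_le_mul_of_nonneg_left hP' (by positivity)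
    · unfold rho
      rw [mul_div_assoc', div_le_iff₀ hT0']
      calc (m + d) * Hs h E' B' ≤ (m + d) * (3 * K * B'.card) :=
            mul_le_mul_of_nonneg_left hP2' (by positivity)
        _ = 9 * K * B'.card * ((m + d) / 3) := by ring
        _ ≤ 9 * K * B'.card * Hs h E' (range N) := mul_le_mul_of_nonneg_left hT' (by positivity)
  constructor
  · -- lower tail
    set y : ℝ := rho h m E B / 4 with hy
    have hsup := prB_super (α := α) (fun k E B => Real.exp (-thL q m k * rho h k E B)) m N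
      (fun k E B hk _ hI => superL h0 he hq hmR hm1R hI (by exact_mod_cast hk)) d m E B
      le_rfl rfl hI
    have hcmp : prB α m d (fun _ B' => if (B'.card : ℝ) ≤ c * (B.card / m) * (m + d) then 1 else 0) E B
        ≤ prB α m d (fun E' B' => Real.exp (2 * q * m * y) * Real.exp (-thL q m N * rho h N E' B')) E B := by
      refine prB_le_inv (α := α) Conc.Inv N hInv ?_ d m E B rfl hI
      intro E' B' hI'
      obtain ⟨e1, e2, e3⟩ := hend E' B' hI'
      have hth : thL q m N ≤ 2 * q * m := by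
        unfold thL
        rw [hNR]
        have : 0 ≤ (m:ℝ) / (m + d) := by positivity
        nlinarith [mul_pos hq0 hm0]
      have hth0 : 0 ≤ thL q m N := by
        unfold thL
        rw [hNR]
        have : (m:ℝ) / (m + d) ≤ 1 := by
          rw [div_le_one (by positivity)]
          have : (0:ℝ) ≤ d := by positivity
          linarith
        have : 0 ≤ 2 - (m:ℝ) / (m + d) := by linarith
        positivity
      split_ifs with hcond
      · rw [← Real.exp_add]
        apply Real.one_le_exp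
        have h5 : rho h N E' B' ≤ y := by
          have h6 : (m + d) * rho h N E' B' ≤ (m + d) * y := by
            calc (m + d) * rho h N E' B' ≤ 9 * K * B'.card := e2
              _ ≤ 9 * K * (c * (b / m) * (m + d)) := mul_le_mul_of_nonneg_left hcond (by positivity)
              _ ≤ 9 * K * ((1 / (216 * K ^ 2)) * (b / m) * (m + d)) := by
                  apply mul_le_mul_of_nonneg_left _ (by positivity)
                  apply mul_le_mul_of_nonneg_right _ (by positivity)
                  exact mul_le_mul_of_nonneg_right hcA (by positivity)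
              _ = (m + d) * ((b / (6 * K)) / m / 4) := by field_simp; ring
              _ ≤ (m + d) * y := by
                  apply mul_le_mul_of_nonneg_left _ (by positivity)
                  rw [hy]
                  apply div_le_div_of_nonneg_right _ (by norm_num)
                  rw [div_le_iff₀ hm0]
                  linarith
          exact le_of_mul_le_mul_left h6 (by positivity)
        have h7 : 0 ≤ y := e3.trans h5
        have h8 : thL q m N * rho h N E' B' ≤ 2 * q * m * y :=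
          mul_le_mul hth h5 e3 (by positivity)
        linarith
      · positivity
    refine hcmp.trans ?_
    rw [prB_const_mul]
    refine (mul_le_mul_of_nonneg_left hsup (Real.exp_pos _).le).trans ?_
    rw [← Real.exp_add]
    apply Real.exp_le_exp.2
    have h9 : thL q m m = q * m := by
      unfold thL
      field_simp
      ring
    rw [h9, hy]
    have h10 : c * b ≤ q / (12 * K) * b := mul_le_mul_of_nonneg_right hcB hb0
    have h11 : q / (12 * K) * b ≤ q / 2 * (m * rho h m E B) := by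
      calc q / (12 * K) * b = q / 2 * (b / (6 * K)) := by field_simp; ring
        _ ≤ _ := mul_le_mul_of_nonneg_left hρlo (by positivity)
    have h12 : 2 * q * m * (rho h m E B / 4) + -(q * m) * rho h m E B
        = - (q / 2 * (m * rho h m E B)) := by ring
    rw [h12]
    linarith
  · -- upper tail
    intro x hx
    have hsup := prB_super (α := α) (fun k E B => Real.exp (thU q m k * rho h k E B)) m N
      (fun k E B hk _ hI => superU h0 he hq hmR hm1R hI (by exact_mod_cast hk)) d m E B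
      le_rfl rfl hI
    have hcmp : prB α m d (fun _ B' => if x * (m + d) ≤ (B'.card : ℝ) then 1 else 0) E B
        ≤ prB α m d (fun E' B' => Real.exp (-(q * m * (x / (6 * K)))) * Real.exp (thU q m N * rho h N E' B')) E B := by
      refine prB_le_inv (α := α) Conc.Inv N hInv ?_ d m E B rfl hI
      intro E' B' hI'
      obtain ⟨e1, e2, e3⟩ := hend E' B' hI'
      have hth : q * m ≤ thU q m N := by
        unfold thU
        rw [hNR]
        have : 0 ≤ (m:ℝ) / (m + d) := by positivity
        nlinarith [mul_pos hq0 hm0]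
      split_ifs with hcond
      · rw [← Real.exp_add]
        apply Real.one_le_exp
        have h5 : x / (6 * K) ≤ rho h N E' B' := by
          rw [div_le_iff₀ (by positivity)]
          have h6 : (m + d) * x ≤ (m + d) * (rho h N E' B' * (6 * K)) := by
            calc ((m:ℝ) + d) * x = x * (m + d) := by ring
              _ ≤ B'.card := hcond
              _ ≤ _ := e1
              _ = _ := by ring
          exact le_of_mul_le_mul_left h6 (by positivity)
        have h8 : q * m * (x / (6 * K)) ≤ thU q m N * rho h N E' B' :=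
          mul_le_mul hth h5 (by positivity) (le_trans (by positivity) hth)
        linarith
      · positivity
    refine hcmp.trans ?_
    rw [prB_const_mul]
    refine (mul_le_mul_of_nonneg_left hsup (Real.exp_pos _).le).trans ?_
    rw [← Real.exp_add]
    apply Real.exp_le_exp.2
    have h9 : thU q m m = 2 * q * m := by
      unfold thU
      field_simp
      ring
    rw [h9]
    have h10 : c * x * m ≤ q * m * (x / (6 * K)) := by
      have : c ≤ q / (6 * K) := hcB.trans (div_le_div_of_nonneg_left hq0.le (by positivity) (by linarith))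
      calc c * x * m ≤ q / (6 * K) * x * m := by
            apply mul_le_mul_of_nonneg_right _ hm0.le
            exact mul_le_mul_of_nonneg_right this hx
        _ = _ := by ring
    have h11 : 2 * q * m * rho h m E B ≤ 18 * q * K * b := by
      calc 2 * q * m * rho h m E B = 2 * q * (m * rho h m E B) := by ring
        _ ≤ 2 * q * (9 * K * b) := mul_le_mul_of_nonneg_left hρhi (by positivity)
        _ = _ := by ring
    linarith

end SeedPA
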