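import Mathlib

/-!
# Core of the attachment-history calculus (MP_0bba14_pr)

Edge sets on `ℕ`, degrees, total weight `W`, coloured states, weighted path sums `itr`.
-/

open Finset

namespace SeedPA

/-- finite edge sets on the vertex set `ℕ` -/
abbrev ESet := Finset (Sym2 ℕ)

/-- degree of a vertex -/
def deg (E : ESet) (v : ℕ) : ℕ := (E.filter (fun e => v ∈ e)).card

/-- total attachment weight of the first `m` vertices -/
noncomputable def W (α : ℝ) (m : ℕ) (E : ESet) : ℝ := ∑ v ∈ range m, ((deg E v : ℝ)) ^ α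

/-- `E` is an edge set on `{0,…,m-1}` with `m-1` edges and no isolated vertex -/
structure Valid (m : ℕ) (E : ESet) : Prop where
  lt : ∀ e ∈ E, ∀ x ∈ e, x < m
  irrefl : ∀ x, s(x, x) ∉ E
  card : E.card + 1 = m
  pos : ∀ v < m, 1 ≤ deg E v

theorem Valid.not_mem {m : ℕ} {E : ESet} (h : Valid m E) (v : ℕ) : s(v, m) ∉ E := by
  intro hm
  exact absurd (h.lt _ hm m (by simp)) (lt_irrefl _)

theorem deg_insert {E : ESet} {v m : ℕ} (hE : s(v, m) ∉ E) (x : ℕ) :
    deg (insert s(v, m) E) x = deg E x + if x = v ∨ x = m then 1 else 0 := by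
  unfold deg
  rw [filter_insert]
  by_cases hx : x = v ∨ x = m
  · have : x ∈ s(v, m) := by simpa [Sym2.mem_iff] using hx
    rw [if_pos this, if_pos hx, card_insert_of_notMem]
    simp [hE]
  · have : x ∉ s(v, m) := by simpa [Sym2.mem_iff] using hx
    rw [if_neg this, if_neg hx, add_zero]

theorem deg_eq_zero {m : ℕ} {E : ESet} (h : ∀ e ∈ E, ∀ x ∈ e, x < m) {x : ℕ} (hx : m ≤ x) :
    deg E x = 0 := by
  unfold deg
  rw [card_eq_zero, filter_eq_empty_iff]
  intro e he hxe
  exact absurd (h e he x hxe) (by omega)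

theorem Valid.deg_zero {m : ℕ} {E : ESet} (h : Valid m E) {x : ℕ} (hx : m ≤ x) :
    deg E x = 0 := deg_eq_zero h.lt hx

theorem Valid.step {m : ℕ} {E : ESet} (h : Valid m E) {v : ℕ} (hv : v < m) :
    Valid (m + 1) (insert s(v, m) E) := by
  refine ⟨?_, ?_, ?_, ?_⟩
  · intro e he x hx
    rcases mem_insert.1 he with rfl | he
    · rcases Sym2.mem_iff.1 hx with rfl | rfl <;> omega
    · have := h.lt e he x hx; omega
  · intro x hx
    rcases mem_insert.1 hx with hx | hx
    · rw [Sym2.eq_iff] at hx; omega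
    · exact h.irrefl x hx
  · rw [card_insert_of_notMem (h.not_mem v), h.card]
  · intro x hx
    rw [deg_insert (h.not_mem v)]
    by_cases hxm : x = m
    · simp [hxm]
    · have := h.pos x (by omega)
      omega

theorem Valid.sum_deg {m : ℕ} {E : ESet} (h : Valid m E) :
    ∑ v ∈ range m, deg E v = 2 * E.card := by
  unfold deg
  simp_rw [card_filter]
  rw [sum_comm]
  have : ∀ e ∈ E, (∑ v ∈ range m, if v ∈ e then 1 else 0) = 2 := by
    intro e he
    induction e using Sym2.ind with
    | _ a b =>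
      have hab : a ≠ b := by
        rintro rfl
        exact h.irrefl _ he
      have ha : a < m := h.lt _ he a (by simp)
      have hb : b < m := h.lt _ he b (by simp)
      rw [← card_filter]
      have : (range m).filter (fun v => v ∈ s(a, b)) = {a, b} := by
        ext x
        simp only [mem_filter, mem_range, Sym2.mem_iff, mem_insert, mem_singleton]
        constructor
        · exact fun h => h.2
        · rintro (rfl | rfl) <;> simp_all
      rw [this, card_pair hab]
  rw [sum_congr rfl this, sum_const, smul_eq_mul, mul_comm]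

section weights

variable {α : ℝ}

theorem rpow_diff_le (hα0 : 0 < α) (hα1 : α < 1) {d : ℝ} (hd : 1 ≤ d) :
    (d + 1) ^ α + 1 ≤ (2:ℝ) ^ α + d ^ α := by
  have hconc := Real.concaveOn_rpow hα0.le hα1.le
  have hd0 : 0 < d := by linarith
  set t : ℝ := 1 / d with ht
  have ht0 : 0 ≤ t := by positivity
  have ht1 : t ≤ 1 := by rw [ht, div_le_one hd0]; exact hd
  have m1 : (1:ℝ) ∈ Set.Ici (0:ℝ) := by simp
  have m2 : d + 1 ∈ Set.Ici (0:ℝ) := by simp; linarith
  have h1 := hconc.2 m1 m2 (show (0:ℝ) ≤ 1 - t by linarith) ht0 (by ring)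
  have h2 := hconc.2 m1 m2 ht0 (show (0:ℝ) ≤ 1 - t by linarith) (by ring)
  simp only [smul_eq_mul, Real.one_rpow, mul_one] at h1 h2
  have e1 : 1 - t + t * (d + 1) = 2 := by rw [ht]; field_simp; ring
  have e2 : t + (1 - t) * (d + 1) = d := by rw [ht]; field_simp; ring
  rw [e1] at h1
  rw [e2] at h2
  linarith

theorem Valid.le_W {m : ℕ} {E : ESet} (h : Valid m E) (hα0 : 0 < α) : (m : ℝ) ≤ W α m E := by
  unfold W
  calc (m : ℝ) = ∑ v ∈ range m, (1:ℝ) := by simp
    _ ≤ _ := by
      apply sum_le_sum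
      intro v hv
      have := h.pos v (mem_range.1 hv)
      exact Real.one_le_rpow (by exact_mod_cast this) hα0.le

theorem Valid.W_pos {m : ℕ} {E : ESet} (h : Valid m E) (hα0 : 0 < α) (hm : 1 ≤ m) :
    0 < W α m E := lt_of_lt_of_le (by exact_mod_cast hm) (h.le_W hα0)

theorem Valid.W_le {m : ℕ} {E : ESet} (h : Valid m E) (hα0 : 0 < α) (hα1 : α < 1) :
    W α m E ≤ (2:ℝ) ^ α * m := by
  have key : ∀ v ∈ range m, ((deg E v : ℝ)) ^ α ≤ (2:ℝ)^α * (1 + α * ((deg E v : ℝ) / 2 - 1)) := by
    intro v hv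
    have h1 := rpow_one_add_le_one_add_mul_self (s := (deg E v : ℝ) / 2 - 1) (p := α)
      (by have : (0:ℝ) ≤ (deg E v : ℝ) := by positivity
          linarith) hα0.le hα1.le
    have h2 : (deg E v : ℝ) ^ α = (2:ℝ)^α * (1 + ((deg E v : ℝ) / 2 - 1)) ^ α := by
      rw [← Real.mul_rpow (by norm_num) (by ring_nf; positivity)]
      congr 1; ring
    rw [h2]
    exact mul_le_mul_of_nonneg_left h1 (by positivity)
  unfold W
  refine (sum_le_sum key).trans ?_
  rw [← mul_sum]
  apply mul_le_mul_of_nonneg_left _ (by positivity)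
  have hs : (∑ v ∈ range m, (deg E v : ℝ)) = 2 * (m - 1) := by
    have := h.sum_deg
    have h3 : ((∑ v ∈ range m, deg E v : ℕ) : ℝ) = 2 * (E.card : ℝ) := by rw [this]; push_cast; ring
    push_cast at h3
    rw [h3]
    have : ((E.card + 1 : ℕ) : ℝ) = m := by rw [h.card]
    push_cast at this
    linarith
  rw [sum_add_distrib, ← mul_sum, sum_sub_distrib, ← sum_div, hs]
  simp only [sum_const, card_range, nsmul_eq_mul, mul_one]
  nlinarith

theorem Valid.W_step {m : ℕ} {E : ESet} (h : Valid m E) {v : ℕ} (hv : v < m) :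
    W α (m + 1) (insert s(v, m) E) = W α m E + 1 + (((deg E v : ℝ) + 1) ^ α - (deg E v : ℝ) ^ α) := by
  unfold W
  rw [sum_range_succ]
  have h1 : deg (insert s(v, m) E) m = 1 := by
    rw [deg_insert (h.not_mem v), h.deg_zero le_rfl]; simp
  rw [h1]
  have h2 : ∀ x ∈ range m, ((deg (insert s(v, m) E) x : ℝ)) ^ α =
      (deg E x : ℝ) ^ α + if x = v then (((deg E v : ℝ) + 1) ^ α - (deg E v : ℝ) ^ α) else 0 := by
    intro x hx
    have hx' := mem_range.1 hx
    rw [deg_insert (h.not_mem v)]
    by_cases hxv : x = v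
    · subst hxv
      simp
    · have : ¬ (x = v ∨ x = m) := by omega
      rw [if_neg this, if_neg hxv]
      simp
  rw [sum_congr rfl h2, sum_add_distrib, sum_ite_eq' (range m) v, if_pos (mem_range.2 hv)]
  simp
  ring

theorem Valid.W_step_ge {m : ℕ} {E : ESet} (h : Valid m E) (hα0 : 0 < α) {v : ℕ} (hv : v < m) :
    W α m E + 1 ≤ W α (m + 1) (insert s(v, m) E) := by
  rw [h.W_step hv]
  have : (deg E v : ℝ) ^ α ≤ ((deg E v : ℝ) + 1) ^ α :=
    Real.rpow_le_rpow (by positivity) (by linarith) hα0.le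
  linarith

theorem Valid.W_step_le {m : ℕ} {E : ESet} (h : Valid m E) (hα0 : 0 < α) (hα1 : α < 1)
    {v : ℕ} (hv : v < m) :
    W α (m + 1) (insert s(v, m) E) ≤ W α m E + (2:ℝ) ^ α := by
  rw [h.W_step hv]
  have h1 : (1:ℝ) ≤ deg E v := by exact_mod_cast h.pos v hv
  have := rpow_diff_le hα0 hα1 h1
  linarith

end weights

/-! ### coloured states and weighted path sums -/

/-- a coloured state -/
@[ext]
structure St (C : Type*) where
  E : ESet
  col : ℕ → C

variable {C : Type*}

/-- attach the new vertex `m` of colour `c` to `v` -/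
def St.step (s : St C) (m v : ℕ) (c : C) : St C :=
  ⟨insert s(v, m) s.E, Function.update s.col m c⟩

@[simp] theorem St.step_E (s : St C) (m v : ℕ) (c : C) : (s.step m v c).E = insert s(v, m) s.E := rfl
@[simp] theorem St.step_col (s : St C) (m v : ℕ) (c : C) :
    (s.step m v c).col = Function.update s.col m c := rfl

theorem St.step_col_self (s : St C) (m v : ℕ) (c : C) : (s.step m v c).col m = c := by simp

theorem St.step_col_of_ne (s : St C) (m v : ℕ) (c : C) {x : ℕ} (hx : x ≠ m) :
    (s.step m v c).col x = s.col x := by simp [hx]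

/-- weighted path sums: `itr g m d Θ s` is the sum over all sequences of `d` steps starting from
the state `s` at level `m`, of the product of the step weights times `Θ` of the final state -/
noncomputable def itr [Fintype C] (g : ℕ → St C → ℕ → C → ℝ) :
    ℕ → ℕ → (St C → ℝ) → St C → ℝ
  | _, 0, Θ, s => Θ s
  | m, d + 1, Θ, s => ∑ v ∈ range m, ∑ c, g m s v c * itr g (m + 1) d Θ (s.step m v c)

section itr

variable [Fintype C] {g g' : ℕ → St C → ℕ → C → ℝ}

@[simp] theorem itr_zero (m : ℕ) (Θ : St C → ℝ) (s : St C) : itr g m 0 Θ s = Θ s := rfl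

theorem itr_succ (m d : ℕ) (Θ : St C → ℝ) (s : St C) :
    itr g m (d + 1) Θ s = ∑ v ∈ range m, ∑ c, g m s v c * itr g (m + 1) d Θ (s.step m v c) := rfl

theorem itr_nonneg (hg : ∀ m s v c, 0 ≤ g m s v c) {Θ : St C → ℝ} (hΘ : ∀ s, 0 ≤ Θ s) :
    ∀ (d m : ℕ) (s : St C), 0 ≤ itr g m d Θ s := by
  intro d
  induction d with
  | zero => intro m s; exact hΘ s
  | succ d ih =>
    intro m s
    exact sum_nonneg fun v _ => sum_nonneg fun c _ => mul_nonneg (hg _ _ _ _) (ih _ _)

/-- comparison of path sums along an invariant -/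
theorem itr_le_inv (Inv : ℕ → St C → Prop) (hg'0 : ∀ m s v c, 0 ≤ g' m s v c) {Θ Θ' : St C → ℝ}
    (hΘ'0 : ∀ s, 0 ≤ Θ' s) (N : ℕ)
    (hstep : ∀ x s v c, x < N → v < x → Inv x s → g x s v c ≠ 0 → Inv (x + 1) (s.step x v c))
    (hg : ∀ x s v c, x < N → v < x → Inv x s → 0 ≤ g x s v c ∧ g x s v c ≤ g' x s v c)
    (hΘ : ∀ s, Inv N s → Θ s ≤ Θ' s) :
    ∀ (d m : ℕ) (s : St C), m + d = N → Inv m s → itr g m d Θ s ≤ itr g' m d Θ' s := by
  intro d
  induction d with
  | zero =>
    intro m s hm hs
    have : m = N := by omega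
    subst this
    exact hΘ s hs
  | succ d ih =>
    intro m s hm hs
    rw [itr_succ, itr_succ]
    apply sum_le_sum
    intro v hv
    apply sum_le_sum
    intro c _
    have hv' := mem_range.1 hv
    obtain ⟨h0, h1⟩ := hg m s v c (by omega) hv' hs
    by_cases hz : g m s v c = 0
    · rw [hz, zero_mul]
      exact mul_nonneg (hg'0 _ _ _ _) (itr_nonneg hg'0 hΘ'0 _ _ _)
    · have h2 := ih (m + 1) (s.step m v c) (by omega) (hstep m s v c (by omega) hv' hs hz)
      calc g m s v c * itr g (m + 1) d Θ (s.step m v c)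
          ≤ g m s v c * itr g' (m + 1) d Θ' (s.step m v c) := mul_le_mul_of_nonneg_left h2 h0
        _ ≤ g' m s v c * itr g' (m + 1) d Θ' (s.step m v c) :=
            mul_le_mul_of_nonneg_right h1 (itr_nonneg hg'0 hΘ'0 _ _ _)

/-- two path sums agree if they agree along an invariant -/
theorem itr_congr_inv (Inv : ℕ → St C → Prop) {Θ Θ' : St C → ℝ} (N : ℕ)
    (hstep : ∀ x s v c, x < N → v < x → Inv x s → g x s v c ≠ 0 → Inv (x + 1) (s.step x v c))
    (hg : ∀ x s v c, x < N → v < x → Inv x s → g x s v c = g' x s v c)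
    (hΘ : ∀ s, Inv N s → Θ s = Θ' s) :
    ∀ (d m : ℕ) (s : St C), m + d = N → Inv m s → itr g m d Θ s = itr g' m d Θ' s := by
  intro d
  induction d with
  | zero =>
    intro m s hm hs
    have : m = N := by omega
    subst this
    exact hΘ s hs
  | succ d ih =>
    intro m s hm hs
    rw [itr_succ, itr_succ]
    apply sum_congr rfl
    intro v hv
    apply sum_congr rfl
    intro c _
    have hv' := mem_range.1 hv
    rw [← hg m s v c (by omega) hv' hs]
    by_cases hz : g m s v c = 0
    · rw [hz, zero_mul, zero_mul]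
    · rw [ih (m + 1) (s.step m v c) (by omega) (hstep m s v c (by omega) hv' hs hz)]

theorem itr_add (Θ Θ' : St C → ℝ) :
    ∀ (d m : ℕ) (s : St C), itr g m d (fun s => Θ s + Θ' s) s = itr g m d Θ s + itr g m d Θ' s := by
  intro d
  induction d with
  | zero => intro m s; rfl
  | succ d ih =>
    intro m s
    simp only [itr_succ, ih, mul_add, sum_add_distrib]

theorem itr_const_mul (a : ℝ) (Θ : St C → ℝ) :
    ∀ (d m : ℕ) (s : St C), itr g m d (fun s => a * Θ s) s = a * itr g m d Θ s := by
  intro d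
  induction d with
  | zero => intro m s; rfl
  | succ d ih =>
    intro m s
    simp only [itr_succ, ih, mul_sum]
    apply sum_congr rfl; intro v _
    apply sum_congr rfl; intro c _
    ring

theorem itr_sum {ι : Type*} (T : Finset ι) (Θ : ι → St C → ℝ) :
    ∀ (d m : ℕ) (s : St C),
      itr g m d (fun s => ∑ i ∈ T, Θ i s) s = ∑ i ∈ T, itr g m d (Θ i) s := by
  intro d
  induction d with
  | zero => intro m s; rfl
  | succ d ih =>
    intro m s
    simp only [itr_succ, ih, mul_sum]
    rw [sum_comm (s := T)]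
    apply sum_congr rfl; intro v _
    rw [sum_comm]

/-- composition of path sums -/
theorem itr_comp (Θ : St C → ℝ) :
    ∀ (a b m : ℕ) (s : St C), itr g m (a + b) Θ s = itr g m a (itr g (m + a) b Θ) s := by
  intro a
  induction a with
  | zero => intro b m s; simp
  | succ a ih =>
    intro b m s
    rw [show a + 1 + b = (a + b) + 1 by omega, itr_succ, itr_succ]
    apply sum_congr rfl; intro v _
    apply sum_congr rfl; intro c _
    rw [ih b (m + 1), show m + 1 + a = m + (a + 1) by omega]

end itr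

end SeedPA
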