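import Mathlib

/-!
# Preferential attachment trees with attachment exponent `α`: definitions

`PA α n S` is the law of the unlabeled tree `PA_α(n, S)`.
-/

open scoped ENNReal

namespace SeedPA

/-- finite graphs; the vertex set is `Fin n` -/
abbrev FG : Type := Σ n : ℕ, SimpleGraph (Fin n)

/-- isomorphism of finite graphs is an equivalence relation -/
instance isoSetoid : Setoid FG where
  r G H := Nonempty (G.2 ≃g H.2)
  iseqv := ⟨fun _ => ⟨RelIso.refl _⟩, fun ⟨e⟩ => ⟨e.symm⟩, fun ⟨e⟩ ⟨f⟩ => ⟨e.trans f⟩⟩

/-- unlabeled finite graphs, i.e. isomorphism classes of finite graphs -/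
abbrev Unlab : Type := Quotient isoSetoid

/-- the degree of a vertex -/
noncomputable def dg {n : ℕ} (G : SimpleGraph (Fin n)) (v : Fin n) : ℕ := (G.neighborSet v).ncard

/-- the graph `G` on `Fin n` with one new vertex `Fin.last n`, joined by an edge to the vertex
`v` of `G` and to nothing else -/
def attach {n : ℕ} (G : SimpleGraph (Fin n)) (v : Fin n) : SimpleGraph (Fin (n + 1)) :=
  G.map Fin.castSuccEmb ⊔ SimpleGraph.edge v.castSucc (Fin.last n)

/-- the attachment weight `deg(v)^α` -/
noncomputable def wgt (α : ℝ) {n : ℕ} (G : SimpleGraph (Fin n)) (v : Fin n) : ℝ≥0∞ :=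
  ENNReal.ofReal ((dg G v : ℝ) ^ α)

theorem tsum_wgt_ne_top (α : ℝ) {n : ℕ} (G : SimpleGraph (Fin n)) : ∑' v, wgt α G v ≠ ∞ := by
  rw [tsum_fintype]
  exact ENNReal.sum_ne_top.2 fun v _ => ENNReal.ofReal_ne_top

/-- one attachment step: a vertex `v` of `G` is chosen with probability
`deg(v)^α / ∑_w deg(w)^α` and `G` is replaced by `attach G v`.  (If all the weights vanish, which
does not happen for a tree with at least two vertices, the new graph is the empty graph.) -/
noncomputable def paStep (α : ℝ) (G : FG) : PMF FG :=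
  open Classical in
  if h : ∑' v, wgt α G.2 v ≠ 0 then
    (PMF.normalize (wgt α G.2) h (tsum_wgt_ne_top α G.2)).map
      fun v => (⟨G.1 + 1, attach G.2 v⟩ : FG)
  else PMF.pure (⟨G.1 + 1, ⊥⟩ : FG)

/-- the law of the labelled graph after `d` attachment steps started from `S` -/
noncomputable def paLaw (α : ℝ) (S : FG) : ℕ → PMF FG
  | 0 => PMF.pure S
  | d + 1 => (paLaw α S d).bind (paStep α)

/-- the law of the unlabeled tree `PA_α(n, S)` for `n ≥ |S|` -/
noncomputable def PA (α : ℝ) (n : ℕ) (S : FG) : PMF Unlab :=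
  (paLaw α S (n - S.1)).map (Quotient.mk isoSetoid)

/-- the total variation distance of two discrete probability laws -/
noncomputable def dTV {X : Type*} (p q : PMF X) : ℝ :=
  (∑' x, |(p x).toReal - (q x).toReal|) / 2

end SeedPA
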