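import Mathlib

/-!
# The delay lemma (abstract form)

If the `B`-side of a growing structure must have size at most `β` at the horizon `h`, then the
contribution of the next `B`-steps is at most `(β - |B|) / ξ_m` times the value.
-/

open Finset

namespace SeedPA

/-- `ξ_m`, with `1 + ξ_m = ∏_{l=m}^{h-1} (1 + 1/(κ l))` -/
noncomputable def xi (κ : ℝ) (h m : ℕ) : ℝ := ∏ l ∈ Ico m h, (1 + 1 / (κ * l)) - 1

theorem xi_self (κ : ℝ) (h : ℕ) : xi κ h h = 0 := by simp [xi]

theorem xi_step {κ : ℝ} {h m : ℕ} (hm : m < h) :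
    1 + xi κ h m = (1 + 1 / (κ * m)) * (1 + xi κ h (m + 1)) := by
  unfold xi
  rw [← Finset.prod_Ioo_mul_eq_prod_Ico hm, ← Finset.Ico_succ_left_eq_Ioo]
  simp only [Order.succ_eq_add_one]
  ring

theorem xi_nonneg {κ : ℝ} (hκ : 0 < κ) (h m : ℕ) : 0 ≤ xi κ h m := by
  unfold xi
  have : (1:ℝ) ≤ ∏ l ∈ Ico m h, (1 + 1 / (κ * l)) := by
    calc (1:ℝ) = ∏ _l ∈ Ico m h, (1:ℝ) := by simp
      _ ≤ _ := by
        apply prod_le_prod
        · intro l _; norm_num
        · intro l _
          have : 0 ≤ 1 / (κ * (l:ℝ)) := by positivity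
          linarith
  linarith

theorem xi_pos {κ : ℝ} (hκ : 0 < κ) {h m : ℕ} (hm0 : 1 ≤ m) (hm : m < h) : 0 < xi κ h m := by
  have h1 := xi_step (κ := κ) hm
  have h2 := xi_nonneg hκ h (m+1)
  have h3 : 0 < 1 / (κ * (m:ℝ)) := by
    have : (0:ℝ) < m := by exact_mod_cast hm0
    positivity
  nlinarith

variable {X ι : Type*}

/-- The data of an abstract two-sided growth structure. -/
structure TwoSided (X ι : Type*) where
  Dom : ℕ → X → Prop
  TB : ℕ → X → Finset ι
  TA : ℕ → X → Finset ι
  wB : ℕ → X → ι → ℝ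
  wA : ℕ → X → ι → ℝ
  nB : ℕ → X → ι → X
  nA : ℕ → X → ι → X
  Wt : ℕ → X → ℝ
  b : ℕ → X → ℕ

/-- contribution of the `B`-steps -/
def TwoSided.uB (D : TwoSided X ι) (m : ℕ) (f : X → ℝ) (x : X) : ℝ :=
  ∑ i ∈ D.TB m x, D.wB m x i * f (D.nB m x i)

/-- contribution of the `A`-steps -/
def TwoSided.uA (D : TwoSided X ι) (m : ℕ) (f : X → ℝ) (x : X) : ℝ :=
  ∑ i ∈ D.TA m x, D.wA m x i * f (D.nA m x i)

theorem delay_abs (D : TwoSided X ι) {κ : ℝ} (hκ : 0 < κ) {h β m0 : ℕ} (hm0 : 1 ≤ m0)
    {R : ℕ → X → ℝ}
    (hwB : ∀ m x i, 0 ≤ D.wB m x i) (hwA : ∀ m x i, 0 ≤ D.wA m x i)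
    (hDB : ∀ m x i, m0 ≤ m → m < h → D.Dom m x → i ∈ D.TB m x → D.wB m x i ≠ 0 →
      D.Dom (m+1) (D.nB m x i) ∧ D.b (m+1) (D.nB m x i) = D.b m x + 1 ∧
        D.Wt m x + 1 ≤ D.Wt (m+1) (D.nB m x i))
    (hDA : ∀ m x i, m0 ≤ m → m < h → D.Dom m x → i ∈ D.TA m x → D.wA m x i ≠ 0 →
      D.Dom (m+1) (D.nA m x i) ∧ D.b (m+1) (D.nA m x i) = D.b m x)
    (hW : ∀ m x, m0 ≤ m → m < h → D.Dom m x → 0 < D.Wt m x ∧ D.Wt m x ≤ κ * m)
    (hrec : ∀ m x, m0 ≤ m → m < h → D.Dom m x →
      D.Wt m x * R m x = D.uB m (R (m+1)) x + D.uA m (R (m+1)) x)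
    (hcomm : ∀ m x, m0 ≤ m → m + 2 ≤ h → D.Dom m x →
      D.uB m (D.uA (m+1) (R (m+2))) x ≤ D.uA m (D.uB (m+1) (R (m+2))) x)
    (hR : ∀ m x, 0 ≤ R m x)
    (hz : ∀ x, D.Dom h x → β < D.b h x → R h x = 0) :
    ∀ m x, m0 ≤ m → m < h → D.Dom m x → D.b m x ≤ β →
      D.uB m (R (m+1)) x ≤ (β - D.b m x) / xi κ h m * R m x := by
  -- vanishing beyond `β`
  have hvan : ∀ d m x, m0 ≤ m → m + d = h → D.Dom m x → β < D.b m x → R m x = 0 := by
    intro d
    induction d with
    | zero =>
      intro m x _ hm hx hb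
      have : m = h := by omega
      subst this
      exact hz x hx hb
    | succ d ih =>
      intro m x hm1 hm hx hb
      have h1 := hrec m x hm1 (by omega) hx
      have hB : D.uB m (R (m+1)) x = 0 := by
        apply sum_eq_zero
        intro i hi
        by_cases hwi : D.wB m x i = 0
        · rw [hwi, zero_mul]
        · obtain ⟨a1, a2, _⟩ := hDB m x i hm1 (by omega) hx hi hwi
          rw [ih (m+1) _ (by omega) (by omega) a1 (by omega), mul_zero]
      have hA : D.uA m (R (m+1)) x = 0 := by
        apply sum_eq_zero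
        intro i hi
        by_cases hwi : D.wA m x i = 0
        · rw [hwi, zero_mul]
        · obtain ⟨a1, a2⟩ := hDA m x i hm1 (by omega) hx hi hwi
          rw [ih (m+1) _ (by omega) (by omega) a1 (by omega), mul_zero]
      rw [hB, hA, add_zero] at h1
      have := (hW m x hm1 (by omega) hx).1
      exact (mul_eq_zero.1 h1).resolve_left this.ne'
  have main : ∀ d m x, m0 ≤ m → m + (d + 1) = h → D.Dom m x → D.b m x ≤ β →
      D.uB m (R (m+1)) x ≤ (β - D.b m x) / xi κ h m * R m x := by
    intro d
    induction d with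
    | zero =>
      intro m x hm1 hm hx hb
      have hmh : m < h := by omega
      have hmpos : (0:ℝ) < m := by exact_mod_cast (by omega : 0 < m)
      have hxi : xi κ h m = 1 / (κ * m) := by
        have h1 := xi_step (κ := κ) hmh
        have h2 : m + 1 = h := by omega
        rw [h2, xi_self] at h1
        linarith
      obtain ⟨hWp, hWl⟩ := hW m x hm1 hmh hx
      have h1 := hrec m x hm1 hmh hx
      have hA0 : 0 ≤ D.uA m (R (m+1)) x :=
        sum_nonneg fun i _ => mul_nonneg (hwA _ _ _) (hR _ _)
      by_cases hbb : D.b m x = β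
      · have hB : D.uB m (R (m+1)) x = 0 := by
          apply sum_eq_zero
          intro i hi
          by_cases hwi : D.wB m x i = 0
          · rw [hwi, zero_mul]
          · obtain ⟨a1, a2, _⟩ := hDB m x i hm1 hmh hx hi hwi
            rw [hvan 0 (m+1) _ (by omega) (by omega) a1 (by omega), mul_zero]
        rw [hB, hbb]
        simp
      · have hb1 : (1:ℝ) ≤ (β:ℝ) - D.b m x := by
          have : D.b m x + 1 ≤ β := by omega
          have : ((D.b m x + 1 : ℕ) : ℝ) ≤ β := by exact_mod_cast this
          push_cast at this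
          linarith
        have h3 : D.uB m (R (m+1)) x ≤ κ * m * R m x := by
          calc D.uB m (R (m+1)) x ≤ D.Wt m x * R m x := by linarith
            _ ≤ κ * m * R m x := mul_le_mul_of_nonneg_right hWl (hR _ _)
        rw [hxi]
        calc D.uB m (R (m+1)) x ≤ κ * m * R m x := h3
          _ = 1 * (κ * m * R m x) := by ring
          _ ≤ (β - D.b m x) * (κ * m * R m x) :=
              mul_le_mul_of_nonneg_right hb1 (mul_nonneg (by positivity) (hR _ _))
          _ = (β - D.b m x) / (1 / (κ * m)) * R m x := by field_simp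
    | succ d ih =>
      intro m x hm1 hm hx hb
      have hmh : m < h := by omega
      have hmpos : (0:ℝ) < m := by exact_mod_cast (by omega : 0 < m)
      obtain ⟨hWp, hWl⟩ := hW m x hm1 hmh hx
      have h1 := hrec m x hm1 hmh hx
      have hxi' : 0 < xi κ h (m+1) := xi_pos hκ (by omega) (by omega)
      have hxi : 0 < xi κ h m := xi_pos hκ (by omega) hmh
      set ξ := xi κ h m with hξdef
      set ξ' := xi κ h (m+1) with hξ'def
      have hstep : 1 + ξ = (1 + 1 / (κ * m)) * (1 + ξ') := xi_step hmh
      set r : ℝ := β - D.b m x with hr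
      set u := D.uB m (R (m+1)) x with hu
      set al := D.uA m (R (m+1)) x with hal
      have hu0 : 0 ≤ u := sum_nonneg fun i _ => mul_nonneg (hwB _ _ _) (hR _ _)
      by_cases hbb : D.b m x = β
      · have hB : u = 0 := by
          apply sum_eq_zero
          intro i hi
          by_cases hwi : D.wB m x i = 0
          · rw [hwi, zero_mul]
          · obtain ⟨a1, a2, _⟩ := hDB m x i hm1 hmh hx hi hwi
            rw [hvan (d+1) (m+1) _ (by omega) (by omega) a1 (by omega), mul_zero]
        rw [hB, hr, hbb]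
        simp
      · have hr1 : 1 ≤ r := by
          have : D.b m x + 1 ≤ β := by omega
          have : ((D.b m x + 1 : ℕ) : ℝ) ≤ β := by exact_mod_cast this
          push_cast at this
          rw [hr]; linarith
        -- step 1
        have s1 : (D.Wt m x + 1) * u ≤ D.uB m (fun y => D.Wt (m+1) y * R (m+1) y) x := by
          rw [hu]
          unfold TwoSided.uB
          rw [mul_sum]
          apply sum_le_sum
          intro i hi
          by_cases hwi : D.wB m x i = 0
          · simp [hwi]
          · obtain ⟨a1, a2, a3⟩ := hDB m x i hm1 hmh hx hi hwi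
            have : (D.Wt m x + 1) * R (m+1) (D.nB m x i) ≤
                D.Wt (m+1) (D.nB m x i) * R (m+1) (D.nB m x i) :=
              mul_le_mul_of_nonneg_right a3 (hR _ _)
            calc (D.Wt m x + 1) * (D.wB m x i * R (m+1) (D.nB m x i))
                = D.wB m x i * ((D.Wt m x + 1) * R (m+1) (D.nB m x i)) := by ring
              _ ≤ _ := mul_le_mul_of_nonneg_left this (hwB _ _ _)
        have s2 : D.uB m (fun y => D.Wt (m+1) y * R (m+1) y) x =
            D.uB m (D.uB (m+1) (R (m+2))) x + D.uB m (D.uA (m+1) (R (m+2))) x := by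
          unfold TwoSided.uB
          rw [← sum_add_distrib]
          apply sum_congr rfl
          intro i hi
          by_cases hwi : D.wB m x i = 0
          · simp [hwi]
          · obtain ⟨a1, a2, a3⟩ := hDB m x i hm1 hmh hx hi hwi
            have := hrec (m+1) _ (by omega) (by omega) a1
            simp only [this]
            unfold TwoSided.uB
            ring
        have s3 : D.uB m (D.uB (m+1) (R (m+2))) x ≤ (r - 1) / ξ' * u := by
          rw [hu]
          unfold TwoSided.uB
          rw [mul_sum]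
          apply sum_le_sum
          intro i hi
          by_cases hwi : D.wB m x i = 0
          · simp [hwi]
          · obtain ⟨a1, a2, a3⟩ := hDB m x i hm1 hmh hx hi hwi
            have hb' : D.b (m+1) (D.nB m x i) ≤ β := by omega
            have := ih (m+1) _ (by omega) (by omega) a1 hb'
            rw [a2] at this
            have e : ((β:ℝ) - ((D.b m x + 1 : ℕ) : ℝ)) = r - 1 := by push_cast; rw [hr]; ring
            rw [e] at this
            unfold TwoSided.uB at this
            calc D.wB m x i * _ ≤ D.wB m x i * ((r - 1) / ξ' * R (m+1) (D.nB m x i)) :=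
                  mul_le_mul_of_nonneg_left this (hwB _ _ _)
              _ = _ := by ring
        have s4 : D.uB m (D.uA (m+1) (R (m+2))) x ≤ r / ξ' * al := by
          refine (hcomm m x hm1 (by omega) hx).trans ?_
          rw [hal]
          unfold TwoSided.uA
          rw [mul_sum]
          apply sum_le_sum
          intro i hi
          by_cases hwi : D.wA m x i = 0
          · simp [hwi]
          · obtain ⟨a1, a2⟩ := hDA m x i hm1 hmh hx hi hwi
            have := ih (m+1) _ (by omega) (by omega) a1 (by omega)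
            rw [a2, ← hr] at this
            calc D.wA m x i * _ ≤ D.wA m x i * (r / ξ' * R (m+1) (D.nA m x i)) :=
                  mul_le_mul_of_nonneg_left this (hwA _ _ _)
              _ = _ := by ring
        have s5 : (D.Wt m x + 1) * u ≤ (r - 1) / ξ' * u + r / ξ' * al := by
          rw [s2] at s1; linarith
        have s6 : al = D.Wt m x * R m x - u := by linarith
        rw [s6] at s5
        have s7 : ((D.Wt m x + 1) * ξ' + 1) * u ≤ r * (D.Wt m x * R m x) := by
          have h5 : (D.Wt m x + 1) * u * ξ' ≤ ((r - 1) / ξ' * u + r / ξ' * (D.Wt m x * R m x - u)) * ξ' :=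
            mul_le_mul_of_nonneg_right s5 hxi'.le
          have h6 : ((r - 1) / ξ' * u + r / ξ' * (D.Wt m x * R m x - u)) * ξ' =
              (r - 1) * u + r * (D.Wt m x * R m x - u) := by
            field_simp
          rw [h6] at h5
          nlinarith
        have s8 : D.Wt m x * ξ ≤ (D.Wt m x + 1) * ξ' + 1 := by
          have e1 : ξ - ξ' = 1 / (κ * m) * (1 + ξ') := by linarith
          have e2 : D.Wt m x * (1 / (κ * m)) ≤ 1 := by
            rw [mul_one_div, div_le_one (by positivity)]
            exact hWl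
          have e3 : D.Wt m x * (ξ - ξ') ≤ 1 + ξ' := by
            rw [e1, ← mul_assoc]
            calc _ ≤ 1 * (1 + ξ') := mul_le_mul_of_nonneg_right e2 (by linarith)
              _ = _ := one_mul _
          nlinarith
        -- conclude
        rw [div_mul_eq_mul_div, le_div_iff₀ hxi]
        have h9 : D.Wt m x * (u * ξ) ≤ D.Wt m x * (r * R m x) := by
          calc D.Wt m x * (u * ξ) = (D.Wt m x * ξ) * u := by ring
            _ ≤ ((D.Wt m x + 1) * ξ' + 1) * u := mul_le_mul_of_nonneg_right s8 hu0
            _ ≤ r * (D.Wt m x * R m x) := s7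
            _ = _ := by ring
        exact le_of_mul_le_mul_left h9 hWp
  intro m x hm1 hm hx hb
  exact main (h - m - 1) m x hm1 (by omega) hx hb

end SeedPA
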