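import Pool.Agent.SeedPA.Perm

/-!
# Policies, hub colourings and the value functions
-/

open Finset

namespace SeedPA

variable {C : Type*}

open Classical in
/-- step weights of a policy: `1/W` for allowed steps -/
noncomputable def gP (α : ℝ) (pol : ℕ → St C → ℕ → C → Prop) (m : ℕ) (s : St C) (v : ℕ) (c : C) : ℝ :=
  if pol m s v c then (W α m s.E)⁻¹ else 0

theorem gP_nonneg {α : ℝ} {pol : ℕ → St C → ℕ → C → Prop} (m : ℕ) (s : St C) (v : ℕ) (c : C) :
    0 ≤ gP α pol m s v c := by
  unfold gP
  split_ifs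
  · exact inv_nonneg.2 (sum_nonneg fun _ _ => by positivity)
  · exact le_rfl

/-- a policy is equivariant -/
def PInv (pol : ℕ → St C → ℕ → C → Prop) : Prop :=
  ∀ m, ∀ σ : Equiv.Perm ℕ, FixGE m σ → ∀ s v c, v < m → (pol m (s.perm σ) (σ v) c ↔ pol m s v c)

theorem PInv.gInv {α : ℝ} {pol : ℕ → St C → ℕ → C → Prop} (h : PInv pol) (m0 : ℕ) :
    GInv m0 (gP α pol) := by
  intro m hm σ hσ s v c hv
  unfold gP
  rw [h m σ (hσ.mono hm) s v c hv, St.perm_E, W_permE (hσ.mono hm)]

section rec
variable [Fintype C] {α : ℝ} {pol : ℕ → St C → ℕ → C → Prop}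

open Classical in
theorem val_rec {m d : ℕ} {Θ : St C → ℝ} {s : St C} (hW : 0 < W α m s.E) :
    W α m s.E * itr (gP α pol) m (d + 1) Θ s =
      ∑ v ∈ range m, ∑ c, if pol m s v c then itr (gP α pol) (m + 1) d Θ (s.step m v c) else 0 := by
  rw [itr_succ, mul_sum]
  apply sum_congr rfl; intro v _
  rw [mul_sum]
  apply sum_congr rfl; intro c _
  unfold gP
  split_ifs with h
  · rw [← mul_assoc, mul_inv_cancel₀ hW.ne', one_mul]
  · simp

end rec

open Classical in
/-- commutation of two kinds of steps for a functional which is invariant under swaps -/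
theorem comm_general [Fintype C] {m : ℕ} {s : St C} {f : St C → ℝ}
    {wB wA : ℕ → St C → ℕ → C → ℝ}
    (hwB : ∀ m s v c, 0 ≤ wB m s v c) (hwA : ∀ m s v c, 0 ≤ wA m s v c)
    (hf0 : ∀ s, 0 ≤ f s)
    (hswap : ∀ v a, v < m → a < m → ∀ c c',
      f ((s.step m v c).step (m + 1) a c') = f ((s.step m a c').step (m + 1) v c))
    (h1 : ∀ v c, v < m → wB m s v c ≠ 0 → ∀ c', wA (m + 1) (s.step m v c) m c' = 0)
    (h2 : ∀ v c a c', v < m → a < m → wB m s v c * wA (m + 1) (s.step m v c) a c' ≤
      wA m s a c' * wB (m + 1) (s.step m a c') v c) :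
    ∑ v ∈ range m, ∑ c, wB m s v c * (∑ a ∈ range (m + 1), ∑ c', wA (m + 1) (s.step m v c) a c' *
        f ((s.step m v c).step (m + 1) a c')) ≤
    ∑ a ∈ range m, ∑ c', wA m s a c' * (∑ v ∈ range (m + 1), ∑ c, wB (m + 1) (s.step m a c') v c *
        f ((s.step m a c').step (m + 1) v c)) := by
  have lhs : ∑ v ∈ range m, ∑ c, wB m s v c * (∑ a ∈ range (m + 1), ∑ c',
      wA (m + 1) (s.step m v c) a c' * f ((s.step m v c).step (m + 1) a c')) ≤
      ∑ v ∈ range m, ∑ c, ∑ a ∈ range m, ∑ c', (wA m s a c' * wB (m + 1) (s.step m a c') v c) *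
        f ((s.step m a c').step (m + 1) v c) := by
    apply sum_le_sum; intro v hv
    apply sum_le_sum; intro c _
    have hv' := mem_range.1 hv
    rw [sum_range_succ, mul_add]
    have hlast : wB m s v c * ∑ c', wA (m + 1) (s.step m v c) m c' *
        f ((s.step m v c).step (m + 1) m c') = 0 := by
      by_cases hz : wB m s v c = 0
      · rw [hz, zero_mul]
      · rw [sum_eq_zero, mul_zero]
        intro c' _
        rw [h1 v c hv' hz c', zero_mul]
    rw [hlast, add_zero, mul_sum]
    apply sum_le_sum; intro a ha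
    rw [mul_sum]
    apply sum_le_sum; intro c' _
    have ha' := mem_range.1 ha
    rw [← mul_assoc, hswap v a hv' ha']
    exact mul_le_mul_of_nonneg_right (h2 v c a c' hv' ha') (hf0 _)
  refine lhs.trans ?_
  have e : ∑ v ∈ range m, ∑ c, ∑ a ∈ range m, ∑ c', (wA m s a c' * wB (m + 1) (s.step m a c') v c) *
        f ((s.step m a c').step (m + 1) v c) =
      ∑ a ∈ range m, ∑ c', wA m s a c' * ∑ v ∈ range m, ∑ c, wB (m + 1) (s.step m a c') v c *
        f ((s.step m a c').step (m + 1) v c) := by
    simp_rw [mul_sum]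
    have : ∀ v ∈ range m, (∑ c, ∑ a ∈ range m, ∑ c', (wA m s a c' * wB (m + 1) (s.step m a c') v c) *
        f ((s.step m a c').step (m + 1) v c)) = ∑ a ∈ range m, ∑ c', ∑ c,
          (wA m s a c' * wB (m + 1) (s.step m a c') v c) * f ((s.step m a c').step (m + 1) v c) := by
      intro v _
      rw [sum_comm]
      apply sum_congr rfl; intro a _
      rw [sum_comm]
    rw [sum_congr rfl this, sum_comm]
    apply sum_congr rfl; intro a _
    rw [sum_comm]
    apply sum_congr rfl; intro c' _
    apply sum_congr rfl; intro v _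
    apply sum_congr rfl; intro c _
    ring
  rw [e]
  apply sum_le_sum; intro a _
  apply sum_le_sum; intro c' _
  apply mul_le_mul_of_nonneg_left _ (hwA _ _ _ _)
  rw [sum_range_succ]
  have : 0 ≤ ∑ c, wB (m + 1) (s.step m a c') m c * f ((s.step m a c').step (m + 1) m c) :=
    sum_nonneg fun c _ => mul_nonneg (hwB _ _ _ _) (hf0 _)
  linarith

/-! ### hub colourings -/

variable {I : Type*}

/-- non-hubs -/
def nhS (s : St (Option I)) : ℕ → Prop := fun x => s.col x = none

/-- the hub policy -/
def okStep (Z : SimpleGraph I) (m : ℕ) (s : St (Option I)) (v : ℕ) : Option I → Prop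
  | none => True
  | some i => (∀ x < m, s.col x ≠ some i) ∧
      ((∀ x < m, s.col x = none) ∨ ∃ i', s.col v = some i' ∧ Z.Adj i' i)

theorem okStep_PInv (Z : SimpleGraph I) : PInv (okStep Z) := by
  intro m σ hσ s v c hv
  cases c with
  | none => simp [okStep]
  | some i =>
    simp only [okStep, St.perm_col, Equiv.symm_apply_apply]
    have e1 : (∀ x < m, s.col (σ.symm x) ≠ some i) ↔ ∀ x < m, s.col x ≠ some i := by
      constructor
      · intro h x hx
        simpa using h (σ x) ((hσ.lt_iff x).2 hx)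
      · intro h x hx
        exact h _ ((hσ.symm.lt_iff x).2 hx)
    have e2 : (∀ x < m, s.col (σ.symm x) = none) ↔ ∀ x < m, s.col x = none := by
      constructor
      · intro h x hx
        simpa using h (σ x) ((hσ.lt_iff x).2 hx)
      · intro h x hx
        exact h _ ((hσ.symm.lt_iff x).2 hx)
    rw [e1, e2]

end SeedPA
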