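import Pool.Agent.SeedPA.Comp
import Pool.Agent.SeedPA.Delay
import Pool.Agent.SeedPA.Hub

/-!
# The delay lemma for a component which is already born
-/

open Finset

namespace SeedPA

variable {I : Type*}

theorem nhS_step {s : St (Option I)} {m v : ℕ} {c : Option I} :
    ∀ z < m, nhS (s.step m v c) z ↔ nhS s z := by
  intro z hz
  unfold nhS
  rw [St.step_col_of_ne _ _ _ _ (by omega)]

theorem nhS_step_self {s : St (Option I)} {m v : ℕ} {c : Option I} :
    nhS (s.step m v c) m ↔ c = none := by
  unfold nhS; rw [St.step_col_self]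

/-- connectedness in a coloured state -/
def Cn (s : St (Option I)) (x y : ℕ) : Prop := Conn s.E (nhS s) x y

theorem Cn_step_old {s : St (Option I)} {m v : ℕ} {c : Option I} (hs : Valid m s.E) (hv : v < m)
    {x y : ℕ} (hx : x < m) (hy : y < m) : Cn (s.step m v c) x y ↔ Cn s x y :=
  conn_insert_old hs.lt nhS_step hv hx hy

theorem Cn_step_new {s : St (Option I)} {m v : ℕ} {c : Option I} (hs : Valid m s.E) (hv : v < m)
    {x : ℕ} (hx : x < m) : Cn (s.step m v c) x m ↔ c = none ∧ nhS s v ∧ Cn s x v := by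
  unfold Cn
  rw [St.step_E, conn_insert_new hs.lt nhS_step hv hx, nhS_step_self]

/-- component size in a coloured state -/
noncomputable def cs (m : ℕ) (s : St (Option I)) (x : ℕ) : ℕ := csz m s.E (nhS s) x

open Classical in
theorem cs_step {s : St (Option I)} {m v : ℕ} {c : Option I} (hs : Valid m s.E) (hv : v < m)
    {x : ℕ} (hx : x < m) : cs (m + 1) (s.step m v c) x =
      cs m s x + if c = none ∧ nhS s v ∧ Cn s x v then 1 else 0 := by
  unfold cs
  rw [St.step_E, csz_insert_step hs.lt nhS_step hv hx]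
  have : (nhS (s.step m v c) m ∧ nhS s v ∧ Conn s.E (nhS s) x v) ↔
      (c = none ∧ nhS s v ∧ Cn s x v) := by rw [nhS_step_self]; rfl
  by_cases h : c = none ∧ nhS s v ∧ Cn s x v
  · rw [if_pos h, if_pos (this.2 h)]
  · rw [if_neg h, if_neg (fun h' => h (this.1 h'))]

theorem cs_step_old {s : St (Option I)} {m v k : ℕ} {c : Option I} (hs : Valid m s.E) (hv : v < m)
    {x : ℕ} (hx : x < m) (hk : k ≤ m) : cs k (s.step m v c) x = cs k s x := by
  unfold cs
  rw [St.step_E, csz_insert_old hs.lt nhS_step hv hx hk]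

theorem cs_new_hub {s : St (Option I)} {m v : ℕ} (hs : Valid m s.E) (hv : v < m)
    (hvh : s.col v ≠ none) : cs (m + 1) (s.step m v none) m = 1 := by
  unfold cs
  rw [St.step_E]
  exact csz_new_hub hs.lt nhS_step hv hvh (nhS_step_self.2 rfl)

theorem cs_perm {s : St (Option I)} {σ : Equiv.Perm ℕ} {m : ℕ} (hσ : FixGE m σ) (x : ℕ) :
    cs m (s.perm σ) (σ x) = cs m s x := by
  unfold cs
  exact csz_perm (E := s.E) (nh := nhS s) hσ x

/-- there is a hub among the first `m` labels -/
def HasHub (m : ℕ) (s : St (Option I)) : Prop := ∃ z < m, s.col z ≠ none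

theorem HasHub.step {m : ℕ} {s : St (Option I)} (h : HasHub m s) (v : ℕ) (c : Option I) :
    HasHub (m + 1) (s.step m v c) := by
  obtain ⟨z, hz, h⟩ := h
  exact ⟨z, by omega, by rwa [St.step_col_of_ne _ _ _ _ (by omega)]⟩

/-- if a hub is present, a hub step must attach to a hub -/
theorem okStep_hub {Z : SimpleGraph I} {m : ℕ} {s : St (Option I)} (h : HasHub m s) {v : ℕ} {i : I}
    (hok : okStep Z m s v (some i)) : s.col v ≠ none := by
  obtain ⟨z, hz, h⟩ := h
  rcases hok.2 with h' | ⟨i', h', _⟩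
  · exact absurd (h' z hz) h
  · rw [h']; simp

/-- the state-level equality of policies after a non-hub step -/
theorem okStep_step_none {Z : SimpleGraph I} {m : ℕ} {s : St (Option I)} {v a : ℕ} (ha : a < m)
    (c' : Option I) :
    okStep Z (m + 1) (s.step m v none) a c' ↔ okStep Z m s a c' := by
  cases c' with
  | none => simp [okStep]
  | some i =>
    simp only [okStep]
    have e1 : (∀ x < m + 1, (s.step m v none).col x ≠ some i) ↔ ∀ x < m, s.col x ≠ some i := by
      constructor
      · intro h x hx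
        have := h x (by omega)
        rwa [St.step_col_of_ne _ _ _ _ (by omega)] at this
      · intro h x hx
        by_cases hxm : x = m
        · rw [hxm, St.step_col_self]; simp
        · rw [St.step_col_of_ne _ _ _ _ hxm]; exact h x (by omega)
    have e2 : (∀ x < m + 1, (s.step m v none).col x = none) ↔ ∀ x < m, s.col x = none := by
      constructor
      · intro h x hx
        have := h x (by omega)
        rwa [St.step_col_of_ne _ _ _ _ (by omega)] at this
      · intro h x hx
        by_cases hxm : x = m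
        · rw [hxm, St.step_col_self]
        · rw [St.step_col_of_ne _ _ _ _ hxm]; exact h x (by omega)
    rw [e1, e2, St.step_col_of_ne _ _ _ _ (by omega)]

section born
variable [Fintype I] {α : ℝ} {Z : SimpleGraph I}

open Classical in
/-- the two-sided structure of a born component with representative `x0` -/
noncomputable def bornTS (Z : SimpleGraph I) (α : ℝ) (x0 : ℕ) :
    TwoSided (St (Option I)) (ℕ × Option I) where
  Dom := fun m s => Valid m s.E ∧ HasHub m s ∧ x0 < m ∧ nhS s x0
  TB := fun m _ => range m ×ˢ univ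
  TA := fun m _ => range m ×ˢ univ
  wB := fun _ s i => if i.2 = none ∧ nhS s i.1 ∧ Cn s x0 i.1 then 1 else 0
  wA := fun m s i => if ¬ (nhS s i.1 ∧ Cn s x0 i.1) ∧ okStep Z m s i.1 i.2 then 1 else 0
  nB := fun m s i => s.step m i.1 i.2
  nA := fun m s i => s.step m i.1 i.2
  Wt := fun m s => W α m s.E
  b := fun m s => cs m s x0

open Classical in
/-- **Delay lemma, born component.** -/
theorem delay_born (hα0 : 0 < α) (hα1 : α < 1) {h β x0 : ℕ} {Θ : St (Option I) → ℝ}
    (hΘ0 : ∀ s, 0 ≤ Θ s) (hΘ : TInv h Θ)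
    (hΘz : ∀ s, Valid h s.E → β < cs h s x0 → Θ s = 0)
    {m : ℕ} (hm1 : 1 ≤ m) (hmh : m < h) {s : St (Option I)} (hs : Valid m s.E) (hub : HasHub m s)
    (hx0 : x0 < m) (hx0n : nhS s x0) (hb : cs m s x0 ≤ β) :
    ∑ v ∈ range m, (if nhS s v ∧ Cn s x0 v then
        itr (gP α (okStep Z)) (m + 1) (h - (m + 1)) Θ (s.step m v none) else 0) ≤
      (β - cs m s x0) / xi ((2:ℝ)^α) h m * itr (gP α (okStep Z)) m (h - m) Θ s := by
  set R : ℕ → St (Option I) → ℝ := fun m s => itr (gP α (okStep Z)) m (h - m) Θ s with hRdef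
  have hR0 : ∀ m s, 0 ≤ R m s := fun m s => itr_nonneg (fun m s v c => gP_nonneg m s v c) hΘ0 _ _ _
  have hRinv : ∀ m, m ≤ h → TInv m (R m) := fun m hm =>
    itr_TInv (fun m => (okStep_PInv Z).gInv m) hm hΘ
  have key := delay_abs (bornTS Z α x0) (κ := (2:ℝ)^α) (by positivity) (h := h) (β := β) (m0 := 1)
    le_rfl (R := R)
    (by intro m x i; dsimp [bornTS]; split_ifs <;> norm_num)
    (by intro m x i; dsimp [bornTS]; split_ifs <;> norm_num)
    ?hDB ?hDA ?hW ?hrec ?hcomm hR0 ?hz m s hm1 hmh ⟨hs, hub, hx0, hx0n⟩ hb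
  case hDB =>
    rintro m s ⟨v, c⟩ hm1 hmh ⟨hs, hub, hx0, hx0n⟩ hi hw
    have hv : v < m := by
      have := (mem_product.1 hi).1
      simpa using this
    dsimp [bornTS] at hw ⊢
    rw [ite_eq_right_iff, Classical.not_imp] at hw
    obtain ⟨⟨hc, hnv, hcn⟩, _⟩ := hw
    refine ⟨⟨hs.step hv, hub.step v c, by omega, (nhS_step x0 hx0).2 hx0n⟩, ?_, ?_⟩
    · rw [cs_step hs hv hx0, if_pos ⟨hc, hnv, hcn⟩]
    · exact hs.W_step_ge hα0 hv
  case hDA =>
    rintro m s ⟨v, c⟩ hm1 hmh ⟨hs, hub, hx0, hx0n⟩ hi hw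
    have hv : v < m := by
      have := (mem_product.1 hi).1
      simpa using this
    dsimp [bornTS] at hw ⊢
    rw [ite_eq_right_iff, Classical.not_imp] at hw
    obtain ⟨⟨hc, _⟩, _⟩ := hw
    refine ⟨⟨hs.step hv, hub.step v c, by omega, (nhS_step x0 hx0).2 hx0n⟩, ?_⟩
    rw [cs_step hs hv hx0, if_neg, add_zero]
    rintro ⟨_, h1, h2⟩
    exact hc ⟨h1, h2⟩
  case hW =>
    rintro m s hm1 hmh ⟨hs, hub, hx0, hx0n⟩
    exact ⟨hs.W_pos hα0 hm1, hs.W_le hα0 hα1⟩
  case hrec =>
    rintro m s hm1 hmh ⟨hs, hub, hx0, hx0n⟩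
    have hW := hs.W_pos hα0 hm1
    have e : h - m = (h - (m + 1)) + 1 := by omega
    dsimp [bornTS, TwoSided.uB, TwoSided.uA, R]
    rw [e, val_rec hW, sum_product, sum_product, ← sum_add_distrib]
    apply sum_congr rfl; intro v hv
    rw [← sum_add_distrib]
    apply sum_congr rfl; intro c _
    dsimp only
    by_cases h1 : nhS s v ∧ Cn s x0 v
    · cases c with
      | none => simp [okStep, h1]
      | some i =>
        have : ¬ okStep Z m s v (some i) := fun hok => okStep_hub hub hok h1.1
        simp [this]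
    · have h2 : ¬ (c = none ∧ nhS s v ∧ Cn s x0 v) := fun h => h1 h.2
      by_cases h3 : okStep Z m s v c <;> simp [h1, h3]
  case hcomm =>
    rintro m s hm1 hmh ⟨hs, hub, hx0, hx0n⟩
    have hf := hRinv (m + 2) hmh
    have := comm_general (m := m) (s := s) (f := R (m + 2))
      (wB := fun m s v c => (bornTS Z α x0).wB m s (v, c))
      (wA := fun m s v c => (bornTS Z α x0).wA m s (v, c))
      (by intro m s v c; dsimp [bornTS]; split_ifs <;> norm_num)
      (by intro m s v c; dsimp [bornTS]; split_ifs <;> norm_num)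
      (hR0 _)
      (fun v a hv ha c c' => hf.swap_steps le_rfl hs.lt hv ha c c')
      (by
        intro v c hv hw c'
        dsimp [bornTS] at hw ⊢
        rw [ite_eq_right_iff, Classical.not_imp] at hw
        obtain ⟨⟨hc, hnv, hcn⟩, _⟩ := hw
        rw [if_neg]
        rintro ⟨h1, _⟩
        apply h1
        exact ⟨nhS_step_self.2 hc, (Cn_step_new hs hv hx0).2 ⟨hc, hnv, hcn⟩⟩)
      (by
        intro v c a c' hv ha
        dsimp [bornTS]
        by_cases h1 : c = none ∧ nhS s v ∧ Cn s x0 v
        · rw [if_pos h1, one_mul]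
          obtain ⟨rfl, hnv, hcn⟩ := h1
          have e1 : (nhS (s.step m v none) a ∧ Cn (s.step m v none) x0 a) ↔
              (nhS s a ∧ Cn s x0 a) := by
            rw [nhS_step a ha, Cn_step_old hs hv hx0 ha]
          have e2 : (nhS (s.step m a c') v ∧ Cn (s.step m a c') x0 v) ↔
              (nhS s v ∧ Cn s x0 v) := by
            rw [nhS_step v hv, Cn_step_old hs ha hx0 hv]
          simp only [e1, e2, okStep_step_none ha, hnv, hcn, and_self, if_true, mul_one]
          exact le_rfl
        · rw [if_neg h1, zero_mul]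
          split_ifs <;> norm_num)
    dsimp [TwoSided.uB, TwoSided.uA, bornTS]
    dsimp [bornTS] at this
    rw [sum_product, sum_product]
    simp only [sum_product]
    exact this
  case hz =>
    rintro s ⟨hs, hub, hx0, hx0n⟩ hb
    dsimp [R]
    rw [Nat.sub_self, itr_zero]
    exact hΘz s hs hb
  -- translate the conclusion
  dsimp [bornTS, TwoSided.uB] at key
  rw [sum_product] at key
  refine le_trans (le_of_eq ?_) key
  apply sum_congr rfl; intro v _
  rw [Fintype.sum_option]
  dsimp only
  rw [sum_eq_zero (fun i _ => by simp), add_zero]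
  by_cases h1 : nhS s v ∧ Cn s x0 v
  · simp [h1, R]
  · simp [h1]

end born

end SeedPA
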