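import Pool.Agent.SeedPA.Await

/-!
# Early hub-adjacent components are big
-/

open Finset

namespace SeedPA

variable {I : Type*}

/-- all hub-adjacent vertices with label in `[m, M)` have a big component -/
def EB (P : Par I) (m M : ℕ) (s : St (Option I)) : Prop :=
  ∀ x, m ≤ x → x < M → HubAdj P.n s x → P.n ≤ cs P.n s x * P.t

section early
variable [Fintype I] {α : ℝ} {P : Par I} {Z : SimpleGraph I}

omit [Fintype I] in
/-- in a good state the hubs have labels `< n1` -/
theorem Good.hub_lt {s : St (Option I)} (hG : Good P Z s) (hP : P.n1 ≤ P.n) {y : ℕ} (hy : y < P.n)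
    (hc : s.col y ≠ none) : y < P.n1 := by
  obtain ⟨i, hi⟩ := Option.ne_none_iff_exists'.1 hc
  obtain ⟨x, hx, hxc⟩ := hG.ex i
  have := hG.uniq i x y (by omega) hy hxc hi
  omega

open Classical in
theorem chi_count (hP : P.n1 ≤ P.n) {s : St (Option I)} (hG : Good P Z s) :
    ((range P.n1).filter (fun l => chi P l s)).card ≤ Fintype.card I * P.D1 := by
  choose y hy using hG.ex
  have h1 : (range P.n1).filter (fun l => chi P l s) ⊆
      (univ : Finset I).biUnion (fun i => nbr P.n1 s.E (y i)) := by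
    intro l hl
    rw [mem_filter, mem_range] at hl
    obtain ⟨hl, _, _, ⟨z, hz, hzc, hze⟩, _⟩ := hl
    obtain ⟨i, hi⟩ := Option.ne_none_iff_exists'.1 hzc
    rw [mem_biUnion]
    refine ⟨i, mem_univ _, ?_⟩
    have := hG.uniq i z (y i) (by omega) (by have := (hy i).1; omega) hi (hy i).2
    rw [← this]
    unfold nbr
    rw [mem_filter, mem_range]
    exact ⟨hl, hze⟩
  refine (card_le_card h1).trans (card_biUnion_le.trans ?_)
  calc ∑ i : I, (nbr P.n1 s.E (y i)).card ≤ ∑ _i : I, P.D1 := by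
        apply sum_le_sum; intro i _
        exact hG.g3 (y i) (by have := (hy i).1; omega) (by rw [(hy i).2]; simp)
    _ = _ := by simp

theorem sum_chi_le (hP : P.n1 ≤ P.n) (m : ℕ) (s : St (Option I)) :
    ∑ l ∈ Ico m P.n1, RvA α P Z m (chi P l) s ≤ (Fintype.card I * P.D1 : ℕ) * Rv α P Z m s := by
  classical
  unfold RvA Rv ev
  rw [← itr_sum, ← itr_const_mul]
  apply itr_mono (fun m s v c => gP_nonneg m s v c)
  intro s
  by_cases hG : Good P Z s
  · rw [← sum_filter, sum_const, nsmul_eq_mul]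
    apply mul_le_mul_of_nonneg_right _ (Theta_nonneg _ _ _ _)
    have : (Ico m P.n1).filter (fun l => chi P l s) ⊆ (range P.n1).filter (fun l => chi P l s) := by
      intro l hl
      rw [mem_filter, mem_Ico] at hl
      rw [mem_filter, mem_range]
      exact ⟨hl.1.2, hl.2⟩
    have h2 := (card_le_card this).trans (chi_count hP hG)
    exact_mod_cast h2
  · have : Theta α P Z s = 0 := by unfold Theta; rw [if_neg hG]
    simp [this]

/-- the newest vertex is unlikely to become a small hub-adjacent component -/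
theorem chi_now (h0 : 0 < α) (h1 : α < 1) (hP : P.n1 ≤ P.n) {m : ℕ} (hm1 : 1 ≤ m)
    (hm : m < P.n1) {ρ : ℝ}
    (hρ : P.β1 / xi ((2:ℝ)^α) P.n1 m * (Fintype.card I * P.D1 : ℕ) ≤ ρ)
    {s : St (Option I)} (hs : Valid m s.E) (hub : HasHub m s) :
    RvA α P Z m (chi P m) s ≤ ρ * Rv α P Z m s := by
  classical
  have hκ : (0:ℝ) < (2:ℝ)^α := by positivity
  have hW := hs.W_pos h0 hm1
  have hW1 : 1 ≤ W α m s.E := by
    have := hs.le_W h0
    have h2 : (1:ℝ) ≤ m := by exact_mod_cast hm1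
    linarith
  have hrec := chi_rec (Z := Z) h0 hm1 (by omega : m < P.n) hs m
  have e1 : ∑ v ∈ range m, ∑ c, (if okStep Z m s v c then
      RvA α P Z (m + 1) (chi P m) (s.step m v c) else 0) =
      ∑ v ∈ range m, (if s.col v ≠ none then
        RvA α P Z (m + 1) (chi P m) (s.step m v none) else 0) := by
    apply sum_congr rfl; intro v hv
    have hv' := mem_range.1 hv
    rw [Fintype.sum_option]
    have e2 : ∑ i : I, (if okStep Z m s v (some i) then
        RvA α P Z (m + 1) (chi P m) (s.step m v (some i)) else 0) = 0 := by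
      apply sum_eq_zero; intro i _
      split_ifs
      · exact RvA_chi_hub (by omega) (by omega) (by rw [St.step_col_self]; simp)
      · rfl
    rw [e2, add_zero, if_pos (show okStep Z m s v none from trivial)]
    by_cases hcv : s.col v = none
    · rw [if_neg (by simp [hcv])]
      apply RvA_chi_nonadj (by omega) (by omega) (hs.step hv') (hub.step v none)
      · intro y hy
        rw [St.step_E, mem_insert] at hy
        rcases hy with hy | hy
        · rw [Sym2.eq_iff] at hy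
          rcases hy with ⟨rfl, _⟩ | ⟨h1, h2⟩
          · rw [St.step_col_of_ne _ _ _ _ (by omega)]; exact hcv
          · omega
        · have := hs.lt _ hy m (by simp); omega
      · rw [St.step_col_self]
    · rw [if_pos hcv]
  rw [e1] at hrec
  have h2 := delay_await (Z := Z) h0 h1 hP hm1 hm hs hub
  have h3 := sum_chi_le (α := α) (Z := Z) hP m s
  have hR := Rv_nonneg (α := α) (P := P) (Z := Z) m s
  have h4 : W α m s.E * RvA α P Z m (chi P m) s ≤ ρ * Rv α P Z m s := by
    rw [hrec]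
    refine h2.trans ?_
    calc _ ≤ P.β1 / xi ((2:ℝ)^α) P.n1 m * ((Fintype.card I * P.D1 : ℕ) * Rv α P Z m s) :=
          mul_le_mul_of_nonneg_left h3 (div_nonneg (by positivity) (xi_nonneg hκ _ _))
      _ = (P.β1 / xi ((2:ℝ)^α) P.n1 m * (Fintype.card I * P.D1 : ℕ)) * Rv α P Z m s := by ring
      _ ≤ ρ * Rv α P Z m s := mul_le_mul_of_nonneg_right hρ hR
  have h5 : 0 ≤ RvA α P Z m (chi P m) s := RvA_nonneg _ _ _
  nlinarith

theorem chi_later (h0 : 0 < α) (h1 : α < 1) (hP : P.n1 ≤ P.n) {m m' : ℕ} (hm1 : 1 ≤ m)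
    (hmm : m ≤ m') (hm : m' < P.n1) {ρ : ℝ}
    (hρ : P.β1 / xi ((2:ℝ)^α) P.n1 m' * (Fintype.card I * P.D1 : ℕ) ≤ ρ)
    {s : St (Option I)} (hs : Valid m s.E) (hub : HasHub m s) :
    RvA α P Z m (chi P m') s ≤ ρ * Rv α P Z m s := by
  rw [RvA_def, ev_comp hmm (by omega)]
  unfold Rv
  rw [ev_comp (Z := Z) hmm (by omega) (Theta α P Z), ← itr_const_mul]
  apply itr_mono_inv (fun m s v c => gP_nonneg m s v c)
    (fun x s => Valid x s.E ∧ HasHub x s) m'
  · rintro x s v c _ hv ⟨h2, h3⟩ _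
    exact ⟨h2.step hv, h3.step v c⟩
  · rintro s ⟨h2, h3⟩
    exact chi_now h0 h1 hP (by omega) hm hρ h2 h3
  · omega
  · exact ⟨hs, hub⟩

/-- **early hub-adjacent components are big** -/
theorem EB_bound (h0 : 0 < α) (h1 : α < 1) (hP : P.n1 ≤ P.n) {m M : ℕ} (hm1 : 1 ≤ m)
    (hM : M < P.n1) {ρ : ℝ}
    (hρ : P.β1 / xi ((2:ℝ)^α) P.n1 M * (Fintype.card I * P.D1 : ℕ) ≤ ρ)
    {s : St (Option I)} (hs : Valid m s.E) (hub : HasHub m s) :
    RvA α P Z m (fun s' => ¬ EB P m M s') s ≤ M * ρ * Rv α P Z m s := by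
  classical
  have hκ : (0:ℝ) < (2:ℝ)^α := by positivity
  have hR := Rv_nonneg (α := α) (P := P) (Z := Z) m s
  have hρ0 : 0 ≤ ρ := le_trans (mul_nonneg (div_nonneg (by positivity) (xi_nonneg hκ _ _))
    (by positivity)) hρ
  have h2 : RvA α P Z m (fun s' => ¬ EB P m M s') s ≤
      ∑ l ∈ Ico m M, RvA α P Z m (chi P l) s := by
    apply RvA_union
    intro s hG hE
    unfold EB at hE
    push Not at hE
    obtain ⟨x, hx1, hx2, hx3, hx4⟩ := hE
    refine ⟨x, mem_Ico.2 ⟨hx1, hx2⟩, by omega, hx3.2.1, ?_, hG.g2 x (by omega) hx3 hx4⟩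
    obtain ⟨_, _, y, hy, hyc, hye⟩ := hx3
    exact ⟨y, hG.hub_lt hP hy hyc, hyc, hye⟩
  refine h2.trans ?_
  have h3 : ∀ l ∈ Ico m M, RvA α P Z m (chi P l) s ≤ ρ * Rv α P Z m s := by
    intro l hl
    rw [mem_Ico] at hl
    apply chi_later h0 h1 hP hm1 hl.1 (by omega) _ hs hub
    refine le_trans ?_ hρ
    apply mul_le_mul_of_nonneg_right _ (by positivity)
    exact div_le_div_of_nonneg_left (by positivity) (xi_pos hκ (by omega) hM)
      (xi_anti hκ hl.2.le)
  refine (sum_le_sum h3).trans ?_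
  rw [sum_const, Nat.card_Ico, nsmul_eq_mul]
  have h4 : ((M - m : ℕ) : ℝ) ≤ M := by exact_mod_cast Nat.sub_le M m
  calc ((M - m : ℕ) : ℝ) * (ρ * Rv α P Z m s) ≤ M * (ρ * Rv α P Z m s) :=
        mul_le_mul_of_nonneg_right h4 (mul_nonneg hρ0 hR)
    _ = _ := by ring

end early

end SeedPA
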