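import Pool.Agent.SeedPA.Good

/-!
# The exchange lemma (re-parenting of components between two hubs)
-/

open Finset

namespace SeedPA

variable {C I : Type*}

open Classical in
/-- re-parenting: edges having an endpoint in A get z1 and z2 exchanged -/
noncomputable def twE (z1 z2 : ℕ) (A : Finset ℕ) (e : Sym2 ℕ) : Sym2 ℕ :=
  if ∃ x ∈ A, x ∈ e then Sym2.map (Equiv.swap z1 z2) e else e

/-- re-parenting of a state -/
noncomputable def tw (z1 z2 : ℕ) (A : Finset ℕ) (s : St C) : St C :=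
  ⟨s.E.image (twE z1 z2 A), s.col⟩

/-- X is attached to the hub z1 (and not z2), Y to the hub z2 (and not z1) -/
structure Att (z1 z2 : ℕ) (X Y : Finset ℕ) (s : St (Option I)) : Prop where
  c1 : s.col z1 ≠ none
  c2 : s.col z2 ≠ none
  cX : ∀ x ∈ X, s.col x = none
  cY : ∀ y ∈ Y, s.col y = none
  X1 : ∀ x ∈ X, s(z1, x) ∈ s.E
  X2 : ∀ x ∈ X, s(z2, x) ∉ s.E
  Y2 : ∀ y ∈ Y, s(z2, y) ∈ s.E
  Y1 : ∀ y ∈ Y, s(z1, y) ∉ s.E

@[simp] theorem tw_col (z1 z2 : ℕ) (A : Finset ℕ) (s : St C) : (tw z1 z2 A s).col = s.col := rfl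
theorem tw_E (z1 z2 : ℕ) (A : Finset ℕ) (s : St C) :
    (tw z1 z2 A s).E = s.E.image (twE z1 z2 A) := rfl

section basic

variable {z1 z2 : ℕ} {A : Finset ℕ}

theorem swap_fix {x : ℕ} (h1 : z1 ∉ A) (h2 : z2 ∉ A) (hx : x ∈ A) : Equiv.swap z1 z2 x = x :=
  Equiv.swap_apply_of_ne_of_ne (fun h => h1 (h ▸ hx)) (fun h => h2 (h ▸ hx))

theorem hit_map (h1 : z1 ∉ A) (h2 : z2 ∉ A) (e : Sym2 ℕ) :
    (∃ x ∈ A, x ∈ Sym2.map (Equiv.swap z1 z2) e) ↔ ∃ x ∈ A, x ∈ e := by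
  constructor
  · rintro ⟨x, hx, hxe⟩
    obtain ⟨y, hy, hyx⟩ := Sym2.mem_map.1 hxe
    refine ⟨x, hx, ?_⟩
    have : y = x := by
      have h3 := swap_fix h1 h2 hx
      have : Equiv.swap z1 z2 y = Equiv.swap z1 z2 x := by rw [hyx, h3]
      exact (Equiv.swap z1 z2).injective this
    rwa [← this]
  · rintro ⟨x, hx, hxe⟩
    exact ⟨x, hx, Sym2.mem_map.2 ⟨x, hxe, swap_fix h1 h2 hx⟩⟩

theorem twE_twE (h1 : z1 ∉ A) (h2 : z2 ∉ A) (e : Sym2 ℕ) :
    twE z1 z2 A (twE z1 z2 A e) = e := by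
  by_cases h : ∃ x ∈ A, x ∈ e
  · have e1 : twE z1 z2 A e = Sym2.map (Equiv.swap z1 z2) e := if_pos h
    rw [e1]
    have e2 : twE z1 z2 A (Sym2.map (Equiv.swap z1 z2) e) =
        Sym2.map (Equiv.swap z1 z2) (Sym2.map (Equiv.swap z1 z2) e) :=
      if_pos ((hit_map h1 h2 e).2 h)
    rw [e2, Sym2.map_map]
    have : (⇑(Equiv.swap z1 z2) ∘ ⇑(Equiv.swap z1 z2)) = id := by
      ext x; simp
    rw [this, Sym2.map_id, id]
  · have e1 : twE z1 z2 A e = e := if_neg h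
    rw [e1, e1]

theorem twE_inj (h1 : z1 ∉ A) (h2 : z2 ∉ A) : Function.Injective (twE z1 z2 A) := by
  intro a b hab
  rw [← twE_twE h1 h2 a, hab, twE_twE h1 h2 b]

theorem mem_image_twE (h1 : z1 ∉ A) (h2 : z2 ∉ A) {E : ESet} {e : Sym2 ℕ} :
    e ∈ E.image (twE z1 z2 A) ↔ twE z1 z2 A e ∈ E := by
  rw [mem_image]
  constructor
  · rintro ⟨a, ha, rfl⟩
    rwa [twE_twE h1 h2]
  · intro h
    exact ⟨_, h, twE_twE h1 h2 e⟩

theorem twE_pair_out {a b : ℕ} (ha : a ∉ A) (hb : b ∉ A) : twE z1 z2 A s(a, b) = s(a, b) := by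
  unfold twE
  rw [if_neg]
  rintro ⟨x, hx, hxe⟩
  rcases Sym2.mem_iff.1 hxe with rfl | rfl
  · exact ha hx
  · exact hb hx

theorem twE_pair_in (h1 : z1 ∉ A) (h2 : z2 ∉ A) {a x : ℕ} (hx : x ∈ A) :
    twE z1 z2 A s(a, x) = s(Equiv.swap z1 z2 a, x) := by
  unfold twE
  rw [if_pos ⟨x, hx, by simp⟩, Sym2.map_mk]
  simp [swap_fix h1 h2 hx]

/-- adjacency outside `A` is unchanged -/
theorem mem_tw_out (h1 : z1 ∉ A) (h2 : z2 ∉ A) {s : St C} {a b : ℕ} (ha : a ∉ A) (hb : b ∉ A) :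
    s(a, b) ∈ (tw z1 z2 A s).E ↔ s(a, b) ∈ s.E := by
  rw [tw_E, mem_image_twE h1 h2, twE_pair_out ha hb]

/-- adjacency to a vertex of `A` -/
theorem mem_tw_in (h1 : z1 ∉ A) (h2 : z2 ∉ A) {s : St C} {a x : ℕ} (hx : x ∈ A) :
    s(a, x) ∈ (tw z1 z2 A s).E ↔ s(Equiv.swap z1 z2 a, x) ∈ s.E := by
  rw [tw_E, mem_image_twE h1 h2, twE_pair_in h1 h2 hx]

/-- adjacency of two vertices different from `z1`, `z2` is unchanged -/
theorem mem_tw_ne (h1 : z1 ∉ A) (h2 : z2 ∉ A) {s : St C} {a b : ℕ} (ha1 : a ≠ z1) (ha2 : a ≠ z2)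
    (hb1 : b ≠ z1) (hb2 : b ≠ z2) :
    s(a, b) ∈ (tw z1 z2 A s).E ↔ s(a, b) ∈ s.E := by
  by_cases hb : b ∈ A
  · rw [mem_tw_in h1 h2 hb, Equiv.swap_apply_of_ne_of_ne ha1 ha2]
  · by_cases ha : a ∈ A
    · rw [Sym2.eq_swap, mem_tw_in h1 h2 ha, Equiv.swap_apply_of_ne_of_ne hb1 hb2, Sym2.eq_swap]
    · exact mem_tw_out h1 h2 ha hb

theorem tw_tw (h1 : z1 ∉ A) (h2 : z2 ∉ A) (s : St C) : tw z1 z2 A (tw z1 z2 A s) = s := by
  have : (tw z1 z2 A (tw z1 z2 A s)).E = s.E := by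
    ext e
    rw [tw_E, mem_image_twE h1 h2, tw_E, mem_image_twE h1 h2, twE_twE h1 h2]
  cases s
  simp only [tw] at this ⊢
  rw [this]

open Classical in
theorem deg_image (h1 : z1 ∉ A) (h2 : z2 ∉ A) (E : ESet) (v : ℕ) :
    deg (E.image (twE z1 z2 A)) v = (E.filter (fun e => v ∈ twE z1 z2 A e)).card := by
  unfold deg
  rw [filter_image, card_image_of_injective _ (twE_inj h1 h2)]

theorem mem_map_swap {e : Sym2 ℕ} {v : ℕ} :
    v ∈ Sym2.map (Equiv.swap z1 z2) e ↔ Equiv.swap z1 z2 v ∈ e := by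
  rw [Sym2.mem_map]
  constructor
  · rintro ⟨y, hy, rfl⟩
    simpa using hy
  · intro h
    exact ⟨_, h, by simp⟩

/-- number of edges at `z` meeting `A` -/
noncomputable def hitN (A : Finset ℕ) (E : ESet) (z : ℕ) : ℕ := by
  classical exact (E.filter (fun e => z ∈ e ∧ ∃ x ∈ A, x ∈ e)).card

theorem deg_tw_ne (h1 : z1 ∉ A) (h2 : z2 ∉ A) (E : ESet) {v : ℕ} (hv1 : v ≠ z1) (hv2 : v ≠ z2) :
    deg (E.image (twE z1 z2 A)) v = deg E v := by
  classical
  rw [deg_image h1 h2]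
  unfold deg
  congr 1
  apply filter_congr
  intro e _
  unfold twE
  split_ifs with h
  · rw [mem_map_swap, Equiv.swap_apply_of_ne_of_ne hv1 hv2]
  · rfl

theorem deg_tw_z1 (h1 : z1 ∉ A) (h2 : z2 ∉ A) (E : ESet) :
    deg (E.image (twE z1 z2 A)) z1 + hitN A E z1 = deg E z1 + hitN A E z2 := by
  classical
  rw [deg_image h1 h2]
  have e1 : E.filter (fun e => z1 ∈ twE z1 z2 A e) =
      E.filter (fun e => z2 ∈ e ∧ ∃ x ∈ A, x ∈ e) ∪ E.filter (fun e => z1 ∈ e ∧ ¬ ∃ x ∈ A, x ∈ e) := by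
    rw [← filter_or]
    apply filter_congr
    intro e _
    unfold twE
    split_ifs with h
    · rw [mem_map_swap, Equiv.swap_apply_left]
      constructor
      · exact fun h' => Or.inl ⟨h', h⟩
      · rintro (⟨h', _⟩ | ⟨_, h'⟩)
        · exact h'
        · exact absurd h h'
    · constructor
      · exact fun h' => Or.inr ⟨h', h⟩
      · rintro (⟨_, h'⟩ | ⟨h', _⟩)
        · exact absurd h' h
        · exact h'
  have e2 : E.filter (fun e => z1 ∈ e) =
      E.filter (fun e => z1 ∈ e ∧ ∃ x ∈ A, x ∈ e) ∪ E.filter (fun e => z1 ∈ e ∧ ¬ ∃ x ∈ A, x ∈ e) := by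
    rw [← filter_or]
    apply filter_congr
    intro e _
    by_cases h : ∃ x ∈ A, x ∈ e
    · simp only [h, and_true, not_true_eq_false, and_false, or_false]
    · simp only [h, and_true, not_false_eq_true, and_false, false_or]
  have d1 : Disjoint (E.filter (fun e => z2 ∈ e ∧ ∃ x ∈ A, x ∈ e))
      (E.filter (fun e => z1 ∈ e ∧ ¬ ∃ x ∈ A, x ∈ e)) := by
    rw [disjoint_filter]
    intro e _ h h'
    exact h'.2 h.2
  have d2 : Disjoint (E.filter (fun e => z1 ∈ e ∧ ∃ x ∈ A, x ∈ e))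
      (E.filter (fun e => z1 ∈ e ∧ ¬ ∃ x ∈ A, x ∈ e)) := by
    rw [disjoint_filter]
    intro e _ h h'
    exact h'.2 h.2
  unfold deg hitN
  rw [e1, e2, card_union_of_disjoint d1, card_union_of_disjoint d2]
  omega

theorem deg_tw_z2 (h1 : z1 ∉ A) (h2 : z2 ∉ A) (E : ESet) :
    deg (E.image (twE z1 z2 A)) z2 + hitN A E z2 = deg E z2 + hitN A E z1 := by
  have h := deg_tw_z1 h2 h1 E
  have e : twE z2 z1 A = twE z1 z2 A := by
    ext1 e
    unfold twE
    rw [Equiv.swap_comm]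
  rwa [e] at h

theorem pair_of_mem {e : Sym2 ℕ} {z x : ℕ} (hz : z ∈ e) (hx : x ∈ e) (hne : z ≠ x) :
    e = s(z, x) := (Sym2.mem_and_mem_iff hne).1 ⟨hz, hx⟩

/-- the number of edges at `z` meeting `A` is at most the size of any set containing all
elements of `A` adjacent to `z` -/
theorem hitN_le {E : ESet} {z : ℕ} (hz : z ∉ A) {Y : Finset ℕ}
    (hY : ∀ x ∈ A, s(z, x) ∈ E → x ∈ Y) : hitN A E z ≤ Y.card := by
  classical
  unfold hitN
  refine (card_le_card (t := Y.image (fun y => s(z, y))) ?_).trans card_image_le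
  intro e he
  rw [mem_filter] at he
  obtain ⟨heE, hze, x, hx, hxe⟩ := he
  have := pair_of_mem hze hxe (fun h => hz (h ▸ hx))
  rw [this] at heE
  rw [mem_image]
  exact ⟨x, hY x hx heE, this.symm⟩

/-- exact number of edges at `z` meeting `A` -/
theorem hitN_eq {E : ESet} {z : ℕ} (hz : z ∉ A) {Y : Finset ℕ} (hYA : Y ⊆ A)
    (hY : ∀ x ∈ A, s(z, x) ∈ E ↔ x ∈ Y) : hitN A E z = Y.card := by
  classical
  apply le_antisymm (hitN_le hz fun x hx h => (hY x hx).1 h)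
  unfold hitN
  rw [← card_image_of_injOn (s := Y) (f := fun y => s(z, y))]
  · apply card_le_card
    intro e he
    rw [mem_image] at he
    obtain ⟨y, hy, rfl⟩ := he
    rw [mem_filter]
    exact ⟨(hY y (hYA hy)).2 hy, by simp, y, hYA hy, by simp⟩
  · intro a _ b _ hab
    simp only [Sym2.eq_iff, true_and] at hab
    rcases hab with h | ⟨h, h'⟩
    · exact h
    · rw [h', h]

end basic

/-! ### the alive predicate -/

/-- the part of `X`, `Y` below `x` is attached correctly and colourless -/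
def Al (z1 z2 : ℕ) (X Y : Finset ℕ) (m : ℕ) (s : St (Option I)) : Prop :=
  (∀ y ∈ X, y < m → s(z1, y) ∈ s.E ∧ s(z2, y) ∉ s.E ∧ s.col y = none) ∧
  (∀ y ∈ Y, y < m → s(z2, y) ∈ s.E ∧ s(z1, y) ∉ s.E ∧ s.col y = none)

section alive

variable {z1 z2 : ℕ} {X Y : Finset ℕ}

theorem Al.swap {m : ℕ} {s : St (Option I)} (h : Al z1 z2 X Y m s) : Al z2 z1 Y X m s :=
  ⟨h.2, h.1⟩

theorem pair_insert_ne {E : ESet} {z y m v : ℕ} (hy : y < m) (hzy : z < y) :
    s(z, y) ∈ insert s(v, m) E ↔ s(z, y) ∈ E := by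
  rw [mem_insert]
  constructor
  · rintro (h | h)
    · rw [Sym2.eq_iff] at h; omega
    · exact h
  · exact Or.inr

theorem Al.of_step (hX : ∀ x ∈ X, z1 < x ∧ z2 < x) (hY : ∀ x ∈ Y, z1 < x ∧ z2 < x)
    {m v : ℕ} {c : Option I} {s : St (Option I)} (h : Al z1 z2 X Y (m + 1) (s.step m v c)) :
    Al z1 z2 X Y m s := by
  refine ⟨fun y hy hym => ?_, fun y hy hym => ?_⟩
  · obtain ⟨a1, a2, a3⟩ := h.1 y hy (by omega)
    rw [St.step_E, pair_insert_ne hym (hX y hy).1] at a1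
    rw [St.step_E, pair_insert_ne hym (hX y hy).2] at a2
    rw [St.step_col_of_ne _ _ _ _ (by omega)] at a3
    exact ⟨a1, a2, a3⟩
  · obtain ⟨a1, a2, a3⟩ := h.2 y hy (by omega)
    rw [St.step_E, pair_insert_ne hym (hY y hy).2] at a1
    rw [St.step_E, pair_insert_ne hym (hY y hy).1] at a2
    rw [St.step_col_of_ne _ _ _ _ (by omega)] at a3
    exact ⟨a1, a2, a3⟩

/-- if `m ∈ X ∪ Y` and the step is alive then the new colour is `none` -/
theorem Al.step_none {m v : ℕ} {c : Option I} {s : St (Option I)}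
    (h : Al z1 z2 X Y (m + 1) (s.step m v c)) (hm : m ∈ X ∪ Y) : c = none := by
  rcases mem_union.1 hm with hm | hm
  · have := (h.1 m hm (by omega)).2.2
    rwa [St.step_col_self] at this
  · have := (h.2 m hm (by omega)).2.2
    rwa [St.step_col_self] at this

theorem Al.hit2 {m : ℕ} {s : St (Option I)} (hs : Valid m s.E) (h : Al z1 z2 X Y m s)
    (h2 : z2 ∉ X ∪ Y) : hitN (X ∪ Y) s.E z2 ≤ Y.card := by
  apply hitN_le h2
  intro x hx hxe
  have hxm : x < m := hs.lt _ hxe x (by simp)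
  rcases mem_union.1 hx with hx | hx
  · exact absurd hxe (h.1 x hx hxm).2.1
  · exact hx

theorem Al.hit1 {m : ℕ} {s : St (Option I)} (hs : Valid m s.E) (h : Al z1 z2 X Y m s)
    (h1 : z1 ∉ X ∪ Y) : hitN (X ∪ Y) s.E z1 ≤ X.card := by
  have := h.swap.hit2 hs (by rwa [union_comm])
  rwa [union_comm]

theorem Al.hit2_eq {m : ℕ} {s : St (Option I)} (h : Al z1 z2 X Y m s)
    (h2 : z2 ∉ X ∪ Y) (hX : ∀ x ∈ X, x < m) (hY : ∀ x ∈ Y, x < m) :
    hitN (X ∪ Y) s.E z2 = Y.card := by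
  apply hitN_eq h2 subset_union_right
  intro x hx
  constructor
  · intro hxe
    rcases mem_union.1 hx with hx | hx
    · exact absurd hxe (h.1 x hx (hX x hx)).2.1
    · exact hx
  · intro hx
    exact (h.2 x hx (hY x hx)).1

theorem Al.hit1_eq {m : ℕ} {s : St (Option I)} (h : Al z1 z2 X Y m s)
    (h1 : z1 ∉ X ∪ Y) (hX : ∀ x ∈ X, x < m) (hY : ∀ x ∈ Y, x < m) :
    hitN (X ∪ Y) s.E z1 = X.card := by
  have := h.swap.hit2_eq (by rwa [union_comm]) hY hX
  rwa [union_comm]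

/-- weight of the re-parented state -/
theorem W_tw_le {α : ℝ} (h0 : 0 < α) (h1 : α < 1) {m : ℕ} {s : St (Option I)}
    (hs : Valid m s.E) (h : Al z1 z2 X Y m s) (hz1 : z1 ∉ X ∪ Y) (hz2 : z2 ∉ X ∪ Y)
    (hc : X.card = Y.card) :
    W α m (tw z1 z2 (X ∪ Y) s).E ≤ W α m s.E + 2 * (X.card : ℝ) ^ α := by
  have a1 := h.hit1 hs hz1
  have a2 := h.hit2 hs hz2
  have b1 := deg_tw_z1 hz1 hz2 s.E
  have b2 := deg_tw_z2 hz1 hz2 s.E
  have key : ∀ D D' : ℕ, D' ≤ D + X.card → (D' : ℝ) ^ α ≤ (D : ℝ) ^ α + (X.card : ℝ) ^ α := by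
    intro D D' hD
    calc (D' : ℝ) ^ α ≤ ((D : ℝ) + X.card) ^ α :=
          Real.rpow_le_rpow (by positivity) (by exact_mod_cast hD) h0.le
      _ ≤ _ := Real.rpow_add_le_add_rpow (by positivity) (by positivity) h0.le h1.le
  have hterm : ∀ v ∈ range m, (deg (tw z1 z2 (X ∪ Y) s).E v : ℝ) ^ α ≤ (deg s.E v : ℝ) ^ α +
      ((if v = z1 then (X.card : ℝ) ^ α else 0) + (if v = z2 then (X.card : ℝ) ^ α else 0)) := by
    intro v _
    have hk : (0:ℝ) ≤ (X.card : ℝ) ^ α := by positivity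
    rw [tw_E]
    by_cases hv1 : v = z1
    · subst hv1
      have := key (deg s.E v) (deg (s.E.image (twE v z2 (X ∪ Y))) v) (by omega)
      rw [if_pos rfl]
      split_ifs <;> linarith
    · by_cases hv2 : v = z2
      · subst hv2
        have := key (deg s.E v) (deg (s.E.image (twE z1 v (X ∪ Y))) v) (by omega)
        rw [if_neg hv1, if_pos rfl]
        linarith
      · rw [deg_tw_ne hz1 hz2 _ hv1 hv2, if_neg hv1, if_neg hv2]
        linarith
  unfold W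
  refine (sum_le_sum hterm).trans ?_
  rw [sum_add_distrib, sum_add_distrib, sum_ite_eq' (range m) z1, sum_ite_eq' (range m) z2]
  have hk : (0:ℝ) ≤ (X.card : ℝ) ^ α := by positivity
  split_ifs <;> linarith

theorem deg_tw_eq {m : ℕ} {s : St (Option I)} (h : Al z1 z2 X Y m s) (hz1 : z1 ∉ X ∪ Y)
    (hz2 : z2 ∉ X ∪ Y) (hX : ∀ x ∈ X, x < m) (hY : ∀ x ∈ Y, x < m) (hc : X.card = Y.card) (v : ℕ) :
    deg (tw z1 z2 (X ∪ Y) s).E v = deg s.E v := by
  have a1 := h.hit1_eq hz1 hX hY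
  have a2 := h.hit2_eq hz2 hX hY
  have b1 := deg_tw_z1 hz1 hz2 s.E
  have b2 := deg_tw_z2 hz1 hz2 s.E
  rw [tw_E]
  by_cases hv1 : v = z1
  · subst hv1; omega
  · by_cases hv2 : v = z2
    · subst hv2; omega
    · exact deg_tw_ne hz1 hz2 _ hv1 hv2

theorem W_tw_pos {α : ℝ} {A : Finset ℕ} (hz1 : z1 ∉ A) (hz2 : z2 ∉ A) {m : ℕ} {s : St C}
    (hs : Valid m s.E) (hm : 1 ≤ m) : 0 < W α m (tw z1 z2 A s).E := by
  have h1 := hs.pos 0 (by omega)
  unfold deg at h1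
  obtain ⟨e, he⟩ := card_pos.1 (show 0 < _ from h1)
  rw [mem_filter] at he
  have key : ∃ x < m, ∃ e' ∈ (tw z1 z2 A s).E, x ∈ e' := by
    by_cases h : ∃ x ∈ A, x ∈ e
    · obtain ⟨x, hx, hxe⟩ := h
      refine ⟨x, hs.lt _ he.1 x hxe, twE z1 z2 A e, ?_, ?_⟩
      · rw [tw_E]; exact mem_image_of_mem _ he.1
      · unfold twE
        rw [if_pos ⟨x, hx, hxe⟩, mem_map_swap, swap_fix hz1 hz2 hx]
        exact hxe
    · refine ⟨0, by omega, twE z1 z2 A e, ?_, ?_⟩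
      · rw [tw_E]; exact mem_image_of_mem _ he.1
      · unfold twE
        rw [if_neg h]
        exact he.2
  obtain ⟨x, hxm, e', he', hxe'⟩ := key
  have hd : 0 < deg (tw z1 z2 A s).E x := by
    unfold deg
    exact card_pos.2 ⟨e', mem_filter.2 ⟨he', hxe'⟩⟩
  unfold W
  refine lt_of_lt_of_le ?_ (single_le_sum (f := fun v => (deg (tw z1 z2 A s).E v : ℝ) ^ α)
    (fun v _ => by positivity) (mem_range.2 hxm))
  exact Real.rpow_pos_of_pos (by exact_mod_cast hd) _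

open Classical in
/-- the permutation used at level `m` -/
noncomputable def tau (z1 z2 : ℕ) (A : Finset ℕ) (m : ℕ) : Equiv.Perm ℕ :=
  if m ∈ A then Equiv.swap z1 z2 else 1

theorem tau_fixGE {A : Finset ℕ} (hA : ∀ x ∈ A, z1 < x ∧ z2 < x) (m : ℕ) :
    FixGE m (tau z1 z2 A m) := by
  intro x hx
  unfold tau
  split_ifs with h
  · have := hA m h
    exact Equiv.swap_apply_of_ne_of_ne (by omega) (by omega)
  · rfl

theorem tw_step {A : Finset ℕ} (hA : ∀ x ∈ A, z1 < x ∧ z2 < x) {m v : ℕ} (hv : v < m) (c : C)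
    (s : St C) : tw z1 z2 A (s.step m v c) = (tw z1 z2 A s).step m (tau z1 z2 A m v) c := by
  have h1 : z1 ∉ A := fun h => absurd (hA _ h).1 (lt_irrefl _)
  have h2 : z2 ∉ A := fun h => absurd (hA _ h).2 (lt_irrefl _)
  have key : twE z1 z2 A s(v, m) = s(tau z1 z2 A m v, m) := by
    unfold tau
    split_ifs with hm
    · exact twE_pair_in h1 h2 hm
    · by_cases hvA : v ∈ A
      · have hv' := hA v hvA
        rw [Sym2.eq_swap, twE_pair_in h1 h2 hvA,
          Equiv.swap_apply_of_ne_of_ne (by omega) (by omega), Sym2.eq_swap]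
        rfl
      · rw [twE_pair_out hvA hm]
        rfl
  unfold tw St.step
  simp only
  rw [image_insert, key]

end alive

/-! ### the exchange inequality -/

section exchange

variable [Fintype I] {α : ℝ} {P : Par I} {Z : SimpleGraph I} {m0 z1 z2 : ℕ} {X Y : Finset ℕ}

/-- path sums from a dead state vanish -/
theorem itr_dead_al {N : ℕ} (hX : ∀ x ∈ X, z1 < x ∧ z2 < x) (hY : ∀ x ∈ Y, z1 < x ∧ z2 < x)
    {f : St (Option I) → ℝ} (hA : ∀ s, f s ≠ 0 → Att z1 z2 X Y s) :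
    ∀ (d m : ℕ) (s : St (Option I)), m + d = N → ¬ Al z1 z2 X Y m s →
      itr (gP α (okStep Z)) m d f s = 0 := by
  intro d
  induction d with
  | zero =>
    intro m s _ hs
    rw [itr_zero]
    by_contra hne
    have := hA s hne
    exact hs ⟨fun y hy _ => ⟨this.X1 y hy, this.X2 y hy, this.cX y hy⟩,
      fun y hy _ => ⟨this.Y2 y hy, this.Y1 y hy, this.cY y hy⟩⟩
  | succ d ih =>
    intro m s hm hs
    rw [itr_succ]
    apply sum_eq_zero
    intro v _
    apply sum_eq_zero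
    intro c _
    rw [ih (m + 1) _ (by omega) (fun h => hs (h.of_step hX hY)), mul_zero]

/-- the cost of the exchange from level `m` on -/
noncomputable def kap (c n1 m : ℕ) : ℝ := ∏ l ∈ Ico m n1, (1 + (c : ℝ) / l)

theorem kap_nonneg (c n1 m : ℕ) : 0 ≤ kap c n1 m := prod_nonneg fun _ _ => by positivity

theorem kap_lt {c n1 m : ℕ} (h : m < n1) : kap c n1 m = (1 + (c : ℝ) / m) * kap c n1 (m + 1) := by
  unfold kap
  rw [prod_eq_prod_Ico_succ_bot h]

theorem kap_ge {c n1 m : ℕ} (h : n1 ≤ m) : kap c n1 m = 1 := by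
  unfold kap
  rw [Ico_eq_empty (by omega), prod_empty]

theorem kap_le {c n1 : ℕ} : ∀ {m : ℕ}, 1 ≤ m → m ≤ n1 → kap c n1 m ≤ ((n1 : ℝ) / m) ^ c := by
  intro m hm hmn
  obtain ⟨k, rfl⟩ := Nat.exists_eq_add_of_le hmn
  clear hmn
  induction k generalizing m with
  | zero =>
    rw [kap_ge (by omega)]
    have : (m : ℝ) ≠ 0 := by positivity
    simp [this]
  | succ k ih =>
    rw [kap_lt (by omega)]
    have h1 := ih (m := m + 1) (by omega)
    rw [show m + 1 + k = m + (k + 1) by omega] at h1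
    have hm0 : (0:ℝ) < m := by exact_mod_cast hm
    have h2 : 1 + (c : ℝ) / m ≤ (1 + 1 / (m:ℝ)) ^ c := by
      have := one_add_mul_le_pow (a := 1 / (m:ℝ)) (by have : 0 ≤ 1 / (m:ℝ) := by positivity
                                                      linarith) c
      calc 1 + (c : ℝ) / m = 1 + (c : ℝ) * (1 / m) := by ring
        _ ≤ _ := this
    calc (1 + (c : ℝ) / m) * kap c (m + (k + 1)) (m + 1)
        ≤ (1 + 1 / (m:ℝ)) ^ c * (((m + (k + 1) : ℕ) : ℝ) / ((m + 1 : ℕ) : ℝ)) ^ c :=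
          mul_le_mul h2 h1 (kap_nonneg _ _ _) (by positivity)
      _ = (((m + (k + 1) : ℕ) : ℝ) / m) ^ c := by
          rw [← mul_pow]
          congr 1
          push_cast
          field_simp

theorem exchange_aux (h0 : 0 < α) (h1 : α < 1) (hP : P.n1 ≤ P.n)
    (hm0 : 1 ≤ m0)
    (hX : ∀ x ∈ X, z1 < x ∧ z2 < x ∧ x < P.n1) (hY : ∀ x ∈ Y, z1 < x ∧ z2 < x ∧ x < P.n1)
    (hc : X.card = Y.card) {c : ℕ} (hcard : 2 * (X.card : ℝ) ^ α ≤ c)
    {f f' : St (Option I) → ℝ} (hf' : ∀ s, 0 ≤ f' s)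
    (hA : ∀ s, f s ≠ 0 → Att z1 z2 X Y s)
    (hff : ∀ s, Valid P.n s.E → Att z1 z2 X Y s → f s ≤ f' (tw z1 z2 (X ∪ Y) s)) :
    ∀ (d m : ℕ) (s : St (Option I)), m0 ≤ m → m + d = P.n → Valid m s.E → Al z1 z2 X Y m s →
      itr (gP α (okStep Z)) m d f s ≤
        kap c P.n1 m * itr (gP α (okStep Z)) m d f' (tw z1 z2 (X ∪ Y) s) := by
  have hX' : ∀ x ∈ X, z1 < x ∧ z2 < x := fun x hx => ⟨(hX x hx).1, (hX x hx).2.1⟩
  have hY' : ∀ x ∈ Y, z1 < x ∧ z2 < x := fun x hx => ⟨(hY x hx).1, (hY x hx).2.1⟩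
  have hAA : ∀ x ∈ X ∪ Y, z1 < x ∧ z2 < x := by
    intro x hx
    rcases mem_union.1 hx with hx | hx
    · exact hX' x hx
    · exact hY' x hx
  have hz1 : z1 ∉ X ∪ Y := fun h => absurd (hAA _ h).1 (lt_irrefl _)
  have hz2 : z2 ∉ X ∪ Y := fun h => absurd (hAA _ h).2 (lt_irrefl _)
  intro d
  induction d with
  | zero =>
    intro m s hm hmn hs _
    have : m = P.n := by omega
    subst this
    rw [kap_ge hP, itr_zero, itr_zero, one_mul]
    by_cases hz : f s = 0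
    · rw [hz]; exact hf' _
    · exact hff s hs (hA s hz)
  | succ d ih =>
    intro m s hm hmn hs hal
    have hmpos : (0:ℝ) < m := by exact_mod_cast (by omega : 0 < m)
    have hWpos : 0 < W α m s.E := hs.W_pos h0 (by omega)
    have hWge := hs.le_W (α := α) h0
    -- comparison of the weights
    have hdelta : ∃ δ : ℝ, 0 ≤ δ ∧ kap c P.n1 m = δ * kap c P.n1 (m + 1) ∧
        (W α m s.E)⁻¹ ≤ δ * (W α m (tw z1 z2 (X ∪ Y) s).E)⁻¹ := by
      by_cases hlt : m < P.n1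
      · refine ⟨1 + (c : ℝ) / m, by positivity, kap_lt hlt, ?_⟩
        have hW' : W α m (tw z1 z2 (X ∪ Y) s).E ≤ (1 + (c : ℝ) / m) * W α m s.E := by
          have h2 := W_tw_le h0 h1 hs hal hz1 hz2 hc
          have h3 : (c : ℝ) ≤ (c : ℝ) / m * W α m s.E := by
            rw [div_mul_eq_mul_div, le_div_iff₀ hmpos]
            exact mul_le_mul_of_nonneg_left hWge (by positivity)
          linarith
        have hpos : 0 < W α m (tw z1 z2 (X ∪ Y) s).E := W_tw_pos hz1 hz2 hs (by omega)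
        rw [inv_eq_one_div, inv_eq_one_div, mul_one_div, div_le_div_iff₀ hWpos hpos]
        linarith
      · refine ⟨1, zero_le_one, by rw [kap_ge (by omega), kap_ge (by omega)]; ring, ?_⟩
        have : W α m (tw z1 z2 (X ∪ Y) s).E = W α m s.E := by
          unfold W
          apply sum_congr rfl
          intro v _
          rw [deg_tw_eq hal hz1 hz2 (fun x hx => by have := (hX x hx).2.2; omega)
            (fun x hx => by have := (hY x hx).2.2; omega) hc]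
        rw [this, one_mul]
    obtain ⟨δ, hδ0, hδk, hδW⟩ := hdelta
    have hitr0 : ∀ (m d : ℕ) (s : St (Option I)), 0 ≤ itr (gP α (okStep Z)) m d f' s :=
      fun m d s => itr_nonneg (fun m s v c => gP_nonneg m s v c) hf' _ _ _
    rw [itr_succ, itr_succ]
    have hre := (tau_fixGE hAA m).sum_range (fun v => ∑ cc, gP α (okStep Z) m
      (tw z1 z2 (X ∪ Y) s) v cc * itr (gP α (okStep Z)) (m + 1) d f'
        ((tw z1 z2 (X ∪ Y) s).step m v cc))
    rw [← hre, mul_sum]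
    apply sum_le_sum
    intro v hv
    have hv' := mem_range.1 hv
    rw [mul_sum]
    apply sum_le_sum
    intro cc _
    have hrhs : 0 ≤ kap c P.n1 m * (gP α (okStep Z) m (tw z1 z2 (X ∪ Y) s)
        (tau z1 z2 (X ∪ Y) m v) cc * itr (gP α (okStep Z)) (m + 1) d f'
        ((tw z1 z2 (X ∪ Y) s).step m (tau z1 z2 (X ∪ Y) m v) cc)) :=
      mul_nonneg (kap_nonneg _ _ _) (mul_nonneg (gP_nonneg _ _ _ _) (hitr0 _ _ _))
    by_cases hok : okStep Z m s v cc
    · by_cases hal' : Al z1 z2 X Y (m + 1) (s.step m v cc)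
      · have IH := ih (m + 1) (s.step m v cc) (by omega) (by omega) (hs.step hv') hal'
        rw [tw_step hAA hv'] at IH
        have hok' : okStep Z m (tw z1 z2 (X ∪ Y) s) (tau z1 z2 (X ∪ Y) m v) cc := by
          by_cases hm' : m ∈ X ∪ Y
          · rw [hal'.step_none hm']
            trivial
          · have : tau z1 z2 (X ∪ Y) m v = v := by
              unfold tau
              rw [if_neg hm']
              rfl
            rw [this]
            cases cc with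
            | none => trivial
            | some i => exact hok
        have g1 : gP α (okStep Z) m s v cc = (W α m s.E)⁻¹ := if_pos hok
        have g2 : gP α (okStep Z) m (tw z1 z2 (X ∪ Y) s) (tau z1 z2 (X ∪ Y) m v) cc =
            (W α m (tw z1 z2 (X ∪ Y) s).E)⁻¹ := if_pos hok'
        rw [g1, g2, hδk]
        have hk := hitr0 (m + 1) d ((tw z1 z2 (X ∪ Y) s).step m (tau z1 z2 (X ∪ Y) m v) cc)
        calc (W α m s.E)⁻¹ * itr (gP α (okStep Z)) (m + 1) d f (s.step m v cc)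
            ≤ (δ * (W α m (tw z1 z2 (X ∪ Y) s).E)⁻¹) * (kap c P.n1 (m + 1) *
              itr (gP α (okStep Z)) (m + 1) d f'
                ((tw z1 z2 (X ∪ Y) s).step m (tau z1 z2 (X ∪ Y) m v) cc)) := by
              refine (mul_le_mul_of_nonneg_left IH (inv_nonneg.2 hWpos.le)).trans ?_
              exact mul_le_mul_of_nonneg_right hδW (mul_nonneg (kap_nonneg _ _ _) hk)
          _ = _ := by ring
      · rw [itr_dead_al (N := P.n) hX' hY' hA d (m + 1) _ (by omega) hal', mul_zero]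
        exact hrhs
    · have g1 : gP α (okStep Z) m s v cc = 0 := if_neg hok
      rw [g1, zero_mul]
      exact hrhs

theorem exchange (h0 : 0 < α) (h1 : α < 1) (hP : P.n1 ≤ P.n) {m0 z1 z2 : ℕ} {X Y : Finset ℕ}
    (hm0 : 1 ≤ m0) (hmn : m0 ≤ P.n1) (hz : z1 ≠ z2)
    (hX : ∀ x ∈ X, m0 ≤ x ∧ z1 < x ∧ z2 < x ∧ x < P.n1)
    (hY : ∀ x ∈ Y, m0 ≤ x ∧ z1 < x ∧ z2 < x ∧ x < P.n1)
    (hd : Disjoint X Y) (hc : X.card = Y.card) {c : ℕ} (hcard : 2 * (2 * X.card : ℝ) ^ α ≤ c)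
    {f f' : St (Option I) → ℝ} (hf : ∀ s, 0 ≤ f s) (hf' : ∀ s, 0 ≤ f' s)
    (hA : ∀ s, f s ≠ 0 → Att z1 z2 X Y s)
    (hff : ∀ s, Valid P.n s.E → Att z1 z2 X Y s → f s ≤ f' (tw z1 z2 (X ∪ Y) s))
    {s : St (Option I)} (hs : Valid m0 s.E) :
    ev α P Z m0 f s ≤ (P.n1 : ℝ) ^ c * ev α P Z m0 f' s := by
  have hX' : ∀ x ∈ X, z1 < x ∧ z2 < x ∧ x < P.n1 := fun x hx => (hX x hx).2
  have hY' : ∀ x ∈ Y, z1 < x ∧ z2 < x ∧ x < P.n1 := fun x hx => (hY x hx).2
  have hAA : ∀ x ∈ X ∪ Y, z1 < x ∧ z2 < x := by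
    intro x hx
    rcases mem_union.1 hx with hx | hx
    · exact ⟨(hX' x hx).1, (hX' x hx).2.1⟩
    · exact ⟨(hY' x hx).1, (hY' x hx).2.1⟩
  have hz1 : z1 ∉ X ∪ Y := fun h => absurd (hAA _ h).1 (lt_irrefl _)
  have hz2 : z2 ∉ X ∪ Y := fun h => absurd (hAA _ h).2 (lt_irrefl _)
  have hcard' : 2 * (X.card : ℝ) ^ α ≤ c := by
    refine le_trans ?_ hcard
    apply mul_le_mul_of_nonneg_left _ (by norm_num)
    exact Real.rpow_le_rpow (by positivity) (by linarith [show (0:ℝ) ≤ X.card by positivity]) h0.le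
  have hal : Al z1 z2 X Y m0 s :=
    ⟨fun y hy hym => absurd (hX y hy).1 (by omega), fun y hy hym => absurd (hY y hy).1 (by omega)⟩
  have htw : tw z1 z2 (X ∪ Y) s = s := by
    have : (tw z1 z2 (X ∪ Y) s).E = s.E := by
      rw [tw_E]
      have : ∀ e ∈ s.E, twE z1 z2 (X ∪ Y) e = e := by
        intro e he
        unfold twE
        rw [if_neg]
        rintro ⟨x, hx, hxe⟩
        have h1 := hs.lt e he x hxe
        rcases mem_union.1 hx with hx | hx
        · have := (hX x hx).1; omega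
        · have := (hY x hx).1; omega
      rw [image_congr (g := id) (fun e he => this e he), image_id]
    cases s
    simp only [tw] at this ⊢
    rw [this]
  have h2 := exchange_aux (Z := Z) h0 h1 hP hm0 hX' hY' hc hcard' hf' hA hff (P.n - m0) m0 s
    le_rfl (by omega) hs hal
  rw [htw] at h2
  unfold ev
  refine h2.trans ?_
  apply mul_le_mul_of_nonneg_right _
    (itr_nonneg (fun m s v c => gP_nonneg m s v c) hf' _ _ _)
  refine (kap_le hm0 hmn).trans ?_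
  apply pow_le_pow_left₀ (by positivity)
  apply div_le_self (by positivity)
  exact_mod_cast hm0

end exchange

/-! ### the terminal functional is preserved -/

section theta

variable {z1 z2 : ℕ} {X Y : Finset ℕ} {s : St (Option I)}

theorem Att.al (h : Att z1 z2 X Y s) (m : ℕ) : Al z1 z2 X Y m s :=
  ⟨fun y hy _ => ⟨h.X1 y hy, h.X2 y hy, h.cX y hy⟩,
    fun y hy _ => ⟨h.Y2 y hy, h.Y1 y hy, h.cY y hy⟩⟩

theorem Att.swap (h : Att z1 z2 X Y s) : Att z2 z1 Y X s :=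
  ⟨h.c2, h.c1, h.cY, h.cX, h.Y2, h.Y1, h.X1, h.X2⟩

theorem Att.col_none (h : Att z1 z2 X Y s) {x : ℕ} (hx : x ∈ X ∪ Y) : s.col x = none := by
  rcases mem_union.1 hx with hx | hx
  · exact h.cX x hx
  · exact h.cY x hx

theorem Att.z1_notMem (h : Att z1 z2 X Y s) : z1 ∉ X ∪ Y := fun hx => h.c1 (h.col_none hx)
theorem Att.z2_notMem (h : Att z1 z2 X Y s) : z2 ∉ X ∪ Y := fun hx => h.c2 (h.col_none hx)

/-- the roles are exchanged in the re-parented state -/
theorem Att.tw (h : Att z1 z2 X Y s) : Att z2 z1 X Y (tw z1 z2 (X ∪ Y) s) := by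
  have h1 := h.z1_notMem
  have h2 := h.z2_notMem
  refine ⟨h.c2, h.c1, h.cX, h.cY, ?_, ?_, ?_, ?_⟩
  · intro x hx
    rw [mem_tw_in h1 h2 (mem_union_left _ hx), Equiv.swap_apply_right]
    exact h.X1 x hx
  · intro x hx
    rw [mem_tw_in h1 h2 (mem_union_left _ hx), Equiv.swap_apply_left]
    exact h.X2 x hx
  · intro x hx
    rw [mem_tw_in h1 h2 (mem_union_right _ hx), Equiv.swap_apply_left]
    exact h.Y2 x hx
  · intro x hx
    rw [mem_tw_in h1 h2 (mem_union_right _ hx), Equiv.swap_apply_right]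
    exact h.Y1 x hx

theorem Att.ne_hub (h : Att z1 z2 X Y s) {x : ℕ} (hx : s.col x = none) : x ≠ z1 ∧ x ≠ z2 :=
  ⟨fun he => h.c1 (he ▸ hx), fun he => h.c2 (he ▸ hx)⟩

/-- non-hub connectedness is unchanged -/
theorem Att.conn (h : Att z1 z2 X Y s) (x y : ℕ) :
    Conn (SeedPA.tw z1 z2 (X ∪ Y) s).E (nhS s) x y ↔ Conn s.E (nhS s) x y := by
  have key : adjN (SeedPA.tw z1 z2 (X ∪ Y) s).E (nhS s) = adjN s.E (nhS s) := by
    ext a b
    unfold adjN
    constructor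
    · rintro ⟨he, ha, hb⟩
      exact ⟨(mem_tw_ne h.z1_notMem h.z2_notMem (h.ne_hub ha).1 (h.ne_hub ha).2
        (h.ne_hub hb).1 (h.ne_hub hb).2).1 he, ha, hb⟩
    · rintro ⟨he, ha, hb⟩
      exact ⟨(mem_tw_ne h.z1_notMem h.z2_notMem (h.ne_hub ha).1 (h.ne_hub ha).2
        (h.ne_hub hb).1 (h.ne_hub hb).2).2 he, ha, hb⟩
  unfold Conn
  rw [key]

/-- component sizes are unchanged -/
theorem Att.cs (h : Att z1 z2 X Y s) (m x : ℕ) :
    cs m (SeedPA.tw z1 z2 (X ∪ Y) s) x = cs m s x := by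
  classical
  unfold SeedPA.cs csz
  congr 1
  apply filter_congr
  intro y _
  have := h.conn x y
  constructor
  · rintro ⟨a, b⟩; exact ⟨a, this.1 b⟩
  · rintro ⟨a, b⟩; exact ⟨a, this.2 b⟩

/-- edges between a hub and a vertex outside `A` -/
theorem Att.mem_hub_out (h : Att z1 z2 X Y s) {y x : ℕ} (hy : s.col y ≠ none) (hx : x ∉ X ∪ Y) :
    s(y, x) ∈ (SeedPA.tw z1 z2 (X ∪ Y) s).E ↔ s(y, x) ∈ s.E :=
  mem_tw_out h.z1_notMem h.z2_notMem (fun hm => hy (h.col_none hm)) hx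

theorem Att.bigAt_out (h : Att z1 z2 X Y s) {P : Par I} {y x : ℕ} (hy : s.col y ≠ none)
    (hx : x ∉ X ∪ Y) : BigAt P (SeedPA.tw z1 z2 (X ∪ Y) s) y x ↔ BigAt P s y x := by
  unfold BigAt
  rw [h.mem_hub_out hy hx, h.cs, tw_col]

theorem Att.bigAt_in (h : Att z1 z2 X Y s) {P : Par I} {y x : ℕ}
    (hx : x ∈ X ∪ Y) : BigAt P (SeedPA.tw z1 z2 (X ∪ Y) s) y x ↔
      BigAt P s (Equiv.swap z1 z2 y) x := by
  unfold BigAt
  rw [mem_tw_in h.z1_notMem h.z2_notMem hx, h.cs, tw_col]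

theorem Att.bigAt_X (h : Att z1 z2 X Y s) {P : Par I} (hX : ∀ x ∈ X, BigAt P s z1 x) :
    ∀ x ∈ X, BigAt P (SeedPA.tw z1 z2 (X ∪ Y) s) z2 x := by
  intro x hx
  rw [h.bigAt_in (mem_union_left _ hx), Equiv.swap_apply_right]
  exact hX x hx

theorem Att.bigAt_Y (h : Att z1 z2 X Y s) {P : Par I} (hY : ∀ x ∈ Y, BigAt P s z2 x) :
    ∀ x ∈ Y, BigAt P (SeedPA.tw z1 z2 (X ∪ Y) s) z1 x := by
  intro x hx
  rw [h.bigAt_in (mem_union_right _ hx), Equiv.swap_apply_left]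
  exact hY x hx

/-- a set which loses `X` and gains `Y` -/
theorem card_exch {S S' X Y A : Finset ℕ} (hA : X ⊆ A) (hYA : Y ⊆ A) (hc : X.card = Y.card)
    (hXS : X ⊆ S) (hSA : ∀ x ∈ S, x ∈ A → x ∈ X)
    (hS' : ∀ x, x ∈ S' ↔ (x ∉ A ∧ x ∈ S) ∨ x ∈ Y) : S'.card = S.card := by
  have e1 : S' = (S \ X) ∪ Y := by
    ext x
    rw [hS', mem_union, mem_sdiff]
    constructor
    · rintro (⟨h1, h2⟩ | h)
      · exact Or.inl ⟨h2, fun h => h1 (hA h)⟩
      · exact Or.inr h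
    · rintro (⟨h1, h2⟩ | h)
      · exact Or.inl ⟨fun h => h2 (hSA x h1 h), h1⟩
      · exact Or.inr h
  have d : Disjoint (S \ X) Y := by
    rw [disjoint_left]
    intro x hx hy
    rw [mem_sdiff] at hx
    exact hx.2 (hSA x hx.1 (hYA hy))
  rw [e1, card_union_of_disjoint d, card_sdiff_of_subset hXS]
  have := card_le_card hXS
  omega

/-- number of big components at the first hub -/
theorem Att.card_bigSet_z1 (h : Att z1 z2 X Y s) {P : Par I} (hc : X.card = Y.card)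
    (hX : ∀ x ∈ X, BigAt P s z1 x) (hY : ∀ y ∈ Y, BigAt P s z2 y) :
    (bigSet P (SeedPA.tw z1 z2 (X ∪ Y) s) z1).card = (bigSet P s z1).card := by
  classical
  apply card_exch (X := X) (Y := Y) (A := X ∪ Y) subset_union_left subset_union_right hc
  · intro x hx
    rw [bigSet, mem_filter, mem_range]
    exact ⟨(hX x hx).1, hX x hx⟩
  · intro x hx hxA
    rw [bigSet, mem_filter] at hx
    rcases mem_union.1 hxA with hxA | hxA
    · exact hxA
    · exact absurd hx.2.2.2.1 (h.Y1 x hxA)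
  · intro x
    simp only [bigSet, mem_filter, mem_range]
    constructor
    · rintro ⟨hxn, hb⟩
      by_cases hxA : x ∈ X ∪ Y
      · rw [h.bigAt_in hxA, Equiv.swap_apply_left] at hb
        rcases mem_union.1 hxA with hxA' | hxA'
        · exact absurd hb.2.2.1 (h.X2 x hxA')
        · exact Or.inr hxA'
      · rw [h.bigAt_out h.c1 hxA] at hb
        exact Or.inl ⟨hxA, hxn, hb⟩
    · rintro (⟨hxA, hxn, hb⟩ | hxY)
      · exact ⟨hxn, (h.bigAt_out h.c1 hxA).2 hb⟩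
      · have := hY x hxY
        refine ⟨this.1, ?_⟩
        rw [h.bigAt_in (mem_union_right _ hxY), Equiv.swap_apply_left]
        exact this

theorem tw_comm (z1 z2 : ℕ) (X Y : Finset ℕ) (s : St C) :
    tw z1 z2 (X ∪ Y) s = tw z2 z1 (Y ∪ X) s := by
  have : twE z1 z2 (X ∪ Y) = twE z2 z1 (Y ∪ X) := by
    ext1 e
    unfold twE
    rw [Equiv.swap_comm, union_comm]
  unfold tw
  rw [this]

theorem Att.card_bigSet (h : Att z1 z2 X Y s) {P : Par I} (hc : X.card = Y.card)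
    (hX : ∀ x ∈ X, BigAt P s z1 x) (hY : ∀ y ∈ Y, BigAt P s z2 y) {y : ℕ} (hy : s.col y ≠ none) :
    (bigSet P (SeedPA.tw z1 z2 (X ∪ Y) s) y).card = (bigSet P s y).card := by
  classical
  by_cases h1 : y = z1
  · subst h1
    exact h.card_bigSet_z1 hc hX hY
  · by_cases h2 : y = z2
    · subst h2
      rw [tw_comm]
      exact h.swap.card_bigSet_z1 hc.symm hY hX
    · congr 1
      unfold bigSet
      apply filter_congr
      intro x _
      by_cases hxA : x ∈ X ∪ Y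
      · rw [h.bigAt_in hxA, Equiv.swap_apply_of_ne_of_ne h1 h2]
      · exact h.bigAt_out hy hxA

theorem Att.card_nbr_z1 (h : Att z1 z2 X Y s) {m : ℕ} (hc : X.card = Y.card)
    (hX : ∀ x ∈ X, x < m) (hY : ∀ y ∈ Y, y < m) :
    (nbr m (SeedPA.tw z1 z2 (X ∪ Y) s).E z1).card = (nbr m s.E z1).card := by
  classical
  apply card_exch (X := X) (Y := Y) (A := X ∪ Y) subset_union_left subset_union_right hc
  · intro x hx
    rw [nbr, mem_filter, mem_range]
    exact ⟨hX x hx, h.X1 x hx⟩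
  · intro x hx hxA
    rw [nbr, mem_filter] at hx
    rcases mem_union.1 hxA with hxA | hxA
    · exact hxA
    · exact absurd hx.2 (h.Y1 x hxA)
  · intro x
    simp only [nbr, mem_filter, mem_range]
    constructor
    · rintro ⟨hxn, hb⟩
      by_cases hxA : x ∈ X ∪ Y
      · rw [mem_tw_in h.z1_notMem h.z2_notMem hxA, Equiv.swap_apply_left] at hb
        rcases mem_union.1 hxA with hxA' | hxA'
        · exact absurd hb (h.X2 x hxA')
        · exact Or.inr hxA'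
      · rw [h.mem_hub_out h.c1 hxA] at hb
        exact Or.inl ⟨hxA, hxn, hb⟩
    · rintro (⟨hxA, hxn, hb⟩ | hxY)
      · exact ⟨hxn, (h.mem_hub_out h.c1 hxA).2 hb⟩
      · refine ⟨hY x hxY, ?_⟩
        rw [mem_tw_in h.z1_notMem h.z2_notMem (mem_union_right _ hxY), Equiv.swap_apply_left]
        exact h.Y2 x hxY

theorem Att.card_nbr (h : Att z1 z2 X Y s) {m : ℕ} (hc : X.card = Y.card)
    (hX : ∀ x ∈ X, x < m) (hY : ∀ y ∈ Y, y < m) {y : ℕ} (hy : s.col y ≠ none) :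
    (nbr m (SeedPA.tw z1 z2 (X ∪ Y) s).E y).card = (nbr m s.E y).card := by
  classical
  by_cases h1 : y = z1
  · subst h1
    exact h.card_nbr_z1 hc hX hY
  · by_cases h2 : y = z2
    · subst h2
      rw [tw_comm]
      exact h.swap.card_nbr_z1 hc.symm hY hX
    · congr 1
      unfold nbr
      apply filter_congr
      intro x _
      by_cases hxA : x ∈ X ∪ Y
      · rw [mem_tw_in h.z1_notMem h.z2_notMem hxA, Equiv.swap_apply_of_ne_of_ne h1 h2]
      · exact h.mem_hub_out hy hxA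

theorem Att.hubAdj (h : Att z1 z2 X Y s) {n : ℕ} (hz1 : z1 < n) (hz2 : z2 < n) (x : ℕ) :
    HubAdj n (SeedPA.tw z1 z2 (X ∪ Y) s) x ↔ HubAdj n s x := by
  have hlt : ∀ y, y < n → Equiv.swap z1 z2 y < n := by
    intro y hy
    by_cases h1 : y = z1
    · subst h1; rwa [Equiv.swap_apply_left]
    · by_cases h2 : y = z2
      · subst h2; rwa [Equiv.swap_apply_right]
      · rwa [Equiv.swap_apply_of_ne_of_ne h1 h2]
  have hcol : ∀ y, s.col y ≠ none → s.col (Equiv.swap z1 z2 y) ≠ none := by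
    intro y hy
    by_cases h1 : y = z1
    · subst h1; rw [Equiv.swap_apply_left]; exact h.c2
    · by_cases h2 : y = z2
      · subst h2; rw [Equiv.swap_apply_right]; exact h.c1
      · rwa [Equiv.swap_apply_of_ne_of_ne h1 h2]
  unfold HubAdj
  constructor
  · rintro ⟨hxn, hc, y, hyn, hyc, he⟩
    refine ⟨hxn, hc, ?_⟩
    by_cases hxA : x ∈ X ∪ Y
    · rw [mem_tw_in h.z1_notMem h.z2_notMem hxA] at he
      exact ⟨_, hlt y hyn, hcol y hyc, he⟩
    · exact ⟨y, hyn, hyc, (h.mem_hub_out hyc hxA).1 he⟩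
  · rintro ⟨hxn, hc, y, hyn, hyc, he⟩
    refine ⟨hxn, hc, ?_⟩
    by_cases hxA : x ∈ X ∪ Y
    · refine ⟨_, hlt y hyn, hcol y hyc, ?_⟩
      rw [mem_tw_in h.z1_notMem h.z2_notMem hxA, Equiv.swap_apply_self]
      exact he
    · exact ⟨y, hyn, hyc, (h.mem_hub_out hyc hxA).2 he⟩

theorem Att.good_tw (h : Att z1 z2 X Y s) {P : Par I} {Z : SimpleGraph I}
    (hz1 : z1 < P.n) (hz2 : z2 < P.n) (hXr : X ⊆ range P.n1) (hYr : Y ⊆ range P.n1)
    (hc : X.card = Y.card) (hX : ∀ x ∈ X, BigAt P s z1 x) (hY : ∀ y ∈ Y, BigAt P s z2 y)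
    (hg : Good P Z s) : Good P Z (SeedPA.tw z1 z2 (X ∪ Y) s) := by
  have hXr' : ∀ x ∈ X, x < P.n1 := fun x hx => mem_range.1 (hXr hx)
  have hYr' : ∀ x ∈ Y, x < P.n1 := fun x hx => mem_range.1 (hYr hx)
  refine ⟨hg.ex, hg.uniq, ?_, ?_, ?_, ?_, ?_, ?_, ?_⟩
  · intro i i' x y hx hy h1 h2 hZ
    rw [tw_col] at h1 h2
    have hyc : s.col y ≠ none := by rw [h2]; simp
    have hxc : s.col x ≠ none := by rw [h1]; simp
    rw [h.mem_hub_out hxc (fun hm => hyc (h.col_none hm))]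
    exact hg.adj i i' x y hx hy h1 h2 hZ
  · intro x hx hcx
    rw [h.cs]
    exact hg.small x hx hcx
  · intro i y hy hcy
    rw [tw_col] at hcy
    rw [h.card_bigSet hc hX hY (by rw [hcy]; simp)]
    exact hg.lo i y hy hcy
  · intro i y hy hcy
    rw [tw_col] at hcy
    rw [h.card_bigSet hc hX hY (by rw [hcy]; simp)]
    exact hg.hi i y hy hcy
  · intro x hx hh
    rw [h.hubAdj hz1 hz2] at hh
    rw [h.cs]
    exact hg.g1 x hx hh
  · intro x hx hh hsm
    rw [h.hubAdj hz1 hz2] at hh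
    rw [h.cs] at hsm ⊢
    exact hg.g2 x hx hh hsm
  · intro y hy hcy
    rw [h.card_nbr hc hXr' hYr' hcy]
    exact hg.g3 y hy hcy

/-- the terminal functional is invariant under the exchange -/
theorem Att.Theta_tw (h : Att z1 z2 X Y s) {α : ℝ} {P : Par I} {Z : SimpleGraph I}
    (hP : P.n1 ≤ P.n) (hz1 : z1 < P.n) (hz2 : z2 < P.n)
    (hXr : X ⊆ range P.n1) (hYr : Y ⊆ range P.n1)
    (hc : X.card = Y.card) (hX : ∀ x ∈ X, BigAt P s z1 x) (hY : ∀ y ∈ Y, BigAt P s z2 y) :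
    Theta α P Z (SeedPA.tw z1 z2 (X ∪ Y) s) = Theta α P Z s := by
  have hXr' : ∀ x ∈ X, x < P.n := fun x hx => (mem_range.1 (hXr hx)).trans_le hP
  have hYr' : ∀ x ∈ Y, x < P.n := fun x hx => (mem_range.1 (hYr hx)).trans_le hP
  have hcf : cfac α P.n (SeedPA.tw z1 z2 (X ∪ Y) s).E = cfac α P.n s.E := by
    unfold cfac
    apply prod_congr rfl
    intro v _
    rw [deg_tw_eq (h.al P.n) h.z1_notMem h.z2_notMem hXr' hYr' hc]
  have hiff : Good P Z (SeedPA.tw z1 z2 (X ∪ Y) s) ↔ Good P Z s := by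
    constructor
    · intro hg
      have h' := h.tw
      have := h'.good_tw (P := P) hz2 hz1 hXr hYr hc (h.bigAt_X hX) (h.bigAt_Y hY) hg
      have e : SeedPA.tw z2 z1 (X ∪ Y) (SeedPA.tw z1 z2 (X ∪ Y) s) = s := by
        rw [tw_comm z2 z1, union_comm, tw_tw h.z1_notMem h.z2_notMem]
      rwa [e] at this
    · exact h.good_tw hz1 hz2 hXr hYr hc hX hY
  unfold Theta
  rw [hcf]
  by_cases hg : Good P Z s
  · rw [if_pos hg, if_pos (hiff.2 hg)]
  · rw [if_neg hg, if_neg (fun h' => hg (hiff.1 h'))]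

/-- packaged form (module D2) -/
theorem exchange_terminal {α : ℝ} {P : Par I} {Z : SimpleGraph I} (hP : P.n1 ≤ P.n)
    (hz1 : z1 < P.n) (hz2 : z2 < P.n) (hXr : X ⊆ range P.n1) (hYr : Y ⊆ range P.n1)
    (hc : X.card = Y.card) (h : Att z1 z2 X Y s)
    (hX : ∀ x ∈ X, BigAt P s z1 x) (hY : ∀ y ∈ Y, BigAt P s z2 y) :
    Theta α P Z (tw z1 z2 (X ∪ Y) s) = Theta α P Z s ∧
    Att z2 z1 X Y (tw z1 z2 (X ∪ Y) s) ∧
    (∀ x ∈ X, BigAt P (tw z1 z2 (X ∪ Y) s) z2 x) ∧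
    (∀ y ∈ Y, BigAt P (tw z1 z2 (X ∪ Y) s) z1 y) :=
  ⟨h.Theta_tw hP hz1 hz2 hXr hYr hc hX hY, h.tw, h.bigAt_X hX, h.bigAt_Y hY⟩

end theta

end SeedPA
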