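import Pool.Agent.SeedPA.Local
import Pool.Agent.SeedPA.Twist

/-!
# Degree regularity through the exchange lemma
-/

open Finset

namespace SeedPA

variable {I : Type*}

/-- invariants of histories starting at level `m0` in the state `sI` with a hub -/
structure Hist (m0 : ℕ) (sI : St (Option I)) (lev : ℕ) (s : St (Option I)) : Prop where
  le : m0 ≤ lev
  valid : Valid lev s.E
  hub : HasHub lev s
  old : ∀ x < m0, s.col x = sI.col x
  oldE : ∀ a < m0, ∀ b < m0, (s(a, b) ∈ s.E ↔ s(a, b) ∈ sI.E)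
  ex : ∀ y, m0 ≤ y → y < lev → ∃ p < y, s(p, y) ∈ s.E
  up : ∀ y, m0 ≤ y → y < lev → ∀ p < y, ∀ q < y, s(p, y) ∈ s.E → s(q, y) ∈ s.E → p = q
  hp : ∀ y, m0 ≤ y → y < lev → s.col y ≠ none → ∀ a < y, s(a, y) ∈ s.E → s.col a ≠ none

theorem Hist.init {m0 : ℕ} {s : St (Option I)} (hs : Valid m0 s.E) (hub : HasHub m0 s) :
    Hist m0 s m0 s :=
  ⟨le_rfl, hs, hub, fun _ _ => rfl, fun _ _ _ _ => Iff.rfl, fun y h1 h2 => by omega,
    fun y h1 h2 => by omega, fun y h1 h2 => by omega⟩

theorem mem_step_old {s : St (Option I)} {m v a b : ℕ} {c : Option I} (ha : a < m) (hb : b < m) :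
    s(a, b) ∈ (s.step m v c).E ↔ s(a, b) ∈ s.E := by
  rw [St.step_E, mem_insert]
  constructor
  · rintro (h | h)
    · rw [Sym2.eq_iff] at h; omega
    · exact h
  · exact Or.inr

theorem mem_step_new {s : St (Option I)} {m v a : ℕ} {c : Option I} (hs : Valid m s.E)
    (ha : a < m) : s(a, m) ∈ (s.step m v c).E ↔ a = v := by
  rw [St.step_E, mem_insert]
  constructor
  · rintro (h | h)
    · rw [Sym2.eq_iff] at h; omega
    · exact absurd h (hs.not_mem a)
  · rintro rfl; exact Or.inl rfl

theorem Hist.step {Z : SimpleGraph I} {m0 m : ℕ} {sI s : St (Option I)} (h : Hist m0 sI m s)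
    {v : ℕ} (hv : v < m) {c : Option I} (hok : okStep Z m s v c) :
    Hist m0 sI (m + 1) (s.step m v c) := by
  have hle := h.le
  refine ⟨by omega, h.valid.step hv, h.hub.step v c, ?_, ?_, ?_, ?_, ?_⟩
  · intro x hx
    rw [St.step_col_of_ne _ _ _ _ (by omega)]
    exact h.old x hx
  · intro a ha b hb
    rw [mem_step_old (by omega) (by omega)]
    exact h.oldE a ha b hb
  · intro y hy hym
    by_cases hyy : y = m
    · subst hyy
      exact ⟨v, hv, (mem_step_new h.valid hv).2 rfl⟩
    · obtain ⟨p, hp, hpe⟩ := h.ex y hy (by omega)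
      exact ⟨p, hp, (mem_step_old (by omega) (by omega)).2 hpe⟩
  · intro y hy hym p hp q hq h1 h2
    by_cases hyy : y = m
    · subst hyy
      rw [mem_step_new h.valid hp] at h1
      rw [mem_step_new h.valid hq] at h2
      rw [h1, h2]
    · rw [mem_step_old (by omega) (by omega)] at h1 h2
      exact h.up y hy (by omega) p hp q hq h1 h2
  · intro y hy hym hc a ha h1
    by_cases hyy : y = m
    · subst hyy
      rw [mem_step_new h.valid ha] at h1
      subst h1
      rw [St.step_col_self] at hc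
      rw [St.step_col_of_ne _ _ _ _ (by omega)]
      cases c with
      | none => exact absurd rfl hc
      | some i => exact okStep_hub h.hub hok
    · rw [mem_step_old (by omega) (by omega)] at h1
      rw [St.step_col_of_ne _ _ _ _ hyy] at hc
      rw [St.step_col_of_ne _ _ _ _ (by omega)]
      exact h.hp y hy (by omega) hc a ha h1

section count

variable [Fintype I] {α : ℝ} {P : Par I} {Z : SimpleGraph I}

theorem RvA_mono_hist {m0 : ℕ} (hmn : m0 ≤ P.n) {s : St (Option I)} (hs : Valid m0 s.E)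
    (hub : HasHub m0 s) {A B : St (Option I) → Prop}
    (h : ∀ s', Hist m0 s P.n s' → Good P Z s' → A s' → B s') :
    RvA α P Z m0 A s ≤ RvA α P Z m0 B s :=
  RvA_mono_inv (fun m s' => Hist m0 s m s') (fun _ _ _ _ _ hv hi hok => hi.step hv hok) h hmn
    (Hist.init hs hub)

open Classical in
/-- counting lower bound -/
theorem RvA_count_le {ι : Type*} (T : Finset ι) {m0 : ℕ} (hmn : m0 ≤ P.n) {s : St (Option I)}
    (hs : Valid m0 s.E) (hub : HasHub m0 s) {A : St (Option I) → Prop}
    {B : ι → St (Option I) → Prop} {c : ℕ}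
    (h : ∀ s', Hist m0 s P.n s' → Good P Z s' → A s' →
      ∃ S : Finset ι, (∀ i ∈ S, i ∈ T ∧ B i s') ∧ c ≤ S.card) :
    c * RvA α P Z m0 A s ≤ ∑ i ∈ T, RvA α P Z m0 (B i) s := by
  simp only [RvA_def]
  unfold ev
  rw [← itr_sum, ← itr_const_mul]
  apply itr_mono_inv (fun m s v c => gP_nonneg m s v c) (fun m s' => Hist m0 s m s') P.n _ _ _ _ _
    (by omega) (Hist.init hs hub)
  · intro x s v c _ hv hi hg
    apply hi.step hv (Z := Z)
    by_contra hc
    apply hg
    unfold gP; rw [if_neg hc]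
  · intro s hi
    have h0 : ∀ i ∈ T, 0 ≤ thA α P Z (B i) s := fun i _ => thA_nonneg _ _
    by_cases hG : Good P Z s
    · by_cases hA : A s
      · have h2 : c ≤ (T.filter (fun i => B i s)).card := by
          obtain ⟨S, hS1, hS2⟩ := h s hi hG hA
          exact hS2.trans (card_le_card (fun i hi => mem_filter.2 (hS1 i hi)))
        have h3 : ∑ i ∈ T, thA α P Z (B i) s =
            ((T.filter (fun i => B i s)).card : ℝ) * Theta α P Z s := by
          rw [← nsmul_eq_mul, ← sum_const, sum_filter]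
          apply sum_congr rfl; intro i _
          rfl
        rw [h3]
        have h4 : thA α P Z A s = Theta α P Z s := by unfold thA; rw [if_pos hA]
        rw [h4]
        exact mul_le_mul_of_nonneg_right (by exact_mod_cast h2) (Theta_nonneg _ _ _ _)
      · have h4 : thA α P Z A s = 0 := by unfold thA; rw [if_neg hA]
        rw [h4, mul_zero]
        exact sum_nonneg h0
    · have h5 : Theta α P Z s = 0 := by unfold Theta; rw [if_neg hG]
      have h4 : thA α P Z A s = 0 := by unfold thA; rw [h5]; simp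
      rw [h4, mul_zero]
      exact sum_nonneg h0

open Classical in
/-- counting upper bound -/
theorem RvA_count_ge {ι : Type*} (T : Finset ι) {m0 : ℕ} (hmn : m0 ≤ P.n) {s : St (Option I)}
    (hs : Valid m0 s.E) (hub : HasHub m0 s) {B : ι → St (Option I) → Prop} {c : ℕ}
    (h : ∀ s', Hist m0 s P.n s' → Good P Z s' →
      ∃ S : Finset ι, (∀ i ∈ T, B i s' → i ∈ S) ∧ S.card ≤ c) :
    ∑ i ∈ T, RvA α P Z m0 (B i) s ≤ c * Rv α P Z m0 s := by
  simp only [RvA_def]
  unfold Rv ev
  rw [← itr_sum, ← itr_const_mul]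
  apply itr_mono_inv (fun m s v c => gP_nonneg m s v c) (fun m s' => Hist m0 s m s') P.n _ _ _ _ _
    (by omega) (Hist.init hs hub)
  · intro x s v c _ hv hi hg
    apply hi.step hv (Z := Z)
    by_contra hc
    apply hg
    unfold gP; rw [if_neg hc]
  · intro s hi
    have h3 : ∑ i ∈ T, thA α P Z (B i) s =
        ((T.filter (fun i => B i s)).card : ℝ) * Theta α P Z s := by
      rw [← nsmul_eq_mul, ← sum_const, sum_filter]
      apply sum_congr rfl; intro i _
      rfl
    rw [h3]
    by_cases hG : Good P Z s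
    · have h2 : (T.filter (fun i => B i s)).card ≤ c := by
        obtain ⟨S, hS1, hS2⟩ := h s hi hG
        exact (card_le_card (fun i hi => hS1 i (mem_filter.1 hi).1 (mem_filter.1 hi).2)).trans hS2
      exact mul_le_mul_of_nonneg_right (by exact_mod_cast h2) (Theta_nonneg _ _ _ _)
    · have h5 : Theta α P Z s = 0 := by unfold Theta; rw [if_neg hG]
      rw [h5, mul_zero, mul_zero]

/-- the exchange inequality for the restricted values -/
theorem exch_core (h0 : 0 < α) (h1 : α < 1) (hP : P.n1 ≤ P.n) {m0 M z1 z2 : ℕ}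
    {X Y : Finset ℕ} (hm0 : 1 ≤ m0) (hmM : m0 ≤ M) (hM : M ≤ P.n1) (hz : z1 ≠ z2) (hz2 : z2 < m0)
    (hz1 : z1 < M) (hX : X ⊆ Ico m0 M) (hX1 : ∀ x ∈ X, z1 < x) (hY : Y ⊆ Ico M P.n1)
    (hc : X.card = Y.card) {c : ℕ} (hcard : 2 * (2 * X.card : ℝ) ^ α ≤ c)
    {B B' : St (Option I) → Prop}
    (hB : ∀ s, Valid P.n s.E → Att z1 z2 X Y s → B s → B' (tw z1 z2 (X ∪ Y) s))
    {s : St (Option I)} (hs : Valid m0 s.E) :
    RvA α P Z m0 (fun s => Att z1 z2 X Y s ∧ (∀ x ∈ X, BigAt P s z1 x) ∧
        (∀ y ∈ Y, BigAt P s z2 y) ∧ B s) s ≤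
      (P.n1 : ℝ) ^ c * RvA α P Z m0 (fun s => Att z2 z1 X Y s ∧ (∀ x ∈ X, BigAt P s z2 x) ∧
        (∀ y ∈ Y, BigAt P s z1 y) ∧ B' s) s := by
  rw [RvA_def, RvA_def]
  have hX' : ∀ x ∈ X, m0 ≤ x ∧ x < M := fun x hx => mem_Ico.1 (hX hx)
  have hY' : ∀ x ∈ Y, M ≤ x ∧ x < P.n1 := fun x hx => mem_Ico.1 (hY hx)
  apply exchange h0 h1 hP hm0 (by omega) hz (X := X) (Y := Y) _ _ _ hc hcard (thA_nonneg _)
    (thA_nonneg _) _ _ hs
  · intro x hx
    have := hX' x hx
    have := hX1 x hx
    omega
  · intro x hx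
    have := hY' x hx
    omega
  · rw [disjoint_left]
    intro x hx hy
    have := hX' x hx
    have := hY' x hy
    omega
  · intro s hne
    unfold thA at hne
    by_contra hcon
    apply hne
    rw [if_neg]
    rintro ⟨h, _⟩
    exact hcon h
  · intro s hv hatt
    unfold thA
    split_ifs with h2 h3 h3
    · obtain ⟨_, a, b, _⟩ := h2
      rw [(exchange_terminal (α := α) (Z := Z) hP (by omega) (by omega) (fun x hx => by
        have := hX' x hx; exact mem_range.2 (by omega)) (fun x hx => by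
        have := hY' x hx; exact mem_range.2 (by omega)) hc hatt a b).1]
    · exfalso
      obtain ⟨_, a, b, hBs⟩ := h2
      obtain ⟨_, t2, t3, t4⟩ := exchange_terminal (α := α) (Z := Z) hP (by omega) (by omega)
        (fun x hx => by
        have := hX' x hx; exact mem_range.2 (by omega)) (fun x hx => by
        have := hY' x hx; exact mem_range.2 (by omega)) hc hatt a b
      exact h3 ⟨t2, t3, t4, hB s hv hatt hBs⟩
    · exact Theta_nonneg _ _ _ _
    · exact le_rfl

end count

end SeedPA
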