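import Pool.Agent.SeedPA.CanonStep
import Pool.Agent.SeedPA.Early
import Pool.Agent.SeedPA.Exch

/-!
# The comparison lemma D (general form)
-/

open Finset

namespace SeedPA

variable {I : Type*}

theorem dec_leafs_le (M : ℕ) (i : I) (b : ℕ) : Dec (I := I) M (fun s => leafs M s i ≤ b) := by
  intro x hx s v c hs hv
  have : leafs M (s.step x v c) i = leafs M s i := by
    classical
    unfold leafs
    congr 1
    apply filter_congr
    intro a ha
    have ha' := mem_range.1 ha
    rw [St.step_col_of_ne _ _ _ _ (by omega)]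
    apply and_congr_right
    intro _
    constructor
    · rintro ⟨y, hy, h1, h2⟩
      rw [St.step_col_of_ne _ _ _ _ (by omega)] at h1
      exact ⟨y, hy, h1, (mem_step_old (by omega) (by omega)).1 h2⟩
    · rintro ⟨y, hy, h1, h2⟩
      refine ⟨y, hy, ?_, (mem_step_old (by omega) (by omega)).2 h2⟩
      rwa [St.step_col_of_ne _ _ _ _ (by omega)]
  show _ ≤ _ ↔ _ ≤ _
  rw [this]

theorem clean_perm_iff {m : ℕ} {s : St (Option I)} {σ : Equiv.Perm ℕ} (hσ : FixGE m σ) :
    Clean m (s.perm σ) ↔ Clean m s := by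
  constructor
  · intro h
    have := h.perm hσ.symm
    rwa [perm_symm_perm] at this
  · exact fun h => h.perm hσ

theorem ite01_mono {p q : Prop} [Decidable p] [Decidable q] (h : p → q) :
    (if p then (1:ℝ) else 0) ≤ if q then 1 else 0 := by
  by_cases hp : p
  · rw [if_pos hp, if_pos (h hp)]
  · rw [if_neg hp]; exact ite01_nonneg q

section leafdelay
variable [Fintype I] {α : ℝ} {P : Par I} {Z : SimpleGraph I}

/-- the event of the leaf delay lemma -/
def LfEv (M : ℕ) (i : I) (β : ℕ) (s : St (Option I)) : Prop := Clean M s ∧ leafs M s i ≤ β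

omit [Fintype I] in
theorem dec_LfEv (M : ℕ) (i : I) (β : ℕ) : Dec (I := I) M (LfEv M i β) :=
  (dec_clean M).and (dec_leafs_le M i β)

theorem RvA_LfEv_TInv (hP : P.n1 ≤ P.n) {M : ℕ} (hM : M ≤ P.n1) (i : I) (β : ℕ) {m : ℕ}
    (hm : m ≤ M) : TInv m (RvA α P Z m (LfEv M i β)) := by
  intro σ hσ s
  rw [RvA_def, RvA_def]
  apply ev_perm2 hσ
  intro s
  unfold thA
  rw [Theta_TInv hP Z σ (hσ.mono (by omega)) s]
  have : LfEv M i β (s.perm σ) ↔ LfEv M i β s := by
    unfold LfEv
    rw [clean_perm_iff (hσ.mono hm), leafs_perm (hσ.mono hm)]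
  by_cases h : LfEv M i β s
  · rw [if_pos h, if_pos (this.2 h)]
  · rw [if_neg h, if_neg (fun h' => h (this.1 h'))]

/-- a non-clean state cannot become clean -/
theorem RvA_LfEv_dead {m M a b : ℕ} {i : I} {β : ℕ} (hm : m ≤ P.n) (hmM : m ≤ M) (ha : a < m)
    (hb : b < m) {s : St (Option I)} (hs : Valid m s.E) (hac : s.col a = none)
    (hbc : s.col b = none) (he : s(a, b) ∈ s.E) : RvA α P Z m (LfEv M i β) s = 0 := by
  apply itr_dead (fun x s => m ≤ x ∧ Valid x s.E ∧ s.col a = none ∧ s.col b = none ∧ s(a, b) ∈ s.E) P.n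
  · rintro x s v c _ hv ⟨h0, h1, h2, h3, h4⟩ _
    refine ⟨by omega, h1.step hv, ?_, ?_, ?_⟩
    · rw [St.step_col_of_ne _ _ _ _ (by omega)]; exact h2
    · rw [St.step_col_of_ne _ _ _ _ (by omega)]; exact h3
    · exact (mem_step_old (by omega) (by omega)).2 h4
  · rintro s ⟨_, _, h2, h3, h4⟩
    rw [if_neg]
    rintro ⟨hc, _⟩
    rcases hc.2 a (by omega) b (by omega) h4 with h | h
    · exact h h2
    · exact h h3
  · omega
  · exact ⟨le_rfl, hs, hac, hbc, he⟩

open Classical in
/-- the two-sided structure for the leaves at the hub `z1` -/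
noncomputable def lfTS (Z : SimpleGraph I) (α : ℝ) (z1 : ℕ) (i : I) :
    TwoSided (St (Option I)) (ℕ × Option I) where
  Dom := fun m s => Valid m s.E ∧ Clean m s ∧ z1 < m ∧ s.col z1 = some i ∧
    ∀ x < m, s.col x = some i → x = z1
  TB := fun m _ => range m ×ˢ univ
  TA := fun m _ => range m ×ˢ univ
  wB := fun _ _ t => if t.2 = none ∧ t.1 = z1 then 1 else 0
  wA := fun m s t => if ¬ (t.2 = none ∧ t.1 = z1) ∧ s.col t.1 ≠ none ∧ okStep Z m s t.1 t.2
    then 1 else 0
  nB := fun m s t => s.step m t.1 t.2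
  nA := fun m s t => s.step m t.1 t.2
  Wt := fun m s => W α m s.E
  b := fun m s => leafs m s i

open Classical in
/-- **delay lemma for the leaves at a hub** -/
theorem delay_leaf (h0 : 0 < α) (h1 : α < 1) (hn1 : P.n1 ≤ P.n) {m M β z1 : ℕ} {i : I}
    (hm1 : 1 ≤ m) (hmM : m < M) (hM : M ≤ P.n1) {s : St (Option I)} (hs : Valid m s.E)
    (hc : Clean m s) (hz : z1 < m) (hzc : s.col z1 = some i)
    (hu : ∀ x < m, s.col x = some i → x = z1) (hb : leafs m s i ≤ β) :
    RvA α P Z (m + 1) (LfEv M i β) (s.step m z1 none) ≤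
      β / xi ((2:ℝ)^α) M m * RvA α P Z m (LfEv M i β) s := by
  set R : ℕ → St (Option I) → ℝ := fun m s => RvA α P Z m (LfEv M i β) s with hR
  have hR0 : ∀ m s, 0 ≤ R m s := fun m s => RvA_nonneg _ _ _
  have key := delay_abs (lfTS Z α z1 i) (κ := (2:ℝ)^α) (by positivity) (h := M) (β := β)
    (m0 := 1) le_rfl (R := R)
    (by intro m x t; dsimp [lfTS]; split_ifs <;> norm_num)
    (by intro m x t; dsimp [lfTS]; split_ifs <;> norm_num)
    ?hDB ?hDA ?hW ?hrec ?hcomm hR0 ?hz m s hm1 hmM ⟨hs, hc, hz, hzc, hu⟩ hb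
  case hDB =>
    rintro m s ⟨v, c⟩ hm1 hmh ⟨hs, hc, hz, hzc, hu⟩ hi hw
    dsimp [lfTS] at hw ⊢
    rw [ite_eq_right_iff, Classical.not_imp] at hw
    obtain ⟨⟨rfl, rfl⟩, _⟩ := hw
    refine ⟨⟨hs.step hz, hc.step hs hz (by rw [hzc]; simp), by omega, ?_, ?_⟩, ?_, hs.W_step_ge h0 hz⟩
    · rw [Function.update_of_ne (by omega)]; exact hzc
    · intro x hx hxc
      by_cases hxm : x = m
      · subst hxm
        rw [Function.update_self] at hxc
        simp at hxc
      · rw [Function.update_of_ne hxm] at hxc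
        exact hu x (by omega) hxc
    · rw [leafs_step_none hs hz hzc, if_pos rfl]
  case hDA =>
    rintro m s ⟨v, c⟩ hm1 hmh ⟨hs, hc, hz, hzc, hu⟩ hi hw
    have hv : v < m := by
      have := (mem_product.1 hi).1
      simpa using this
    dsimp [lfTS] at hw ⊢
    rw [ite_eq_right_iff, Classical.not_imp] at hw
    obtain ⟨⟨hnb, hvc, hok⟩, _⟩ := hw
    refine ⟨⟨hs.step hv, hc.step hs hv hvc, by omega, ?_, ?_⟩, ?_⟩
    · rw [Function.update_of_ne (by omega)]; exact hzc
    · intro x hx hxc
      by_cases hxm : x = m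
      · subst hxm
        rw [Function.update_self] at hxc
        subst hxc
        exact absurd hzc (hok.1 z1 hz)
      · rw [Function.update_of_ne hxm] at hxc
        exact hu x (by omega) hxc
    · cases c with
      | none =>
        obtain ⟨i', hi'⟩ := Option.ne_none_iff_exists'.1 hvc
        rw [leafs_step_none hs hv hi', if_neg, add_zero]
        rintro rfl
        exact hnb ⟨rfl, hu v hv hi'⟩
      | some i' => exact leafs_step_some hs hv hvc i
  case hW =>
    rintro m s hm1 hmh ⟨hs, _⟩
    exact ⟨hs.W_pos h0 hm1, hs.W_le h0 h1⟩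
  case hrec =>
    rintro m s hm1 hmh ⟨hs, hc, hz, hzc, hu⟩
    have hrec : W α m s.E * R m s = _ :=
      ev_rec (Z := Z) h0 hm1 (by omega : m < P.n) (f := thA α P Z (LfEv M i β)) hs
    show W α m s.E * R m s = _
    rw [hrec]
    dsimp [lfTS, TwoSided.uB, TwoSided.uA]
    rw [sum_product, sum_product, ← sum_add_distrib]
    apply sum_congr rfl; intro v hv
    have hv' := mem_range.1 hv
    rw [← sum_add_distrib]
    apply sum_congr rfl; intro c _
    by_cases h1 : c = none ∧ v = z1
    · obtain ⟨rfl, rfl⟩ := h1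
      have e0 : (if okStep Z m s v none then
          ev α P Z (m + 1) (thA α P Z (LfEv M i β)) (s.step m v none) else 0) =
          R (m + 1) (s.step m v none) := if_pos trivial
      rw [e0]
      simp only [and_self, if_true, one_mul, not_true_eq_false, false_and, if_false,
        zero_mul, add_zero]
    · by_cases h2 : s.col v = none
      · have e0 : (if okStep Z m s v c then
            ev α P Z (m + 1) (thA α P Z (LfEv M i β)) (s.step m v c) else 0) = 0 := by
          split_ifs with hok
          · cases c with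
            | none =>
              exact RvA_LfEv_dead (by omega) (by omega) (show v < m + 1 by omega)
                (show m < m + 1 by omega) (hs.step hv')
                (by rw [St.step_col_of_ne _ _ _ _ (by omega)]; exact h2)
                (by rw [St.step_col_self]) ((mem_step_new hs hv').2 rfl)
            | some i' => exact absurd h2 (okStep_hub hc.1 hok)
          · rfl
        rw [e0]
        simp [h1, h2]
      · by_cases h3 : okStep Z m s v c
        · simp [h1, h2, h3, R, RvA_def]
        · simp [h1, h3]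
  case hcomm =>
    rintro m s hm1 hmh ⟨hs, hc, hz, hzc, hu⟩
    have hinv : TInv (m + 2) (R (m + 2)) := RvA_LfEv_TInv hn1 hM i β (by omega)
    have := comm_general (m := m) (s := s) (f := R (m + 2))
      (wB := fun m s v c => (lfTS Z α z1 i).wB m s (v, c))
      (wA := fun m s v c => (lfTS Z α z1 i).wA m s (v, c))
      (by intro m s v c; dsimp [lfTS]; split_ifs <;> norm_num)
      (by intro m s v c; dsimp [lfTS]; split_ifs <;> norm_num)
      (hR0 _)
      (fun v a hv ha c c' => hinv.swap_steps le_rfl hs.lt hv ha c c')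
      (by
        intro v c hv hw c'
        dsimp [lfTS] at hw ⊢
        rw [ite_eq_right_iff, Classical.not_imp] at hw
        obtain ⟨⟨rfl, rfl⟩, _⟩ := hw
        apply if_neg
        rintro ⟨_, h, _⟩
        exact h (Function.update_self _ _ _))
      (by
        intro v c a c' hv ha
        dsimp [lfTS]
        by_cases h1 : c = none ∧ v = z1
        · obtain ⟨rfl, rfl⟩ := h1
          have e2 : Function.update s.col m none a = s.col a := by
            rw [Function.update_of_ne (by omega)]
          simp only [and_self, if_true, one_mul, mul_one]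
          apply ite01_mono
          rintro ⟨h3, h4, h5⟩
          rw [e2] at h4
          exact ⟨h3, h4, (okStep_step_none ha c').1 h5⟩
        · simp only [h1, if_false, zero_mul, mul_zero, le_refl])
    dsimp [TwoSided.uB, TwoSided.uA, lfTS]
    dsimp [lfTS] at this
    rw [sum_product, sum_product]
    simp only [sum_product]
    exact this
  case hz =>
    rintro s ⟨hs, _⟩ hb
    show RvA α P Z M (LfEv M i β) s = 0
    rw [RvA_decided (dec_LfEv M i β) (by omega) hs, if_neg]
    rintro ⟨_, h⟩
    have : β < leafs M s i := hb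
    omega
  dsimp [lfTS, TwoSided.uB] at key
  rw [sum_product] at key
  have e : ∑ v ∈ range m, ∑ c : Option I, (if c = none ∧ v = z1 then (1:ℝ) else 0) *
      R (m + 1) (s.step m v c) = R (m + 1) (s.step m z1 none) := by
    rw [sum_eq_single_of_mem z1 (mem_range.2 hz), sum_eq_single_of_mem none (mem_univ _)]
    · simp
    · intro c _ hc; simp [hc]
    · intro v _ hv
      apply sum_eq_zero; intro c _; simp [hv]
  have h2 : R (m + 1) (s.step m z1 none) ≤ (β - leafs m s i) / xi ((2:ℝ)^α) M m * R m s := by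
    rw [← e]
    exact key
  refine h2.trans ?_
  apply mul_le_mul_of_nonneg_right _ (hR0 _ _)
  apply div_le_div_of_nonneg_right _ (xi_nonneg (by positivity) _ _)
  have : (0:ℝ) ≤ leafs m s i := by positivity
  linarith

open Classical in
/-- **D**, general form -/
theorem D_gen (h0 : 0 < α) (h1 : α < 1) (hn01 : P.n0 ≤ P.n1) (hn1 : P.n1 ≤ P.n)
    (hβ : 1 ≤ P.β0) {m M z1 : ℕ} {i : I} (hm : 1 ≤ m) (hmM : m + 1 ≤ M) (hM : M < P.n0)
    (hz1 : z1 < m)
    {s : St (Option I)} (hs : Valid m s.E) (hc : Clean m s) (hc1 : s.col z1 = some i)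
    (hu : ∀ x < m, s.col x = some i → x = z1)
    {ρ0 ρ1 x : ℝ} {D : ℕ} (hρ1' : ρ0 ≤ 1) (hρ0 : P.β0 / xi ((2:ℝ)^α) P.n0 M ≤ ρ0)
    (hρ1 : P.β1 / xi ((2:ℝ)^α) P.n1 M * (Fintype.card I * P.D1 : ℕ) ≤ ρ1)
    (hx : RvA α P Z (m + 1) (fun s' => D ≤ ((Ico (m + 1) M).filter
      (fun x => BigAt P s' z1 x)).card) (s.step m z1 none) ≤
      x * Rv α P Z (m + 1) (s.step m z1 none))
    (hsum : M * ρ0 + M * ρ1 + x ≤ 1 / 2) :
    Rv α P Z (m + 1) (s.step m z1 none) ≤
      2 * ((D + m + 1 : ℕ) / xi ((2:ℝ)^α) M m) * Rv α P Z m s +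
      2 * RvA α P Z (m + 1) (fun s' => ¬ good0 P s') (s.step m z1 none) := by
  set s1 := s.step m z1 none with hs1
  have hs1v : Valid (m + 1) s1.E := hs.step hz1
  have hc1' : Clean (m + 1) s1 := hc.step hs hz1 (by rw [hc1]; simp)
  have hR := Rv_nonneg (α := α) (P := P) (Z := Z) (m + 1) s1
  set β := D + m + 1 with hβd
  have key : Rv α P Z (m + 1) s1 ≤ RvA α P Z (m + 1) (fun s' => ¬ Clean M s') s1 +
      (RvA α P Z (m + 1) (fun s' => ¬ EB P (m + 1) M s') s1 +
      (RvA α P Z (m + 1) (LfEv M i β) s1 +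
      RvA α P Z (m + 1) (fun s' => D ≤ ((Ico (m + 1) M).filter
        (fun x => BigAt P s' z1 x)).card) s1)) := by
    set Bs : Fin 4 → St (Option I) → Prop := ![fun s' => ¬ Clean M s',
      fun s' => ¬ EB P (m + 1) M s', LfEv M i β, fun s' => D ≤ ((Ico (m + 1) M).filter
        (fun x => BigAt P s' z1 x)).card] with hBs
    have h3 : Rv α P Z (m + 1) s1 = RvA α P Z (m + 1) (fun _ => True) s1 := by
      rw [RvA_def]
      unfold Rv thA
      simp
    have h2 : Rv α P Z (m + 1) s1 ≤
        RvA α P Z (m + 1) (fun s' => ∃ t ∈ (univ : Finset (Fin 4)), Bs t s') s1 := by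
      rw [h3]
      apply RvA_mono_hist (by omega) hs1v hc1'.1
      intro s' hi hG _
      by_cases hc' : Clean M s'
      · by_cases he' : EB P (m + 1) M s'
        · by_cases hl : leafs M s' i ≤ β
          · exact ⟨2, mem_univ _, hc', hl⟩
          · refine ⟨3, mem_univ _, ?_⟩
            show D ≤ ((Ico (m + 1) M).filter (fun x => BigAt P s' z1 x)).card
            have hz1c : s'.col z1 = some i := by
              rw [hi.old z1 (by omega), hs1, St.step_col_of_ne _ _ _ _ (by omega)]
              exact hc1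
            have hsub : (range M).filter (fun x => s'.col x = none ∧
                ∃ y < M, s'.col y = some i ∧ s(y, x) ∈ s'.E) ⊆
                range (m + 1) ∪ (Ico (m + 1) M).filter (fun x => BigAt P s' z1 x) := by
              intro x hx
              rw [mem_filter, mem_range] at hx
              obtain ⟨hxM, hxc, y, hy, hyc, hye⟩ := hx
              rw [mem_union, mem_range]
              by_cases hxm : x < m + 1
              · exact Or.inl hxm
              · right
                have hyz : y = z1 := hG.uniq i y z1 (by omega) (by omega) hyc hz1c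
                rw [hyz] at hye
                rw [mem_filter, mem_Ico]
                refine ⟨⟨by omega, hxM⟩, by omega, hxc, hye, ?_⟩
                exact he' x (by omega) hxM ⟨by omega, hxc, z1, by omega, by rw [hz1c]; simp, hye⟩
            have h5 := (card_le_card hsub).trans (card_union_le _ _)
            rw [card_range] at h5
            have h6 : leafs M s' i = ((range M).filter (fun x => s'.col x = none ∧
                ∃ y < M, s'.col y = some i ∧ s(y, x) ∈ s'.E)).card := rfl
            omega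
        · exact ⟨1, mem_univ _, he'⟩
      · exact ⟨0, mem_univ _, hc'⟩
    refine h2.trans ((RvA_union univ (fun s' _ h => h) (m + 1) s1).trans (le_of_eq ?_))
    rw [Fin.sum_univ_four]
    simp only [hBs, Matrix.cons_val_zero, Matrix.cons_val_one, Matrix.cons_val]
    ring
  have e3 := clean_bound (Z := Z) h0 h1 hn01 hn1 hβ hM hρ1' hρ0 (by omega : 1 ≤ m + 1) hmM hs1v hc1'
  have e4 := EB_bound (Z := Z) h0 h1 hn1 (by omega : 1 ≤ m + 1) (by omega : M < P.n1) hρ1 hs1v hc1'.1
  have e5 : RvA α P Z (m + 1) (LfEv M i β) s1 ≤ (β : ℝ) / xi ((2:ℝ)^α) M m * Rv α P Z m s := by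
    have hl : leafs m s i ≤ β := by
      have : leafs m s i ≤ m := by
        unfold leafs
        refine (card_filter_le _ _).trans ?_
        rw [card_range]
      omega
    refine (delay_leaf (Z := Z) h0 h1 hn1 hm (by omega) (by omega) hs hc hz1 hc1 hu hl).trans ?_
    apply mul_le_mul_of_nonneg_left (RvA_le_Rv _ _ _)
    exact div_nonneg (by positivity) (xi_nonneg (by positivity) _ _)
  have e6 : (M * ρ0 + M * ρ1 + x) * Rv α P Z (m + 1) s1 ≤ 1 / 2 * Rv α P Z (m + 1) s1 :=
    mul_le_mul_of_nonneg_right hsum hR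
  nlinarith

end leafdelay

end SeedPA
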