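import Pool.Agent.SeedPA.Forced
import Pool.Agent.SeedPA.Tails

/-!
# Existence: a lower bound for the probability of the event (module X)
-/

open Finset Relation

namespace SeedPA

variable {I : Type*} [Fintype I]

/-- the deterministic part: the final state is good -/
theorem good_of_events {P : Par I} {Z : SimpleGraph I} {L : I → ℕ} (hLi : Function.Injective L)
    (hP : P.n1 ≤ P.n) {l : ℕ} (hl : l ≤ P.n1) {E E' : ESet} (hLl : ∀ i, L i < l)
    (hadj : ∀ i j, Z.Adj i j → s(L i, L j) ∈ E)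
    (hnb : ∀ i, P.H i ≤ (nbI l E L i).card) (hH : ∀ i, 2 ≤ P.H i)
    (hE' : Ext l E P.n E') (hR : Reg P E')
    (e1 : ∀ z < l, nhL L z → csz P.n E' (nhL L) z * P.u ≤ P.n)
    (e2 : ∀ x, l ≤ x → x < P.n → csz P.n E' (fun z => x ≤ z) x * P.u ≤ P.n)
    (e3 : ∀ z < l, nhL L z → P.n ≤ csz P.n E' (nhL L) z * P.t)
    (e4 : ∀ i, (nbr P.n1 E' (L i)).card ≤ 3 * P.H i) : Good P Z ⟨E', colL L⟩ := by
  classical
  have hV := hE'.tree.valid
  have hcs : ∀ x, cs P.n (⟨E', colL L⟩ : St (Option I)) x = csz P.n E' (nhL L) x := fun x => rfl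
  refine Good0.good hP hH ?_ hV hl hE'.up hR
  constructor
  · intro i
    exact ⟨L i, by have := hLl i; omega, colL_self hLi i⟩
  · intro i x y _ _ h1 h2
    rw [← (colL_some hLi).1 h1, ← (colL_some hLi).1 h2]
  · intro i i' x y _ _ h1 h2 hij
    rw [← (colL_some hLi).1 h1, ← (colL_some hLi).1 h2]
    exact hE'.sub (hadj i i' hij)
  · intro x hx hxn
    rw [hcs]
    have hne : (compSet P.n E' (nhL L) x).Nonempty := ⟨x, self_mem_compSet hx hxn⟩
    set z0 := (compSet P.n E' (nhL L) x).min' hne with hz0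
    have hz0m : z0 ∈ compSet P.n E' (nhL L) x := min'_mem _ _
    obtain ⟨g1, g2, g3⟩ := mem_compSet.1 hz0m
    rw [csz_eq_of_conn g3]
    by_cases hzl : z0 < l
    · exact e1 z0 hzl g2
    · rw [not_lt] at hzl
      have h1 : csz P.n E' (nhL L) z0 ≤ csz P.n E' (fun w => z0 ≤ w) z0 := by
        apply csz_le_desc hV.lt hV.irrefl hE'.up hzl
        intro p hp hpE hnp
        have h2 : p ∈ compSet P.n E' (nhL L) x :=
          mem_compSet.2 ⟨by omega, hnp, g3.tail ⟨by rw [Sym2.eq_swap]; exact hpE, g2, hnp⟩⟩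
        have h3 := min'_le _ _ h2
        rw [← hz0] at h3
        omega
      exact (Nat.mul_le_mul_right _ h1).trans (e2 z0 hzl g1)
  · intro i y _ hy
    rw [← (colL_some hLi).1 hy]
    refine (hnb i).trans (card_le_card ?_)
    intro x hx
    rw [mem_nbI] at hx
    have hxn : x < P.n := by omega
    simp only [bigSet, mem_filter, mem_range, BigAt]
    exact ⟨hxn, hxn, hx.2.1, hE'.sub hx.2.2, e3 x hx.1 hx.2.1⟩
  · intro i y _ hy
    rw [← (colL_some hLi).1 hy]
    refine (card_le_card ?_).trans (e4 i)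
    intro x hx
    simp only [bigSet, mem_filter, mem_range, BigAt] at hx
    obtain ⟨hxn, _, hxc, hxE, hxb⟩ := hx
    simp only [nbr, mem_filter, mem_range]
    refine ⟨?_, hxE⟩
    by_contra hcon
    rw [not_lt] at hcon
    have hLx : L i < x := by have := hLl i; omega
    have h2 : csz P.n E' (nhL L) x ≤ csz P.n E' (fun w => x ≤ w) x := by
      apply csz_le_desc hV.lt hV.irrefl hE'.up (show l ≤ x by omega)
      intro p hp hpE hnh
      have : p = L i := hE'.up x (by omega) hxn p hp (L i) hLx hpE hxE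
      subst this
      exact nhL_iff.1 hnh i rfl
    have h3 := hR.r1 x hcon hxn
    have h4 := Nat.mul_le_mul_right P.t h2
    rw [hcs] at hxb
    omega

/-- degree tail for an old vertex -/
theorem deg_bound_old {α : ℝ} (h0 : 0 < α) (h1 : α < 1) {m k n D0 D y : ℕ} (hm : 1 ≤ m)
    (hmk : m ≤ k) (hkn : k ≤ n) (hy : y < m) (hD : D0 ≤ D) {E : ESet}
    (hE : TreeOn m E) (hdeg : deg E y ≤ D0) :
    pr α m (n - m) (ind (fun E' => D < (nbr k E' y).card)) E ≤
      (1 / 2) ^ (D + 1 - D0) * (k : ℝ) ^ (2 * ((D + 1 : ℕ):ℝ) ^ α) := by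
  have e : n - m = (k - m) + (n - k) := by omega
  rw [e, pr_comp, show m + (k - m) = k by omega]
  have hred : pr α m (k - m) (pr α k (n - k) (ind (fun E' => D < (nbr k E' y).card))) E ≤
      pr α m (k - m) (fun E' => if D + 1 ≤ deg E' y then 1 else 0) E := by
    apply pr_mono_tree hE
    intro E1 hE1
    rw [show m + (k - m) = k by omega] at hE1
    have h3 : pr α k (n - k) (ind (fun E' => D < (nbr k E' y).card)) E1 ≤
        pr α k (n - k) (fun _ => if D + 1 ≤ deg E1 y then 1 else 0) E1 := by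
      apply pr_le_inv (fun l E' => k ≤ l ∧ nbr k E' y = nbr k E1 y) n _ _ (n - k) k E1 (by omega)
        ⟨le_rfl, rfl⟩
      · rintro l E' v _ _ ⟨h4, h5⟩
        exact ⟨by omega, by rw [nbr_step h4 (by omega), h5]⟩
      · rintro E' ⟨_, h5⟩
        have e5 : (nbr k E' y).card = deg E1 y := by rw [h5, card_nbr_eq_deg hE1.valid]
        unfold ind
        simp only [e5]
        split_ifs with h6 h7 h7
        · exact le_rfl
        · exact absurd h6 h7
        · norm_num
        · exact le_rfl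
    rwa [pr_const h0 _ _ _ _ (by omega) hE1.valid] at h3
  refine hred.trans ?_
  have := deg_tail' h0 h1 (d := k - m) hm hE.valid hy (x := D + 1) (by omega)
  rw [show m + (k - m) = k by omega] at this
  refine this.trans ?_
  apply mul_le_mul_of_nonneg_right _ (by positivity)
  apply pow_le_pow_of_le_one (by norm_num) (by norm_num)
  omega

/-- the union bound at level `l` -/
theorem good_prob {α c C : ℝ} {m0 : ℕ} (h0 : 0 < α) (h1 : α < 1) (hc0 : 0 < c)
    (hc : ConcP α c C m0) {P : Par I} {Z : SimpleGraph I} {L : I → ℕ}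
    (hLi : Function.Injective L) (hP : P.n1 ≤ P.n) {l b : ℕ} (hl2 : 2 ≤ l) (hlm : m0 ≤ l)
    (hl : l ≤ P.n1) {E : ESet} (hE : TreeOn l E)
    (hLl : ∀ i, L i < l) (hadj : ∀ i j, Z.Adj i j → s(L i, L j) ∈ E)
    (hnb : ∀ i, (nbI l E L i).card = 2 * P.H i) (hH : ∀ i, 2 ≤ P.H i)
    (hHI : ∀ i, Fintype.card I ≤ P.H i)
    (hcomp : ∀ z < l, nhL L z → csz l E (nhL L) z = b) (hIb : Fintype.card I ≤ b)
    (hu : 1 ≤ P.u) (ht : 1 ≤ P.t) (hlt : (l:ℝ) ≤ c * b * P.t) :
    1 ≤ pr α l (P.n - l) (ind (fun E' => Good P Z ⟨E', colL L⟩)) E +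
      (pr α l (P.n - l) (ind (fun E' => ¬ Reg P E')) E +
      (l * Real.exp (-c * (1 / P.u) * l + C * b) +
      (Real.exp (-(c * (1 / P.u) * l)) * (1 + 1 / (c * (1 / P.u))) * Real.exp C +
      (l * Real.exp (-c * b) +
      ∑ i, (1 / 2) ^ (P.H i + 1 - Fintype.card I) *
        (P.n1 : ℝ) ^ (2 * ((3 * P.H i + 1 : ℕ):ℝ) ^ α))))) := by
  classical
  have huR : (0:ℝ) < P.u := by exact_mod_cast hu
  have htR : (0:ℝ) < P.t := by exact_mod_cast ht
  have hlR : (0:ℝ) < l := by exact_mod_cast (by omega : 0 < l)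
  have hln : l ≤ P.n := hl.trans hP
  have hnh : ∀ y, l ≤ y → nhL L y := fun y hy => nhL_iff.2 fun i hi => by
    have := hLl i; omega
  have hvIn : (vIn l (fun y => ¬ nhL L y)).card ≤ Fintype.card I := by
    rw [← card_univ]
    refine le_trans (card_le_card ?_) (card_image_le (s := (univ : Finset I)) (f := L))
    intro z hz
    rw [mem_vIn] at hz
    have h2 := hz.2
    rw [nhL_iff] at h2
    push Not at h2
    obtain ⟨i, hi⟩ := h2
    exact mem_image.2 ⟨i, mem_univ _, hi⟩
  -- the bad events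
  set B1 : ESet → Prop := fun E' => ∃ z ∈ (range l).filter (fun z => nhL L z),
    (1 / (P.u:ℝ)) * P.n ≤ (csz P.n E' (nhL L) z : ℝ) with hB1
  set B2 : ESet → Prop := fun E' => ∃ x ∈ Ico l P.n,
    (1 / (P.u:ℝ)) * P.n ≤ (csz P.n E' (fun z => x ≤ z) x : ℝ) with hB2
  set B3 : ESet → Prop := fun E' => ∃ z ∈ (range l).filter (fun z => nhL L z),
    (csz P.n E' (nhL L) z : ℝ) ≤ c * (csz l E (nhL L) z / l) * P.n with hB3
  set B4 : ESet → Prop := fun E' => ∃ i ∈ (univ : Finset I),
    3 * P.H i < (nbr P.n1 E' (L i)).card with hB4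
  have hsum : 1 ≤ pr α l (P.n - l) (ind (fun E' => Good P Z ⟨E', colL L⟩)) E +
      (pr α l (P.n - l) (ind (fun E' => ¬ Reg P E')) E + (pr α l (P.n - l) (ind B1) E +
      (pr α l (P.n - l) (ind B2) E + (pr α l (P.n - l) (ind B3) E +
      pr α l (P.n - l) (ind B4) E)))) := by
    rw [← pr_add, ← pr_add, ← pr_add, ← pr_add, ← pr_add]
    have h2 : pr α l (P.n - l) (fun _ => 1) E = 1 := pr_const h0 1 _ _ _ (by omega) hE.valid
    rw [← h2]
    apply pr_le_ext (n := P.n) hE (by omega)
    intro E' hE'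
    have n1 := ind_nonneg (fun E' => Good P Z ⟨E', colL L⟩) E'
    have n2 := ind_nonneg (fun E' => ¬ Reg P E') E'
    have n3 := ind_nonneg B1 E'
    have n4 := ind_nonneg B2 E'
    have n5 := ind_nonneg B3 E'
    have n6 := ind_nonneg B4 E'
    by_cases c2 : ¬ Reg P E'
    · rw [ind_of (A := fun E' => ¬ Reg P E') c2]; linarith
    by_cases c3 : B1 E'
    · rw [ind_of c3]; linarith
    by_cases c4 : B2 E'
    · rw [ind_of c4]; linarith
    by_cases c5 : B3 E'
    · rw [ind_of c5]; linarith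
    by_cases c6 : B4 E'
    · rw [ind_of c6]; linarith
    have c1 : Good P Z ⟨E', colL L⟩ := by
      rw [not_not] at c2
      rw [hB1] at c3
      rw [hB2] at c4
      rw [hB3] at c5
      rw [hB4] at c6
      push Not at c3 c4 c5 c6
      refine good_of_events hLi hP hl hLl hadj (fun i => by rw [hnb i]; omega) hH hE' c2
        ?_ ?_ ?_ (fun i => c6 i (mem_univ _))
      · intro z hz hzn
        have h3 := c3 z (mem_filter.2 ⟨mem_range.2 hz, hzn⟩)
        rw [one_div, inv_mul_eq_div, lt_div_iff₀ huR] at h3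
        exact_mod_cast h3.le
      · intro x hx hxn
        have h3 := c4 x (mem_Ico.2 ⟨hx, hxn⟩)
        rw [one_div, inv_mul_eq_div, lt_div_iff₀ huR] at h3
        exact_mod_cast h3.le
      · intro z hz hzn
        have h3 := c5 z (mem_filter.2 ⟨mem_range.2 hz, hzn⟩)
        rw [hcomp z hz hzn] at h3
        have h4 : (P.n:ℝ) ≤ csz P.n E' (nhL L) z * P.t := by
          have h5 : 1 ≤ c * (b / l) * P.t := by
            have : c * ((b:ℝ) / l) * P.t = (c * b * P.t) / l := by ring
            rw [this, le_div_iff₀ hlR]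
            linarith
          calc (P.n:ℝ) = P.n * 1 := by ring
            _ ≤ P.n * (c * (b / l) * P.t) := mul_le_mul_of_nonneg_left h5 (by positivity)
            _ = (c * (b / l) * P.n) * P.t := by ring
            _ ≤ _ := mul_le_mul_of_nonneg_right h3.le htR.le
        exact_mod_cast h4
    rw [ind_of (A := fun E' => Good P Z ⟨E', colL L⟩) c1]
    linarith
  refine hsum.trans ?_
  apply add_le_add le_rfl
  apply add_le_add le_rfl
  have hfc : ((range l).filter (fun z => nhL L z)).card ≤ l := by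
    refine (card_filter_le _ _).trans ?_
    rw [card_range]
  apply add_le_add
  · -- B1
    refine (pr_union_le _ _ _ _ _ (a := Real.exp (-c * (1 / P.u) * l + C * b)) ?_).trans ?_
    · intro z hz
      rw [mem_filter, mem_range] at hz
      have h2 := comp_upper hc hnh hl2 hlm hln hE hz.1 hz.2
        (by rw [hcomp z hz.1 hz.2]; omega) (y := 1 / (P.u:ℝ)) (by positivity)
      rwa [hcomp z hz.1 hz.2] at h2
    · apply mul_le_mul_of_nonneg_right _ (Real.exp_pos _).le
      exact_mod_cast hfc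
  apply add_le_add
  · -- B2
    refine (pr_union _ _ _ _ _).trans ?_
    have h2 : ∀ x ∈ Ico l P.n, pr α l (P.n - l) (ind (fun E' => (1 / (P.u:ℝ)) * P.n ≤
        (csz P.n E' (fun z => x ≤ z) x : ℝ))) E ≤ Real.exp (-((c * (1 / P.u)) * x)) * Real.exp C := by
      intro x hx
      rw [mem_Ico] at hx
      exact desc_upper h0 hc0 hc (by omega) (by omega) (by omega) hx.2 hE (by positivity)
    refine (sum_le_sum h2).trans ?_
    rw [← sum_mul]
    have hy : 0 < c * (1 / (P.u:ℝ)) := by positivity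
    have h3 := geo_sum hy hln
    exact mul_le_mul_of_nonneg_right h3 (Real.exp_pos C).le
  apply add_le_add
  · -- B3
    refine (pr_union_le _ _ _ _ _ (a := Real.exp (-c * b)) ?_).trans ?_
    · intro z hz
      rw [mem_filter, mem_range] at hz
      have h2 := comp_lower hc hnh hl2 hlm hln hE hz.1 hz.2
        (by rw [hcomp z hz.1 hz.2]; omega)
      rw [hcomp z hz.1 hz.2] at h2 ⊢
      exact h2
    · apply mul_le_mul_of_nonneg_right _ (Real.exp_pos _).le
      exact_mod_cast hfc
  · -- B4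
    refine (pr_union _ _ _ _ _).trans (sum_le_sum ?_)
    intro i _
    have hd : deg E (L i) ≤ 2 * P.H i + Fintype.card I := by
      rw [← card_nbr_eq_deg hE.valid]
      have hsub : nbr l E (L i) ⊆ nbI l E L i ∪ vIn l (fun y => ¬ nhL L y) := by
        intro x hx
        simp only [nbr, mem_filter, mem_range] at hx
        rw [mem_union, mem_nbI, mem_vIn]
        by_cases hx' : nhL L x
        · exact Or.inl ⟨hx.1, hx', hx.2⟩
        · exact Or.inr ⟨hx.1, hx'⟩
      refine (card_le_card hsub).trans ((card_union_le _ _).trans ?_)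
      rw [hnb i]
      omega
    have h2 := deg_bound_old h0 h1 (m := l) (k := P.n1) (n := P.n) (D0 := 2 * P.H i + Fintype.card I)
      (D := 3 * P.H i) (y := L i) (by omega) hl hP (hLl i) (by have := hHI i; omega) hE hd
    rwa [show 3 * P.H i + 1 - (2 * P.H i + Fintype.card I) = P.H i + 1 - Fintype.card I by omega]
      at h2

end SeedPA
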