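import Pool.Agent.SeedPA.ColorSum

/-!
# The forced path

From a tree on `{0,…,k-1}` containing a copy of `Z` one can force the attachment process into a
tree in which hub `i` has exactly `2 * Hh i` adjacent non-hubs, and all components of the non-hubs
have size `b`.
-/

open Finset Relation

namespace SeedPA

variable {I : Type*}

/-- non-hubs of a labelling -/
def nhL (L : I → ℕ) : ℕ → Prop := fun x => colL L x = none

theorem nhL_iff {L : I → ℕ} {x : ℕ} : nhL L x ↔ ∀ i, L i ≠ x := colL_none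

theorem csz_eq_of_conn {m : ℕ} {E : ESet} {nh : ℕ → Prop} {x y : ℕ} (h : Conn E nh x y) :
    csz m E nh x = csz m E nh y := by
  classical
  unfold csz
  congr 1
  ext z
  simp only [mem_filter, mem_range]
  constructor
  · rintro ⟨h1, h2, h3⟩
    exact ⟨h1, h2, h.symm.trans h3⟩
  · rintro ⟨h1, h2, h3⟩
    exact ⟨h1, h2, h.trans h3⟩

theorem exists_hubAdj {m : ℕ} {E : ESet} (hE : TreeOn m E) {L : I → ℕ} {i0 : I} (hL : L i0 < m)
    {z : ℕ} (hz : z < m) (hnz : nhL L z) :
    ∃ i, ∃ x < m, nhL L x ∧ s(L i, x) ∈ E ∧ Conn E (nhL L) z x := by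
  have h := hE.conn z hz (L i0) hL
  revert hz hnz
  unfold Conn at h
  induction h using ReflTransGen.head_induction_on with
  | refl => intro _ hnz; exact absurd rfl (nhL_iff.1 hnz i0)
  | @head a c hac _ ih =>
    intro hz hnz
    by_cases hc : nhL L c
    · have hcm : c < m := hE.valid.lt _ hac.1 c (by simp)
      obtain ⟨i, x, hx, h1, h2, h3⟩ := ih hcm hc
      exact ⟨i, x, hx, h1, h2, ReflTransGen.head ⟨hac.1, hnz, hc⟩ h3⟩
    · rw [nhL_iff] at hc
      push Not at hc
      obtain ⟨i, hi⟩ := hc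
      exact ⟨i, a, hz, hnz, by rw [hi, Sym2.eq_swap]; exact hac.1, Conn.refl _⟩

theorem Conn.self_class {E : ESet} {nh : ℕ → Prop} {x u : ℕ} (h : Conn E nh x u) :
    Conn E (fun z => Conn E nh x z) x u := by
  unfold Conn at h
  induction h with
  | refl => exact Conn.refl _
  | @tail b c hb hbc ih => exact ReflTransGen.tail ih ⟨hbc.1, hb, hb.tail hbc⟩

theorem hubAdj_unique {m : ℕ} (hm : 2 ≤ m) {E : ESet} (hE : TreeOn m E) {L : I → ℕ}
    (hconn : ∀ i j, Conn E (fun x => ∃ i, L i = x) (L i) (L j))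
    {i j : I} {x x' : ℕ} (hx : nhL L x) (hx' : nhL L x') (h1 : s(L i, x) ∈ E)
    (h2 : s(L j, x') ∈ E) (hc : Conn E (nhL L) x x') : x = x' ∧ L i = L j := by
  classical
  by_contra hne
  have hxm : x < m := hE.valid.lt _ h1 x (by simp)
  have hxm' : x' < m := hE.valid.lt _ h2 x' (by simp)
  have he : s(L i, x) ≠ s(L j, x') := by
    intro h
    rw [Sym2.eq_iff] at h
    rcases h with ⟨h3, h4⟩ | ⟨h3, h4⟩
    · exact hne ⟨h4, h3⟩
    · exact nhL_iff.1 hx' i h3
  set B : ℕ → Prop := fun z => Conn E (nhL L) x z with hB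
  set Hb : ℕ → Prop := fun z => ∃ i, L i = z with hHb
  have hBn : ∀ z, B z → nhL L z := fun z h => Conn.nh h hx
  have hdisj : ∀ z, B z → Hb z → False := by
    rintro z h ⟨a, ha⟩
    exact nhL_iff.1 (hBn z h) a ha
  have c1 := hE.card_eIn_lt hm (fun z => Hb z ∨ B z) ⟨x, hxm, Or.inr (Conn.refl _)⟩
  have c2 := hE.card_vIn_le hm Hb (by
    rintro u _ w _ ⟨a, rfl⟩ ⟨a', rfl⟩
    exact hconn a a')
  have c3 := hE.card_vIn_le hm B (by
    intro u _ w _ hu hw
    exact (Conn.self_class hu).symm.trans (Conn.self_class hw))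
  have c4 : (vIn m (fun z => Hb z ∨ B z)).card = (vIn m Hb).card + (vIn m B).card := by
    rw [← card_union_of_disjoint]
    · congr 1
      ext z
      simp only [mem_union, mem_vIn]
      tauto
    · rw [disjoint_left]
      intro z hz hz'
      rw [mem_vIn] at hz hz'
      exact hdisj z hz'.2 hz.2
  have c5 : (eIn Hb E).card + (eIn B E).card + 2 ≤ (eIn (fun z => Hb z ∨ B z) E).card := by
    have d1 : Disjoint (eIn Hb E) (eIn B E) := by
      rw [disjoint_left]
      intro e he he'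
      induction e using Sym2.ind with
      | _ a b =>
        rw [mem_eIn] at he he'
        exact hdisj a he'.2.1 he.2.1
    have d2 : Disjoint (eIn Hb E ∪ eIn B E) {s(L i, x), s(L j, x')} := by
      rw [disjoint_right]
      intro e he he'
      rw [mem_insert, mem_singleton] at he
      rw [mem_union] at he'
      rcases he with rfl | rfl
      · rw [mem_eIn, mem_eIn] at he'
        rcases he' with h | h
        · exact hdisj x (Conn.refl _) h.2.2
        · exact hdisj (L i) h.2.1 ⟨i, rfl⟩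
      · rw [mem_eIn, mem_eIn] at he'
        rcases he' with h | h
        · exact hdisj x' hc h.2.2
        · exact hdisj (L j) h.2.1 ⟨j, rfl⟩
    rw [← card_union_of_disjoint d1, ← card_pair he, ← card_union_of_disjoint d2]
    apply card_le_card
    intro e he
    rw [mem_union, mem_union, mem_insert, mem_singleton] at he
    rcases he with (h | h) | h | h
    · induction e using Sym2.ind with
      | _ a b =>
        rw [mem_eIn] at h ⊢
        exact ⟨h.1, Or.inl h.2.1, Or.inl h.2.2⟩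
    · induction e using Sym2.ind with
      | _ a b =>
        rw [mem_eIn] at h ⊢
        exact ⟨h.1, Or.inr h.2.1, Or.inr h.2.2⟩
    · rw [h, mem_eIn]
      exact ⟨h1, Or.inl ⟨i, rfl⟩, Or.inr (Conn.refl _)⟩
    · rw [h, mem_eIn]
      exact ⟨h2, Or.inl ⟨j, rfl⟩, Or.inr hc⟩
  omega

open Classical in
/-- non-hubs adjacent to hub `i` -/
noncomputable def nbI (m : ℕ) (E : ESet) (L : I → ℕ) (i : I) : Finset ℕ :=
  (range m).filter (fun x => nhL L x ∧ s(L i, x) ∈ E)

theorem mem_nbI {m : ℕ} {E : ESet} {L : I → ℕ} {i : I} {x : ℕ} :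
    x ∈ nbI m E L i ↔ x < m ∧ nhL L x ∧ s(L i, x) ∈ E := by
  classical
  simp [nbI]

/-- the number of vertices is the number of hubs plus the sizes of the components -/
theorem level_eq [Fintype I] {m : ℕ} (hm : 2 ≤ m) {E : ESet} (hE : TreeOn m E) {L : I → ℕ}
    (hLi : Function.Injective L) (hLm : ∀ i, L i < m) (i0 : I)
    (hconn : ∀ i j, Conn E (fun x => ∃ i, L i = x) (L i) (L j)) :
    m = Fintype.card I + ∑ i, ∑ x ∈ nbI m E L i, csz m E (nhL L) x := by
  classical
  set N := (range m).filter (fun z => nhL L z) with hN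
  set pairs : Finset (Σ _ : I, ℕ) := univ.sigma (fun i => nbI m E L i) with hpairs
  have hmem : ∀ p : (Σ _ : I, ℕ), p ∈ pairs ↔ p.2 < m ∧ nhL L p.2 ∧ s(L p.1, p.2) ∈ E := by
    intro p
    rw [hpairs, mem_sigma, mem_nbI]
    simp
  have hex : ∀ z, ∃ p : (Σ _ : I, ℕ), z ∈ N → p ∈ pairs ∧ Conn E (nhL L) z p.2 := by
    intro z
    by_cases hz : z ∈ N
    · have hz' := hz
      rw [hN, mem_filter, mem_range] at hz'
      obtain ⟨i, x, hx, h1, h2, h3⟩ := exists_hubAdj hE (hLm i0) hz'.1 hz'.2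
      exact ⟨⟨i, x⟩, fun _ => ⟨(hmem _).2 ⟨hx, h1, h2⟩, h3⟩⟩
    · exact ⟨⟨i0, 0⟩, fun h => absurd h hz⟩
  choose f hf using hex
  have h1 : N.card = ∑ p ∈ pairs, (N.filter (fun z => f z = p)).card :=
    card_eq_sum_card_fiberwise fun z hz => (hf z hz).1
  have h2 : ∀ p ∈ pairs, (N.filter (fun z => f z = p)).card = csz m E (nhL L) p.2 := by
    intro p hp
    have hp' := (hmem p).1 hp
    unfold csz
    congr 1
    ext z
    rw [mem_filter, hN, mem_filter, mem_filter, and_assoc]
    refine and_congr_right fun hzm => and_congr_right fun hzn => ?_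
    have hzN : z ∈ N := by rw [hN, mem_filter]; exact ⟨hzm, hzn⟩
    obtain ⟨g1, g2⟩ := hf z hzN
    constructor
    · intro h
      rw [h] at g2
      exact g2.symm
    · intro h
      have g3 := (hmem _).1 g1
      obtain ⟨g4, g5⟩ := hubAdj_unique hm hE hconn g3.2.1 hp'.2.1 g3.2.2 hp'.2.2
        (g2.symm.trans h.symm)
      have g6 := hLi g5
      exact Sigma.ext g6 (heq_of_eq g4)
  have h3 : (range m).card = N.card + ((range m).filter (fun z => ¬ nhL L z)).card := by
    rw [hN]
    exact (card_filter_add_card_filter_not _).symm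
  have h4 : ((range m).filter (fun z => ¬ nhL L z)).card = Fintype.card I := by
    rw [← card_univ, ← card_image_of_injective univ hLi]
    congr 1
    ext z
    rw [mem_filter, mem_image, mem_range, nhL_iff]
    constructor
    · rintro ⟨_, h⟩
      push Not at h
      obtain ⟨i, hi⟩ := h
      exact ⟨i, mem_univ _, hi⟩
    · rintro ⟨i, _, rfl⟩
      exact ⟨hLm i, fun h => h i rfl⟩
  have h5 : ∑ p ∈ pairs, csz m E (nhL L) p.2 = ∑ i, ∑ x ∈ nbI m E L i, csz m E (nhL L) x := by
    rw [hpairs, sum_sigma]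
  rw [card_range, h4, h1, sum_congr rfl h2, h5] at h3
  omega

/-- the invariant of the forced path -/
structure JInv (Z : SimpleGraph I) (Hh : I → ℕ) (b : ℕ) (L : I → ℕ) (m : ℕ) (E : ESet) : Prop where
  tree : TreeOn m E
  lt : ∀ i, L i < m
  adj : ∀ i j, Z.Adj i j → s(L i, L j) ∈ E
  nb : ∀ i, (nbI m E L i).card ≤ 2 * Hh i
  sz : ∀ z < m, nhL L z → csz m E (nhL L) z ≤ b

theorem card_nbI_step {m v : ℕ} {E : ESet} (hE : Valid m E) {L : I → ℕ} (hL : ∀ i, L i < m)
    (i : I) : (nbI (m + 1) (insert s(v, m) E) L i).card =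
      (nbI m E L i).card + if v = L i then 1 else 0 := by
  classical
  have hm : nhL L m := nhL_iff.2 fun j h => by have := hL j; omega
  have hiff : ∀ x, x < m → (s(L i, x) ∈ insert s(v, m) E ↔ s(L i, x) ∈ E) := by
    intro x hx
    rw [mem_insert]
    constructor
    · rintro (h | h)
      · rw [Sym2.eq_iff] at h
        have := hL i
        omega
      · exact h
    · exact Or.inr
  have hiff' : s(L i, m) ∈ insert s(v, m) E ↔ v = L i := by
    rw [mem_insert]
    constructor
    · rintro (h | h)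
      · rw [Sym2.eq_iff] at h
        have := hL i
        omega
      · exact absurd h (hE.not_mem _)
    · rintro rfl
      exact Or.inl rfl
  split_ifs with hv
  · rw [← card_insert_of_notMem (a := m) (s := nbI m E L i)
      (by rw [mem_nbI]; omega)]
    congr 1
    ext x
    rw [mem_insert, mem_nbI, mem_nbI]
    by_cases hxm : x = m
    · subst hxm
      exact ⟨fun _ => Or.inl rfl, fun _ => ⟨by omega, hm, hiff'.2 hv⟩⟩
    · constructor
      · rintro ⟨h1, h2, h3⟩
        exact Or.inr ⟨by omega, h2, (hiff x (by omega)).1 h3⟩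
      · rintro (h | ⟨h1, h2, h3⟩)
        · exact absurd h hxm
        · exact ⟨by omega, h2, (hiff x h1).2 h3⟩
  · rw [add_zero]
    congr 1
    ext x
    rw [mem_nbI, mem_nbI]
    by_cases hxm : x = m
    · subst hxm
      constructor
      · rintro ⟨_, _, h3⟩
        exact absurd (hiff'.1 h3) hv
      · rintro ⟨h1, _⟩
        omega
    · constructor
      · rintro ⟨h1, h2, h3⟩
        exact ⟨by omega, h2, (hiff x (by omega)).1 h3⟩
      · rintro ⟨h1, h2, h3⟩
        exact ⟨by omega, h2, (hiff x h1).2 h3⟩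

/-- the target level -/
def lvl [Fintype I] (Hh : I → ℕ) (b : ℕ) : ℕ := Fintype.card I + ∑ i, 2 * Hh i * b

section
variable [Fintype I] {Z : SimpleGraph I} {Hh : I → ℕ} {b : ℕ} {L : I → ℕ}

theorem JInv.exists_step (hZ : Z.Connected) (hLi : Function.Injective L) (hb : 1 ≤ b) {m : ℕ}
    (hm : 2 ≤ m) {E : ESet} (h : JInv Z Hh b L m E) (hlt : m < lvl Hh b) :
    ∃ v < m, JInv Z Hh b L (m + 1) (insert s(v, m) E) := by
  classical
  obtain ⟨i0⟩ := hZ.nonempty
  have hconn := hub_conn hZ h.adj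
  have heq := level_eq hm h.tree hLi h.lt i0 hconn
  have hmn : nhL L m := nhL_iff.2 fun j hj => by have := h.lt j; omega
  have hlt1 : ∀ i, L i < m + 1 := fun i => by have := h.lt i; omega
  have hadj1 : ∀ v, ∀ i j, Z.Adj i j → s(L i, L j) ∈ insert s(v, m) E := fun v i j hij =>
    mem_insert_of_mem (h.adj i j hij)
  by_cases hfull : ∀ i, (nbI m E L i).card = 2 * Hh i
  · -- some component is not full
    have hex : ∃ z < m, nhL L z ∧ csz m E (nhL L) z < b := by
      by_contra hc
      push Not at hc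
      have h1 : ∀ i ∈ (univ : Finset I), ∑ x ∈ nbI m E L i, csz m E (nhL L) x = 2 * Hh i * b := by
        intro i _
        rw [← hfull i, ← smul_eq_mul, ← sum_const]
        apply sum_congr rfl
        intro x hx
        rw [mem_nbI] at hx
        exact le_antisymm (h.sz x hx.1 hx.2.1) (hc x hx.1 hx.2.1)
      rw [sum_congr rfl h1] at heq
      unfold lvl at hlt
      omega
    obtain ⟨v, hv, hvn, hvb⟩ := hex
    refine ⟨v, hv, h.tree.step hv, hlt1, hadj1 v, ?_, ?_⟩
    · intro i
      rw [card_nbI_step h.tree.valid h.lt, if_neg (fun hc => nhL_iff.1 hvn i hc.symm), add_zero]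
      exact h.nb i
    · have hold : ∀ z < m, nhL L z → csz (m + 1) (insert s(v, m) E) (nhL L) z ≤ b := by
        intro z hz hzn
        rw [csz_insert_step h.tree.valid.lt (fun _ _ => Iff.rfl) hv hz]
        split_ifs with hc
        · rw [csz_eq_of_conn hc.2.2]
          omega
        · rw [add_zero]
          exact h.sz z hz hzn
      intro z hz hzn
      by_cases hzm : z = m
      · subst hzm
        have hc : Conn (insert s(v, z) E) (nhL L) v z :=
          (conn_insert_new h.tree.valid.lt (fun _ _ => Iff.rfl) hv hv).2 ⟨hzn, hvn, Conn.refl _⟩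
        rw [← csz_eq_of_conn hc]
        exact hold v hv hvn
      · exact hold z (by omega) hzn
  · -- some hub does not have enough neighbours
    push Not at hfull
    obtain ⟨i, hi⟩ := hfull
    have hlt2 : (nbI m E L i).card < 2 * Hh i := lt_of_le_of_ne (h.nb i) hi
    have hnv : ¬ nhL L (L i) := fun hc => nhL_iff.1 hc i rfl
    refine ⟨L i, h.lt i, h.tree.step (h.lt i), hlt1, hadj1 _, ?_, ?_⟩
    · intro j
      rw [card_nbI_step h.tree.valid h.lt]
      split_ifs with hc
      · rw [← hLi hc]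
        omega
      · rw [add_zero]
        exact h.nb j
    · intro z hz hzn
      by_cases hzm : z = m
      · subst hzm
        rw [csz_new_hub h.tree.valid.lt (fun _ _ => Iff.rfl) (h.lt i) hnv hzn]
        exact hb
      · rw [csz_insert_step h.tree.valid.lt (fun _ _ => Iff.rfl) (h.lt i) (by omega),
          if_neg (fun hc => hnv hc.2.1), add_zero]
        exact h.sz z (by omega) hzn

/-- at the target level all components have size `b` and hub `i` has `2 * Hh i` non-hub
neighbours -/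
theorem JInv.final (hZ : Z.Connected) (hLi : Function.Injective L) (hb : 1 ≤ b)
    (hl : 2 ≤ lvl Hh b) {E : ESet} (h : JInv Z Hh b L (lvl Hh b) E) :
    (∀ i, (nbI (lvl Hh b) E L i).card = 2 * Hh i) ∧
      ∀ z < lvl Hh b, nhL L z → csz (lvl Hh b) E (nhL L) z = b := by
  classical
  obtain ⟨i0⟩ := hZ.nonempty
  have hconn := hub_conn hZ h.adj
  have heq := level_eq hl h.tree hLi h.lt i0 hconn
  have h1 : ∀ i ∈ (univ : Finset I),
      ∑ x ∈ nbI (lvl Hh b) E L i, csz (lvl Hh b) E (nhL L) x ≤ 2 * Hh i * b := by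
    intro i _
    refine (sum_le_card_nsmul _ _ b ?_).trans ?_
    · intro x hx
      rw [mem_nbI] at hx
      exact h.sz x hx.1 hx.2.1
    · rw [smul_eq_mul]
      exact Nat.mul_le_mul_right b (h.nb i)
  have h2 : ∑ i, ∑ x ∈ nbI (lvl Hh b) E L i, csz (lvl Hh b) E (nhL L) x = ∑ i, 2 * Hh i * b := by
    have := heq
    conv_lhs at this => unfold lvl
    omega
  have h3 : ∀ i, ∑ x ∈ nbI (lvl Hh b) E L i, csz (lvl Hh b) E (nhL L) x = 2 * Hh i * b :=
    fun i => (sum_eq_sum_iff_of_le h1).1 h2 i (mem_univ i)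
  have h4 : ∀ i, (nbI (lvl Hh b) E L i).card = 2 * Hh i := by
    intro i
    refine le_antisymm (h.nb i) ?_
    have h5 : ∑ x ∈ nbI (lvl Hh b) E L i, csz (lvl Hh b) E (nhL L) x ≤
        (nbI (lvl Hh b) E L i).card * b := by
      rw [← smul_eq_mul]
      refine sum_le_card_nsmul _ _ b ?_
      intro x hx
      rw [mem_nbI] at hx
      exact h.sz x hx.1 hx.2.1
    rw [h3 i] at h5
    exact Nat.le_of_mul_le_mul_right h5 hb
  refine ⟨h4, ?_⟩
  intro z hz hzn
  obtain ⟨i, x, hx, g1, g2, g3⟩ := exists_hubAdj h.tree (h.lt i0) hz hzn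
  rw [csz_eq_of_conn g3]
  have h6 : ∑ x ∈ nbI (lvl Hh b) E L i, csz (lvl Hh b) E (nhL L) x =
      ∑ x ∈ nbI (lvl Hh b) E L i, b := by
    rw [h3 i, sum_const, h4 i, smul_eq_mul]
  exact (sum_eq_sum_iff_of_le fun y hy => by
    rw [mem_nbI] at hy
    exact h.sz y hy.1 hy.2.1).1 h6 x (mem_nbI.2 ⟨hx, g1, g2⟩)

variable {α : ℝ}

/-- the probability of the forced path -/
theorem pr_forced (h0 : 0 < α) (h1 : α < 1) (hZ : Z.Connected) (hLi : Function.Injective L)
    (hb : 1 ≤ b) {Ψ : ESet → ℝ} (hΨ : ∀ E, 0 ≤ Ψ E) {c0 : ℝ} (hc0 : 0 ≤ c0)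
    (hfin : ∀ E, JInv Z Hh b L (lvl Hh b) E → c0 ≤ Ψ E) :
    ∀ (d m : ℕ) (E : ESet), m + d = lvl Hh b → 2 ≤ m → JInv Z Hh b L m E →
      c0 * (1 / (2 * (lvl Hh b : ℝ))) ^ d ≤ pr α m d Ψ E := by
  intro d
  induction d with
  | zero =>
    intro m E hm _ h
    have hm' : m = lvl Hh b := by omega
    rw [hm'] at h
    rw [pow_zero, mul_one, pr_zero]
    exact hfin E h
  | succ d ih =>
    intro m E hm hm2 h
    obtain ⟨v, hv, hJ⟩ := h.exists_step hZ hLi hb hm2 (by omega)
    have h2 := ih (m + 1) _ (by omega) (by omega) hJ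
    rw [pr_succ]
    have h3 := single_le_sum (f := fun v => ((deg E v : ℝ) ^ α / W α m E) *
      pr α (m + 1) d Ψ (insert s(v, m) E)) (fun w _ => mul_nonneg (wt_nonneg m w E)
        (pr_nonneg hΨ _ _ _)) (mem_range.2 hv)
    refine le_trans ?_ h3
    have hW := h.tree.valid.W_pos h0 (by omega)
    have hW2 := h.tree.valid.W_le h0 h1
    have hd1 : (1:ℝ) ≤ (deg E v : ℝ) ^ α :=
      Real.one_le_rpow (by exact_mod_cast h.tree.valid.pos v hv) h0.le
    have h2α : (2:ℝ) ^ α ≤ 2 := by
      calc (2:ℝ) ^ α ≤ (2:ℝ) ^ (1:ℝ) := Real.rpow_le_rpow_of_exponent_le (by norm_num) h1.le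
        _ = 2 := Real.rpow_one 2
    have hmR : (m:ℝ) ≤ lvl Hh b := by exact_mod_cast (by omega : m ≤ lvl Hh b)
    have hm0 : (0:ℝ) < m := by exact_mod_cast (by omega : 0 < m)
    have hl0 : (0:ℝ) < lvl Hh b := by linarith
    have h4 : 1 / (2 * (lvl Hh b : ℝ)) ≤ (deg E v : ℝ) ^ α / W α m E := by
      rw [div_le_div_iff₀ (by positivity) hW, one_mul]
      calc W α m E ≤ (2:ℝ) ^ α * m := hW2
        _ ≤ 2 * (lvl Hh b : ℝ) := mul_le_mul h2α hmR hm0.le (by norm_num)
        _ ≤ (deg E v : ℝ) ^ α * (2 * (lvl Hh b : ℝ)) := by nlinarith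
    calc c0 * (1 / (2 * (lvl Hh b : ℝ))) ^ (d + 1)
        = (1 / (2 * (lvl Hh b : ℝ))) * (c0 * (1 / (2 * (lvl Hh b : ℝ))) ^ d) := by ring
      _ ≤ ((deg E v : ℝ) ^ α / W α m E) * pr α (m + 1) d Ψ (insert s(v, m) E) :=
          mul_le_mul h4 h2 (by positivity) (wt_nonneg m v E)

end

end SeedPA
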