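import Pool.Agent.SeedPA.DelayBorn

/-!
# The terminal event and the value functions

`Good P Z s` is the (almost isomorphism invariant) property of a coloured tree of size `P.n` whose
coloured vertices (hubs) form a copy of the tree `Z`; `Theta` is the terminal functional, `Rv` the
value function.
-/

open Finset

namespace SeedPA

/-- numerical parameters of the event -/
structure Par (I : Type*) where
  /-- final size -/
  n : ℕ
  /-- first horizon -/
  n0 : ℕ
  /-- second horizon -/
  n1 : ℕ
  /-- bound for component sizes at level `n0` -/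
  β0 : ℕ
  /-- bound at level `n1` for the size of components which are small at the end -/
  β1 : ℕ
  /-- all components satisfy `size * u ≤ n` at the end -/
  u : ℕ
  /-- a component is big if `n ≤ size * t` -/
  t : ℕ
  /-- bound on the degree of a hub at level `n1` -/
  D1 : ℕ
  /-- number of big components at the hubs is between `H i` and `3 * H i` -/
  H : I → ℕ

variable {I : Type*}

/-- `x` is a non-hub adjacent to a hub (labels `< n`) -/
def HubAdj (n : ℕ) (s : St (Option I)) (x : ℕ) : Prop :=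
  x < n ∧ s.col x = none ∧ ∃ y < n, s.col y ≠ none ∧ s(y, x) ∈ s.E

/-- `x` is a non-hub adjacent to `y` (labels `< n`) whose component is big -/
def BigAt (P : Par I) (s : St (Option I)) (y x : ℕ) : Prop :=
  x < P.n ∧ s.col x = none ∧ s(y, x) ∈ s.E ∧ P.n ≤ cs P.n s x * P.t

open Classical in
/-- the set of big components (represented by their vertex adjacent to `y`) -/
noncomputable def bigSet (P : Par I) (s : St (Option I)) (y : ℕ) : Finset ℕ :=
  (range P.n).filter (fun x => BigAt P s y x)

open Classical in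
/-- neighbours with label `< m` -/
noncomputable def nbr (m : ℕ) (E : ESet) (y : ℕ) : Finset ℕ :=
  (range m).filter (fun x => s(y, x) ∈ E)

/-- the terminal property -/
structure Good (P : Par I) (Z : SimpleGraph I) (s : St (Option I)) : Prop where
  /-- every colour is used, at a label `< n1` -/
  ex : ∀ i, ∃ x < P.n1, s.col x = some i
  /-- every colour is used once -/
  uniq : ∀ i x y, x < P.n → y < P.n → s.col x = some i → s.col y = some i → x = y
  /-- the hubs form a copy of `Z` -/
  adj : ∀ i i' x y, x < P.n → y < P.n → s.col x = some i → s.col y = some i' → Z.Adj i i' →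
    s(x, y) ∈ s.E
  /-- all components are small compared with `n` -/
  small : ∀ x < P.n, s.col x = none → cs P.n s x * P.u ≤ P.n
  /-- number of big components at hub `i` -/
  lo : ∀ i, ∀ y < P.n, s.col y = some i → P.H i ≤ (bigSet P s y).card
  hi : ∀ i, ∀ y < P.n, s.col y = some i → (bigSet P s y).card ≤ 3 * P.H i
  /-- late hub-adjacent vertices are not big -/
  g1 : ∀ x, P.n1 ≤ x → HubAdj P.n s x → cs P.n s x * P.t < P.n
  /-- early hub-adjacent vertices which are not big have a small component at level `n1` -/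
  g2 : ∀ x < P.n1, HubAdj P.n s x → cs P.n s x * P.t < P.n → cs P.n1 s x ≤ P.β1
  /-- degrees of hubs at level `n1` -/
  g3 : ∀ y < P.n, s.col y ≠ none → (nbr P.n1 s.E y).card ≤ P.D1

/-- product of the factorial weights of the degrees -/
noncomputable def cfac (α : ℝ) (n : ℕ) (E : ESet) : ℝ :=
  ∏ v ∈ range n, (((deg E v - 1).factorial : ℝ)) ^ α

open Classical in
/-- terminal functional -/
noncomputable def Theta (α : ℝ) (P : Par I) (Z : SimpleGraph I) (s : St (Option I)) : ℝ :=
  if Good P Z s then cfac α P.n s.E else 0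

/-- path sums with the hub policy up to the final level `P.n` -/
noncomputable def ev [Fintype I] (α : ℝ) (P : Par I) (Z : SimpleGraph I) (m : ℕ)
    (f : St (Option I) → ℝ) (s : St (Option I)) : ℝ := itr (gP α (okStep Z)) m (P.n - m) f s

/-- the value function -/
noncomputable def Rv [Fintype I] (α : ℝ) (P : Par I) (Z : SimpleGraph I) (m : ℕ)
    (s : St (Option I)) : ℝ := ev α P Z m (Theta α P Z) s

open Classical in
/-- value function restricted to final states with property `A` -/
noncomputable def RvA [Fintype I] (α : ℝ) (P : Par I) (Z : SimpleGraph I) (m : ℕ)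
    (A : St (Option I) → Prop) (s : St (Option I)) : ℝ :=
  ev α P Z m (fun s' => if A s' then Theta α P Z s' else 0) s

/-- a clean state: there is a hub and no two non-hubs are adjacent (labels `< m`) -/
def Clean (m : ℕ) (s : St (Option I)) : Prop :=
  HasHub m s ∧ ∀ x < m, ∀ y < m, s(x, y) ∈ s.E → s.col x ≠ none ∨ s.col y ≠ none

theorem cfac_nonneg (α : ℝ) (n : ℕ) (E : ESet) : 0 ≤ cfac α n E :=
  prod_nonneg fun _ _ => by positivity

theorem cfac_pos (α : ℝ) (n : ℕ) (E : ESet) : 0 < cfac α n E :=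
  prod_pos fun _ _ => Real.rpow_pos_of_pos (by exact_mod_cast Nat.factorial_pos _) _

/-- a step multiplies `cfac` by `deg ^ α` -/
theorem cfac_step {α : ℝ} {m : ℕ} {E : ESet} (hE : Valid m E) {v : ℕ} (hv : v < m) :
    cfac α (m + 1) (insert s(v, m) E) = cfac α m E * (deg E v : ℝ) ^ α := by
  unfold cfac
  rw [prod_range_succ]
  have h1 : deg (insert s(v, m) E) m = 1 := by
    rw [deg_insert (hE.not_mem v), hE.deg_zero le_rfl]; simp
  rw [h1]
  simp only [Nat.sub_self, Nat.factorial_zero, Nat.cast_one, Real.one_rpow, mul_one]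
  have h2 : ∀ x ∈ range m, (((deg (insert s(v, m) E) x - 1).factorial : ℝ)) ^ α =
      (((deg E x - 1).factorial : ℝ)) ^ α * if x = v then (deg E v : ℝ) ^ α else 1 := by
    intro x hx
    have hx' := mem_range.1 hx
    rw [deg_insert (hE.not_mem v)]
    by_cases hxv : x = v
    · subst hxv
      have hp := hE.pos x hx'
      simp only [true_or, if_true]
      rw [Nat.add_sub_cancel, ← Real.mul_rpow (by positivity) (by positivity)]
      congr 1
      have : deg E x = (deg E x - 1) + 1 := by omega
      conv_lhs => rw [this, Nat.factorial_succ]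
      rw [Nat.sub_add_cancel hp]
      push_cast
      ring
    · have : ¬ (x = v ∨ x = m) := by omega
      rw [if_neg this, if_neg hxv, add_zero, mul_one]
  rw [prod_congr rfl h2, prod_mul_distrib, prod_ite_eq' (range m) v, if_pos (mem_range.2 hv)]

theorem cfac_permE {α : ℝ} {m : ℕ} {σ : Equiv.Perm ℕ} (h : FixGE m σ) (E : ESet) :
    cfac α m (permE σ E) = cfac α m E := by
  unfold cfac
  apply (prod_bij (fun v _ => σ v) _ _ _ _).symm
  · intro v hv
    exact mem_range.2 ((h.lt_iff v).2 (mem_range.1 hv))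
  · intro a _ b _ hab
    exact σ.injective hab
  · intro b hb
    exact ⟨σ.symm b, mem_range.2 ((h.symm.lt_iff b).2 (mem_range.1 hb)), by simp⟩
  · intro a _
    rw [deg_permE]

theorem cs_perm' {s : St (Option I)} {σ : Equiv.Perm ℕ} {m : ℕ} (hσ : FixGE m σ) (x : ℕ) :
    cs m (s.perm σ) x = cs m s (σ.symm x) := by
  have := cs_perm (s := s) hσ (σ.symm x)
  simpa using this

theorem card_nbr_perm {E : ESet} {σ : Equiv.Perm ℕ} {m : ℕ} (hσ : FixGE m σ) (y : ℕ) :
    (nbr m (permE σ E) y).card = (nbr m E (σ.symm y)).card := by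
  symm
  apply card_bij (fun x _ => σ x)
  · intro x hx
    simp only [nbr, mem_filter, mem_range] at hx ⊢
    refine ⟨(hσ.lt_iff x).2 hx.1, ?_⟩
    rw [mem_permE']
    simpa using hx.2
  · intro a _ b _ h
    exact σ.injective h
  · intro x hx
    simp only [nbr, mem_filter, mem_range] at hx
    refine ⟨σ.symm x, ?_, by simp⟩
    simp only [nbr, mem_filter, mem_range]
    refine ⟨(hσ.symm.lt_iff x).2 hx.1, ?_⟩
    have := hx.2
    rwa [mem_permE'] at this

theorem bigAt_perm {P : Par I} {s : St (Option I)} {σ : Equiv.Perm ℕ} (hσ : FixGE P.n σ)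
    (y x : ℕ) : BigAt P (s.perm σ) y x ↔ BigAt P s (σ.symm y) (σ.symm x) := by
  unfold BigAt
  rw [hσ.symm.lt_iff, St.perm_col, St.perm_E, mem_permE', cs_perm' hσ]

theorem card_bigSet_perm {P : Par I} {s : St (Option I)} {σ : Equiv.Perm ℕ} (hσ : FixGE P.n σ)
    (y : ℕ) : (bigSet P (s.perm σ) y).card = (bigSet P s (σ.symm y)).card := by
  symm
  apply card_bij (fun x _ => σ x)
  · intro x hx
    simp only [bigSet, mem_filter, mem_range] at hx ⊢
    refine ⟨(hσ.lt_iff x).2 hx.1, ?_⟩
    rw [bigAt_perm hσ]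
    simpa using hx.2
  · intro a _ b _ h
    exact σ.injective h
  · intro x hx
    simp only [bigSet, mem_filter, mem_range] at hx
    refine ⟨σ.symm x, ?_, by simp⟩
    simp only [bigSet, mem_filter, mem_range]
    refine ⟨(hσ.symm.lt_iff x).2 hx.1, ?_⟩
    have := hx.2
    rwa [bigAt_perm hσ] at this

theorem hubAdj_perm {n : ℕ} {s : St (Option I)} {σ : Equiv.Perm ℕ} (hσ : FixGE n σ) (x : ℕ) :
    HubAdj n (s.perm σ) x ↔ HubAdj n s (σ.symm x) := by
  unfold HubAdj
  rw [hσ.symm.lt_iff, St.perm_col]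
  constructor
  · rintro ⟨h1, h2, y, hy, h3, h4⟩
    exact ⟨h1, h2, σ.symm y, (hσ.symm.lt_iff y).2 hy, h3, by rwa [St.perm_E, mem_permE'] at h4⟩
  · rintro ⟨h1, h2, y, hy, h3, h4⟩
    refine ⟨h1, h2, σ y, (hσ.lt_iff y).2 hy, by simpa using h3, ?_⟩
    rw [St.perm_E, mem_permE']
    simpa using h4

theorem Good.perm {P : Par I} (hP : P.n1 ≤ P.n) {Z : SimpleGraph I} {s : St (Option I)}
    (h : Good P Z s) {σ : Equiv.Perm ℕ} (hσ : FixGE P.n1 σ) : Good P Z (s.perm σ) := by
  have hσn : FixGE P.n σ := hσ.mono hP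
  constructor
  · intro i
    obtain ⟨x, hx, hc⟩ := h.ex i
    exact ⟨σ x, (hσ.lt_iff x).2 hx, by simpa using hc⟩
  · intro i x y hx hy h1 h2
    have := h.uniq i (σ.symm x) (σ.symm y) ((hσn.symm.lt_iff x).2 hx) ((hσn.symm.lt_iff y).2 hy)
      h1 h2
    exact σ.symm.injective this
  · intro i i' x y hx hy h1 h2 hZ
    rw [St.perm_E, mem_permE']
    exact h.adj i i' _ _ ((hσn.symm.lt_iff x).2 hx) ((hσn.symm.lt_iff y).2 hy) h1 h2 hZ
  · intro x hx hc
    rw [cs_perm' hσn]
    exact h.small _ ((hσn.symm.lt_iff x).2 hx) hc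
  · intro i y hy hc
    rw [card_bigSet_perm hσn]
    exact h.lo i _ ((hσn.symm.lt_iff y).2 hy) hc
  · intro i y hy hc
    rw [card_bigSet_perm hσn]
    exact h.hi i _ ((hσn.symm.lt_iff y).2 hy) hc
  · intro x hx hh
    rw [hubAdj_perm hσn] at hh
    rw [cs_perm' hσn]
    apply h.g1 _ _ hh
    by_contra hc
    rw [not_le, hσ.symm.lt_iff] at hc
    omega
  · intro x hx hh hsm
    rw [hubAdj_perm hσn] at hh
    rw [cs_perm' hσn] at hsm
    rw [cs_perm' hσ]
    exact h.g2 _ ((hσ.symm.lt_iff x).2 hx) hh hsm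
  · intro y hy hc
    rw [St.perm_E, card_nbr_perm hσ]
    exact h.g3 _ ((hσn.symm.lt_iff y).2 hy) hc

theorem perm_symm_perm {C : Type*} (s : St C) (σ : Equiv.Perm ℕ) : (s.perm σ).perm σ.symm = s := by
  ext x
  · induction x using Sym2.ind with
    | _ a b => simp [mem_permE']
  · simp

theorem good_perm_iff {P : Par I} (hP : P.n1 ≤ P.n) {Z : SimpleGraph I} {s : St (Option I)}
    {σ : Equiv.Perm ℕ} (hσ : FixGE P.n1 σ) : Good P Z (s.perm σ) ↔ Good P Z s := by
  constructor
  · intro h
    have := h.perm hP hσ.symm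
    rwa [perm_symm_perm] at this
  · exact fun h => h.perm hP hσ

theorem Theta_TInv {α : ℝ} {P : Par I} (hP : P.n1 ≤ P.n) (Z : SimpleGraph I) :
    TInv P.n1 (Theta α P Z) := by
  intro σ hσ s
  unfold Theta
  rw [good_perm_iff hP hσ, St.perm_E, cfac_permE (hσ.mono hP)]

theorem Theta_nonneg (α : ℝ) (P : Par I) (Z : SimpleGraph I) (s : St (Option I)) :
    0 ≤ Theta α P Z s := by
  unfold Theta
  split_ifs
  · exact cfac_nonneg _ _ _
  · exact le_rfl

section value
variable [Fintype I] {α : ℝ} {P : Par I} {Z : SimpleGraph I}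

theorem ev_nonneg {f : St (Option I) → ℝ} (hf : ∀ s, 0 ≤ f s) (m : ℕ) (s : St (Option I)) :
    0 ≤ ev α P Z m f s := itr_nonneg (fun m s v c => gP_nonneg m s v c) hf _ _ _

theorem Rv_nonneg (m : ℕ) (s : St (Option I)) : 0 ≤ Rv α P Z m s :=
  ev_nonneg (Theta_nonneg α P Z) m s

theorem RvA_nonneg (A : St (Option I) → Prop) (m : ℕ) (s : St (Option I)) :
    0 ≤ RvA α P Z m A s := by
  apply ev_nonneg
  intro s
  split_ifs
  · exact Theta_nonneg α P Z s
  · exact le_rfl

end value

end SeedPA
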