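import Pool.Agent.SeedPA.TV

/-!
# The attachment step on unlabeled graphs and monotonicity of the distance
-/

open scoped ENNReal
open Filter Topology

namespace SeedPA

theorem attach_adj {n : ℕ} {G : SimpleGraph (Fin n)} {v : Fin n} (a b : Fin n) :
    (attach G v).Adj a.castSucc b.castSucc ↔ G.Adj a b := by
  unfold attach
  rw [SimpleGraph.sup_adj, SimpleGraph.edge_adj]
  constructor
  · rintro (h | h)
    · rw [SimpleGraph.map_adj] at h
      obtain ⟨x, y, hxy, hx, hy⟩ := h
      have h1 : x = a := Fin.castSucc_injective n hx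
      have h2 : y = b := Fin.castSucc_injective n hy
      rwa [← h1, ← h2]
    · rcases h with ⟨⟨_, h⟩ | ⟨h, _⟩, _⟩
      · exact absurd h (Fin.castSucc_ne_last b)
      · exact absurd h (Fin.castSucc_ne_last a)
  · intro h
    left
    rw [SimpleGraph.map_adj]
    exact ⟨a, b, h, rfl, rfl⟩

theorem attach_adj_last {n : ℕ} {G : SimpleGraph (Fin n)} {v : Fin n} (a : Fin n) :
    (attach G v).Adj a.castSucc (Fin.last n) ↔ a = v := by
  unfold attach
  rw [SimpleGraph.sup_adj, SimpleGraph.edge_adj]
  constructor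
  · rintro (h | h)
    · rw [SimpleGraph.map_adj] at h
      obtain ⟨x, y, hxy, hx, hy⟩ := h
      exact absurd hy (Fin.castSucc_ne_last y)
    · rcases h with ⟨⟨h, _⟩ | ⟨h, _⟩, _⟩
      · exact Fin.castSucc_injective n h
      · exact absurd h (Fin.castSucc_ne_last a)
  · rintro rfl
    right
    exact ⟨Or.inl ⟨rfl, rfl⟩, Fin.castSucc_ne_last a⟩

theorem attach_last_adj {n : ℕ} {G : SimpleGraph (Fin n)} {v : Fin n} (a : Fin n) :
    (attach G v).Adj (Fin.last n) a.castSucc ↔ a = v := by
  rw [SimpleGraph.adj_comm, attach_adj_last]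

/-- extension of a permutation of `Fin n` to `Fin (n + 1)` -/
def extE {n : ℕ} (e : Fin n ≃ Fin n) : Fin (n + 1) ≃ Fin (n + 1) where
  toFun := Fin.lastCases (Fin.last n) fun i => (e i).castSucc
  invFun := Fin.lastCases (Fin.last n) fun i => (e.symm i).castSucc
  left_inv := by
    intro x
    refine Fin.lastCases ?_ (fun i => ?_) x
    · simp
    · simp
  right_inv := by
    intro x
    refine Fin.lastCases ?_ (fun i => ?_) x
    · simp
    · simp

@[simp] theorem extE_last {n : ℕ} (e : Fin n ≃ Fin n) : extE e (Fin.last n) = Fin.last n := by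
  simp [extE]

@[simp] theorem extE_castSucc {n : ℕ} (e : Fin n ≃ Fin n) (i : Fin n) :
    extE e i.castSucc = (e i).castSucc := by
  simp [extE]

/-- isomorphic graphs have isomorphic extensions -/
def attachIso {n : ℕ} {G H : SimpleGraph (Fin n)} (e : G ≃g H) (v : Fin n) :
    attach G v ≃g attach H (e v) where
  toEquiv := extE e.toEquiv
  map_rel_iff' := by
    intro a b
    refine Fin.lastCases ?_ (fun i => ?_) a
    · refine Fin.lastCases ?_ (fun j => ?_) b
      · simp
      · simp only [extE_last, extE_castSucc, attach_last_adj]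
        exact e.toEquiv.injective.eq_iff
    · refine Fin.lastCases ?_ (fun j => ?_) b
      · simp only [extE_last, extE_castSucc, attach_adj_last]
        exact e.toEquiv.injective.eq_iff
      · simp only [extE_castSucc, attach_adj]
        exact e.map_rel_iff

theorem dg_iso {n : ℕ} {G H : SimpleGraph (Fin n)} (e : G ≃g H) (v : Fin n) :
    dg H (e v) = dg G v := by
  unfold dg
  have : H.neighborSet (e v) = e '' (G.neighborSet v) := by
    ext w
    simp only [SimpleGraph.mem_neighborSet, Set.mem_image]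
    constructor
    · intro h
      refine ⟨e.symm w, ?_, by simp⟩
      rw [← e.map_adj_iff]
      simpa using h
    · rintro ⟨x, hx, rfl⟩
      exact e.map_adj_iff.2 hx
  rw [this, Set.ncard_image_of_injective _ e.injective]

theorem wgt_iso (α : ℝ) {n : ℕ} {G H : SimpleGraph (Fin n)} (e : G ≃g H) (v : Fin n) :
    wgt α H (e v) = wgt α G v := by
  unfold wgt
  rw [dg_iso]

theorem tsum_wgt_iso (α : ℝ) {n : ℕ} {G H : SimpleGraph (Fin n)} (e : G ≃g H) :
    ∑' v, wgt α H v = ∑' v, wgt α G v := by
  rw [← e.toEquiv.tsum_eq]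
  exact tsum_congr fun v => wgt_iso α e v

/-- the law of the step seen in the unlabeled world only depends on the isomorphism class -/
theorem paStep_iso (α : ℝ) {G H : FG} (h : Nonempty (G.2 ≃g H.2)) :
    (paStep α G).map (Quotient.mk isoSetoid) = (paStep α H).map (Quotient.mk isoSetoid) := by
  obtain ⟨e⟩ := h
  obtain ⟨n, G⟩ := G
  obtain ⟨m, H⟩ := H
  have hnm : n = m := by
    have := Fintype.card_congr e.toEquiv
    simpa using this
  subst hnm
  have hts := tsum_wgt_iso α e
  unfold paStep
  simp only at e ⊢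
  by_cases h0 : ∑' v, wgt α G v ≠ 0
  · have h0' : ∑' v, wgt α H v ≠ 0 := by rw [hts]; exact h0
    rw [dif_pos h0, dif_pos h0', PMF.map_comp, PMF.map_comp]
    have hn : PMF.normalize (wgt α H) h0' (tsum_wgt_ne_top α H) =
        (PMF.normalize (wgt α G) h0 (tsum_wgt_ne_top α G)).map e := by
      ext w
      rw [PMF.map_apply, tsum_eq_single (e.symm w)]
      · simp only [RelIso.apply_symm_apply, if_true, PMF.normalize_apply]
        rw [hts]
        congr 1
        have := wgt_iso α e (e.symm w)
        rwa [RelIso.apply_symm_apply] at this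
      · intro v hv
        rw [if_neg]
        rintro rfl
        exact hv (by simp)
    rw [hn, PMF.map_comp]
    congr 1
    funext v
    simp only [Function.comp_apply]
    exact Quotient.sound ⟨attachIso e v⟩
  · have h0' : ¬ ∑' v, wgt α H v ≠ 0 := by rw [hts]; exact h0
    rw [dif_neg h0, dif_neg h0']

/-- the attachment step on unlabeled graphs -/
noncomputable def stepU (α : ℝ) : Unlab → PMF Unlab :=
  Quotient.lift (fun G => (paStep α G).map (Quotient.mk isoSetoid)) fun _ _ h => paStep_iso α h

theorem map_bind_step (α : ℝ) (p : PMF FG) :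
    (p.bind (paStep α)).map (Quotient.mk isoSetoid) =
      (p.map (Quotient.mk isoSetoid)).bind (stepU α) := by
  rw [PMF.map_bind, PMF.bind_map]
  rfl

theorem PA_succ (α : ℝ) {n : ℕ} {S : FG} (h : S.1 ≤ n) :
    PA α (n + 1) S = (PA α n S).bind (stepU α) := by
  unfold PA
  rw [show n + 1 - S.1 = (n - S.1) + 1 by omega]
  show ((paLaw α S (n - S.1)).bind (paStep α)).map _ = _
  rw [map_bind_step]

theorem dTV_PA_succ_le (α : ℝ) {n : ℕ} {S T : FG} (hS : S.1 ≤ n) (hT : T.1 ≤ n) :
    dTV (PA α (n + 1) S) (PA α (n + 1) T) ≤ dTV (PA α n S) (PA α n T) := by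
  rw [PA_succ α hS, PA_succ α hT]
  exact dTV_bind_le _ _ _

/-- the distance converges; the limit is positive if the distance stays away from `0` -/
theorem exists_limit (α : ℝ) (S T : FG) {c : ℝ} (hc : 0 < c) {n0 : ℕ}
    (h : ∀ n, n0 ≤ n → c ≤ dTV (PA α n S) (PA α n T)) :
    ∃ δ : ℝ, 0 < δ ∧ Tendsto (fun n => dTV (PA α n S) (PA α n T)) atTop (𝓝 δ) := by
  set K := max n0 (max S.1 T.1) with hK
  set D : ℕ → ℝ := fun j => dTV (PA α (j + K) S) (PA α (j + K) T) with hD
  have hanti : Antitone D := by
    apply antitone_nat_of_succ_le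
    intro j
    simp only [hD]
    rw [show j + 1 + K = (j + K) + 1 by omega]
    exact dTV_PA_succ_le α (by omega) (by omega)
  have hbdd : BddBelow (Set.range D) := ⟨0, by rintro _ ⟨j, rfl⟩; exact dTV_nonneg _ _⟩
  have hlim := tendsto_atTop_ciInf hanti hbdd
  refine ⟨⨅ j, D j, ?_, (tendsto_add_atTop_iff_nat K).1 hlim⟩
  exact lt_of_lt_of_le hc (le_ciInf fun j => h _ (by omega))

end SeedPA
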