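import Pool.Agent.SeedPA.Await
import Pool.Agent.SeedPA.Forced

/-!
# Seeds without a hub, part A: the events
-/

open Finset Relation

namespace SeedPA

variable {I : Type*}

/-- all hubs hang off the seed vertex `p` behind its child `l`, and the rest is small -/
def aw (P : Par I) (p l : ℕ) (s : St (Option I)) : Prop :=
  l < P.n0 ∧ s(p, l) ∈ s.E ∧ (∀ h < P.n0, s.col h ≠ none → ¬ Conn s.E (fun z => z ≠ l) p h) ∧
    csz P.n0 s.E (fun z => z ≠ l) p ≤ P.β0 ∧ good0 P s

theorem dec_aw (P : Par I) {p : ℕ} (hp : p < P.n0) (l : ℕ) : Dec P.n0 (aw P p l) := by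
  intro x hx s v c hs hv
  unfold aw
  rw [dec_good0 P x hx s v c hs hv]
  by_cases hl : l < P.n0
  · simp only [hl, true_and]
    have e1 : s(p, l) ∈ (s.step x v c).E ↔ s(p, l) ∈ s.E := dec_edge hp hl x hx s v c hs hv
    have e2 : (∀ h < P.n0, (s.step x v c).col h ≠ none →
        ¬ Conn (s.step x v c).E (fun z => z ≠ l) p h) ↔
        (∀ h < P.n0, s.col h ≠ none → ¬ Conn s.E (fun z => z ≠ l) p h) := by
      constructor
      · intro h y hy hc
        have := h y hy (by rw [St.step_col_of_ne _ _ _ _ (by omega)]; exact hc)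
        rwa [St.step_E, conn_insert_old hs.lt (fun _ _ => Iff.rfl) hv (by omega) (by omega)] at this
      · intro h y hy hc
        rw [St.step_col_of_ne _ _ _ _ (by omega)] at hc
        rw [St.step_E, conn_insert_old hs.lt (fun _ _ => Iff.rfl) hv (by omega) (by omega)]
        exact h y hy hc
    have e3 : csz P.n0 (s.step x v c).E (fun z => z ≠ l) p = csz P.n0 s.E (fun z => z ≠ l) p := by
      rw [St.step_E, csz_insert_old hs.lt (fun _ _ => Iff.rfl) hv (by omega) hx]
    rw [e1, e2, e3]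
  · simp [hl]

theorem ne_symm_fun (σ : Equiv.Perm ℕ) (l : ℕ) :
    (fun z => z ≠ σ l) = (fun z => (fun w => w ≠ l) (σ.symm z)) := by
  funext z
  simp [Equiv.symm_apply_eq]

theorem aw_perm {P : Par I} {p l : ℕ} {s : St (Option I)} {σ : Equiv.Perm ℕ} (hσ : FixGE P.n0 σ) :
    aw P (σ p) (σ l) (s.perm σ) ↔ aw P p l s := by
  unfold aw
  have e1 := csz_perm (E := s.E) (nh := fun w => w ≠ l) hσ p
  rw [hσ.lt_iff, good0_perm hσ, St.perm_E, mem_permE, ne_symm_fun, e1]
  have e2 : (∀ h < P.n0, (s.perm σ).col h ≠ none →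
      ¬ Conn (permE σ s.E) (fun z => (fun w => w ≠ l) (σ.symm z)) (σ p) h) ↔
      (∀ h < P.n0, s.col h ≠ none → ¬ Conn s.E (fun z => z ≠ l) p h) := by
    constructor
    · intro h y hy hc
      have h1 := h (σ y) ((hσ.lt_iff y).2 hy) (by rw [St.perm_col, Equiv.symm_apply_apply]; exact hc)
      rwa [conn_perm (nh := fun w => w ≠ l)] at h1
    · intro h y hy hc
      rw [St.perm_col] at hc
      have h1 := h (σ.symm y) ((hσ.symm.lt_iff y).2 hy) hc
      rw [← conn_perm (nh := fun w => w ≠ l) σ, Equiv.apply_symm_apply] at h1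
      exact h1
  rw [e2]

section
variable [Fintype I] {α : ℝ} {P : Par I} {Z : SimpleGraph I}

theorem RvA_aw_perm (hn01 : P.n0 ≤ P.n1) (hP : P.n1 ≤ P.n) {m : ℕ} (hm : m ≤ P.n0)
    {σ : Equiv.Perm ℕ} (hσ : FixGE m σ) (p l : ℕ) (s : St (Option I)) :
    RvA α P Z m (aw P (σ p) (σ l)) (s.perm σ) = RvA α P Z m (aw P p l) s := by
  rw [RvA_def, RvA_def]
  apply ev_perm2 hσ
  intro s
  unfold thA
  rw [Theta_TInv hP Z σ (hσ.mono (hm.trans hn01)) s]
  by_cases h : aw P p l s
  · rw [if_pos h, if_pos ((aw_perm (hσ.mono hm)).2 h)]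
  · rw [if_neg h, if_neg (fun h' => h ((aw_perm (hσ.mono hm)).1 h'))]

/-- swapping two consecutive new labels -/
theorem RvA_aw_swap (hn01 : P.n0 ≤ P.n1) (hP : P.n1 ≤ P.n) {m : ℕ} (hm : m + 2 ≤ P.n0)
    {s : St (Option I)} (hs : Valid m s.E) {v a p : ℕ} (hv : v < m) (ha : a < m) (hp : p < m)
    (c c' : Option I) (l : ℕ) :
    RvA α P Z (m + 2) (aw P p l) ((s.step m v c).step (m + 1) a c') =
      RvA α P Z (m + 2) (aw P p (Equiv.swap m (m + 1) l))
        ((s.step m a c').step (m + 1) v c) := by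
  have hp' : Equiv.swap m (m + 1) p = p := Equiv.swap_apply_of_ne_of_ne (by omega) (by omega)
  have h := RvA_aw_perm (α := α) (Z := Z) hn01 hP hm (fixGE_swap m) p l
    ((s.step m v c).step (m + 1) a c')
  rw [St.step_step_swap hs.lt hv ha c c', hp'] at h
  exact h.symm

/-- the event is impossible if the edge is missing -/
theorem RvA_aw_nonadj {m p l : ℕ} (hm : m ≤ P.n) (hl : l < m) (hp : p < m)
    {s : St (Option I)} (hE : s(p, l) ∉ s.E) :
    RvA α P Z m (aw P p l) s = 0 := by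
  apply itr_dead (fun x s => p < x ∧ l < x ∧ s(p, l) ∉ s.E) P.n
  · rintro x s v c _ hv ⟨h1, h2, h4⟩ _
    refine ⟨by omega, by omega, ?_⟩
    rw [St.step_E, mem_insert]
    rintro (h | h)
    · rw [Sym2.eq_iff] at h; omega
    · exact h4 h
  · rintro s ⟨_, _, h4⟩
    rw [if_neg]
    rintro ⟨_, h5, _⟩
    exact h4 h5
  · omega
  · exact ⟨hp, hl, hE⟩

/-- the event is impossible if there is a hub on the wrong side -/
theorem RvA_aw_dead (hn : P.n0 ≤ P.n) {m p l h : ℕ} (hm : m ≤ P.n0) (hp : p < m)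
    {s : St (Option I)} (hs : TreeOn m s.E) (hh : h < m) (hc : s.col h ≠ none)
    (hcon : m ≤ l ∨ Conn s.E (fun z => z ≠ l) p h) :
    RvA α P Z m (aw P p l) s = 0 := by
  apply itr_dead (fun x s => p < x ∧ TreeOn x s.E ∧ h < x ∧ h < P.n0 ∧ s.col h ≠ none ∧
    (x ≤ l ∨ Conn s.E (fun z => z ≠ l) p h)) P.n
  · rintro x s v c _ hv ⟨h1, h2, h3, h4, h5, h6⟩ _
    refine ⟨by omega, h2.step hv, by omega, h4, by rwa [St.step_col_of_ne _ _ _ _ (by omega)], ?_⟩
    rcases h6 with h6 | h6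
    · rcases Nat.eq_or_lt_of_le h6 with h7 | h7
      · right
        rw [St.step_E, conn_insert_old (nh := fun _ => True) h2.valid.lt
          (fun z hz => ⟨fun _ => trivial, fun _ => by omega⟩) hv h1 h3]
        exact h2.conn p h1 h h3
      · left; omega
    · right
      rw [St.step_E, conn_insert_old h2.valid.lt (fun _ _ => Iff.rfl) hv h1 h3]
      exact h6
  · rintro s ⟨_, _, _, h4, h5, h6⟩
    rw [if_neg]
    rintro ⟨h7, _, h8, _⟩
    rcases h6 with h6 | h6
    · omega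
    · exact h8 h h4 h5 h6
  · omega
  · exact ⟨hp, hs, hh, by omega, hc, hcon⟩

/-- a vertex of a tree can be reached from `p` avoiding one of two neighbours of `p` -/
theorem conn_avoid {m : ℕ} (hm : 2 ≤ m) {E : ESet} (hE : TreeOn m E) {p l l' z : ℕ} (hp : p < m)
    (hz : z < m) (hl : s(p, l) ∈ E) (hl' : s(p, l') ∈ E) (hne : l ≠ l') :
    Conn E (fun w => w ≠ l) p z ∨ Conn E (fun w => w ≠ l') p z := by
  have hpl : p ≠ l := by
    rintro rfl; exact hE.valid.irrefl _ hl
  have hpl' : p ≠ l' := by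
    rintro rfl; exact hE.valid.irrefl _ hl'
  by_cases hzp : z = p
  · left; rw [hzp]; exact Conn.refl _
  set L : Unit → ℕ := fun _ => p with hL
  have hnh : ∀ w, nhL L w ↔ w ≠ p := by
    intro w
    rw [nhL_iff]
    constructor
    · intro h hw; exact h () hw.symm
    · intro h _ hw; exact h hw.symm
  obtain ⟨_, w, hw, hwn, hwE, hwz⟩ := exists_hubAdj (L := L) hE (i0 := ()) hp hz ((hnh z).2 hzp)
  have hconn : ∀ i j : Unit, Conn E (fun x => ∃ i, L i = x) (L i) (L j) := fun _ _ => Conn.refl _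
  -- the path from `w` to `z` avoids every other neighbour of `p`
  have key : ∀ k, s(p, k) ∈ E → p ≠ k → w ≠ k → Conn E (fun y => y ≠ k) p z := by
    intro k hk hpk hwk
    have h1 : Conn E (fun y => y ≠ k) w z := by
      have h2 := Conn.self_class hwz.symm
      have h3 : ∀ y, Conn E (nhL L) w y → y ≠ k := by
        rintro y hy rfl
        have := (hubAdj_unique hm hE hconn (i := ()) (j := ()) hwn (hy.nh hwn) hwE hk hy).1
        exact hwk this
      unfold Conn at h2 ⊢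
      refine ReflTransGen.mono ?_ _ _ h2
      intro a b hab
      exact ⟨hab.1, h3 a hab.2.1, h3 b hab.2.2⟩
    exact ReflTransGen.head ⟨hwE, hpk, hwk⟩ h1
  by_cases hwl : w = l
  · right
    exact key l' hl' hpl' (by rw [hwl]; exact hne)
  · left
    exact key l hl hpl hwl

theorem itr_eq_sum_le {m : ℕ} (hn01 : P.n0 ≤ P.n1) (hn1 : P.n1 ≤ P.n) (hm2 : 2 ≤ m) (hm : m ≤ P.n0)
    {s : St (Option I)} (hs : TreeOn m s.E) {p : ℕ} (hp : p < m) (T : Finset ℕ) :
    ∑ l ∈ T, RvA α P Z m (aw P p l) s ≤ Rv α P Z m s := by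
  classical
  unfold RvA Rv ev
  rw [← itr_sum]
  apply itr_mono_inv (fun m s v c => gP_nonneg m s v c) (fun x s => TreeOn x s.E ∧ p < x ∧ 2 ≤ x) P.n
  · rintro x s v c _ hv ⟨h2, h3, h4⟩ _
    exact ⟨h2.step hv, by omega, by omega⟩
  · rintro s ⟨h2, h3, h4⟩
    have hpos := Theta_nonneg α P Z s
    by_cases hex : ∃ l ∈ T, aw P p l s
    · obtain ⟨l0, hl0, ha0⟩ := hex
      rw [sum_eq_single_of_mem l0 hl0, if_pos ha0]
      intro l hl hne
      rw [if_neg]
      intro ha
      obtain ⟨z, hz, hzc⟩ := ha.2.2.2.2.1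
      rcases conn_avoid h4 h2 h3 (by omega : z < P.n) ha.2.1 ha0.2.1 hne with h5 | h5
      · exact ha.2.2.1 z hz hzc h5
      · exact ha0.2.2.1 z hz hzc h5
    · push Not at hex
      rw [sum_eq_zero]
      · exact hpos
      · intro l hl
        rw [if_neg (hex l hl)]
  · omega
  · exact ⟨hs, hp, hm2⟩

end

end SeedPA
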