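import Pool.Agent.SeedPA.NoHubA

/-!
# Seeds without a hub, part B: the delay lemma for the branch without hubs
-/

open Finset Relation

namespace SeedPA

variable {I : Type*} [Fintype I] {α : ℝ} {P : Par I} {Z : SimpleGraph I}

open Classical in
/-- the marked two-sided structure: the `B`-side is the part of the tree which is connected to `p`
without passing through the marked child of `p` -/
noncomputable def nhTS (Z : SimpleGraph I) (α : ℝ) (p : ℕ) :
    TwoSided (St (Option I) × Option ℕ) (ℕ × Option I) where
  Dom := fun m x => TreeOn m x.1.E ∧ p < m ∧ (x.2 = none → ∀ y < m, x.1.col y = none) ∧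
    ∀ l, x.2 = some l → l < m ∧ p ≠ l ∧
      ∀ h < m, x.1.col h ≠ none → ¬ Conn x.1.E (fun z => z ≠ l) p h
  TB := fun m _ => range m ×ˢ univ
  TA := fun m _ => range m ×ˢ univ
  wB := fun _ x i => match x.2 with
    | none => if i.2 = none then 1 else 0
    | some l => if i.2 = none ∧ Conn x.1.E (fun z => z ≠ l) p i.1 then 1 else 0
  wA := fun m x i => match x.2 with
    | none => if i.1 = p ∧ okStep Z m x.1 i.1 i.2 then 1 else 0
    | some l => if ¬ Conn x.1.E (fun z => z ≠ l) p i.1 ∧ okStep Z m x.1 i.1 i.2 then 1 else 0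
  nB := fun m x i => (x.1.step m i.1 i.2, x.2)
  nA := fun m x i => match x.2 with
    | none => (x.1.step m i.1 i.2, some m)
    | some l => (x.1.step m i.1 i.2, some l)
  Wt := fun m x => W α m x.1.E
  b := fun m x => match x.2 with
    | none => m
    | some l => csz m x.1.E (fun z => z ≠ l) p

open Classical in
/-- the marked value -/
noncomputable def Rnh (α : ℝ) (P : Par I) (Z : SimpleGraph I) (p m : ℕ)
    (x : St (Option I) × Option ℕ) : ℝ := match x.2 with
  | none => ∑ l ∈ Ico m P.n0, RvA α P Z m (aw P p l) x.1
  | some l => RvA α P Z m (aw P p l) x.1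

theorem Rnh_none (p m : ℕ) (s : St (Option I)) :
    Rnh α P Z p m (s, none) = ∑ l ∈ Ico m P.n0, RvA α P Z m (aw P p l) s := rfl
theorem Rnh_some (p m l : ℕ) (s : St (Option I)) :
    Rnh α P Z p m (s, some l) = RvA α P Z m (aw P p l) s := rfl

open Classical in
theorem aw_rec (h0 : 0 < α) {m : ℕ} (hm1 : 1 ≤ m) (hmn : m < P.n) {s : St (Option I)}
    (hs : Valid m s.E) (p l : ℕ) :
    W α m s.E * RvA α P Z m (aw P p l) s = ∑ v ∈ range m, ∑ c,
      if okStep Z m s v c then RvA α P Z (m + 1) (aw P p l) (s.step m v c) else 0 :=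
  ev_rec (f := thA α P Z (aw P p l)) h0 hm1 hmn hs

theorem csz_all {m : ℕ} {E : ESet} {nh : ℕ → Prop} {p : ℕ} (h1 : ∀ y < m, nh y)
    (h2 : ∀ y < m, Conn E nh p y) : csz m E nh p = m := by
  classical
  unfold csz
  conv_rhs => rw [← card_range m]
  congr 1
  ext y
  rw [mem_filter]
  exact ⟨fun h => h.1, fun h => ⟨h, h1 y (mem_range.1 h), h2 y (mem_range.1 h)⟩⟩

theorem csz_tree {m : ℕ} {E : ESet} (hE : TreeOn m E) {p : ℕ} (hp : p < m) :
    csz m E (fun _ => True) p = m :=
  csz_all (fun _ _ => trivial) fun y hy => hE.conn p hp y hy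

theorem csz_mark {m : ℕ} {E : ESet} (hE : TreeOn m E) {p : ℕ} (hp : p < m) :
    csz (m + 1) (insert s(p, m) E) (fun z => z ≠ m) p = m := by
  classical
  rw [csz_insert_step (nh := fun _ => True) hE.valid.lt
    (fun z hz => ⟨fun _ => trivial, fun _ => by omega⟩) hp hp, csz_tree hE hp,
    if_neg (fun h => h.1 rfl), add_zero]

open Classical in
/-- **delay lemma for a seed without hub** -/
theorem delay_nohub (h0 : 0 < α) (h1 : α < 1) (hn01 : P.n0 ≤ P.n1) (hn1 : P.n1 ≤ P.n)
    {p m : ℕ} (hm1 : 1 ≤ m) (hmh : m < P.n0) (hmβ : m ≤ P.β0) (hp : p < m) {s : St (Option I)}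
    (hs : TreeOn m s.E) (hcol : ∀ y < m, s.col y = none) :
    ∑ v ∈ range m, ∑ l ∈ Ico (m + 1) P.n0, RvA α P Z (m + 1) (aw P p l) (s.step m v none) ≤
      P.β0 / xi ((2:ℝ)^α) P.n0 m * ∑ l ∈ Ico m P.n0, RvA α P Z m (aw P p l) s := by
  have hn : P.n0 ≤ P.n := hn01.trans hn1
  have key := delay_abs (nhTS Z α p) (κ := (2:ℝ)^α) (by positivity) (h := P.n0) (β := P.β0)
    (m0 := 1) le_rfl (R := Rnh α P Z p)
    (by
      rintro m ⟨s, μ⟩ i
      cases μ <;> dsimp [nhTS] <;> split_ifs <;> norm_num)
    (by
      rintro m ⟨s, μ⟩ i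
      cases μ <;> dsimp [nhTS] <;> split_ifs <;> norm_num)
    ?hDB ?hDA ?hW ?hrec ?hcomm
    (by
      rintro m ⟨s, μ⟩
      cases μ with
      | none => rw [Rnh_none]; exact sum_nonneg fun _ _ => RvA_nonneg _ _ _
      | some l => rw [Rnh_some]; exact RvA_nonneg _ _ _)
    ?hz m (s, none) hm1 hmh ⟨hs, hp, fun _ => hcol, by intro l hl; simp at hl⟩ hmβ
  case hDB =>
    rintro m ⟨s, μ⟩ ⟨v, c⟩ hm1 hmh ⟨hs, hp, hx0, hx⟩ hi hw
    have hv : v < m := by
      have := (mem_product.1 hi).1
      simpa using this
    dsimp only at hs hx0 hx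
    cases μ with
    | none =>
      dsimp [nhTS] at hw ⊢
      rw [ite_eq_right_iff, Classical.not_imp] at hw
      obtain ⟨hc, _⟩ := hw
      subst hc
      refine ⟨⟨hs.step hv, by omega, ?_, ?_⟩, rfl, hs.valid.W_step_ge h0 hv⟩
      · intro _ y hy
        by_cases hym : y = m
        · rw [hym, Function.update_self]
        · rw [Function.update_of_ne hym]; exact hx0 rfl y (by omega)
      · intro l hl; simp at hl
    | some l =>
      dsimp [nhTS] at hw ⊢
      rw [ite_eq_right_iff, Classical.not_imp] at hw
      obtain ⟨⟨hc, hcv⟩, _⟩ := hw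
      subst hc
      obtain ⟨hl, hpl, hh⟩ := hx l rfl
      have hvl : v ≠ l := Conn.nh (nh := fun z => z ≠ l) hcv hpl
      refine ⟨⟨hs.step hv, by omega, by simp, ?_⟩, ?_, hs.valid.W_step_ge h0 hv⟩
      · intro l' hl'
        simp only [Option.some.injEq] at hl'
        subst hl'
        refine ⟨by omega, hpl, ?_⟩
        intro h hhm hc
        by_cases hhm' : h = m
        · rw [hhm', Function.update_self] at hc
          exact absurd rfl hc
        · rw [Function.update_of_ne hhm'] at hc
          rw [conn_insert_old hs.valid.lt (fun _ _ => Iff.rfl) hv hp (by omega)]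
          exact hh h (by omega) hc
      · rw [csz_insert_step hs.valid.lt (fun _ _ => Iff.rfl) hv hp, if_pos ⟨by omega, hvl, hcv⟩]
  case hDA =>
    rintro m ⟨s, μ⟩ ⟨v, c⟩ hm1 hmh ⟨hs, hp, hx0, hx⟩ hi hw
    have hv : v < m := by
      have := (mem_product.1 hi).1
      simpa using this
    dsimp only at hs hx0 hx
    cases μ with
    | none =>
      dsimp [nhTS] at hw ⊢
      rw [ite_eq_right_iff, Classical.not_imp] at hw
      obtain ⟨⟨hvp, _⟩, _⟩ := hw
      subst hvp
      refine ⟨⟨hs.step hv, by omega, by simp, ?_⟩, csz_mark hs hv⟩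
      intro l hl
      simp only [Option.some.injEq] at hl
      subst hl
      refine ⟨by omega, by omega, ?_⟩
      intro h hhm hc
      by_cases hhm' : h = m
      · subst hhm'
        intro hcon
        exact (Conn.nh (nh := fun z => z ≠ h) hcon (show v ≠ h by omega)) rfl
      · rw [Function.update_of_ne hhm'] at hc
        exact absurd (hx0 rfl h (by omega)) hc
    | some l =>
      dsimp [nhTS] at hw ⊢
      rw [ite_eq_right_iff, Classical.not_imp] at hw
      obtain ⟨⟨hcv, _⟩, _⟩ := hw
      obtain ⟨hl, hpl, hh⟩ := hx l rfl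
      refine ⟨⟨hs.step hv, by omega, by simp, ?_⟩, ?_⟩
      · intro l' hl'
        simp only [Option.some.injEq] at hl'
        subst hl'
        refine ⟨by omega, hpl, ?_⟩
        intro h hhm hc
        by_cases hhm' : h = m
        · subst hhm'
          rw [conn_insert_new hs.valid.lt (fun _ _ => Iff.rfl) hv hp]
          rintro ⟨_, _, hcon⟩
          exact hcv hcon
        · rw [Function.update_of_ne hhm'] at hc
          rw [conn_insert_old hs.valid.lt (fun _ _ => Iff.rfl) hv hp (by omega)]
          exact hh h (by omega) hc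
      · rw [csz_insert_step hs.valid.lt (fun _ _ => Iff.rfl) hv hp, if_neg, add_zero]
        rintro ⟨_, _, hcon⟩
        exact hcv hcon
  case hW =>
    rintro m ⟨s, μ⟩ hm1 hmh ⟨hs, _⟩
    exact ⟨hs.valid.W_pos h0 hm1, hs.valid.W_le h0 h1⟩
  case hrec =>
    rintro m ⟨s, μ⟩ hm1 hmh ⟨hs, hp, hx0, hx⟩
    dsimp only at hs hx0 hx
    cases μ with
    | none =>
      have hx0 := hx0 rfl
      show W α m s.E * Rnh α P Z p m (s, none) = _
      rw [Rnh_none, mul_sum]
      have e1 : ∀ l ∈ Ico m P.n0, W α m s.E * RvA α P Z m (aw P p l) s = ∑ v ∈ range m, ∑ c,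
          if okStep Z m s v c then RvA α P Z (m + 1) (aw P p l) (s.step m v c) else 0 :=
        fun l _ => aw_rec h0 hm1 (by omega) hs.valid p l
      rw [sum_congr rfl e1, sum_comm]
      dsimp [nhTS, TwoSided.uB, TwoSided.uA]
      rw [sum_product, sum_product, ← sum_add_distrib]
      apply sum_congr rfl; intro v hv
      have hv' := mem_range.1 hv
      rw [sum_comm, ← sum_add_distrib]
      apply sum_congr rfl; intro c _
      dsimp only
      rw [Rnh_some, Rnh_none, ← Finset.sum_Ioo_add_eq_sum_Ico hmh,
        ← Finset.Ico_succ_left_eq_Ioo]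
      simp only [Order.succ_eq_add_one]
      by_cases hok : okStep Z m s v c
      · simp only [hok, if_true, and_true]
        congr 1
        · cases c with
          | some i =>
            rw [if_neg (by simp), zero_mul]
            apply sum_eq_zero
            intro l hl
            have hl' := mem_Ico.1 hl
            exact RvA_aw_dead hn (by omega) (by omega) (hs.step hv') (h := m) (by omega)
              (by rw [St.step_col_self]; simp) (Or.inl hl'.1)
          | none => rw [if_pos rfl, one_mul]
        · by_cases hvp : v = p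
          · rw [if_pos hvp, one_mul]
          · rw [if_neg hvp, zero_mul]
            apply RvA_aw_nonadj (by omega) (by omega) (by omega)
            rw [St.step_E, mem_insert]
            rintro (h | h)
            · rw [Sym2.eq_iff] at h; omega
            · exact hs.valid.not_mem p h
      · simp only [hok, if_false, and_false, zero_mul, add_zero, sum_const_zero]
        cases c with
        | some i => simp
        | none => exact absurd trivial hok
    | some l =>
      obtain ⟨hl, hpl, hh⟩ := hx l rfl
      show W α m s.E * Rnh α P Z p m (s, some l) = _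
      rw [Rnh_some, aw_rec h0 hm1 (by omega) hs.valid p l]
      dsimp [nhTS, TwoSided.uB, TwoSided.uA]
      rw [sum_product, sum_product, ← sum_add_distrib]
      apply sum_congr rfl; intro v hv
      have hv' := mem_range.1 hv
      rw [← sum_add_distrib]
      apply sum_congr rfl; intro c _
      dsimp only
      rw [Rnh_some]
      by_cases h1 : Conn s.E (fun z => z ≠ l) p v
      · cases c with
        | none => simp [okStep, h1]
        | some i =>
          have : RvA α P Z (m + 1) (aw P p l) (s.step m v (some i)) = 0 := by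
            apply RvA_aw_dead hn (by omega) (by omega) (hs.step hv') (h := m) (by omega)
              (by rw [St.step_col_self]; simp)
            right
            rw [St.step_E, conn_insert_new hs.valid.lt (fun _ _ => Iff.rfl) hv' hp]
            exact ⟨by omega, Conn.nh (nh := fun z => z ≠ l) h1 hpl, h1⟩
          rw [this]
          simp
      · by_cases h3 : okStep Z m s v c <;> simp [h1, h3]
  case hcomm =>
    rintro m ⟨s, μ⟩ hm1 hmh ⟨hs, hp, hx0, hx⟩
    dsimp only at hs hx0 hx
    cases μ with
    | none =>
      have := comm_general' (m := m) (s := s)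
        (f := RvA α P Z (m + 2) (aw P p (m + 1))) (f' := RvA α P Z (m + 2) (aw P p m))
        (wB := fun m s v c => (nhTS Z α p).wB m (s, none) (v, c))
        (wB' := fun m' s v c => (nhTS Z α p).wB m' (s, some m) (v, c))
        (wA := fun m s v c => (nhTS Z α p).wA m (s, none) (v, c))
        (wA' := fun m s v c => (nhTS Z α p).wA m (s, none) (v, c))
        (by intro m s v c; dsimp [nhTS]; split_ifs <;> norm_num)
        (by intro m s v c; dsimp [nhTS]; split_ifs <;> norm_num)
        (fun s => RvA_nonneg _ _ _)
        (fun v a hv ha c c' => by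
          rw [RvA_aw_swap hn01 hn1 hmh hs.valid hv ha hp c c' (m + 1), Equiv.swap_apply_right])
        (by
          intro v c hv hw c'
          dsimp [nhTS]
          rw [if_neg]
          rintro ⟨h1, _⟩
          omega)
        (by
          intro v c a c' hv ha
          dsimp [nhTS]
          by_cases h1 : c = none
          · subst h1
            rw [if_pos rfl, one_mul]
            by_cases h2 : a = p ∧ okStep Z m s a c'
            · obtain ⟨rfl, h3⟩ := h2
              rw [if_pos ⟨rfl, (okStep_step_none ha c').2 h3⟩, if_pos ⟨rfl, h3⟩, one_mul,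
                if_pos]
              refine ⟨rfl, ?_⟩
              rw [conn_insert_old (nh := fun _ => True) hs.valid.lt
                (fun z hz => ⟨fun _ => trivial, fun _ => by omega⟩) ha hp hv]
              exact hs.conn _ hp v hv
            · rw [if_neg]
              · exact mul_nonneg (ite01_nonneg _) (ite01_nonneg _)
              · rintro ⟨h3, h4⟩
                exact h2 ⟨h3, (okStep_step_none ha c').1 h4⟩
          · rw [if_neg h1, zero_mul]
            exact mul_nonneg (ite01_nonneg _) (ite01_nonneg _))
      dsimp [TwoSided.uB, TwoSided.uA, nhTS]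
      dsimp [nhTS] at this
      rw [sum_product, sum_product]
      simp only [sum_product]
      exact this
    | some l =>
      obtain ⟨hl, hpl, hh⟩ := hx l rfl
      have := comm_general' (m := m) (s := s)
        (f := RvA α P Z (m + 2) (aw P p l)) (f' := RvA α P Z (m + 2) (aw P p l))
        (wB := fun m s v c => (nhTS Z α p).wB m (s, some l) (v, c))
        (wB' := fun m s v c => (nhTS Z α p).wB m (s, some l) (v, c))
        (wA := fun m s v c => (nhTS Z α p).wA m (s, some l) (v, c))
        (wA' := fun m s v c => (nhTS Z α p).wA m (s, some l) (v, c))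
        (by intro m s v c; dsimp [nhTS]; split_ifs <;> norm_num)
        (by intro m s v c; dsimp [nhTS]; split_ifs <;> norm_num)
        (fun s => RvA_nonneg _ _ _)
        (fun v a hv ha c c' => by
          rw [RvA_aw_swap hn01 hn1 hmh hs.valid hv ha hp c c' l,
            Equiv.swap_apply_of_ne_of_ne (by omega) (by omega)])
        (by
          intro v c hv hw c'
          dsimp [nhTS] at hw ⊢
          rw [ite_eq_right_iff, Classical.not_imp] at hw
          obtain ⟨⟨hc, hcn⟩, _⟩ := hw
          rw [if_neg]
          rintro ⟨h1, _⟩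
          apply h1
          exact (conn_insert_new hs.valid.lt (fun _ _ => Iff.rfl) hv hp).2
            ⟨by omega, Conn.nh (nh := fun z => z ≠ l) hcn hpl, hcn⟩)
        (by
          intro v c a c' hv ha
          dsimp [nhTS]
          by_cases h1 : c = none ∧ Conn s.E (fun z => z ≠ l) p v
          · rw [if_pos h1, one_mul]
            obtain ⟨rfl, hcn⟩ := h1
            have e1 : Conn (insert s(v, m) s.E) (fun z => z ≠ l) p a ↔
                Conn s.E (fun z => z ≠ l) p a :=
              conn_insert_old hs.valid.lt (fun _ _ => Iff.rfl) hv hp ha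
            have e2 : Conn (insert s(a, m) s.E) (fun z => z ≠ l) p v ↔
                Conn s.E (fun z => z ≠ l) p v :=
              conn_insert_old hs.valid.lt (fun _ _ => Iff.rfl) ha hp hv
            simp only [e1, e2, okStep_step_none ha, hcn, and_self, if_true, mul_one]
            exact le_rfl
          · rw [if_neg h1, zero_mul]
            exact mul_nonneg (ite01_nonneg _) (ite01_nonneg _))
      dsimp [TwoSided.uB, TwoSided.uA, nhTS]
      dsimp [nhTS] at this
      rw [sum_product, sum_product]
      simp only [sum_product]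
      exact this
  case hz =>
    rintro ⟨s, μ⟩ ⟨hs, hp, hx0, hx⟩ hb
    dsimp only at hs hx0 hx
    cases μ with
    | none => rw [Rnh_none, Ico_self, sum_empty]
    | some l =>
      rw [Rnh_some, RvA_decided (dec_aw P hp l) hn hs.valid, if_neg]
      rintro ⟨_, _, _, h, _⟩
      have : P.β0 < csz P.n0 s.E (fun z => z ≠ l) p := hb
      omega
  -- translate the conclusion
  dsimp [nhTS, TwoSided.uB] at key
  rw [sum_product] at key
  have e0 : Rnh α P Z p m (s, none) = ∑ l ∈ Ico m P.n0, RvA α P Z m (aw P p l) s := rfl
  rw [e0] at key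
  have hR : 0 ≤ ∑ l ∈ Ico m P.n0, RvA α P Z m (aw P p l) s :=
    sum_nonneg fun _ _ => RvA_nonneg _ _ _
  have hle : (P.β0 - (m:ℝ)) / xi ((2:ℝ)^α) P.n0 m * ∑ l ∈ Ico m P.n0, RvA α P Z m (aw P p l) s ≤
      P.β0 / xi ((2:ℝ)^α) P.n0 m * ∑ l ∈ Ico m P.n0, RvA α P Z m (aw P p l) s := by
    apply mul_le_mul_of_nonneg_right _ hR
    apply div_le_div_of_nonneg_right _ (xi_nonneg (by positivity) _ _)
    have : (0:ℝ) ≤ m := by positivity
    linarith
  refine le_trans (le_of_eq ?_) (key.trans hle)
  apply sum_congr rfl; intro v _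
  have e3 : ∑ y : Option I, (if y = none then (1:ℝ) else 0) *
      Rnh α P Z p (m + 1) (s.step m v y, none) =
        Rnh α P Z p (m + 1) (s.step m v none, none) := by
    rw [Fintype.sum_option]
    simp
  exact e3.symm

end SeedPA
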