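import Pool.Agent.SeedPA.Core

/-!
# Relabelling invariance
-/

open Finset

namespace SeedPA

/-- relabel an edge set -/
def permE (σ : Equiv.Perm ℕ) (E : ESet) : ESet :=
  E.map ⟨Sym2.map σ, Sym2.map.injective σ.injective⟩

theorem mem_permE {σ : Equiv.Perm ℕ} {E : ESet} {a b : ℕ} :
    s(σ a, σ b) ∈ permE σ E ↔ s(a, b) ∈ E := by
  unfold permE
  rw [mem_map]
  constructor
  · rintro ⟨e, he, h⟩
    have : Sym2.map σ e = Sym2.map σ s(a, b) := by simpa using h
    rwa [← Sym2.map.injective σ.injective this]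
  · intro h
    exact ⟨s(a, b), h, by simp⟩

theorem mem_permE' {σ : Equiv.Perm ℕ} {E : ESet} {a b : ℕ} :
    s(a, b) ∈ permE σ E ↔ s(σ.symm a, σ.symm b) ∈ E := by
  have := mem_permE (σ := σ) (E := E) (a := σ.symm a) (b := σ.symm b)
  simpa using this

theorem permE_insert {σ : Equiv.Perm ℕ} {E : ESet} {a b : ℕ} :
    permE σ (insert s(a, b) E) = insert s(σ a, σ b) (permE σ E) := by
  unfold permE
  rw [map_insert]
  simp

theorem deg_permE (σ : Equiv.Perm ℕ) (E : ESet) (v : ℕ) : deg (permE σ E) (σ v) = deg E v := by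
  unfold deg permE
  rw [filter_map, card_map]
  congr 1
  apply filter_congr
  intro e _
  induction e using Sym2.ind with
  | _ a b => simp [Sym2.mem_iff]

theorem deg_permE' (σ : Equiv.Perm ℕ) (E : ESet) (v : ℕ) :
    deg (permE σ E) v = deg E (σ.symm v) := by
  have := deg_permE σ E (σ.symm v)
  simpa using this

/-- `σ` fixes every label `≥ m` -/
def FixGE (m : ℕ) (σ : Equiv.Perm ℕ) : Prop := ∀ x, m ≤ x → σ x = x

theorem FixGE.lt_iff {m : ℕ} {σ : Equiv.Perm ℕ} (h : FixGE m σ) (x : ℕ) : σ x < m ↔ x < m := by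
  constructor
  · intro hx
    by_contra hc
    rw [not_lt] at hc
    rw [h x hc] at hx
    omega
  · intro hx
    by_contra hc
    rw [not_lt] at hc
    have := σ.injective (h (σ x) hc)
    omega

theorem FixGE.mono {m n : ℕ} {σ : Equiv.Perm ℕ} (h : FixGE m σ) (hmn : m ≤ n) : FixGE n σ :=
  fun x hx => h x (hmn.trans hx)

theorem FixGE.symm {m : ℕ} {σ : Equiv.Perm ℕ} (h : FixGE m σ) : FixGE m σ.symm := by
  intro x hx
  rw [Equiv.symm_apply_eq]
  exact (h x hx).symm

/-- sum over `range m` is invariant under a relabelling fixing labels `≥ m` -/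
theorem FixGE.sum_range {m : ℕ} {σ : Equiv.Perm ℕ} (h : FixGE m σ) {M : Type*} [AddCommMonoid M]
    (f : ℕ → M) : ∑ v ∈ range m, f (σ v) = ∑ v ∈ range m, f v := by
  apply sum_bij (fun v _ => σ v)
  · intro v hv
    exact mem_range.2 ((h.lt_iff v).2 (mem_range.1 hv))
  · intro a _ b _ hab
    exact σ.injective hab
  · intro b hb
    exact ⟨σ.symm b, mem_range.2 ((h.symm.lt_iff b).2 (mem_range.1 hb)), by simp⟩
  · intro a _; rfl

theorem W_permE {α : ℝ} {m : ℕ} {σ : Equiv.Perm ℕ} (h : FixGE m σ) (E : ESet) :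
    W α m (permE σ E) = W α m E := by
  unfold W
  rw [← h.sum_range (fun v => (deg (permE σ E) v : ℝ) ^ α)]
  simp only [deg_permE]

theorem Valid.perm {m : ℕ} {E : ESet} (hE : Valid m E) {σ : Equiv.Perm ℕ} (h : FixGE m σ) :
    Valid m (permE σ E) := by
  refine ⟨?_, ?_, ?_, ?_⟩
  · intro e he x hx
    induction e using Sym2.ind with
    | _ a b =>
      rw [mem_permE'] at he
      rcases Sym2.mem_iff.1 hx with rfl | rfl
      · exact (h.symm.lt_iff _).1 (hE.lt _ he _ (by simp))
      · exact (h.symm.lt_iff _).1 (hE.lt _ he _ (by simp))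
  · intro x hx
    rw [mem_permE'] at hx
    exact hE.irrefl _ hx
  · unfold permE
    rw [card_map]; exact hE.card
  · intro v hv
    rw [deg_permE']
    exact hE.pos _ ((h.symm.lt_iff _).2 hv)

variable {C : Type*}

/-- relabel a state -/
def St.perm (σ : Equiv.Perm ℕ) (s : St C) : St C := ⟨permE σ s.E, s.col ∘ σ.symm⟩

@[simp] theorem St.perm_E (σ : Equiv.Perm ℕ) (s : St C) : (s.perm σ).E = permE σ s.E := rfl
@[simp] theorem St.perm_col (σ : Equiv.Perm ℕ) (s : St C) (x : ℕ) :
    (s.perm σ).col x = s.col (σ.symm x) := rfl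

theorem St.perm_step {σ : Equiv.Perm ℕ} {m : ℕ} (hσ : σ m = m) (s : St C) (v : ℕ) (c : C) :
    (s.step m v c).perm σ = (s.perm σ).step m (σ v) c := by
  ext x
  · simp only [St.perm_E, St.step_E, permE_insert, hσ]
  · have hs : σ.symm m = m := by rw [Equiv.symm_apply_eq]; exact hσ.symm
    by_cases hx : x = m
    · subst hx
      simp [hs]
    · have : σ.symm x ≠ m := by
        intro h
        apply hx
        rw [Equiv.symm_apply_eq] at h
        rw [h, hσ]
      simp [hx, this]

/-- invariance of step weights from level `m0` on -/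
def GInv (m0 : ℕ) (g : ℕ → St C → ℕ → C → ℝ) : Prop :=
  ∀ m, m0 ≤ m → ∀ σ : Equiv.Perm ℕ, FixGE m0 σ → ∀ s v c, v < m → g m (s.perm σ) (σ v) c = g m s v c

/-- invariance of a functional under relabellings of the first `m` labels -/
def TInv (m : ℕ) (Θ : St C → ℝ) : Prop :=
  ∀ σ : Equiv.Perm ℕ, FixGE m σ → ∀ s, Θ (s.perm σ) = Θ s

theorem TInv.mono {m n : ℕ} {Θ : St C → ℝ} (h : TInv n Θ) (hmn : m ≤ n) : TInv m Θ :=
  fun σ hσ s => h σ (hσ.mono hmn) s

theorem GInv.mono {m n : ℕ} {g : ℕ → St C → ℕ → C → ℝ}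
    (h : ∀ m, GInv m g) (σ : Equiv.Perm ℕ) (hσ : FixGE m σ) (hmn : m ≤ n) (s : St C) (v : ℕ) (c : C)
    (hv : v < n) : g n (s.perm σ) (σ v) c = g n s v c :=
  h n n le_rfl σ (hσ.mono hmn) s v c hv

theorem itr_perm [Fintype C] {g : ℕ → St C → ℕ → C → ℝ} {Θ : St C → ℝ} (σ : Equiv.Perm ℕ) :
    ∀ (d m m0 : ℕ), m0 ≤ m → FixGE m0 σ →
      (∀ x, m ≤ x → x < m + d → ∀ s v c, v < x → g x (s.perm σ) (σ v) c = g x s v c) →
      (∀ s, Θ (s.perm σ) = Θ s) → ∀ s, itr g m d Θ (s.perm σ) = itr g m d Θ s := by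
  intro d
  induction d with
  | zero => intro m m0 _ _ _ hΘ s; exact hΘ s
  | succ d ih =>
    intro m m0 hm hσ hg hΘ s
    rw [itr_succ, itr_succ]
    rw [← (hσ.mono hm).sum_range (fun v => ∑ c, g m (s.perm σ) v c *
      itr g (m + 1) d Θ ((s.perm σ).step m v c))]
    apply sum_congr rfl
    intro v hv
    apply sum_congr rfl
    intro c _
    rw [hg m le_rfl (by omega) s v c (mem_range.1 hv), ← St.perm_step (hσ m hm),
      ih (m + 1) m0 (by omega) hσ (fun x hx hx' => hg x (by omega) (by omega)) hΘ]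

/-- path sums are invariant under relabellings of the labels below the level -/
theorem itr_TInv [Fintype C] {g : ℕ → St C → ℕ → C → ℝ} (hg : ∀ m, GInv m g) {Θ : St C → ℝ}
    {m d n : ℕ} (hmn : m ≤ n) (hΘ : TInv n Θ) : TInv m (itr g m d Θ) := by
  intro σ hσ s
  exact itr_perm σ d m m le_rfl hσ
    (fun x hx _ s v c hv => hg x x le_rfl σ (hσ.mono hx) s v c hv) (fun s => hΘ σ (hσ.mono hmn) s) s

/-- two consecutive steps attached to old vertices commute up to swapping the two new labels -/
theorem St.step_step_swap {s : St C} {m : ℕ} (hs : ∀ e ∈ s.E, ∀ x ∈ e, x < m) {v a : ℕ}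
    (hv : v < m) (ha : a < m) (c c' : C) :
    ((s.step m v c).step (m + 1) a c').perm (Equiv.swap m (m + 1)) =
      (s.step m a c').step (m + 1) v c := by
  have hsv : Equiv.swap m (m+1) v = v := Equiv.swap_apply_of_ne_of_ne (by omega) (by omega)
  have hsa : Equiv.swap m (m+1) a = a := Equiv.swap_apply_of_ne_of_ne (by omega) (by omega)
  have hE : permE (Equiv.swap m (m+1)) s.E = s.E := by
    ext e
    induction e using Sym2.ind with
    | _ x y =>
      rw [mem_permE', Equiv.symm_swap]
      constructor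
      · intro h
        have hx : Equiv.swap m (m+1) x < m := hs _ h _ (by simp)
        have hy : Equiv.swap m (m+1) y < m := hs _ h _ (by simp)
        have hx' : Equiv.swap m (m+1) x = x := by
          have := congrArg (Equiv.swap m (m+1))
            (Equiv.swap_apply_of_ne_of_ne (a := m) (b := m+1) (x := Equiv.swap m (m+1) x)
              (by omega) (by omega))
          simpa using this
        have hy' : Equiv.swap m (m+1) y = y := by
          have := congrArg (Equiv.swap m (m+1))
            (Equiv.swap_apply_of_ne_of_ne (a := m) (b := m+1) (x := Equiv.swap m (m+1) y)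
              (by omega) (by omega))
          simpa using this
        rwa [hx', hy'] at h
      · intro h
        have hx : x < m := hs _ h _ (by simp)
        have hy : y < m := hs _ h _ (by simp)
        rwa [Equiv.swap_apply_of_ne_of_ne (by omega) (by omega),
          Equiv.swap_apply_of_ne_of_ne (by omega) (by omega)]
  ext x
  · simp only [St.perm_E, St.step_E, permE_insert, hE, hsv, hsa, Equiv.swap_apply_left,
      Equiv.swap_apply_right, mem_insert]
    tauto
  · simp only [St.perm_col, St.step_col, Equiv.symm_swap]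
    by_cases h1 : x = m
    · subst h1
      rw [Equiv.swap_apply_left]
      simp
    · by_cases h2 : x = m + 1
      · subst h2
        rw [Equiv.swap_apply_right]
        simp
      · rw [Equiv.swap_apply_of_ne_of_ne h1 h2]
        simp [h1, h2]

theorem fixGE_swap (m : ℕ) : FixGE (m + 2) (Equiv.swap m (m + 1)) := by
  intro x hx
  exact Equiv.swap_apply_of_ne_of_ne (by omega) (by omega)

/-- a relabelling invariant functional does not see the order of two consecutive steps -/
theorem TInv.swap_steps {m n : ℕ} {Θ : St C → ℝ} (hΘ : TInv n Θ) (hn : m + 2 ≤ n) {s : St C}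
    (hs : ∀ e ∈ s.E, ∀ x ∈ e, x < m) {v a : ℕ} (hv : v < m) (ha : a < m) (c c' : C) :
    Θ ((s.step m v c).step (m + 1) a c') = Θ ((s.step m a c').step (m + 1) v c) := by
  rw [← St.step_step_swap hs hv ha c c']
  exact (hΘ _ ((fixGE_swap m).mono hn) _).symm

end SeedPA
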