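import Pool.Agent.SeedPA.Trees

/-!
# From the separation property to a lower bound for the distance
-/

open Finset

namespace SeedPA

variable {α : ℝ}

/-- `pr` is invariant under relabelling -/
theorem pr_perm {Ψ : ESet → ℝ} (σ : Equiv.Perm ℕ) : ∀ (d m : ℕ) (E : ESet), FixGE m σ →
    (∀ E, Ψ (permE σ E) = Ψ E) → pr α m d Ψ (permE σ E) = pr α m d Ψ E := by
  intro d
  induction d with
  | zero => intro m E _ h; exact h E
  | succ d ih =>
    intro m E hσ h
    rw [pr_succ, pr_succ, ← hσ.sum_range]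
    apply sum_congr rfl
    intro v hv
    have h1 : insert s(σ v, m) (permE σ E) = permE σ (insert s(v, m) E) := by
      rw [permE_insert, hσ m le_rfl]
    rw [h1, ih (m + 1) _ (hσ.mono (by omega)) h, deg_permE, W_permE hσ]

open Classical in
/-- the edge sets reachable in `d` steps -/
noncomputable def reach : ℕ → ℕ → ESet → Finset ESet
  | _, 0, E => {E}
  | m, d + 1, E => (range m).biUnion fun v => reach (m + 1) d (insert s(v, m) E)

theorem mem_reach_succ {m d : ℕ} {E E' : ESet} :
    E' ∈ reach m (d + 1) E ↔ ∃ v < m, E' ∈ reach (m + 1) d (insert s(v, m) E) := by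
  show E' ∈ (range m).biUnion _ ↔ _
  simp [mem_biUnion]

theorem reach_treeOn : ∀ (d m : ℕ) (E E' : ESet), TreeOn m E → E' ∈ reach m d E →
    TreeOn (m + d) E' := by
  intro d
  induction d with
  | zero =>
    intro m E E' hE h
    have : E' = E := by simpa [reach] using h
    rw [this]; exact hE
  | succ d ih =>
    intro m E E' hE h
    obtain ⟨v, hv, h⟩ := mem_reach_succ.1 h
    have := ih (m + 1) _ E' (hE.step hv) h
    rwa [show m + (d + 1) = m + 1 + d by omega]

/-- comparison on the reachable set -/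
theorem pr_le_reach {Ψ Ψ' : ESet → ℝ} : ∀ (d m : ℕ) (E : ESet),
    (∀ E' ∈ reach m d E, Ψ E' ≤ Ψ' E') → pr α m d Ψ E ≤ pr α m d Ψ' E := by
  intro d
  induction d with
  | zero => intro m E h; exact h E (by simp [reach])
  | succ d ih =>
    intro m E h
    rw [pr_succ, pr_succ]
    apply sum_le_sum
    intro v hv
    exact mul_le_mul_of_nonneg_left (ih (m + 1) _ fun E' hE' =>
      h E' (mem_reach_succ.2 ⟨v, mem_range.1 hv, hE'⟩)) (wt_nonneg m v E)

/-- positivity -/
theorem pr_pos_of_reach (h0 : 0 < α) {Ψ : ESet → ℝ} (hΨ : ∀ E, 0 ≤ Ψ E) :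
    ∀ (d m : ℕ) (E E' : ESet), 1 ≤ m → Valid m E → E' ∈ reach m d E → 0 < Ψ E' →
      0 < pr α m d Ψ E := by
  intro d
  induction d with
  | zero =>
    intro m E E' _ _ h hp
    have : E' = E := by simpa [reach] using h
    rw [← this]; exact hp
  | succ d ih =>
    intro m E E' hm hV h hp
    obtain ⟨v, hv, h⟩ := mem_reach_succ.1 h
    have h1 := ih (m + 1) _ E' (by omega) (hV.step hv) h hp
    rw [pr_succ]
    apply sum_pos' (fun w _ => mul_nonneg (wt_nonneg m w E) (pr_nonneg hΨ _ _ _))
    refine ⟨v, mem_range.2 hv, mul_pos (div_pos ?_ (hV.W_pos h0 hm)) h1⟩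
    have : (0 : ℝ) < deg E v := by exact_mod_cast hV.pos v hv
    positivity

/-- number of leaves -/
def leafCnt (m : ℕ) (E : ESet) : ℕ := ((range m).filter fun v => deg E v = 1).card

theorem leafCnt_eq_sum (m : ℕ) (E : ESet) :
    leafCnt m E = ∑ v ∈ range m, if deg E v = 1 then 1 else 0 := by
  unfold leafCnt
  rw [card_filter]

theorem leafCnt_perm {m : ℕ} {σ : Equiv.Perm ℕ} (h : FixGE m σ) (E : ESet) :
    leafCnt m (permE σ E) = leafCnt m E := by
  rw [leafCnt_eq_sum, leafCnt_eq_sum, ← h.sum_range]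
  simp only [deg_permE]

theorem leafCnt_step {m : ℕ} {E : ESet} (hV : Valid m E) {v : ℕ} (hv : v < m) :
    leafCnt (m + 1) (insert s(v, m) E) = leafCnt m E + if deg E v = 1 then 0 else 1 := by
  rw [leafCnt_eq_sum, leafCnt_eq_sum, sum_range_succ]
  have h1 : deg (insert s(v, m) E) m = 1 := by
    rw [deg_insert (hV.not_mem v), hV.deg_zero le_rfl]; simp
  rw [h1, if_pos rfl]
  have h2 : ∀ x ∈ range m, (if deg (insert s(v, m) E) x = 1 then 1 else 0) +
      (if x = v then (if deg E v = 1 then 1 else 0) else 0) = if deg E x = 1 then 1 else 0 := by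
    intro x hx
    have hx' := mem_range.1 hx
    rw [deg_insert (hV.not_mem v)]
    by_cases hxv : x = v
    · subst hxv
      have := hV.pos x hv
      rw [if_pos (Or.inl rfl), if_pos rfl, if_neg (by omega : ¬ deg E x + 1 = 1)]
      omega
    · have : ¬ (x = v ∨ x = m) := by omega
      rw [if_neg this, if_neg hxv]
      simp
  have h3 := sum_congr rfl h2
  rw [sum_add_distrib, sum_ite_eq' (range m) v, if_pos (mem_range.2 hv)] at h3
  rw [← h3]
  split_ifs <;> omega

theorem exists_leaf {m : ℕ} {E : ESet} (hV : Valid m E) : ∃ v < m, deg E v = 1 := by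
  by_contra hc
  push Not at hc
  have h1 : ∀ v ∈ range m, 2 ≤ deg E v := by
    intro v hv
    have h2 := hV.pos v (mem_range.1 hv)
    have h3 := hc v (mem_range.1 hv)
    omega
  have h2 := card_nsmul_le_sum (range m) (fun v => deg E v) 2 h1
  rw [hV.sum_deg, card_range, smul_eq_mul] at h2
  have := hV.card
  omega

theorem exists_nonleaf {m : ℕ} {E : ESet} (hm : 3 ≤ m) (hV : Valid m E) :
    ∃ v < m, deg E v ≠ 1 := by
  by_contra hc
  push Not at hc
  have h1 : ∑ v ∈ range m, deg E v = ∑ v ∈ range m, 1 :=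
    sum_congr rfl fun v hv => hc v (mem_range.1 hv)
  rw [hV.sum_deg] at h1
  simp at h1
  have := hV.card
  omega

theorem exists_leafCnt_ne {l : ℕ} : ∀ (d m : ℕ) (E : ESet), 3 ≤ m → Valid m E →
    ∃ E' ∈ reach m (d + 1) E, leafCnt (m + (d + 1)) E' ≠ l := by
  intro d
  induction d with
  | zero =>
    intro m E hm hV
    obtain ⟨v, hv, hv1⟩ := exists_leaf hV
    obtain ⟨w, hw, hw1⟩ := exists_nonleaf hm hV
    have h1 := leafCnt_step hV hv
    have h2 := leafCnt_step hV hw
    rw [if_pos hv1] at h1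
    rw [if_neg hw1] at h2
    by_cases hl : leafCnt m E = l
    · exact ⟨insert s(w, m) E, mem_reach_succ.2 ⟨w, hw, by simp [reach]⟩, by
        show leafCnt (m + 1) _ ≠ l
        omega⟩
    · exact ⟨insert s(v, m) E, mem_reach_succ.2 ⟨v, hv, by simp [reach]⟩, by
        show leafCnt (m + 1) _ ≠ l
        omega⟩
  | succ d ih =>
    intro m E hm hV
    obtain ⟨E', hE', h⟩ := ih (m + 1) (insert s(0, m) E) (by omega) (hV.step (by omega))
    refine ⟨E', mem_reach_succ.2 ⟨0, by omega, hE'⟩, ?_⟩
    rwa [show m + (d + 1 + 1) = m + 1 + (d + 1) by omega]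

theorem IsoOn.leafCnt_eq {k : ℕ} {E E' : ESet} (h : IsoOn k E E') : leafCnt k E' = leafCnt k E := by
  obtain ⟨σ, hσ, rfl⟩ := h
  exact leafCnt_perm hσ E

theorem IsoOn.pr_eq {k n : ℕ} {A : ESet → Prop} (hkn : k ≤ n)
    (hA : ∀ σ : Equiv.Perm ℕ, FixGE n σ → ∀ E, A (permE σ E) ↔ A E) {E E' : ESet}
    (h : IsoOn k E E') : pr α k (n - k) (ind A) E' = pr α k (n - k) (ind A) E := by
  obtain ⟨σ, hσ, rfl⟩ := h
  apply pr_perm σ _ _ _ hσ
  intro E
  have h1 := hA σ (hσ.mono hkn) E
  unfold ind
  by_cases h : A E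
  · rw [if_pos h, if_pos (h1.2 h)]
  · rw [if_neg h, if_neg fun h2 => h (h1.1 h2)]

theorem ind_nn (A : ESet → Prop) (E : ESet) : 0 ≤ ind A E := by
  unfold ind
  split_ifs <;> norm_num

/-- the isomorphism relation as a setoid -/
def isoS (k : ℕ) : Setoid ESet :=
  ⟨IsoOn k, ⟨IsoOn.refl k, fun h => h.symm, fun h h' => h.trans h'⟩⟩

open Classical in
/-- representatives of the isomorphism classes; `F` represents its class -/
noncomputable def rep (k : ℕ) (F E : ESet) : ESet :=
  if IsoOn k E F then F else (Quotient.mk (isoS k) E).out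

theorem rep_iso (k : ℕ) (F E : ESet) : IsoOn k E (rep k F E) := by
  unfold rep
  split_ifs with h
  · exact h
  · have h1 : IsoOn k (Quotient.mk (isoS k) E).out E := Quotient.mk_out (s := isoS k) E
    exact h1.symm

theorem rep_eq {k : ℕ} {F E E' : ESet} (h : IsoOn k E E') : rep k F E = rep k F E' := by
  unfold rep
  by_cases h1 : IsoOn k E F
  · rw [if_pos h1, if_pos (h.symm.trans h1)]
  · rw [if_neg h1, if_neg fun h2 => h1 (h.trans h2)]
    have : Quotient.mk (isoS k) E = Quotient.mk (isoS k) E' := Quotient.sound (s := isoS k) h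
    rw [this]

theorem rep_self (k : ℕ) (F : ESet) : rep k F F = F := by
  unfold rep
  rw [if_pos (IsoOn.refl k F)]

/-- the separation property gives a lower bound for the difference of the probabilities of
invariant events -/
theorem exists_sep (h0 : 0 < α) (hK : SepProp α) {s k : ℕ} {E F : ESet} (hs : 3 ≤ s) (hsk : s ≤ k)
    (hE : TreeOn s E) (hF : TreeOn k F) (hne : s = k → ¬ IsoOn k E F) :
    ∃ c : ℝ, 0 < c ∧ ∃ n0 : ℕ, k ≤ n0 ∧ ∀ n ≥ n0, ∃ A : ESet → Prop,
      (∀ σ : Equiv.Perm ℕ, FixGE n σ → ∀ E, A (permE σ E) ↔ A E) ∧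
      (c ≤ pr α s (n - s) (ind A) E - pr α k (n - k) (ind A) F ∨
        c ≤ pr α k (n - k) (ind A) F - pr α s (n - s) (ind A) E) := by
  classical
  set R := reach s (k - s) E with hR
  have hsk' : s + (k - s) = k := by omega
  have hRt : ∀ E' ∈ R, TreeOn k E' := by
    intro E' hE'
    have := reach_treeOn (k - s) s E E' hE hE'
    rwa [hsk'] at this
  set S := (insert F R).image (rep k F) with hS
  have hSt : ∀ E' ∈ S, TreeOn k E' := by
    intro E' hE'
    obtain ⟨E'', h1, rfl⟩ := mem_image.1 hE'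
    apply (rep_iso k F E'').treeOn
    rcases mem_insert.1 h1 with rfl | h1
    · exact hF
    · exact hRt E'' h1
  have hSi : ∀ E1 ∈ S, ∀ E2 ∈ S, IsoOn k E1 E2 → E1 = E2 := by
    intro E1 h1 E2 h2 h
    obtain ⟨G1, _, rfl⟩ := mem_image.1 h1
    obtain ⟨G2, _, rfl⟩ := mem_image.1 h2
    exact rep_eq (((rep_iso k F G1).trans h).trans (rep_iso k F G2).symm)
  have hFS : F ∈ S := mem_image.2 ⟨F, mem_insert_self _ _, rep_self k F⟩
  obtain ⟨τ, hτ, hsep⟩ := hK k (by omega) S ⟨F, hFS⟩ hSt hSi
  -- mixture formula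
  have hmix : ∀ n, k ≤ n → ∀ A : ESet → Prop, pr α s (n - s) (ind A) E =
      pr α s (k - s) (pr α k (n - k) (ind A)) E := by
    intro n hn A
    rw [show n - s = (k - s) + (n - k) by omega, pr_comp, hsk']
  by_cases hτF : τ = F
  · subst hτF
    set q := pr α s (k - s) (ind fun E' => IsoOn k E' τ) E with hq
    -- `q < 1`
    have hq1 : q < 1 := by
      have hex : ∃ E' ∈ R, ¬ IsoOn k E' τ := by
        rcases Nat.eq_or_lt_of_le hsk with h | h
        · refine ⟨E, ?_, hne h⟩
          rw [hR, show k - s = 0 by omega]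
          simp [reach]
        · obtain ⟨E', hE', hl⟩ := exists_leafCnt_ne (l := leafCnt k τ) (k - s - 1) s E hs hE.valid
          rw [show k - s - 1 + 1 = k - s by omega] at hE' hl
          rw [hsk'] at hl
          exact ⟨E', hE', fun h => hl h.leafCnt_eq.symm⟩
      obtain ⟨E', hE', hn⟩ := hex
      have h1 : 0 < pr α s (k - s) (ind fun E' => ¬ IsoOn k E' τ) E :=
        pr_pos_of_reach h0 (ind_nn _) _ _ E E' (by omega) hE.valid hE' (by
          unfold ind; rw [if_pos hn]; norm_num)
      have h2 : q + pr α s (k - s) (ind fun E' => ¬ IsoOn k E' τ) E = 1 := by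
        rw [hq, ← pr_add]
        have : (fun E' => ind (fun E' => IsoOn k E' τ) E' + ind (fun E' => ¬ IsoOn k E' τ) E') =
            fun _ => (1 : ℝ) := by
          funext E'
          unfold ind
          by_cases h : IsoOn k E' τ
          · rw [if_pos h, if_neg (not_not.2 h), add_zero]
          · rw [if_neg h, if_pos h, zero_add]
        rw [this, pr_const h0 1 _ _ _ (by omega) hE.valid]
      linarith
    obtain ⟨p0, hp0, n', hn'⟩ := hsep ((1 - q) / 2) (by linarith)
    refine ⟨(1 - q) / 2 * p0, by nlinarith, max n' k, le_max_right _ _, fun n hn => ?_⟩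
    have hkn : k ≤ n := (le_max_right _ _).trans hn
    obtain ⟨A, hA, hpA, hothers⟩ := hn' n ((le_max_left _ _).trans hn)
    refine ⟨A, hA, Or.inr ?_⟩
    set p := pr α k (n - k) (ind A) τ with hp
    have hle : pr α s (n - s) (ind A) E ≤ (q + (1 - q) / 2) * p := by
      rw [hmix n hkn A]
      have h1 : pr α s (k - s) (pr α k (n - k) (ind A)) E ≤
          pr α s (k - s) (fun E' => p * (ind (fun E' => IsoOn k E' τ) E' + (1 - q) / 2)) E := by
        apply pr_le_reach
        intro E' hE'
        unfold ind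
        by_cases h : IsoOn k E' τ
        · rw [if_pos h]
          have h3 := h.pr_eq (α := α) hkn hA
          have h4 : pr α k (n - k) (ind A) E' = p := by rw [hp, h3]
          have h5 : pr α k (n - k) (fun E => if A E then 1 else 0) E' = p := h4
          rw [h5]
          nlinarith
        · rw [if_neg h, zero_add]
          have h3 := (rep_iso k τ E').pr_eq (α := α) hkn hA
          have h4 : rep k τ E' ≠ τ := by
            intro h5
            apply h
            have := rep_iso k τ E'
            rwa [h5] at this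
          have h5 := hothers (rep k τ E') (mem_image.2 ⟨E', mem_insert_of_mem hE', rfl⟩) h4
          rw [h3] at h5
          have h6 : pr α k (n - k) (fun E => if A E then 1 else 0) E' =
              pr α k (n - k) (ind A) E' := rfl
          rw [h6, mul_comm]
          exact h5
      refine h1.trans (le_of_eq ?_)
      rw [pr_const_mul, pr_add, pr_const h0 _ _ _ _ (by omega) hE.valid, mul_comm]
    nlinarith
  · obtain ⟨E0, hE0, hrep⟩ := mem_image.1 hτ
    have hE0R : E0 ∈ R := by
      rcases mem_insert.1 hE0 with rfl | h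
      · exact absurd ((rep_self k E0).symm.trans hrep).symm hτF
      · exact h
    have hE0τ : IsoOn k E0 τ := by
      have := rep_iso k F E0
      rwa [hrep] at this
    set q := pr α s (k - s) (ind fun E' => IsoOn k E' τ) E with hq
    have hq0 : 0 < q := pr_pos_of_reach h0 (ind_nn _) _ _ E E0 (by omega) hE.valid hE0R (by
      unfold ind; rw [if_pos hE0τ]; norm_num)
    obtain ⟨p0, hp0, n', hn'⟩ := hsep (q / 2) (by linarith)
    refine ⟨q / 2 * p0, by positivity, max n' k, le_max_right _ _, fun n hn => ?_⟩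
    have hkn : k ≤ n := (le_max_right _ _).trans hn
    obtain ⟨A, hA, hpA, hothers⟩ := hn' n ((le_max_left _ _).trans hn)
    refine ⟨A, hA, Or.inl ?_⟩
    set p := pr α k (n - k) (ind A) τ with hp
    have h1 := hothers F hFS (fun h => hτF h.symm)
    have h2 : q * p ≤ pr α s (n - s) (ind A) E := by
      rw [hmix n hkn A]
      have h3 : pr α s (k - s) (fun E' => p * ind (fun E' => IsoOn k E' τ) E') E ≤
          pr α s (k - s) (pr α k (n - k) (ind A)) E := by
        apply pr_le_reach
        intro E' _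
        by_cases h : IsoOn k E' τ
        · have h4 : ind (fun E' => IsoOn k E' τ) E' = 1 := by unfold ind; rw [if_pos h]
          rw [h4, mul_one, hp, h.pr_eq (α := α) hkn hA]
        · have h4 : ind (fun E' => IsoOn k E' τ) E' = 0 := by unfold ind; rw [if_neg h]
          rw [h4, mul_zero]
          exact pr_nonneg (ind_nn A) _ _ _
      rw [pr_const_mul] at h3
      rw [mul_comm]
      exact h3
    nlinarith

/-- **Seeds are distinguishable**, given the separation property. -/
theorem seeds_distinguishable (h0 : 0 < α) (hK : SepProp α) (S T : FG) (hS : S.2.IsTree)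
    (hT : T.2.IsTree) (hS3 : 3 ≤ S.1) (hT3 : 3 ≤ T.1) (hST : ¬ Nonempty (S.2 ≃g T.2)) :
    ∃ δ : ℝ, 0 < δ ∧
      Filter.Tendsto (fun n => dTV (PA α n S) (PA α n T)) Filter.atTop (nhds δ) := by
  -- reduction to `|S| ≤ |T|`
  have main : ∀ S T : FG, S.2.IsTree → T.2.IsTree → 3 ≤ S.1 → S.1 ≤ T.1 →
      ¬ Nonempty (S.2 ≃g T.2) → ∃ c : ℝ, 0 < c ∧ ∃ n0 : ℕ, ∀ n, n0 ≤ n →
        c ≤ dTV (PA α n S) (PA α n T) := by
    intro S T hS hT hS3 hle hST
    obtain ⟨s, S⟩ := S
    obtain ⟨k, T⟩ := T
    simp only at hS hT hS3 hle hST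
    have hE := treeOn_enc hS (by omega)
    have hF := treeOn_enc hT (by omega)
    obtain ⟨c, hc, n0, hkn0, h⟩ := exists_sep h0 hK hS3 hle hE hF (by
      intro hsk hiso
      subst hsk
      exact hST (iso_of_isoOn hiso))
    refine ⟨c, hc, n0, fun n hn => ?_⟩
    obtain ⟨A, hA, h1⟩ := h n hn
    rw [← PA_evU h0 hA (by omega) (by omega) hE.valid,
      ← PA_evU h0 hA (by omega) (by omega) hF.valid] at h1
    rcases h1 with h1 | h1
    · exact h1.trans (sub_le_dTV _ _ _)
    · rw [dTV_comm]
      exact h1.trans (sub_le_dTV _ _ _)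
  rcases le_total S.1 T.1 with hle | hle
  · obtain ⟨c, hc, n0, h⟩ := main S T hS hT hS3 hle hST
    exact exists_limit α S T hc h
  · obtain ⟨c, hc, n0, h⟩ := main T S hT hS hT3 hle (fun ⟨e⟩ => hST ⟨e.symm⟩)
    exact exists_limit α S T hc fun n hn => by rw [dTV_comm]; exact h n hn

end SeedPA
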