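import Pool.Agent.SeedPA.Defs

/-!
# Total variation distance of discrete laws
-/

open scoped ENNReal
open Filter Topology

namespace SeedPA

section dTV

variable {X Y : Type*}

theorem pmf_summable (p : PMF X) : Summable fun x => (p x).toReal :=
  ENNReal.summable_toReal p.tsum_coe_ne_top

theorem pmf_tsum (p : PMF X) : ∑' x, (p x).toReal = 1 := by
  rw [← ENNReal.tsum_toReal_eq (fun x => p.apply_ne_top x), p.tsum_coe, ENNReal.toReal_one]

theorem summable_diff (p q : PMF X) : Summable fun x => (p x).toReal - (q x).toReal :=
  (pmf_summable p).sub (pmf_summable q)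

theorem summable_absdiff (p q : PMF X) : Summable fun x => |(p x).toReal - (q x).toReal| :=
  (summable_diff p q).abs

theorem tsum_diff (p q : PMF X) : ∑' x, ((p x).toReal - (q x).toReal) = 0 := by
  rw [(pmf_summable p).tsum_sub (pmf_summable q), pmf_tsum, pmf_tsum, sub_self]

theorem dTV_nonneg (p q : PMF X) : 0 ≤ dTV p q :=
  div_nonneg (tsum_nonneg fun _ => abs_nonneg _) (by norm_num)

theorem dTV_comm (p q : PMF X) : dTV p q = dTV q p := by
  unfold dTV
  simp_rw [abs_sub_comm]

theorem toReal_outer (p : PMF X) (A : Set X) :
    (p.toOuterMeasure A).toReal = ∑' x, A.indicator (fun x => (p x).toReal) x := by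
  rw [PMF.toOuterMeasure_apply, ENNReal.tsum_toReal_eq]
  · refine tsum_congr fun x => ?_
    by_cases hx : x ∈ A
    · rw [Set.indicator_of_mem hx, Set.indicator_of_mem hx]
    · rw [Set.indicator_of_notMem hx, Set.indicator_of_notMem hx, ENNReal.toReal_zero]
  · intro x
    by_cases hx : x ∈ A
    · rw [Set.indicator_of_mem hx]; exact p.apply_ne_top x
    · rw [Set.indicator_of_notMem hx]; exact ENNReal.zero_ne_top

/-- the difference of the probabilities of an event is at most the distance -/
theorem sub_le_dTV (p q : PMF X) (A : Set X) :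
    (p.toOuterMeasure A).toReal - (q.toOuterMeasure A).toReal ≤ dTV p q := by
  rw [toReal_outer, toReal_outer, ← ((pmf_summable p).indicator A).tsum_sub
    ((pmf_summable q).indicator A)]
  unfold dTV
  have h1 : (∑' x, |(p x).toReal - (q x).toReal|) / 2 =
      ∑' x, ((|(p x).toReal - (q x).toReal| + ((p x).toReal - (q x).toReal)) / 2) := by
    rw [tsum_div_const, (summable_absdiff p q).tsum_add (summable_diff p q), tsum_diff, add_zero]
  rw [h1]
  refine Summable.tsum_le_tsum (fun x => ?_)
    (((pmf_summable p).indicator A).sub ((pmf_summable q).indicator A))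
    (((summable_absdiff p q).add (summable_diff p q)).div_const 2)
  by_cases hx : x ∈ A
  · rw [Set.indicator_of_mem hx, Set.indicator_of_mem hx]
    linarith [le_abs_self ((p x).toReal - (q x).toReal)]
  · rw [Set.indicator_of_notMem hx, Set.indicator_of_notMem hx]
    linarith [neg_abs_le ((p x).toReal - (q x).toReal)]

theorem bind_toReal (p : PMF X) (f : X → PMF Y) (y : Y) :
    (p.bind f y).toReal = ∑' x, (p x).toReal * (f x y).toReal := by
  rw [PMF.bind_apply, ENNReal.tsum_toReal_eq]
  · exact tsum_congr fun x => ENNReal.toReal_mul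
  · intro x
    exact ENNReal.mul_ne_top (p.apply_ne_top x) ((f x).apply_ne_top y)

/-- a Markov kernel does not increase the distance -/
theorem dTV_bind_le (p q : PMF X) (f : X → PMF Y) : dTV (p.bind f) (q.bind f) ≤ dTV p q := by
  unfold dTV
  apply div_le_div_of_nonneg_right _ (by norm_num)
  set d : X → ℝ := fun x => (p x).toReal - (q x).toReal with hd
  have hd' : Summable fun x => |d x| := summable_absdiff p q
  set F : X × Y → ℝ := fun z => |d z.1| * (f z.1 z.2).toReal with hF
  have hF0 : 0 ≤ F := fun z => mul_nonneg (abs_nonneg _) ENNReal.toReal_nonneg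
  have hrow : ∀ x, ∑' y, F (x, y) = |d x| := by
    intro x
    simp only [hF]
    rw [tsum_mul_left, pmf_tsum, mul_one]
  have hrs : ∀ x, Summable fun y => F (x, y) := by
    intro x
    simp only [hF]
    exact (pmf_summable (f x)).mul_left _
  have hsum : Summable F := by
    rw [summable_prod_of_nonneg hF0]
    refine ⟨hrs, ?_⟩
    simp_rw [hrow]
    exact hd'
  have hcol : ∀ y, Summable fun x => F (x, y) := fun y => hsum.prod_symm.prod_factor y
  have hle1 : ∀ x y, (f x y).toReal ≤ 1 := by
    intro x y
    have := ENNReal.toReal_mono ENNReal.one_ne_top ((f x).coe_le_one y)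
    simpa using this
  have hs1 : ∀ (r : PMF X) (y : Y), Summable fun x => (r x).toReal * (f x y).toReal := by
    intro r y
    refine Summable.of_nonneg_of_le (fun x => by positivity) (fun x => ?_) (pmf_summable r)
    exact mul_le_of_le_one_right ENNReal.toReal_nonneg (hle1 x y)
  calc ∑' y, |(p.bind f y).toReal - (q.bind f y).toReal|
      ≤ ∑' y, ∑' x, F (x, y) := by
        refine Summable.tsum_le_tsum (fun y => ?_) (summable_absdiff _ _)
          hsum.prod_symm.prod
        rw [bind_toReal, bind_toReal, ← (hs1 p y).tsum_sub (hs1 q y)]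
        have e : ∀ x, (p x).toReal * (f x y).toReal - (q x).toReal * (f x y).toReal =
            d x * (f x y).toReal := fun x => by rw [hd]; ring
        simp_rw [e]
        have hs : Summable fun x => |d x * (f x y).toReal| := by
          have := hcol y
          refine this.congr fun x => ?_
          rw [abs_mul, abs_of_nonneg ENNReal.toReal_nonneg]
        have h1 := norm_tsum_le_tsum_norm (f := fun x => d x * (f x y).toReal) hs
        simp only [Real.norm_eq_abs] at h1
        refine h1.trans (le_of_eq (tsum_congr fun x => ?_))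
        rw [abs_mul, abs_of_nonneg (ENNReal.toReal_nonneg (a := f x y))]
    _ = ∑' x, ∑' y, F (x, y) := by
        exact Summable.tsum_comm' (f := fun x y => F (x, y)) hsum hrs hcol
    _ = ∑' x, |d x| := by simp_rw [hrow]

end dTV

end SeedPA
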