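import Pool.Agent.SeedPA.Bridge
import Pool.Agent.SeedPA.Tree

/-!
# Trees, isomorphisms and events in the two descriptions
-/

open scoped ENNReal
open Finset

namespace SeedPA

theorem treeOn_enc {n : ℕ} {G : SimpleGraph (Fin n)} (hG : G.IsTree) (hn : 2 ≤ n) :
    TreeOn n (enc ⟨n, G⟩) := by
  classical
  have : Nontrivial (Fin n) := Fin.nontrivial_iff_two_le.2 hn
  refine ⟨⟨enc_lt, ?_, ?_, ?_⟩, ?_⟩
  · intro x hx
    obtain ⟨u, v, h, h1, h2⟩ := mem_enc.1 hx
    have : u = v := Fin.ext (h1.trans h2.symm)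
    subst this
    exact G.loopless.irrefl _ h
  · unfold enc
    rw [card_image_of_injective _ (Sym2.map.injective Fin.val_injective)]
    have := hG.card_edgeFinset
    rw [Fintype.card_fin] at this
    convert this
  · intro v hv
    obtain ⟨w, hw⟩ := hG.connected.preconnected.exists_adj_of_nontrivial ⟨v, hv⟩
    have h1 := deg_enc (G := G) ⟨v, hv⟩
    simp only at h1
    rw [h1]
    unfold dg
    exact (Set.ncard_pos (Set.toFinite _)).2 ⟨w, hw⟩
  · intro x hx y hy
    have h1 := hG.connected.preconnected ⟨x, hx⟩ ⟨y, hy⟩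
    rw [SimpleGraph.reachable_iff_reflTransGen] at h1
    have h2 : Relation.ReflTransGen (adjN (enc ⟨n, G⟩) (fun _ => True))
        ((⟨x, hx⟩ : Fin n) : ℕ) ((⟨y, hy⟩ : Fin n) : ℕ) := by
      refine Relation.ReflTransGen.lift (fun z : Fin n => (z : ℕ)) ?_ _ _ h1
      intro a b hab
      exact ⟨mem_enc_val.2 hab, trivial, trivial⟩
    exact h2

theorem permE_refl (E : ESet) : permE (Equiv.refl ℕ) E = E := by
  ext e
  induction e using Sym2.ind with
  | _ a b => rw [mem_permE']; rfl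

theorem permE_permE (σ τ : Equiv.Perm ℕ) (E : ESet) :
    permE τ (permE σ E) = permE (σ.trans τ) E := by
  ext e
  induction e using Sym2.ind with
  | _ a b => rw [mem_permE', mem_permE', mem_permE']; rfl

theorem FixGE.trans {m : ℕ} {σ τ : Equiv.Perm ℕ} (hσ : FixGE m σ) (hτ : FixGE m τ) :
    FixGE m (σ.trans τ) := by
  intro x hx
  show τ (σ x) = x
  rw [hσ x hx, hτ x hx]

theorem IsoOn.treeOn {k : ℕ} {E E' : ESet} (h : IsoOn k E E') (hE : TreeOn k E) : TreeOn k E' := by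
  obtain ⟨σ, hσ, rfl⟩ := h
  exact hE.perm hσ

/-- an isomorphism of encoded graphs is an isomorphism of graphs -/
theorem iso_of_isoOn {n : ℕ} {G H : SimpleGraph (Fin n)} (h : IsoOn n (enc ⟨n, G⟩) (enc ⟨n, H⟩)) :
    Nonempty (G ≃g H) := by
  obtain ⟨σ, hσ, hE⟩ := h
  refine ⟨⟨⟨fun x => ⟨σ x, (hσ.lt_iff _).2 x.2⟩, fun x => ⟨σ.symm x, (hσ.symm.lt_iff _).2 x.2⟩,
    fun x => by simp, fun x => by simp⟩, ?_⟩⟩
  intro a b
  rw [← mem_enc_val, ← mem_enc_val, ← hE]
  exact mem_permE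

theorem isoOn_of_iso {n : ℕ} {G H : SimpleGraph (Fin n)} (e : G ≃g H) :
    IsoOn n (enc ⟨n, G⟩) (enc ⟨n, H⟩) := by
  set σ : Equiv.Perm ℕ := Equiv.Perm.extendDomain (p := fun x => x < n) e.toEquiv
    Fin.equivSubtype with hσdef
  have hσ1 : ∀ x : Fin n, σ x.val = (e x).val := by
    intro x
    have := Equiv.Perm.extendDomain_apply_image (p := fun x => x < n) e.toEquiv
      Fin.equivSubtype x
    exact this
  have hσ : FixGE n σ := by
    intro x hx
    exact Equiv.Perm.extendDomain_apply_not_subtype e.toEquiv _ (by omega)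
  refine ⟨σ, hσ, ?_⟩
  ext c
  induction c using Sym2.ind with
  | _ a b =>
    rw [mem_permE']
    constructor
    · intro h
      obtain ⟨x, y, hxy, hx, hy⟩ := mem_enc.1 h
      have h1 : a = (e x).val := by
        rw [← hσ1 x, hx]; simp
      have h2 : b = (e y).val := by
        rw [← hσ1 y, hy]; simp
      rw [h1, h2]
      exact mem_enc_val.2 (e.map_adj_iff.2 hxy)
    · intro h
      obtain ⟨x, y, hxy, hx, hy⟩ := mem_enc.1 h
      have h1 : σ.symm a = (e.symm x).val := by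
        rw [Equiv.symm_apply_eq, hσ1, RelIso.apply_symm_apply, hx]
      have h2 : σ.symm b = (e.symm y).val := by
        rw [Equiv.symm_apply_eq, hσ1, RelIso.apply_symm_apply, hy]
      rw [h1, h2]
      refine mem_enc_val.2 (e.map_adj_iff.1 ?_)
      simpa using hxy

/-- the event of unlabeled graphs given by a label-invariant event -/
def evU (n : ℕ) (A : ESet → Prop) : Set Unlab :=
  {u | ∃ G : FG, Quotient.mk isoSetoid G = u ∧ G.1 = n ∧ A (enc G)}

theorem preimage_evU {n : ℕ} {A : ESet → Prop}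
    (hA : ∀ σ : Equiv.Perm ℕ, FixGE n σ → ∀ E, A (permE σ E) ↔ A E) :
    (Quotient.mk isoSetoid) ⁻¹' (evU n A) = {H : FG | H.1 = n ∧ A (enc H)} := by
  ext H
  constructor
  · rintro ⟨G, hG, hn, hAG⟩
    obtain ⟨e⟩ : Nonempty (G.2 ≃g H.2) := Quotient.exact hG
    obtain ⟨m, G⟩ := G
    obtain ⟨m', H⟩ := H
    have hmm : m = m' := by
      have := Fintype.card_congr e.toEquiv
      simpa using this
    subst hmm
    subst hn
    obtain ⟨σ, hσ, hE⟩ := isoOn_of_iso e
    refine ⟨rfl, ?_⟩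
    rw [← hE, hA σ hσ]
    exact hAG
  · rintro ⟨hn, hAH⟩
    exact ⟨H, rfl, hn, hAH⟩

theorem PA_evU {α : ℝ} (h0 : 0 < α) {n : ℕ} {A : ESet → Prop}
    (hA : ∀ σ : Equiv.Perm ℕ, FixGE n σ → ∀ E, A (permE σ E) ↔ A E) {m : ℕ}
    {G : SimpleGraph (Fin m)} (hm : 1 ≤ m) (hmn : m ≤ n) (hV : Valid m (enc ⟨m, G⟩)) :
    ((PA α n ⟨m, G⟩).toOuterMeasure (evU n A)).toReal = pr α m (n - m) (ind A) (enc ⟨m, G⟩) := by
  unfold PA
  rw [PMF.toOuterMeasure_map_apply, preimage_evU hA, ← paLaw_eq_pr h0 A (n - m) m G hm hV]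
  have : m + (n - m) = n := by omega
  rw [this]

end SeedPA
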